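import Pool.Agent.Work.MP_b29d7f_cvx.InterfaceC

/-!
# Convex sets: block AP (helper60)
-/

namespace Pool.Agent.Work.MP_b29d7f_cvx

open Finset
open Pool.Agent.Work.MP_b29d7f_nt (IsPOrdering HasSimultaneousOrdering PS vd ld tv)
open Pool.Agent.Work.MP_b29d7f_half (Ord A wv lD K DK HalfDense)

theorem AP_gp_mono {s : ℕ → ℤ} {C₀ : ℝ} (h : Cvx s C₀) : Monotone (gp s) := by
  apply monotone_nat_of_le_succ
  intro k
  exact h.conv k

theorem stmt_AP : Stmt_AP := by
  intro s C₀ h hd
  have hO : HasSimultaneousOrdering (Set.range s) :=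
    ⟨s, h.ord.2⟩
  obtain ⟨a, b, ha, h1, h2⟩ := (Pool.Agent.Work.MP_b29d7f_half.half_iff hd).mp hO
  have hmono := h.mono
  have hnn : ∀ k, 0 ≤ s k := by
    intro k
    have := hmono.monotone (Nat.zero_le k)
    rw [h.zero] at this
    exact this
  have hapos : 0 < a := by
    by_contra hcon
    have ha' : a ≤ -1 := by omega
    obtain ⟨k, hk⟩ := h1 (b.natAbs + 1)
    have hk0 := hnn k
    rw [hk] at hk0
    have : a * ((b.natAbs + 1 : ℕ) : ℤ) ≤ (-1) * ((b.natAbs + 1 : ℕ) : ℤ) := by
      apply mul_le_mul_of_nonneg_right ha'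
      positivity
    push_cast at this
    push_cast at hk0
    have hb : b ≤ |b| := le_abs_self b
    omega
  have hgpos : ∀ k, 0 < gp s k := by
    intro k
    have := hmono (Nat.lt_succ_self k)
    unfold gp
    simp only [Nat.succ_eq_add_one] at this
    omega
  have hgd : ∀ k, a ∣ gp s k := by
    intro k
    have e1 := h2 (s k) ⟨k, rfl⟩
    have e2 := h2 (s (k + 1)) ⟨k + 1, rfl⟩
    have e3 := dvd_sub e2 e1
    have : s (k + 1) - b - (s k - b) = gp s k := by unfold gp; ring
    rwa [this] at e3
  have hge : ∀ k, a ≤ gp s k := fun k => Int.le_of_dvd (hgpos k) (hgd k)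
  have hle : ∀ k, gp s k ≤ a := by
    intro k
    -- choose n with a n + b > s k
    obtain ⟨n, hn⟩ : ∃ n : ℕ, s k < a * n + b := by
      refine ⟨(s k - b).natAbs + 1, ?_⟩
      push_cast
      have e1 : s k - b ≤ |s k - b| := le_abs_self _
      have e2 : (0 : ℤ) ≤ |s k - b| := abs_nonneg _
      nlinarith
    obtain ⟨i, hi⟩ := h1 n
    obtain ⟨j, hj⟩ := h1 (n + 1)
    have hik : k < i := by
      by_contra hcon
      have := hmono.monotone (not_lt.mp hcon)
      omega
    have hij : i < j := by
      by_contra hcon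
      have := hmono.monotone (not_lt.mp hcon)
      push_cast at hj
      nlinarith
    have e1 : s (i + 1) ≤ s j := hmono.monotone hij
    have e2 : gp s k ≤ gp s i := AP_gp_mono h hik.le
    have e3 : gp s i ≤ s j - s i := by unfold gp; omega
    have e4 : s j - s i = a := by rw [hj, hi]; push_cast; ring
    omega
  have hg : ∀ k, gp s k = a := fun k => le_antisymm (hle k) (hge k)
  have hs : ∀ n : ℕ, s n = n * a := by
    intro n
    induction n with
    | zero => rw [h.zero]; simp
    | succ n ih =>
      have := hg n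
      unfold gp at this
      push_cast
      linarith
  intro n
  rw [hs n, hs 1]
  push_cast
  ring

end Pool.Agent.Work.MP_b29d7f_cvx
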