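import Pool.Agent.Work.MP_b29d7f_cvx.InterfaceC

/-!
# Block ARC: archimedean facts on convex sequences
-/

namespace Pool.Agent.Work.MP_b29d7f_cvx

open Finset
open Pool.Agent.Work.MP_b29d7f_half (Ord)

namespace ARCB

variable {s : ℕ → ℤ} {C₀ : ℝ}

theorem gpm (h : Cvx s C₀) : Monotone (gp s) := monotone_nat_of_le_succ h.conv

theorem s_succ (s : ℕ → ℤ) (k : ℕ) : s (k + 1) = s k + gp s k := by
  unfold gp
  ring

theorem nn (h : Cvx s C₀) (k : ℕ) : 0 ≤ s k := by
  rw [← h.zero]
  exact h.mono.monotone (Nat.zero_le k)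

theorem a1 (h : Cvx s C₀) (i j l : ℕ) (hij : i ≤ j) : s (i + l) - s i ≤ s (j + l) - s j := by
  induction l with
  | zero => simp
  | succ l ih =>
    have h1 := gpm h (show i + l ≤ j + l by omega)
    have e1 := s_succ s (i + l)
    have e2 := s_succ s (j + l)
    rw [show i + (l + 1) = i + l + 1 by ring, show j + (l + 1) = j + l + 1 by ring]
    linarith

theorem a4 (h : Cvx s C₀) (k : ℕ) : s k ≤ k * gp s k := by
  induction k with
  | zero => simp [h.zero]
  | succ k ih =>
    have h1 : gp s k ≤ gp s (k + 1) := gpm h (Nat.le_succ k)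
    rw [s_succ s k]
    push_cast
    have h2 : (k : ℤ) * gp s k ≤ k * gp s (k + 1) :=
      mul_le_mul_of_nonneg_left h1 (Int.natCast_nonneg k)
    linarith

theorem a2' (h : Cvx s C₀) (i j : ℕ) (hij : i ≤ j) : (j : ℤ) * s i ≤ i * s j := by
  induction j, hij using Nat.le_induction with
  | base => exact le_refl _
  | succ j hij ih =>
    rw [s_succ s j]
    push_cast
    have h1 := a4 h i
    have h2 : (i : ℤ) * gp s i ≤ i * gp s j :=
      mul_le_mul_of_nonneg_left (gpm h hij) (Int.natCast_nonneg i)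
    linarith

theorem a3 (h : Cvx s C₀) (i j : ℕ) (hij : i ≤ j) : ((j : ℤ) - i) * gp s i ≤ s j - s i := by
  induction j, hij using Nat.le_induction with
  | base => simp
  | succ j hij ih =>
    rw [s_succ s j]
    push_cast
    have h2 : gp s i ≤ gp s j := gpm h hij
    linarith

theorem a5 (h : Cvx s C₀) (k : ℕ) : (k : ℤ) ≤ s k := by
  induction k with
  | zero => simp [h.zero]
  | succ k ih =>
    have h1 : s k < s (k + 1) := h.mono (Nat.lt_succ_self k)
    push_cast
    omega

theorem a6 (h : Cvx s C₀) (k : ℕ) : 0 < Dk s k := by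
  unfold Dk
  refine Finset.prod_pos fun i hi => ?_
  have := h.mono (Finset.mem_range.1 hi)
  linarith

theorem up (h : Cvx s C₀) (k : ℕ) : Dk s k ≤ s k ^ k := by
  unfold Dk
  calc ∏ i ∈ range k, (s k - s i) ≤ ∏ _i ∈ range k, s k := by
        refine Finset.prod_le_prod (fun i hi => ?_) (fun i _ => ?_)
        · have := h.mono (Finset.mem_range.1 hi)
          linarith
        · have := nn h i
          linarith
    _ = s k ^ k := by rw [Finset.prod_const, Finset.card_range]

theorem lo (h : Cvx s C₀) (k : ℕ) : (k.factorial : ℤ) * s k ^ k ≤ (k : ℤ) ^ k * Dk s k := by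
  have e1 : (k.factorial : ℤ) * s k ^ k = ∏ i ∈ range k, (((k : ℤ) - i) * s k) := by
    rw [Finset.prod_mul_distrib, Finset.prod_const, Finset.card_range]
    congr 1
    rw [← Finset.prod_range_add_one_eq_factorial, Nat.cast_prod,
      ← Finset.prod_range_reflect (fun i : ℕ => (((i + 1 : ℕ)) : ℤ)) k]
    refine Finset.prod_congr rfl fun i hi => ?_
    have := Finset.mem_range.1 hi
    push_cast [Nat.cast_sub (show 1 ≤ k by omega), Nat.cast_sub (show i ≤ k - 1 by omega)]
    ring
  have e2 : (k : ℤ) ^ k * Dk s k = ∏ i ∈ range k, ((k : ℤ) * (s k - s i)) := by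
    rw [Finset.prod_mul_distrib, Finset.prod_const, Finset.card_range]
    rfl
  rw [e1, e2]
  refine Finset.prod_le_prod (fun i hi => ?_) (fun i hi => ?_)
  · have h1 := Finset.mem_range.1 hi
    exact mul_nonneg (by omega) (nn h k)
  · have h1 := a2' h i k (Finset.mem_range.1 hi).le
    linarith

end ARCB

open ARCB in
theorem stmt_ARC : Stmt_ARC := by
  intro s C₀ h
  refine ⟨fun i j l => a1 h i j l, fun i j hij => ?_, fun i j => a3 h i j, a4 h, a5 h, a6 h, ?_⟩
  · have := a2' h i j hij
    linarith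
  · intro k hk
    have hkR : (0 : ℝ) < k := by exact_mod_cast hk
    have hD : (0 : ℝ) < (Dk s k : ℝ) := by exact_mod_cast a6 h k
    have hs : (0 : ℝ) < (s k : ℝ) := by
      have := a5 h k
      have h2 : (0 : ℤ) < s k := by omega
      exact_mod_cast h2
    have hf : (0 : ℝ) < (k.factorial : ℝ) := by exact_mod_cast k.factorial_pos
    constructor
    · have h1 := Pool.Agent.Work.MP_b29d7f_nt.log_factorial_ge k
      have h2 : ((k.factorial : ℝ)) * (s k : ℝ) ^ k ≤ (k : ℝ) ^ k * (Dk s k : ℝ) := by
        exact_mod_cast lo h k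
      have h3 := Real.log_le_log (by positivity) h2
      rw [Real.log_mul hf.ne' (by positivity), Real.log_mul (by positivity) hD.ne', Real.log_pow,
        Real.log_pow] at h3
      linarith
    · have h2 : (Dk s k : ℝ) ≤ (s k : ℝ) ^ k := by exact_mod_cast up h k
      have h3 := Real.log_le_log hD h2
      rwa [Real.log_pow] at h3

end Pool.Agent.Work.MP_b29d7f_cvx
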