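import Pool.Agent.Work.MP_b29d7f_cvx.Interface

/-! # Block BIG (helper87) -/

set_option autoImplicit false

namespace Pool.Agent.Work.MP_b29d7f_cvx

open Finset
open Pool.Agent.Work.MP_b29d7f_sep (nv EW EL)

theorem stmt_BIG (h1 : Stmt_PAE) : Stmt_BIG := by
  intro s C₀ hs P p hp h0
  have hnv0 : nv p s 0 = 0 := by simp [nv]
  have key : ∀ i j : ℕ, i < j → j ≤ P → ¬ (p : ℤ) ∣ s j - s i := by
    intro i j hij hj
    exact (h1 s C₀ hs p hp).2.2.2.2.2.2 0 P i j (Nat.zero_le i) hij hj (by rw [h0, hnv0])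
  refine ⟨?_, key⟩
  by_contra hcon
  push Not at hcon
  have hp0 : (p : ℤ) ≠ 0 := by exact_mod_cast hp.ne_zero
  have hpp : 0 < p := hp.pos
  obtain ⟨i, hi, j, hj, hne, he⟩ := Finset.exists_ne_map_eq_of_card_lt_of_maps_to
    (s := range (P + 1)) (t := range p) (by rw [card_range, card_range]; omega)
    (f := fun i => (s i % p).toNat) (by
      intro i _
      have a1 := Int.emod_nonneg (s i) hp0
      have a2 := Int.emod_lt_of_pos (s i) (by exact_mod_cast hpp : (0 : ℤ) < p)
      simp only [coe_range, Set.mem_Iio]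
      omega)
  have hmod : s i % p = s j % p := by
    have a1 := Int.emod_nonneg (s i) hp0
    have a2 := Int.emod_nonneg (s j) hp0
    have he' : (s i % p).toNat = (s j % p).toNat := he
    omega
  rw [mem_range] at hi hj
  rcases Nat.lt_or_gt_of_ne hne with h | h
  · exact key i j h (by omega) (Int.ModEq.dvd hmod)
  · exact key j i h (by omega) (Int.ModEq.dvd hmod.symm)

end Pool.Agent.Work.MP_b29d7f_cvx
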