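import Pool.Agent.Work.MP_b29d7f_cvx.Interface

/-!
# Block CATCHB of the convex classification (helper16)
-/

namespace Pool.Agent.Work.MP_b29d7f_cvx

open Finset
open Pool.Agent.Work.MP_b29d7f_half (lD)
open Pool.Agent.Work.MP_b29d7f_sep (nv EW EL)

namespace CATCHaux

/-- the defect -/
noncomputable def dft (p : ℕ) (s : ℕ → ℤ) (k i : ℕ) : ℝ :=
  (nv p s k : ℝ) - ∑ l ∈ (range k).erase i, (vl p s i l : ℝ)

/-- the indices `i ≤ P` in none of the classes of the window -/
noncomputable def free (p : ℕ) (s : ℕ → ℤ) (P u v : ℕ) : Finset ℕ := by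
  classical
  exact (range (P + 1)).filter fun i => ∀ l : ℕ, u ≤ l → l < v → ¬ (p : ℤ) ∣ s i - s l

theorem mem_free {p : ℕ} {s : ℕ → ℤ} {P u v i : ℕ} :
    i ∈ free p s P u v ↔ i ≤ P ∧ ∀ l : ℕ, u ≤ l → l < v → ¬ (p : ℤ) ∣ s i - s l := by
  unfold free
  simp

theorem card_free (p : ℕ) (s : ℕ → ℤ) (P u v : ℕ)
    (hd : ∀ i j : ℕ, i < j → j ≤ P → ¬ (p : ℤ) ∣ s j - s i) :
    P + 1 ≤ (free p s P u v).card + (v - u) := by
  classical
  set B : Finset ℕ := (range (P + 1)) \ free p s P u v with hB
  have h1 : ∀ i ∈ B, ∃ l, l ∈ Ico u v ∧ (p : ℤ) ∣ s i - s l := by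
    intro i hi
    rw [hB, mem_sdiff, mem_range, mem_free] at hi
    obtain ⟨hi1, hi2⟩ := hi
    by_contra h
    push Not at h
    apply hi2
    refine ⟨by omega, fun l hl1 hl2 => h l (mem_Ico.2 ⟨hl1, hl2⟩)⟩
  choose! f hf1 hf2 using h1
  have h2 : B.card ≤ (Ico u v).card := by
    refine card_le_card_of_injOn f (fun i hi => hf1 i hi) ?_
    intro i hi j hj hij
    by_contra hne
    have hi' : i ≤ P := by
      have := (mem_sdiff.1 (hB ▸ (Finset.mem_coe.1 hi))).1
      rw [mem_range] at this
      omega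
    have hj' : j ≤ P := by
      have := (mem_sdiff.1 (hB ▸ (Finset.mem_coe.1 hj))).1
      rw [mem_range] at this
      omega
    have h3 := hf2 i hi
    have h4 := hf2 j hj
    rw [hij] at h3
    rcases lt_or_gt_of_ne hne with h | h
    · exact hd i j h hj' (by
        have := dvd_sub h4 h3
        rwa [show s j - s (f j) - (s i - s (f j)) = s j - s i by ring] at this)
    · exact hd j i h hi' (by
        have := dvd_sub h3 h4
        rwa [show s i - s (f j) - (s j - s (f j)) = s i - s j by ring] at this)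
  have h5 : B.card = (P + 1) - (free p s P u v).card := by
    rw [hB, card_sdiff_of_subset, card_range]
    intro i hi
    rw [mem_free] at hi
    rw [mem_range]
    omega
  have h6 : (free p s P u v).card ≤ P + 1 := by
    have : free p s P u v ⊆ range (P + 1) := by
      intro i hi
      rw [mem_free] at hi
      rw [mem_range]
      omega
    have := card_le_card this
    rwa [card_range] at this
  rw [Nat.card_Ico] at h2
  omega

end CATCHaux

open CATCHaux in
theorem stmt_CATCHB (hPAD : Stmt_PAD) (hPAE : Stmt_PAE) (hSUPER : Stmt_SUPER)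
    (hDEFL : Stmt_DEFL) : Stmt_CATCHB := by
  intro s C₀ hs N M P hN hPN hM
  have hprime : ∀ p ∈ PC s N M P, p.Prime := by
    intro p hp
    have := (mem_PC.1 hp).1
    unfold PR at this
    exact Nat.prime_of_mem_primeFactors this
  have hlog : ∀ p : ℕ, 0 ≤ Real.log p := fun p => Real.log_natCast_nonneg p
  have hL2 : 0 ≤ Lg s (2 * N) := by
    unfold Lg
    apply Real.log_nonneg
    have h1 : (0 : ℤ) < s (2 * N) := hs.pos (by omega)
    exact_mod_cast h1
  -- pointwise inequality
  have key : ∀ p ∈ PC s N M P, ((P : ℝ) + 1) * (Real.log p * nv p s N) ≤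
      2 * ∑ i ∈ range (P + 1), Real.log p * dft p s (2 * N) i := by
    intro p hp
    have hpp := hprime p hp
    obtain ⟨-, hnvP, u, v, huv, hvM, hvN, hcatch⟩ := mem_PC.1 hp
    obtain ⟨hmono, h0, hF1, hF2⟩ := hPAD s C₀ hs p hpp
    obtain ⟨hsym, -, hiff, -, -, -, hdist⟩ := hPAE s C₀ hs p hpp
    have hdis : ∀ i j : ℕ, i < j → j ≤ P → ¬ (p : ℤ) ∣ s j - s i := fun i j hij hj =>
      hdist 0 P i j (Nat.zero_le _) hij hj (by rw [hnvP, h0])
    have hcard := card_free p s P u v hdis
    -- all defects are nonnegative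
    have hd0 : ∀ i ∈ range (P + 1), 0 ≤ dft p s (2 * N) i := by
      intro i hi
      rw [mem_range] at hi
      have h1 := (hDEFL s C₀ hs i (2 * N) (by omega) (by omega)).1 p hpp
      have h2 : ∑ l ∈ (range (2 * N)).erase i, (vl p s i l : ℝ) ≤ nv p s (2 * N) := by
        exact_mod_cast h1
      unfold dft
      linarith
    -- the defect of a free index
    have hfree : ∀ i ∈ free p s P u v, (nv p s N : ℝ) ≤ dft p s (2 * N) i := by
      intro i hi
      obtain ⟨hiP, hi2⟩ := mem_free.1 hi
      have hiv : i < v := by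
        by_contra h
        push Not at h
        obtain ⟨l, hl1, hl2, hl3⟩ := hcatch i h (by omega)
        exact hi2 l hl1 hl2 hl3
      have hz : ∀ l : ℕ, v ≤ l → l < 2 * N → vl p s i l = 0 := by
        intro l hl1 hl2
        obtain ⟨l', h1, h2, h3⟩ := hcatch l hl1 hl2
        rw [hiff i l (by omega)]
        intro h4
        apply hi2 l' h1 h2
        have := dvd_add h4 h3
        rwa [show s i - s l + (s l - s l') = s i - s l' by ring] at this
      have h1 : ∑ l ∈ (range (2 * N)).erase i, vl p s i l =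
          ∑ l ∈ (range v).erase i, vl p s i l := by
        symm
        refine sum_subset (erase_subset_erase _ (range_subset_range.2 (by omega))) ?_
        intro l hl1 hl2
        rw [mem_erase, mem_range] at hl1 hl2
        exact hz l (by omega) hl1.2
      have h2 := hF2 0 (v - 1) i (Nat.zero_le _) (by omega)
      have h3 : Icc 0 (v - 1) = range v := by
        ext x
        simp only [mem_Icc, mem_range]
        omega
      rw [h3, h0, zero_add, ← h1] at h2
      have h4 : ∑ l ∈ (range (2 * N)).erase i, vl p s i l ≤ nv p s N :=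
        h2.trans (hmono (by omega))
      have h5 := hSUPER s C₀ hs p hpp N N
      rw [show N + N = 2 * N by ring] at h5
      have h6 : ∑ l ∈ (range (2 * N)).erase i, (vl p s i l : ℝ) ≤ nv p s N := by
        exact_mod_cast h4
      have h7 : (nv p s N : ℝ) + nv p s N ≤ nv p s (2 * N) := by exact_mod_cast h5
      unfold dft
      linarith
    have h1 : ((free p s P u v).card : ℝ) * nv p s N ≤
        ∑ i ∈ range (P + 1), dft p s (2 * N) i := by
      have h2 : ∑ i ∈ free p s P u v, dft p s (2 * N) i ≤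
          ∑ i ∈ range (P + 1), dft p s (2 * N) i := by
        refine sum_le_sum_of_subset_of_nonneg ?_ fun i hi _ => hd0 i hi
        intro i hi
        have := (mem_free.1 hi).1
        rw [mem_range]
        omega
      have h3 : ((free p s P u v).card : ℝ) * nv p s N ≤
          ∑ i ∈ free p s P u v, dft p s (2 * N) i := by
        rw [← nsmul_eq_mul]
        exact card_nsmul_le_sum _ _ _ hfree
      exact h3.trans h2
    have h2 : ((P : ℝ) + 1) ≤ 2 * ((free p s P u v).card : ℝ) := by
      have : P + 1 ≤ 2 * (free p s P u v).card := by omega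
      exact_mod_cast this
    have h3 : ((P : ℝ) + 1) * nv p s N ≤ 2 * ((free p s P u v).card : ℝ) * nv p s N :=
      mul_le_mul_of_nonneg_right h2 (Nat.cast_nonneg _)
    have h4 : ((P : ℝ) + 1) * nv p s N ≤ 2 * ∑ i ∈ range (P + 1), dft p s (2 * N) i := by
      linarith
    have h5 := mul_le_mul_of_nonneg_left h4 (hlog p)
    rw [← mul_sum]
    linarith
  have hsum := sum_le_sum key
  rw [← mul_sum, ← mul_sum, sum_comm] at hsum
  have h1 : ∀ i ∈ range (P + 1), ∑ p ∈ PC s N M P, Real.log p * dft p s (2 * N) i ≤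
      GG s (2 * N) + 2 * N * Real.log 2 + (2 * P + 1) * Lg s (2 * N) := by
    intro i hi
    rw [mem_range] at hi
    have h2 := (hDEFL s C₀ hs i (2 * N) (by omega) (by omega)).2 (PC s N M P) hprime
    refine h2.trans ?_
    have h3 : (2 * (i : ℝ) + 1) * Lg s (2 * N) ≤ (2 * P + 1) * Lg s (2 * N) := by
      apply mul_le_mul_of_nonneg_right _ hL2
      have : (i : ℝ) ≤ P := by exact_mod_cast (by omega : i ≤ P)
      linarith
    push_cast
    linarith
  have h2 := sum_le_sum h1
  rw [sum_const, card_range, nsmul_eq_mul] at h2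
  push_cast at h2
  have hP1 : (0 : ℝ) < (P : ℝ) + 1 := by positivity
  have h3 : ((P : ℝ) + 1) * ∑ p ∈ PC s N M P, Real.log p * (nv p s N : ℝ) ≤
      ((P : ℝ) + 1) * (2 * (GG s (2 * N) + 2 * N * Real.log 2 + (2 * P + 1) * Lg s (2 * N))) := by
    linarith
  exact le_of_mul_le_mul_left h3 hP1

end Pool.Agent.Work.MP_b29d7f_cvx
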