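import Pool.Agent.Work.MP_b29d7f_cvx.Interface2

/-!
# Convex sets: block CHAIN (helper99)
-/

namespace Pool.Agent.Work.MP_b29d7f_cvx

open Finset

theorem CHAIN_lo {s : ℕ → ℤ} (hg : Monotone (gp s)) {k i : ℕ} (hk : k ≤ i) :
    ∀ n : ℕ, (n : ℤ) * gp s k ≤ s (i + n) - s i := by
  intro n
  induction n with
  | zero => simp
  | succ n ih =>
    have h1 : gp s k ≤ gp s (i + n) := hg (by omega)
    have h2 : gp s (i + n) = s (i + (n + 1)) - s (i + n) := by
      unfold gp
      rw [show i + n + 1 = i + (n + 1) by ring]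
    push_cast
    nlinarith

theorem CHAIN_hi {s : ℕ → ℤ} (hg : Monotone (gp s)) {k i : ℕ} :
    ∀ n : ℕ, i + n ≤ k + 1 → s (i + n) - s i ≤ (n : ℤ) * gp s k := by
  intro n
  induction n with
  | zero => intro _; simp
  | succ n ih =>
    intro hn
    have h0 := ih (by omega)
    have h1 : gp s (i + n) ≤ gp s k := hg (by omega)
    have h2 : gp s (i + n) = s (i + (n + 1)) - s (i + n) := by
      unfold gp
      rw [show i + n + 1 = i + (n + 1) by ring]
    push_cast
    nlinarith

/-- two integers in `[0, H n]`, `[0, H n']` with `n, n' ≤ m` -/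
theorem CHAIN_small {H n n' m q q' : ℤ} (hn : 0 ≤ n) (hn' : 0 ≤ n') (hnm : n ≤ m)
    (hnm' : n' ≤ m) (hH : 0 ≤ H) (h1 : 0 ≤ q) (h2 : q ≤ n * H) (h3 : 0 ≤ q') (h4 : q' ≤ n' * H) :
    |n' * q - n * q'| ≤ H * m ^ 2 := by
  have e1 : 0 ≤ n' * q := mul_nonneg hn' h1
  have e2 : 0 ≤ n * q' := mul_nonneg hn h3
  have e3 : n' * q ≤ n' * (n * H) := mul_le_mul_of_nonneg_left h2 hn'
  have e4 : n * q' ≤ n * (n' * H) := mul_le_mul_of_nonneg_left h4 hn
  have e5 : n * n' ≤ m * m := mul_le_mul hnm hnm' hn' (hn.trans hnm)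
  have e6 : n * n' * H ≤ m * m * H := mul_le_mul_of_nonneg_right e5 hH
  rw [abs_le]
  constructor
  · nlinarith
  · nlinarith

theorem stmt_CHAIN : Stmt_CHAIN := by
  intro s hs hg p u m x y H hp hF hH hmp hux hxy hyu hI hJ i j i' j' hui hii hix hyj hju hyj' hju'
    hd hd'
  have hF' : gp s (u + m) - gp s u ≤ H := hF
  have hH0 : 0 ≤ H := by
    have := hg (show u ≤ u + m by omega)
    omega
  -- write the indices as sums
  obtain ⟨n, rfl⟩ : ∃ n, j = i + n := ⟨j - i, by omega⟩
  obtain ⟨n', rfl⟩ : ∃ n', j' = i' + n' := ⟨j' - i', by omega⟩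
  have hn : n ≤ m := by omega
  have hn' : n' ≤ m := by omega
  have l1 := CHAIN_lo hg hui n
  have l2 := CHAIN_lo hg (show u ≤ i' by omega) n'
  have u1 := CHAIN_hi hg (k := u + m) (i := i) n (by omega)
  have u2 := CHAIN_hi hg (k := u + m) (i := i') n' (by omega)
  have u1' : s (i + n) - s i ≤ (n : ℤ) * (gp s u + H) :=
    u1.trans (mul_le_mul_of_nonneg_left (by omega) (by positivity))
  have u2' : s (i' + n') - s i' ≤ (n' : ℤ) * (gp s u + H) :=
    u2.trans (mul_le_mul_of_nonneg_left (by omega) (by positivity))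
  have hD : (n' : ℤ) * (s (i + n) - s i) = (n : ℤ) * (s (i' + n') - s i') := by
    have habs := CHAIN_small (H := H) (n := n) (n' := n') (m := m)
      (q := s (i + n) - s i - n * gp s u) (q' := s (i' + n') - s i' - n' * gp s u)
      (by positivity) (by positivity) (by exact_mod_cast hn) (by exact_mod_cast hn') hH0
      (by linarith) (by linarith) (by linarith) (by linarith)
    have heq : (n' : ℤ) * (s (i + n) - s i - n * gp s u) - n * (s (i' + n') - s i' - n' * gp s u) =
        (n' : ℤ) * (s (i + n) - s i) - n * (s (i' + n') - s i') := by ring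
    rw [heq] at habs
    have hdv : (p : ℤ) ∣ (n' : ℤ) * (s (i + n) - s i) - n * (s (i' + n') - s i') :=
      dvd_sub (hd.mul_left _) (hd'.mul_left _)
    have := Int.eq_zero_of_abs_lt_dvd hdv (lt_of_le_of_lt habs hH)
    linarith
  have e1 : (((i + n : ℕ) : ℤ) - i) = n := by push_cast; ring
  have e2 : (((i' + n' : ℕ) : ℤ) - i') = n' := by push_cast; ring
  refine ⟨?_, by rw [e1, e2]; exact hD⟩
  by_contra hcon
  rcases Nat.lt_or_ge (i + n) (i' + n') with hlt | hge
  · -- equal gaps
    obtain ⟨a, ha⟩ : ∃ a, i' = i + (a + 1) := ⟨i' - i - 1, by omega⟩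
    obtain ⟨b, hb⟩ : ∃ b, i + n = i' + (b + 1) := ⟨i + n - i' - 1, by omega⟩
    obtain ⟨c, hc⟩ : ∃ c, i' + n' = i + n + (c + 1) := ⟨i' + n' - (i + n) - 1, by omega⟩
    have A1 := CHAIN_hi hg (k := i + a) (i := i) (a + 1) (by omega)
    rw [← ha] at A1
    have B1 := CHAIN_lo hg (show i + a ≤ i' by omega) (b + 1)
    rw [← hb] at B1
    have B2 := CHAIN_hi hg (k := i + n) (i := i') (b + 1) (by omega)
    rw [← hb] at B2
    have C1 := CHAIN_lo hg (le_refl (i + n)) (c + 1)
    rw [← hc] at C1
    have hmid : gp s (i + a) ≤ gp s (i + n) := hg (by omega)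
    have hnab : (n : ℤ) = (a + 1) + (b + 1) := by
      have : n = (a + 1) + (b + 1) := by omega
      rw [this]; push_cast; ring
    have hnbc : (n' : ℤ) = (b + 1) + (c + 1) := by
      have : n' = (b + 1) + (c + 1) := by omega
      rw [this]; push_cast; ring
    set α : ℤ := (a : ℤ) + 1 with hα
    set β : ℤ := (b : ℤ) + 1 with hβ
    set γ : ℤ := (c : ℤ) + 1 with hγ
    have hα0 : 0 < α := by positivity
    have hβ0 : 0 < β := by positivity
    have hγ0 : 0 < γ := by positivity
    set A : ℤ := s i' - s i with hA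
    set B : ℤ := s (i + n) - s i' with hB
    set C : ℤ := s (i' + n') - s (i + n) with hC
    push_cast at A1 B1 B2 C1
    rw [← hα] at A1
    rw [← hβ] at B1 B2
    rw [← hγ] at C1
    have hD' : (β + γ) * (A + B) = (α + β) * (B + C) := by
      rw [hnab, hnbc] at hD
      have f1 : s (i + n) - s i = A + B := by rw [hA, hB]; ring
      have f2 : s (i' + n') - s i' = B + C := by rw [hB, hC]; ring
      rw [f1, f2] at hD
      exact hD
    -- inequalities
    have k1 : β * A ≤ α * B := by
      calc β * A ≤ β * (α * gp s (i + a)) := mul_le_mul_of_nonneg_left A1 hβ0.le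
        _ = α * (β * gp s (i + a)) := by ring
        _ ≤ α * B := mul_le_mul_of_nonneg_left B1 hα0.le
    have k2 : γ * B ≤ β * C := by
      calc γ * B ≤ γ * (β * gp s (i + n)) := mul_le_mul_of_nonneg_left B2 hγ0.le
        _ = β * (γ * gp s (i + n)) := by ring
        _ ≤ β * C := mul_le_mul_of_nonneg_left C1 hβ0.le
    have k3 : γ * A ≤ α * C := by
      calc γ * A ≤ γ * (α * gp s (i + a)) := mul_le_mul_of_nonneg_left A1 hγ0.le
        _ ≤ γ * (α * gp s (i + n)) :=
            mul_le_mul_of_nonneg_left (mul_le_mul_of_nonneg_left hmid hα0.le) hγ0.le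
        _ = α * (γ * gp s (i + n)) := by ring
        _ ≤ α * C := mul_le_mul_of_nonneg_left C1 hα0.le
    have k4 : β * A = α * B := by nlinarith
    have m1 : A = α * gp s (i + a) := by
      have : β * A = β * (α * gp s (i + a)) := by
        apply le_antisymm
        · exact mul_le_mul_of_nonneg_left A1 hβ0.le
        · rw [k4]
          calc β * (α * gp s (i + a)) = α * (β * gp s (i + a)) := by ring
            _ ≤ α * B := mul_le_mul_of_nonneg_left B1 hα0.le
      exact mul_left_cancel₀ hβ0.ne' this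
    have m2 : B = β * gp s (i + a) := by
      have : α * B = α * (β * gp s (i + a)) := by
        rw [← k4, m1]; ring
      exact mul_left_cancel₀ hα0.ne' this
    have hdv : (p : ℤ) ∣ (n : ℤ) * gp s (i + a) := by
      have : s (i + n) - s i = (n : ℤ) * gp s (i + a) := by
        rw [hnab]
        have : s (i + n) - s i = A + B := by rw [hA, hB]; ring
        rw [this, m1, m2]; ring
      rw [← this]; exact hd
    have hpp : Prime (p : ℤ) := Nat.prime_iff_prime_int.mp hp
    rcases hpp.dvd_or_dvd hdv with h | h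
    · have h' : p ∣ n := by exact_mod_cast h
      have := Nat.le_of_dvd (by omega) h'
      omega
    · apply hI (i + a) i' (by omega) (by omega) hix
      have : gp s (i + a) = s i' - s (i + a) := by
        unfold gp
        rw [ha, show i + a + 1 = i + (a + 1) by ring]
      rw [← this]; exact h
  · have heq : i + n = i' + n' := by omega
    apply hI i i' hui hii hix
    have : s i' - s i = (s (i + n) - s i) - (s (i' + n') - s i') := by
      rw [heq]; ring
    rw [this]
    exact dvd_sub hd hd'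

end Pool.Agent.Work.MP_b29d7f_cvx
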