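import Pool.Agent.Work.MP_b29d7f_cvx.InterfaceC

/-!
# MP_b29d7f_nt, convex sets: block CONIC
-/

set_option autoImplicit false

open Finset

namespace Pool.Agent.Work.MP_b29d7f_cvx

/-- Affine points of the conic. -/
theorem CONIC_points (p : ℕ) [Fact p.Prime] (hp : p ≠ 2) (α β : ZMod p) (hα : α ≠ 0)
    (hβ : β ≠ 0) :
    ((univ : Finset (ZMod p × ZMod p)).filter (fun q => q.2 ^ 2 = α * q.1 ^ 2 + β)).card
      ≤ p + 1 := by
  classical
  have h2 : (2 : ZMod p) ≠ 0 := by
    intro h
    have : (p : ℕ) ∣ 2 := (ZMod.natCast_eq_zero_iff 2 p).1 (by exact_mod_cast h)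
    exact hp (((Nat.prime_dvd_prime_iff_eq (Fact.out) Nat.prime_two).1 this))
  set T := (univ : Finset (ZMod p × ZMod p)).filter (fun q => q.2 ^ 2 = α * q.1 ^ 2 + β) with hT
  rcases T.eq_empty_or_nonempty with h0 | ⟨⟨z0, y0⟩, hP⟩
  · rw [h0]; simp
  have hP' : y0 ^ 2 = α * z0 ^ 2 + β := by
    simpa [hT] using hP
  have hmem : ∀ q : ZMod p × ZMod p, q ∈ T.erase (z0, y0) →
      q.2 ^ 2 = α * q.1 ^ 2 + β ∧ q ≠ (z0, y0) := by
    intro q hq
    rw [mem_erase] at hq
    refine ⟨?_, hq.1⟩
    simpa [hT] using hq.2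
  -- the slope
  let φ : ZMod p × ZMod p → ZMod p := fun q =>
    if q.1 = z0 then α * z0 / y0 else (q.2 - y0) / (q.1 - z0)
  -- the relation between slope and parameter
  have hrel : ∀ z y l : ZMod p, y ^ 2 = α * z ^ 2 + β → z ≠ z0 → y - y0 = l * (z - z0) →
      (z - z0) * (l ^ 2 - α) = 2 * α * z0 - 2 * y0 * l := by
    intro z y l h hz hl
    have hne : z - z0 ≠ 0 := sub_ne_zero.2 hz
    have hy : y = y0 + l * (z - z0) := by rw [← hl]; ring
    apply mul_left_cancel₀ hne
    rw [hy] at h
    linear_combination h - hP'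
  have hnsq : ∀ z y l : ZMod p, y ^ 2 = α * z ^ 2 + β → z ≠ z0 → y - y0 = l * (z - z0) →
      l ^ 2 ≠ α := by
    intro z y l h hz hl hc
    have h1 := hrel z y l h hz hl
    rw [hc, sub_self, mul_zero] at h1
    have h3 : α * z0 = y0 * l := by
      apply mul_left_cancel₀ h2
      linear_combination -h1
    have h4 : α * (α * z0 ^ 2) = α * y0 ^ 2 := by
      have : (α * z0) ^ 2 = (y0 * l) ^ 2 := by rw [h3]
      calc α * (α * z0 ^ 2) = (α * z0) ^ 2 := by ring
        _ = (y0 * l) ^ 2 := this
        _ = y0 ^ 2 * l ^ 2 := by ring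
        _ = α * y0 ^ 2 := by rw [hc]; ring
    have h5 := mul_left_cancel₀ hα h4
    rw [hP'] at h5
    exact hβ (by linear_combination -h5)
  have hinj : Set.InjOn φ (T.erase (z0, y0) : Finset (ZMod p × ZMod p)) := by
    rintro ⟨z, y⟩ hq ⟨z', y'⟩ hq' heq
    obtain ⟨h1, h1'⟩ := hmem _ hq
    obtain ⟨h3, h3'⟩ := hmem _ hq'
    simp only at h1 h3
    -- a vertical point
    have hvert : ∀ w x : ZMod p, x ^ 2 = α * w ^ 2 + β → (w, x) ≠ (z0, y0) → w = z0 →
        x = -y0 ∧ y0 ≠ 0 := by
      intro w x hx hne hw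
      subst hw
      have h6 : (x - y0) * (x + y0) = 0 := by linear_combination hx - hP'
      have h7 : x ≠ y0 := fun h => hne (by rw [h])
      have h8 : x = -y0 := by
        have := (mul_eq_zero.1 h6).resolve_left (sub_ne_zero.2 h7)
        linear_combination this
      refine ⟨h8, fun h => h7 ?_⟩
      rw [h8, h, neg_zero]
    have hmix : ∀ w x w' x' : ZMod p, x ^ 2 = α * w ^ 2 + β → (w, x) ≠ (z0, y0) → w = z0 →
        x' ^ 2 = α * w' ^ 2 + β → w' ≠ z0 → α * z0 / y0 ≠ (x' - y0) / (w' - z0) := by
      intro w x w' x' hx hne hw hx' hw' hEq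
      obtain ⟨-, hy0⟩ := hvert w x hx hne hw
      have hne' : w' - z0 ≠ 0 := sub_ne_zero.2 hw'
      set l := (x' - y0) / (w' - z0) with hl
      have hl' : x' - y0 = l * (w' - z0) := by rw [hl]; field_simp
      have h6 := hrel w' x' l hx' hw' hl'
      have h7 : α * z0 = l * y0 := by rw [← hEq]; field_simp
      have h8 : (w' - z0) * (l ^ 2 - α) = 0 := by rw [h6]; linear_combination 2 * h7
      have h9 := (mul_eq_zero.1 h8).resolve_left hne'
      exact hnsq w' x' l hx' hw' hl' (sub_eq_zero.1 h9)
    by_cases hz : z = z0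
    · by_cases hz' : z' = z0
      · rw [hz, hz', (hvert z y h1 h1' hz).1, (hvert z' y' h3 h3' hz').1]
      · exfalso
        simp only [φ, if_pos hz, if_neg hz'] at heq
        exact hmix z y z' y' h1 h1' hz h3 hz' heq
    · by_cases hz' : z' = z0
      · exfalso
        simp only [φ, if_pos hz', if_neg hz] at heq
        exact hmix z' y' z y h3 h3' hz' h1 hz heq.symm
      · simp only [φ, if_neg hz', if_neg hz] at heq
        have hn1 : z - z0 ≠ 0 := sub_ne_zero.2 hz
        have hn2 : z' - z0 ≠ 0 := sub_ne_zero.2 hz'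
        set l := (y - y0) / (z - z0) with hl
        have hl1 : y - y0 = l * (z - z0) := by rw [hl]; field_simp
        have hl2 : y' - y0 = l * (z' - z0) := by rw [heq]; field_simp
        have h6 := hrel z y l h1 hz hl1
        have h7 := hrel z' y' l h3 hz' hl2
        have h8 : l ^ 2 - α ≠ 0 := sub_ne_zero.2 (hnsq z y l h1 hz hl1)
        have h9 : z - z0 = z' - z0 := by
          apply mul_right_cancel₀ h8
          rw [h6, h7]
        have h10 : z = z' := by linear_combination h9
        have h11 : y = y' := by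
          have : y - y0 = y' - y0 := by rw [hl1, hl2, h9]
          linear_combination this
        rw [h10, h11]
  have hcard : (T.erase (z0, y0)).card ≤ p := by
    calc (T.erase (z0, y0)).card = ((T.erase (z0, y0)).image φ).card :=
          (card_image_of_injOn hinj).symm
      _ ≤ (univ : Finset (ZMod p)).card := card_le_card (subset_univ _)
      _ = p := by rw [card_univ, ZMod.card]
  rw [card_erase_of_mem hP] at hcard
  omega

theorem stmt_CONIC : Stmt_CONIC := by
  classical
  intro p _ hp α β hα hβ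
  have h2 : (2 : ZMod p) ≠ 0 := by
    intro h
    have : (p : ℕ) ∣ 2 := (ZMod.natCast_eq_zero_iff 2 p).1 (by exact_mod_cast h)
    exact hp (((Nat.prime_dvd_prime_iff_eq (Fact.out) Nat.prime_two).1 this))
  have hT := CONIC_points p hp α β hα hβ
  set T := (univ : Finset (ZMod p × ZMod p)).filter (fun q => q.2 ^ 2 = α * q.1 ^ 2 + β) with hTd
  set A := (univ : Finset (ZMod p)).filter (fun z => IsSquare (α * z ^ 2 + β)) with hA
  set A0 := A.filter (fun z => α * z ^ 2 + β = 0) with hA0
  have hA0c : A0.card ≤ 2 := by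
    rcases A0.eq_empty_or_nonempty with h | ⟨w, hw⟩
    · rw [h]; simp
    · have hw' : α * w ^ 2 + β = 0 := (mem_filter.1 hw).2
      have : A0 ⊆ {w, -w} := by
        intro z hz
        have hz' : α * z ^ 2 + β = 0 := (mem_filter.1 hz).2
        have h3 : α * ((z - w) * (z + w)) = 0 := by linear_combination hz' - hw'
        rcases mul_eq_zero.1 ((mul_eq_zero.1 h3).resolve_left hα) with h | h
        · rw [mem_insert]; left; linear_combination h
        · rw [mem_insert, mem_singleton]; right; linear_combination h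
      exact (card_le_card this).trans (card_le_two)
  have hmap : ∀ q ∈ T, q.1 ∈ A := by
    rintro ⟨z, y⟩ hq
    have hq' : y ^ 2 = α * z ^ 2 + β := by simpa [hTd] using hq
    simp only [hA, mem_filter, mem_univ, true_and]
    exact ⟨y, by rw [← hq']; ring⟩
  have hfib := card_eq_sum_card_fiberwise hmap
  have hpt : ∀ z ∈ A, 2 ≤ (T.filter (fun q => q.1 = z)).card
      + (if α * z ^ 2 + β = 0 then 1 else 0) := by
    intro z hz
    obtain ⟨y, hy⟩ := (mem_filter.1 hz).2
    have hm : ∀ x : ZMod p, x * x = y * y → (z, x) ∈ T.filter (fun q => q.1 = z) := by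
      intro x hx
      rw [mem_filter]
      refine ⟨?_, rfl⟩
      simp only [hTd, mem_filter, mem_univ, true_and]
      rw [hy, ← hx]; ring
    by_cases h0 : α * z ^ 2 + β = 0
    · rw [if_pos h0]
      have : 1 ≤ (T.filter (fun q => q.1 = z)).card :=
        card_pos.2 ⟨(z, y), hm y rfl⟩
      omega
    · rw [if_neg h0]
      have hy0 : y ≠ 0 := by
        intro h; apply h0; rw [hy, h, mul_zero]
      have hne : (z, y) ≠ (z, -y) := by
        intro h
        have h3 : y = -y := congrArg Prod.snd h
        apply hy0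
        have : 2 * y = 0 := by linear_combination h3
        exact (mul_eq_zero.1 this).resolve_left h2
      have hsub : ({(z, y), (z, -y)} : Finset (ZMod p × ZMod p))
          ⊆ T.filter (fun q => q.1 = z) := by
        intro q hq
        rw [mem_insert, mem_singleton] at hq
        rcases hq with rfl | rfl
        · exact hm y rfl
        · exact hm (-y) (by ring)
      have := card_le_card hsub
      rw [card_pair hne] at this
      omega
  have hsum : A.card * 2 ≤ T.card + A0.card := by
    calc A.card * 2 = ∑ _z ∈ A, 2 := by rw [sum_const, smul_eq_mul]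
      _ ≤ ∑ z ∈ A, ((T.filter (fun q => q.1 = z)).card
          + (if α * z ^ 2 + β = 0 then 1 else 0)) := sum_le_sum hpt
      _ = T.card + A0.card := by
          have h9 : A0.card = ∑ z ∈ A, (if α * z ^ 2 + β = 0 then 1 else 0) := by
            rw [hA0]; exact card_filter _ _
          rw [sum_add_distrib, ← hfib, h9]
  omega

end Pool.Agent.Work.MP_b29d7f_cvx
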