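import Pool.Agent.Work.MP_b29d7f_cvx.InterfaceC

/-!
# Block CONV: the three families have simultaneous orderings
-/

namespace Pool.Agent.Work.MP_b29d7f_cvx

open Finset
open Pool.Agent.Work.MP_b29d7f_nt (IsPOrdering HasSimultaneousOrdering ordering_of_ap)
open Pool.Agent.Work.MP_b29d7f_half (Ord)

namespace BCONV

/-- scaling and translating a sequence whose own terms divide -/
theorem ordering_of_dvd (f : ℕ → ℤ) (a b : ℤ)
    (h : ∀ k n : ℕ, ∏ i ∈ range k, (f k - f i) ∣ ∏ i ∈ range k, (f n - f i)) :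
    HasSimultaneousOrdering (Set.range fun n : ℕ => a * f n + b) := by
  refine ⟨fun k => a * f k + b, fun p _ => ⟨fun k => ⟨k, rfl⟩, ?_⟩⟩
  rintro k s ⟨n, rfl⟩
  refine emultiplicity_le_emultiplicity_of_dvd_right ?_
  have e : ∀ m : ℕ, ∏ i ∈ range k, (a * f m + b - (a * f i + b)) =
      a ^ k * ∏ i ∈ range k, (f m - f i) := by
    intro m
    rw [Finset.prod_congr rfl (fun i _ => show a * f m + b - (a * f i + b) = a * (f m - f i) by
      ring), Finset.prod_mul_distrib, Finset.prod_const, Finset.card_range]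
  rw [e, e]
  exact mul_dvd_mul_left _ (h k n)

theorem two_mul_tri' (t : ℤ) : 2 * (t * (t + 1) / 2) = t * (t + 1) := by
  have h := two_mul_tri (t + 1)
  have e : (t + 1) * (t + 1 - 1) = t * (t + 1) := by ring
  rw [e] at h
  exact h

theorem tri_prod_eq (n k : ℕ) : ∏ i ∈ range k, ((n : ℤ) * (n + 1) - (i : ℤ) * (i + 1)) =
    ((2 * k).factorial : ℤ) * ((n + k).choose (2 * k) : ℤ) := by
  induction k with
  | zero => simp
  | succ k ih =>
    rw [Finset.prod_range_succ, ih]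
    have h1 : ((2 * (k + 1)).factorial : ℤ) =
        (2 * (k : ℤ) + 2) * ((2 * (k : ℤ) + 1) * ((2 * k).factorial : ℤ)) := by
      rw [show 2 * (k + 1) = (2 * k + 1) + 1 by ring, Nat.factorial_succ, Nat.factorial_succ]
      push_cast
      ring
    have h2 := Pool.Agent.Work.MP_b29d7f_half.Sharp.choose_int (n + k) (2 * k)
    have h3 := Nat.add_one_mul_choose_eq (n + k) (2 * k + 1)
    have h4 : (((n + k + 1) * (n + k).choose (2 * k + 1) : ℕ) : ℤ) =
        (((n + k + 1).choose (2 * k + 1 + 1) * (2 * k + 1 + 1) : ℕ) : ℤ) := by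
      rw [h3]
    have e2 : 2 * (k + 1) = 2 * k + 1 + 1 := by ring
    have e3 : n + (k + 1) = n + k + 1 := by ring
    rw [h1, e2, e3]
    push_cast at h2 h4 ⊢
    linear_combination ((2 * k).factorial : ℤ) * (-((n : ℤ) + k + 1) * h2 +
      (2 * (k : ℤ) + 1) * h4)

theorem tri_dvd (k n : ℕ) :
    ∏ i ∈ range k, (((k : ℤ) * (k + 1) / 2) - ((i : ℤ) * (i + 1) / 2)) ∣
      ∏ i ∈ range k, (((n : ℤ) * (n + 1) / 2) - ((i : ℤ) * (i + 1) / 2)) := by
  have e : ∀ m : ℕ, (2 : ℤ) ^ k *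
      ∏ i ∈ range k, (((m : ℤ) * (m + 1) / 2) - ((i : ℤ) * (i + 1) / 2)) =
      ((2 * k).factorial : ℤ) * ((m + k).choose (2 * k) : ℤ) := by
    intro m
    have e2 : (2 : ℤ) ^ k = ∏ _i ∈ range k, (2 : ℤ) := by
      rw [Finset.prod_const, Finset.card_range]
    rw [← tri_prod_eq, e2, ← Finset.prod_mul_distrib]
    refine Finset.prod_congr rfl fun i _ => ?_
    linear_combination two_mul_tri' (m : ℤ) - two_mul_tri' (i : ℤ)
  have h2 : ((2 : ℤ) ^ k) ≠ 0 := by positivity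
  refine (mul_dvd_mul_iff_left h2).mp ?_
  rw [e, e, show k + k = 2 * k by ring, Nat.choose_self]
  simp

end BCONV

theorem stmt_CONV : Stmt_CONV := by
  intro a b
  refine ⟨?_, ?_, ?_⟩
  · refine ordering_of_ap (a := a) (b := b) (fun n => ⟨n, rfl⟩) ?_
    rintro s ⟨n, rfl⟩
    exact ⟨n, by simp⟩
  · exact BCONV.ordering_of_dvd (fun n => (n : ℤ) ^ 2) a b fun k n =>
      Pool.Agent.Work.MP_b29d7f_half.Sharp.prod_dvd k n
  · exact BCONV.ordering_of_dvd (fun n => (n : ℤ) * (n + 1) / 2) a b fun k n => BCONV.tri_dvd k n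

end Pool.Agent.Work.MP_b29d7f_cvx
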