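import Pool.Agent.Work.MP_b29d7f_cvx.Interface

/-!
# CVF: elementary facts on convex sequences
-/

namespace Pool.Agent.Work.MP_b29d7f_cvx

theorem CVF_lower {s : ℕ → ℤ} (hg : Monotone (gp s)) (i : ℕ) :
    ∀ d : ℕ, (d : ℤ) * gp s i ≤ s (i + d) - s i
  | 0 => by simp
  | d + 1 => by
    have h1 := CVF_lower hg i d
    have h2 : gp s i ≤ gp s (i + d) := hg (Nat.le_add_right i d)
    have h3 : gp s (i + d) = s (i + (d + 1)) - s (i + d) := rfl
    push_cast
    linarith

theorem CVF_upper {s : ℕ → ℤ} (i : ℕ) (B : ℤ) :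
    ∀ d : ℕ, (∀ l, l < i + d → gp s l ≤ B) → s (i + d) - s i ≤ d * B
  | 0, _ => by simp
  | d + 1, h => by
    have h1 := CVF_upper i B d (fun l hl => h l (by omega))
    have h2 : gp s (i + d) ≤ B := h _ (by omega)
    have h3 : gp s (i + d) = s (i + (d + 1)) - s (i + d) := rfl
    push_cast
    linarith

theorem stmt_CVF : Stmt_CVF := by
  intro s h0 hs hg
  have hgp : ∀ k : ℕ, 1 ≤ gp s k := fun k => by
    have : s k < s (k + 1) := hs (Nat.lt_succ_self k)
    unfold gp
    omega
  have h1 : ∀ i j d : ℕ, i ≤ j → s (i + d) - s i ≤ s (j + d) - s j := by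
    intro i j d hij
    induction d with
    | zero => simp
    | succ d ih =>
      have h2 : gp s (i + d) ≤ gp s (j + d) := hg (by omega)
      have h3 : gp s (i + d) = s (i + (d + 1)) - s (i + d) := rfl
      have h4 : gp s (j + d) = s (j + (d + 1)) - s (j + d) := rfl
      linarith
  have h2 : ∀ i j : ℕ, i ≤ j → ((j : ℤ) - i) * gp s i ≤ s j - s i := by
    intro i j hij
    obtain ⟨d, rfl⟩ := Nat.exists_eq_add_of_le hij
    have := CVF_lower hg i d
    push_cast
    rwa [add_sub_cancel_left]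
  have h3 : ∀ i j : ℕ, ∀ B : ℤ, i ≤ j → (∀ l, l < j → gp s l ≤ B) →
      s j - s i ≤ ((j : ℤ) - i) * B := by
    intro i j B hij hB
    obtain ⟨d, rfl⟩ := Nat.exists_eq_add_of_le hij
    have := CVF_upper i B d hB
    push_cast
    rwa [add_sub_cancel_left]
  have h5 : ∀ k : ℕ, s k ≤ k * gp s k := by
    intro k
    have := h3 0 k (gp s k) (Nat.zero_le k) (fun l hl => hg hl.le)
    rw [h0] at this
    simpa using this
  have h7 : ∀ k : ℕ, (k : ℤ) ≤ s k := by
    intro k
    induction k with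
    | zero => simp [h0]
    | succ k ih =>
      have := hgp k
      unfold gp at this
      push_cast
      linarith
  refine ⟨h1, h2, ?_, ?_, h5, ?_, h7, hgp, ?_⟩
  · intro i j hij
    exact h3 i j _ hij.le (fun l hl => hg (by omega))
  · intro i j hij
    have a1 := h2 i j hij
    have a2 := h5 i
    have a3 : (0 : ℤ) ≤ (j : ℤ) - i := by
      have : (i : ℤ) ≤ j := by exact_mod_cast hij
      linarith
    have a4 : (0 : ℤ) ≤ i := by positivity
    nlinarith [mul_le_mul_of_nonneg_left a1 a4, mul_le_mul_of_nonneg_left a2 a3]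
  · intro k
    have a1 := h2 k (2 * k) (by omega)
    have a2 : (0 : ℤ) ≤ s k := le_trans (by positivity) (h7 k)
    push_cast at a1
    nlinarith
  · intro i j k hij hjk
    have a1 : s j - s i ≤ ((j : ℤ) - i) * gp s j := h3 i j _ hij.le (fun l hl => hg hl.le)
    have a2 := h2 j k hjk.le
    have a3 : (0 : ℤ) ≤ (k : ℤ) - j := by
      have : (j : ℤ) ≤ k := by exact_mod_cast hjk.le
      linarith
    have a4 : (0 : ℤ) ≤ (j : ℤ) - i := by
      have : (i : ℤ) ≤ j := by exact_mod_cast hij.le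
      linarith
    nlinarith [mul_le_mul_of_nonneg_left a1 a3, mul_le_mul_of_nonneg_left a2 a4]

end Pool.Agent.Work.MP_b29d7f_cvx
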