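import Pool.Agent.Work.MP_b29d7f_cvx.Interface

/-!
# Block DEFL of the convex classification (helper16)
-/

namespace Pool.Agent.Work.MP_b29d7f_cvx

open Finset
open Pool.Agent.Work.MP_b29d7f_nt (vd ld vd_comm)
open Pool.Agent.Work.MP_b29d7f_half (lD)
open Pool.Agent.Work.MP_b29d7f_sep (nv EW EL)

namespace DEFLaux

theorem vl_comm (p : ℕ) (s : ℕ → ℤ) (i j : ℕ) : vl p s i j = vl p s j i := by
  have h := vd_comm p (s i) (s j)
  unfold vd at h
  unfold vl
  exact_mod_cast h

/-- a prime outside `PR s k` gives nothing -/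
theorem nv_eq_zero {s : ℕ → ℤ} (hs : StrictMono s) (k p : ℕ) (hp : p.Prime) (hk : p ∉ PR s k) :
    nv p s k = 0 := by
  have hne : (∏ j ∈ range (k + 1), ∏ i ∈ range j, (s j - s i)) ≠ 0 := by
    refine prod_ne_zero_iff.2 fun j _ => prod_ne_zero_iff.2 fun i hi => ?_
    rw [mem_range] at hi
    have := hs hi
    omega
  unfold PR at hk
  rw [Nat.mem_primeFactors] at hk
  have h1 : ¬ p ∣ (∏ j ∈ range (k + 1), ∏ i ∈ range j, (s j - s i)).natAbs := by
    intro h
    exact hk ⟨hp, h, by simpa using hne⟩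
  unfold nv
  refine sum_eq_zero fun i hi => ?_
  rw [multiplicity_eq_zero]
  intro h
  apply h1
  rw [← Int.natCast_dvd]
  have h2 : (∏ i ∈ range k, (s k - s i)) ∣ ∏ j ∈ range (k + 1), ∏ i ∈ range j, (s j - s i) :=
    dvd_prod_of_mem (fun j => ∏ i ∈ range j, (s j - s i)) (mem_range.2 (Nat.lt_succ_self k))
  exact (h.trans (dvd_prod_of_mem (fun i => s k - s i) hi)).trans h2

end DEFLaux

open DEFLaux in
theorem stmt_DEFL (hCVF : Stmt_CVF) (hENT : Stmt_ENT) (hPAD : Stmt_PAD)
    (hPRF : Stmt_PRF) : Stmt_DEFL := by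
  intro s C₀ hs i k hik hk
  have hfirst : ∀ p : ℕ, p.Prime → ∑ l ∈ (range k).erase i, vl p s i l ≤ nv p s k := by
    intro p hp
    obtain ⟨hmono, h0, -, hF2⟩ := hPAD s C₀ hs p hp
    have h1 := hF2 0 (k - 1) i (Nat.zero_le _) (by omega)
    have h2 : Icc 0 (k - 1) = range k := by
      ext x
      simp only [mem_Icc, mem_range]
      omega
    rw [h2, h0, zero_add] at h1
    exact h1.trans (hmono (by omega))
  refine ⟨hfirst, fun Q hQ => ?_⟩
  obtain ⟨hprime, hlog, hlD, -, -⟩ := hPRF s C₀ hs k
  obtain ⟨-, -, -, hquot, -, -, -, -, -⟩ := hCVF s hs.zero hs.mono hs.gp_mono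
  have hln : ∀ p : ℕ, 0 ≤ Real.log p := fun p => Real.log_natCast_nonneg p
  -- all terms are nonnegative
  have hterm : ∀ p : ℕ, p.Prime → 0 ≤ Real.log p *
      ((nv p s k : ℝ) - ∑ l ∈ (range k).erase i, (vl p s i l : ℝ)) := by
    intro p hp
    refine mul_nonneg (hln p) ?_
    have : ∑ l ∈ (range k).erase i, (vl p s i l : ℝ) ≤ nv p s k := by exact_mod_cast hfirst p hp
    linarith
  -- from Q to PR
  have h1 : ∑ p ∈ Q, Real.log p * ((nv p s k : ℝ) - ∑ l ∈ (range k).erase i, (vl p s i l : ℝ)) ≤
      ∑ p ∈ PR s k, Real.log p *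
        ((nv p s k : ℝ) - ∑ l ∈ (range k).erase i, (vl p s i l : ℝ)) := by
    have h2 : ∑ p ∈ Q, Real.log p * ((nv p s k : ℝ) - ∑ l ∈ (range k).erase i, (vl p s i l : ℝ)) ≤
        ∑ p ∈ Q ∪ PR s k, Real.log p *
          ((nv p s k : ℝ) - ∑ l ∈ (range k).erase i, (vl p s i l : ℝ)) := by
      refine sum_le_sum_of_subset_of_nonneg subset_union_left fun p hp _ => ?_
      rcases mem_union.1 hp with h | h
      · exact hterm p (hQ p h)
      · exact hterm p (hprime p h)
    refine h2.trans (le_of_eq ?_)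
    symm
    refine sum_subset subset_union_right fun p hp hp' => ?_
    have hpp : p.Prime := by
      rcases mem_union.1 hp with h | h
      · exact hQ p h
      · exact absurd h hp'
    have h3 := nv_eq_zero hs.mono k p hpp hp'
    have h4 := hfirst p hpp
    rw [h3] at h4
    have h5 : ∑ l ∈ (range k).erase i, (vl p s i l : ℝ) = 0 := by
      exact_mod_cast (Nat.le_zero.1 h4)
    rw [h3, h5]
    simp
  -- the sum over PR
  have h2 : ∑ p ∈ PR s k, Real.log p *
      ((nv p s k : ℝ) - ∑ l ∈ (range k).erase i, (vl p s i l : ℝ)) =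
        lD s k - ∑ l ∈ (range k).erase i, Real.log |((s i - s l : ℤ) : ℝ)| := by
    have h3 : ∀ l ∈ (range k).erase i, Real.log |((s i - s l : ℤ) : ℝ)| =
        ∑ p ∈ PR s k, Real.log p * vl p s i l := by
      intro l hl
      rw [mem_erase, mem_range] at hl
      rcases lt_or_gt_of_ne hl.1 with h | h
      · have h4 : (0 : ℤ) < s i - s l := by
          have := hs.mono h
          omega
        rw [abs_of_pos (by exact_mod_cast h4)]
        exact hlog l i h (by omega)
      · have h4 : (0 : ℤ) < s l - s i := by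
          have := hs.mono h
          omega
        have h5 : |((s i - s l : ℤ) : ℝ)| = ((s l - s i : ℤ) : ℝ) := by
          rw [← abs_neg, ← Int.cast_neg, neg_sub, abs_of_pos (by exact_mod_cast h4)]
        rw [h5, hlog i l h (by omega)]
        refine sum_congr rfl fun p _ => ?_
        rw [vl_comm]
    rw [hlD k le_rfl, sum_congr rfl h3, sum_comm, ← sum_sub_distrib]
    refine sum_congr rfl fun p _ => ?_
    rw [← mul_sum]
    ring
  -- termwise
  have hLk : 0 ≤ Lg s k := (hENT s C₀ hs k).2.2
  have h3 : ∀ l ∈ range k, Lg s k - (if l = i then 0 else Real.log |((s i - s l : ℤ) : ℝ)|) ≤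
      (if 1 ≤ l then Lg s k - Lg s l else 0) + Real.log 2 +
        (if l ≤ 2 * i then Lg s k else 0) := by
    intro l hl
    rw [mem_range] at hl
    have h4 : 0 ≤ Real.log 2 := Real.log_nonneg (by norm_num)
    have h5 : 0 ≤ (if 1 ≤ l then Lg s k - Lg s l else 0) := by
      split_ifs with h
      · have h6 : (0 : ℝ) < (s l : ℝ) := by exact_mod_cast hs.pos h
        have h7 : (s l : ℝ) ≤ s k := by exact_mod_cast hs.mono.monotone hl.le
        have := Real.log_le_log h6 h7
        unfold Lg
        linarith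
      · exact le_rfl
    have h6 : 0 ≤ (if l = i then 0 else Real.log |((s i - s l : ℤ) : ℝ)|) := by
      split_ifs with h
      · exact le_rfl
      · apply Real.log_nonneg
        have h7 : s i - s l ≠ 0 := by
          intro h8
          exact h (hs.injective (by omega))
        have h8 : (1 : ℤ) ≤ |s i - s l| := Int.one_le_abs h7
        exact_mod_cast h8
    by_cases h : l ≤ 2 * i
    · rw [if_pos h]
      linarith
    · push Not at h
      rw [if_neg (by omega), if_pos (by omega : 1 ≤ l), if_neg (by omega : ¬ l ≤ 2 * i)]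
      have h7 := hquot i l (by omega)
      have h8 : s l ≤ 2 * (s l - s i) := by
        have h9 : (l : ℤ) * s l ≤ l * (2 * (s l - s i)) := by
          have h10 : (0 : ℤ) ≤ s l := hs.nonneg l
          have h11 : (l : ℤ) ≤ 2 * ((l : ℤ) - i) := by omega
          nlinarith
        exact le_of_mul_le_mul_left h9 (by omega)
      have h9 : (0 : ℝ) < (s l : ℝ) := by exact_mod_cast hs.pos (by omega : 1 ≤ l)
      have h10 : (s l : ℝ) ≤ 2 * |((s i - s l : ℤ) : ℝ)| := by
        have h11 : (s l : ℝ) ≤ 2 * ((s l - s i : ℤ) : ℝ) := by exact_mod_cast h8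
        have h12 : ((s l - s i : ℤ) : ℝ) ≤ |((s i - s l : ℤ) : ℝ)| := by
          rw [← abs_neg, ← Int.cast_neg, neg_sub]
          exact le_abs_self _
        linarith
      have h11 : (0 : ℝ) < |((s i - s l : ℤ) : ℝ)| := by linarith
      have h12 := Real.log_le_log h9 h10
      rw [Real.log_mul (by norm_num) h11.ne'] at h12
      unfold Lg
      linarith
  have h4 := sum_le_sum h3
  rw [sum_sub_distrib, sum_add_distrib, sum_add_distrib, sum_const, card_range, nsmul_eq_mul,
    sum_const, card_range, nsmul_eq_mul] at h4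
  have h5 : ∑ l ∈ range k, (if l = i then 0 else Real.log |((s i - s l : ℤ) : ℝ)|) =
      ∑ l ∈ (range k).erase i, Real.log |((s i - s l : ℤ) : ℝ)| := by
    rw [← sum_erase (range k) (a := i) (by simp)]
    refine sum_congr rfl fun l hl => ?_
    rw [if_neg (mem_erase.1 hl).1]
  have h6 : ∑ l ∈ range k, (if 1 ≤ l then Lg s k - Lg s l else 0) = GG s k := by
    rw [← sum_filter]
    unfold GG Lg
    refine sum_congr ?_ fun _ _ => rfl
    ext l
    simp only [mem_filter, mem_range, mem_Ico]
    omega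
  have h7 : ∑ l ∈ range k, (if l ≤ 2 * i then Lg s k else 0) ≤ (2 * i + 1) * Lg s k := by
    rw [← sum_filter, sum_const, nsmul_eq_mul]
    apply mul_le_mul_of_nonneg_right _ hLk
    have h8 : ((range k).filter (fun l => l ≤ 2 * i)).card ≤ 2 * i + 1 := by
      have h9 : (range k).filter (fun l => l ≤ 2 * i) ⊆ range (2 * i + 1) := by
        intro l hl
        rw [mem_filter] at hl
        rw [mem_range]
        omega
      have := card_le_card h9
      rwa [card_range] at this
    exact_mod_cast h8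
  have h8 := (hENT s C₀ hs k).2.1
  rw [h5, h6] at h4
  rw [h2] at h1
  linarith

end Pool.Agent.Work.MP_b29d7f_cvx
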