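import Pool.Agent.Work.MP_b29d7f_cvx.InterfaceC
import Pool.Agent.Work.MP_b29d7f_sep.B_PROD
import Pool.Agent.Work.MP_b29d7f_sep.B_PADIC
import Pool.Agent.Work.MP_b29d7f_sep.B_JB

/-!
# Block DEFZ: small defect at the first two elements
-/

namespace Pool.Agent.Work.MP_b29d7f_cvx

open Finset
open Pool.Agent.Work.MP_b29d7f_nt (IsPOrdering HasSimultaneousOrdering PS vd ld tv)
open Pool.Agent.Work.MP_b29d7f_half (Ord A wv lD K DK HalfDense mem_A)
open Pool.Agent.Work.MP_b29d7f_sep (nv EW EL)

theorem stmt_DEFZ (hARC : Stmt_ARC) : Stmt_DEFZ := by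
  classical
  intro s C₀ hs N i hN hi P hP
  have hinj : Function.Injective s := hs.mono.injective
  obtain ⟨-, hA2, -, -, hA5, -, -⟩ := hARC s C₀ hs
  -- every term is nonnegative
  have hterm : ∀ p : ℕ, p.Prime →
      0 ≤ (nv p s N : ℝ) - ∑ l ∈ (range N).erase i, vd p (s i) (s l) := by
    intro p hp
    obtain ⟨-, h2, -⟩ := Pool.Agent.Work.MP_b29d7f_sep.stmt_PADIC (Set.range s) s hs.ord p hp
    have hz : s i ∈ A s (N + 1) := mem_A.mpr ⟨i, by omega, rfl⟩
    have h3 := h2 N (s i) hz
    rw [Pool.Agent.Work.MP_b29d7f_sep.wv_eq_nv] at h3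
    have h4 : ∑ l ∈ (range N).erase i, vd p (s i) (s l) ≤
        ∑ y ∈ (A s (N + 1)).erase (s i), vd p (s i) y := by
      rw [← Finset.sum_image (f := fun y => vd p (s i) y) (g := s)
        (fun a _ b _ h => hinj h)]
      refine Finset.sum_le_sum_of_subset_of_nonneg ?_ ?_
      · intro y hy
        rw [Finset.mem_image] at hy
        obtain ⟨l, hl, rfl⟩ := hy
        rw [Finset.mem_erase, Finset.mem_range] at hl
        rw [Finset.mem_erase]
        exact ⟨fun h => hl.1 (hinj h), mem_A.mpr ⟨l, by omega, rfl⟩⟩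
      · intro y _ _
        exact Pool.Agent.Work.MP_b29d7f_nt.vd_nonneg _ _ _
    linarith
  -- enlarge the set of primes
  set P₁ : Finset ℕ := P ∪ (range (N + 1) ×ˢ range (N + 1)).biUnion
    (fun x => (s x.1 - s x.2).natAbs.primeFactors) with hP₁
  have hpr : ∀ p ∈ P₁, p.Prime := by
    intro p hp
    rw [hP₁, Finset.mem_union, Finset.mem_biUnion] at hp
    rcases hp with hp | ⟨x, -, hx⟩
    · exact hP p hp
    · exact Nat.prime_of_mem_primeFactors hx
  have key : ∀ a b : ℕ, a ≠ b → a ≤ N → b ≤ N →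
      ld (s a) (s b) = ∑ p ∈ P₁, Real.log p * vd p (s a) (s b) := by
    intro a b hab ha hb
    have hne : s a - s b ≠ 0 := sub_ne_zero.mpr fun h => hab (hinj h)
    unfold ld vd
    rw [Pool.Agent.Work.MP_b29d7f_nt.log_eq_sum (s a - s b) hne P₁ hpr]
    · refine Finset.sum_congr rfl fun p _ => ?_
      ring
    · intro p hp hm
      rw [hP₁, Finset.mem_union, Finset.mem_biUnion]
      right
      refine ⟨(a, b), ?_, ?_⟩
      · simp only [Finset.mem_product, Finset.mem_range]
        omega
      · simp only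
        rw [Nat.mem_primeFactors]
        refine ⟨hp, ?_, Int.natAbs_ne_zero.mpr hne⟩
        have hd : (p : ℤ) ∣ s a - s b := by
          by_contra hnd
          exact hm (multiplicity_eq_zero.mpr hnd)
        exact Int.natCast_dvd.mp hd
  have h1 : ∑ p ∈ P, Real.log p * ((nv p s N : ℝ) - ∑ l ∈ (range N).erase i, vd p (s i) (s l)) ≤
      ∑ p ∈ P₁, Real.log p *
        ((nv p s N : ℝ) - ∑ l ∈ (range N).erase i, vd p (s i) (s l)) := by
    refine Finset.sum_le_sum_of_subset_of_nonneg (by rw [hP₁]; exact subset_union_left) ?_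
    intro p hp _
    exact mul_nonneg (Real.log_natCast_nonneg p) (hterm p (hpr p hp))
  have h2 : ∑ p ∈ P₁, Real.log p *
        ((nv p s N : ℝ) - ∑ l ∈ (range N).erase i, vd p (s i) (s l)) =
      ∑ l ∈ range N, ld (s N) (s l) - ∑ l ∈ (range N).erase i, ld (s i) (s l) := by
    rw [Finset.sum_congr rfl fun l hl => key N l
      (by have := Finset.mem_range.mp hl; omega) le_rfl (by have := Finset.mem_range.mp hl; omega)]
    rw [Finset.sum_congr (s₁ := (range N).erase i) rfl fun l hl => key i l
      (by have := (Finset.mem_erase.mp hl).1; omega) (by omega)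
      (by have := Finset.mem_range.mp (Finset.mem_erase.mp hl).2; omega)]
    rw [Finset.sum_comm, Finset.sum_comm (s := (range N).erase i), ← Finset.sum_sub_distrib]
    refine Finset.sum_congr rfl fun p _ => ?_
    rw [← Finset.mul_sum, ← Finset.mul_sum, ← mul_sub]
    congr 2
    rw [← Pool.Agent.Work.MP_b29d7f_sep.wv_eq_nv]
    rfl
  refine h1.trans ?_
  rw [h2]
  -- archimedean part
  have hpos : ∀ l : ℕ, 1 ≤ l → (1 : ℝ) ≤ (s l : ℝ) := by
    intro l hl
    have := hA5 l
    have h : (1 : ℤ) ≤ s l := by omega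
    exact_mod_cast h
  have hLN : 0 ≤ Real.log (s N) := Real.log_nonneg (hpos N (by omega))
  have hup : ∀ l ∈ range N, ld (s N) (s l) ≤ Real.log (s N) := by
    intro l hl
    rw [Finset.mem_range] at hl
    unfold ld
    have h3 : s l < s N := hs.mono hl
    have h4 : (0 : ℤ) ≤ s l := by have := hA5 l; omega
    have h5 : |((s N - s l : ℤ) : ℝ)| = ((s N - s l : ℤ) : ℝ) :=
      abs_of_pos (by exact_mod_cast (by omega : (0 : ℤ) < s N - s l))
    rw [h5]
    refine Real.log_le_log (by exact_mod_cast (by omega : (0 : ℤ) < s N - s l)) ?_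
    exact_mod_cast (by omega : s N - s l ≤ s N)
  have hup2 : ∑ l ∈ range N, ld (s N) (s l) ≤ N * Real.log (s N) := by
    have := Finset.sum_le_sum hup
    rwa [Finset.sum_const, Finset.card_range, nsmul_eq_mul] at this
  have hlow : ∀ l ∈ (Ico 1 N).erase i, Real.log (s l) - Real.log 2 ≤ ld (s i) (s l) := by
    intro l hl
    rw [Finset.mem_erase, Finset.mem_Ico] at hl
    have hil : i < l := by omega
    have h3 : s i < s l := hs.mono hil
    have h6 : s l ≤ 2 * (s l - s i) := by
      rcases Nat.lt_or_ge 0 i with h0 | h0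
      · have hi1 : i = 1 := by omega
        subst hi1
        have h7 := hA2 1 l (by omega)
        have hl2 : (2 : ℤ) ≤ l := by exact_mod_cast hil
        have hsl : (0 : ℤ) ≤ s l := by have := hA5 l; omega
        have h8 : (l : ℤ) * s l ≤ l * (2 * (s l - s 1)) := by
          push_cast at h7
          nlinarith
        exact le_of_mul_le_mul_left h8 (by omega)
      · have hi0 : i = 0 := by omega
        subst hi0
        have := hs.zero
        have hsl : (0 : ℤ) ≤ s l := by have := hA5 l; omega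
        omega
    unfold ld
    have h9 : |((s i - s l : ℤ) : ℝ)| = ((s l - s i : ℤ) : ℝ) := by
      rw [← abs_neg]
      have e : -((s i - s l : ℤ) : ℝ) = ((s l - s i : ℤ) : ℝ) := by push_cast; ring
      rw [e]
      exact abs_of_pos (by exact_mod_cast (by omega : (0 : ℤ) < s l - s i))
    have hl1 := hpos l (by omega)
    rw [h9, ← Real.log_div (by linarith) two_ne_zero]
    refine Real.log_le_log (by linarith) ?_
    have h10 : (s l : ℝ) ≤ 2 * ((s l - s i : ℤ) : ℝ) := by exact_mod_cast h6
    linarith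
  have hsub : (Ico 1 N).erase i ⊆ (range N).erase i := by
    intro l hl
    rw [Finset.mem_erase, Finset.mem_Ico] at hl
    rw [Finset.mem_erase, Finset.mem_range]
    omega
  have hnn : ∀ l ∈ (range N).erase i, 0 ≤ ld (s i) (s l) := by
    intro l hl
    rw [Finset.mem_erase, Finset.mem_range] at hl
    unfold ld
    refine Real.log_nonneg ?_
    have h3 : s i - s l ≠ 0 := sub_ne_zero.mpr fun h => hl.1 (hinj h.symm)
    have h4 := Int.one_le_abs h3
    exact_mod_cast h4
  have hlow2 : ∑ l ∈ (Ico 1 N).erase i, (Real.log (s l) - Real.log 2) ≤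
      ∑ l ∈ (range N).erase i, ld (s i) (s l) :=
    (Finset.sum_le_sum hlow).trans
      (Finset.sum_le_sum_of_subset_of_nonneg hsub fun l hl _ => hnn l hl)
  have hlog2 : 0 < Real.log 2 := Real.log_pos (by norm_num)
  have hlow3 : ∑ l ∈ Ico 1 N, (Real.log (s l) - Real.log 2) - Real.log (s N) ≤
      ∑ l ∈ (Ico 1 N).erase i, (Real.log (s l) - Real.log 2) := by
    by_cases hi1 : i ∈ Ico 1 N
    · have h3 := Finset.add_sum_erase (Ico 1 N) (fun l => Real.log (s l) - Real.log 2) hi1
      have h4 : Real.log (s i) ≤ Real.log (s N) := by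
        rw [Finset.mem_Ico] at hi1
        refine Real.log_le_log (by have := hpos i hi1.1; linarith) ?_
        exact_mod_cast hs.mono.monotone hi1.2.le
      linarith
    · rw [Finset.erase_eq_of_notMem hi1]
      linarith
  have hG : GG s N = (N - 1) * Real.log (s N) - ∑ l ∈ Ico 1 N, Real.log (s l) := by
    unfold GG
    rw [Finset.sum_sub_distrib, Finset.sum_const, Nat.card_Ico, nsmul_eq_mul, Nat.cast_sub (by omega)]
    push_cast
    ring
  have hE : ∑ l ∈ Ico 1 N, (Real.log (s l) - Real.log 2) =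
      ∑ l ∈ Ico 1 N, Real.log (s l) - (N - 1) * Real.log 2 := by
    rw [Finset.sum_sub_distrib, Finset.sum_const, Nat.card_Ico, nsmul_eq_mul, Nat.cast_sub (by omega)]
    push_cast
    ring
  rw [hG]
  nlinarith

end Pool.Agent.Work.MP_b29d7f_cvx
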