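import Pool.Agent.Work.MP_b29d7f_cvx.Interface

/-! # Block DFC (helper65) -/

set_option autoImplicit false

namespace Pool.Agent.Work.MP_b29d7f_cvx

open Finset
open Pool.Agent.Work.MP_b29d7f_sep (nv EW EL stmt_WINDOW stmt_PADIC stmt_MINP)

theorem stmt_DFC (h1 : Stmt_PAD) : Stmt_DFC := by
  intro s C₀ hs p hp u m
  obtain ⟨hmono, -, -, -⟩ := h1 s C₀ hs p hp
  have hom : ∀ g, ((nv p s (g + 1) : ℝ) - nv p s g) = (om p s g : ℝ) := by
    intro g
    unfold om
    rw [Nat.cast_sub (hmono (Nat.le_succ g))]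
  obtain ⟨hw1, hw2⟩ := stmt_WINDOW stmt_PADIC (Set.range s) s hs.ord p hp u m
  simp only [hom] at hw1 hw2
  have hm := stmt_MINP (om p s) u m (EW p s u m) hw1 hw2
  refine ⟨?_, ?_, ?_⟩
  · unfold Dfc Mn PT
    linarith
  · unfold PT
    refine Finset.sum_nonneg fun g _ => Finset.sum_nonneg fun g' hg' => ?_
    have h2 : g + 1 ≤ g' := (mem_Ico.mp hg').1
    have h3 : (g : ℝ) + 1 ≤ g' := by exact_mod_cast h2
    have h4 : (0 : ℝ) ≤ (g' : ℝ) - g := by linarith
    positivity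
  · unfold Mn
    refine Finset.sum_nonneg fun g hg => ?_
    obtain ⟨h2, h3⟩ := mem_Ico.mp hg
    have h4 : (u : ℝ) ≤ g := by exact_mod_cast h2
    have h5 : (g : ℝ) ≤ u + m := by exact_mod_cast h3.le
    exact mul_nonneg (Nat.cast_nonneg _) (le_min (by linarith) (by linarith))

end Pool.Agent.Work.MP_b29d7f_cvx
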