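import Pool.Agent.Work.MP_b29d7f_cvx.InterfaceC

/-! # Block DIV -/

namespace Pool.Agent.Work.MP_b29d7f_cvx

open Finset
open Pool.Agent.Work.MP_b29d7f_half (HalfDense)

theorem stmt_DIV (h1 : Stmt_EQU) (h2 : Stmt_NUMC) (h3 : Stmt_NUME) (h4 : Stmt_LVL)
    (h5 : Stmt_INS) (h6 : Stmt_FIND) (h7 : Stmt_HALFI) : Stmt_DIV := by
  intro s C₀ hs
  obtain ⟨n₁, hn₁⟩ := h1 s C₀ hs
  obtain ⟨n₂, hn₂⟩ := h2 s C₀ hs
  obtain ⟨n₃, hn₃⟩ := h3 s C₀ hs 0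
  refine ⟨max n₁ (max n₂ n₃), fun n hn v Z v₁ Z₁ v₂ Z₂ h h₁ h₂ R => ?_⟩
  obtain ⟨e1, e2⟩ := hn₁ n (by omega) v Z v₁ Z₁ v₂ Z₂ h h₁ h₂ R
  obtain ⟨c1, c2, c3, c4⟩ := hn₂ n (by omega) v Z v₁ Z₁ v₂ Z₂ h h₁ h₂ R
  obtain ⟨hg₁, hg₂, -⟩ := hn₃ n (by omega) v Z v₁ Z₁ v₂ Z₂ h h₁ h₂ R
  have ho := R.z.one_le
  have ho₁ := R.z₁.one_le
  have ho₂ := R.z₂.one_le
  have hnn : ∀ i, 0 ≤ s i := by
    intro i
    have := hs.mono.monotone (Nat.zero_le i)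
    rw [hs.zero] at this
    exact this
  -- lower bound for the vertex values
  have q2 : Ev (s v₂) (gp s v₂) h₂ = 8 * h₂ * s v₂ - (2 * gp s v₂ - h₂) ^ 2 := rfl
  have q4 : (2 * gp s v₂ - h₂) ^ 2 ≤ 4 * gp s v₂ ^ 2 := by nlinarith
  have q5 : - (4 * gp s v₂ ^ 2) ≤ Ev (s v₂) (gp s v₂) h₂ := by
    rw [q2]
    have : 0 ≤ 8 * h₂ * s v₂ := by have := hnn v₂; positivity
    linarith
  have hE : h₂ * Ev (s v) (gp s v) h = h * Ev (s v₂) (gp s v₂) h₂ := by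
    have : h₁ * (h₂ * Ev (s v) (gp s v) h) = h₁ * (h * Ev (s v₂) (gp s v₂) h₂) := by
      calc h₁ * (h₂ * Ev (s v) (gp s v) h) = h₂ * (h₁ * Ev (s v) (gp s v) h) := by ring
        _ = h₂ * (h * Ev (s v₁) (gp s v₁) h₁) := by rw [e1]
        _ = h * (h₂ * Ev (s v₁) (gp s v₁) h₁) := by ring
        _ = h * (h₁ * Ev (s v₂) (gp s v₂) h₂) := by rw [e2]
        _ = h₁ * (h * Ev (s v₂) (gp s v₂) h₂) := by ring
    exact mul_left_cancel₀ (by linarith : h₁ ≠ 0) this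
  have q6 : - (4 * h * gp s v₂ ^ 2) ≤ Ev (s v) (gp s v) h := by
    have h8 : h * (- (4 * gp s v₂ ^ 2)) ≤ h₂ * Ev (s v) (gp s v) h := by
      rw [hE]; exact mul_le_mul_of_nonneg_left q5 (by linarith)
    by_contra hc
    rw [not_le] at hc
    have h9 : h₂ * Ev (s v) (gp s v) h ≤ 1 * Ev (s v) (gp s v) h := by
      have : Ev (s v) (gp s v) h ≤ 0 := by
        have : 0 ≤ 4 * h * gp s v₂ ^ 2 := by positivity
        linarith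
      nlinarith
    linarith
  have hU : Ev (s v) (gp s v) h ≤ 8 * h * s v₁ := by
    have q1 := La_sq (s v₁) (gp s v₁) h₁ 0
    have q1' : Fq (s v₁) (gp s v₁) h₁ 0 = s v₁ := by simp [Fq]
    rw [q1'] at q1
    have q3 : Ev (s v₁) (gp s v₁) h₁ ≤ 8 * h₁ * s v₁ := by
      have := sq_nonneg (La (gp s v₁) h₁ 0); linarith
    have h8 : h₁ * Ev (s v) (gp s v) h ≤ h₁ * (8 * h * s v₁) := by
      rw [e1]
      calc h * Ev (s v₁) (gp s v₁) h₁ ≤ h * (8 * h₁ * s v₁) :=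
            mul_le_mul_of_nonneg_left q3 (by linarith)
        _ = _ := by ring
    exact le_of_mul_le_mul_left h8 (by linarith)
  have hV : 8 * h * s v₁ - Ev (s v) (gp s v) h ≤ (s (v₁ + Z₁) - s v₁ - 2 * h) ^ 2 := by
    have : 0 ≤ 4 * h * gp s v₂ ^ 2 := by positivity
    nlinarith
  obtain ⟨t, t', f1, f2, f3, f4, f5, f6, f7, f8⟩ := h6 (s v) (gp s v) h (s v₁) (s (v₁ + Z₁)) ho
    hU c1 hV
  -- values in the interval are values of the second polynomial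
  have hlvl := h4 s C₀ hs v Z (Z / 2) h R.z.zone c4 (by omega)
  have mem : ∀ τ : ℤ, s v₁ ≤ Fq (s v) (gp s v) h τ → Fq (s v) (gp s v) h τ ≤ s (v₁ + Z₁) →
      ∃ α : ℤ, 0 < La (gp s v₁) h₁ α ∧ Fq (s v) (gp s v) h τ = Fq (s v₁) (gp s v₁) h₁ α := by
    intro τ ha hb
    obtain ⟨i, hi, hi'⟩ := h5 s C₀ hs (Z / 2) (Fq (s v) (gp s v) h τ) (hlvl τ)
      ((hnn v₁).trans ha) (lt_of_le_of_lt hb (hs.mono c3))
    rw [← hi'] at ha hb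
    have ha' : v₁ ≤ i := hs.mono.le_iff_le.mp ha
    have hb' : i ≤ v₁ + Z₁ := hs.mono.le_iff_le.mp hb
    refine ⟨((i - v₁ : ℕ) : ℤ), ?_, ?_⟩
    · unfold La
      have : (0 : ℤ) ≤ ((i - v₁ : ℕ) : ℤ) := Int.natCast_nonneg _
      nlinarith
    · rw [← hi']
      have := R.z₁.zone (i - v₁) (by omega)
      rw [show v₁ + (i - v₁) = i by omega] at this
      exact this
  obtain ⟨α, ga, gα⟩ := mem t f2 f3
  obtain ⟨β, gb, gβ⟩ := mem (t + 1) f4 f5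
  obtain ⟨α', ga', gα'⟩ := mem t' f7 f8
  exact h7 (s v) (gp s v) h (s v₁) (gp s v₁) h₁ t t' α β α' ho ho₁ e1 f1 f6 ga gb ga' gα gβ gα'

end Pool.Agent.Work.MP_b29d7f_cvx
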