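import Pool.Agent.Work.MP_b29d7f_cvx.InterfaceC

/-!
# Block DVD: divisibility in the integers
-/

namespace Pool.Agent.Work.MP_b29d7f_cvx

open Finset
open Pool.Agent.Work.MP_b29d7f_nt (IsPOrdering)
open Pool.Agent.Work.MP_b29d7f_sep (nv)

namespace BDVD

theorem dvd_of_emultiplicity {D N : ℤ}
    (h : ∀ p : ℕ, p.Prime → emultiplicity (p : ℤ) D ≤ emultiplicity (p : ℤ) N) : D ∣ N := by
  rw [← Int.natAbs_dvd_natAbs, Nat.dvd_iff_prime_pow_dvd_dvd]
  intro p k hp hpk
  have h1 : ((p : ℤ) ^ k) ∣ D := by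
    have := Int.natCast_dvd.mpr hpk
    push_cast at this
    exact this
  have h2 : ((p : ℤ) ^ k) ∣ N :=
    pow_dvd_iff_le_emultiplicity.mpr ((pow_dvd_iff_le_emultiplicity.mp h1).trans (h p hp))
  have h3 : (((p ^ k : ℕ) : ℤ)) ∣ N := by
    push_cast
    exact h2
  exact Int.natCast_dvd.mp h3

theorem padicValInt_prod {p : ℕ} (hp : p.Prime) (t : Finset ℕ) (f : ℕ → ℤ)
    (hf : ∀ i ∈ t, f i ≠ 0) :
    padicValInt p (∏ i ∈ t, f i) = ∑ i ∈ t, multiplicity (p : ℤ) (f i) := by
  classical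
  have : Fact p.Prime := ⟨hp⟩
  induction t using Finset.induction_on with
  | empty => simp
  | insert i t hi ih =>
    rw [Finset.prod_insert hi, Finset.sum_insert hi, padicValInt.mul, ih,
      padicValInt.of_ne_one_ne_zero hp.ne_one (hf i (Finset.mem_insert_self i t))]
    · exact fun j hj => hf j (Finset.mem_insert_of_mem hj)
    · exact hf i (Finset.mem_insert_self i t)
    · exact Finset.prod_ne_zero_iff.mpr fun j hj => hf j (Finset.mem_insert_of_mem hj)

end BDVD

open BDVD in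
theorem stmt_DVD : Stmt_DVD := by
  intro s C₀ hs
  refine ⟨?_, ?_⟩
  · intro k j
    refine dvd_of_emultiplicity fun p hp => ?_
    exact (hs.ord.ord p hp).2 k (s j) ⟨j, rfl⟩
  · intro p hp k
    unfold Dk nv
    rw [padicValInt_prod hp]
    intro i hi
    rw [Finset.mem_range] at hi
    have := hs.mono hi
    omega

end Pool.Agent.Work.MP_b29d7f_cvx
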