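import Pool.Agent.Work.MP_b29d7f_cvx.Interface

/-!
# MP_b29d7f_nt, convex sets: block DYAD

`g_j = GG (2^j) / 2^j` satisfies `g_{j+1} ≤ g_j / 2 + (L(2^{j+1}) - L(2^j))`.
-/

namespace Pool.Agent.Work.MP_b29d7f_cvx

open Finset

namespace BDYAD

theorem Lg_mono {s : ℕ → ℤ} {C₀ : ℝ} (h : Cvx s C₀) {a b : ℕ} (ha : 1 ≤ a) (hab : a ≤ b) :
    Real.log (s a) ≤ Real.log (s b) := by
  have h1 : (0 : ℝ) < s a := by exact_mod_cast h.pos ha
  have h2 : (s a : ℝ) ≤ s b := by exact_mod_cast h.mono.monotone hab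
  exact Real.log_le_log h1 h2

theorem GG_nonneg {s : ℕ → ℤ} {C₀ : ℝ} (h : Cvx s C₀) (k : ℕ) : 0 ≤ GG s k := by
  unfold GG
  refine sum_nonneg fun l hl => ?_
  rw [mem_Ico] at hl
  exact sub_nonneg.2 (Lg_mono h hl.1 hl.2.le)

theorem step {s : ℕ → ℤ} {C₀ : ℝ} (h : Cvx s C₀) (j : ℕ) :
    GG s (2 ^ (j + 1)) ≤ GG s (2 ^ j) +
      2 ^ (j + 1) * (Real.log (s (2 ^ (j + 1))) - Real.log (s (2 ^ j))) := by
  have h1 : 1 ≤ 2 ^ j := Nat.one_le_two_pow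
  have h2 : 2 ^ (j + 1) = 2 ^ j + 2 ^ j := by rw [pow_succ]; ring
  have h3 : 2 ^ j ≤ 2 ^ (j + 1) := by omega
  have hd : 0 ≤ Real.log (s (2 ^ (j + 1))) - Real.log (s (2 ^ j)) :=
    sub_nonneg.2 (Lg_mono h h1 h3)
  unfold GG
  rw [← sum_Ico_consecutive _ h1 h3]
  have hA : ∑ l ∈ Ico 1 (2 ^ j), (Real.log (s (2 ^ (j + 1))) - Real.log (s l)) ≤
      ∑ l ∈ Ico 1 (2 ^ j), (Real.log (s (2 ^ j)) - Real.log (s l)) +
        2 ^ j * (Real.log (s (2 ^ (j + 1))) - Real.log (s (2 ^ j))) := by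
    have e : ∀ l ∈ Ico 1 (2 ^ j), Real.log (s (2 ^ (j + 1))) - Real.log (s l) =
        (Real.log (s (2 ^ j)) - Real.log (s l)) +
          (Real.log (s (2 ^ (j + 1))) - Real.log (s (2 ^ j))) := fun l _ => by ring
    rw [sum_congr rfl e, sum_add_distrib, sum_const, Nat.card_Ico, nsmul_eq_mul]
    have hc : ((2 ^ j - 1 : ℕ) : ℝ) ≤ 2 ^ j := by
      rw [Nat.cast_sub h1]
      push_cast
      linarith
    have := mul_le_mul_of_nonneg_right hc hd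
    linarith
  have hB : ∑ l ∈ Ico (2 ^ j) (2 ^ (j + 1)), (Real.log (s (2 ^ (j + 1))) - Real.log (s l)) ≤
      2 ^ j * (Real.log (s (2 ^ (j + 1))) - Real.log (s (2 ^ j))) := by
    have e : ∀ l ∈ Ico (2 ^ j) (2 ^ (j + 1)), Real.log (s (2 ^ (j + 1))) - Real.log (s l) ≤
        Real.log (s (2 ^ (j + 1))) - Real.log (s (2 ^ j)) := by
      intro l hl
      rw [mem_Ico] at hl
      have := Lg_mono h h1 hl.1
      linarith
    refine (sum_le_sum e).trans (le_of_eq ?_)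
    rw [sum_const, Nat.card_Ico, nsmul_eq_mul, h2, Nat.add_sub_cancel]
    push_cast
    ring
  have h4 : (2 : ℝ) ^ (j + 1) = 2 ^ j + 2 ^ j := by rw [pow_succ]; ring
  rw [h4]
  linarith

theorem step' {s : ℕ → ℤ} {C₀ : ℝ} (h : Cvx s C₀) (j : ℕ) :
    GG s (2 ^ (j + 1)) / 2 ^ (j + 1) ≤ GG s (2 ^ j) / 2 ^ j / 2 +
      (Real.log (s (2 ^ (j + 1))) - Real.log (s (2 ^ j))) := by
  have h1 := step h j
  have h2 : (0 : ℝ) < 2 ^ (j + 1) := by positivity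
  rw [div_le_iff₀ h2]
  have h4 : ∀ D G q : ℝ, q ≠ 0 → (G / q / 2 + D) * (q * 2) = G + (q * 2) * D := by
    intro D G q hq
    field_simp
  have h5 := h4 (Real.log (s (2 ^ (j + 1))) - Real.log (s (2 ^ j))) (GG s (2 ^ j)) (2 ^ j)
    (by positivity)
  rw [← pow_succ] at h5
  rw [h5]
  exact h1

theorem total {s : ℕ → ℤ} {C₀ : ℝ} (h : Cvx s C₀) (n : ℕ) :
    ∑ j ∈ range (n + 1), GG s (2 ^ j) / 2 ^ j + GG s (2 ^ n) / 2 ^ n ≤
      2 * Real.log (s (2 ^ n)) - 2 * Real.log (s 1) := by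
  induction n with
  | zero =>
    have h0 : GG s 1 = 0 := by unfold GG; simp
    simp [h0]
  | succ n ih =>
    rw [sum_range_succ]
    have := step' h n
    linarith

end BDYAD

theorem stmt_DYAD : Stmt_DYAD := by
  intro s C₀ h J K
  refine ⟨?_, BDYAD.GG_nonneg h⟩
  have h1 := BDYAD.total h (J + K)
  have hs : 0 ≤ Real.log (s 1) := by
    refine Real.log_nonneg ?_
    have := h.pos (le_refl 1)
    exact_mod_cast this
  have h2 : 0 ≤ GG s (2 ^ (J + K)) / 2 ^ (J + K) :=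
    div_nonneg (BDYAD.GG_nonneg h _) (by positivity)
  have h3 : ∑ j ∈ Ioc J (J + K), GG s (2 ^ j) / 2 ^ j ≤
      ∑ j ∈ range (J + K + 1), GG s (2 ^ j) / 2 ^ j := by
    refine sum_le_sum_of_subset_of_nonneg ?_ fun j _ _ =>
      div_nonneg (BDYAD.GG_nonneg h _) (by positivity)
    intro j hj
    rw [mem_Ioc] at hj
    rw [mem_range]
    omega
  unfold Lg
  linarith

end Pool.Agent.Work.MP_b29d7f_cvx
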