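import Pool.Agent.Work.MP_b29d7f_cvx.Interface

/-! # Block ENT (helper65) -/

set_option autoImplicit false

namespace Pool.Agent.Work.MP_b29d7f_cvx

open Finset
open Pool.Agent.Work.MP_b29d7f_nt (ld)
open Pool.Agent.Work.MP_b29d7f_half (lD)

theorem ENT_Lg_nonneg {s : ℕ → ℤ} {C₀ : ℝ} (h : Cvx s C₀) (k : ℕ) : 0 ≤ Lg s k := by
  unfold Lg
  rcases Nat.eq_zero_or_pos k with rfl | hk
  · rw [h.zero]
    simp
  · have h1 : (1 : ℤ) ≤ s k := h.pos hk
    exact Real.log_nonneg (by exact_mod_cast h1)

theorem stmt_ENT (h1 : Stmt_CVF) : Stmt_ENT := by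
  intro s C₀ hs k
  obtain ⟨-, -, -, hc, -, -, -, -, -⟩ := h1 s hs.zero hs.mono hs.gp_mono
  have hL : 0 ≤ Lg s k := ENT_Lg_nonneg hs k
  have hlt : ∀ i ∈ range k, 0 < s k - s i := by
    intro i hi
    have := hs.mono (mem_range.mp hi)
    omega
  have hld : ∀ i ∈ range k, ld (s k) (s i) = Real.log ((s k - s i : ℤ) : ℝ) := by
    intro i hi
    unfold ld
    rw [abs_of_pos (by exact_mod_cast hlt i hi)]
  refine ⟨?_, ?_, hL⟩
  · rcases Nat.eq_zero_or_pos k with rfl | hk
    · simp [lD]
    have hkr : (0 : ℝ) < k := by exact_mod_cast hk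
    have hsk : (0 : ℝ) < s k := by exact_mod_cast hs.pos hk
    have hfac : Real.log (k.factorial : ℝ) = ∑ i ∈ range k, Real.log ((k : ℝ) - i) := by
      rw [← Nat.descFactorial_self k, Nat.descFactorial_eq_prod_range]
      push_cast
      rw [Real.log_prod]
      · refine Finset.sum_congr rfl fun i hi => ?_
        rw [Nat.cast_sub (mem_range.mp hi).le]
      · intro i hi
        have := mem_range.mp hi
        have h2 : 0 < k - i := by omega
        exact_mod_cast h2.ne'
    have hge := Pool.Agent.Work.MP_b29d7f_nt.log_factorial_ge k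
    have hterm : ∀ i ∈ range k,
        Real.log ((k : ℝ) - i) - Real.log k + Lg s k ≤ ld (s k) (s i) := by
      intro i hi
      rw [hld i hi]
      have hik := mem_range.mp hi
      have hikr : (0 : ℝ) < (k : ℝ) - i := by
        have : (i : ℝ) < k := by exact_mod_cast hik
        linarith
      have h2 := hc i k hik.le
      have h3 : ((k : ℝ) - i) * s k ≤ k * ((s k - s i : ℤ) : ℝ) := by exact_mod_cast h2
      have h4 : (0 : ℝ) < ((s k - s i : ℤ) : ℝ) := by exact_mod_cast hlt i hi
      have h5 := Real.log_le_log (mul_pos hikr hsk) h3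
      rw [Real.log_mul hikr.ne' hsk.ne', Real.log_mul hkr.ne' h4.ne'] at h5
      unfold Lg
      linarith
    have hsum := Finset.sum_le_sum hterm
    rw [Finset.sum_add_distrib, Finset.sum_sub_distrib, Finset.sum_const, Finset.sum_const,
      card_range, nsmul_eq_mul, nsmul_eq_mul, ← hfac] at hsum
    have e : lD s k = ∑ i ∈ range k, ld (s k) (s i) := rfl
    rw [e]
    linarith
  · have hterm : ∀ i ∈ range k, ld (s k) (s i) ≤ Lg s k := by
      intro i hi
      rw [hld i hi]
      unfold Lg
      refine Real.log_le_log (by exact_mod_cast hlt i hi) ?_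
      have := hs.nonneg i
      exact_mod_cast (by omega : s k - s i ≤ s k)
    have hsum := Finset.sum_le_sum hterm
    rw [Finset.sum_const, card_range, nsmul_eq_mul] at hsum
    exact hsum

end Pool.Agent.Work.MP_b29d7f_cvx
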