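import Pool.Agent.Work.MP_b29d7f_cvx.InterfaceC

/-! # Block EQU -/

namespace Pool.Agent.Work.MP_b29d7f_cvx

open Finset
open Pool.Agent.Work.MP_b29d7f_half (HalfDense)

theorem stmt_EQU (h1 : Stmt_NUMA) (h2 : Stmt_LVL) (h3 : Stmt_LINK) : Stmt_EQU := by
  intro s C₀ hs
  obtain ⟨k₀, hk₀⟩ := h3
  obtain ⟨n₀, hn₀⟩ := h1 s C₀ hs k₀
  refine ⟨n₀, fun n hn v Z v₁ Z₁ v₂ Z₂ h h₁ h₂ R => ?_⟩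
  obtain ⟨k, hk, hv, hv₁, hv₂, hZ, hZ₁, hZ₂, hL, hh, hh₁, hh₂, hD, hD'⟩ :=
    hn₀ n hn v Z v₁ Z₁ v₂ Z₂ h h₁ h₂ R
  have l0 := h2 s C₀ hs v Z k h R.z.zone hv hZ
  have l1 := h2 s C₀ hs v₁ Z₁ k h₁ R.z₁.zone hv₁ hZ₁
  have l2 := h2 s C₀ hs v₂ Z₂ k h₂ R.z₂.zone hv₂ hZ₂
  refine ⟨?_, ?_⟩
  · exact hk₀ s C₀ hs k _ _ h _ _ h₁ hk hL R.z.one_le R.z₁.one_le hh hh₁ hD l0 l1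
  · exact hk₀ s C₀ hs k _ _ h₁ _ _ h₂ hk hL R.z₁.one_le R.z₂.one_le hh₁ hh₂ hD' l1 l2

end Pool.Agent.Work.MP_b29d7f_cvx
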