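import Pool.Agent.Work.MP_b29d7f_cvx.Interface2

/-!
# Block EXN (helper29): few pairs at which (R) fails
-/

namespace Pool.Agent.Work.MP_b29d7f_cvx

open Finset
open scoped Classical
open Pool.Agent.Work.MP_b29d7f_half (Ord A wv lD HalfDense)
open Pool.Agent.Work.MP_b29d7f_sep (nv EW EL)

theorem EXN_split (s : ℕ → ℤ) (N M P : ℕ) (f : ℕ → ℝ) :
    ∑ p ∈ PR s (2 * N), f p =
      (∑ p ∈ PA s N P, f p + ∑ p ∈ PC s N M P, f p) + ∑ p ∈ PG s N M P, f p := by
  have e : PR s (2 * N) = (PA s N P ∪ PC s N M P) ∪ PG s N M P := by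
    ext p
    simp only [mem_union, mem_PA, mem_PC, mem_PG]
    constructor
    · intro h
      by_cases h0 : 1 ≤ nv p s P
      · exact Or.inl (Or.inl ⟨h, h0⟩)
      · have h0' : nv p s P = 0 := by omega
        by_cases hc : Catch p s N M
        · exact Or.inl (Or.inr ⟨h, h0', hc⟩)
        · exact Or.inr ⟨h, h0', hc⟩
    · rintro ((⟨h, -⟩ | ⟨h, -⟩) | ⟨h, -⟩) <;> exact h
  have d1 : Disjoint (PA s N P) (PC s N M P) := by
    rw [Finset.disjoint_left]
    intro p h1 h2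
    rw [mem_PA] at h1
    rw [mem_PC] at h2
    omega
  have d2 : Disjoint (PA s N P ∪ PC s N M P) (PG s N M P) := by
    rw [Finset.disjoint_left]
    intro p h1 h2
    rw [mem_union, mem_PA, mem_PC] at h1
    rw [mem_PG] at h2
    rcases h1 with h1 | h1
    · omega
    · exact h2.2.2 h1.2.2
  rw [e, sum_union d2, sum_union d1]

theorem EXN_tel (w : ℕ → ℕ) (hw : Monotone w) (n d : ℕ) :
    ∑ i ∈ range n, w (i + d) ≤ ∑ i ∈ range n, w i + d * w (n + d) := by
  have e1 := Finset.sum_range_add w d n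
  have e2 := Finset.sum_range_add w n d
  have e3 : ∑ i ∈ range d, w (n + i) ≤ d * w (n + d) := by
    calc ∑ i ∈ range d, w (n + i) ≤ ∑ _i ∈ range d, w (n + d) :=
          sum_le_sum fun i hi => hw (by have := mem_range.1 hi; omega)
      _ = _ := by simp
  have e4 : ∑ i ∈ range n, w (i + d) = ∑ i ∈ range n, w (d + i) :=
    sum_congr rfl fun i _ => by rw [Nat.add_comm]
  rw [Nat.add_comm d n] at e1
  omega

theorem EXN_triv (h1 : Stmt_PAD) (h2 : Stmt_PAE) {s : ℕ → ℤ} {C₀ : ℝ} (hs : Cvx s C₀) {p : ℕ}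
    (hp : p.Prime) (n d N : ℕ) (hN : n + d ≤ N) (X : Finset (ℕ × ℕ))
    (hX : ∀ z ∈ X, z.1 < n ∧ z.1 < z.2 ∧ z.2 ≤ z.1 + d) :
    ∑ z ∈ X, (vl p s z.2 z.1 : ℝ) ≤ (d : ℝ) * nv p s N := by
  obtain ⟨hm, -, -, hF2⟩ := h1 s C₀ hs p hp
  obtain ⟨hsym, -⟩ := h2 s C₀ hs p hp
  have hnat : ∑ z ∈ X, vl p s z.2 z.1 ≤ d * nv p s N := by
    have a1 : ∑ z ∈ X, vl p s z.2 z.1 ≤
        ∑ i ∈ range n, ∑ j ∈ (Icc i (i + d)).erase i, vl p s i j := by
      rw [Finset.sum_sigma']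
      have himg : X.image (fun z => (⟨z.1, z.2⟩ : Σ _ : ℕ, ℕ)) ⊆
          (range n).sigma fun i => (Icc i (i + d)).erase i := by
        intro y hy
        rw [mem_image] at hy
        obtain ⟨z, hz, rfl⟩ := hy
        have := hX z hz
        simp only [mem_sigma, mem_range, mem_erase, mem_Icc]
        omega
      have hinj : Set.InjOn (fun z : ℕ × ℕ => (⟨z.1, z.2⟩ : Σ _ : ℕ, ℕ)) X := by
        intro z _ z' _ h
        simp only [Sigma.mk.injEq, heq_eq_eq] at h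
        exact Prod.ext h.1 h.2
      calc ∑ z ∈ X, vl p s z.2 z.1
          = ∑ y ∈ X.image (fun z => (⟨z.1, z.2⟩ : Σ _ : ℕ, ℕ)), vl p s y.1 y.2 := by
            rw [sum_image hinj]
            exact sum_congr rfl fun z _ => hsym _ _
        _ ≤ _ := sum_le_sum_of_subset himg
    have a2 : ∀ i ∈ range n, nv p s i + ∑ j ∈ (Icc i (i + d)).erase i, vl p s i j ≤
        nv p s (i + d) := fun i _ => hF2 i (i + d) i le_rfl (by omega)
    have a3 := sum_le_sum a2
    rw [sum_add_distrib] at a3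
    have a4 := EXN_tel (nv p s) hm n d
    have a5 : d * nv p s (n + d) ≤ d * nv p s N := Nat.mul_le_mul_left _ (hm hN)
    omega
  have : ((∑ z ∈ X, vl p s z.2 z.1 : ℕ) : ℝ) ≤ ((d * nv p s N : ℕ) : ℝ) := by exact_mod_cast hnat
  push_cast at this
  exact this

theorem stmt_EXN (h1 : Stmt_PAD) (h2 : Stmt_PAE) (h3 : Stmt_PRF) (h4 : Stmt_NISO)
    (h5 : Stmt_NFLG) (h6 : Stmt_EXP) : Stmt_EXN := by
  intro s C₀ N M P m J x H zd hx1 hx2 X hX
  have hs := zd.cvx
  have hmN := zd.m_N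
  have hmbig := zd.m_big
  have hL1 := zd.log_N
  obtain ⟨hprime, hprod, hlD, -, -⟩ := h3 s C₀ hs (2 * N)
  have hlogp : ∀ p ∈ PR s (2 * N), 0 ≤ Real.log p := fun p hp =>
    Real.log_nonneg (by exact_mod_cast (hprime p hp).one_lt.le)
  -- each pair has a large difference
  have st1 : ∀ z ∈ X, 9 / 10 * Real.log N ≤
      ∑ p ∈ PR s (2 * N), Real.log p * (vl p s z.2 z.1 : ℝ) := by
    intro z hz
    obtain ⟨ha, hb, hc, hd, -⟩ := hX z hz
    rw [← hprod z.1 z.2 hc (by omega)]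
    refine (zd.gaps z.1 ha).trans ?_
    have hg0 : 0 < gp s z.1 := by
      unfold gp
      have := hs.mono (Nat.lt_succ_self z.1)
      rw [Nat.succ_eq_add_one] at this
      omega
    have hg1 : gp s z.1 ≤ s z.2 - s z.1 := by
      unfold gp
      have := hs.mono.monotone (show z.1 + 1 ≤ z.2 by omega)
      omega
    exact Real.log_le_log (by exact_mod_cast hg0) (by exact_mod_cast hg1)
  have st2 : (X.card : ℝ) * (9 / 10 * Real.log N) ≤
      ∑ p ∈ PR s (2 * N), Real.log p * ∑ z ∈ X, (vl p s z.2 z.1 : ℝ) := by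
    calc (X.card : ℝ) * (9 / 10 * Real.log N) = ∑ _z ∈ X, 9 / 10 * Real.log N := by simp
      _ ≤ ∑ z ∈ X, ∑ p ∈ PR s (2 * N), Real.log p * (vl p s z.2 z.1 : ℝ) := sum_le_sum st1
      _ = _ := by
        rw [sum_comm]
        exact sum_congr rfl fun p _ => by rw [mul_sum]
  rw [EXN_split s N M P] at st2
  -- primes of type (a) and caught primes
  have hmem : ∀ p, p ∈ PA s N P ∨ p ∈ PC s N M P ∨ p ∈ PG s N M P → p ∈ PR s (2 * N) := by
    intro p h
    rcases h with h | h | h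
    · exact (mem_PA.1 h).1
    · exact (mem_PC.1 h).1
    · exact (mem_PG.1 h).1
  have triv : ∀ p ∈ PR s (2 * N), Real.log p * ∑ z ∈ X, (vl p s z.2 z.1 : ℝ) ≤
      (32 * x : ℝ) * (Real.log p * nv p s N) := by
    intro p hp
    have := EXN_triv h1 h2 hs (hprime p hp) (N - 3 * m) (32 * x) N (by omega) X fun z hz => by
      have := hX z hz
      omega
    calc Real.log p * ∑ z ∈ X, (vl p s z.2 z.1 : ℝ)
        ≤ Real.log p * (((32 * x : ℕ) : ℝ) * nv p s N) :=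
          mul_le_mul_of_nonneg_left this (hlogp p hp)
      _ = _ := by push_cast; ring
  have stA : ∑ p ∈ PA s N P, Real.log p * ∑ z ∈ X, (vl p s z.2 z.1 : ℝ) +
      ∑ p ∈ PC s N M P, Real.log p * ∑ z ∈ X, (vl p s z.2 z.1 : ℝ) ≤
      (32 * x : ℝ) * NA s N M P := by
    unfold NA
    rw [mul_add, mul_sum, mul_sum]
    exact add_le_add (sum_le_sum fun p hp => triv p (hmem p (Or.inl hp)))
      (sum_le_sum fun p hp => triv p (hmem p (Or.inr (Or.inl hp))))
  -- good primes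
  have hE := h6 s C₀ N M P m J x H zd hx1 hx2
  choose! R hR using hE
  have hR1 : ∀ p ∈ PG s N M P, ∀ g ∈ R p, N ≤ 2 * g ∧ g < N - 2 * m ∧ om p s g ≠ 0 ∧
      (¬ Iso p s m g ∨ ¬ FlG s H N m g) := fun p hp => (hR p hp).1
  have hn := h4 s C₀ N M P m J H zd (fun p => (R p).filter fun g => ¬ Iso p s m g) (by
    intro p hp g hg
    rw [mem_filter] at hg
    have := hR1 p hp g hg.1
    exact ⟨this.1, this.2.1, hg.2⟩)
  have hf := h5 s C₀ N M P m J H zd (fun p => (R p).filter fun g => ¬ FlG s H N m g) (by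
    intro p hp g hg
    rw [mem_filter] at hg
    have := hR1 p hp g hg.1
    exact ⟨this.1, by omega, hg.2⟩)
  have hsumR : ∀ p ∈ PG s N M P, ∑ g ∈ R p, (om p s g : ℝ) ≤
      ∑ g ∈ (R p).filter (fun g => ¬ Iso p s m g), (om p s g : ℝ) +
      ∑ g ∈ (R p).filter (fun g => ¬ FlG s H N m g), (om p s g : ℝ) := by
    intro p hp
    rw [sum_filter, sum_filter, ← sum_add_distrib]
    refine sum_le_sum fun g hg => ?_
    have h0 : (0 : ℝ) ≤ (om p s g : ℝ) := Nat.cast_nonneg _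
    rcases (hR1 p hp g hg).2.2.2 with h | h
    · rw [if_pos h]
      split_ifs <;> linarith
    · rw [if_pos h]
      split_ifs <;> linarith
  set RR : ℝ := ∑ p ∈ PG s N M P, Real.log p * ∑ g ∈ R p, (om p s g : ℝ) with hRR
  have hRRle : (J : ℝ) * RR ≤ 1 / 10 ^ 28 * N * Real.log N + 1 / 10 ^ 39 * N := by
    refine le_trans ?_ (add_le_add hn hf)
    rw [← mul_add, ← sum_add_distrib]
    refine mul_le_mul_of_nonneg_left (sum_le_sum fun p hp => ?_) (Nat.cast_nonneg _)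
    rw [← mul_add]
    exact mul_le_mul_of_nonneg_left (hsumR p hp) (hlogp p (hmem p (Or.inr (Or.inr hp))))
  have stG : ∑ p ∈ PG s N M P, Real.log p * ∑ z ∈ X, (vl p s z.2 z.1 : ℝ) ≤
      ((m : ℝ) / 4 + 1) * (J * RR) + 60 / 10 ^ 10 * m * lD s N +
        8 * 10 ^ 10 / m * SDfc s N M P m := by
    have a1 : ∀ p ∈ PG s N M P, Real.log p * ∑ z ∈ X, (vl p s z.2 z.1 : ℝ) ≤
        ((m : ℝ) / 4 + 1) * J * (Real.log p * ∑ g ∈ R p, (om p s g : ℝ)) +
          60 / 10 ^ 10 * m * (Real.log p * nv p s N) +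
          8 * 10 ^ 10 / m * (Real.log p * ∑ u ∈ range (N - m + 1), Dfc p s u m) := by
      intro p hp
      have h7 := (hR p hp).2 X hX
      have := mul_le_mul_of_nonneg_left h7 (hlogp p (hmem p (Or.inr (Or.inr hp))))
      linarith
    refine (sum_le_sum a1).trans ?_
    rw [sum_add_distrib, sum_add_distrib, ← mul_sum, ← mul_sum, ← mul_sum]
    have a2 : ∑ p ∈ PG s N M P, Real.log p * (nv p s N : ℝ) ≤ lD s N := by
      rw [hlD N (by omega)]
      refine sum_le_sum_of_subset_of_nonneg (fun p hp => hmem p (Or.inr (Or.inr hp))) ?_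
      intro p hp _
      exact mul_nonneg (hlogp p hp) (Nat.cast_nonneg _)
    have a3 : (60 / 10 ^ 10 * m : ℝ) * ∑ p ∈ PG s N M P, Real.log p * (nv p s N : ℝ) ≤
        60 / 10 ^ 10 * m * lD s N := mul_le_mul_of_nonneg_left a2 (by positivity)
    unfold SDfc
    rw [hRR]
    linarith
  -- numbers
  have hm0 : (0 : ℝ) < m := by
    have : (0 : ℕ) < m := by omega
    exact_mod_cast this
  have hmbigR : (10 : ℝ) ^ 20 ≤ m := by exact_mod_cast hmbig
  have hN0 : (0 : ℝ) ≤ N := Nat.cast_nonneg _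
  have hx1R : (128 * x : ℝ) ≤ m := by exact_mod_cast hx1
  have hNA0 : 0 ≤ NA s N M P := by
    unfold NA
    refine add_nonneg (sum_nonneg fun p hp => mul_nonneg (hlogp p (hmem p (Or.inl hp)))
      (Nat.cast_nonneg _)) (sum_nonneg fun p hp => mul_nonneg (hlogp p (hmem p (Or.inr (Or.inl hp))))
      (Nat.cast_nonneg _))
  have c1 : (32 * x : ℝ) * NA s N M P ≤ (m / 4) * (1 / 10 ^ 20 * N * Real.log N) :=
    mul_le_mul (by linarith) zd.na hNA0 (by positivity)
  have c2 : ((m : ℝ) / 4 + 1) * (J * RR) ≤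
      ((m : ℝ) / 4 + 1) * (1 / 10 ^ 28 * N * Real.log N + 1 / 10 ^ 39 * N) :=
    mul_le_mul_of_nonneg_left hRRle (by positivity)
  have c3 : 60 / 10 ^ 10 * m * lD s N ≤ 60 / 10 ^ 10 * m * (21 / 10 * N * Real.log N) :=
    mul_le_mul_of_nonneg_left zd.tN (by positivity)
  have c4 : 8 * 10 ^ 10 / (m : ℝ) * SDfc s N M P m ≤
      8 * 10 ^ 10 / m * (1 / 10 ^ 21 * (m : ℝ) ^ 2 * N * Real.log N) :=
    mul_le_mul_of_nonneg_left zd.sdfc (by positivity)
  have c5 : 8 * 10 ^ 10 / (m : ℝ) * (1 / 10 ^ 21 * (m : ℝ) ^ 2 * N * Real.log N) =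
      8 / 10 ^ 11 * (m * N * Real.log N) := by
    field_simp
  set Q : ℝ := m * N * Real.log N with hQ
  have hQ0 : 0 ≤ Q := by positivity
  have c6 : ((m : ℝ) / 4 + 1) * (1 / 10 ^ 28 * N * Real.log N + 1 / 10 ^ 39 * N) ≤
      1 / 10 ^ 20 * Q := by
    have d1 : ((m : ℝ) / 4 + 1) ≤ m := by linarith
    have d2 : (N : ℝ) ≤ N * Real.log N := by nlinarith
    have d3 : (1 / 10 ^ 28 * N * Real.log N + 1 / 10 ^ 39 * N : ℝ) ≤
        1 / 10 ^ 20 * (N * Real.log N) := by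
      have : (0 : ℝ) ≤ N * Real.log N := by positivity
      nlinarith
    calc ((m : ℝ) / 4 + 1) * (1 / 10 ^ 28 * N * Real.log N + 1 / 10 ^ 39 * N)
        ≤ m * (1 / 10 ^ 20 * (N * Real.log N)) := mul_le_mul d1 d3 (by positivity) hm0.le
      _ = _ := by rw [hQ]; ring
  have c7 : (X.card : ℝ) * (9 / 10 * Real.log N) ≤ 2 / 10 ^ 8 * Q := by
    have e1 : (m / 4 : ℝ) * (1 / 10 ^ 20 * N * Real.log N) = 1 / (4 * 10 ^ 20) * Q := by
      rw [hQ]; ring
    have e2 : 60 / 10 ^ 10 * (m : ℝ) * (21 / 10 * N * Real.log N) = 126 / 10 ^ 10 * Q := by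
      rw [hQ]; ring
    rw [e1] at c1
    rw [e2] at c3
    rw [c5] at c4
    have : (1 / (4 * 10 ^ 20) + 1 / 10 ^ 20 + 126 / 10 ^ 10 + 8 / 10 ^ 11 : ℝ) * Q ≤
        2 / 10 ^ 8 * Q := mul_le_mul_of_nonneg_right (by norm_num) hQ0
    linarith
  have hlog : 0 < Real.log N := by linarith
  have c8 : (X.card : ℝ) * Real.log N ≤ (1 / 10 ^ 7 * m * N) * Real.log N := by
    have : (1 / 10 ^ 7 * m * N) * Real.log N = 1 / 10 ^ 7 * Q := by rw [hQ]; ring
    rw [this]
    nlinarith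
  exact le_of_mul_le_mul_right c8 hlog

end Pool.Agent.Work.MP_b29d7f_cvx
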