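import Pool.Agent.Work.MP_b29d7f_cvx.Interface2

/-!
# Block EXP: the content of a good prime in the pairs at which (R) fails
-/

namespace Pool.Agent.Work.MP_b29d7f_cvx

open Finset
open scoped Classical
open Pool.Agent.Work.MP_b29d7f_nt (IsPOrdering HasSimultaneousOrdering PS vd ld tv)
open Pool.Agent.Work.MP_b29d7f_half (Ord A wv lD HalfDense)
open Pool.Agent.Work.MP_b29d7f_sep (nv EW EL)

theorem om_sum {p : ℕ} {s : ℕ → ℤ} (hm : Monotone (nv p s)) {u v : ℕ} (h : u ≤ v) :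
    ∑ g ∈ Ico u v, (om p s g : ℝ) = (nv p s v : ℝ) - nv p s u := by
  induction v, h using Nat.le_induction with
  | base => simp
  | succ v hv ih =>
    rw [Finset.sum_Ico_succ_top hv, ih]
    unfold om
    rw [Nat.cast_sub (hm (Nat.le_succ v))]
    ring

theorem card_le_real (T : Finset ℕ) (a b : ℝ) (hab : a ≤ b)
    (h : ∀ i ∈ T, a ≤ i ∧ (i : ℝ) ≤ b) : (T.card : ℝ) ≤ b - a + 1 := by
  rcases T.eq_empty_or_nonempty with rfl | hne
  · simp
    linarith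
  obtain ⟨i₀, hi₀⟩ := hne
  have hb : 0 ≤ b := (Nat.cast_nonneg i₀).trans (h i₀ hi₀).2
  have hsub : T ⊆ Icc ⌈a⌉₊ ⌊b⌋₊ := by
    intro i hi
    obtain ⟨h1, h2⟩ := h i hi
    rw [mem_Icc]
    exact ⟨Nat.ceil_le.mpr h1, Nat.le_floor h2⟩
  have h3 := card_le_card hsub
  rw [Nat.card_Icc] at h3
  have h4 : ⌈a⌉₊ ≤ ⌊b⌋₊ := by
    have := hsub hi₀
    rw [mem_Icc] at this
    exact this.1.trans this.2
  have h5 : (T.card : ℝ) ≤ (⌊b⌋₊ : ℝ) + 1 - ⌈a⌉₊ := by
    have : (T.card : ℝ) ≤ ((⌊b⌋₊ + 1 - ⌈a⌉₊ : ℕ) : ℝ) := by exact_mod_cast h3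
    rw [Nat.cast_sub (by omega)] at this
    push_cast at this
    exact this
  have h6 : (⌊b⌋₊ : ℝ) ≤ b := Nat.floor_le hb
  have h7 : a ≤ (⌈a⌉₊ : ℝ) := Nat.le_ceil a
  linarith

/-- double counting -/
theorem double_count (f : ℕ → ℝ) (hf : ∀ g, 0 ≤ f g) (U : Finset ℕ) (N : ℕ) (r : ℕ → ℕ → Prop)
    [∀ u g, Decidable (r u g)] (K : ℝ) (hK : ∀ g : ℕ, ((U.filter fun u => r u g).card : ℝ) ≤ K) :
    ∑ u ∈ U, ∑ g ∈ range N, (if r u g then f g else 0) ≤ K * ∑ g ∈ range N, f g := by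
  rw [Finset.sum_comm, Finset.mul_sum]
  refine Finset.sum_le_sum fun g _ => ?_
  rw [← Finset.sum_filter, Finset.sum_const, nsmul_eq_mul]
  exact mul_le_mul_of_nonneg_right (hK g) (hf g)

/-- rows -/
theorem row_sum {p : ℕ} {s : ℕ → ℤ} {X : Finset (ℕ × ℕ)} {w : ℕ} {W : ℕ → ℝ}
    (hX : ∀ z ∈ X, z.1 < z.2 ∧ z.2 ≤ z.1 + w)
    (hr : ∀ i ∈ X.image Prod.fst, ∑ l ∈ (Icc i (i + w)).erase i, (vl p s i l : ℝ) ≤ W i)
    (hc : ∀ i j, vl p s i j = vl p s j i) :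
    ∑ z ∈ X, (vl p s z.2 z.1 : ℝ) ≤ ∑ i ∈ X.image Prod.fst, W i := by
  have h1 : ∑ z ∈ X, (vl p s z.2 z.1 : ℝ) =
      ∑ i ∈ X.image Prod.fst, ∑ z ∈ X.filter (fun z => z.1 = i), (vl p s z.2 z.1 : ℝ) :=
    (Finset.sum_fiberwise_of_maps_to (fun z hz => mem_image_of_mem _ hz) _).symm
  rw [h1]
  refine Finset.sum_le_sum fun i hi => (?_ : _ ≤ _).trans (hr i hi)
  have h2 : ∑ z ∈ X.filter (fun z => z.1 = i), (vl p s z.2 z.1 : ℝ) =
      ∑ l ∈ (X.filter (fun z => z.1 = i)).image Prod.snd, (vl p s i l : ℝ) := by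
    rw [Finset.sum_image]
    · refine Finset.sum_congr rfl fun z hz => ?_
      rw [mem_filter] at hz
      rw [hz.2, hc]
    · intro z hz z' hz' h
      rw [mem_coe, mem_filter] at hz hz'
      exact Prod.ext (hz.2.trans hz'.2.symm) h
  rw [h2]
  refine Finset.sum_le_sum_of_subset_of_nonneg ?_ fun _ _ _ => Nat.cast_nonneg _
  intro l hl
  rw [mem_image] at hl
  obtain ⟨z, hz, rfl⟩ := hl
  rw [mem_filter] at hz
  have := hX z hz.1
  rw [mem_erase, mem_Icc]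
  omega

/-- columns -/
theorem col_sum {p : ℕ} {s : ℕ → ℤ} {X : Finset (ℕ × ℕ)} {w : ℕ} {W : ℕ → ℝ}
    (hX : ∀ z ∈ X, z.1 < z.2 ∧ z.2 ≤ z.1 + w)
    (hr : ∀ j ∈ X.image Prod.snd, ∑ l ∈ (Icc (j - w) j).erase j, (vl p s j l : ℝ) ≤ W j) :
    ∑ z ∈ X, (vl p s z.2 z.1 : ℝ) ≤ ∑ j ∈ X.image Prod.snd, W j := by
  have h1 : ∑ z ∈ X, (vl p s z.2 z.1 : ℝ) =
      ∑ j ∈ X.image Prod.snd, ∑ z ∈ X.filter (fun z => z.2 = j), (vl p s z.2 z.1 : ℝ) :=
    (Finset.sum_fiberwise_of_maps_to (fun z hz => mem_image_of_mem _ hz) _).symm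
  rw [h1]
  refine Finset.sum_le_sum fun j hj => (?_ : _ ≤ _).trans (hr j hj)
  have h2 : ∑ z ∈ X.filter (fun z => z.2 = j), (vl p s z.2 z.1 : ℝ) =
      ∑ l ∈ (X.filter (fun z => z.2 = j)).image Prod.fst, (vl p s j l : ℝ) := by
    rw [Finset.sum_image]
    · refine Finset.sum_congr rfl fun z hz => ?_
      rw [mem_filter] at hz
      rw [hz.2]
    · intro z hz z' hz' h
      rw [mem_coe, mem_filter] at hz hz'
      exact Prod.ext h (hz.2.trans hz'.2.symm)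
  rw [h2]
  refine Finset.sum_le_sum_of_subset_of_nonneg ?_ fun _ _ _ => Nat.cast_nonneg _
  intro l hl
  rw [mem_image] at hl
  obtain ⟨z, hz, rfl⟩ := hl
  rw [mem_filter] at hz
  have := hX z hz.1
  rw [mem_erase, mem_Icc]
  omega

theorem pair_le (Y : Finset (ℕ × ℕ)) (I : Finset ℕ) (Jf : ℕ → Finset ℕ) (F : ℕ → ℕ → ℝ)
    (hF : ∀ i j, 0 ≤ F i j) (hY : ∀ z ∈ Y, z.1 ∈ I ∧ z.2 ∈ Jf z.1) :
    ∑ z ∈ Y, F z.1 z.2 ≤ ∑ i ∈ I, ∑ j ∈ Jf i, F i j := by
  rw [Finset.sum_sigma']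
  let e : ℕ × ℕ → (Σ _ : ℕ, ℕ) := fun z => ⟨z.1, z.2⟩
  have he : Function.Injective e := by
    intro z z' h
    simp only [e, Sigma.mk.injEq, heq_eq_eq] at h
    exact Prod.ext h.1 h.2
  have h1 : ∑ z ∈ Y, F z.1 z.2 = ∑ w ∈ Y.image e, F w.1 w.2 := by
    rw [Finset.sum_image fun z _ z' _ h => he h]
  rw [h1]
  refine Finset.sum_le_sum_of_subset_of_nonneg ?_ fun w _ _ => hF _ _
  intro w hw
  rw [mem_image] at hw
  obtain ⟨z, hz, rfl⟩ := hw
  rw [mem_sigma]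
  exact hY z hz

/-- the first place at or after `i` -/
noncomputable def fp (p : ℕ) (s : ℕ → ℤ) (i : ℕ) : ℕ := sInf {g | i ≤ g ∧ om p s g ≠ 0}

theorem fp_spec {p : ℕ} {s : ℕ → ℤ} (hm : Monotone (nv p s)) {i j : ℕ} (hij : i < j)
    (h : nv p s j ≠ nv p s i) :
    i ≤ fp p s i ∧ fp p s i < j ∧ om p s (fp p s i) ≠ 0 ∧
      ∀ g, i ≤ g → g < fp p s i → om p s g = 0 := by
  have h1 : ∃ g ∈ Ico i j, om p s g ≠ 0 := by
    by_contra hcon
    push Not at hcon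
    have h2 := om_sum hm hij.le
    have h3 : ∑ g ∈ Ico i j, (om p s g : ℝ) = 0 := by
      refine Finset.sum_eq_zero fun g hg => ?_
      rw [hcon g hg, Nat.cast_zero]
    rw [h3] at h2
    apply h
    have : (nv p s j : ℝ) = nv p s i := by linarith
    exact_mod_cast this
  obtain ⟨g, hg, hg'⟩ := h1
  rw [mem_Ico] at hg
  have hne : {g | i ≤ g ∧ om p s g ≠ 0}.Nonempty := ⟨g, hg.1, hg'⟩
  have h4 : fp p s i ∈ {g | i ≤ g ∧ om p s g ≠ 0} := Nat.sInf_mem hne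
  have h5 : fp p s i ≤ g := Nat.sInf_le ⟨hg.1, hg'⟩
  refine ⟨h4.1, by omega, h4.2, fun g' h6 h7 => ?_⟩
  by_contra h8
  have : fp p s i ≤ g' := Nat.sInf_le ⟨h6, h8⟩
  omega

theorem exp_A {p : ℕ} {s : ℕ → ℤ}
    (hpad : ∀ u v h : ℕ, u ≤ h → h ≤ v →
      nv p s u + ∑ l ∈ (Icc u v).erase h, vl p s h l ≤ nv p s v)
    (hc : ∀ i j, vl p s i j = vl p s j i) {N m J x : ℕ} (hx : 128 * x ≤ m)
    (hj : ∀ i, i + 32 * x ≤ N → nv p s (i + 32 * x) ≤ nv p s i + J)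
    (A : Finset (ℕ × ℕ)) (R : Finset ℕ)
    (hA : ∀ z ∈ A, z.1 < z.2 ∧ z.2 ≤ z.1 + 32 * x ∧ z.1 ≤ fp p s z.1 ∧ fp p s z.1 < z.2 ∧
      fp p s z.1 ∈ R ∧ z.1 + 32 * x ≤ N)
    (hR : ∀ g ∈ R, om p s g ≠ 0) :
    ∑ z ∈ A, (vl p s z.2 z.1 : ℝ) ≤ ((m : ℝ) / 4 + 1) * J * ∑ g ∈ R, (om p s g : ℝ) := by
  have h1 : ∑ z ∈ A, (vl p s z.2 z.1 : ℝ) =
      ∑ g ∈ R, ∑ z ∈ A.filter (fun z => fp p s z.1 = g), (vl p s z.2 z.1 : ℝ) :=
    (Finset.sum_fiberwise_of_maps_to (fun z hz => (hA z hz).2.2.2.2.1) _).symm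
  rw [h1, Finset.mul_sum]
  refine Finset.sum_le_sum fun g hg => ?_
  have h2 : ∑ z ∈ A.filter (fun z => fp p s z.1 = g), (vl p s z.2 z.1 : ℝ) ≤
      ∑ i ∈ (A.filter (fun z => fp p s z.1 = g)).image Prod.fst, (J : ℝ) := by
    refine row_sum (w := 32 * x) (fun z hz => ?_) (fun i hi => ?_) hc
    · rw [mem_filter] at hz
      exact ⟨(hA z hz.1).1, (hA z hz.1).2.1⟩
    · rw [mem_image] at hi
      obtain ⟨z, hz, rfl⟩ := hi
      rw [mem_filter] at hz
      have h3 := hpad z.1 (z.1 + 32 * x) z.1 le_rfl (by omega)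
      have h4 := hj z.1 (hA z hz.1).2.2.2.2.2
      have h5 : ∑ l ∈ (Icc z.1 (z.1 + 32 * x)).erase z.1, vl p s z.1 l ≤ J := by omega
      exact_mod_cast h5
  refine h2.trans ?_
  rw [Finset.sum_const, nsmul_eq_mul]
  have h6 : (((A.filter (fun z => fp p s z.1 = g)).image Prod.fst).card : ℝ) ≤ (m : ℝ) / 4 := by
    have h7 : (A.filter (fun z => fp p s z.1 = g)).image Prod.fst ⊆ Icc (g + 1 - 32 * x) g := by
      intro i hi
      rw [mem_image] at hi
      obtain ⟨z, hz, rfl⟩ := hi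
      rw [mem_filter] at hz
      obtain ⟨a1, a2, a3, a4, a5, a6⟩ := hA z hz.1
      have a7 := hz.2
      rw [mem_Icc]
      omega
    have h8 := card_le_card h7
    rw [Nat.card_Icc] at h8
    have h9 : 4 * ((A.filter (fun z => fp p s z.1 = g)).image Prod.fst).card ≤ m := by omega
    have h10 : (4 : ℝ) * ((A.filter (fun z => fp p s z.1 = g)).image Prod.fst).card ≤ m := by
      exact_mod_cast h9
    linarith
  have h11 : (1 : ℝ) ≤ om p s g := by
    exact_mod_cast Nat.one_le_iff_ne_zero.mpr (hR g hg)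
  have hJ : (0 : ℝ) ≤ J := Nat.cast_nonneg J
  have hm0 : (0 : ℝ) ≤ m := Nat.cast_nonneg m
  calc (((A.filter (fun z => fp p s z.1 = g)).image Prod.fst).card : ℝ) * J
      ≤ ((m : ℝ) / 4) * J := mul_le_mul_of_nonneg_right h6 hJ
    _ ≤ ((m : ℝ) / 4 + 1) * J * 1 := by nlinarith
    _ ≤ ((m : ℝ) / 4 + 1) * J * om p s g :=
        mul_le_mul_of_nonneg_left h11 (by positivity)

theorem exp_B2 {p : ℕ} {s : ℕ → ℤ} (hm : Monotone (nv p s)) (h0 : nv p s 0 = 0)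
    (hpad : ∀ u v h : ℕ, u ≤ h → h ≤ v →
      nv p s u + ∑ l ∈ (Icc u v).erase h, vl p s h l ≤ nv p s v)
    (hc : ∀ i j, vl p s i j = vl p s j i) {N m x : ℕ} (hx : 128 * x ≤ m)
    (A : Finset (ℕ × ℕ))
    (hA : ∀ z ∈ A, z.1 < z.2 ∧ z.2 ≤ z.1 + 32 * x ∧ z.1 ≤ fp p s z.1 ∧ fp p s z.1 < z.2 ∧
      z.1 + 32 * x ≤ N ∧ Iso p s m (fp p s z.1) ∧
      (fp p s z.1 : ℝ) - z.1 ≤ 2 * (1 / 10 ^ 10 * (m : ℝ))) :
    ∑ z ∈ A, (vl p s z.2 z.1 : ℝ) ≤ (5 / 2 * (1 / 10 ^ 10 * (m : ℝ)) + 1) * nv p s N := by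
  set D : ℝ := 1 / 10 ^ 10 * (m : ℝ) with hD
  have hD0 : 0 ≤ D := by positivity
  let r : ℕ → ℕ → Prop := fun i g => i ≤ g ∧ (g : ℝ) ≤ i + 5 / 2 * D
  have h1 : ∑ z ∈ A, (vl p s z.2 z.1 : ℝ) ≤
      ∑ i ∈ A.image Prod.fst, ∑ g ∈ range N, (if r i g then (om p s g : ℝ) else 0) := by
    refine row_sum (w := 32 * x) (fun z hz => ⟨(hA z hz).1, (hA z hz).2.1⟩) (fun i hi => ?_) hc
    rw [mem_image] at hi
    obtain ⟨z, hz, rfl⟩ := hi
    obtain ⟨a1, a2, a3, a4, a5, a6, a7⟩ := hA z hz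
    have h3 := hpad z.1 (z.1 + 32 * x) z.1 le_rfl (by omega)
    have h4 : (∑ l ∈ (Icc z.1 (z.1 + 32 * x)).erase z.1, (vl p s z.1 l : ℝ)) ≤
        (nv p s (z.1 + 32 * x) : ℝ) - nv p s z.1 := by
      have h5 : (nv p s z.1 : ℝ) + ∑ l ∈ (Icc z.1 (z.1 + 32 * x)).erase z.1, (vl p s z.1 l : ℝ) ≤
          nv p s (z.1 + 32 * x) := by exact_mod_cast h3
      linarith
    refine h4.trans ?_
    rw [← om_sum hm (by omega : z.1 ≤ z.1 + 32 * x)]
    rw [← Finset.sum_filter]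
    rw [← Finset.sum_filter_ne_zero (s := Ico z.1 (z.1 + 32 * x))]
    refine Finset.sum_le_sum_of_subset_of_nonneg ?_ fun _ _ _ => Nat.cast_nonneg _
    intro g hg
    rw [mem_filter, mem_Ico] at hg
    obtain ⟨⟨b1, b2⟩, b3⟩ := hg
    have b4 : om p s g ≠ 0 := fun h => b3 (by rw [h, Nat.cast_zero])
    rw [mem_filter, mem_range]
    refine ⟨by omega, b1, ?_⟩
    have b5 : |(g : ℝ) - fp p s z.1| ≤ 3 * m / 4 := by
      have c1 : (z.1 : ℝ) ≤ g := by exact_mod_cast b1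
      have c2 : (g : ℝ) ≤ z.1 + 32 * x := by exact_mod_cast b2.le
      have c3 : (z.1 : ℝ) ≤ fp p s z.1 := by exact_mod_cast a3
      have c4 : (fp p s z.1 : ℝ) ≤ z.1 + 32 * x := by exact_mod_cast (a4.le.trans a2)
      have c5 : 128 * (x : ℝ) ≤ m := by exact_mod_cast hx
      have c6 : (0 : ℝ) ≤ m := Nat.cast_nonneg m
      rw [abs_le]
      constructor <;> linarith
    have b6 := a6 g b4 b5
    have b7 := (abs_le.mp b6).2
    have b8 : (1 : ℝ) / 10 ^ 10 * m / 2 = D / 2 := by rw [hD]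
    linarith
  refine h1.trans ?_
  have h5 : ∑ g ∈ range N, (om p s g : ℝ) = nv p s N := by
    have := om_sum hm (Nat.zero_le N)
    rw [h0, ← Finset.range_eq_Ico] at this
    rw [this]
    simp
  rw [← h5]
  refine double_count (fun g => (om p s g : ℝ)) (fun g => Nat.cast_nonneg _) _ N r _ fun g => ?_
  refine (card_le_real _ ((g : ℝ) - 5 / 2 * D) g (by linarith) fun i hi => ?_).trans (by linarith)
  rw [mem_filter] at hi
  obtain ⟨_, c1, c2⟩ := hi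
  exact ⟨by linarith, by exact_mod_cast c1⟩

theorem exp_B3 {p : ℕ} {s : ℕ → ℤ} (hm : Monotone (nv p s)) (h0 : nv p s 0 = 0)
    (hpad : ∀ u v h : ℕ, u ≤ h → h ≤ v →
      nv p s u + ∑ l ∈ (Icc u v).erase h, vl p s h l ≤ nv p s v)
    {N m x : ℕ} (hx : 128 * x ≤ m)
    (A : Finset (ℕ × ℕ))
    (hA : ∀ z ∈ A, z.1 < z.2 ∧ z.2 ≤ z.1 + 32 * x ∧ z.1 ≤ fp p s z.1 ∧ fp p s z.1 < z.2 ∧
      z.1 + 32 * x ≤ N ∧ Iso p s m (fp p s z.1) ∧
      (z.2 : ℝ) - fp p s z.1 ≤ 2 * (1 / 10 ^ 10 * (m : ℝ))) :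
    ∑ z ∈ A, (vl p s z.2 z.1 : ℝ) ≤ (5 / 2 * (1 / 10 ^ 10 * (m : ℝ)) + 1) * nv p s N := by
  set D : ℝ := 1 / 10 ^ 10 * (m : ℝ) with hD
  have hD0 : 0 ≤ D := by positivity
  let r : ℕ → ℕ → Prop := fun j g => g ≤ j ∧ (j : ℝ) ≤ g + 5 / 2 * D
  have h1 : ∑ z ∈ A, (vl p s z.2 z.1 : ℝ) ≤
      ∑ j ∈ A.image Prod.snd, ∑ g ∈ range N, (if r j g then (om p s g : ℝ) else 0) := by
    refine col_sum (w := 32 * x) (fun z hz => ⟨(hA z hz).1, (hA z hz).2.1⟩) (fun j hj => ?_)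
    rw [mem_image] at hj
    obtain ⟨z, hz, rfl⟩ := hj
    obtain ⟨a1, a2, a3, a4, a5, a6, a7⟩ := hA z hz
    have h3 := hpad (z.2 - 32 * x) z.2 z.2 (by omega) le_rfl
    have h4 : (∑ l ∈ (Icc (z.2 - 32 * x) z.2).erase z.2, (vl p s z.2 l : ℝ)) ≤
        (nv p s z.2 : ℝ) - nv p s (z.2 - 32 * x) := by
      have h5 : (nv p s (z.2 - 32 * x) : ℝ) +
          ∑ l ∈ (Icc (z.2 - 32 * x) z.2).erase z.2, (vl p s z.2 l : ℝ) ≤
          nv p s z.2 := by exact_mod_cast h3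
      linarith
    refine h4.trans ?_
    rw [← om_sum hm (by omega : z.2 - 32 * x ≤ z.2)]
    rw [← Finset.sum_filter]
    rw [← Finset.sum_filter_ne_zero (s := Ico (z.2 - 32 * x) z.2)]
    refine Finset.sum_le_sum_of_subset_of_nonneg ?_ fun _ _ _ => Nat.cast_nonneg _
    intro g hg
    rw [mem_filter, mem_Ico] at hg
    obtain ⟨⟨b1, b2⟩, b3⟩ := hg
    have b4 : om p s g ≠ 0 := fun h => b3 (by rw [h, Nat.cast_zero])
    rw [mem_filter, mem_range]
    refine ⟨by omega, b2.le, ?_⟩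
    have b5 : |(g : ℝ) - fp p s z.1| ≤ 3 * m / 4 := by
      have b1' : z.2 ≤ g + 32 * x := by omega
      have c1 : (z.2 : ℝ) ≤ g + 32 * x := by exact_mod_cast b1'
      have c2 : (g : ℝ) ≤ z.2 := by exact_mod_cast b2.le
      have b2' : z.2 ≤ fp p s z.1 + 32 * x := by omega
      have c3 : (z.2 : ℝ) ≤ fp p s z.1 + 32 * x := by exact_mod_cast b2'
      have c4 : (fp p s z.1 : ℝ) ≤ z.2 := by exact_mod_cast a4.le
      have c5 : 128 * (x : ℝ) ≤ m := by exact_mod_cast hx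
      have c6 : (0 : ℝ) ≤ m := Nat.cast_nonneg m
      rw [abs_le]
      constructor <;> linarith
    have b6 := a6 g b4 b5
    have b7 := (abs_le.mp b6).1
    have b8 : (1 : ℝ) / 10 ^ 10 * m / 2 = D / 2 := by rw [hD]
    linarith
  refine h1.trans ?_
  have h5 : ∑ g ∈ range N, (om p s g : ℝ) = nv p s N := by
    have := om_sum hm (Nat.zero_le N)
    rw [h0, ← Finset.range_eq_Ico] at this
    rw [this]
    simp
  rw [← h5]
  refine double_count (fun g => (om p s g : ℝ)) (fun g => Nat.cast_nonneg _) _ N r _ fun g => ?_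
  refine (card_le_real _ (g : ℝ) (g + 5 / 2 * D) (by linarith) fun i hi => ?_).trans (by linarith)
  rw [mem_filter] at hi
  obtain ⟨_, c1, c2⟩ := hi
  exact ⟨by exact_mod_cast c1, c2⟩

/-- the sum of ND in one window -/
noncomputable def NDs (p : ℕ) (s : ℕ → ℤ) (u m : ℕ) : ℝ :=
  ∑ i ∈ Ioo u (u + m), ∑ j ∈ Ioo i (u + m),
      (if nv p s i = nv p s u ∧ nv p s j = nv p s (u + m) ∧ ¬ Rel s i j
        then (vl p s j i : ℝ) else 0)

theorem exp_B4 {p : ℕ} {s : ℕ → ℤ} (hm : Monotone (nv p s)) (h0 : nv p s 0 = 0)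
    {N m x : ℕ} {H : ℤ} (hx : 128 * x ≤ m) (hm1 : (10 : ℝ) ^ 20 ≤ m) (hmN : m ≤ N)
    (hDfc : ∀ u : ℕ, 0 ≤ Dfc p s u m)
    (hUG : ∀ g u : ℕ, Iso p s m g → u ∈ Ug s H N m g → Cent p s u m ∧ u ≤ g ∧ g < u + m ∧
      Flat s H m u ∧ u + m ≤ N)
    (hND : ∀ u : ℕ, Flat s H m u → Cent p s u m → NDs p s u m ≤
      ((nv p s (u + m) : ℝ) - nv p s u) * (6 / 10 ^ 10 * m + 2) + 2 * Dfc p s u m)
    (A : Finset (ℕ × ℕ))
    (hA : ∀ z ∈ A, z.1 < z.2 ∧ z.2 ≤ z.1 + 32 * x ∧ z.1 ≤ fp p s z.1 ∧ fp p s z.1 < z.2 ∧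
      om p s (fp p s z.1) ≠ 0 ∧ ¬ Rel s z.1 z.2 ∧ Iso p s m (fp p s z.1) ∧
      FlG s H N m (fp p s z.1) ∧ 2 * (1 / 10 ^ 10 * (m : ℝ)) < (fp p s z.1 : ℝ) - z.1 ∧
      2 * (1 / 10 ^ 10 * (m : ℝ)) < (z.2 : ℝ) - fp p s z.1) :
    ∑ z ∈ A, (vl p s z.2 z.1 : ℝ) ≤ 4 / (1 / 10 ^ 10 * (m : ℝ)) *
      ((6 * (1 / 10 ^ 10 * (m : ℝ)) + 2) * ((2 * (1 / 10 ^ 10 * (m : ℝ)) + 1) * nv p s N) +
        2 * ∑ u ∈ range (N - m + 1), Dfc p s u m) := by
  set D : ℝ := 1 / 10 ^ 10 * (m : ℝ) with hD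
  have hD0 : 0 < D := by
    have : (0 : ℝ) < m := lt_of_lt_of_le (by positivity) hm1
    positivity
  have hD1 : 10 ^ 10 ≤ D := by
    rw [hD]
    have : (10 : ℝ) ^ 20 = 10 ^ 10 * 10 ^ 10 := by norm_num
    rw [this] at hm1
    rw [div_mul_eq_mul_div, one_mul, le_div_iff₀ (by positivity)]
    exact hm1
  have hmD : (m : ℝ) = 10 ^ 10 * D := by rw [hD]; ring
  -- each pair is in many windows
  have h1 : ∀ z ∈ A, D / 4 * (vl p s z.2 z.1 : ℝ) ≤
      ∑ u ∈ range (N - m + 1), (if u ∈ Ug s H N m (fp p s z.1) then (vl p s z.2 z.1 : ℝ) else 0) := by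
    intro z hz
    obtain ⟨a1, a2, a3, a4, a5, a6, a7, a8, a9, a10⟩ := hA z hz
    rw [← Finset.sum_filter, Finset.sum_const, nsmul_eq_mul]
    refine mul_le_mul_of_nonneg_right ?_ (Nat.cast_nonneg _)
    have e1 : (range (N - m + 1)).filter (fun u => u ∈ Ug s H N m (fp p s z.1)) =
        Ug s H N m (fp p s z.1) := by
      ext u
      rw [mem_filter]
      constructor
      · exact fun h => h.2
      · intro h
        refine ⟨?_, h⟩
        unfold Ug at h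
        exact (mem_filter.mp h).1
    rw [e1]
    exact a8
  have h2 : D / 4 * ∑ z ∈ A, (vl p s z.2 z.1 : ℝ) ≤ ∑ u ∈ range (N - m + 1),
      ∑ z ∈ A, (if u ∈ Ug s H N m (fp p s z.1) then (vl p s z.2 z.1 : ℝ) else 0) := by
    rw [Finset.sum_comm, Finset.mul_sum]
    exact Finset.sum_le_sum h1
  -- in each window ND
  have h3 : ∀ u ∈ range (N - m + 1),
      ∑ z ∈ A, (if u ∈ Ug s H N m (fp p s z.1) then (vl p s z.2 z.1 : ℝ) else 0) ≤
      (if Flat s H m u ∧ Cent p s u m ∧ u + m ≤ N then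
        ((nv p s (u + m) : ℝ) - nv p s u) * (6 * D + 2) + 2 * Dfc p s u m else 0) := by
    intro u hu
    rw [← Finset.sum_filter]
    rcases (A.filter fun z => u ∈ Ug s H N m (fp p s z.1)).eq_empty_or_nonempty with he | hne
    · rw [he, Finset.sum_empty]
      split_ifs
      · have e1 : nv p s u ≤ nv p s (u + m) := hm (Nat.le_add_right u m)
        have e2 : (nv p s u : ℝ) ≤ nv p s (u + m) := by exact_mod_cast e1
        have e3 := hDfc u
        have e4 : 0 ≤ ((nv p s (u + m) : ℝ) - nv p s u) * (6 * D + 2) :=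
          mul_nonneg (by linarith) (by positivity)
        linarith
      · exact le_rfl
    · obtain ⟨z₀, hz₀⟩ := hne
      rw [mem_filter] at hz₀
      have hu0 := hUG _ u (hA z₀ hz₀.1).2.2.2.2.2.2.1 hz₀.2
      rw [if_pos ⟨hu0.2.2.2.1, hu0.1, hu0.2.2.2.2⟩]
      have e5 := hND u hu0.2.2.2.1 hu0.1
      have e6 : (6 : ℝ) / 10 ^ 10 * m + 2 = 6 * D + 2 := by rw [hD]; ring
      rw [e6] at e5
      refine le_trans ?_ e5
      unfold NDs
      have e7 : ∑ z ∈ A.filter (fun z => u ∈ Ug s H N m (fp p s z.1)), (vl p s z.2 z.1 : ℝ) =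
          ∑ z ∈ A.filter (fun z => u ∈ Ug s H N m (fp p s z.1)),
            (fun i j : ℕ => if nv p s i = nv p s u ∧ nv p s j = nv p s (u + m) ∧ ¬ Rel s i j
              then (vl p s j i : ℝ) else 0) z.1 z.2 ∧
          ∀ z ∈ A.filter (fun z => u ∈ Ug s H N m (fp p s z.1)),
            z.1 ∈ Ioo u (u + m) ∧ z.2 ∈ Ioo z.1 (u + m) := by
        have key : ∀ z ∈ A.filter (fun z => u ∈ Ug s H N m (fp p s z.1)),
            (nv p s z.1 = nv p s u ∧ nv p s z.2 = nv p s (u + m) ∧ ¬ Rel s z.1 z.2) ∧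
            z.1 ∈ Ioo u (u + m) ∧ z.2 ∈ Ioo z.1 (u + m) := by
          intro z hz
          rw [mem_filter] at hz
          obtain ⟨a1, a2, a3, a4, a5, a6, a7, a8, a9, a10⟩ := hA z hz.1
          have hz2 := hUG _ u a7 hz.2
          have hug : |(u : ℝ) + m / 2 - fp p s z.1| ≤ 1 / 10 ^ 10 * m / 2 := by
            have := hz.2
            unfold Ug at this
            exact (mem_filter.mp this).2.2
          have b8 : (1 : ℝ) / 10 ^ 10 * m / 2 = D / 2 := by rw [hD]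
          rw [b8, abs_le] at hug
          have c1 : 128 * (x : ℝ) ≤ m := by exact_mod_cast hx
          have c2 : (z.2 : ℝ) ≤ z.1 + 32 * x := by exact_mod_cast a2
          have c3 : (z.1 : ℝ) ≤ fp p s z.1 := by exact_mod_cast a3
          have c4 : (fp p s z.1 : ℝ) ≤ z.2 := by exact_mod_cast a4.le
          have c5 : (u : ℝ) < z.1 := by linarith
          have c6 : (z.2 : ℝ) < (u : ℝ) + m := by linarith
          have c7 : u < z.1 := by exact_mod_cast c5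
          have c8 : z.2 < u + m := by exact_mod_cast c6
          -- all places of the window are near `fp`
          have near : ∀ g : ℕ, u ≤ g → g < u + m → om p s g ≠ 0 →
              |(g : ℝ) - fp p s z.1| ≤ D / 2 := by
            intro g g1 g2 g3
            have g4 : (u : ℝ) ≤ g := by exact_mod_cast g1
            have g5 : (g : ℝ) ≤ u + m := by exact_mod_cast g2.le
            have g6 : |(g : ℝ) - fp p s z.1| ≤ 3 * m / 4 := by
              rw [abs_le]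
              constructor <;> linarith
            have g7 := a7 g g3 g6
            rw [b8] at g7
            exact g7
          refine ⟨⟨?_, ?_, a6⟩, ?_, ?_⟩
          · have e8 := om_sum hm (show u ≤ z.1 by omega)
            have e9 : ∑ g ∈ Ico u z.1, (om p s g : ℝ) = 0 := by
              refine Finset.sum_eq_zero fun g hg => ?_
              rw [mem_Ico] at hg
              by_contra hcon
              have hne' : om p s g ≠ 0 := fun h => hcon (by rw [h, Nat.cast_zero])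
              have n1 := (abs_le.mp (near g hg.1 (by omega) hne')).1
              have n2 : (g : ℝ) ≤ z.1 := by exact_mod_cast hg.2.le
              linarith
            rw [e9] at e8
            have : (nv p s z.1 : ℝ) = nv p s u := by linarith
            exact_mod_cast this
          · have e8 := om_sum hm (show z.2 ≤ u + m by omega)
            have e9 : ∑ g ∈ Ico z.2 (u + m), (om p s g : ℝ) = 0 := by
              refine Finset.sum_eq_zero fun g hg => ?_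
              rw [mem_Ico] at hg
              by_contra hcon
              have hne' : om p s g ≠ 0 := fun h => hcon (by rw [h, Nat.cast_zero])
              have n1 := (abs_le.mp (near g (by omega) hg.2 hne')).2
              have n2 : (z.2 : ℝ) ≤ g := by exact_mod_cast hg.1
              linarith
            rw [e9] at e8
            have : (nv p s z.2 : ℝ) = nv p s (u + m) := by linarith
            exact_mod_cast this
          · rw [mem_Ioo]
            omega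
          · rw [mem_Ioo]
            omega
        refine ⟨Finset.sum_congr rfl fun z hz => ?_, fun z hz => (key z hz).2⟩
        show _ = if _ then _ else _
        rw [if_pos (key z hz).1]
      rw [e7.1]
      refine pair_le _ (Ioo u (u + m)) (fun i => Ioo i (u + m))
        (fun i j : ℕ => if nv p s i = nv p s u ∧ nv p s j = nv p s (u + m) ∧ ¬ Rel s i j
              then (vl p s j i : ℝ) else 0) (fun i j => ?_) e7.2
      show (0 : ℝ) ≤ if _ then _ else _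
      split_ifs
      · exact Nat.cast_nonneg _
      · exact le_rfl
  have h4 : ∑ u ∈ range (N - m + 1), (if Flat s H m u ∧ Cent p s u m ∧ u + m ≤ N then
        ((nv p s (u + m) : ℝ) - nv p s u) * (6 * D + 2) + 2 * Dfc p s u m else 0) ≤
      (6 * D + 2) * ((2 * D + 1) * nv p s N) + 2 * ∑ u ∈ range (N - m + 1), Dfc p s u m := by
    rw [← Finset.sum_filter, Finset.sum_add_distrib, ← Finset.sum_mul, ← Finset.mul_sum]
    refine add_le_add ?_ ?_
    · rw [mul_comm]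
      refine mul_le_mul_of_nonneg_left ?_ (by positivity)
      let r : ℕ → ℕ → Prop := fun u g => |(g : ℝ) - u - m / 2| ≤ D
      have e1 : ∑ u ∈ (range (N - m + 1)).filter
            (fun u => Flat s H m u ∧ Cent p s u m ∧ u + m ≤ N),
            ((nv p s (u + m) : ℝ) - nv p s u) ≤
          ∑ u ∈ (range (N - m + 1)).filter
            (fun u => Flat s H m u ∧ Cent p s u m ∧ u + m ≤ N),
            ∑ g ∈ range N, (if r u g then (om p s g : ℝ) else 0) := by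
        refine Finset.sum_le_sum fun u hu => ?_
        rw [mem_filter] at hu
        obtain ⟨_, _, u2, u3⟩ := hu
        rw [← om_sum hm (Nat.le_add_right u m)]
        rw [← Finset.sum_filter]
        rw [← Finset.sum_filter_ne_zero (s := Ico u (u + m))]
        refine Finset.sum_le_sum_of_subset_of_nonneg ?_ fun _ _ _ => Nat.cast_nonneg _
        intro g hg
        rw [mem_filter, mem_Ico] at hg
        obtain ⟨⟨b1, b2⟩, b3⟩ := hg
        have b4 : om p s g ≠ 0 := fun h => b3 (by rw [h, Nat.cast_zero])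
        rw [mem_filter, mem_range]
        exact ⟨by omega, u2 g b1 b2 b4⟩
      refine e1.trans ?_
      have h5 : ∑ g ∈ range N, (om p s g : ℝ) = nv p s N := by
        have := om_sum hm (Nat.zero_le N)
        rw [h0, ← Finset.range_eq_Ico] at this
        rw [this]
        simp
      rw [← h5]
      refine double_count (fun g => (om p s g : ℝ)) (fun g => Nat.cast_nonneg _) _ N r _
        fun g => ?_
      refine (card_le_real _ ((g : ℝ) - m / 2 - D) (g - m / 2 + D) (by linarith)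
        fun i hi => ?_).trans (by linarith)
      rw [mem_filter] at hi
      have := abs_le.mp hi.2
      constructor <;> linarith [this.1, this.2]
    · refine mul_le_mul_of_nonneg_left ?_ (by norm_num)
      exact Finset.sum_le_sum_of_subset_of_nonneg (Finset.filter_subset _ _)
        fun u _ _ => hDfc u
  have h5 := h2.trans ((Finset.sum_le_sum h3).trans h4)
  rw [div_mul_eq_mul_div, le_div_iff₀ hD0]
  linarith

theorem stmt_EXP (hPAD : Stmt_PAD) (hPAE : Stmt_PAE) (hDFC : Stmt_DFC) (hUG : Stmt_UG)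
    (hND : Stmt_ND) : Stmt_EXP := by
  intro s C₀ N M P m J x H hZ hx1 hx2 p hp
  have hcv := hZ.cvx
  have hpp := (hZ.prime p hp).1
  have hPp := (hZ.prime p hp).2
  obtain ⟨hm, h0, -, hpad⟩ := hPAD s C₀ hcv p hpp
  obtain ⟨hc, -, hdvd, -, -, -, hdist⟩ := hPAE s C₀ hcv p hpp
  have hmN : m ≤ N := by have := hZ.m_N; omega
  have hmb := hZ.m_big
  have hmr : (10 : ℝ) ^ 20 ≤ m := by exact_mod_cast hmb
  have hDfc : ∀ u, 0 ≤ Dfc p s u m := fun u => (hDFC s C₀ hcv p hpp u m).1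
  have hUG1 := (hUG s C₀ N M P m J H hZ).1
  have hmp : m < p := by
    have h1 := hZ.m_le
    have h2 := hZ.M_P
    omega
  have hHp : H * (m : ℤ) ^ 2 < p := by
    have h1 := hZ.HP
    have h2 : (P : ℤ) < p := by exact_mod_cast hPp
    have h3 : 0 ≤ H * (m : ℤ) ^ 2 := mul_nonneg (by linarith [hZ.H_pos]) (by positivity)
    linarith
  have hNDp : ∀ u : ℕ, Flat s H m u → Cent p s u m → NDs p s u m ≤
      ((nv p s (u + m) : ℝ) - nv p s u) * (6 / 10 ^ 10 * m + 2) + 2 * Dfc p s u m :=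
    fun u h1 h2 => hND s C₀ hcv p hpp u m H h1 hHp hmp h2
  refine ⟨(range (N - 2 * m)).filter fun g => N ≤ 2 * g ∧ om p s g ≠ 0 ∧
      (¬ Iso p s m g ∨ ¬ FlG s H N m g), fun g hg => ?_, fun X hX => ?_⟩
  · rw [mem_filter, mem_range] at hg
    exact ⟨hg.2.1, hg.1, hg.2.2.1, hg.2.2.2⟩
  set R := (range (N - 2 * m)).filter fun g => N ≤ 2 * g ∧ om p s g ≠ 0 ∧
      (¬ Iso p s m g ∨ ¬ FlG s H N m g) with hR
  set D : ℝ := 1 / 10 ^ 10 * (m : ℝ) with hD
  have hD1 : 10 ^ 10 ≤ D := by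
    rw [hD]
    have : (10 : ℝ) ^ 20 = 10 ^ 10 * 10 ^ 10 := by norm_num
    rw [this] at hmr
    rw [div_mul_eq_mul_div, one_mul, le_div_iff₀ (by positivity)]
    exact hmr
  have hD0 : 0 < D := lt_of_lt_of_le (by positivity) hD1
  -- drop the pairs with valuation zero
  set X' := X.filter fun z => vl p s z.2 z.1 ≠ 0 with hX'
  have e0 : ∑ z ∈ X, (vl p s z.2 z.1 : ℝ) = ∑ z ∈ X', (vl p s z.2 z.1 : ℝ) := by
    rw [hX']
    rw [← Finset.sum_filter_add_sum_filter_not X (fun z => vl p s z.2 z.1 ≠ 0)]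
    rw [add_eq_left]
    refine Finset.sum_eq_zero fun z hz => ?_
    rw [mem_filter, not_not] at hz
    rw [hz.2, Nat.cast_zero]
  have key : ∀ z ∈ X', z.1 < z.2 ∧ z.2 ≤ z.1 + 32 * x ∧ z.1 ≤ fp p s z.1 ∧
      fp p s z.1 < z.2 ∧ om p s (fp p s z.1) ≠ 0 ∧ ¬ Rel s z.1 z.2 ∧ z.1 + 32 * x ≤ N ∧
      N ≤ 2 * fp p s z.1 ∧ fp p s z.1 < N - 2 * m := by
    intro z hz
    rw [hX', mem_filter] at hz
    obtain ⟨a1, a2, a3, a4, a5⟩ := hX z hz.1
    have hne : nv p s z.2 ≠ nv p s z.1 := by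
      intro h
      apply hz.2
      rw [hdvd z.2 z.1 (by omega)]
      exact hdist z.1 z.2 z.1 z.2 le_rfl a3 le_rfl h
    obtain ⟨b1, b2, b3, -⟩ := fp_spec hm a3 hne
    refine ⟨a3, a4, b1, b2, b3, a5, ?_, ?_, ?_⟩ <;> omega
  -- the four classes
  set A := X'.filter fun z => ¬ Iso p s m (fp p s z.1) ∨ ¬ FlG s H N m (fp p s z.1) with hA
  set B := X'.filter fun z => ¬ (¬ Iso p s m (fp p s z.1) ∨ ¬ FlG s H N m (fp p s z.1)) with hB
  set B2 := B.filter fun z => (fp p s z.1 : ℝ) - z.1 ≤ 2 * D with hB2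
  set B' := B.filter fun z => ¬ (fp p s z.1 : ℝ) - z.1 ≤ 2 * D with hB'
  set B3 := B'.filter fun z => (z.2 : ℝ) - fp p s z.1 ≤ 2 * D with hB3
  set B4 := B'.filter fun z => ¬ (z.2 : ℝ) - fp p s z.1 ≤ 2 * D with hB4
  have e1 : ∑ z ∈ X', (vl p s z.2 z.1 : ℝ) = ∑ z ∈ A, (vl p s z.2 z.1 : ℝ) +
      (∑ z ∈ B2, (vl p s z.2 z.1 : ℝ) + (∑ z ∈ B3, (vl p s z.2 z.1 : ℝ) +
        ∑ z ∈ B4, (vl p s z.2 z.1 : ℝ))) := by
    rw [hB3, hB4, Finset.sum_filter_add_sum_filter_not, hB2, hB',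
      Finset.sum_filter_add_sum_filter_not, hA, hB, Finset.sum_filter_add_sum_filter_not]
  have sA : ∑ z ∈ A, (vl p s z.2 z.1 : ℝ) ≤ ((m : ℝ) / 4 + 1) * J * ∑ g ∈ R, (om p s g : ℝ) := by
    refine exp_A (N := N) hpad hc hx1 (fun i hi => ?_) A R (fun z hz => ?_) fun g hg => ?_
    · have h1 := hZ.m_le
      exact hZ.jump p hp i (i + 32 * x) (by omega) (by omega) hi
    · rw [hA, mem_filter] at hz
      obtain ⟨b1, b2, b3, b4, b5, b6, b7, b8, b9⟩ := key z hz.1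
      refine ⟨b1, b2, b3, b4, ?_, b7⟩
      rw [hR, mem_filter, mem_range]
      exact ⟨b9, b8, b5, hz.2⟩
    · rw [hR, mem_filter] at hg
      exact hg.2.2.1
  have sB2 : ∑ z ∈ B2, (vl p s z.2 z.1 : ℝ) ≤ (5 / 2 * D + 1) * nv p s N := by
    refine exp_B2 hm h0 hpad hc hx1 B2 fun z hz => ?_
    rw [hB2, hB, mem_filter, mem_filter] at hz
    obtain ⟨b1, b2, b3, b4, b5, b6, b7, b8, b9⟩ := key z hz.1.1
    have h1 := hz.1.2
    push Not at h1
    exact ⟨b1, b2, b3, b4, b7, h1.1, hz.2⟩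
  have sB3 : ∑ z ∈ B3, (vl p s z.2 z.1 : ℝ) ≤ (5 / 2 * D + 1) * nv p s N := by
    refine exp_B3 hm h0 hpad hx1 B3 fun z hz => ?_
    rw [hB3, hB', hB, mem_filter, mem_filter, mem_filter] at hz
    obtain ⟨b1, b2, b3, b4, b5, b6, b7, b8, b9⟩ := key z hz.1.1.1
    have h1 := hz.1.1.2
    push Not at h1
    exact ⟨b1, b2, b3, b4, b7, h1.1, hz.2⟩
  have sB4 := exp_B4 hm h0 hx1 hmr hmN hDfc (fun g u => hUG1 p g u) hNDp B4 (fun z hz => by
    rw [hB4, hB', hB, mem_filter, mem_filter, mem_filter] at hz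
    obtain ⟨b1, b2, b3, b4, b5, b6, b7, b8, b9⟩ := key z hz.1.1.1
    have h1 := hz.1.1.2
    push Not at h1
    exact ⟨b1, b2, b3, b4, b5, b6, h1.1, h1.2, not_le.mp hz.1.2, not_le.mp hz.2⟩)
  rw [e0, e1]
  have hnv : (0 : ℝ) ≤ nv p s N := Nat.cast_nonneg _
  have hSD : 0 ≤ ∑ u ∈ range (N - m + 1), Dfc p s u m :=
    Finset.sum_nonneg fun u _ => hDfc u
  set SD := ∑ u ∈ range (N - m + 1), Dfc p s u m with hSD'
  have f1 : 4 / D * ((6 * D + 2) * ((2 * D + 1) * (nv p s N : ℝ)) + 2 * SD) =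
      (4 / D * ((6 * D + 2) * (2 * D + 1))) * nv p s N + 8 / D * SD := by ring
  have f2 : 4 / D * ((6 * D + 2) * (2 * D + 1)) ≤ 48 * D + 41 := by
    rw [div_mul_eq_mul_div, div_le_iff₀ hD0]
    nlinarith
  have f3 : 8 / D = 8 * 10 ^ 10 / (m : ℝ) := by
    have : (m : ℝ) ≠ 0 := by
      have : (0 : ℝ) < m := lt_of_lt_of_le (by positivity) hmr
      exact this.ne'
    rw [hD]
    field_simp
  have f4 : (60 : ℝ) / 10 ^ 10 * m = 60 * D := by rw [hD]; ring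
  rw [← f3, f4]
  have f5 : (4 / D * ((6 * D + 2) * (2 * D + 1))) * (nv p s N : ℝ) ≤ (48 * D + 41) * nv p s N :=
    mul_le_mul_of_nonneg_right f2 hnv
  have f6 : (48 * D + 41) * (nv p s N : ℝ) + 2 * ((5 / 2 * D + 1) * nv p s N) ≤
      60 * D * nv p s N := by
    have : (48 * D + 41) + 2 * (5 / 2 * D + 1) ≤ 60 * D := by linarith
    calc (48 * D + 41) * (nv p s N : ℝ) + 2 * ((5 / 2 * D + 1) * nv p s N)
        = ((48 * D + 41) + 2 * (5 / 2 * D + 1)) * nv p s N := by ring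
      _ ≤ 60 * D * nv p s N := mul_le_mul_of_nonneg_right this hnv
  have sB4' : ∑ z ∈ B4, (vl p s z.2 z.1 : ℝ) ≤
      (4 / D * ((6 * D + 2) * (2 * D + 1))) * nv p s N + 8 / D * SD := by
    rw [← f1]
    exact sB4
  linarith

end Pool.Agent.Work.MP_b29d7f_cvx
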