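import Pool.Agent.Work.MP_b29d7f_cvx.InterfaceC

/-! # Block FINALC: the classification of convex sets -/

namespace Pool.Agent.Work.MP_b29d7f_cvx

open Finset
open Pool.Agent.Work.MP_b29d7f_nt (HasSimultaneousOrdering)
open Pool.Agent.Work.MP_b29d7f_half (HalfDense)

theorem stmt_FINALC (h1 : Stmt_NORM) (h2 : Stmt_AP) (h3 : Stmt_MAINC) (h4 : Stmt_TAIL)
    (h5 : Stmt_FINP) (h6 : Stmt_CONV) : Stmt_FINALC := by
  intro s hmono hconv hgrow
  constructor
  · intro hO
    obtain ⟨C₀, hs⟩ := h1 s hmono hconv hgrow hO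
    by_cases hd : HalfDense (Set.range fun n => s n - s 0)
    · have := h2 _ C₀ hs hd
      refine ⟨s 1 - s 0, s 0, Or.inl fun n => ?_⟩
      have h := this n
      linear_combination h
    · obtain ⟨κ, X, b, hκ, hb, hT, v, x₀, hx₀, hv, hv'⟩ := h3 _ C₀ hs hd
      have ht := h4 _ C₀ hs κ X b hκ hb hT v x₀ hx₀ hv hv'
      have hall := h5 _ C₀ hs κ X b hκ hb hT ⟨v, x₀, ht⟩
      have hX : X = 0 := by
        have h := hall 0
        simp only [sub_self] at h
        rcases hκ with rfl | rfl <;> simp [Tt] at h <;> omega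
      subst hX
      rcases hκ with rfl | rfl
      · refine ⟨b, s 0, Or.inr (Or.inl fun n => ?_)⟩
        have h := hall n
        simp only [Tt, if_true] at h
        linear_combination h
      · refine ⟨b, s 0, Or.inr (Or.inr fun n => ?_)⟩
        have h := hall n
        simp only [Tt] at h
        norm_num at h
        linear_combination h
  · rintro ⟨a, b, h | h | h⟩
    · have e : s = fun n : ℕ => a * n + b := funext h
      rw [e]; exact (h6 a b).1
    · have e : s = fun n : ℕ => a * n ^ 2 + b := funext h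
      rw [e]; exact (h6 a b).2.1
    · have e : s = fun n : ℕ => a * (n * (n + 1) / 2) + b := funext h
      rw [e]; exact (h6 a b).2.2

end Pool.Agent.Work.MP_b29d7f_cvx
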