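import Pool.Agent.Work.MP_b29d7f_cvx.InterfaceC

/-!
# Block FIND: values of a quadratic sequence in an interval, on both sides of the vertex
-/

namespace Pool.Agent.Work.MP_b29d7f_cvx

namespace BFIND

/-- the least admissible term of an arithmetic progression -/
theorem exists_term (c h E : ℤ) (hh : 1 ≤ h) (hE : 0 ≤ E) : ∃ t : ℤ, 0 < c + 2 * h * t ∧
    E ≤ (c + 2 * h * t) ^ 2 ∧ (c + 2 * h * t ≤ 2 * h ∨ (c + 2 * h * t - 2 * h) ^ 2 < E) := by
  have hc1 : c ≤ |c| := le_abs_self c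
  have hc2 : -c ≤ |c| := neg_le_abs c
  have hc0 : 0 ≤ |c| := abs_nonneg c
  obtain ⟨t, ht, hmin⟩ := Int.exists_least_of_bdd
    (P := fun t : ℤ => 0 < c + 2 * h * t ∧ E ≤ (c + 2 * h * t) ^ 2)
    ⟨-|c|, fun z hz => by
      by_contra hlt
      push Not at hlt
      have h1 : z ≤ -|c| - 1 := by omega
      nlinarith [hz.1]⟩
    ⟨|c| + E + 1, by
      have h1 : E + 1 ≤ c + 2 * h * (|c| + E + 1) := by nlinarith
      exact ⟨by linarith, by nlinarith⟩⟩
  refine ⟨t, ht.1, ht.2, ?_⟩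
  by_contra hcon
  push Not at hcon
  have e : c + 2 * h * (t - 1) = c + 2 * h * t - 2 * h := by ring
  have h2 := hmin (t - 1) (by
    rw [e]
    exact ⟨by linarith [hcon.1], hcon.2⟩)
  omega

theorem bound (a g h U V y : ℤ) (hh : 1 ≤ h) (hE : Ev a g h ≤ 8 * h * U)
    (hV : 2 * h ≤ V - U) (hM : 8 * h * U - Ev a g h ≤ (V - U - 2 * h) ^ 2) (hy0 : 0 < y)
    (hy : y ≤ 2 * h ∨ (y - 2 * h) ^ 2 < 8 * h * U - Ev a g h) :
    (y + 2 * h) ^ 2 + Ev a g h ≤ 8 * h * V := by
  rcases le_or_gt y (2 * h) with h1 | h1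
  · nlinarith
  · have h2 : (y - 2 * h) ^ 2 < 8 * h * U - Ev a g h := by
      rcases hy with h3 | h3
      · omega
      · exact h3
    have h3 : (y - 2 * h) ^ 2 < (V - U - 2 * h) ^ 2 := lt_of_lt_of_le h2 hM
    have h4 : y - 2 * h < V - U - 2 * h := by
      by_contra hle
      push Not at hle
      nlinarith
    nlinarith

end BFIND

open BFIND in
theorem stmt_FIND : Stmt_FIND := by
  intro a g h U V hh hE hV hM
  have hh8 : (0 : ℤ) < 8 * h := by linarith
  have hE0 : 0 ≤ 8 * h * U - Ev a g h := by linarith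
  obtain ⟨t, ht1, ht2, ht3⟩ := exists_term (2 * g - h) h _ hh hE0
  obtain ⟨r, hr1, hr2, hr3⟩ := exists_term (h - 2 * g) h _ hh hE0
  have hLt : La g h t = 2 * g - h + 2 * h * t := rfl
  have hLt1 : La g h (t + 1) = La g h t + 2 * h := by unfold La; ring
  have hLr : La g h (-r) = -(h - 2 * g + 2 * h * r) := by unfold La; ring
  have s1 := La_sq a g h t
  have s2 := La_sq a g h (t + 1)
  have s3 := La_sq a g h (-r)
  have b1 := bound a g h U V _ hh hE hV hM ht1 ht3
  have b2 := bound a g h U V _ hh hE hV hM hr1 hr3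
  rw [← hLt] at ht1 ht2 b1
  rw [← hLt1, s2] at b1
  rw [s1] at ht2
  have hd := Fq_succ a g h t
  have hinc : Fq a g h t < Fq a g h (t + 1) := by
    have : 0 < 2 * (g + h * t) := by
      have e : 2 * (g + h * t) = La g h t + h := by unfold La; ring
      rw [e]; linarith
    linarith
  have hU : U ≤ Fq a g h t := by
    have : 8 * h * U ≤ 8 * h * Fq a g h t := by linarith
    exact le_of_mul_le_mul_left this hh8
  have hV1 : Fq a g h (t + 1) ≤ V := by
    have : 8 * h * Fq a g h (t + 1) ≤ 8 * h * V := by linarith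
    exact le_of_mul_le_mul_left this hh8
  refine ⟨t, -r, ht1, hU, by linarith, by linarith, hV1, ?_, ?_, ?_⟩
  · rw [hLr]; linarith
  · have e : (h - 2 * g + 2 * h * r) ^ 2 = La g h (-r) ^ 2 := by rw [hLr]; ring
    rw [e, s3] at hr2
    have : 8 * h * U ≤ 8 * h * Fq a g h (-r) := by linarith
    exact le_of_mul_le_mul_left this hh8
  · have e : (h - 2 * g + 2 * h * r) ^ 2 = La g h (-r) ^ 2 := by rw [hLr]; ring
    have h5 : (h - 2 * g + 2 * h * r) ^ 2 ≤ (h - 2 * g + 2 * h * r + 2 * h) ^ 2 := by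
      nlinarith
    rw [e, s3] at h5
    have : 8 * h * Fq a g h (-r) ≤ 8 * h * V := by linarith
    exact le_of_mul_le_mul_left this hh8

end Pool.Agent.Work.MP_b29d7f_cvx
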