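import Pool.Agent.Work.MP_b29d7f_cvx.InterfaceC

/-!
# FINP (4.8): there are no extra elements
-/

namespace Pool.Agent.Work.MP_b29d7f_cvx

open Finset

namespace Finp

theorem prod_sub_shift (x : ℕ) :
    ∏ y ∈ range x, ((x : ℤ) + 1 - y) = (x + 1) * ∏ y ∈ range x, ((x : ℤ) - y) := by
  have h1 := Finset.prod_range_succ (fun y : ℕ => (x : ℤ) + 1 - y) x
  have h2 := Finset.prod_range_succ' (fun y : ℕ => (x : ℤ) + 1 - y) x
  rw [h1] at h2
  have h3 : ∏ y ∈ range x, ((x : ℤ) + 1 - ((y + 1 : ℕ) : ℤ)) = ∏ y ∈ range x, ((x : ℤ) - y) :=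
    Finset.prod_congr rfl fun y _ => by push_cast; ring
  rw [h3] at h2
  have h4 : (x : ℤ) + 1 - (x : ℕ) = 1 := by ring
  rw [h4, mul_one] at h2
  rw [h2]
  push_cast
  ring

theorem prod_add_shift (x : ℕ) (c : ℤ) :
    ((x : ℤ) + c) * ∏ y ∈ range x, ((x : ℤ) + 1 + c + y)
      = (2 * x + c) * ∏ y ∈ range x, ((x : ℤ) + c + y) := by
  have h1 := Finset.prod_range_succ (fun y : ℕ => (x : ℤ) + c + y) x
  have h2 := Finset.prod_range_succ' (fun y : ℕ => (x : ℤ) + c + y) x
  rw [h1] at h2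
  have h3 : ∏ y ∈ range x, ((x : ℤ) + c + ((y + 1 : ℕ) : ℤ))
      = ∏ y ∈ range x, ((x : ℤ) + 1 + c + y) :=
    Finset.prod_congr rfl fun y _ => by push_cast; ring
  rw [h3] at h2
  push_cast at h2
  linear_combination -h2

theorem ratioI (X b : ℤ) (x : ℕ) (hx : 1 ≤ x) :
    ∏ y ∈ range x, ((X + b * ((x : ℤ) + 1) ^ 2) - (X + b * (y : ℤ) ^ 2))
      = (2 * x + 2) * ∏ y ∈ range x, ((X + b * (x : ℤ) ^ 2) - (X + b * (y : ℤ) ^ 2)) := by
  have h1 : ∏ y ∈ range x, ((X + b * ((x : ℤ) + 1) ^ 2) - (X + b * (y : ℤ) ^ 2))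
      = b ^ x * ((∏ y ∈ range x, ((x : ℤ) + 1 - y)) * ∏ y ∈ range x, ((x : ℤ) + 1 + 0 + y)) := by
    have hb : b ^ x = ∏ _y ∈ range x, b := by simp
    rw [hb, ← Finset.prod_mul_distrib, ← Finset.prod_mul_distrib]
    exact Finset.prod_congr rfl fun y _ => by ring
  have h2 : ∏ y ∈ range x, ((X + b * (x : ℤ) ^ 2) - (X + b * (y : ℤ) ^ 2))
      = b ^ x * ((∏ y ∈ range x, ((x : ℤ) - y)) * ∏ y ∈ range x, ((x : ℤ) + 0 + y)) := by
    have hb : b ^ x = ∏ _y ∈ range x, b := by simp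
    rw [hb, ← Finset.prod_mul_distrib, ← Finset.prod_mul_distrib]
    exact Finset.prod_congr rfl fun y _ => by ring
  rw [h1, h2, prod_sub_shift]
  have h3 := prod_add_shift x 0
  have hx' : (x : ℤ) ≠ 0 := by positivity
  have h4 : ∏ y ∈ range x, ((x : ℤ) + 1 + 0 + y) = 2 * ∏ y ∈ range x, ((x : ℤ) + 0 + y) := by
    apply mul_left_cancel₀ hx'
    linear_combination h3
  rw [h4]
  ring

theorem ratioII (X b : ℤ) (x : ℕ) :
    ∏ y ∈ range x, ((X + b * (((x : ℤ) + 1) * ((x : ℤ) + 1 + 1) / 2))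
        - (X + b * ((y : ℤ) * ((y : ℤ) + 1) / 2)))
      = (2 * x + 1) * ∏ y ∈ range x, ((X + b * ((x : ℤ) * ((x : ℤ) + 1) / 2))
        - (X + b * ((y : ℤ) * ((y : ℤ) + 1) / 2))) := by
  have htri : ∀ t : ℤ, 2 * (t * (t + 1) / 2) = t * (t + 1) := by
    intro t
    have h := two_mul_tri (t + 1)
    have h' : (t + 1) * (t + 1 - 1) = t * (t + 1) := by ring
    rw [h'] at h
    exact h
  have h2x : (2 : ℤ) ^ x = ∏ _y ∈ range x, (2 : ℤ) := by simp
  have h1 : (2 : ℤ) ^ x * ∏ y ∈ range x, ((X + b * (((x : ℤ) + 1) * ((x : ℤ) + 1 + 1) / 2))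
        - (X + b * ((y : ℤ) * ((y : ℤ) + 1) / 2)))
      = b ^ x * ((∏ y ∈ range x, ((x : ℤ) + 1 - y)) * ∏ y ∈ range x, ((x : ℤ) + 1 + 1 + y)) := by
    have hb : b ^ x = ∏ _y ∈ range x, b := by simp
    rw [hb, h2x, ← Finset.prod_mul_distrib, ← Finset.prod_mul_distrib, ← Finset.prod_mul_distrib]
    refine Finset.prod_congr rfl fun y _ => ?_
    linear_combination b * htri ((x : ℤ) + 1) - b * htri (y : ℤ)
  have h2 : (2 : ℤ) ^ x * ∏ y ∈ range x, ((X + b * ((x : ℤ) * ((x : ℤ) + 1) / 2))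
        - (X + b * ((y : ℤ) * ((y : ℤ) + 1) / 2)))
      = b ^ x * ((∏ y ∈ range x, ((x : ℤ) - y)) * ∏ y ∈ range x, ((x : ℤ) + 1 + y)) := by
    have hb : b ^ x = ∏ _y ∈ range x, b := by simp
    rw [hb, h2x, ← Finset.prod_mul_distrib, ← Finset.prod_mul_distrib, ← Finset.prod_mul_distrib]
    refine Finset.prod_congr rfl fun y _ => ?_
    linear_combination b * htri (x : ℤ) - b * htri (y : ℤ)
  have h3 := prod_add_shift x 1
  apply mul_left_cancel₀ (pow_ne_zero x (two_ne_zero : (2 : ℤ) ≠ 0))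
  rw [h1, prod_sub_shift]
  have h5 : (2 : ℤ) ^ x * ((2 * x + 1) * ∏ y ∈ range x, ((X + b * ((x : ℤ) * ((x : ℤ) + 1) / 2))
        - (X + b * ((y : ℤ) * ((y : ℤ) + 1) / 2))))
      = (2 * x + 1) * (b ^ x * ((∏ y ∈ range x, ((x : ℤ) - y)) *
        ∏ y ∈ range x, ((x : ℤ) + 1 + y))) := by
    rw [← h2]; ring
  rw [h5]
  linear_combination b ^ x * (∏ y ∈ range x, ((x : ℤ) - y)) * h3

/-- the extra elements -/
def EE (s : ℕ → ℤ) (T : ℤ → ℤ) (v x₀ : ℕ) : Finset ℤ :=
  ((range v).image s) \ ((range x₀).image fun x : ℕ => T x)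

/-- the common part -/
theorem core (hPOLY : Stmt_POLY) (s : ℕ → ℤ) (hs : StrictMono s) (T : ℤ → ℤ) (e : ℤ) (v x₀ : ℕ)
    (h1 : ∀ x : ℕ, T x < T (x + 1)) (h2 : ∀ x : ℕ, T x ∈ Set.range s)
    (h3 : ∀ t : ℕ, s (v + t) = T (x₀ + t))
    (h4 : ∀ x : ℕ, 1 ≤ x → ∏ y ∈ range x, (T (x + 1) - T y) = (2 * x + e) *
      ∏ y ∈ range x, (T x - T y))
    (Q : Polynomial ℤ) (h5 : ∀ x : ℤ, Q.eval x = 2 * T x) (h6 : Q.natDegree = 2)
    (h7 : ∀ k j : ℕ, Dk s k ∣ Nk s k (s j)) :
    (∀ x : ℕ, T x ∉ EE s T v x₀) ∧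
    (∀ x : ℤ, (2 * x + e) * ∏ a ∈ EE s T v x₀, (2 * T (x + 1) - 2 * a)
      = (2 * x + e + 4 * (EE s T v x₀).card) * ∏ a ∈ EE s T v x₀, (2 * T x - 2 * a)) ∧
    (EE s T v x₀ = ∅ → ∀ n : ℕ, s n = T n) := by
  have hTm : StrictMono (fun x : ℕ => T x) := by
    refine strictMono_nat_of_lt_succ fun n => ?_
    have := h1 n
    push_cast
    exact this
  have hsv : s v = T x₀ := by
    have := h3 0
    simpa using this
  have hlt : ∀ x : ℕ, x < x₀ → ∃ i, i < v ∧ s i = T x := by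
    intro x hx
    obtain ⟨i, hi⟩ := h2 x
    refine ⟨i, ?_, hi⟩
    have : s i < s v := by
      rw [hi, hsv]
      exact hTm hx
    exact hs.lt_iff_lt.mp this
  have hsub : ((range x₀).image fun x : ℕ => T x) ⊆ (range v).image s := by
    intro a ha
    obtain ⟨x, hx, rfl⟩ := Finset.mem_image.mp ha
    obtain ⟨i, hi, hix⟩ := hlt x (Finset.mem_range.mp hx)
    exact Finset.mem_image.mpr ⟨i, Finset.mem_range.mpr hi, hix⟩
  have hprodv : ∀ z : ℤ, ∏ i ∈ range v, (z - s i)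
      = (∏ a ∈ EE s T v x₀, (z - a)) * ∏ y ∈ range x₀, (z - T y) := by
    intro z
    have e1 : ∏ i ∈ range v, (z - s i) = ∏ a ∈ (range v).image s, (z - a) :=
      (Finset.prod_image fun i _ j _ h => hs.injective h).symm
    have e2 : ∏ y ∈ range x₀, (z - T y) = ∏ a ∈ ((range x₀).image fun x : ℕ => T x), (z - a) :=
      (Finset.prod_image fun i _ j _ h => hTm.injective h).symm
    rw [e1, e2, EE, Finset.prod_sdiff hsub]
  have hNk : ∀ (t : ℕ) (z : ℤ), Nk s (v + t) z
      = (∏ a ∈ EE s T v x₀, (z - a)) * ∏ y ∈ range (x₀ + t), (z - T y) := by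
    intro t z
    rw [Nk, Finset.prod_range_add, Finset.prod_range_add, hprodv]
    rw [mul_assoc]
    congr 2
    refine Finset.prod_congr rfl fun i _ => ?_
    rw [h3 i]
    push_cast
    rfl
  have hnot : ∀ x : ℕ, T x ∉ EE s T v x₀ := by
    intro x hx
    rw [EE, Finset.mem_sdiff] at hx
    obtain ⟨i, hi, hix⟩ := Finset.mem_image.mp hx.1
    by_cases hxx : x < x₀
    · exact hx.2 (Finset.mem_image.mpr ⟨x, Finset.mem_range.mpr hxx, rfl⟩)
    · have e1 : s i < s v := hs (Finset.mem_range.mp hi)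
      rw [hix, hsv] at e1
      have e2 : T x₀ ≤ T x := hTm.monotone (not_lt.mp hxx)
      exact absurd e1 (not_lt.mpr e2)
  refine ⟨hnot, ?_, ?_⟩
  · set P : Polynomial ℤ := ∏ a ∈ EE s T v x₀, (Q - Polynomial.C (2 * a)) with hP
    have hPe : ∀ x : ℤ, P.eval x = ∏ a ∈ EE s T v x₀, (2 * T x - 2 * a) := by
      intro x
      rw [hP, Polynomial.eval_prod]
      refine Finset.prod_congr rfl fun a _ => ?_
      rw [Polynomial.eval_sub, Polynomial.eval_C, h5]
    have hdeg1 : ∀ a : ℤ, (Q - Polynomial.C a).natDegree = 2 := by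
      intro a
      rw [Polynomial.natDegree_sub_C, h6]
    have hne1 : ∀ a : ℤ, Q - Polynomial.C a ≠ 0 := by
      intro a h
      have := hdeg1 a
      rw [h, Polynomial.natDegree_zero] at this
      omega
    have hPne : P ≠ 0 := by
      rw [hP]
      exact Finset.prod_ne_zero_iff.mpr fun a _ => hne1 _
    have hPdeg : P.natDegree = 2 * (EE s T v x₀).card := by
      rw [hP, Polynomial.natDegree_prod _ _ (fun a _ => hne1 _)]
      rw [Finset.sum_congr rfl (fun a _ => hdeg1 _), Finset.sum_const, smul_eq_mul, mul_comm]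
    have hdvd : ∃ x₁ : ℕ, ∀ x : ℕ, x₁ ≤ x → P.eval (x : ℤ) ∣ (2 * x + e) * P.eval ((x : ℤ) + 1) := by
      refine ⟨x₀ + 1, fun x hx => ?_⟩
      obtain ⟨t, ht⟩ : ∃ t, x = x₀ + t := ⟨x - x₀, by omega⟩
      have hxt : (x : ℤ) = (x₀ : ℤ) + t := by rw [ht]; push_cast; ring
      have d1 := h7 (v + t) (v + t + 1)
      have e1 : Dk s (v + t) = Nk s (v + t) (T x) := by
        unfold Dk Nk
        rw [h3 t, hxt]
      have e2 : s (v + t + 1) = T (x + 1) := by
        have := h3 (t + 1)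
        rw [← add_assoc] at this
        rw [this, hxt]
        push_cast
        ring_nf
      rw [e1, e2, hNk, hNk, ← ht, h4 x (by omega)] at d1
      have hA : ∏ y ∈ range x, (T x - T y) ≠ 0 := by
        refine Finset.prod_ne_zero_iff.mpr fun y hy => ?_
        have := hTm (Finset.mem_range.mp hy)
        simp only at this
        omega
      have d2 : (∏ a ∈ EE s T v x₀, (T x - a)) ∣ (2 * x + e) * ∏ a ∈ EE s T v x₀, (T (x + 1) - a) := by
        have e3 : (∏ a ∈ EE s T v x₀, (T (x + 1) - a)) * ((2 * x + e) *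
            ∏ y ∈ range x, (T x - T y)) = ((2 * x + e) * ∏ a ∈ EE s T v x₀, (T (x + 1) - a)) *
            ∏ y ∈ range x, (T x - T y) := by ring
        rw [e3] at d1
        exact (mul_dvd_mul_iff_right hA).mp d1
      have e4 : ∀ z : ℤ, ∏ a ∈ EE s T v x₀, (2 * z - 2 * a)
          = 2 ^ (EE s T v x₀).card * ∏ a ∈ EE s T v x₀, (z - a) := by
        intro z
        rw [← Finset.prod_const, ← Finset.prod_mul_distrib]
        exact Finset.prod_congr rfl fun a _ => by ring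
      rw [hPe, hPe, e4, e4]
      have e5 : (2 * (x : ℤ) + e) * (2 ^ (EE s T v x₀).card * ∏ a ∈ EE s T v x₀, (T (x + 1) - a))
          = 2 ^ (EE s T v x₀).card * ((2 * x + e) * ∏ a ∈ EE s T v x₀, (T (x + 1) - a)) := by ring
      rw [e5]
      exact mul_dvd_mul_left _ d2
    intro x
    have := hPOLY P e hPne hdvd x
    rw [hPe, hPe, hPdeg] at this
    rw [this]
    push_cast
    ring
  · intro hE n
    have hr : Set.range s = Set.range (fun x : ℕ => T x) := by
      ext a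
      constructor
      · rintro ⟨i, rfl⟩
        by_cases hi : i < v
        · have h8 : s i ∈ (range v).image s := Finset.mem_image.mpr ⟨i, Finset.mem_range.mpr hi, rfl⟩
          have h9 : s i ∈ ((range x₀).image fun x : ℕ => T x) := by
            by_contra hcon
            have : s i ∈ EE s T v x₀ := by
              rw [EE, Finset.mem_sdiff]
              exact ⟨h8, hcon⟩
            rw [hE] at this
            exact absurd this (Finset.notMem_empty _)
          obtain ⟨x, _, hx⟩ := Finset.mem_image.mp h9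
          exact ⟨x, hx⟩
        · refine ⟨x₀ + (i - v), ?_⟩
          have := h3 (i - v)
          rw [show v + (i - v) = i by omega] at this
          rw [this]
          push_cast
          rfl
      · rintro ⟨x, rfl⟩
        exact h2 x
    have := (hs.range_inj hTm).mp hr
    rw [this]

end Finp

open Finp in
theorem stmt_FINP (hDVD : Stmt_DVD) (hPOLY : Stmt_POLY) : Stmt_FINP := by
  intro s C₀ hc κ X b hκ hb hT hex
  obtain ⟨v, x₀, hvt⟩ := hex
  have hdvd := (hDVD s C₀ hc).1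
  rcases hκ with rfl | rfl
  · -- type I
    have hTt : ∀ x : ℤ, Tt 1 X b x = X + b * x ^ 2 := fun x => by simp [Tt]
    obtain ⟨c1, c2, c3⟩ := core hPOLY s hc.mono (Tt 1 X b) 2 v x₀
      (fun x => by rw [hTt, hTt]; nlinarith [Int.natCast_nonneg x])
      hT hvt
      (fun x hx => by
        simp only [hTt]
        exact ratioI X b x hx)
      (Polynomial.C (2 * b) * Polynomial.X ^ 2 + Polynomial.C (2 * X))
      (fun x => by
        rw [hTt]
        simp
        ring)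
      (by
        have h2b : (2 * b) ≠ 0 := by omega
        rw [Polynomial.natDegree_add_C, Polynomial.natDegree_C_mul_X_pow 2 _ h2b])
      hdvd
    apply c3
    have h0 := c2 (-1)
    rw [show (2 * (-1) + 2 : ℤ) = 0 by norm_num, zero_mul, zero_add] at h0
    rcases mul_eq_zero.mp h0.symm with h | h
    · exact Finset.card_eq_zero.mp (by omega)
    · exfalso
      obtain ⟨a, ha, ha0⟩ := Finset.prod_eq_zero_iff.mp h
      have h1 : Tt 1 X b (-1) = Tt 1 X b ((1 : ℕ) : ℤ) := by rw [hTt, hTt]; push_cast; ring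
      have h2 : a = Tt 1 X b ((1 : ℕ) : ℤ) := by rw [← h1]; omega
      exact c1 1 (h2 ▸ ha)
  · -- type II
    have hTt : ∀ x : ℤ, Tt 2 X b x = X + b * (x * (x + 1) / 2) := fun x => by simp [Tt]
    have htri : ∀ t : ℤ, 2 * (t * (t + 1) / 2) = t * (t + 1) := by
      intro t
      have h := two_mul_tri (t + 1)
      have h' : (t + 1) * (t + 1 - 1) = t * (t + 1) := by ring
      rw [h'] at h
      exact h
    obtain ⟨c1, c2, c3⟩ := core hPOLY s hc.mono (Tt 2 X b) 1 v x₀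
      (fun x => by
        rw [hTt, hTt]
        have e1 := htri x
        have e2 := htri ((x : ℤ) + 1)
        nlinarith [Int.natCast_nonneg x])
      hT hvt
      (fun x hx => by
        simp only [hTt]
        exact ratioII X b x)
      (Polynomial.C b * Polynomial.X ^ 2 + Polynomial.C b * Polynomial.X + Polynomial.C (2 * X))
      (fun x => by
        rw [hTt]
        have e1 := htri x
        simp
        linear_combination -b * e1)
      (by
        have h2b : b ≠ 0 := by omega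
        rw [Polynomial.natDegree_quadratic h2b])
      hdvd
    apply c3
    have h0 := c2 (-1)
    have h1 : Tt 2 X b (-1 + 1) = Tt 2 X b ((0 : ℕ) : ℤ) := by rw [hTt, hTt]; norm_num
    have h2 : Tt 2 X b (-1) = Tt 2 X b ((0 : ℕ) : ℤ) := by rw [hTt, hTt]; norm_num
    rw [h1, h2] at h0
    have h3 : (4 * (EE s (Tt 2 X b) v x₀).card : ℤ) *
        ∏ a ∈ EE s (Tt 2 X b) v x₀, (2 * Tt 2 X b ((0 : ℕ) : ℤ) - 2 * a) = 0 := by
      linear_combination -h0
    rcases mul_eq_zero.mp h3 with h | h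
    · exact Finset.card_eq_zero.mp (by omega)
    · exfalso
      obtain ⟨a, ha, ha0⟩ := Finset.prod_eq_zero_iff.mp h
      have h2 : a = Tt 2 X b ((0 : ℕ) : ℤ) := by omega
      exact c1 0 (h2 ▸ ha)

end Pool.Agent.Work.MP_b29d7f_cvx
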