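import Pool.Agent.Work.MP_b29d7f_cvx.InterfaceC
import Pool.Agent.Work.MP_b29d7f_sep.B_PADIC
import Pool.Agent.Work.MP_b29d7f_sep.B_JB

/-!
# Block GCDA: congruences after a zone
-/

namespace Pool.Agent.Work.MP_b29d7f_cvx

open Finset
open Pool.Agent.Work.MP_b29d7f_nt (IsPOrdering HasSimultaneousOrdering PS vd ld tv)
open Pool.Agent.Work.MP_b29d7f_half (Ord A wv lD K DK HalfDense mem_A sum_A)
open Pool.Agent.Work.MP_b29d7f_sep (nv EW EL stmt_PADIC vd_ultra ord_inj ord_mem ord_notMem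
  wv_mono fin_mult)

namespace GCDA_

/-- `v_q(x - y) ≥ e` -/
theorem le_vd {q e : ℕ} (hq : q.Prime) {x y : ℤ} (hxy : x ≠ y) (h : (q : ℤ) ^ e ∣ x - y) :
    (e : ℝ) ≤ vd q x y := by
  unfold vd
  have h1 : e ≤ multiplicity (q : ℤ) (x - y) := by
    rw [← (fin_mult hq (sub_ne_zero.mpr hxy)).pow_dvd_iff_le_multiplicity]
    exact h
  exact_mod_cast h1

/-- `v_q(x - y) ≤ e - 1` -/
theorem vd_le {q e : ℕ} (hq : q.Prime) {x y : ℤ} (hxy : x ≠ y) (h : ¬ (q : ℤ) ^ e ∣ x - y) :
    vd q x y ≤ (e : ℝ) - 1 := by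
  unfold vd
  have h1 : multiplicity (q : ℤ) (x - y) < e := by
    rw [← not_le, ← (fin_mult hq (sub_ne_zero.mpr hxy)).pow_dvd_iff_le_multiplicity]
    exact h
  have h2 : (multiplicity (q : ℤ) (x - y) : ℝ) + 1 ≤ e := by exact_mod_cast h1
  linarith

/-- Lemma V (0.6) -/
theorem lemmaV {S : Set ℤ} {a : ℕ → ℤ} (ho : Ord S a) {q : ℕ} (hq : q.Prime) {v j : ℕ}
    (hv : 1 ≤ v) (hj : v ≤ j) : ∃ i < v, ∑ i ∈ range v, vd q (a j) (a i)
      ≤ wv q a v + vd q (a j) (a i) := by
  classical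
  have hinj := ord_inj ho
  obtain ⟨i₀, hi₀, hmax⟩ := Finset.exists_max_image (range v) (fun i => vd q (a j) (a i))
    ⟨0, Finset.mem_range.mpr hv⟩
  have hi₀' := Finset.mem_range.mp hi₀
  refine ⟨i₀, hi₀', ?_⟩
  obtain ⟨m, rfl⟩ : ∃ m, v = m + 1 := ⟨v - 1, by omega⟩
  have hF2 := (stmt_PADIC S a ho q hq).2.1 m (a i₀) (mem_A.mpr ⟨i₀, hi₀', rfl⟩)
  have h1 : ∑ y ∈ (A a (m + 1)).erase (a i₀), vd q (a i₀) y
      = ∑ i ∈ (range (m + 1)).erase i₀, vd q (a i₀) (a i) := by
    have h2 : (A a (m + 1)).erase (a i₀) = ((range (m + 1)).erase i₀).image a := by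
      rw [Finset.image_erase hinj]
      rfl
    rw [h2, Finset.sum_image fun i _ j _ h => hinj h]
  rw [h1] at hF2
  have h3 : ∑ i ∈ range (m + 1), vd q (a j) (a i)
      = vd q (a j) (a i₀) + ∑ i ∈ (range (m + 1)).erase i₀, vd q (a j) (a i) :=
    (Finset.add_sum_erase _ _ hi₀).symm
  have h4 : ∑ i ∈ (range (m + 1)).erase i₀, vd q (a j) (a i)
      ≤ ∑ i ∈ (range (m + 1)).erase i₀, vd q (a i₀) (a i) := by
    refine Finset.sum_le_sum fun i hi => ?_
    rw [Finset.mem_erase] at hi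
    refine vd_ultra hq ?_ (hmax i hi.2)
    intro h
    exact hi.1 (hinj h).symm
  have h5 : wv q a m ≤ wv q a (m + 1) := wv_mono ho hq (Nat.le_succ m)
  rw [h3]
  linarith

end GCDA_

open GCDA_ in
theorem stmt_GCDA : Stmt_GCDA := by
  classical
  intro s C₀ hC v Z h hZ j hvj hlt
  have ho := hC.ord
  have hinj := ord_inj ho
  have hmono := hC.mono
  rw [← Int.dvd_natAbs, Int.natCast_dvd_natCast, Nat.dvd_iff_prime_pow_dvd_dvd]
  intro q e hq he
  by_contra hcon
  -- divisibility inside the zone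
  have hG : ((q : ℤ) ^ e ∣ gp s v) ∧ ((q : ℤ) ^ e ∣ h) := by
    have h1 : ((q ^ e : ℕ) : ℤ) ∣ (Int.gcd (gp s v) h : ℤ) := Int.natCast_dvd_natCast.mpr he
    push_cast at h1
    exact ⟨h1.trans (Int.gcd_dvd_left _ _), h1.trans (Int.gcd_dvd_right _ _)⟩
  have hzone : ∀ t : ℕ, t ≤ Z → (q : ℤ) ^ e ∣ s (v + t) - s v := by
    intro t ht
    rw [hZ t ht]
    have : Fq (s v) (gp s v) h t - s v = gp s v * t + h * ((t : ℤ) * (t - 1) / 2) := by
      unfold Fq; ring
    rw [this]
    exact dvd_add (hG.1.mul_right _) (hG.2.mul_right _)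
  have hnd : ¬ (q : ℤ) ^ e ∣ s j - s v := by
    intro h1
    apply hcon
    have h2 : ((q ^ e : ℕ) : ℤ) ∣ s j - s v := by push_cast; exact h1
    exact Int.natCast_dvd.mp h2
  have hjZ : v + Z < j := by
    by_contra h1
    push Not at h1
    apply hnd
    have h2 := hzone (j - v) (by omega)
    have h3 : v + (j - v) = j := by omega
    rwa [h3] at h2
  have hpad := stmt_PADIC _ s ho q hq
  -- the two estimates
  have hlow : wv q s v + e * Z ≤ wv q s (v + Z) := by
    have h1 : wv q s (v + Z) = ∑ i ∈ range v, vd q (s (v + Z)) (s i)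
        + ∑ t ∈ range Z, vd q (s (v + Z)) (s (v + t)) := by
      unfold wv
      rw [Finset.sum_range_add]
    have h2 : wv q s v ≤ ∑ i ∈ range v, vd q (s (v + Z)) (s i) := by
      have := hpad.1 v (s (v + Z)) (ord_mem ho _) (ord_notMem ho (Nat.le_add_right v Z))
      rwa [sum_A _ hinj] at this
    have h3 : (e : ℝ) * Z ≤ ∑ t ∈ range Z, vd q (s (v + Z)) (s (v + t)) := by
      calc (e : ℝ) * Z = ∑ _t ∈ range Z, (e : ℝ) := by
            rw [Finset.sum_const, Finset.card_range, nsmul_eq_mul, mul_comm]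
        _ ≤ _ := by
            refine Finset.sum_le_sum fun t ht => ?_
            rw [Finset.mem_range] at ht
            refine le_vd hq ?_ ?_
            · intro h4
              have := hinj h4
              omega
            · have := dvd_sub (hzone Z le_rfl) (hzone t ht.le)
              simpa using this
    rw [h1]
    linarith
  have hup : wv q s (v + Z) ≤ ∑ i ∈ range v, vd q (s j) (s i) + ((e : ℝ) - 1) * Z := by
    have h1 := hpad.1 (v + Z) (s j) (ord_mem ho _) (ord_notMem ho hjZ.le)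
    rw [sum_A _ hinj, Finset.sum_range_add] at h1
    have h3 : ∑ t ∈ range Z, vd q (s j) (s (v + t)) ≤ ((e : ℝ) - 1) * Z := by
      calc ∑ t ∈ range Z, vd q (s j) (s (v + t)) ≤ ∑ _t ∈ range Z, ((e : ℝ) - 1) := by
            refine Finset.sum_le_sum fun t ht => ?_
            rw [Finset.mem_range] at ht
            refine vd_le hq ?_ ?_
            · intro h4
              have := hinj h4
              omega
            · intro h4
              apply hnd
              have := dvd_add h4 (hzone t ht.le)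
              simpa using this
        _ = ((e : ℝ) - 1) * Z := by
            rw [Finset.sum_const, Finset.card_range, nsmul_eq_mul, mul_comm]
    linarith
  have hdiff : wv q s v + Z ≤ ∑ i ∈ range v, vd q (s j) (s i) := by
    have : (e : ℝ) * Z - ((e : ℝ) - 1) * Z = Z := by ring
    linarith
  rcases Nat.eq_zero_or_pos v with rfl | hv
  · -- `v = 0`
    have h1 : wv q s 0 = 0 := by unfold wv; simp
    rw [h1] at hdiff
    simp only [Finset.range_zero, Finset.sum_empty, zero_add] at hdiff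
    have hZ0 : Z = 0 := by
      have : (Z : ℝ) ≤ 0 := hdiff
      have h2 : Z ≤ 0 := by exact_mod_cast this
      omega
    rw [hZ0, pow_zero] at hlt
    have h2 : s j < 1 := by exact_mod_cast hlt
    have h3 : s 0 < s j := hmono (by omega)
    rw [hC.zero] at h3
    omega
  · obtain ⟨i, hi, hV⟩ := lemmaV ho hq hv hvj
    have hZV : (Z : ℝ) ≤ vd q (s j) (s i) := by linarith
    have h1 : Z ≤ multiplicity (q : ℤ) (s j - s i) := by
      unfold vd at hZV
      exact_mod_cast hZV
    have h2 : (q : ℤ) ^ Z ∣ s j - s i := (pow_dvd_pow _ h1).trans (pow_multiplicity_dvd _ _)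
    have h3 : s i < s j := hmono (by omega)
    have h4 : (q : ℤ) ^ Z ≤ s j - s i := Int.le_of_dvd (by omega) h2
    have h5 : 0 ≤ s i := by
      have := hmono.monotone (Nat.zero_le i)
      rw [hC.zero] at this
      exact this
    have h6 : (2 : ℤ) ^ Z ≤ (q : ℤ) ^ Z := by
      apply pow_le_pow_left₀ (by norm_num)
      exact_mod_cast hq.two_le
    have h7 : (2 : ℤ) ^ Z ≤ s j := by omega
    have h8 : (2 : ℝ) ^ Z ≤ (s j : ℝ) := by exact_mod_cast h7
    linarith

end Pool.Agent.Work.MP_b29d7f_cvx
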