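import Pool.Agent.Work.MP_b29d7f_cvx.InterfaceC
import Pool.Agent.Work.MP_b29d7f_sep.B_PADIC
import Pool.Agent.Work.MP_b29d7f_sep.B_JB

/-!
# Block GCDB: the gcd is bounded (helper55)
-/

namespace Pool.Agent.Work.MP_b29d7f_cvx

open Finset
open Pool.Agent.Work.MP_b29d7f_nt (IsPOrdering HasSimultaneousOrdering PS vd ld tv vd_comm
  vd_nonneg)
open Pool.Agent.Work.MP_b29d7f_half (Ord A wv lD K DK HalfDense mem_A)
open Pool.Agent.Work.MP_b29d7f_sep (nv EW EL stmt_PADIC wv_eq_nv fin_mult vd_ultra)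

namespace GCDB55

theorem F2i {S : Set ℤ} {s : ℕ → ℤ} (ho : Ord S s) (hinj : Function.Injective s) {p : ℕ}
    (hp : p.Prime) (N i : ℕ) (hi : i ≤ N) :
    ∑ l ∈ (range (N + 1)).erase i, vd p (s i) (s l) ≤ nv p s N := by
  have h := (stmt_PADIC S s ho p hp).2.1 N (s i) (mem_A.mpr ⟨i, by omega, rfl⟩)
  rw [wv_eq_nv] at h
  have e : (A s (N + 1)).erase (s i) = ((range (N + 1)).erase i).image s := by
    unfold A
    rw [Finset.image_erase hinj]
  rw [e, Finset.sum_image fun i _ j _ h => hinj h] at h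
  exact h

/-- the defect of the index `i` -/
theorem defect {S : Set ℤ} {s : ℕ → ℤ} (ho : Ord S s) (hinj : Function.Injective s) {p : ℕ}
    (hp : p.Prime) (v N i e : ℕ) (hi : i < v) (hv : v ≤ N)
    (he : ∀ l, v < l → l ≤ N → (p : ℤ) ^ e ∣ s l - s v) :
    ((e : ℝ) - min (e : ℝ) (vd p (s i) (s v))) * ((N : ℝ) - v) ≤
      (nv p s N : ℝ) - ∑ l ∈ (range N).erase i, vd p (s i) (s l) := by
  have hmono := (stmt_PADIC S s ho p hp).2.2
  have hele : ∀ l, v < l → l ≤ N → (e : ℝ) ≤ vd p (s v) (s l) := by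
    intro l hl hlN
    unfold vd
    have hne : s v - s l ≠ 0 := sub_ne_zero.mpr fun h => by have := hinj h; omega
    have h1 : (p : ℤ) ^ e ∣ s v - s l := by
      have := he l hl hlN
      rw [← neg_sub]
      exact (dvd_neg).mpr this
    have := (fin_mult hp hne).pow_dvd_iff_le_multiplicity.mp h1
    exact_mod_cast this
  by_cases hc : (e : ℝ) ≤ vd p (s i) (s v)
  · rw [min_eq_left hc, sub_self, zero_mul]
    have h1 := F2i ho hinj hp (N - 1) i (by omega)
    rw [show N - 1 + 1 = N by omega] at h1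
    have h2 : (nv p s (N - 1) : ℝ) ≤ nv p s N := by exact_mod_cast hmono (Nat.sub_le N 1)
    linarith
  · push Not at hc
    rw [min_eq_right hc.le]
    -- lower bound for `w (N)`
    have h1 := F2i ho hinj hp N v hv
    have e1 : (range (N + 1)).erase v = range v ∪ Ico (v + 1) (N + 1) := by
      ext l
      simp only [Finset.mem_erase, Finset.mem_range, Finset.mem_union, Finset.mem_Ico]
      omega
    have d1 : Disjoint (range v) (Ico (v + 1) (N + 1)) := by
      rw [Finset.disjoint_left]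
      intro l hl hl'
      rw [Finset.mem_range] at hl
      rw [Finset.mem_Ico] at hl'
      omega
    rw [e1, Finset.sum_union d1] at h1
    have h2 : ∑ l ∈ range v, vd p (s v) (s l) = nv p s v := wv_eq_nv p s v
    have h3 : (e : ℝ) * ((N : ℝ) - v) ≤ ∑ l ∈ Ico (v + 1) (N + 1), vd p (s v) (s l) := by
      have : ∑ _l ∈ Ico (v + 1) (N + 1), (e : ℝ) ≤ ∑ l ∈ Ico (v + 1) (N + 1), vd p (s v) (s l) := by
        refine Finset.sum_le_sum fun l hl => ?_
        rw [Finset.mem_Ico] at hl
        exact hele l (by omega) (by omega)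
      rw [Finset.sum_const, Nat.card_Ico, nsmul_eq_mul, show N + 1 - (v + 1) = N - v by omega,
        Nat.cast_sub hv] at this
      linarith
    -- upper bound for the sum
    have e2 : (range N).erase i = (range v).erase i ∪ Ico v N := by
      ext l
      simp only [Finset.mem_erase, Finset.mem_range, Finset.mem_union, Finset.mem_Ico]
      omega
    have d2 : Disjoint ((range v).erase i) (Ico v N) := by
      rw [Finset.disjoint_left]
      intro l hl hl'
      rw [Finset.mem_erase, Finset.mem_range] at hl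
      rw [Finset.mem_Ico] at hl'
      omega
    have h4 := F2i ho hinj hp (v - 1) i (by omega)
    rw [show v - 1 + 1 = v by omega] at h4
    have h5 : (nv p s (v - 1) : ℝ) ≤ nv p s v := by exact_mod_cast hmono (Nat.sub_le v 1)
    have h6 : ∑ l ∈ Ico v N, vd p (s i) (s l) ≤ ((N : ℝ) - v) * vd p (s i) (s v) := by
      have : ∑ l ∈ Ico v N, vd p (s i) (s l) ≤ ∑ _l ∈ Ico v N, vd p (s i) (s v) := by
        refine Finset.sum_le_sum fun l hl => ?_
        rw [Finset.mem_Ico] at hl
        rcases hl.1.eq_or_lt with rfl | hlv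
        · exact le_rfl
        · have h7 := hele l hlv (by omega)
          rw [vd_comm] at h7
          have hvi : s v ≠ s i := fun h => by have := hinj h; omega
          rcases le_total (vd p (s l) (s v)) (vd p (s l) (s i)) with h | h
          · have := vd_ultra hp (s := s l) (x := s i) (y := s v) hvi.symm h
            linarith
          · have := vd_ultra hp (s := s l) (x := s v) (y := s i) hvi h
            rw [vd_comm p (s i) (s l), vd_comm p (s i) (s v)]
            exact this
      rw [Finset.sum_const, Nat.card_Ico, nsmul_eq_mul, Nat.cast_sub hv] at this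
      exact this
    rw [e2, Finset.sum_union d2]
    nlinarith

/-- the logarithm of the quotient by a gcd -/
theorem log_gcd {G m : ℕ} (hG : G ≠ 0) (hm : m ≠ 0) :
    ∑ p ∈ G.primeFactors, Real.log p *
      ((G.factorization p : ℝ) - min (G.factorization p : ℝ) (m.factorization p : ℝ)) =
      Real.log G - Real.log (Nat.gcd G m) := by
  rw [Real.log_nat_eq_sum_factorization G, Real.log_nat_eq_sum_factorization (Nat.gcd G m),
    Nat.factorization_gcd hG hm]
  have e1 : (G.factorization.sum fun p t => (t : ℝ) * Real.log p) =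
      ∑ p ∈ G.primeFactors, (G.factorization p : ℝ) * Real.log p := by
    rw [Finsupp.sum, Nat.support_factorization]
  have e2 : ((G.factorization ⊓ m.factorization).sum fun p t => (t : ℝ) * Real.log p) =
      ∑ p ∈ G.primeFactors, ((G.factorization ⊓ m.factorization) p : ℝ) * Real.log p := by
    refine Finsupp.sum_of_support_subset _ ?_ _ ?_
    · intro p hp
      rw [Finsupp.mem_support_iff, Finsupp.inf_apply] at hp
      rw [← Nat.support_factorization, Finsupp.mem_support_iff]
      intro h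
      rw [h] at hp
      simp at hp
    · intro p _
      simp
  rw [e1, e2, ← Finset.sum_sub_distrib]
  refine Finset.sum_congr rfl fun p _ => ?_
  rw [Finsupp.inf_apply, Nat.cast_min]
  ring

end GCDB55

open GCDB55 in
theorem stmt_GCDB (h1 : Stmt_GCDA) (h2 : Stmt_DEFZ) : Stmt_GCDB := by
  intro s C₀ hs v Z N h hv hZ hvN hsN hGG
  have hinj : Function.Injective s := hs.mono.injective
  have hmonoS := hs.mono.monotone
  set G : ℕ := Int.gcd (gp s v) h with hGdef
  have hgp : 0 < gp s v := sub_pos.mpr (hs.mono (Nat.lt_succ_self v))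
  have hG0 : G ≠ 0 := by
    rw [hGdef]
    intro h0
    rw [Int.gcd_eq_zero_iff] at h0
    omega
  have hdvd : ∀ j, v ≤ j → j ≤ N → (G : ℤ) ∣ s j - s v := by
    intro j hj hjN
    refine h1 s C₀ hs v Z h hZ j hj (lt_of_le_of_lt ?_ hsN)
    exact_mod_cast hmonoS hjN
  have hN2 : 2 ≤ N := by omega
  have hs1 : 0 < s 1 := by
    have := hs.mono (show 0 < 1 by norm_num)
    rw [hs.zero] at this
    exact this
  have hsNpos : 1 ≤ s N := by
    have := hs.mono (show 0 < N by omega)
    rw [hs.zero] at this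
    omega
  have hlogN : Real.log N ≤ N := (Real.log_le_sub_one_of_pos (by positivity)).trans (by linarith)
  have hlogN0 : 0 ≤ Real.log N := Real.log_nonneg (by exact_mod_cast (by omega : 1 ≤ N))
  have hC := hs.one_le
  have hgr : Real.log (s N) ≤ C₀ * N := by
    refine (hs.growth N hN2).trans ?_
    exact mul_le_mul_of_nonneg_left hlogN (by linarith)
  -- the bound for the two quotients
  have key : ∀ i, i ≤ 1 → Real.log G - Real.log (Nat.gcd G (s i - s v).natAbs) ≤
      16 * C₀ + 3 := by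
    intro i hi
    have hne : s i - s v ≠ 0 := sub_ne_zero.mpr fun h => by have := hinj h; omega
    have hm0 : (s i - s v).natAbs ≠ 0 := Int.natAbs_ne_zero.mpr hne
    have hD := h2 s C₀ hs N i hN2 hi G.primeFactors fun p hp => Nat.prime_of_mem_primeFactors hp
    have hterm : ∀ p ∈ G.primeFactors,
        Real.log p * (((G.factorization p : ℝ) - min (G.factorization p : ℝ)
          ((s i - s v).natAbs.factorization p : ℝ)) * ((N : ℝ) - v)) ≤
        Real.log p * ((nv p s N : ℝ) - ∑ l ∈ (range N).erase i, vd p (s i) (s l)) := by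
      intro p hp
      have hpp := Nat.prime_of_mem_primeFactors hp
      have hlp : 0 ≤ Real.log p := Real.log_nonneg (by exact_mod_cast hpp.one_lt.le)
      refine mul_le_mul_of_nonneg_left ?_ hlp
      have hvd : vd p (s i) (s v) = ((s i - s v).natAbs.factorization p : ℝ) := by
        unfold vd
        rw [← padicValInt.of_ne_one_ne_zero hpp.ne_one hne, Nat.factorization_def _ hpp]
        rfl
      rw [← hvd]
      refine defect hs.ord hinj hpp v N i _ (by omega) (by omega) fun l hl hlN => ?_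
      refine dvd_trans ?_ (hdvd l hl.le hlN)
      exact_mod_cast Nat.ordProj_dvd G p
    have hsum := Finset.sum_le_sum hterm
    have e : ∑ p ∈ G.primeFactors, Real.log p * (((G.factorization p : ℝ) -
        min (G.factorization p : ℝ) ((s i - s v).natAbs.factorization p : ℝ)) * ((N : ℝ) - v)) =
        (Real.log G - Real.log (Nat.gcd G (s i - s v).natAbs)) * ((N : ℝ) - v) := by
      rw [← log_gcd hG0 hm0, Finset.sum_mul]
      refine Finset.sum_congr rfl fun p _ => ?_
      ring
    rw [e] at hsum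
    have hX0 : 0 ≤ Real.log G - Real.log (Nat.gcd G (s i - s v).natAbs) := by
      have h3 : Nat.gcd G (s i - s v).natAbs ≤ G := Nat.le_of_dvd (Nat.pos_of_ne_zero hG0)
        (Nat.gcd_dvd_left _ _)
      have h4 : 0 < Nat.gcd G (s i - s v).natAbs :=
        Nat.gcd_pos_of_pos_left _ (Nat.pos_of_ne_zero hG0)
      have := Real.log_le_log (by exact_mod_cast h4)
        (show (Nat.gcd G (s i - s v).natAbs : ℝ) ≤ G by exact_mod_cast h3)
      linarith
    have hNv : (N : ℝ) / 2 ≤ (N : ℝ) - v := by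
      have : (2 : ℝ) * v ≤ N := by exact_mod_cast hvN
      linarith
    have hNpos : (0 : ℝ) < N := by exact_mod_cast (by omega : 0 < N)
    have hl2 : Real.log 2 ≤ 0.7 := by
      have := Real.log_two_lt_d9
      linarith
    have h5 : (Real.log G - Real.log (Nat.gcd G (s i - s v).natAbs)) * ((N : ℝ) / 2) ≤
        (Real.log G - Real.log (Nat.gcd G (s i - s v).natAbs)) * ((N : ℝ) - v) :=
      mul_le_mul_of_nonneg_left hNv hX0
    have h6 : (Real.log G - Real.log (Nat.gcd G (s i - s v).natAbs)) * ((N : ℝ) / 2) ≤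
        (8 * C₀ + 1.5) * (N : ℝ) := by
      have : (N : ℝ) * Real.log 2 ≤ N * 0.7 := mul_le_mul_of_nonneg_left hl2 hNpos.le
      nlinarith
    have h7 : (Real.log G - Real.log (Nat.gcd G (s i - s v).natAbs)) ≤ 2 * (8 * C₀ + 1.5) := by
      by_contra hcon
      push Not at hcon
      have := mul_lt_mul_of_pos_right hcon (show (0 : ℝ) < N / 2 by positivity)
      nlinarith
    linarith
  -- conclusion
  set g₀ := Nat.gcd G (s 0 - s v).natAbs with hg₀
  set g₁ := Nat.gcd G (s 1 - s v).natAbs with hg₁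
  have hk0 := key 0 (by omega)
  have hk1 := key 1 (by omega)
  have hGpos : 0 < G := Nat.pos_of_ne_zero hG0
  have hg₀p : 0 < g₀ := Nat.gcd_pos_of_pos_left _ hGpos
  have hg₁p : 0 < g₁ := Nat.gcd_pos_of_pos_left _ hGpos
  have hlcm : Nat.lcm g₀ g₁ ≤ G :=
    Nat.le_of_dvd hGpos (Nat.lcm_dvd (Nat.gcd_dvd_left _ _) (Nat.gcd_dvd_left _ _))
  have hgcd : (Nat.gcd g₀ g₁ : ℤ) ∣ s 1 := by
    have a0 : (g₀ : ℤ) ∣ s 0 - s v := Int.natCast_dvd.mpr (Nat.gcd_dvd_right _ _)
    have a1 : (g₁ : ℤ) ∣ s 1 - s v := Int.natCast_dvd.mpr (Nat.gcd_dvd_right _ _)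
    have b0 : (Nat.gcd g₀ g₁ : ℤ) ∣ s 0 - s v :=
      (Int.natCast_dvd_natCast.mpr (Nat.gcd_dvd_left _ _)).trans a0
    have b1 : (Nat.gcd g₀ g₁ : ℤ) ∣ s 1 - s v :=
      (Int.natCast_dvd_natCast.mpr (Nat.gcd_dvd_right _ _)).trans a1
    have := dvd_sub b1 b0
    rw [hs.zero] at this
    simpa using this
  have hgcd' : (Nat.gcd g₀ g₁ : ℤ) ≤ s 1 := Int.le_of_dvd hs1 hgcd
  have hprod : (g₀ : ℝ) * g₁ ≤ s 1 * G := by
    have e : Nat.gcd g₀ g₁ * Nat.lcm g₀ g₁ = g₀ * g₁ := Nat.gcd_mul_lcm g₀ g₁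
    have h3 : ((Nat.gcd g₀ g₁ : ℤ) : ℝ) ≤ s 1 := by exact_mod_cast hgcd'
    have h4 : ((Nat.lcm g₀ g₁ : ℕ) : ℝ) ≤ G := by exact_mod_cast hlcm
    have h5 : ((Nat.gcd g₀ g₁ : ℕ) : ℝ) * ((Nat.lcm g₀ g₁ : ℕ) : ℝ) = (g₀ : ℝ) * g₁ := by
      exact_mod_cast e
    rw [← h5]
    refine mul_le_mul (by exact_mod_cast h3) h4 (Nat.cast_nonneg _) ?_
    exact_mod_cast hs1.le
  have hg₀r : (0 : ℝ) < g₀ := by exact_mod_cast hg₀p
  have hg₁r : (0 : ℝ) < g₁ := by exact_mod_cast hg₁p
  have hGr : (0 : ℝ) < G := by exact_mod_cast hGpos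
  have hs1r : (0 : ℝ) < s 1 := by exact_mod_cast hs1
  have hlog := Real.log_le_log (mul_pos hg₀r hg₁r) hprod
  rw [Real.log_mul hg₀r.ne' hg₁r.ne', Real.log_mul hs1r.ne' hGr.ne'] at hlog
  have hfin : Real.log G ≤ (32 * C₀ + 6) + Real.log (s 1) := by linarith
  have := Real.exp_le_exp.mpr hfin
  rw [Real.exp_log hGr, Real.exp_add, Real.exp_log hs1r] at this
  exact this

end Pool.Agent.Work.MP_b29d7f_cvx
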