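import Pool.Agent.Work.MP_b29d7f_cvx.Interface

/-!
# MP_b29d7f_nt, convex sets: block GOODJ (from DYAD)
-/

namespace Pool.Agent.Work.MP_b29d7f_cvx

open Finset

theorem stmt_GOODJ (hD : Stmt_DYAD) : Stmt_GOODJ := by
  intro s C₀ h ε hε
  have hC : 1 ≤ C₀ := h.one_le
  have hl2 : 0 < Real.log 2 := Real.log_pos one_lt_two
  obtain ⟨K, hK⟩ := exists_nat_ge (12 * C₀ / ε)
  refine ⟨K + 1, fun J hJ => ?_⟩
  by_contra hno
  push Not at hno
  -- the normalised quantities
  set g : ℕ → ℝ := fun j => GG s (2 ^ j) / 2 ^ j with hg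
  have g0 : ∀ j, 0 ≤ g j := fun j => div_nonneg ((hD s C₀ h 0 0).2 _) (by positivity)
  have key : ∀ j ∈ Icc J (J + (K + 1)), ε * J * Real.log 2 ≤ g j + g (j + 1) := by
    intro j hj
    rw [mem_Icc] at hj
    have hpos : (0 : ℝ) < 2 ^ j := by positivity
    have hJj : (J : ℝ) ≤ j := by exact_mod_cast hj.1
    have hlog : Real.log ((2 ^ j : ℕ) : ℝ) = j * Real.log 2 := by
      push_cast
      rw [Real.log_pow]
    have base : ε * J * Real.log 2 ≤ ε * j * Real.log 2 := by
      have := mul_le_mul_of_nonneg_left hJj hε.le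
      exact mul_le_mul_of_nonneg_right this hl2.le
    by_cases h1 : GG s (2 ^ j) ≤ ε * (2 ^ j : ℕ) * Real.log (2 ^ j : ℕ)
    · have h2 := hno j hj.1 hj.2 h1
      have h3 : Real.log (2 * ((2 ^ j : ℕ) : ℝ)) = (j + 1) * Real.log 2 := by
        rw [Real.log_mul (by norm_num) (by positivity), hlog]
        ring
      rw [h3] at h2
      have h4 : g (j + 1) = GG s (2 * 2 ^ j) / (2 * 2 ^ j) := by
        simp only [hg]
        rw [pow_succ, pow_succ, mul_comm, mul_comm (2 ^ j : ℝ) 2]
      have h5 : ε * (j + 1) * Real.log 2 ≤ g (j + 1) := by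
        rw [h4, le_div_iff₀ (by positivity)]
        push_cast at h2
        nlinarith [h2]
      have h6 := g0 j
      have h7 : 0 ≤ ε * Real.log 2 := by positivity
      nlinarith [h5, h6, base, h7]
    · push Not at h1
      rw [hlog] at h1
      have h5 : ε * j * Real.log 2 ≤ g j := by
        simp only [hg]
        rw [le_div_iff₀ hpos]
        push_cast at h1
        nlinarith [h1]
      have h6 := g0 (j + 1)
      linarith
  have hsum := sum_le_sum key
  rw [sum_const, sum_add_distrib, Nat.card_Icc, nsmul_eq_mul] at hsum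
  have hJ1 : 1 ≤ J := by omega
  have e1 : ∑ j ∈ Icc J (J + (K + 1)), g j ≤ 2 * Lg s (2 ^ (J + (K + 1) + 1)) := by
    have h1 := (hD s C₀ h (J - 1) (K + 3)).1
    have h2 : J - 1 + (K + 3) = J + (K + 1) + 1 := by omega
    rw [h2] at h1
    refine le_trans ?_ h1
    refine sum_le_sum_of_subset_of_nonneg ?_ fun j _ _ => g0 j
    intro j hj
    rw [mem_Icc] at hj
    rw [mem_Ioc]
    omega
  have e2 : ∑ j ∈ Icc J (J + (K + 1)), g (j + 1) ≤ 2 * Lg s (2 ^ (J + (K + 1) + 1)) := by
    have h1 := (hD s C₀ h J (K + 2)).1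
    have h2 : J + (K + 2) = J + (K + 1) + 1 := by omega
    rw [h2] at h1
    refine le_trans (le_of_eq ?_) h1
    rw [← sum_image (f := fun j => g j) (g := fun j => j + 1)
      (fun x _ y _ hxy => by simpa using hxy)]
    refine sum_congr ?_ fun _ _ => rfl
    ext j
    simp only [mem_image, mem_Icc, mem_Ioc]
    constructor
    · rintro ⟨i, hi, rfl⟩
      omega
    · intro hj
      exact ⟨j - 1, by omega, by omega⟩
  have e3 : Lg s (2 ^ (J + (K + 1) + 1)) ≤ C₀ * ((J + K + 2 : ℕ) * Real.log 2) := by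
    have h1 := h.growth (2 ^ (J + (K + 1) + 1)) (by
      calc 2 = 2 ^ 1 := rfl
        _ ≤ 2 ^ (J + (K + 1) + 1) := Nat.pow_le_pow_right (by norm_num) (by omega))
    have h2 : Real.log ((2 ^ (J + (K + 1) + 1) : ℕ) : ℝ) = (J + K + 2 : ℕ) * Real.log 2 := by
      push_cast
      rw [Real.log_pow]
      push_cast
      ring
    rw [h2] at h1
    exact h1
  have hcard : J + (K + 1) + 1 - J = K + 2 := by omega
  rw [hcard] at hsum
  have hJK : ((J + K + 2 : ℕ) : ℝ) ≤ 3 * J := by
    have : J + K + 2 ≤ 3 * J := by omega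
    exact_mod_cast this
  have hJpos : (0 : ℝ) < J := by exact_mod_cast hJ1
  have h8 : Lg s (2 ^ (J + (K + 1) + 1)) ≤ C₀ * (3 * J * Real.log 2) := by
    refine e3.trans ?_
    have := mul_le_mul_of_nonneg_right hJK hl2.le
    exact mul_le_mul_of_nonneg_left this (by linarith)
  have h9 : ((K + 2 : ℕ) : ℝ) * (ε * J * Real.log 2) ≤ 12 * C₀ * (J * Real.log 2) := by
    nlinarith [hsum, e1, e2, h8]
  have h10 : 12 * C₀ ≤ K * ε := by
    rw [div_le_iff₀ hε] at hK
    exact hK
  have h11 : 0 < J * Real.log 2 := by positivity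
  push_cast at h9
  nlinarith [h9, mul_le_mul_of_nonneg_right h10 h11.le, mul_pos hε h11]

end Pool.Agent.Work.MP_b29d7f_cvx
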