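import Pool.Agent.Work.MP_b29d7f_cvx.Interface

/-! # Block GSUM (helper65) -/

set_option autoImplicit false

namespace Pool.Agent.Work.MP_b29d7f_cvx

open Finset

theorem stmt_GSUM (h1 : Stmt_CVF) : Stmt_GSUM := by
  intro s C₀ hs N m hm hmN
  obtain ⟨-, -, -, -, hc, -, -, hg1, -⟩ := h1 s hs.zero hs.mono hs.gp_mono
  have hmono : ∀ l, 1 ≤ l → l ≤ N → Lg s l ≤ Lg s N := by
    intro l hl hlN
    unfold Lg
    exact Real.log_le_log (by exact_mod_cast hs.pos hl)
      (by exact_mod_cast hs.mono.monotone hlN)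
  -- lower bound for the terms
  have hterm : ∀ u ∈ Ico 1 (N - m + 1), Lg s u - Real.log u ≤ Real.log (gp s u) := by
    intro u hu
    have hu1 := (mem_Ico.mp hu).1
    have hur : (0 : ℝ) < u := by exact_mod_cast hu1
    have hsu : (0 : ℝ) < s u := by exact_mod_cast hs.pos hu1
    have hgu : (0 : ℝ) < gp s u := by
      have := hg1 u
      exact_mod_cast (by omega : 0 < gp s u)
    have h2 : (s u : ℝ) ≤ u * gp s u := by exact_mod_cast hc u
    have h3 := Real.log_le_log hsu h2
    rw [Real.log_mul hur.ne' hgu.ne'] at h3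
    unfold Lg
    linarith
  have hsum1 : ∑ u ∈ Ico 1 (N - m + 1), (Lg s u - Real.log u) ≤
      ∑ u ∈ range (N - m + 1), Real.log (gp s u) := by
    refine (Finset.sum_le_sum hterm).trans ?_
    refine Finset.sum_le_sum_of_subset_of_nonneg ?_ ?_
    · intro u hu
      exact mem_range.mpr (mem_Ico.mp hu).2
    · intro u _ _
      have := hg1 u
      exact Real.log_nonneg (by exact_mod_cast this)
  have hsum2 : ((N : ℝ) - m) * Lg s N - GG s N ≤ ∑ u ∈ Ico 1 (N - m + 1), Lg s u := by
    have h2 : ∑ l ∈ Ico 1 (N - m + 1), (Lg s N - Lg s l) ≤ GG s N := by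
      unfold GG
      refine Finset.sum_le_sum_of_subset_of_nonneg ?_ ?_
      · intro l hl
        obtain ⟨h3, h4⟩ := mem_Ico.mp hl
        exact mem_Ico.mpr ⟨h3, by omega⟩
      · intro l hl _
        obtain ⟨h3, h4⟩ := mem_Ico.mp hl
        have := hmono l h3 h4.le
        exact sub_nonneg.mpr this
    rw [Finset.sum_sub_distrib, Finset.sum_const, Nat.card_Ico, nsmul_eq_mul] at h2
    have h3 : ((N - m + 1 - 1 : ℕ) : ℝ) = (N : ℝ) - m := by
      rw [Nat.add_sub_cancel, Nat.cast_sub hmN]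
    rw [h3] at h2
    linarith
  have hsum3 : ∑ u ∈ Ico 1 (N - m + 1), Real.log (u : ℝ) ≤ N * Real.log N := by
    have h2 : ∀ u ∈ Ico 1 (N - m + 1), Real.log (u : ℝ) ≤ Real.log N := by
      intro u hu
      obtain ⟨h3, h4⟩ := mem_Ico.mp hu
      have h5 : u ≤ N := by omega
      exact Real.log_le_log (by exact_mod_cast h3) (by exact_mod_cast h5)
    refine (Finset.sum_le_sum h2).trans ?_
    rw [Finset.sum_const, Nat.card_Ico, nsmul_eq_mul]
    refine mul_le_mul_of_nonneg_right ?_ (Real.log_natCast_nonneg N)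
    exact_mod_cast (by omega : N - m + 1 - 1 ≤ N)
  rw [Finset.sum_sub_distrib] at hsum1
  linarith

end Pool.Agent.Work.MP_b29d7f_cvx
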