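import Pool.Agent.Work.MP_b29d7f_cvx.InterfaceC

/-!
# Block HALFI of the convex classification (helper16)
-/

namespace Pool.Agent.Work.MP_b29d7f_cvx

open Finset

theorem stmt_HALFI : Stmt_HALFI := by
  intro a g h a₁ g₁ h₁ t t' α β α' hh hh₁ hE hLt hLt' hLα hLβ hLα' e1 e2 e3
  have q1 := La_sq a g h t
  have q2 := La_sq a g h (t + 1)
  have q3 := La_sq a g h t'
  have r1 := La_sq a₁ g₁ h₁ α
  have r2 := La_sq a₁ g₁ h₁ β
  have r3 := La_sq a₁ g₁ h₁ α'
  have s1 : h₁ * La g h t ^ 2 = h * La g₁ h₁ α ^ 2 := by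
    linear_combination h₁ * q1 - h * r1 - hE + 8 * h * h₁ * e1
  have s2 : h₁ * La g h (t + 1) ^ 2 = h * La g₁ h₁ β ^ 2 := by
    linear_combination h₁ * q2 - h * r2 - hE + 8 * h * h₁ * e2
  have s3 : h₁ * La g h t' ^ 2 = h * La g₁ h₁ α' ^ 2 := by
    linear_combination h₁ * q3 - h * r3 - hE + 8 * h * h₁ * e3
  have d1 : La g h (t + 1) = La g h t + 2 * h := by unfold La; ring
  have d2 : La g₁ h₁ β = La g₁ h₁ α + 2 * h₁ * (β - α) := by unfold La; ring
  have hLt1 : 0 < La g h (t + 1) := by rw [d1]; linarith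
  -- cross multiplication
  have c1 : (La g h t * La g₁ h₁ β) ^ 2 = (La g h (t + 1) * La g₁ h₁ α) ^ 2 := by
    have : h * h₁ * ((La g h t * La g₁ h₁ β) ^ 2 - (La g h (t + 1) * La g₁ h₁ α) ^ 2) = 0 := by
      linear_combination h * La g₁ h₁ β ^ 2 * s1 - h * La g₁ h₁ α ^ 2 * s2
    have h0 : h * h₁ ≠ 0 := by positivity
    have := (mul_eq_zero.1 this).resolve_left h0
    linarith
  have c2 : La g h t * La g₁ h₁ β = La g h (t + 1) * La g₁ h₁ α :=
    (pow_left_inj₀ (by positivity) (by positivity) two_ne_zero).1 c1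
  have c3 : La g h t * (h₁ * (β - α)) = h * La g₁ h₁ α := by
    rw [d1, d2] at c2
    have : 2 * (La g h t * (h₁ * (β - α))) = 2 * (h * La g₁ h₁ α) := by linear_combination c2
    linarith
  -- the ratio
  have c4 : h = h₁ * (β - α) ^ 2 := by
    have h1 : h₁ * La g h t ^ 2 * (h - h₁ * (β - α) ^ 2) = 0 := by
      linear_combination h * s1 - (La g h t * (h₁ * (β - α)) + h * La g₁ h₁ α) * c3
    have h0 : h₁ * La g h t ^ 2 ≠ 0 := by positivity
    have := (mul_eq_zero.1 h1).resolve_left h0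
    linarith
  have c5 : La g h t = (β - α) * La g₁ h₁ α := by
    have hr : h₁ * (β - α) ≠ 0 := by
      intro h0
      have : h = 0 := by rw [c4, sq, ← mul_assoc, h0, zero_mul]
      omega
    have h1 : h₁ * (β - α) * (La g h t - (β - α) * La g₁ h₁ α) = 0 := by
      linear_combination c3 + La g₁ h₁ α * c4
    have := (mul_eq_zero.1 h1).resolve_left hr
    linarith
  have hr : 0 < β - α := by
    by_contra h0
    push Not at h0
    have := mul_nonpos_of_nonpos_of_nonneg h0 hLα.le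
    linarith
  have c6 : (-La g h t') ^ 2 = ((β - α) * La g₁ h₁ α') ^ 2 := by
    have h1 : h₁ * ((-La g h t') ^ 2 - ((β - α) * La g₁ h₁ α') ^ 2) = 0 := by
      linear_combination s3 + La g₁ h₁ α' ^ 2 * c4
    have h0 : h₁ ≠ 0 := by omega
    have := (mul_eq_zero.1 h1).resolve_left h0
    linarith
  have c7 : -La g h t' = (β - α) * La g₁ h₁ α' :=
    (pow_left_inj₀ (by linarith) (by positivity) two_ne_zero).1 c6
  have d3 : La g h t - La g h t' = 2 * h * (t - t') := by unfold La; ring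
  have d4 : La g₁ h₁ α + La g₁ h₁ α' = 2 * (2 * g₁ - h₁ + h₁ * (α + α')) := by unfold La; ring
  have c8 : (β - α) * (2 * g₁ - h₁ + h₁ * (α + α') - h₁ * (β - α) * (t - t')) = 0 := by
    have h1 : 2 * ((β - α) * (2 * g₁ - h₁ + h₁ * (α + α') - h₁ * (β - α) * (t - t'))) = 0 := by
      linear_combination d3 - c5 - c7 - (β - α) * d4 + 2 * (t - t') * c4
    omega
  have c9 := (mul_eq_zero.1 c8).resolve_left hr.ne'
  exact ⟨1 - (α + α') + (β - α) * (t - t'), by linear_combination c9⟩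

end Pool.Agent.Work.MP_b29d7f_cvx
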