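import Pool.Agent.Work.MP_b29d7f_cvx.InterfaceC

/-!
# MP_b29d7f convex sets: block HBD (helper89)
-/

namespace Pool.Agent.Work.MP_b29d7f_cvx

theorem stmt_HBD (hDIV : Stmt_DIV) (hNUMD : Stmt_NUMD) (hNUME : Stmt_NUME) (hGCDB : Stmt_GCDB) :
    Stmt_HBD := by
  intro s C₀ hs
  obtain ⟨n1, h1⟩ := hDIV s C₀ hs
  obtain ⟨n2, h2⟩ := hNUMD s C₀ hs
  obtain ⟨n3, h3⟩ := hNUME s C₀ hs 2
  refine ⟨⌈2 * (Real.exp (32 * C₀ + 6) * s 1)⌉, max n1 (max n2 n3), ?_⟩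
  intro n hn v Z v₁ Z₁ v₂ Z₂ h h₁ h₂ hraw
  have hd := h1 n (le_trans (le_max_left _ _) hn) v Z v₁ Z₁ v₂ Z₂ h h₁ h₂ hraw
  obtain ⟨N, hN1, hN2, hN3⟩ := h2 n (le_trans (le_trans (le_max_left _ _) (le_max_right _ _)) hn)
    v Z v₁ Z₁ v₂ Z₂ h h₁ h₂ hraw
  obtain ⟨-, -, hv, -⟩ := h3 n (le_trans (le_trans (le_max_right _ _) (le_max_right _ _)) hn)
    v Z v₁ Z₁ v₂ Z₂ h h₁ h₂ hraw
  have hg := hGCDB s C₀ hs v₁ Z₁ N h₁ hv hraw.z₁.zone hN1 hN2 hN3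
  have hpos : 1 ≤ h₁ := hraw.z₁.one_le
  have hdvd : h₁ ∣ 2 * (Int.gcd (gp s v₁) h₁ : ℤ) := by
    have h5 : h₁ ∣ ((Int.gcd (2 * gp s v₁) (2 * h₁) : ℕ) : ℤ) :=
      Int.dvd_coe_gcd hd (Dvd.intro_left 2 rfl)
    rw [Int.gcd_mul_left] at h5
    simpa using h5
  have hgpos : 0 < (Int.gcd (gp s v₁) h₁ : ℤ) := by
    have : Int.gcd (gp s v₁) h₁ ≠ 0 := by
      rw [Ne, Int.gcd_eq_zero_iff]
      omega
    omega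
  have hle : h₁ ≤ 2 * (Int.gcd (gp s v₁) h₁ : ℤ) := Int.le_of_dvd (by omega) hdvd
  have hle' : (h₁ : ℝ) ≤ 2 * (Real.exp (32 * C₀ + 6) * s 1) := by
    have : (h₁ : ℝ) ≤ 2 * ((Int.gcd (gp s v₁) h₁ : ℕ) : ℝ) := by exact_mod_cast hle
    linarith
  have := le_trans hle' (Int.le_ceil _)
  exact_mod_cast this

end Pool.Agent.Work.MP_b29d7f_cvx
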