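import Pool.Agent.Work.MP_b29d7f_cvx.Interface2

/-!
# Block HPOS (helper55)
-/

set_option autoImplicit false

namespace Pool.Agent.Work.MP_b29d7f_cvx

open Finset
open Pool.Agent.Work.MP_b29d7f_nt (IsPOrdering HasSimultaneousOrdering PS vd ld tv)
open Pool.Agent.Work.MP_b29d7f_half (Ord A wv lD HalfDense)
open Pool.Agent.Work.MP_b29d7f_sep (nv EW EL)

theorem stmt_HPOS (hPAD : Stmt_PAD) (hPAE : Stmt_PAE) (hPRF : Stmt_PRF) : Stmt_HPOS := by
  classical
  intro s C₀ N M P m J H x a i₀ h B hF
  by_contra hcon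
  have h0 : h = 0 := by
    have := hF.h_nn
    omega
  subst h0
  have zw := hF.zw
  have zd := zw.zd
  have cv := zd.cvx
  have m_big := zd.m_big
  have x2 := zw.x2
  have x1 := zw.x1
  have m_le := zd.m_le
  have M_P := zd.M_P
  have a_hi := zw.a_hi
  have a_lo := zw.a_lo
  have J_small := zd.J_small
  have i_lo := hF.i_lo
  have i_hi := hF.i_hi
  have B_card := hF.B_card
  have hx : 10 ^ 15 ≤ x := by omega
  -- the good indices
  set G : Finset ℕ := Icc i₀ (a + 32 * x) \ B with hG
  have hGc : 23 * x + 1 ≤ G.card := by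
    have h1 : (Icc i₀ (a + 32 * x)).card - B.card ≤ G.card := Finset.le_card_sdiff _ _
    rw [Nat.card_Icc] at h1
    omega
  have hGm : ∀ j ∈ G, i₀ ≤ j ∧ j ≤ a + 32 * x ∧ j ∉ B := by
    intro j hj
    rw [hG, Finset.mem_sdiff, Finset.mem_Icc] at hj
    exact ⟨hj.1.1, hj.1.2, hj.2⟩
  have hs : ∀ j ∈ G, s j = s i₀ + ((j : ℤ) - i₀) * gp s (i₀ - 1) := by
    intro j hj
    obtain ⟨h1, h2, h3⟩ := hGm j hj
    have := hF.quad j h1 h2 h3
    unfold F2 at this
    linarith
  have hdiff : ∀ i ∈ G, ∀ j ∈ G, s j - s i = ((j : ℤ) - i) * gp s (i₀ - 1) := by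
    intro i hi j hj
    rw [hs i hi, hs j hj]
    ring
  have hGne : G.Nonempty := by
    rw [← Finset.card_pos]
    omega
  set j := G.max' hGne with hj
  have hjG : j ∈ G := Finset.max'_mem _ _
  have hjm := hGm j hjG
  have hlt : ∀ l ∈ G.erase j, l < j := by
    intro l hl
    exact lt_of_le_of_ne (Finset.le_max' _ _ (Finset.mem_of_mem_erase hl)) (Finset.ne_of_mem_erase hl)
  -- growth
  have hgr : ∀ p : ℕ, p.Prime → ∀ u : ℕ, u ≤ i₀ →
      nv p s u + ∑ l ∈ G.erase j, vl p s j l ≤ nv p s (a + 32 * x) := by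
    intro p hp u hu
    obtain ⟨-, -, -, h4⟩ := hPAD s C₀ cv p hp
    refine le_trans ?_ (h4 u (a + 32 * x) j (by omega) hjm.2.1)
    refine Nat.add_le_add_left ?_ _
    refine Finset.sum_le_sum_of_subset ?_
    intro l hl
    have hl' := hGm l (Finset.mem_of_mem_erase hl)
    rw [Finset.mem_erase, Finset.mem_Icc]
    exact ⟨Finset.ne_of_mem_erase hl, by omega, hl'.2.1⟩
  -- no good prime
  have hgood : ∀ p ∈ PG s N M P, ∀ l ∈ G.erase j, vl p s j l = 0 := by
    intro p hp l hl
    obtain ⟨hpp, hPp⟩ := zd.prime p hp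
    have hlG := Finset.mem_of_mem_erase hl
    have hlm := hGm l hlG
    have hlj := hlt l hl
    obtain ⟨-, -, hE, -⟩ := hPAE s C₀ cv p hpp
    by_contra hne
    have hdvd : (p : ℤ) ∣ s j - s l := by
      by_contra hnd
      exact hne ((hE j l (by omega)).2 hnd)
    rw [hdiff l hlG j hjG] at hdvd
    have hpi : Prime (p : ℤ) := Nat.prime_iff_prime_int.1 hpp
    have hg : (p : ℤ) ∣ gp s (i₀ - 1) := by
      rcases hpi.dvd_or_dvd hdvd with h1 | h1
      · exfalso
        have h2 := Int.le_of_dvd (by omega) h1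
        omega
      · exact h1
    have hall : ∀ l' ∈ G.erase j, 1 ≤ vl p s j l' := by
      intro l' hl'
      rw [Nat.one_le_iff_ne_zero]
      intro h1
      refine (hE j l' (Finset.ne_of_mem_erase hl').symm).1 h1 ?_
      rw [hdiff l' (Finset.mem_of_mem_erase hl') j hjG]
      exact hg.mul_left _
    have h1 : (G.erase j).card ≤ ∑ l' ∈ G.erase j, vl p s j l' := by
      have := Finset.card_nsmul_le_sum (G.erase j) (fun l' => vl p s j l') 1 hall
      simpa using this
    rw [Finset.card_erase_of_mem hjG] at h1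
    have h2 := hgr p hpp i₀ le_rfl
    have h3 := zd.jump p hp i₀ (a + 32 * x) (by omega) (by omega) (by omega)
    omega
  -- the product formula
  obtain ⟨hP1, hP2, -⟩ := hPRF s C₀ cv (2 * N)
  have hlog : ∀ l ∈ G.erase j, Real.log (s j - s l : ℤ) =
      ∑ p ∈ PA s N P, Real.log p * vl p s j l + ∑ p ∈ PC s N M P, Real.log p * vl p s j l := by
    intro l hl
    have hlj := hlt l hl
    have hdis : Disjoint (PA s N P) (PC s N M P) := by
      rw [Finset.disjoint_left]
      intro p h1 h2
      have h1' := mem_PA.1 h1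
      have h2' := mem_PC.1 h2
      omega
    rw [hP2 l j hlj (by omega), ← Finset.sum_union hdis]
    symm
    refine Finset.sum_subset ?_ ?_
    · intro p hp
      rcases Finset.mem_union.1 hp with h1 | h1
      · exact (mem_PA.1 h1).1
      · exact (mem_PC.1 h1).1
    · intro p hp hnot
      have hpG : p ∈ PG s N M P := by
        rw [mem_PG]
        rw [Finset.mem_union, mem_PA, mem_PC] at hnot
        push Not at hnot
        refine ⟨hp, ?_, ?_⟩
        · have := hnot.1 hp
          omega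
        · refine hnot.2 hp ?_
          have := hnot.1 hp
          omega
      rw [hgood p hpG l hl]
      simp
  have hsum : ∑ l ∈ G.erase j, Real.log (s j - s l : ℤ) ≤
      ∑ p ∈ PA s N P, Real.log p * ((nv p s (a + 32 * x) : ℝ) - nv p s a) +
      ∑ p ∈ PC s N M P, Real.log p * ((nv p s (a + 32 * x) : ℝ) - nv p s a) := by
    rw [Finset.sum_congr rfl hlog, Finset.sum_add_distrib]
    have haux : ∀ Q : Finset ℕ, (∀ p ∈ Q, p.Prime) →
        ∑ l ∈ G.erase j, ∑ p ∈ Q, Real.log p * vl p s j l ≤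
          ∑ p ∈ Q, Real.log p * ((nv p s (a + 32 * x) : ℝ) - nv p s a) := by
      intro Q hQ
      rw [Finset.sum_comm]
      refine Finset.sum_le_sum ?_
      intro p hp
      rw [← Finset.mul_sum]
      refine mul_le_mul_of_nonneg_left ?_ (Real.log_natCast_nonneg p)
      have h1 := hgr p (hQ p hp) a (by omega)
      have h2 : (nv p s a : ℝ) + ∑ l ∈ G.erase j, (vl p s j l : ℝ) ≤ nv p s (a + 32 * x) := by
        exact_mod_cast h1
      linarith
    exact add_le_add (haux _ fun p hp => hP1 p (mem_PA.1 hp).1)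
      (haux _ fun p hp => hP1 p (mem_PC.1 hp).1)
  have hlow : ∀ l ∈ G.erase j, 9 / 10 * Real.log N ≤ Real.log (s j - s l : ℤ) := by
    intro l hl
    have hlj := hlt l hl
    have hlm := hGm l (Finset.mem_of_mem_erase hl)
    refine (zd.gaps l (by omega)).trans ?_
    have h1 : gp s l ≤ s j - s l := by
      unfold gp
      have := cv.mono.monotone (show l + 1 ≤ j by omega)
      omega
    have h2 : 0 < gp s l := by
      unfold gp
      have := cv.mono (Nat.lt_succ_self l)
      simp only [Nat.succ_eq_add_one] at this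
      omega
    refine Real.log_le_log (by exact_mod_cast h2) ?_
    exact_mod_cast h1
  have h1 : ((G.erase j).card : ℝ) * (9 / 10 * Real.log N) ≤
      ∑ l ∈ G.erase j, Real.log (s j - s l : ℤ) := by
    rw [← nsmul_eq_mul]
    exact Finset.card_nsmul_le_sum _ _ _ hlow
  have h2 : (23 : ℝ) * x ≤ (G.erase j).card := by
    rw [Finset.card_erase_of_mem hjG]
    have : 23 * x ≤ G.card - 1 := by omega
    exact_mod_cast this
  have h3 := zw.na
  have h4 := zd.log_N
  have h5 : (10 : ℝ) ^ 15 ≤ x := by exact_mod_cast hx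
  have h6 : 23 * (x : ℝ) * (9 / 10 * Real.log N) ≤ 1 / 10 ^ 15 * x * Real.log N := by
    have : 23 * (x : ℝ) * (9 / 10 * Real.log N) ≤
        ((G.erase j).card : ℝ) * (9 / 10 * Real.log N) :=
      mul_le_mul_of_nonneg_right h2 (by linarith)
    linarith
  have h7 : 0 < (x : ℝ) * Real.log N := mul_pos (by linarith) (by linarith)
  nlinarith

end Pool.Agent.Work.MP_b29d7f_cvx
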