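import Pool.Agent.Work.MP_b29d7f_cvx.Interface2

/-!
# Block HX (helper89)
-/

set_option autoImplicit false

namespace Pool.Agent.Work.MP_b29d7f_cvx

open Finset
open Pool.Agent.Work.MP_b29d7f_nt (IsPOrdering HasSimultaneousOrdering PS vd ld tv)
open Pool.Agent.Work.MP_b29d7f_half (Ord A wv lD HalfDense)
open Pool.Agent.Work.MP_b29d7f_sep (nv EW EL)

theorem HX_sub_le (s : ℕ → ℤ) (j n : ℕ) (G : ℤ) (h : ∀ i < n, gp s (j + i) ≤ G) :
    s (j + n) - s j ≤ n * G := by
  induction n with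
  | zero => simp
  | succ n ih =>
    have h1 := ih (fun i hi => h i (by omega))
    have h2 := h n (by omega)
    unfold gp at h2
    have h3 : s (j + (n + 1)) = s (j + n + 1) := by rw [add_assoc]
    rw [h3]
    push_cast
    linarith

theorem stmt_HX : Stmt_HX := by
  classical
  intro s C₀ N M P m J H x a i₀ h B hF
  have zw := hF.zw
  have zd := zw.zd
  have cv := zd.cvx
  have m_big := zd.m_big
  have x2 := zw.x2
  have x1 := zw.x1
  have i_lo := hF.i_lo
  have i_hi := hF.i_hi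
  have h_nn := hF.h_nn
  have B_card := hF.B_card
  have hx : 10 ^ 15 ≤ x := by omega
  have hmono := cv.gp_mono
  set G : Finset ℕ := Icc (a + 30 * x) (a + 32 * x) \ B with hG
  have hGc : 1 < G.card := by
    have h1 : (Icc (a + 30 * x) (a + 32 * x)).card - B.card ≤ G.card := Finset.le_card_sdiff _ _
    rw [Nat.card_Icc] at h1
    omega
  have hGm : ∀ j ∈ G, a + 30 * x ≤ j ∧ j ≤ a + 32 * x ∧ j ∉ B := by
    intro j hj
    rw [hG, Finset.mem_sdiff, Finset.mem_Icc] at hj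
    exact ⟨hj.1.1, hj.1.2, hj.2⟩
  obtain ⟨j, j', hj, hj', hlt⟩ : ∃ j j' : ℕ, j ∈ G ∧ j' ∈ G ∧ j < j' := by
    obtain ⟨u, hu, v, hv, huv⟩ := Finset.one_lt_card.1 hGc
    rcases lt_or_gt_of_ne huv with h1 | h1
    · exact ⟨u, v, hu, hv, h1⟩
    · exact ⟨v, u, hv, hu, h1⟩
  obtain ⟨a1, a2, a3⟩ := hGm j hj
  obtain ⟨b1, b2, b3⟩ := hGm j' hj'
  have q1 := hF.quad j (by omega) a2 a3
  have q2 := hF.quad j' (by omega) b2 b3
  set g : ℤ := gp s (i₀ - 1) with hg
  have hflat : gp s (a + m) - gp s a ≤ H := zw.flat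
  have hga : gp s a ≤ g := hmono (by omega)
  obtain ⟨n, rfl⟩ : ∃ n, j' = j + n := ⟨j' - j, by omega⟩
  have hn : 1 ≤ n := by omega
  have hup : s (j + n) - s j ≤ n * (g + H) := by
    refine HX_sub_le s j n (g + H) fun i hi => ?_
    have h1 : gp s (j + i) ≤ gp s (a + m) := hmono (by omega)
    linarith
  unfold F2 at q1 q2
  rw [← hg] at q1 q2
  set t : ℤ := (j : ℤ) - i₀ with ht
  have ht0 : 22 * (x : ℤ) ≤ t := by
    rw [ht]
    have : (i₀ : ℤ) ≤ a + 8 * x := by exact_mod_cast i_hi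
    have : (a : ℤ) + 30 * x ≤ j := by exact_mod_cast a1
    linarith
  have e2 : ((j + n : ℕ) : ℤ) - i₀ = t + n := by
    rw [ht]; push_cast; ring
  rw [e2] at q2
  have h4 : 2 * (s (j + n) - s j) = n * (2 * g + h * (2 * t + n + 1)) := by
    linear_combination q2 - q1
  have hn0 : (1 : ℤ) ≤ n := by exact_mod_cast hn
  have h5 : (n : ℤ) * (2 * g + h * (2 * t + n + 1)) ≤ n * (2 * (g + H)) := by
    rw [← h4]
    linarith
  have h6 : 2 * g + h * (2 * t + n + 1) ≤ 2 * (g + H) :=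
    le_of_mul_le_mul_left h5 (by linarith)
  have h7 : h * (40 * x) ≤ h * (2 * t + n + 1) :=
    mul_le_mul_of_nonneg_left (by linarith) h_nn
  linarith

end Pool.Agent.Work.MP_b29d7f_cvx
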