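import Pool.Agent.Work.MP_b29d7f_cvx.InterfaceC

/-!
# Convex sets: block INS
-/

namespace Pool.Agent.Work.MP_b29d7f_cvx

open Finset

theorem INS_aux {s : ℕ → ℤ} (hm : StrictMono s)
    (hA : ∀ i j l : ℕ, i ≤ j → s (i + l) - s i ≤ s (j + l) - s j) (j n : ℕ) (x : ℤ)
    (h1 : s j < x) (h2 : x < s (j + 1)) :
    |Nk s (j + 1 + n) x| < Dk s (j + 1 + n) := by
  unfold Nk Dk
  rw [Finset.abs_prod, Finset.prod_range_add (fun i => |x - s i|) (j + 1) n,
    Finset.prod_range_add (fun i => s (j + 1 + n) - s i) (j + 1) n]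
  have hpos : ∀ i ∈ range (j + 1), 0 < |x - s i| := by
    intro i hi
    have : s i ≤ s j := hm.monotone (by simpa [Nat.lt_succ_iff] using hi)
    exact abs_pos.2 (by omega)
  have hA1 : ∏ i ∈ range (j + 1), |x - s i| < ∏ i ∈ range (j + 1), (s (j + 1 + n) - s i) := by
    refine Finset.prod_lt_prod_of_nonempty hpos (fun i hi => ?_) ⟨0, by simp⟩
    have e1 : s i ≤ s j := hm.monotone (by simpa [Nat.lt_succ_iff] using hi)
    have e2 : s (j + 1) ≤ s (j + 1 + n) := hm.monotone (by omega)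
    rw [abs_of_pos (by omega)]
    omega
  have hB1 : ∏ t ∈ range n, |x - s (j + 1 + t)| ≤
      ∏ t ∈ range n, (s (j + 1 + n) - s (j + 1 + t)) := by
    rw [← Finset.prod_range_reflect (fun t => s (j + 1 + n) - s (j + 1 + t)) n]
    refine Finset.prod_le_prod (fun t _ => abs_nonneg _) (fun t ht => ?_)
    have ht' : t < n := Finset.mem_range.1 ht
    have e1 : s (j + 1) ≤ s (j + 1 + t) := hm.monotone (by omega)
    rw [abs_of_neg (by omega)]
    have e2 := hA j (j + 1 + (n - 1 - t)) (t + 1) (by omega)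
    have e3 : j + 1 + (n - 1 - t) + (t + 1) = j + 1 + n := by omega
    have e4 : j + (t + 1) = j + 1 + t := by omega
    rw [e3, e4] at e2
    omega
  have hC : 0 < ∏ i ∈ range (j + 1), |x - s i| := Finset.prod_pos hpos
  have hD : 0 < ∏ t ∈ range n, (s (j + 1 + n) - s (j + 1 + t)) := by
    refine Finset.prod_pos fun t ht => ?_
    have : s (j + 1 + t) < s (j + 1 + n) := hm (by
      have := Finset.mem_range.1 ht
      omega)
    omega
  calc (∏ i ∈ range (j + 1), |x - s i|) * ∏ t ∈ range n, |x - s (j + 1 + t)|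
      ≤ (∏ i ∈ range (j + 1), |x - s i|) * ∏ t ∈ range n, (s (j + 1 + n) - s (j + 1 + t)) :=
        mul_le_mul_of_nonneg_left hB1 hC.le
    _ < (∏ i ∈ range (j + 1), (s (j + 1 + n) - s i)) *
        ∏ t ∈ range n, (s (j + 1 + n) - s (j + 1 + t)) :=
        mul_lt_mul_of_pos_right hA1 hD

theorem stmt_INS (hARC : Stmt_ARC) : Stmt_INS := by
  intro s C₀ h k x hdvd hx0 hxk
  obtain ⟨hA, -⟩ := hARC s C₀ h
  by_contra hcon
  push_neg at hcon
  have hex : ∃ m, x < s m := ⟨k, hxk⟩
  classical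
  set m := Nat.find hex with hm
  have hm1 : x < s m := Nat.find_spec hex
  have hmk : m ≤ k := Nat.find_min' hex hxk
  have hm0 : m ≠ 0 := by
    intro h0
    rw [h0, h.zero] at hm1
    omega
  obtain ⟨j, hj⟩ := Nat.exists_eq_succ_of_ne_zero hm0
  have hj1 : s j ≤ x := by
    have := Nat.find_min hex (m := j) (by rw [← hm, hj]; exact Nat.lt_succ_self j)
    omega
  have hj2 : s j ≠ x := hcon j (by omega)
  obtain ⟨n, hn⟩ : ∃ n, k = j + 1 + n := ⟨k - (j + 1), by omega⟩
  have hlt := INS_aux h.mono hA j n x (by omega) (by rw [hj] at hm1; exact hm1)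
  rw [← hn] at hlt
  have hne : Nk s k x ≠ 0 := by
    unfold Nk
    rw [Finset.prod_ne_zero_iff]
    intro i hi
    have := hcon i (Finset.mem_range.1 hi)
    omega
  have := Int.le_of_dvd (abs_pos.2 hne) ((dvd_abs _ _).2 hdvd)
  omega

end Pool.Agent.Work.MP_b29d7f_cvx
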