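import Pool.Agent.Work.MP_b29d7f_cvx.InterfaceC

/-! # Block INTP (helper65) -/

set_option autoImplicit false

namespace Pool.Agent.Work.MP_b29d7f_cvx

open Polynomial in
theorem intp_diff_natDegree (P : Polynomial ℚ) (d : ℕ) (hP : P.natDegree ≤ d + 1) :
    (P.comp (X + C 1) - P).natDegree ≤ d := by
  by_cases h0 : P = 0
  · subst h0
    simp
  have hn : (P.comp (X + C 1)).natDegree = P.natDegree := by
    rw [natDegree_comp, natDegree_X_add_C, mul_one]
  have hl : (P.comp (X + C 1)).leadingCoeff = P.leadingCoeff := by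
    rw [leadingCoeff_comp (by rw [natDegree_X_add_C]; exact one_ne_zero), leadingCoeff_X_add_C,
      one_pow, mul_one]
  have hc0 : P.comp (X + C 1) ≠ 0 := by
    intro h
    rw [h, leadingCoeff_zero] at hl
    exact h0 (leadingCoeff_eq_zero.mp hl.symm)
  have hd : (P.comp (X + C 1)).degree = P.degree := by
    rw [degree_eq_natDegree hc0, degree_eq_natDegree h0, hn]
  have hlt := degree_sub_lt_left hd hc0 hl
  by_cases hQ : P.comp (X + C 1) - P = 0
  · rw [hQ]
    simp
  · have h1 : (P.comp (X + C 1) - P).natDegree < (P.comp (X + C 1)).natDegree :=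
      natDegree_lt_natDegree hQ hlt
    omega

theorem stmt_INTP : Stmt_INTP := by
  intro P d D
  induction d generalizing P with
  | zero =>
    intro hP h0 t
    obtain ⟨z, hz⟩ := h0 0 le_rfl
    refine ⟨z, ?_⟩
    rw [← hz, Polynomial.eq_C_of_natDegree_le_zero hP]
    simp
  | succ d ih =>
    intro hP h0
    have hQ := ih (P.comp (Polynomial.X + Polynomial.C 1) - P) (intp_diff_natDegree P d hP) (by
      intro t ht
      obtain ⟨a, ha⟩ := h0 (t + 1) (by omega)
      obtain ⟨b, hb⟩ := h0 t (by omega)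
      refine ⟨a - b, ?_⟩
      rw [Polynomial.eval_sub, Polynomial.eval_comp, Polynomial.eval_add, Polynomial.eval_X,
        Polynomial.eval_C]
      push_cast at ha hb ⊢
      rw [ha, hb]
      ring)
    have hQ' : ∀ t : ℤ, ∃ z : ℤ, P.eval ((t : ℚ) + 1) - P.eval (t : ℚ) = D * z := by
      intro t
      obtain ⟨z, hz⟩ := hQ t
      refine ⟨z, ?_⟩
      rw [Polynomial.eval_sub, Polynomial.eval_comp, Polynomial.eval_add, Polynomial.eval_X,
        Polynomial.eval_C] at hz
      exact hz
    intro t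
    induction t with
    | zero =>
      obtain ⟨z, hz⟩ := h0 0 (Nat.zero_le _)
      exact ⟨z, by simpa using hz⟩
    | succ n ihn =>
      obtain ⟨z, hz⟩ := ihn
      obtain ⟨y, hy⟩ := hQ' (n : ℤ)
      refine ⟨y + z, ?_⟩
      push_cast at hz hy ⊢
      linarith
    | pred n ihn =>
      obtain ⟨z, hz⟩ := ihn
      obtain ⟨y, hy⟩ := hQ' (-(n : ℤ) - 1)
      refine ⟨z - y, ?_⟩
      push_cast at hz hy ⊢
      have e : (-(n : ℚ) - 1 + 1) = -n := by ring
      rw [e] at hy
      linarith

end Pool.Agent.Work.MP_b29d7f_cvx
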