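import Pool.Agent.Work.MP_b29d7f_cvx.Interface

/-!
# Convex sets: block JUMP
-/

namespace Pool.Agent.Work.MP_b29d7f_cvx

open Finset
open Pool.Agent.Work.MP_b29d7f_sep (nv EW EL)

theorem stmt_JUMP (hPAD : Stmt_PAD) (hPAE : Stmt_PAE) (hVLM : Stmt_VLM) : Stmt_JUMP := by
  intro s C₀ h N M p hN hp hC u v huv hvM hvN
  obtain ⟨-, -, hF1, -⟩ := hPAD s C₀ h p hp
  obtain ⟨-, -, hz, -⟩ := hPAE s C₀ h p hp
  have hL0 : 0 ≤ Lg s (2 * N) := by
    unfold Lg
    apply Real.log_nonneg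
    have := h.pos (k := 2 * N) (by omega)
    exact_mod_cast this
  unfold Catch at hC
  push Not at hC
  obtain ⟨j, hvj, hj2, hj⟩ := hC u v huv hvM hvN
  rcases Nat.eq_zero_or_pos j with hj0 | hj0
  · have hv : v = 0 := by omega
    have hu : u = 0 := by omega
    rw [hv, hu, sub_self, zero_mul]
    exact hL0
  obtain ⟨V, hV1, hV2⟩ := hVLM s C₀ h p hp u j (huv.trans hvj) hj0
  have h1 : nv p s v ≤ ∑ i ∈ range v, vl p s j i := hF1 v j hvj
  have h2 : ∑ i ∈ range v, vl p s j i = ∑ i ∈ range u, vl p s j i := by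
    symm
    refine Finset.sum_subset (Finset.range_mono huv) fun i hi hiu => ?_
    rw [Finset.mem_range] at hi hiu
    exact (hz j i (by omega)).2 (hj i (by omega) hi)
  have h3 : nv p s v ≤ nv p s u + V := by rw [h2] at h1; exact h1.trans hV2
  have h3' : (nv p s v : ℝ) - nv p s u ≤ V := by
    have : (nv p s v : ℝ) ≤ nv p s u + V := by exact_mod_cast h3
    linarith
  have hp0 : 0 < Real.log p := Real.log_pos (by exact_mod_cast hp.one_lt)
  have hpp : (0 : ℝ) < (p : ℝ) ^ V := pow_pos (by exact_mod_cast hp.pos) V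
  have h4 : (V : ℝ) * Real.log p ≤ Lg s (2 * N) := by
    unfold Lg
    rw [← Real.log_pow]
    apply Real.log_le_log hpp
    have h5 : (p : ℤ) ^ V ≤ s (2 * N) := hV1.trans (h.mono.monotone (by omega))
    exact_mod_cast h5
  calc ((nv p s v : ℝ) - nv p s u) * Real.log p ≤ V * Real.log p :=
        mul_le_mul_of_nonneg_right h3' hp0.le
    _ ≤ Lg s (2 * N) := h4

end Pool.Agent.Work.MP_b29d7f_cvx
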