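import Pool.Agent.Work.MP_b29d7f_cvx.InterfaceC

/-!
# Block LEAD of the convex classification (helper16)
-/

namespace Pool.Agent.Work.MP_b29d7f_cvx

open Finset

namespace LEADaux

open Polynomial

theorem fwdDiff_coeff (P : ℤ[X]) (n : ℕ) (hP : P.natDegree ≤ n) (x : ℤ) :
    (fwdDiff (1 : ℤ))^[n] P.eval x = (n.factorial : ℤ) * P.coeff n := by
  rcases hP.lt_or_eq with h | h
  · rw [Polynomial.fwdDiff_iter_eq_zero_of_degree_lt h, Polynomial.coeff_eq_zero_of_natDegree_lt h]
    simp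
  · subst h
    rw [Polynomial.fwdDiff_iter_degree_eq_factorial]
    simp [mul_comm]

/-- the doubled factor -/
noncomputable def quad (s : ℕ → ℤ) (a g h : ℤ) (i : ℕ) : ℤ[X] :=
  C h * X ^ 2 + C (2 * g - h) * X + C (2 * a - 2 * s i)

theorem eval_quad (s : ℕ → ℤ) (a g h : ℤ) (i : ℕ) (t : ℤ) :
    (quad s a g h i).eval t = 2 * (Fq a g h t - s i) := by
  simp only [quad, eval_add, eval_mul, eval_C, eval_pow, eval_X]
  linear_combination -(two_mul_Fq a g h t)

theorem natDegree_quad (s : ℕ → ℤ) (a g h : ℤ) (i : ℕ) : (quad s a g h i).natDegree ≤ 2 :=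
  natDegree_quadratic_le

theorem coeff_quad (s : ℕ → ℤ) (a g h : ℤ) (i : ℕ) : (quad s a g h i).coeff 2 = h := by
  unfold quad
  rw [coeff_add, coeff_add, coeff_C_mul, coeff_C_mul, coeff_X_pow, coeff_X,
    coeff_C_of_ne_zero two_ne_zero]
  norm_num

theorem lead (s : ℕ → ℤ) (k : ℕ) (a g h : ℤ) (hL : Lvl s k (Fq a g h)) :
    2 ^ k * Dk s k ∣ ((2 * k).factorial : ℤ) * h ^ k := by
  have hd : (∏ i ∈ range k, quad s a g h i).natDegree ≤ 2 * k := by
    refine (natDegree_prod_le _ _).trans ?_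
    calc ∑ i ∈ range k, (quad s a g h i).natDegree ≤ ∑ _i ∈ range k, 2 :=
          sum_le_sum fun i _ => natDegree_quad s a g h i
      _ = 2 * k := by simp [mul_comm]
  have hc : (∏ i ∈ range k, quad s a g h i).coeff (2 * k) = h ^ k := by
    have := coeff_prod_of_natDegree_le (range k) (quad s a g h) 2
      (fun i _ => natDegree_quad s a g h i)
    rw [card_range, mul_comm k 2] at this
    rw [this]
    simp [coeff_quad]
  have he : ∀ t : ℤ, 2 ^ k * Dk s k ∣ (∏ i ∈ range k, quad s a g h i).eval t := by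
    intro t
    have h1 : (∏ i ∈ range k, quad s a g h i).eval t = 2 ^ k * Nk s k (Fq a g h t) := by
      rw [eval_prod]
      simp only [eval_quad, prod_mul_distrib, Nk]
      simp
    rw [h1]
    exact mul_dvd_mul_left _ (hL t)
  have h2 := fwdDiff_coeff _ (2 * k) hd 0
  rw [hc] at h2
  rw [← h2, fwdDiff_iter_eq_sum_shift]
  refine dvd_sum fun j _ => ?_
  rw [zsmul_eq_mul]
  exact Dvd.dvd.mul_left (he _) _

end LEADaux

theorem stmt_LEAD : Stmt_LEAD := fun s k a g h hL => LEADaux.lead s k a g h hL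

end Pool.Agent.Work.MP_b29d7f_cvx
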