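import Pool.Agent.Work.MP_b29d7f_cvx.B_MERD

/-!
# LINK (4.2): all zones have the same vertex value
-/

namespace Pool.Agent.Work.MP_b29d7f_cvx

open Finset

namespace Link

/-- the bound of WB as a bound for `v_p log p` -/
theorem wb_bound (p : ℕ) (hp : 7 ≤ p) (k v : ℝ) (hk : 0 ≤ k)
    (h : v * (((p : ℝ) - 1) * (3 * p - 9)) ≤ 4 * k * p) :
    v * Real.log p ≤ (4 / 3 * k) * (Real.log p / p + 25 / 4 * (Real.log p / ((p : ℝ) * (p - 1)))) := by
  have h7 : (7 : ℝ) ≤ p := by exact_mod_cast hp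
  have hl : 0 ≤ Real.log p := Real.log_natCast_nonneg p
  have hpos : 0 < ((p : ℝ) - 1) * (3 * p - 9) := by
    apply mul_pos <;> linarith
  have h1 : v ≤ 4 * k * p / (((p : ℝ) - 1) * (3 * p - 9)) := (le_div_iff₀ hpos).mpr h
  have h2 : 4 * k * p / (((p : ℝ) - 1) * (3 * p - 9))
      ≤ (4 / 3 * k) * (1 / p + 25 / 4 * (1 / ((p : ℝ) * (p - 1)))) := by
    have hp0 : (0 : ℝ) < p := by linarith
    have hp1 : (0 : ℝ) < (p : ℝ) - 1 := by linarith
    have hp3 : (0 : ℝ) < 3 * (p : ℝ) - 9 := by linarith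
    have e1 : (4 / 3 * k) * (1 / p + 25 / 4 * (1 / ((p : ℝ) * (p - 1))))
        = (4 / 3 * k) * (p - 1 + 25 / 4) / (p * (p - 1)) := by
      field_simp
    rw [e1, div_le_div_iff₀ hpos (by positivity)]
    have e2 : 4 * k * p * (p * (p - 1)) = (4 * k * (p * (p - 1))) * p := by ring
    have e3 : (4 / 3 * k) * (p - 1 + 25 / 4) * (((p : ℝ) - 1) * (3 * p - 9))
        = (4 * k * (p - 1)) * ((p - 1 + 25 / 4) * (p - 3)) := by ring
    rw [e3]
    have e4 : 4 * k * p * (p * (p - 1)) = (4 * k * (p - 1)) * (p * p) := by ring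
    rw [e4]
    apply mul_le_mul_of_nonneg_left _ (by positivity)
    nlinarith
  have h3 := mul_le_mul_of_nonneg_right (h1.trans h2) hl
  refine h3.trans (le_of_eq ?_)
  ring

theorem v_small (p : ℕ) (hp : 7 ≤ p) (k : ℕ) (v : ℝ) (hv : 1 ≤ v)
    (h : v * (((p : ℝ) - 1) * (3 * p - 9)) ≤ 4 * k * p) : p ≤ 2 * k + 10 := by
  have h7 : (7 : ℝ) ≤ p := by exact_mod_cast hp
  have hk : (0 : ℝ) ≤ k := Nat.cast_nonneg k
  have hpos : 0 < ((p : ℝ) - 1) * (3 * p - 9) := by
    apply mul_pos <;> linarith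
  have h1 : ((p : ℝ) - 1) * (3 * p - 9) ≤ 4 * k * p := by nlinarith
  by_contra hcon
  push Not at hcon
  have h2 : (2 * k + 10 : ℝ) < p := by exact_mod_cast hcon
  nlinarith

/-- the logarithm of a natural number -/
theorem log_eq (n : ℕ) (hn : n ≠ 0) :
    Real.log n = ∑ p ∈ n.primeFactors, (padicValNat p n : ℝ) * Real.log p := by
  rw [Real.log_nat_eq_sum_factorization, Finsupp.sum, Nat.support_factorization]
  refine Finset.sum_congr rfl fun p hp => ?_
  rw [Nat.factorization_def n (Nat.prime_of_mem_primeFactors hp)]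

end Link

open Link Merd in
theorem stmt_LINK (hARC : Stmt_ARC) (hWB : Stmt_WB) (hWL : Stmt_WL) (hMERD : Stmt_MERD) :
    Stmt_LINK := by
  obtain ⟨C, hC0, hC⟩ := hMERD
  set CC : ℝ := 2 * (Real.log 2 + C) + 4 / 3 * (Real.log 12 + Real.log 4 + 25) + 1 with hCC
  refine ⟨⌈Real.exp (3 * CC)⌉₊ + 3 ^ 10, ?_⟩
  intro s C₀ hs k a₁ g₁ h₁ a₂ g₂ h₂ hk hLs hh₁ hh₂ hh₁' hh₂' hM hL1 hL2
  by_contra hne
  have hmono := hs.mono
  obtain ⟨-, -, -, -, -, hDpos, hDlog⟩ := hARC s C₀ hs
  have hk1 : 1 ≤ k := by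
    have : 1 ≤ 3 ^ 10 := by norm_num
    omega
  have hkR : (0 : ℝ) < k := by exact_mod_cast hk1
  have hlogk : 3 * CC ≤ Real.log k := by
    rw [Real.le_log_iff_exp_le hkR]
    have h1 := Nat.le_ceil (Real.exp (3 * CC))
    have h2 : (⌈Real.exp (3 * CC)⌉₊ : ℝ) ≤ k := by exact_mod_cast (by omega : ⌈Real.exp (3 * CC)⌉₊ ≤ k)
    linarith
  have hk10 : (3 : ℝ) ≤ (k : ℝ) ^ (1 / 10 : ℝ) := by
    have h1 : ((3 : ℝ) ^ (10 : ℕ)) ≤ k := by
      have : 3 ^ 10 ≤ k := by omega
      exact_mod_cast this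
    have h2 : (3 : ℝ) = ((3 : ℝ) ^ (10 : ℕ)) ^ (1 / 10 : ℝ) := by
      rw [← Real.rpow_natCast, ← Real.rpow_mul (by norm_num)]
      norm_num
    rw [h2]
    exact Real.rpow_le_rpow (by norm_num) h1 (by norm_num)
  set δ : ℤ := h₂ * Ev a₁ g₁ h₁ - h₁ * Ev a₂ g₂ h₂ with hδ
  have hδ0 : δ ≠ 0 := sub_ne_zero.mpr hne
  set M : ℤ := 2 * h₁ * h₂ * δ with hMdef
  have hM0 : M ≠ 0 := by
    rw [hMdef]
    exact mul_ne_zero (mul_ne_zero (mul_ne_zero two_ne_zero (by omega)) (by omega)) hδ0
  set D : ℕ := 15 * M.natAbs with hD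
  have hMn : 1 ≤ M.natAbs := Int.natAbs_pos.mpr hM0
  have hD1 : 1 ≤ D := by omega
  set X : ℝ := 2 * (k : ℝ) ^ (1 / 10 : ℝ) with hX
  have hX1 : 1 ≤ X := by rw [hX]; linarith
  have hDX : Real.log D ≤ X := by
    have h1 : (D : ℝ) = 15 * |((M : ℤ) : ℝ)| := by
      rw [hD]
      push_cast
      rw [Nat.cast_natAbs, Int.cast_abs]
    rw [h1, Real.log_mul (by norm_num) (abs_ne_zero.mpr (by exact_mod_cast hM0))]
    have h2 : Real.log 15 ≤ 3 := by
      rw [Real.log_le_iff_le_exp (by norm_num)]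
      have h3 : (2.7 : ℝ) ≤ Real.exp 1 := by
        have := Real.exp_one_gt_d9
        linarith
      have h4 : Real.exp 3 = Real.exp 1 ^ 3 := by
        rw [← Real.exp_nat_mul]; norm_num
      rw [h4]
      calc (15 : ℝ) ≤ 2.7 ^ 3 := by norm_num
        _ ≤ Real.exp 1 ^ 3 := by gcongr
    rw [hX]
    linarith
  have hlogX : Real.log X = Real.log 2 + 1 / 10 * Real.log k := by
    rw [hX, Real.log_mul (by norm_num) (by positivity), Real.log_rpow hkR]
  -- the number `D_k`
  set Q : ℕ := (Dk s k).natAbs with hQ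
  have hQpos : 0 < Q := Int.natAbs_pos.mpr (hDpos k).ne'
  have hQR : ((Q : ℕ) : ℝ) = (Dk s k : ℝ) := by
    rw [hQ, Nat.cast_natAbs, Int.cast_abs, abs_of_pos]
    exact_mod_cast hDpos k
  have hlogQ := (hDlog k hk1).1
  rw [← hQR, log_eq Q hQpos.ne'] at hlogQ
  have hval : ∀ p, (padicValInt p (Dk s k) : ℝ) = (padicValNat p Q : ℝ) := fun p => rfl
  -- primes of `D`
  have hA : ∑ p ∈ D.primeFactors, Real.log p * (padicValNat p Q : ℝ)
      ≤ k * (0.21 * Real.log k + 2 * (Real.log 2 + C)) := by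
    have h1 := hWL s k a₁ g₁ h₁ hmono hh₁ hL1 D.primeFactors
      (fun p hp => Nat.prime_of_mem_primeFactors hp)
    simp only [hval] at h1
    have h2 := hC D X hD1 hX1 hDX
    rw [hlogX] at h2
    have h3 : Real.log h₁ ≤ 1 / 100 * Real.log k := by
      rw [← Real.log_rpow hkR]
      exact Real.log_le_log (by exact_mod_cast (by omega : 0 < h₁)) hh₁'
    have h4 : 2 * (k : ℝ) * (∑ p ∈ D.primeFactors, Real.log p / ((p : ℝ) - 1))
        ≤ 2 * k * (Real.log 2 + 1 / 10 * Real.log k + C) := by gcongr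
    have h5 : (k : ℝ) * Real.log h₁ ≤ k * (1 / 100 * Real.log k) := by gcongr
    calc _ ≤ _ := h1
      _ ≤ 2 * k * (Real.log 2 + 1 / 10 * Real.log k + C) + k * (1 / 100 * Real.log k) := by
        linarith
      _ = _ := by ring
  -- the other primes
  have hB : ∑ p ∈ Q.primeFactors \ D.primeFactors, Real.log p * (padicValNat p Q : ℝ)
      ≤ k * (4 / 3 * Real.log k + 4 / 3 * (Real.log 12 + Real.log 4 + 25)) := by
    have hpB : ∀ p ∈ Q.primeFactors \ D.primeFactors, p.Prime ∧ 7 ≤ p ∧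
        (padicValNat p Q : ℝ) * (((p : ℝ) - 1) * (3 * p - 9)) ≤ 4 * k * p ∧
        1 ≤ (padicValNat p Q : ℝ) := by
      intro p hp
      obtain ⟨hp1, hp2⟩ := Finset.mem_sdiff.mp hp
      have hpp := Nat.prime_of_mem_primeFactors hp1
      have hpD : ¬ p ∣ D := fun h => hp2 (Nat.mem_primeFactors.mpr ⟨hpp, h, by omega⟩)
      have hpM : ¬ (p : ℤ) ∣ M := by
        intro h
        apply hpD
        exact dvd_mul_of_dvd_right (Int.natCast_dvd.mp h) 15
      have hp7 : 7 ≤ p := by
        by_contra hcon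
        push Not at hcon
        have h2 : p ≠ 2 := by
          rintro rfl
          apply hpM
          rw [hMdef, mul_assoc, mul_assoc]
          exact dvd_mul_right _ _
        have h3 : p ≠ 3 := by
          rintro rfl
          exact hpD (dvd_mul_of_dvd_left (by norm_num) _)
        have h5 : p ≠ 5 := by
          rintro rfl
          exact hpD (dvd_mul_of_dvd_left (by norm_num) _)
        interval_cases p
        · exact absurd hpp (by norm_num)
        · exact absurd hpp (by norm_num)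
        · exact h2 rfl
        · exact h3 rfl
        · exact absurd hpp (by norm_num)
        · exact h5 rfl
        · exact absurd hpp (by norm_num)
      refine ⟨hpp, hp7, ?_, ?_⟩
      · have h1 : ¬ (p : ℤ) ∣ h₁ := fun h => hpM (by
          rw [hMdef]
          exact dvd_mul_of_dvd_left (dvd_mul_of_dvd_left (dvd_mul_of_dvd_right h _) _) _)
        have h2 : ¬ (p : ℤ) ∣ h₂ := fun h => hpM (by
          rw [hMdef]
          exact dvd_mul_of_dvd_left (dvd_mul_of_dvd_right h _) _)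
        have h3 : ¬ (p : ℤ) ∣ δ := fun h => hpM (by
          rw [hMdef]
          exact dvd_mul_of_dvd_right h _)
        have := hWB s k p a₁ g₁ h₁ a₂ g₂ h₂ hmono hpp hp7 h1 h2 h3 hL1 hL2
        rw [hval] at this
        exact this
      · have : Fact p.Prime := ⟨hpp⟩
        have h1 : 1 ≤ padicValNat p Q :=
          one_le_padicValNat_of_dvd hQpos.ne' (Nat.dvd_of_mem_primeFactors hp1)
        exact_mod_cast h1
    set n : ℕ := 2 * k + 10 with hn
    have hle : ∀ p ∈ Q.primeFactors \ D.primeFactors, p ≤ n := fun p hp =>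
      v_small p (hpB p hp).2.1 k _ (hpB p hp).2.2.2 (hpB p hp).2.2.1
    have h1 : ∑ p ∈ Q.primeFactors \ D.primeFactors, Real.log p * (padicValNat p Q : ℝ)
        ≤ ∑ p ∈ Q.primeFactors \ D.primeFactors, (4 / 3 * (k : ℝ)) *
          (Real.log p / p + 25 / 4 * (Real.log p / ((p : ℝ) * (p - 1)))) := by
      refine Finset.sum_le_sum fun p hp => ?_
      rw [mul_comm]
      exact wb_bound p (hpB p hp).2.1 k _ hkR.le (hpB p hp).2.2.1
    have h2 : ∑ p ∈ Q.primeFactors \ D.primeFactors, Real.log p / p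
        ≤ Real.log k + Real.log 12 + Real.log 4 := by
      calc ∑ p ∈ Q.primeFactors \ D.primeFactors, Real.log p / p
          ≤ ∑ p ∈ n.primesLE, Real.log p / p := by
            refine Finset.sum_le_sum_of_subset_of_nonneg ?_ fun p _ _ =>
              div_nonneg (Real.log_natCast_nonneg p) (Nat.cast_nonneg p)
            intro p hp
            exact Nat.mem_primesLE.mpr ⟨hle p hp, (hpB p hp).1⟩
        _ ≤ Real.log n + Real.log 4 := Pool.Agent.Work.MP_b29d7f_nt.mertens_upper n (by omega)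
        _ ≤ Real.log k + Real.log 12 + Real.log 4 := by
            have h3 : (n : ℝ) ≤ k * 12 := by
              have : n ≤ k * 12 := by omega
              exact_mod_cast this
            have h4 : (0 : ℝ) < n := by
              have : 0 < n := by omega
              exact_mod_cast this
            have h5 := Real.log_le_log h4 h3
            rw [Real.log_mul hkR.ne' (by norm_num)] at h5
            linarith
    have h3 := sum_le' (Q.primeFactors \ D.primeFactors)
      (fun p hp => by have := (hpB p hp).2.1; omega)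
    rw [← Finset.mul_sum, Finset.sum_add_distrib, ← Finset.mul_sum] at h1
    refine h1.trans ?_
    have h4 : (4 / 3 * (k : ℝ)) * (∑ p ∈ Q.primeFactors \ D.primeFactors, Real.log p / p
        + 25 / 4 * ∑ p ∈ Q.primeFactors \ D.primeFactors, Real.log p / ((p : ℝ) * (p - 1)))
        ≤ (4 / 3 * (k : ℝ)) * (Real.log k + Real.log 12 + Real.log 4 + 25 / 4 * 4) := by
      gcongr
    refine h4.trans (le_of_eq ?_)
    ring
  -- comparison
  have htot : ∑ p ∈ Q.primeFactors, (padicValNat p Q : ℝ) * Real.log p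
      ≤ ∑ p ∈ D.primeFactors, Real.log p * (padicValNat p Q : ℝ)
        + ∑ p ∈ Q.primeFactors \ D.primeFactors, Real.log p * (padicValNat p Q : ℝ) := by
    have h1 : ∑ p ∈ Q.primeFactors, (padicValNat p Q : ℝ) * Real.log p
        = ∑ p ∈ Q.primeFactors, Real.log p * (padicValNat p Q : ℝ) :=
      Finset.sum_congr rfl fun p _ => mul_comm _ _
    rw [h1, ← Finset.sum_inter_add_sum_sdiff Q.primeFactors D.primeFactors]
    gcongr ?_ + _
    refine Finset.sum_le_sum_of_subset_of_nonneg Finset.inter_subset_right fun p _ _ =>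
      mul_nonneg (Real.log_natCast_nonneg p) (Nat.cast_nonneg _)
  have h6 : (k : ℝ) * (1.9 * Real.log k) - k ≤ k * (0.21 * Real.log k + 2 * (Real.log 2 + C))
      + k * (4 / 3 * Real.log k + 4 / 3 * (Real.log 12 + Real.log 4 + 25)) := by
    have h7 : (k : ℝ) * (1.9 * Real.log k) ≤ k * Real.log (s k) := by gcongr
    linarith
  have h7 : (k : ℝ) * (0.35 * Real.log k) < k * CC := by
    have h8 : (0 : ℝ) < k * Real.log k := by
      apply mul_pos hkR
      have : 0 < CC := by
        rw [hCC]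
        have := Real.log_nonneg (by norm_num : (1 : ℝ) ≤ 2)
        have := Real.log_nonneg (by norm_num : (1 : ℝ) ≤ 12)
        have := Real.log_nonneg (by norm_num : (1 : ℝ) ≤ 4)
        linarith
      linarith
    rw [hCC]
    nlinarith
  have h8 := lt_of_mul_lt_mul_left h7 hkR.le
  have : 0 < CC := by
    rw [hCC]
    have := Real.log_nonneg (by norm_num : (1 : ℝ) ≤ 2)
    have := Real.log_nonneg (by norm_num : (1 : ℝ) ≤ 12)
    have := Real.log_nonneg (by norm_num : (1 : ℝ) ≤ 4)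
    linarith
  linarith

end Pool.Agent.Work.MP_b29d7f_cvx
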