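import Pool.Agent.Work.MP_b29d7f_cvx.InterfaceC

/-! # Block LVL -/

namespace Pool.Agent.Work.MP_b29d7f_cvx

open Polynomial Finset

theorem LVL_eval (a g h t : ℤ) :
    (C (a : ℚ) + C (g : ℚ) * X + C ((h : ℚ) / 2) * (X * (X - 1))).eval (t : ℚ)
      = (Fq a g h t : ℚ) := by
  have e := two_mul_Fq a g h t
  have e' : (2 : ℚ) * (Fq a g h t : ℚ) = 2 * a + 2 * g * t + h * (t * (t - 1)) := by
    exact_mod_cast e
  simp only [eval_add, eval_mul, eval_C, eval_X, eval_sub, eval_one]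
  linarith

theorem LVL_deg (a g h : ℚ) :
    (C a + C g * X + C (h / 2) * (X * (X - 1))).natDegree ≤ 2 := by
  compute_degree

theorem stmt_LVL (h1 : Stmt_DVD) (h2 : Stmt_INTP) : Stmt_LVL := by
  intro s C₀ hC v Z k h hz hk hkZ t
  set Q : ℚ[X] := C ((s v : ℤ) : ℚ) + C ((gp s v : ℤ) : ℚ) * X + C ((h : ℚ) / 2) * (X * (X - 1)) with hQ
  set P : ℚ[X] := ∏ i ∈ range k, (Q - C ((s i : ℤ) : ℚ)) with hP
  have hdeg : P.natDegree ≤ 2 * k := by
    rw [hP]
    refine (natDegree_prod_le _ _).trans ?_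
    have : ∀ i ∈ range k, (Q - C ((s i : ℤ) : ℚ)).natDegree ≤ 2 := by
      intro i _
      refine (natDegree_sub_le _ _).trans ?_
      rw [natDegree_C]
      exact max_le (LVL_deg _ _ _) (by norm_num)
    refine (Finset.sum_le_sum this).trans ?_
    simp [mul_comm]
  have hev : ∀ t : ℤ, P.eval (t : ℚ) = ((Nk s k (Fz s v h t) : ℤ) : ℚ) := by
    intro t
    rw [hP, eval_prod, Nk, Int.cast_prod]
    refine Finset.prod_congr rfl fun i _ => ?_
    rw [eval_sub, eval_C, hQ, LVL_eval]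
    simp [Fz]
  have hsmall : ∀ t : ℕ, t ≤ 2 * k → ∃ z : ℤ, P.eval (t : ℚ) = (Dk s k : ℤ) * z := by
    intro t ht
    have e := hz t (ht.trans hkZ)
    obtain ⟨z, hz'⟩ := (h1 s C₀ hC).1 k (v + t)
    refine ⟨z, ?_⟩
    have e2 := hev (t : ℤ)
    rw [Int.cast_natCast] at e2
    rw [e2]
    have e3 : Fz s v h (t : ℤ) = s (v + t) := by rw [e]; rfl
    rw [e3, hz']
    push_cast
    ring
  obtain ⟨z, hz'⟩ := h2 P (2 * k) (Dk s k) hdeg hsmall t
  refine ⟨z, ?_⟩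
  rw [hev t] at hz'
  exact_mod_cast hz'

end Pool.Agent.Work.MP_b29d7f_cvx
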