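import Pool.Agent.Work.MP_b29d7f_cvx.InterfaceC

/-!
# Block MAINC: one set for all scales
-/

namespace Pool.Agent.Work.MP_b29d7f_cvx

open Finset
open Pool.Agent.Work.MP_b29d7f_half (HalfDense)

theorem stmt_MAINC (hONE : Stmt_ONE) (hUNB : Stmt_UNB) : Stmt_MAINC := by
  classical
  intro s C₀ hs hH
  obtain ⟨H, hone⟩ := hONE s C₀ hs hH
  obtain ⟨i₀, hi₀⟩ := hUNB s C₀ hs hH H
  set T : Finset (ℕ × ℤ × ℤ) := ({1, 2} : Finset ℕ) ×ˢ ((range i₀).image s ×ˢ Icc (1 : ℤ) H)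
    with hT
  let P : ℕ × ℤ × ℤ → ℕ → Prop := fun z n₀ => ∃ (x₀ : ℤ) (v K : ℕ), n₀ ≤ v ∧ n₀ ≤ K ∧ 0 ≤ x₀ ∧
    (∀ x : ℤ, Tt z.1 z.2.1 z.2.2 x < s K → Tt z.1 z.2.1 z.2.2 x ∈ Set.range s) ∧
    s v = Tt z.1 z.2.1 z.2.2 x₀ ∧ s (v + 1) = Tt z.1 z.2.1 z.2.2 (x₀ + 1)
  have h1 : ∀ n₀ : ℕ, ∃ z ∈ T, P z n₀ := by
    intro n₀
    obtain ⟨κ, X, b, x₀, v, K, hv, hK, hκ, hb1, hbH, hX0, hX, hXb, hx₀, hall, hsv, hsv1⟩ := hone n₀
    refine ⟨(κ, X, b), ?_, x₀, v, K, hv, hK, hx₀, hall, hsv, hsv1⟩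
    rw [hT, Finset.mem_product, Finset.mem_product, Finset.mem_Icc, Finset.mem_image]
    refine ⟨by simpa using hκ, ?_, hb1, hbH⟩
    obtain ⟨i, hi⟩ := hX
    obtain ⟨j, hj⟩ := hXb
    refine ⟨i, ?_, hi⟩
    rw [Finset.mem_range]
    by_contra hlt
    push Not at hlt
    have h2 := hi₀ i hlt
    have hij : i < j := by
      by_contra hle
      push Not at hle
      have := hs.mono.monotone hle
      omega
    have h3 : s (i + 1) ≤ s j := hs.mono.monotone (by omega)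
    unfold gp at h2
    omega
  have h2 : ∃ z ∈ T, ∀ n₀ : ℕ, P z n₀ := by
    by_contra hcon
    push Not at hcon
    choose! n hn using hcon
    obtain ⟨z, hz, hP⟩ := h1 (T.sup n)
    refine hn z hz ?_
    obtain ⟨x₀, v, K, hv, hK, hrest⟩ := hP
    have hle : n z ≤ T.sup n := Finset.le_sup hz
    exact ⟨x₀, v, K, hle.trans hv, hle.trans hK, hrest⟩
  obtain ⟨⟨κ, X, b⟩, hz, hP⟩ := h2
  rw [hT, Finset.mem_product, Finset.mem_product, Finset.mem_Icc] at hz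
  obtain ⟨hκ, _, hb1, _⟩ := hz
  have hκ' : κ = 1 ∨ κ = 2 := by simpa using hκ
  have hbig : ∀ y : ℤ, ∃ n : ℕ, y < s n := by
    intro y
    have h3 : ∀ k : ℕ, (k : ℤ) ≤ s k := by
      intro k
      induction k with
      | zero => rw [hs.zero]; simp
      | succ k ih =>
        have := hs.mono (Nat.lt_succ_self k)
        push_cast
        have e : s (k + 1) = s k.succ := rfl
        omega
    refine ⟨y.toNat + 1, ?_⟩
    have := h3 (y.toNat + 1)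
    have h4 := Int.self_le_toNat y
    push_cast at this
    omega
  refine ⟨κ, X, b, hκ', hb1, ?_, ?_⟩
  · intro x
    obtain ⟨n, hn⟩ := hbig (Tt κ X b x)
    obtain ⟨x₀, v, K, hv, hK, _, hall, _⟩ := hP n
    exact hall x (lt_of_lt_of_le hn (hs.mono.monotone hK))
  · obtain ⟨n, hn⟩ := hbig (max (Tt κ X b 0) (Tt κ X b 1))
    obtain ⟨x₀, v, K, hv, hK, hx₀, _, hsv, hsv1⟩ := hP n
    have h3 : max (Tt κ X b 0) (Tt κ X b 1) < s v := lt_of_lt_of_le hn (hs.mono.monotone hv)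
    rw [max_lt_iff] at h3
    have hx2 : 2 ≤ x₀ := by
      by_contra hlt
      push Not at hlt
      have : x₀ = 0 ∨ x₀ = 1 := by omega
      rcases this with rfl | rfl
      · rw [hsv] at h3
        exact lt_irrefl _ h3.1
      · rw [hsv] at h3
        exact lt_irrefl _ h3.2
    refine ⟨v, x₀.toNat, by omega, ?_, ?_⟩
    · rw [Int.toNat_of_nonneg hx₀]
      exact hsv
    · rw [Int.toNat_of_nonneg hx₀]
      exact hsv1

end Pool.Agent.Work.MP_b29d7f_cvx
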