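import Pool.Agent.Work.MP_b29d7f_cvx.Interface2

/-!
# Block MAJ: few exceptional pairs, most terms lie on a parabola
-/

namespace Pool.Agent.Work.MP_b29d7f_cvx

open Finset
open scoped Classical

/-- the algebra of MAJ -/
theorem maj_alg {s : ℕ → ℤ} {i₀ j : ℕ} (hi : 1 ≤ i₀) (hij : i₀ < j) (h1 : Rel s i₀ j)
    (h2 : Rel s i₀ (j + 1)) (h3 : Rel s (i₀ + 1) j) :
    2 * s j = F2 s i₀ (gp s i₀ - gp s (i₀ - 1)) j := by
  unfold Rel at h1 h2 h3
  have e1 : i₀ + 1 - 1 = i₀ := by omega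
  rw [e1] at h3
  have gj : s (j + 1) = s j + gp s j := by unfold gp; ring
  have gi : s (i₀ + 1) = s i₀ + gp s i₀ := by unfold gp; ring
  rw [gj] at h2
  rw [gi] at h3
  push_cast at h2 h3
  set g := gp s (i₀ - 1) with hg
  set k : ℤ := (j : ℤ) - i₀ with hk
  have hk0 : 0 < k := by
    have : (i₀ : ℤ) < j := by exact_mod_cast hij
    omega
  have hj : (j : ℤ) = k + i₀ := by omega
  rw [hj] at h2 h3
  have h4 : (k + 1) * (gp s (j + 1) + g) = (k + 1) * (gp s j + gp s i₀) := by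
    linear_combination h3 - h2
  have h5 : gp s (j + 1) + g = gp s j + gp s i₀ := mul_left_cancel₀ (by omega) h4
  have h6 : gp s j = g + (k + 1) * (gp s i₀ - g) := by
    linear_combination h2 - h1 + (k + 1) * h5
  unfold F2
  rw [← hg, ← hk]
  linear_combination h1 + k * h6

theorem stmt_MAJ : Stmt_MAJ := by
  intro s hs hgp a x hx hX
  -- rows
  set E : ℕ → ℕ := fun i => ((Icc a (a + 32 * x)).filter fun j => i < j ∧ ¬ Rel s i j).card
    with hE
  have hx' : (10 : ℝ) ^ 6 ≤ x := by exact_mod_cast hx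
  have hsum : ((∑ i ∈ Icc (a + 1) (a + 8 * x + 1), E i : ℕ) : ℝ) ≤ 1 / 100 * (x : ℝ) ^ 2 := by
    have h1 := hX ((Icc (a + 1) (a + 8 * x + 1) ×ˢ Icc a (a + 32 * x)).filter
      fun z => z.1 < z.2 ∧ ¬ Rel s z.1 z.2) ?_
    · rw [Finset.card_filter, Finset.sum_product] at h1
      have h2 : ∑ i ∈ Icc (a + 1) (a + 8 * x + 1), E i =
          ∑ i ∈ Icc (a + 1) (a + 8 * x + 1), ∑ j ∈ Icc a (a + 32 * x),
            if i < j ∧ ¬ Rel s i j then 1 else 0 := by
        refine Finset.sum_congr rfl fun i _ => ?_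
        exact Finset.card_filter _ _
      rw [h2]
      exact h1
    · intro z hz
      rw [Finset.mem_filter, Finset.mem_product, Finset.mem_Icc, Finset.mem_Icc] at hz
      exact ⟨by omega, hz.2.1, by omega, hz.2.2⟩
  obtain ⟨i₀, hi₀, hE₀⟩ : ∃ i₀ ∈ Icc (a + 1) (a + 8 * x), (E i₀ : ℝ) + E (i₀ + 1) ≤ x / 400 := by
    by_contra hcon
    push Not at hcon
    have h1 : ∑ i ∈ Icc (a + 1) (a + 8 * x), ((x : ℝ) / 400) <
        ∑ i ∈ Icc (a + 1) (a + 8 * x), ((E i : ℝ) + E (i + 1)) := by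
      refine Finset.sum_lt_sum_of_nonempty ⟨a + 1, ?_⟩ hcon
      rw [Finset.mem_Icc]
      omega
    rw [Finset.sum_const, Nat.card_Icc, nsmul_eq_mul, Finset.sum_add_distrib] at h1
    have h2 : ∑ i ∈ Icc (a + 1) (a + 8 * x), (E i : ℝ) ≤
        ((∑ i ∈ Icc (a + 1) (a + 8 * x + 1), E i : ℕ) : ℝ) := by
      push_cast
      refine Finset.sum_le_sum_of_subset_of_nonneg ?_ fun _ _ _ => Nat.cast_nonneg _
      intro i hi
      rw [Finset.mem_Icc] at hi ⊢
      omega
    have h3 : ∑ i ∈ Icc (a + 1) (a + 8 * x), (E (i + 1) : ℝ) ≤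
        ((∑ i ∈ Icc (a + 1) (a + 8 * x + 1), E i : ℕ) : ℝ) := by
      push_cast
      rw [← Finset.sum_image (s := Icc (a + 1) (a + 8 * x)) (g := fun i => i + 1)
        (f := fun i => (E i : ℝ)) (fun i _ j _ h => by simpa using h)]
      refine Finset.sum_le_sum_of_subset_of_nonneg ?_ fun _ _ _ => Nat.cast_nonneg _
      intro i hi
      rw [Finset.mem_image] at hi
      obtain ⟨j, hj, rfl⟩ := hi
      rw [Finset.mem_Icc] at hj ⊢
      omega
    have e : a + 8 * x + 1 - (a + 1) = 8 * x := by omega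
    rw [e] at h1
    push_cast at h1 h2 h3 hsum
    nlinarith
  rw [Finset.mem_Icc] at hi₀
  set B₀ : Finset ℕ := (Icc a (a + 32 * x)).filter fun j => i₀ < j ∧ ¬ Rel s i₀ j with hB₀
  set B₁ : Finset ℕ := (Icc a (a + 32 * x)).filter fun j => i₀ + 1 < j ∧ ¬ Rel s (i₀ + 1) j
    with hB₁
  have hE0 : E i₀ = B₀.card := rfl
  have hE1 : E (i₀ + 1) = B₁.card := rfl
  refine ⟨i₀, gp s i₀ - gp s (i₀ - 1), B₀ ∪ B₀.image (fun j => j - 1) ∪ B₁ ∪ {a + 32 * x},
    hi₀.1, hi₀.2, ?_, ?_, ?_⟩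
  · have := hgp (show i₀ - 1 ≤ i₀ by omega)
    omega
  · have h1 : (B₀ ∪ B₀.image (fun j => j - 1) ∪ B₁ ∪ {a + 32 * x}).card ≤
        B₀.card + B₀.card + B₁.card + 1 := by
      refine (Finset.card_union_le _ _).trans ?_
      refine Nat.add_le_add ?_ (by simp)
      refine (Finset.card_union_le _ _).trans ?_
      refine Nat.add_le_add ?_ le_rfl
      refine (Finset.card_union_le _ _).trans ?_
      exact Nat.add_le_add le_rfl Finset.card_image_le
    rw [hE0, hE1] at hE₀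
    have h2 : (B₀.card : ℝ) + B₀.card + B₁.card + 1 ≤ x / 200 + 1 := by
      have : (0 : ℝ) ≤ B₁.card := Nat.cast_nonneg _
      linarith
    have h3 : (30 : ℝ) * ((B₀ ∪ B₀.image (fun j => j - 1) ∪ B₁ ∪ {a + 32 * x}).card : ℝ) ≤ x := by
      have h4 : ((B₀ ∪ B₀.image (fun j => j - 1) ∪ B₁ ∪ {a + 32 * x}).card : ℝ) ≤
          (B₀.card : ℝ) + B₀.card + B₁.card + 1 := by exact_mod_cast h1
      linarith
    exact_mod_cast h3
  · intro j hj hj' hjB
    simp only [Finset.mem_union, not_or, Finset.mem_singleton] at hjB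
    obtain ⟨⟨⟨hj1, hj2⟩, hj3⟩, hj4⟩ := hjB
    rcases Nat.lt_or_ge i₀ j with hlt | hge
    · have hR1 : Rel s i₀ j := by
        by_contra hno
        exact hj1 (Finset.mem_filter.mpr ⟨Finset.mem_Icc.mpr ⟨by omega, by omega⟩, hlt, hno⟩)
      have hR2 : Rel s i₀ (j + 1) := by
        by_contra hno
        refine hj2 (Finset.mem_image.mpr ⟨j + 1, ?_, by omega⟩)
        exact Finset.mem_filter.mpr ⟨Finset.mem_Icc.mpr ⟨by omega, by omega⟩, by omega, hno⟩
      have hR3 : Rel s (i₀ + 1) j := by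
        rcases Nat.lt_or_ge (i₀ + 1) j with h5 | h5
        · by_contra hno
          exact hj3 (Finset.mem_filter.mpr ⟨Finset.mem_Icc.mpr ⟨by omega, by omega⟩, h5, hno⟩)
        · have h6 : j = i₀ + 1 := by omega
          subst h6
          unfold Rel
          ring
      exact maj_alg (by omega) hlt hR1 hR2 hR3
    · have h6 : j = i₀ := by omega
      subst h6
      unfold F2
      ring

end Pool.Agent.Work.MP_b29d7f_cvx
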