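import Pool.Agent.Work.MP_b29d7f_cvx.Interface
import Mathlib.NumberTheory.Harmonic.Bounds

/-!
# MASS: the mass of a place
-/

namespace Pool.Agent.Work.MP_b29d7f_cvx

open Finset
open Pool.Agent.Work.MP_b29d7f_nt (IsPOrdering HasSimultaneousOrdering PS vd ld tv)
open Pool.Agent.Work.MP_b29d7f_half (Ord A wv lD HalfDense)
open Pool.Agent.Work.MP_b29d7f_sep (nv EW EL)

private theorem mass_harm (g : ℕ) :
    ∑ i ∈ range g, (1 : ℝ) / ((g : ℝ) - i) ≤ 1 + Real.log g := by
  have h1 : ∑ i ∈ range g, (1 : ℝ) / ((g : ℝ) - i) = ∑ i ∈ range g, (1 : ℝ) / ((i : ℝ) + 1) := by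
    rw [← Finset.sum_range_reflect]
    apply Finset.sum_congr rfl
    intro i hi
    rw [mem_range] at hi
    congr 1
    have : ((g - 1 - i : ℕ) : ℝ) = (g : ℝ) - 1 - i := by
      have e : (g - 1 - i) + (i + 1) = g := by omega
      have e2 : (((g - 1 - i) + (i + 1) : ℕ) : ℝ) = (g : ℝ) := by rw [e]
      push_cast at e2
      linarith
    rw [this]
    ring
  rw [h1]
  have h2 := harmonic_le_one_add_log g
  have h3 : ((harmonic g : ℚ) : ℝ) = ∑ i ∈ range g, (1 : ℝ) / ((i : ℝ) + 1) := by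
    unfold harmonic
    push_cast
    apply Finset.sum_congr rfl
    intro i _
    rw [one_div]
  rw [← h3]
  exact h2

private theorem mass_ld {s : ℕ → ℤ} {C₀ : ℝ} (hC : Cvx s C₀) {i j : ℕ} (h : i < j) :
    ld (s j) (s i) = Real.log ((s j : ℝ) - s i) := by
  unfold ld
  have h1 := hC.mono h
  have h2 : (0 : ℝ) < ((s j - s i : ℤ) : ℝ) := by exact_mod_cast (by omega : 0 < s j - s i)
  rw [abs_of_pos h2]
  push_cast
  rfl

theorem stmt_MASS (h1 : Stmt_CVF) : Stmt_MASS := by
  intro s C₀ hC g hg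
  obtain ⟨-, -, -, hfour, -, hsix, -, hgp, -⟩ := h1 s hC.zero hC.mono hC.gp_mono
  have e1 : lD s (g + 1) = Lg s (g + 1) +
      ∑ i ∈ range g, Real.log ((s (g + 1) : ℝ) - s (i + 1)) := by
    unfold lD
    rw [Finset.sum_range_succ', add_comm]
    congr 1
    · rw [mass_ld hC (Nat.succ_pos g), hC.zero]
      unfold Lg
      simp
    · apply Finset.sum_congr rfl
      intro i hi
      rw [mem_range] at hi
      exact mass_ld hC (by omega)
  have e2 : lD s g = ∑ i ∈ range g, Real.log ((s g : ℝ) - s i) := by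
    unfold lD
    apply Finset.sum_congr rfl
    intro i hi
    rw [mem_range] at hi
    exact mass_ld hC hi
  have hsg : (0 : ℝ) < s g := by exact_mod_cast hC.pos hg
  have e3 : ∀ i ∈ range g, Real.log ((s (g + 1) : ℝ) - s (i + 1)) - Real.log ((s g : ℝ) - s i) ≤
      ((s (2 * g) : ℝ) / s g) * (1 / ((g : ℝ) - i)) := by
    intro i hi
    rw [mem_range] at hi
    have a1 : (0 : ℝ) < (s g : ℝ) - s i := by
      have := hC.mono hi
      have : (s i : ℝ) < s g := by exact_mod_cast this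
      linarith
    have a2 : (0 : ℝ) < (s (g + 1) : ℝ) - s (i + 1) := by
      have := hC.mono (show i + 1 < g + 1 by omega)
      have : (s (i + 1) : ℝ) < s (g + 1) := by exact_mod_cast this
      linarith
    rw [← Real.log_div a2.ne' a1.ne']
    have a3 := Real.log_le_sub_one_of_pos (div_pos a2 a1)
    have a4 : ((s (g + 1) : ℝ) - s (i + 1)) / ((s g : ℝ) - s i) - 1 ≤
        (gp s g : ℝ) / ((s g : ℝ) - s i) := by
      rw [div_sub_one a1.ne']
      apply div_le_div_of_nonneg_right _ a1.le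
      unfold gp
      have : (s i : ℝ) ≤ s (i + 1) := by exact_mod_cast hC.mono.monotone (Nat.le_succ i)
      push_cast
      linarith
    have a5 : ((g : ℝ) - i) * s g ≤ g * ((s g : ℝ) - s i) := by
      have := hfour i g hi.le
      exact_mod_cast this
    have a6 : (g : ℝ) * gp s g ≤ s (2 * g) := by exact_mod_cast hsix g
    have a7 : (0 : ℝ) < (g : ℝ) - i := by
      have : (i : ℝ) < g := by exact_mod_cast hi
      linarith
    have a8 : (gp s g : ℝ) / ((s g : ℝ) - s i) ≤ ((s (2 * g) : ℝ) / s g) * (1 / ((g : ℝ) - i)) := by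
      have a9 : (0 : ℝ) ≤ gp s g := by
        have := hgp g
        exact_mod_cast (by omega : 0 ≤ gp s g)
      have a10 : ((s (2 * g) : ℝ) / s g) * (1 / ((g : ℝ) - i)) =
          (s (2 * g) : ℝ) / (((g : ℝ) - i) * s g) := by
        field_simp
      rw [a10, div_le_div_iff₀ a1 (mul_pos a7 hsg)]
      have a11 : (gp s g : ℝ) * (((g : ℝ) - i) * s g) ≤ gp s g * (g * ((s g : ℝ) - s i)) :=
        mul_le_mul_of_nonneg_left a5 a9
      have a12 : (g : ℝ) * gp s g * ((s g : ℝ) - s i) ≤ s (2 * g) * ((s g : ℝ) - s i) :=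
        mul_le_mul_of_nonneg_right a6 a1.le
      nlinarith [a11, a12]
    linarith
  have e4 : lD s (g + 1) - lD s g = Lg s (g + 1) +
      ∑ i ∈ range g, (Real.log ((s (g + 1) : ℝ) - s (i + 1)) - Real.log ((s g : ℝ) - s i)) := by
    rw [e1, e2, Finset.sum_sub_distrib]
    ring
  rw [e4]
  have e5 := Finset.sum_le_sum e3
  rw [← Finset.mul_sum] at e5
  have e6 : (0 : ℝ) ≤ (s (2 * g) : ℝ) / s g := by
    apply div_nonneg _ hsg.le
    exact_mod_cast hC.nonneg (2 * g)
  have e7 := mul_le_mul_of_nonneg_left (mass_harm g) e6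
  linarith

end Pool.Agent.Work.MP_b29d7f_cvx
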