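import Pool.Agent.Work.MP_b29d7f_cvx.Interface2

/-!
# Block MAT (3.2): the pairs across all the places of a central window
-/

namespace Pool.Agent.Work.MP_b29d7f_cvx

open Finset
open scoped Classical
open Pool.Agent.Work.MP_b29d7f_nt (IsPOrdering HasSimultaneousOrdering PS vd ld tv)
open Pool.Agent.Work.MP_b29d7f_half (Ord A wv lD HalfDense)
open Pool.Agent.Work.MP_b29d7f_sep (nv EW EL)

/-- there is a place where `w` grows -/
theorem mat_place {p : ℕ} {s : ℕ → ℤ} {u k : ℕ} (hk : u ≤ k) (h : nv p s u < nv p s k) :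
    ∃ g, u ≤ g ∧ g < k ∧ om p s g ≠ 0 := by
  by_contra hcon
  push Not at hcon
  have h1 : ∀ t, u + t ≤ k → nv p s (u + t) ≤ nv p s u := by
    intro t
    induction t with
    | zero => intro _; exact le_rfl
    | succ t ih =>
      intro ht
      have h2 := hcon (u + t) (by omega) (by omega)
      have h3 := ih (by omega)
      unfold om at h2
      have e1 : u + (t + 1) = u + t + 1 := by ring
      rw [e1]
      omega
  have := h1 (k - u) (by omega)
  have e : u + (k - u) = k := by omega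
  rw [e] at this
  omega

theorem mat_sum_om {p : ℕ} {s : ℕ → ℤ} (hm : Monotone (nv p s)) (u m : ℕ) :
    ∑ g ∈ Ico u (u + m), (om p s g : ℝ) = (nv p s (u + m) : ℝ) - nv p s u := by
  have h1 : ∀ g, (om p s g : ℝ) = (nv p s (g + 1) : ℝ) - nv p s g := by
    intro g
    unfold om
    rw [Nat.cast_sub (hm (Nat.le_succ g))]
  simp_rw [h1]
  rw [Finset.sum_Ico_eq_sum_range, Nat.add_sub_cancel_left]
  have h2 := Finset.sum_range_sub (fun t => (nv p s (u + t) : ℝ)) m
  simp only [Nat.add_zero] at h2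
  rw [← h2]
  refine Finset.sum_congr rfl fun t _ => ?_
  rfl

/-- **MAT** -/
theorem stmt_MAT (hPAD : Stmt_PAD) (hPAE : Stmt_PAE) (hDFC : Stmt_DFC) : Stmt_MAT := by
  intro s C₀ hs p hp u m hc hlt
  obtain ⟨hmono, -, -, hF2⟩ := hPAD s C₀ hs p hp
  obtain ⟨hsymm, -, hz, -, hEW, -, hgr⟩ := hPAE s C₀ hs p hp
  obtain ⟨-, hPT, -⟩ := hDFC s C₀ hs p hp u m
  set W : ℝ := (nv p s (u + m) : ℝ) - nv p s u with hW
  have hW0 : 0 < W := by
    rw [hW, sub_pos]
    exact_mod_cast hlt
  set v := u + m with hv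
  -- the main term
  have hMn : W * (1 / 2 - 1 / 10 ^ 10) * m ≤ Mn p s u m := by
    have h1 : ∀ g ∈ Ico u (u + m), (om p s g : ℝ) * ((1 / 2 - 1 / 10 ^ 10) * m) ≤
        (om p s g : ℝ) * min ((u : ℝ) + m - g) ((g : ℝ) + 1 - u) := by
      intro g hg
      rw [Finset.mem_Ico] at hg
      by_cases h0 : om p s g = 0
      · rw [h0]; simp
      · have h2 := abs_le.mp (hc g hg.1 hg.2 h0)
        refine mul_le_mul_of_nonneg_left (le_min ?_ ?_) (Nat.cast_nonneg _)
        · linarith [h2.2]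
        · linarith [h2.1]
    have h2 := Finset.sum_le_sum h1
    rw [← Finset.sum_mul, mat_sum_om hmono] at h2
    unfold Mn
    calc W * (1 / 2 - 1 / 10 ^ 10) * m = W * ((1 / 2 - 1 / 10 ^ 10) * m) := by ring
      _ ≤ _ := h2
  -- the indices in the middle
  set Mid : Finset ℕ := (Icc u v).filter fun k => nv p s u < nv p s k ∧ nv p s k < nv p s v with hMid
  have hcard : (Mid.card : ℝ) ≤ 2 / 10 ^ 10 * m := by
    rcases Mid.eq_empty_or_nonempty with h0 | h0
    · rw [h0]
      simp only [Finset.card_empty, Nat.cast_zero]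
      positivity
    · set k₀ := Mid.min' h0 with hk0
      set k₁ := Mid.max' h0 with hk1
      have hk0m : k₀ ∈ Mid := Mid.min'_mem h0
      have hk1m : k₁ ∈ Mid := Mid.max'_mem h0
      rw [hMid, Finset.mem_filter, Finset.mem_Icc] at hk0m hk1m
      have h01 : k₀ ≤ k₁ := Mid.min'_le _ (Mid.max'_mem h0)
      obtain ⟨g, hg1, hg2, hg3⟩ := mat_place hk0m.1.1 hk0m.2.1
      obtain ⟨g', hg1', hg2', hg3'⟩ := mat_place hk1m.1.2 hk1m.2.2
      have e1 := abs_le.mp (hc g hg1 (by omega) hg3)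
      have e2 := abs_le.mp (hc g' (by omega) hg2' hg3')
      have hsub : Mid ⊆ Icc k₀ k₁ := fun k hk =>
        Finset.mem_Icc.mpr ⟨Mid.min'_le k hk, Mid.le_max' k hk⟩
      have h2 := Finset.card_le_card hsub
      rw [Nat.card_Icc] at h2
      have h3 : (Mid.card : ℝ) ≤ (k₁ : ℝ) + 1 - k₀ := by
        have : (Mid.card : ℝ) ≤ ((k₁ + 1 - k₀ : ℕ) : ℝ) := by exact_mod_cast h2
        rw [Nat.cast_sub (by omega)] at this
        push_cast at this
        exact this
      have h4 : ((g : ℝ) + 1) ≤ k₀ := by exact_mod_cast hg2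
      have h5 : (k₁ : ℝ) ≤ g' := by exact_mod_cast hg1'
      linarith [e1.1, e2.2]
  have hF2R : ∀ k ∈ Icc u v, ∑ i ∈ Ico u k, (vl p s k i : ℝ) + ∑ j ∈ Ioc k v, (vl p s j k : ℝ) ≤
      W := by
    intro k hk
    rw [Finset.mem_Icc] at hk
    have h1 := hF2 u v k hk.1 hk.2
    have h2 : (Icc u v).erase k = Ico u k ∪ Ioc k v := by
      ext l
      simp only [Finset.mem_erase, Finset.mem_Icc, Finset.mem_union, Finset.mem_Ico,
        Finset.mem_Ioc]
      omega
    have h3 : Disjoint (Ico u k) (Ioc k v) := by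
      rw [Finset.disjoint_left]
      intro l hl hl'
      rw [Finset.mem_Ico] at hl
      rw [Finset.mem_Ioc] at hl'
      omega
    rw [h2, Finset.sum_union h3] at h1
    have h4 : ∑ j ∈ Ioc k v, (vl p s j k : ℝ) = ∑ j ∈ Ioc k v, (vl p s k j : ℝ) :=
      Finset.sum_congr rfl fun j _ => by rw [hsymm]
    rw [h4, hW]
    have h5 : (nv p s u : ℝ) + (∑ i ∈ Ico u k, (vl p s k i : ℝ) + ∑ j ∈ Ioc k v, (vl p s k j : ℝ)) ≤
        nv p s v := by exact_mod_cast h1
    linarith
  -- exchange of the sums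
  have hex : ∀ f : ℕ → ℕ → ℝ, ∑ j ∈ Ico u (v + 1), ∑ i ∈ Ico u j, f j i =
      ∑ i ∈ Icc u v, ∑ j ∈ Ioc i v, f j i := by
    intro f
    refine Finset.sum_comm' fun j i => ?_
    simp only [Finset.mem_Ico, Finset.mem_Icc, Finset.mem_Ioc]
    omega
  have hEW' := hEW u m
  rw [← hv] at hEW'
  -- the pointwise bound
  have hpt : ∀ i ∈ Icc u v, ∀ j ∈ Ioc i v, (vl p s j i : ℝ) ≤
      (if nv p s i = nv p s u ∧ nv p s j = nv p s v then (vl p s j i : ℝ) else 0) +
        ((if i ∈ Mid then (vl p s j i : ℝ) else 0) + (if j ∈ Mid then (vl p s j i : ℝ) else 0)) := by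
    intro i hi j hj
    have hi' := Finset.mem_Icc.mp hi
    have hj' := Finset.mem_Ioc.mp hj
    have hnn : (0 : ℝ) ≤ vl p s j i := Nat.cast_nonneg _
    by_cases h1 : nv p s i = nv p s u ∧ nv p s j = nv p s v
    · rw [if_pos h1]
      have : (0 : ℝ) ≤ (if i ∈ Mid then (vl p s j i : ℝ) else 0) +
          (if j ∈ Mid then (vl p s j i : ℝ) else 0) := by
        split_ifs <;> positivity
      linarith
    rw [if_neg h1]
    by_cases h2 : i ∈ Mid
    · rw [if_pos h2]
      split_ifs <;> linarith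
    rw [if_neg h2]
    by_cases h3 : j ∈ Mid
    · rw [if_pos h3]
      linarith
    rw [if_neg h3]
    have m1 := hmono hi'.1
    have m2 := hmono hi'.2
    have m3 := hmono (hi'.1.trans hj'.1.le)
    have m4 := hmono hj'.2
    have m5 := hmono hj'.1.le
    rw [hMid, Finset.mem_filter] at h2 h3
    have h2' : ¬ (nv p s u < nv p s i ∧ nv p s i < nv p s v) := fun h => h2 ⟨hi, h⟩
    have h3' : ¬ (nv p s u < nv p s j ∧ nv p s j < nv p s v) := fun h =>
      h3 ⟨Finset.mem_Icc.mpr ⟨hi'.1.trans hj'.1.le, hj'.2⟩, h⟩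
    have heq : nv p s j = nv p s i := by omega
    have h4 := hgr i j i j le_rfl hj'.1 le_rfl heq
    have h5 := (hz j i (by omega)).mpr h4
    rw [h5]
    simp
  have hsum : EW p s u m ≤
      ∑ i ∈ Icc u v, ∑ j ∈ Ioc i v,
        (if nv p s i = nv p s u ∧ nv p s j = nv p s v then (vl p s j i : ℝ) else 0) +
      (Mid.card : ℝ) * W := by
    rw [hEW', hex]
    have h1 : ∑ i ∈ Icc u v, ∑ j ∈ Ioc i v, (vl p s j i : ℝ) ≤
        ∑ i ∈ Icc u v, ∑ j ∈ Ioc i v,
          ((if nv p s i = nv p s u ∧ nv p s j = nv p s v then (vl p s j i : ℝ) else 0) +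
          ((if i ∈ Mid then (vl p s j i : ℝ) else 0) +
            (if j ∈ Mid then (vl p s j i : ℝ) else 0))) :=
      Finset.sum_le_sum fun i hi => Finset.sum_le_sum fun j hj => hpt i hi j hj
    refine h1.trans ?_
    simp_rw [Finset.sum_add_distrib]
    have h2 : ∑ i ∈ Icc u v, ∑ j ∈ Ioc i v, (if i ∈ Mid then (vl p s j i : ℝ) else 0) =
        ∑ k ∈ Mid, ∑ j ∈ Ioc k v, (vl p s j k : ℝ) := by
      have h3 : ∀ i ∈ Icc u v, ∑ j ∈ Ioc i v, (if i ∈ Mid then (vl p s j i : ℝ) else 0) =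
          if i ∈ Mid then ∑ j ∈ Ioc i v, (vl p s j i : ℝ) else 0 := by
        intro i _
        split_ifs
        · rfl
        · simp
      rw [Finset.sum_congr rfl h3, ← Finset.sum_filter]
      refine Finset.sum_congr ?_ fun _ _ => rfl
      ext k
      rw [Finset.mem_filter]
      refine ⟨fun h => h.2, fun h => ⟨?_, h⟩⟩
      rw [hMid, Finset.mem_filter] at h
      exact h.1
    have h4 : ∑ i ∈ Icc u v, ∑ j ∈ Ioc i v, (if j ∈ Mid then (vl p s j i : ℝ) else 0) =
        ∑ k ∈ Mid, ∑ i ∈ Ico u k, (vl p s k i : ℝ) := by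
      rw [← hex (fun j i => if j ∈ Mid then (vl p s j i : ℝ) else 0)]
      have h3 : ∀ j ∈ Ico u (v + 1), ∑ i ∈ Ico u j, (if j ∈ Mid then (vl p s j i : ℝ) else 0) =
          if j ∈ Mid then ∑ i ∈ Ico u j, (vl p s j i : ℝ) else 0 := by
        intro i _
        split_ifs
        · rfl
        · simp
      rw [Finset.sum_congr rfl h3, ← Finset.sum_filter]
      refine Finset.sum_congr ?_ fun _ _ => rfl
      ext k
      rw [Finset.mem_filter]
      refine ⟨fun h => h.2, fun h => ⟨?_, h⟩⟩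
      rw [hMid, Finset.mem_filter, Finset.mem_Icc] at h
      rw [Finset.mem_Ico]
      omega
    rw [h2, h4, ← Finset.sum_add_distrib]
    have h5 : ∑ k ∈ Mid, (∑ j ∈ Ioc k v, (vl p s j k : ℝ) + ∑ i ∈ Ico u k, (vl p s k i : ℝ)) ≤
        Mid.card • W := by
      refine Finset.sum_le_card_nsmul _ _ _ fun k hk => ?_
      rw [hMid, Finset.mem_filter] at hk
      have := hF2R k hk.1
      linarith
    rw [nsmul_eq_mul] at h5
    linarith
  have hfin : (Mid.card : ℝ) * W ≤ 2 / 10 ^ 10 * m * W := mul_le_mul_of_nonneg_right hcard hW0.le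
  have hD : Dfc p s u m = Mn p s u m + PT p s u m - EW p s u m := rfl
  have hfinal : W * (1 / 2 - 3 / 10 ^ 10) * m = W * (1 / 2 - 1 / 10 ^ 10) * m - 2 / 10 ^ 10 * m * W := by
    ring
  linarith

end Pool.Agent.Work.MP_b29d7f_cvx
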