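import Pool.Agent.Work.MP_b29d7f_cvx.InterfaceC
import Pool.Agent.Work.MP_b29d7f_nt.Primes

/-!
# MERD: the prime factors of one number
-/

namespace Pool.Agent.Work.MP_b29d7f_cvx

open Finset

namespace Merd

theorem term_le (n : ℕ) (hn : 2 ≤ n) :
    Real.log n / ((n : ℝ) * (n - 1)) ≤ 4 * (1 / √((n : ℝ) - 1) - 1 / √n) := by
  have hn2 : (2 : ℝ) ≤ n := by exact_mod_cast hn
  set a := √((n : ℝ) - 1) with ha
  set b := √(n : ℝ) with hb
  have ha2 : a ^ 2 = (n : ℝ) - 1 := Real.sq_sqrt (by linarith)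
  have hb2 : b ^ 2 = (n : ℝ) := Real.sq_sqrt (by linarith)
  have ha1 : 1 ≤ a := by rw [ha]; exact Real.one_le_sqrt.mpr (by linarith)
  have hb1 : 1 < b := by
    rw [hb]; exact Real.lt_sqrt_of_sq_lt (by linarith)
  have hab : a ≤ b := Real.sqrt_le_sqrt (by linarith)
  have hb0 : 0 < b := by linarith
  have ha0 : 0 < a := by linarith
  have hlog : Real.log n ≤ 2 * a := by
    have h1 : Real.log n = 2 * Real.log b := by
      rw [← hb2, Real.log_pow]; norm_num
    have h2 : Real.log b ≤ b - 1 := Real.log_le_sub_one_of_pos hb0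
    have h3 : b - 1 ≤ a := by nlinarith
    rw [h1]; linarith
  have hsub : b - a = 1 / (b + a) := by
    rw [eq_div_iff (by positivity)]
    nlinarith
  have h4 : 1 / a - 1 / b = 1 / (a * b * (b + a)) := by
    rw [div_sub_div _ _ ha0.ne' hb0.ne', one_mul, mul_one, hsub, div_div]
    congr 1
    ring
  rw [h4, ← ha2]
  have h5 : (n : ℝ) * a ^ 2 = b ^ 2 * a ^ 2 := by rw [hb2]
  rw [h5]
  calc Real.log n / (b ^ 2 * a ^ 2) ≤ (2 * a) / (b ^ 2 * a ^ 2) := by gcongr
    _ ≤ 4 * (1 / (a * b * (b + a))) := by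
      rw [mul_one_div, div_le_div_iff₀ (by positivity) (by positivity)]
      have : 2 * a * (a * b * (b + a)) ≤ 2 * a * (a * b * (b + b)) := by gcongr
      nlinarith

theorem sum_le (N : ℕ) (hN : 2 ≤ N) :
    ∑ n ∈ Ico 2 N, Real.log n / ((n : ℝ) * (n - 1)) ≤ 4 * (1 - 1 / √((N : ℝ) - 1)) := by
  induction N, hN using Nat.le_induction with
  | base => norm_num
  | succ N hN ih =>
    rw [Finset.sum_Ico_succ_top hN]
    have := term_le N hN
    push_cast
    have h2 : (N : ℝ) + 1 - 1 = N := by ring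
    rw [h2]
    linarith

theorem sum_le' (P : Finset ℕ) (hP : ∀ p ∈ P, 2 ≤ p) :
    ∑ n ∈ P, Real.log n / ((n : ℝ) * (n - 1)) ≤ 4 := by
  obtain ⟨N, hN⟩ : ∃ N, ∀ p ∈ P, p < N := ⟨P.sup id + 1, fun p hp =>
    Nat.lt_succ_of_le (Finset.le_sup (f := id) hp)⟩
  have hsub : P ⊆ Ico 2 (max 2 N) := fun p hp =>
    Finset.mem_Ico.mpr ⟨hP p hp, lt_of_lt_of_le (hN p hp) (le_max_right _ _)⟩
  have h1 : ∑ n ∈ P, Real.log n / ((n : ℝ) * (n - 1))
      ≤ ∑ n ∈ Ico 2 (max 2 N), Real.log n / ((n : ℝ) * (n - 1)) := by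
    refine Finset.sum_le_sum_of_subset_of_nonneg hsub fun n hn _ => ?_
    have h2 : (2 : ℝ) ≤ n := by exact_mod_cast (Finset.mem_Ico.mp hn).1
    have := Real.log_nonneg (by linarith : (1 : ℝ) ≤ n)
    apply div_nonneg this
    nlinarith
  have h3 := sum_le (max 2 N) (le_max_left _ _)
  have h4 : 0 ≤ 1 / √(((max 2 N : ℕ) : ℝ) - 1) := by positivity
  linarith

theorem split (p : ℕ) (hp : 2 ≤ p) :
    Real.log p / ((p : ℝ) - 1) = Real.log p / p + Real.log p / ((p : ℝ) * (p - 1)) := by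
  have h2 : (2 : ℝ) ≤ p := by exact_mod_cast hp
  have h3 : (p : ℝ) - 1 ≠ 0 := by linarith
  have h4 : (p : ℝ) ≠ 0 := by linarith
  field_simp
  ring

end Merd

open Merd in
theorem stmt_MERD : Stmt_MERD := by
  refine ⟨Real.log 4 + 5, by have := Real.log_nonneg (by norm_num : (1 : ℝ) ≤ 4); linarith, ?_⟩
  intro D X hD hX hDX
  have hpr : ∀ p ∈ D.primeFactors, p.Prime := fun p hp => Nat.prime_of_mem_primeFactors hp
  have h0 : ∑ p ∈ D.primeFactors, Real.log p / ((p : ℝ) - 1)
      = ∑ p ∈ D.primeFactors, Real.log p / p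
        + ∑ p ∈ D.primeFactors, Real.log p / ((p : ℝ) * (p - 1)) := by
    rw [← Finset.sum_add_distrib]
    exact Finset.sum_congr rfl fun p hp => split p (hpr p hp).two_le
  have h1 := sum_le' D.primeFactors (fun p hp => (hpr p hp).two_le)
  set n := ⌊X⌋₊ with hn
  have hn1 : 1 ≤ n := Nat.le_floor (by exact_mod_cast hX)
  have hlog : ∀ p : ℕ, 0 ≤ Real.log p := fun p => Real.log_natCast_nonneg p
  have h2 : ∑ p ∈ D.primeFactors with p ≤ n, Real.log p / p ≤ Real.log X + Real.log 4 := by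
    calc ∑ p ∈ D.primeFactors with p ≤ n, Real.log p / p
        ≤ ∑ p ∈ n.primesLE, Real.log p / p := by
          refine Finset.sum_le_sum_of_subset_of_nonneg ?_ fun p _ _ =>
            div_nonneg (hlog p) (Nat.cast_nonneg p)
          intro p hp
          rw [Finset.mem_filter] at hp
          exact Nat.mem_primesLE.mpr ⟨hp.2, hpr p hp.1⟩
      _ ≤ Real.log n + Real.log 4 := Pool.Agent.Work.MP_b29d7f_nt.mertens_upper n hn1
      _ ≤ Real.log X + Real.log 4 := by
          have h3 : (n : ℝ) ≤ X := Nat.floor_le (by linarith)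
          have h4 : (0 : ℝ) < n := by exact_mod_cast hn1
          have := Real.log_le_log h4 h3
          linarith
  have h3 : ∑ p ∈ D.primeFactors with ¬ p ≤ n, Real.log p / p ≤ 1 := by
    have h4 : ∑ p ∈ D.primeFactors, Real.log p ≤ Real.log D := by
      have h5 : ∏ p ∈ D.primeFactors, p ≤ D := Nat.le_of_dvd hD (Nat.prod_primeFactors_dvd D)
      have h6 : ∑ p ∈ D.primeFactors, Real.log p = Real.log ((∏ p ∈ D.primeFactors, p : ℕ) : ℝ) := by
        push_cast
        rw [Real.log_prod]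
        intro p hp
        exact_mod_cast (hpr p hp).ne_zero
      rw [h6]
      apply Real.log_le_log
      · exact_mod_cast Finset.prod_pos fun p hp => (hpr p hp).pos
      · exact_mod_cast h5
    calc ∑ p ∈ D.primeFactors with ¬ p ≤ n, Real.log p / p
        ≤ ∑ p ∈ D.primeFactors with ¬ p ≤ n, Real.log p / X := by
          refine Finset.sum_le_sum fun p hp => ?_
          rw [Finset.mem_filter, not_le] at hp
          have h5 : X < p := Nat.lt_of_floor_lt hp.2
          exact div_le_div_of_nonneg_left (hlog p) (by linarith) h5.le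
      _ ≤ ∑ p ∈ D.primeFactors, Real.log p / X := by
          refine Finset.sum_le_sum_of_subset_of_nonneg (Finset.filter_subset _ _) fun p _ _ =>
            div_nonneg (hlog p) (by linarith)
      _ ≤ 1 := by
          rw [← Finset.sum_div, div_le_one (by linarith)]
          linarith
  have h4 := Finset.sum_filter_add_sum_filter_not D.primeFactors (fun p => p ≤ n)
    (fun p : ℕ => Real.log p / p)
  rw [h0]
  linarith

end Pool.Agent.Work.MP_b29d7f_cvx
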