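import Pool.Agent.Work.MP_b29d7f_cvx.Interface

/-!
# Convex sets: block MW (helper99)
-/

namespace Pool.Agent.Work.MP_b29d7f_cvx

open Finset
open Pool.Agent.Work.MP_b29d7f_nt (IsPOrdering HasSimultaneousOrdering PS vd ld tv)
open Pool.Agent.Work.MP_b29d7f_half (Ord A wv lD HalfDense)
open Pool.Agent.Work.MP_b29d7f_sep (nv EW EL)

theorem MW_num {μ ν κ a T L G Λ l C : ℝ} (hμ0 : 0 ≤ μ) (hμ1 : μ ≤ 1) (hν0 : 0 ≤ ν)
    (hκ0 : 0 ≤ κ) (hκν : κ ≤ ν) (ha : 0 ≤ a) (hT : T ≤ L) (hL0 : 0 ≤ L)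
    (hL : L ≤ C * Λ) (hG : G ≤ L) (hC : 1 ≤ C) (hΛ : 7 * C + 4 ≤ Λ) (hμΛ : μ * Λ ^ 2 ≤ 1)
    (hνΛ : ν * Λ ^ 2 ≤ 1) (hl : l ≤ Λ) :
    2 * (1 + μ) * a + (1 + μ) ^ 2 * (T - a) - 2 * (1 + μ) * ((1 - ν) * L - G - Λ) -
      2 * (1 - ν + κ) * (l - 2) ≤ a - L + 2 * Λ - 2 * l + 2 * G + 6 := by
  have hΛ0 : 0 ≤ Λ := by linarith
  have p1 : (1 + μ) ^ 2 * T ≤ (1 + μ) ^ 2 * L := mul_le_mul_of_nonneg_left hT (by positivity)
  have p2 : 0 ≤ μ ^ 2 * a := by positivity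
  have p3 : μ * G ≤ μ * L := mul_le_mul_of_nonneg_left hG hμ0
  have p4 : (ν - κ) * (l - 2) ≤ ν * Λ := by
    calc (ν - κ) * (l - 2) ≤ (ν - κ) * Λ :=
          mul_le_mul_of_nonneg_left (by linarith) (by linarith)
      _ ≤ ν * Λ := mul_le_mul_of_nonneg_right (by linarith) hΛ0
  have hμL : 0 ≤ μ * L := mul_nonneg hμ0 hL0
  have hνL : 0 ≤ ν * L := mul_nonneg hν0 hL0
  have p5 : μ ^ 2 * L ≤ μ * L := by
    calc μ ^ 2 * L = μ * (μ * L) := by ring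
      _ ≤ 1 * (μ * L) := mul_le_mul_of_nonneg_right hμ1 hμL
      _ = μ * L := one_mul _
  have p6 : μ * ν * L ≤ ν * L := by
    calc μ * ν * L = μ * (ν * L) := by ring
      _ ≤ 1 * (ν * L) := mul_le_mul_of_nonneg_right hμ1 hνL
      _ = ν * L := one_mul _
  have p7 : μ * L ≤ μ * (C * Λ) := mul_le_mul_of_nonneg_left hL hμ0
  have p8 : ν * L ≤ ν * (C * Λ) := mul_le_mul_of_nonneg_left hL hν0
  have hμΛ0 : 0 ≤ μ * Λ := mul_nonneg hμ0 hΛ0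
  have hνΛ0 : 0 ≤ ν * Λ := mul_nonneg hν0 hΛ0
  have q1 : (7 * C + 4) * (μ * Λ) ≤ 1 := by
    calc (7 * C + 4) * (μ * Λ) ≤ Λ * (μ * Λ) := mul_le_mul_of_nonneg_right hΛ hμΛ0
      _ = μ * Λ ^ 2 := by ring
      _ ≤ 1 := hμΛ
  have q2 : (7 * C + 4) * (ν * Λ) ≤ 1 := by
    calc (7 * C + 4) * (ν * Λ) ≤ Λ * (ν * Λ) := mul_le_mul_of_nonneg_right hΛ hνΛ0
      _ = ν * Λ ^ 2 := by ring
      _ ≤ 1 := hνΛ
  have r1 : (3 * C + 2) * (μ * Λ) ≤ (7 * C + 4) * (μ * Λ) :=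
    mul_le_mul_of_nonneg_right (by linarith) hμΛ0
  have r2 : (4 * C + 2) * (ν * Λ) ≤ (7 * C + 4) * (ν * Λ) :=
    mul_le_mul_of_nonneg_right (by linarith) hνΛ0
  have e : 2 * (1 + μ) * a + (1 + μ) ^ 2 * (T - a) - 2 * (1 + μ) * ((1 - ν) * L - G - Λ) -
      2 * (1 - ν + κ) * (l - 2) - (a - L + 2 * Λ - 2 * l + 2 * G + 6) =
      ((1 + μ) ^ 2 * T - (1 + μ) ^ 2 * L) - μ ^ 2 * a + μ ^ 2 * L + 2 * (ν * L) +
        2 * (μ * ν * L) + 2 * (μ * G) + 2 * (μ * Λ) + 2 * ((ν - κ) * (l - 2)) - 2 := by ring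
  nlinarith

theorem MW_GG {s : ℕ → ℤ} {C₀ : ℝ} (hs : Cvx s C₀) {N : ℕ} (hL : 0 ≤ Lg s N) :
    GG s N ≤ N * Lg s N := by
  unfold GG
  have h1 : ∀ l ∈ Ico 1 N, Real.log (s N) - Real.log (s l) ≤ Lg s N := by
    intro l hl
    rw [mem_Ico] at hl
    have : (1 : ℝ) ≤ s l := by exact_mod_cast hs.pos hl.1
    have := Real.log_nonneg this
    unfold Lg
    linarith
  calc ∑ l ∈ Ico 1 N, (Real.log (s N) - Real.log (s l)) ≤ ∑ _l ∈ Ico 1 N, Lg s N :=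
        sum_le_sum h1
    _ = ((N - 1 : ℕ) : ℝ) * Lg s N := by rw [sum_const, Nat.card_Ico, nsmul_eq_mul]
    _ ≤ N * Lg s N := by
        apply mul_le_mul_of_nonneg_right _ hL
        exact_mod_cast Nat.sub_le N 1

theorem MW_NA (s : ℕ → ℤ) (N M P : ℕ) : 0 ≤ NA s N M P := by
  unfold NA
  apply add_nonneg
  · apply sum_nonneg
    intro p _
    exact mul_nonneg (Real.log_natCast_nonneg p) (Nat.cast_nonneg _)
  · apply sum_nonneg
    intro p _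
    exact mul_nonneg (Real.log_natCast_nonneg p) (Nat.cast_nonneg _)

theorem stmt_MW (h1 : Stmt_ENT) (h2 : Stmt_WLOW) (h3 : Stmt_WUP) (h4 : Stmt_GSUM) :
    Stmt_MW := by
  intro s C₀ hs
  refine ⟨⌈Real.exp (7 * C₀ + 4)⌉₊, ?_⟩
  intro N M P m hN hm hmN
  have hC := hs.one_le
  have hN1 : Real.exp (7 * C₀ + 4) ≤ (N : ℝ) := (Nat.le_ceil _).trans (by exact_mod_cast hN)
  have hN0 : (0 : ℝ) < N := (Real.exp_pos _).trans_le hN1
  have hΛ : 7 * C₀ + 4 ≤ Real.log N := by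
    rw [Real.le_log_iff_exp_le hN0]
    exact hN1
  set Λ : ℝ := Real.log N with hΛd
  have hΛ11 : 11 ≤ Λ := by linarith
  have hsq : (121 : ℝ) ≤ Λ ^ 2 := by nlinarith
  have hm2 : (121 : ℝ) ≤ m := hsq.trans hm
  have hm2' : 2 ≤ m := by
    have : (2 : ℝ) ≤ m := by linarith
    exact_mod_cast this
  have hm0 : (0 : ℝ) < m := by linarith
  have hmNr : (m : ℝ) ≤ N := by nlinarith
  have hmN' : m ≤ N := by exact_mod_cast hmNr
  have hNN : 2 ≤ N := by omega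
  obtain ⟨_, hlD, hL0⟩ := h1 s C₀ hs N
  have hLC : Lg s N ≤ C₀ * Λ := hs.growth N hNN
  have hGG := MW_GG hs hL0
  have hNA := MW_NA s N M P
  have hlow := h2 s C₀ hs N m hm2' hmN'
  have hup := h3 s C₀ hs N M P m (by omega) hmN'
  have hgs := h4 s C₀ hs N m (by omega) hmN'
  have hlm : Real.log m ≤ Λ := Real.log_le_log hm0 hmNr
  have key := MW_num (μ := 1 / m) (ν := m / N) (κ := 1 / N) (a := NA s N M P / N)
    (T := lD s N / N) (L := Lg s N) (G := GG s N / N) (Λ := Λ) (l := Real.log m) (C := C₀)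
    (by positivity) (by rw [div_le_one hm0]; linarith) (by positivity) (by positivity)
    (by rw [div_le_div_iff_of_pos_right hN0]; linarith) (by positivity)
    (by rw [div_le_iff₀ hN0]; linarith) hL0 hLC (by rw [div_le_iff₀ hN0]; linarith) hC hΛ
    (by rw [one_div, inv_mul_le_iff₀ hm0]; linarith)
    (by rw [div_mul_eq_mul_div, div_le_one hN0]; exact hmN) hlm
  set SG : ℝ := ∑ u ∈ range (N - m + 1), Real.log (gp s u) with hSG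
  have hmul : ((m : ℝ) * (m + 1) / 2) * (((N : ℝ) - m) * Lg s N - GG s N - N * Λ) ≤
      ((m : ℝ) * (m + 1) / 2) * SG := mul_le_mul_of_nonneg_left hgs (by positivity)
  have hB : SDfc s N M P m ≤ ((m : ℝ) * (m + 1) / 2) * NA s N M P +
      (((m : ℝ) + 1) ^ 2 / 4) * (lD s N - NA s N M P) + Pair s N M P m -
      ((m : ℝ) * (m + 1) / 2) * (((N : ℝ) - m) * Lg s N - GG s N - N * Λ) -
      ((N : ℝ) - m + 1) * ((m : ℝ) ^ 2 / 2) * (Real.log m - 2) := by linarith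
  have hc : (0 : ℝ) ≤ 4 / ((m : ℝ) ^ 2 * N) := by positivity
  have hB' := mul_le_mul_of_nonneg_left hB hc
  have e : 4 / ((m : ℝ) ^ 2 * N) * (((m : ℝ) * (m + 1) / 2) * NA s N M P +
      (((m : ℝ) + 1) ^ 2 / 4) * (lD s N - NA s N M P) + Pair s N M P m -
      ((m : ℝ) * (m + 1) / 2) * (((N : ℝ) - m) * Lg s N - GG s N - N * Λ) -
      ((N : ℝ) - m + 1) * ((m : ℝ) ^ 2 / 2) * (Real.log m - 2)) =
      (2 * (1 + 1 / (m : ℝ)) * (NA s N M P / N) +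
        (1 + 1 / (m : ℝ)) ^ 2 * (lD s N / N - NA s N M P / N) -
        2 * (1 + 1 / (m : ℝ)) * ((1 - m / N) * Lg s N - GG s N / N - Λ) -
        2 * (1 - m / N + 1 / N) * (Real.log m - 2)) +
      4 / ((m : ℝ) ^ 2 * N) * Pair s N M P m := by
    field_simp
    ring
  rw [e] at hB'
  have e2 : 2 * GG s N / N = 2 * (GG s N / N) := by ring
  rw [e2]
  linarith

end Pool.Agent.Work.MP_b29d7f_cvx
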