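import Pool.Agent.Work.MP_b29d7f_cvx.Interface

/-!
# Block MW2 of the convex classification (helper20)
-/

namespace Pool.Agent.Work.MP_b29d7f_cvx

open Finset Filter
open Pool.Agent.Work.MP_b29d7f_half (lD)
open Pool.Agent.Work.MP_b29d7f_sep (nv EW EL)

theorem MW2_ev_log (c : ℝ) {r : ℝ} (hr : 0 < r) :
    ∀ᶠ N : ℕ in atTop, c * Real.log N ^ 2 ≤ (N : ℝ) ^ r := by
  have h1 := (isLittleO_log_rpow_rpow_atTop (r := (2 : ℝ)) hr).bound
    (show (0 : ℝ) < 1 / (|c| + 1) by positivity)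
  have h2 : ∀ᶠ x : ℝ in atTop, c * Real.log x ^ 2 ≤ x ^ r := by
    filter_upwards [h1, eventually_ge_atTop (1 : ℝ)] with x hx hx1
    have hl : 0 ≤ Real.log x := Real.log_nonneg hx1
    have hp : 0 < x ^ r := Real.rpow_pos_of_pos (by linarith) r
    rw [Real.norm_of_nonneg (Real.rpow_nonneg hl _), Real.norm_of_nonneg hp.le,
      Real.rpow_ofNat] at hx
    have h3 : (|c| + 1) * Real.log x ^ 2 ≤ x ^ r := by
      have h4 : (|c| + 1) * Real.log x ^ 2 ≤ (|c| + 1) * (1 / (|c| + 1) * x ^ r) :=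
        mul_le_mul_of_nonneg_left hx (by positivity)
      have h5 : (|c| + 1) * (1 / (|c| + 1) * x ^ r) = x ^ r := by
        field_simp
      linarith
    have h6 : c * Real.log x ^ 2 ≤ (|c| + 1) * Real.log x ^ 2 :=
      mul_le_mul_of_nonneg_right (by linarith [le_abs_self c]) (by positivity)
    linarith
  exact tendsto_natCast_atTop_atTop.eventually h2

theorem MW2_ev_big (c : ℝ) : ∀ᶠ N : ℕ in atTop, c ≤ Real.log N :=
  (Real.tendsto_log_atTop.comp tendsto_natCast_atTop_atTop).eventually_ge_atTop c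

theorem stmt_MW2 (hENT : Stmt_ENT) (hTRANS : Stmt_TRANS) (hCATCHB : Stmt_CATCHB)
    (hPIG : Stmt_PIG) (hMW : Stmt_MW) : Stmt_MW2 := by
  intro s C₀ hs a₁ a b b' ha1 haa hab hbb hb1 ε hε
  obtain ⟨N₁, hN₁⟩ := hMW s C₀ hs
  have hC : 1 ≤ C₀ := hs.one_le
  have ha0 : 0 < a := ha1.trans haa
  have hb0 : 0 < b := ha0.trans hab
  have hb0' : 0 < b' := hb0.trans hbb
  have hd1 : 0 < a - a₁ := by linarith
  have hd2 : 0 < b - a := by linarith
  have hd3 : 0 < b' - b := by linarith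
  have hd4 : 0 < 1 - b' := by linarith
  have hd5 : 0 < 1 - b := by linarith
  have hd6 : 0 < 1 - a := by linarith
  have hba : 0 < b * (a - a₁) := mul_pos hb0 hd1
  have key : ∀ᶠ N : ℕ in atTop, (GG s N ≤ ε * N * Real.log N →
      GG s (2 * N) ≤ ε * (2 * N) * Real.log (2 * N) →
      ∃ m : ℕ, (N : ℝ) ^ a₁ ≤ m ∧ (m : ℝ) ≤ (N : ℝ) ^ a ∧
      NA s N ⌊(N : ℝ) ^ a⌋₊ ⌊(N : ℝ) ^ b⌋₊ ≤ N * (Lg s ⌊(N : ℝ) ^ b'⌋₊ + 10 * ε * Real.log N) ∧
      Pair s N ⌊(N : ℝ) ^ a⌋₊ ⌊(N : ℝ) ^ b⌋₊ m ≤ 2 * C₀ ^ 2 / (b * (a - a₁)) * (m : ℝ) ^ 2 * N ∧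
      4 / ((m : ℝ) ^ 2 * N) * SDfc s N ⌊(N : ℝ) ^ a⌋₊ ⌊(N : ℝ) ^ b⌋₊ m ≤
        Lg s ⌊(N : ℝ) ^ b'⌋₊ - Lg s N + 2 * Real.log N - 2 * Real.log m + 20 * ε * Real.log N) := by
    filter_upwards [eventually_ge_atTop (max N₁ 3), MW2_ev_log 1 ha1, MW2_ev_log 1 hd6,
      MW2_ev_log 4 hd1, MW2_ev_log 2 hb0, MW2_ev_log 2 hd2, MW2_ev_log (3 * C₀ ^ 2) hd3,
      MW2_ev_log (3 * C₀) hd4, MW2_ev_log 2 hd4, MW2_ev_log (12 * C₀) hd5, MW2_ev_log 1 hd6,
      MW2_ev_big 1, MW2_ev_big ((8 + 4 * ε) / (5 * ε)), MW2_ev_big (10 * Real.log 2 / b),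
      MW2_ev_big (10 * Real.log 4 / (a - a₁)), MW2_ev_big (10 * Real.log 2),
      MW2_ev_big ((6 + 8 * C₀ ^ 2 / (b * (a - a₁))) / (8 * ε))]
      with N hN e1 e2 e3 e4 e5 e6 e7 e8 e9 e10 hl1 hl2 hl3 hl4 hl5 hl6 hG1 hG2
    have hN1 : N₁ ≤ N := (le_max_left _ _).trans hN
    have hN3 : 3 ≤ N := (le_max_right _ _).trans hN
    have hx3 : (3 : ℝ) ≤ N := by exact_mod_cast hN3
    have hx0 : (0 : ℝ) < N := by linarith
    have hx1 : (1 : ℝ) ≤ N := by linarith
    set x : ℝ := (N : ℝ) with hx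
    set l : ℝ := Real.log x with hl
    have hl0 : 0 < l := by linarith
    have hll : l ≤ l ^ 2 := by nlinarith only [hl1]
    have hl2' : 1 ≤ l ^ 2 := by nlinarith only [hl1]
    set P : ℕ := ⌊x ^ b⌋₊ with hP
    set P' : ℕ := ⌊x ^ b'⌋₊ with hP'
    set M : ℕ := ⌊x ^ a⌋₊ with hM
    set M₁ : ℕ := ⌈x ^ a₁⌉₊ with hM₁
    -- powers
    have pa1 : 1 ≤ x ^ a₁ := Real.one_le_rpow hx1 ha1.le
    have pa : 1 ≤ x ^ a := Real.one_le_rpow hx1 ha0.le
    have pb' : 1 ≤ x ^ b' := Real.one_le_rpow hx1 hb0'.le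
    have pmul : ∀ u v : ℝ, x ^ u * x ^ v = x ^ (u + v) := fun u v => (Real.rpow_add hx0 u v).symm
    have pone : ∀ u : ℝ, x ^ u * x ^ (1 - u) = x := by
      intro u
      rw [pmul]
      simp
    have qa : 4 ≤ x ^ (a - a₁) := by linarith only [e3, hl2']
    have qb : 2 ≤ x ^ b := by linarith only [e4, hl2']
    have qba : 2 ≤ x ^ (b - a) := by linarith only [e5, hl2']
    have q1b' : 2 ≤ x ^ (1 - b') := by linarith only [e8, hl2']
    have mA : x ^ a = x ^ a₁ * x ^ (a - a₁) := by rw [pmul]; congr 1; ring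
    have mB : x ^ b = x ^ a * x ^ (b - a) := by rw [pmul]; congr 1; ring
    have mB' : x ^ b' = x ^ b * x ^ (b' - b) := by rw [pmul]; congr 1; ring
    have qaa : 4 * x ^ a₁ ≤ x ^ a := by
      rw [mA, mul_comm (x ^ a₁)]
      exact mul_le_mul_of_nonneg_right qa (by linarith only [pa1])
    have q2a : 2 * x ^ a ≤ x ^ b := by
      rw [mB, mul_comm (x ^ a)]
      exact mul_le_mul_of_nonneg_right qba (by linarith only [pa])
    have q2b' : 2 * x ^ b' ≤ x := by
      have h1 := pone b'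
      have h2 : 2 * x ^ b' ≤ x ^ (1 - b') * x ^ b' :=
        mul_le_mul_of_nonneg_right q1b' (by linarith only [pb'])
      linarith only [h1, h2]
    have qbb' : x ^ b ≤ x ^ b' := Real.rpow_le_rpow_of_exponent_le hx1 hbb.le
    have qb2 : 2 ≤ x ^ b' := qb.trans qbb'
    have qax : x ^ a ≤ x := by
      have := Real.rpow_le_rpow_of_exponent_le hx1 (show a ≤ 1 by linarith)
      simpa using this
    have qbx : x ^ b ≤ x := by
      have := Real.rpow_le_rpow_of_exponent_le hx1 (show b ≤ 1 by linarith)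
      simpa using this
    -- floors
    have fP : (P : ℝ) ≤ x ^ b := Nat.floor_le (by linarith)
    have fP2 : x ^ b / 2 ≤ P := by
      have := Nat.lt_floor_add_one (x ^ b)
      rw [← hP] at this
      linarith
    have fP' : (P' : ℝ) ≤ x ^ b' := Nat.floor_le (by linarith)
    have fP'2 : x ^ b' / 2 ≤ P' := by
      have := Nat.lt_floor_add_one (x ^ b')
      rw [← hP'] at this
      linarith
    have fM : (M : ℝ) ≤ x ^ a := Nat.floor_le (by linarith)
    have fM2 : x ^ a / 2 ≤ M := by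
      have := Nat.lt_floor_add_one (x ^ a)
      rw [← hM] at this
      linarith
    have fM1 : x ^ a₁ ≤ M₁ := Nat.le_ceil _
    have fM12 : (M₁ : ℝ) ≤ 2 * x ^ a₁ := by
      have := Nat.ceil_lt_add_one (show 0 ≤ x ^ a₁ by linarith)
      rw [← hM₁] at this
      linarith
    have nP1 : 1 ≤ P := by
      rw [hP]; exact Nat.le_floor (by push_cast; linarith)
    have nP2 : 2 ≤ P := by
      rw [hP]; exact Nat.le_floor (by push_cast; linarith)
    have nPP' : P ≤ P' := Nat.floor_le_floor qbb'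
    have nP'N : 2 * P' ≤ N := by
      have : (2 * P' : ℝ) ≤ N := by linarith
      exact_mod_cast this
    have nPN : P ≤ N := by
      have : (P : ℝ) ≤ N := by linarith
      exact_mod_cast this
    have nMN : M ≤ N := by
      have : (M : ℝ) ≤ N := by linarith
      exact_mod_cast this
    have nMP : 2 * M ≤ P + 1 := by
      have h1 := Nat.lt_floor_add_one (x ^ b)
      rw [← hP] at h1
      have : (2 * M : ℝ) < (P : ℝ) + 1 := by linarith
      have h2 : 2 * M < P + 1 := by exact_mod_cast this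
      omega
    have nM1 : 1 ≤ M₁ := by
      rw [hM₁, Nat.one_le_ceil_iff]; linarith
    have nM1M : M₁ < M := by
      have h1 := Nat.ceil_lt_add_one (show 0 ≤ x ^ a₁ by linarith)
      rw [← hM₁] at h1
      have h2 := Nat.lt_floor_add_one (x ^ a)
      rw [← hM] at h2
      have : (M₁ : ℝ) < M := by linarith
      exact_mod_cast this
    -- logarithms
    have LN : Lg s N ≤ C₀ * l := hs.growth N (by omega)
    have L2N : Lg s (2 * N) ≤ C₀ * (l + Real.log 2) := by
      have h1 := hs.growth (2 * N) (by omega)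
      have h2 : Real.log ((2 * N : ℕ) : ℝ) = l + Real.log 2 := by
        push_cast
        rw [Real.log_mul (by norm_num) hx0.ne']
        ring
      rw [h2] at h1
      exact h1
    have LN0 : 0 ≤ Lg s N := (hENT s C₀ hs N).2.2
    have L2N0 : 0 ≤ Lg s (2 * N) := (hENT s C₀ hs (2 * N)).2.2
    have LP0 : 0 ≤ Lg s P := (hENT s C₀ hs P).2.2
    have LP : Lg s P ≤ C₀ * l := by
      have h1 := hs.growth P nP2
      have hPx : (P : ℝ) ≤ x := by rw [hx]; exact_mod_cast nPN
      have h2 : Real.log P ≤ l := Real.log_le_log (by exact_mod_cast nP1) hPx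
      have h3 : C₀ * Real.log P ≤ C₀ * l := mul_le_mul_of_nonneg_left h2 (by linarith)
      exact h1.trans h3
    have hlog2 : 0 < Real.log 2 := Real.log_pos (by norm_num)
    have hlog2' : Real.log 2 ≤ 1 := by
      have := Real.log_two_lt_d9
      linarith
    have hlog2l : 10 * Real.log 2 ≤ l := hl5
    have hlog2N : Real.log (2 * x) = l + Real.log 2 := by
      rw [Real.log_mul (by norm_num) hx0.ne']
      ring
    -- the bound for `NA`
    have T1 := hTRANS s C₀ hs N P P' nP1 nPP' nP'N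
    have T2 := hCATCHB s C₀ hs N M P (by omega) nPN nMP
    rw [← hx] at T1
    have hP'0 : (0 : ℝ) < P' := by linarith
    have t1 : 3 / 2 * (P : ℝ) * Lg s P * Lg s N / P' ≤ 1 := by
      rw [div_le_one hP'0]
      have h1 : Lg s P * Lg s N ≤ (C₀ * l) * (C₀ * l) := mul_le_mul LP LN LN0 (by positivity)
      have h2 : 3 / 2 * (P : ℝ) * Lg s P * Lg s N ≤ 3 / 2 * x ^ b * ((C₀ * l) * (C₀ * l)) := by
        have h3 : 3 / 2 * (P : ℝ) * Lg s P * Lg s N = (3 / 2 * (P : ℝ)) * (Lg s P * Lg s N) := by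
          ring
        rw [h3]
        exact mul_le_mul (by linarith) h1 (mul_nonneg LP0 LN0) (by positivity)
      have h4 : 3 / 2 * x ^ b * ((C₀ * l) * (C₀ * l)) = x ^ b / 2 * (3 * C₀ ^ 2 * l ^ 2) := by ring
      have h5 : x ^ b / 2 * (3 * C₀ ^ 2 * l ^ 2) ≤ x ^ b / 2 * x ^ (b' - b) :=
        mul_le_mul_of_nonneg_left e6 (by positivity)
      have h6 : x ^ b / 2 * x ^ (b' - b) = x ^ b' / 2 := by rw [mB']; ring
      linarith
    have t2 : (2 * (P' : ℝ) + 1) * Lg s N ≤ x := by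
      have h1 : (2 * (P' : ℝ) + 1) ≤ 3 * x ^ b' := by linarith
      have h2 : (2 * (P' : ℝ) + 1) * Lg s N ≤ (3 * x ^ b') * (C₀ * l) :=
        mul_le_mul h1 LN LN0 (by positivity)
      have h3 : 3 * C₀ * l ≤ x ^ (1 - b') := by
        have : 3 * C₀ * l ≤ 3 * C₀ * l ^ 2 := mul_le_mul_of_nonneg_left hll (by positivity)
        linarith
      have h4 : (3 * x ^ b') * (C₀ * l) = x ^ b' * (3 * C₀ * l) := by ring
      have h5 : x ^ b' * (3 * C₀ * l) ≤ x ^ b' * x ^ (1 - b') :=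
        mul_le_mul_of_nonneg_left h3 (by positivity)
      rw [pone] at h5
      linarith
    have t3 : 2 * ((2 * (P : ℝ) + 1) * Lg s (2 * N)) ≤ x := by
      have h1 : (2 * (P : ℝ) + 1) ≤ 3 * x ^ b := by linarith
      have h0 : Lg s (2 * N) ≤ C₀ * (2 * l) := by
        refine L2N.trans (mul_le_mul_of_nonneg_left ?_ (by linarith))
        linarith
      have h2 : (2 * (P : ℝ) + 1) * Lg s (2 * N) ≤ (3 * x ^ b) * (C₀ * (2 * l)) :=
        mul_le_mul h1 h0 L2N0 (by positivity)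
      have h3 : 12 * C₀ * l ≤ x ^ (1 - b) := by
        have : 12 * C₀ * l ≤ 12 * C₀ * l ^ 2 := mul_le_mul_of_nonneg_left hll (by positivity)
        linarith
      have h4 : 2 * ((3 * x ^ b) * (C₀ * (2 * l))) = x ^ b * (12 * C₀ * l) := by ring
      have h5 : x ^ b * (12 * C₀ * l) ≤ x ^ b * x ^ (1 - b) :=
        mul_le_mul_of_nonneg_left h3 (by positivity)
      rw [pone] at h5
      linarith
    have hG2' : GG s (2 * N) ≤ 2 * ε * x * (l + 1) := by
      rw [hlog2N] at hG2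
      have h1 : ε * (2 * x) * (l + Real.log 2) ≤ ε * (2 * x) * (l + 1) :=
        mul_le_mul_of_nonneg_left (by linarith only [hlog2']) (by positivity)
      have h2 : ε * (2 * x) * (l + 1) = 2 * ε * x * (l + 1) := by ring
      linarith only [hG2, h1, h2]
    have hl2'' : 8 + 4 * ε ≤ 5 * ε * l := by
      have h5 : 0 < 5 * ε := by positivity
      have := (div_le_iff₀ h5).1 hl2
      linarith
    have hNA : NA s N M P ≤ x * (Lg s P' + 5 * ε * l + 8 + 4 * ε) := by
      unfold NA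
      have h1 : x * (Lg s P' + 3 / 2 * P * Lg s P * Lg s N / P') ≤ x * (Lg s P' + 1) :=
        mul_le_mul_of_nonneg_left (by linarith) hx0.le
      have h2 : x * Real.log 2 ≤ x := by
        have := mul_le_mul_of_nonneg_left hlog2' hx0.le
        linarith only [this]
      have h3 : x * (Lg s P' + 5 * ε * l + 8 + 4 * ε) = x * (Lg s P' + 1) + ε * x * l + x + x
          + (2 * (2 * ε * x * (l + 1)) + 4 * x) + x := by ring
      have T2' : ∑ p ∈ PC s N M P, Real.log p * nv p s N ≤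
          2 * (2 * ε * x * (l + 1)) + 4 * x + x := by
        have h6 : 2 * (GG s (2 * N) + 2 * x * Real.log 2 + (2 * P + 1) * Lg s (2 * N))
            = 2 * GG s (2 * N) + 4 * (x * Real.log 2) + 2 * ((2 * (P : ℝ) + 1) * Lg s (2 * N)) := by
          ring
        have h7 := T2
        rw [← hx, h6] at h7
        linarith
      linarith
    -- the window length
    obtain ⟨m, hm1, hm2, hm3⟩ := hPIG s C₀ hs N M₁ M P nM1 nM1M nMN nP2 nPN
    have rm1 : x ^ a₁ ≤ m := fM1.trans (by exact_mod_cast hm1)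
    have rm2 : (m : ℝ) ≤ x ^ a := (show (m : ℝ) ≤ M by exact_mod_cast hm2).trans fM
    have hm0 : (0 : ℝ) < m := by linarith
    have hlogP : 9 / 10 * (b * l) ≤ Real.log P := by
      have h1 : Real.log (x ^ b / 2) ≤ Real.log P := Real.log_le_log (by positivity) fP2
      rw [Real.log_div (by positivity) (by norm_num), Real.log_rpow hx0] at h1
      have h2 : 10 * Real.log 2 ≤ b * l := by
        have := (div_le_iff₀ hb0).1 hl3
        linarith
      linarith
    have hlogM : 9 / 10 * ((a - a₁) * l) ≤ Real.log ((M : ℝ) / M₁) := by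
      have hM10 : (0 : ℝ) < M₁ := by linarith
      have h0 : x ^ (a - a₁) / 4 ≤ (M : ℝ) / M₁ := by
        rw [le_div_iff₀ hM10]
        have h1 : x ^ (a - a₁) / 4 * M₁ ≤ x ^ (a - a₁) / 4 * (2 * x ^ a₁) :=
          mul_le_mul_of_nonneg_left fM12 (by positivity)
        have h2 : x ^ (a - a₁) / 4 * (2 * x ^ a₁) = x ^ a / 2 := by rw [mA]; ring
        linarith
      have h1 : Real.log (x ^ (a - a₁) / 4) ≤ Real.log ((M : ℝ) / M₁) :=
        Real.log_le_log (by positivity) h0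
      rw [Real.log_div (by positivity) (by norm_num), Real.log_rpow hx0] at h1
      have h2 : 10 * Real.log 4 ≤ (a - a₁) * l := by
        have := (div_le_iff₀ hd1).1 hl4
        linarith
      linarith
    have hPair : Pair s N M P m ≤ 2 * C₀ ^ 2 / (b * (a - a₁)) * (m : ℝ) ^ 2 * x := by
      have hD : 0 < Real.log ((M : ℝ) / M₁) := lt_of_lt_of_le (by positivity) hlogM
      have hPl : 0 < Real.log P := lt_of_lt_of_le (by positivity) hlogP
      have h1 : Pair s N M P m ≤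
          (m : ℝ) ^ 2 * (Lg s (2 * N) / Real.log P) * (x * Lg s N) / Real.log ((M : ℝ) / M₁) := by
        rw [le_div_iff₀ hD]
        exact hm3
      refine h1.trans ?_
      rw [div_le_iff₀ hD]
      have h2 : Lg s (2 * N) / Real.log P ≤ 11 * C₀ / (9 * b) := by
        rw [div_le_div_iff₀ hPl (by positivity)]
        have h3 : Lg s (2 * N) * (9 * b) ≤ (C₀ * (11 / 10 * l)) * (9 * b) := by
          refine mul_le_mul_of_nonneg_right (L2N.trans ?_) (by positivity)
          exact mul_le_mul_of_nonneg_left (by linarith) (by linarith)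
        have h4 : 11 * C₀ * (9 / 10 * (b * l)) ≤ 11 * C₀ * Real.log P :=
          mul_le_mul_of_nonneg_left hlogP (by positivity)
        have h5 : (C₀ * (11 / 10 * l)) * (9 * b) = 11 * C₀ * (9 / 10 * (b * l)) := by ring
        linarith
      have h6 : (m : ℝ) ^ 2 * (Lg s (2 * N) / Real.log P) * (x * Lg s N) ≤
          (m : ℝ) ^ 2 * (11 * C₀ / (9 * b)) * (x * (C₀ * l)) := by
        have h7 : (m : ℝ) ^ 2 * (Lg s (2 * N) / Real.log P) ≤ (m : ℝ) ^ 2 * (11 * C₀ / (9 * b)) :=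
          mul_le_mul_of_nonneg_left h2 (by positivity)
        have h8 : x * Lg s N ≤ x * (C₀ * l) := mul_le_mul_of_nonneg_left LN hx0.le
        exact mul_le_mul h7 h8 (mul_nonneg hx0.le LN0) (by positivity)
      refine h6.trans ?_
      have h9 : 2 * C₀ ^ 2 / (b * (a - a₁)) * (m : ℝ) ^ 2 * x * (9 / 10 * ((a - a₁) * l)) ≤
          2 * C₀ ^ 2 / (b * (a - a₁)) * (m : ℝ) ^ 2 * x * Real.log ((M : ℝ) / M₁) :=
        mul_le_mul_of_nonneg_left hlogM (by positivity)
      refine le_trans ?_ h9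
      have h10 : 2 * C₀ ^ 2 / (b * (a - a₁)) * (m : ℝ) ^ 2 * x * (9 / 10 * ((a - a₁) * l))
          = (C₀ ^ 2 * (m : ℝ) ^ 2 * x * l / b) * (9 / 5) := by
        field_simp
        ring
      have h11 : (m : ℝ) ^ 2 * (11 * C₀ / (9 * b)) * (x * (C₀ * l))
          = (C₀ ^ 2 * (m : ℝ) ^ 2 * x * l / b) * (11 / 9) := by
        field_simp
      rw [h10, h11]
      exact mul_le_mul_of_nonneg_left (by norm_num) (by positivity)
    refine ⟨m, rm1, rm2, ?_, hPair, ?_⟩
    · refine hNA.trans (mul_le_mul_of_nonneg_left ?_ hx0.le)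
      linarith
    · have hml : l ^ 2 ≤ m := by linarith
      have hml2 : (m : ℝ) * l ^ 2 ≤ x := by
        have h1 : (m : ℝ) * l ^ 2 ≤ x ^ a * x ^ (1 - a) :=
          mul_le_mul rm2 (by linarith) (by positivity) (by positivity)
        rwa [pone] at h1
      have h1 := hN₁ N M P m hN1 hml hml2
      have h2 : NA s N M P / x ≤ Lg s P' + 5 * ε * l + 8 + 4 * ε := by
        rw [div_le_iff₀ hx0]
        linarith
      have h3 : 2 * GG s N / x ≤ 2 * ε * l := by
        rw [div_le_iff₀ hx0]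
        linarith
      have h4 : 4 / ((m : ℝ) ^ 2 * x) * Pair s N M P m ≤ 8 * C₀ ^ 2 / (b * (a - a₁)) := by
        have h5 : 4 / ((m : ℝ) ^ 2 * x) * Pair s N M P m ≤
            4 / ((m : ℝ) ^ 2 * x) * (2 * C₀ ^ 2 / (b * (a - a₁)) * (m : ℝ) ^ 2 * x) :=
          mul_le_mul_of_nonneg_left hPair (by positivity)
        have h6 : 4 / ((m : ℝ) ^ 2 * x) * (2 * C₀ ^ 2 / (b * (a - a₁)) * (m : ℝ) ^ 2 * x)
            = 8 * C₀ ^ 2 / (b * (a - a₁)) := by
          field_simp
          ring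
        linarith
      have h7 : 6 + 8 * C₀ ^ 2 / (b * (a - a₁)) ≤ 8 * ε * l := by
        have h8 : 0 < 8 * ε := by positivity
        have := (div_le_iff₀ h8).1 hl6
        linarith
      have h1' := h1
      rw [← hx] at h1'
      linarith
  obtain ⟨N₀, hN₀⟩ := eventually_atTop.1 key
  exact ⟨N₀, fun N hN h1 h2 => hN₀ N hN h1 h2⟩

end Pool.Agent.Work.MP_b29d7f_cvx
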