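import Pool.Agent.Work.MP_b29d7f_cvx.InterfaceC

/-!
# Block NAT: a convex sequence whose range has a simultaneous ordering is itself one
-/

namespace Pool.Agent.Work.MP_b29d7f_cvx

open Finset
open Pool.Agent.Work.MP_b29d7f_nt (IsPOrdering HasSimultaneousOrdering PS vd ld tv vd_comm ld_comm
  PS_insert PS_product)
open Pool.Agent.Work.MP_b29d7f_half (Ord A wv lD K DK HalfDense mem_A A_mono card_A sum_A
  enough_primes stmt_VDM)

/-- convexity for longer gaps -/
theorem nat_conv {s : ℕ → ℤ} (hc : ∀ k, s (k + 1) - s k ≤ s (k + 2) - s (k + 1)) (d l i : ℕ) :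
    s (i + l) - s i ≤ s (i + d + l) - s (i + d) := by
  have h1 : ∀ i, s (i + 1) - s i ≤ s (i + d + 1) - s (i + d) := by
    intro i
    induction d with
    | zero => simp
    | succ d ih =>
      have h := hc (i + d)
      have e1 : i + (d + 1) + 1 = i + d + 2 := by ring
      have e2 : i + (d + 1) = i + d + 1 := by ring
      rw [e1, e2]
      linarith
  induction l with
  | zero => simp
  | succ l ih =>
    have h := h1 (i + l)
    have e1 : i + d + (l + 1) = i + l + d + 1 := by ring
    have e2 : i + (l + 1) = i + l + 1 := by ring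
    have e3 : i + d + l = i + l + d := by ring
    rw [e1, e2]
    rw [e3] at ih
    linarith

/-- an antitone function on `range m`: the last `n` values have the least sum -/
theorem nat_anti (f : ℕ → ℝ) (d n : ℕ)
    (hf : ∀ i j, i ≤ j → j < d + n → f j ≤ f i) (M : Finset ℕ) (hM : M ⊆ range (d + n))
    (hc : M.card = n) : ∑ j ∈ Ico d (d + n), f j ≤ ∑ j ∈ M, f j := by
  classical
  rcases Nat.eq_zero_or_pos n with hn | hn
  · subst hn
    rw [Finset.card_eq_zero] at hc
    subst hc
    simp
  set I := Ico d (d + n) with hI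
  have hIc : I.card = n := by rw [hI]; simp
  have hcard : (M \ I).card = (I \ M).card := by
    have h1 := Finset.card_sdiff_add_card_inter M I
    have h2 := Finset.card_sdiff_add_card_inter I M
    rw [Finset.inter_comm] at h2
    omega
  have h1 : (M \ I).card • f d ≤ ∑ j ∈ M \ I, f j := by
    refine Finset.card_nsmul_le_sum _ _ _ fun j hj => ?_
    rw [Finset.mem_sdiff, hI, Finset.mem_Ico] at hj
    have hj1 := hM hj.1
    rw [Finset.mem_range] at hj1
    refine hf j d ?_ (by omega)
    by_contra hlt
    exact hj.2 ⟨by omega, hj1⟩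
  have h2 : ∑ j ∈ I \ M, f j ≤ (I \ M).card • f d := by
    refine Finset.sum_le_card_nsmul _ _ _ fun j hj => ?_
    rw [Finset.mem_sdiff, hI, Finset.mem_Ico] at hj
    exact hf d j hj.1.1 hj.1.2
  have h3 := Finset.sum_inter_add_sum_sdiff M I f
  have h4 := Finset.sum_inter_add_sum_sdiff I M f
  rw [Finset.inter_comm] at h4
  rw [hcard] at h1
  linarith

/-- the archimedean energy of an initial segment is minimal -/
theorem nat_energy {s : ℕ → ℤ} (hs : StrictMono s)
    (hc : ∀ k, s (k + 1) - s k ≤ s (k + 2) - s (k + 1)) (n : ℕ) :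
    ∀ Y : Finset ℤ, (Y : Set ℤ) ⊆ Set.range s → Y.card = n → PS ld (A s n) ≤ PS ld Y := by
  classical
  induction n with
  | zero =>
    intro Y _ hY
    rw [Finset.card_eq_zero] at hY
    subst hY
    unfold A
    simp
  | succ n ih =>
    intro Y hYs hYc
    have hYne : Y.Nonempty := by
      rw [← Finset.card_pos]; omega
    set x := Y.max' hYne with hx
    have hxY : x ∈ Y := Y.max'_mem hYne
    obtain ⟨m, hm⟩ := hYs (Finset.mem_coe.mpr hxY)
    set Z := Y.erase x with hZ
    have hZc : Z.card = n := by rw [hZ, Finset.card_erase_of_mem hxY]; omega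
    have hZs : (Z : Set ℤ) ⊆ Set.range s := fun z hz =>
      hYs (Finset.mem_coe.mpr (Finset.mem_of_mem_erase (Finset.mem_coe.mp hz)))
    have hZx : x ∉ Z := Finset.notMem_erase x Y
    have hY : Y = insert x Z := (Finset.insert_erase hxY).symm
    -- indices
    set M := (range m).filter (fun j => s j ∈ Z) with hM
    have hZM : Z = M.image s := by
      ext z
      rw [Finset.mem_image]
      constructor
      · intro hz
        obtain ⟨j, hj⟩ := hZs (Finset.mem_coe.mpr hz)
        refine ⟨j, ?_, hj⟩
        rw [hM, Finset.mem_filter, Finset.mem_range]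
        refine ⟨?_, by rw [hj]; exact hz⟩
        have h1 : z ≤ x := Y.le_max' z (Finset.mem_of_mem_erase hz)
        have h2 : z ≠ x := Finset.ne_of_mem_erase hz
        have h3 : z < x := lt_of_le_of_ne h1 h2
        rw [← hj, ← hm] at h3
        exact hs.lt_iff_lt.mp h3
      · rintro ⟨j, hj, rfl⟩
        rw [hM, Finset.mem_filter] at hj
        exact hj.2
    have hMc : M.card = n := by
      rw [← hZc, hZM, Finset.card_image_of_injective _ hs.injective]
    have hmn : n ≤ m := by
      rw [← hMc, hM]
      exact (Finset.card_filter_le _ _).trans (by simp)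
    obtain ⟨d, rfl⟩ : ∃ d, m = d + n := ⟨m - n, by omega⟩
    have e1 : PS ld Y = PS ld Z + ∑ y ∈ Z, ld x y := by
      rw [hY, PS_insert ld ld_comm Z x hZx]
    have e2 : ∑ y ∈ Z, ld x y = ∑ j ∈ M, ld (s (d + n)) (s j) := by
      rw [hZM, Finset.sum_image fun i _ j _ h => hs.injective h, hm]
    have hpos : ∀ i j, i < j → (0 : ℝ) < ((s j - s i : ℤ) : ℝ) := by
      intro i j hij
      have := hs hij
      exact_mod_cast (by linarith : (0 : ℤ) < s j - s i)
    have hld : ∀ i j, i < j → ld (s j) (s i) = Real.log ((s j - s i : ℤ) : ℝ) := by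
      intro i j hij
      unfold ld
      rw [abs_of_pos (hpos i j hij)]
    have e3 : ∑ j ∈ Ico d (d + n), ld (s (d + n)) (s j) ≤ ∑ j ∈ M, ld (s (d + n)) (s j) := by
      refine nat_anti _ d n ?_ M (by rw [hM]; exact Finset.filter_subset _ _) hMc
      intro i j hij hj
      rw [hld j _ hj, hld i _ (by omega)]
      refine Real.log_le_log (hpos j _ hj) ?_
      have := hs.monotone hij
      exact_mod_cast (by linarith : s (d + n) - s j ≤ s (d + n) - s i)
    have e4 : ∑ j ∈ range n, ld (s n) (s j) ≤ ∑ j ∈ Ico d (d + n), ld (s (d + n)) (s j) := by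
      rw [Finset.sum_Ico_eq_sum_range]
      rw [Nat.add_sub_cancel_left]
      refine Finset.sum_le_sum fun i hi => ?_
      rw [Finset.mem_range] at hi
      rw [hld i n hi, hld (d + i) (d + n) (by omega)]
      refine Real.log_le_log (hpos i n hi) ?_
      have h := nat_conv hc d (n - i) i
      have e1 : i + (n - i) = n := by omega
      have e2 : i + d + (n - i) = d + n := by omega
      have e3 : i + d = d + i := by omega
      rw [e1, e2, e3] at h
      exact_mod_cast h
    have e5 : PS ld (A s (n + 1)) = PS ld (A s n) + ∑ j ∈ range n, ld (s n) (s j) := by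
      have h1 : A s (n + 1) = insert (s n) (A s n) := by
        unfold A
        rw [Finset.range_add_one, Finset.image_insert]
      have h2 : s n ∉ A s n := by
        intro h
        obtain ⟨i, hi, h⟩ := mem_A.mp h
        have := hs.injective h
        omega
      rw [h1, PS_insert ld ld_comm _ _ h2, sum_A _ hs.injective]
    have := ih Z hZs hZc
    linarith

/-- **NAT** -/
theorem stmt_NAT : Stmt_NAT := by
  classical
  intro s hs hc hS p hp
  obtain ⟨a, ha⟩ := hS
  have hinf : (Set.range s).Infinite := Set.infinite_range_of_injective hs.injective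
  have ho : Ord (Set.range s) a := ⟨hinf, ha⟩
  have hainj : Function.Injective a :=
    Pool.Agent.Work.MP_b29d7f_nt.injective_of_ordering hinf hp (ha p hp)
  have hAs : ∀ n, ((A s n : Finset ℤ) : Set ℤ) ⊆ Set.range s := by
    intro n x hx
    obtain ⟨i, _, rfl⟩ := mem_A.mp (Finset.mem_coe.mp hx)
    exact ⟨i, rfl⟩
  have hAa : ∀ n, ((A a n : Finset ℤ) : Set ℤ) ⊆ Set.range s := by
    intro n x hx
    obtain ⟨i, _, rfl⟩ := mem_A.mp (Finset.mem_coe.mp hx)
    exact (ha p hp).1 i
  -- equality at every prime
  have heq : ∀ n, PS (vd p) (A s n) = PS (vd p) (A a n) := by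
    intro n
    obtain ⟨P, hPp, hP, hcov⟩ := enough_primes {p} (by simpa using hp) (A s n ∪ A a n)
    have e1 := PS_product (A s n) P hP fun x hx y hy => hcov x (Finset.mem_union_left _ hx) y
        (Finset.mem_union_left _ hy)
    have e2 := PS_product (A a n) P hP fun x hx y hy => hcov x (Finset.mem_union_right _ hx) y
        (Finset.mem_union_right _ hy)
    have e3 := nat_energy hs hc n (A a n) (hAa n) (card_A hainj n)
    have e4 : ∀ q ∈ P, PS (vd q) (A a n) * Real.log q ≤ PS (vd q) (A s n) * Real.log q := by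
      intro q hq
      have h := stmt_VDM (Set.range s) a ho q (hP q hq) (A s n) (hAs n)
      rw [card_A hs.injective] at h
      exact mul_le_mul_of_nonneg_right h (Real.log_natCast_nonneg q)
    have e5 := (Finset.sum_eq_sum_iff_of_le e4).mp
      (le_antisymm (Finset.sum_le_sum e4) (by rw [← e1, ← e2]; exact e3)) p
      (hPp (Finset.mem_singleton_self p))
    have hlog : Real.log (p : ℝ) ≠ 0 := by
      have : (1 : ℝ) < p := by exact_mod_cast hp.one_lt
      exact (Real.log_pos this).ne'
    exact (mul_right_cancel₀ hlog e5).symm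
  refine ⟨fun k => ⟨k, rfl⟩, fun n x hx => ?_⟩
  have hpz : Prime (p : ℤ) := Nat.prime_iff_prime_int.mp hp
  by_cases hxA : x ∈ A s n
  · obtain ⟨i, hi, rfl⟩ := mem_A.mp hxA
    have h0 : ∏ j ∈ range n, (s i - s j) = 0 :=
      Finset.prod_eq_zero (Finset.mem_range.mpr hi) (sub_self _)
    rw [h0, emultiplicity_zero]
    exact le_top
  · have hfin : ∀ z : ℤ, z ≠ 0 → FiniteMultiplicity (p : ℤ) z := by
      intro z hz
      rw [Int.finiteMultiplicity_iff]
      exact ⟨by simpa using hp.ne_one, hz⟩
    have h1 : ∀ i ∈ range n, s n - s i ≠ 0 := by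
      intro i hi h
      rw [Finset.mem_range] at hi
      have := hs hi
      linarith
    have h2 : ∀ i ∈ range n, x - s i ≠ 0 := by
      intro i hi h
      rw [Finset.mem_range] at hi
      exact hxA (mem_A.mpr ⟨i, hi, (sub_eq_zero.mp h).symm⟩)
    rw [Finset.emultiplicity_prod hpz, Finset.emultiplicity_prod hpz]
    rw [Finset.sum_congr rfl fun i hi => (hfin _ (h1 i hi)).emultiplicity_eq_multiplicity,
      Finset.sum_congr rfl fun i hi => (hfin _ (h2 i hi)).emultiplicity_eq_multiplicity]
    suffices h : ∑ i ∈ range n, vd p (s n) (s i) ≤ ∑ i ∈ range n, vd p x (s i) by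
      unfold vd at h
      exact_mod_cast h
    have hnA : s n ∉ A s n := by
      intro h
      obtain ⟨i, hi, h⟩ := mem_A.mp h
      have := hs.injective h
      omega
    have e1 : PS (vd p) (A s (n + 1)) = PS (vd p) (A s n) + ∑ i ∈ range n, vd p (s n) (s i) := by
      have h1 : A s (n + 1) = insert (s n) (A s n) := by
        unfold A
        rw [Finset.range_add_one, Finset.image_insert]
      rw [h1, PS_insert (vd p) (vd_comm p) _ _ hnA, sum_A _ hs.injective]
    have e2 : PS (vd p) (insert x (A s n)) = PS (vd p) (A s n) + ∑ i ∈ range n, vd p x (s i) := by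
      rw [PS_insert (vd p) (vd_comm p) _ _ hxA, sum_A _ hs.injective]
    have hcard : (insert x (A s n)).card = n + 1 := by
      rw [Finset.card_insert_of_notMem hxA, card_A hs.injective]
    have hsub : ((insert x (A s n) : Finset ℤ) : Set ℤ) ⊆ Set.range s := by
      intro y hy
      rw [Finset.coe_insert] at hy
      rcases hy with rfl | hy
      · exact hx
      · exact hAs n hy
    have e3 := stmt_VDM (Set.range s) a ho p hp (insert x (A s n)) hsub
    rw [hcard, ← heq (n + 1), e1, e2] at e3
    linarith

end Pool.Agent.Work.MP_b29d7f_cvx
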