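import Pool.Agent.Work.MP_b29d7f_cvx.Interface2

/-!
# Block ND: the pairs at which (R) fails carry little in a central flat window
-/

namespace Pool.Agent.Work.MP_b29d7f_cvx

open Finset
open scoped Classical
open Pool.Agent.Work.MP_b29d7f_sep (nv EW EL)

theorem nd_ind (A : Finset ℕ) (B : ℕ → Finset ℕ) (S : Finset (ℕ × ℕ)) (W : ℝ) (hW : 0 ≤ W) :
    ∑ i ∈ A, ∑ j ∈ B i, (if (i, j) ∈ S then W else 0) ≤ W * S.card := by
  rw [Finset.sum_sigma', ← Finset.sum_filter, Finset.sum_const, nsmul_eq_mul, mul_comm]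
  refine mul_le_mul_of_nonneg_left ?_ hW
  have h1 : ((A.sigma B).filter fun z => (z.1, z.2) ∈ S).card ≤ S.card := by
    refine Finset.card_le_card_of_injOn (fun z => (z.1, z.2)) ?_ ?_
    · intro z hz
      rw [Finset.mem_coe, Finset.mem_filter] at hz
      exact hz.2
    · intro z _ z' _ h
      simp only [Prod.mk.injEq] at h
      obtain ⟨a, b⟩ := z
      obtain ⟨c, d⟩ := z'
      simp only at h
      obtain ⟨rfl, rfl⟩ := h
      rfl
  exact_mod_cast h1

/-- the combinatorial part: `C` is a strictly decreasing partial matching between two disjoint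
sets `L`, `R` of indices in `[u, u + m]` -/
theorem nd_comb (u m : ℕ) (L R : Finset ℕ) (hL : L ⊆ Icc u (u + m)) (hR : R ⊆ Icc u (u + m))
    (hLR : Disjoint L R) (C Bd : Finset (ℕ × ℕ)) (hC1 : ∀ z ∈ C, z.1 ∈ L) (hC2 : ∀ z ∈ C, z.2 ∈ R)
    (hchain : ∀ z ∈ C, ∀ z' ∈ C, z.1 < z'.1 → z'.2 < z.2)
    (hfst : ∀ z ∈ C, ∀ z' ∈ C, z.1 = z'.1 → z = z')
    (hBC : Bd ⊆ C) (hB1 : ∀ z ∈ Bd, 1 ≤ z.1 ∧ z.1 - 1 ∈ L) (hB2 : ∀ z ∈ Bd, z.2 + 1 ∈ R)
    (hB3 : ∀ z ∈ Bd, (z.1 - 1, z.2 + 1) ∉ C) :
    Bd.card + 2 * C.card ≤ m + 1 := by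
  have hsnd : ∀ z ∈ C, ∀ z' ∈ C, z.2 = z'.2 → z = z' := by
    intro z hz z' hz' h
    rcases lt_trichotomy z.1 z'.1 with h1 | h1 | h1
    · have := hchain z hz z' hz' h1
      omega
    · exact hfst z hz z' hz' h1
    · have := hchain z' hz' z hz h1
      omega
  set D1 : Finset ℕ := C.image Prod.fst with hD1
  set D2 : Finset ℕ := C.image Prod.snd with hD2
  have hc1 : D1.card = C.card := by
    rw [hD1]
    exact Finset.card_image_of_injOn fun z hz z' hz' h => hfst z hz z' hz' h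
  have hc2 : D2.card = C.card := by
    rw [hD2]
    exact Finset.card_image_of_injOn fun z hz z' hz' h => hsnd z hz z' hz' h
  have hs1 : D1 ⊆ L := by
    intro i hi
    rw [hD1, Finset.mem_image] at hi
    obtain ⟨z, hz, rfl⟩ := hi
    exact hC1 z hz
  have hs2 : D2 ⊆ R := by
    intro i hi
    rw [hD2, Finset.mem_image] at hi
    obtain ⟨z, hz, rfl⟩ := hi
    exact hC2 z hz
  have hLRc : L.card + R.card ≤ m + 1 := by
    rw [← Finset.card_union_of_disjoint hLR]
    refine (Finset.card_le_card (Finset.union_subset hL hR)).trans ?_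
    rw [Nat.card_Icc]
    omega
  have hU : Bd.card ≤ ((L \ D1) ∪ (R \ D2)).card := by
    refine Finset.card_le_card_of_injOn
      (fun z => if z.1 - 1 ∈ D1 then z.2 + 1 else z.1 - 1) ?_ ?_
    · intro z hz
      rw [Finset.mem_coe] at hz
      simp only
      rw [Finset.mem_coe, Finset.mem_union, Finset.mem_sdiff, Finset.mem_sdiff]
      split_ifs with h1
      swap
      · left
        exact ⟨(hB1 z hz).2, h1⟩
      · right
        refine ⟨hB2 z hz, ?_⟩
        intro h2
        rw [hD1, Finset.mem_image] at h1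
        rw [hD2, Finset.mem_image] at h2
        obtain ⟨z1, hz1, e1⟩ := h1
        obtain ⟨z2, hz2, e2⟩ := h2
        have hzC := hBC hz
        have hz0 := (hB1 z hz).1
        have h3 : z.2 < z1.2 := hchain z1 hz1 z hzC (by omega)
        have h4 : z2.1 < z.1 := by
          rcases lt_trichotomy z2.1 z.1 with h5 | h5 | h5
          · exact h5
          · have := hfst z2 hz2 z hzC h5
            rw [this] at e2
            omega
          · have := hchain z hzC z2 hz2 h5
            omega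
        rcases Nat.lt_or_ge z2.1 z1.1 with h5 | h5
        · have := hchain z2 hz2 z1 hz1 h5
          omega
        · have h6 : z2.1 = z1.1 := by omega
          have h7 := hfst z2 hz2 z1 hz1 h6
          refine hB3 z hz ?_
          have : (z.1 - 1, z.2 + 1) = z1 := by
            rw [← e1, ← e2, h7]
          rw [this]
          exact hz1
    · intro z hz z' hz' h
      rw [Finset.mem_coe] at hz hz'
      simp only at h
      have hzC := hBC hz
      have hzC' := hBC hz'
      have hz0 := (hB1 z hz).1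
      have hz0' := (hB1 z' hz').1
      split_ifs at h with h1 h2 h2
      · exact hsnd z hzC z' hzC' (by omega)
      · exfalso
        refine Finset.disjoint_left.mp hLR (hB1 z' hz').2 ?_
        rw [← h]
        exact hB2 z hz
      · exfalso
        refine Finset.disjoint_left.mp hLR (hB1 z hz).2 ?_
        rw [h]
        exact hB2 z' hz'
      · exact hfst z hzC z' hzC' (by omega)
  have hU2 : ((L \ D1) ∪ (R \ D2)).card ≤ (L.card - C.card) + (R.card - C.card) := by
    refine (Finset.card_union_le _ _).trans ?_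
    rw [Finset.card_sdiff_of_subset hs1, Finset.card_sdiff_of_subset hs2, hc1, hc2]
  have h1 : C.card ≤ L.card := hc1 ▸ Finset.card_le_card hs1
  have h2 : C.card ≤ R.card := hc2 ▸ Finset.card_le_card hs2
  omega

theorem stmt_ND (hPAD : Stmt_PAD) (hPAE : Stmt_PAE) (hDFC : Stmt_DFC) (hCHAIN : Stmt_CHAIN)
    (hMAT : Stmt_MAT) : Stmt_ND := by
  intro s C₀ hs p hp u m H hF hHp hmp hCent
  obtain ⟨hmono, -, -, hF2⟩ := hPAD s C₀ hs p hp
  obtain ⟨hsymm, -, hzero, -, -, -, hdist⟩ := hPAE s C₀ hs p hp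
  obtain ⟨hD0, -, -⟩ := hDFC s C₀ hs p hp u m
  have hinj := hs.injective
  -- each valuation in the window is at most the growth
  have hvl : ∀ i j : ℕ, u ≤ i → i ≤ u + m → u ≤ j → j ≤ u + m → i ≠ j →
      vl p s j i + nv p s u ≤ nv p s (u + m) := by
    intro i j hi hi' hj hj' hij
    have h1 := hF2 u (u + m) j hj hj'
    have h2 : vl p s j i ≤ ∑ l ∈ (Icc u (u + m)).erase j, vl p s j l :=
      Finset.single_le_sum (f := fun l => vl p s j l) (fun _ _ => Nat.zero_le _)
        (Finset.mem_erase.mpr ⟨hij, Finset.mem_Icc.mpr ⟨hi, hi'⟩⟩)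
    omega
  have hnv : nv p s u ≤ nv p s (u + m) := hmono (by omega)
  set W : ℝ := (nv p s (u + m) : ℝ) - nv p s u with hW
  have hW0 : 0 ≤ W := by
    have : (nv p s u : ℝ) ≤ nv p s (u + m) := by exact_mod_cast hnv
    linarith
  rcases hnv.eq_or_lt with heq | hlt
  · -- no growth
    have hWz : W = 0 := by rw [hW, heq]; ring
    rw [hWz, zero_mul, zero_add]
    refine le_trans (Finset.sum_nonpos fun i hi => Finset.sum_nonpos fun j hj => ?_) (by linarith)
    rw [Finset.mem_Ioo] at hi hj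
    have h1 := hvl i j (by omega) (by omega) (by omega) (by omega) (by omega)
    have h2 : vl p s j i = 0 := by omega
    split_ifs
    · rw [h2]; simp
    · exact le_rfl
  -- the two blocks
  set L : Finset ℕ := (Icc u (u + m)).filter fun i => nv p s i = nv p s u with hL
  set R : Finset ℕ := (Icc u (u + m)).filter fun j => nv p s j = nv p s (u + m) with hR
  have hmL : ∀ i, i ∈ L ↔ (u ≤ i ∧ i ≤ u + m) ∧ nv p s i = nv p s u := by
    intro i; rw [hL, Finset.mem_filter, Finset.mem_Icc]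
  have hmR : ∀ i, i ∈ R ↔ (u ≤ i ∧ i ≤ u + m) ∧ nv p s i = nv p s (u + m) := by
    intro i; rw [hR, Finset.mem_filter, Finset.mem_Icc]
  have hLlt : ∀ i ∈ L, ∀ j ∈ R, i < j := by
    intro i hi j hj
    rw [hmL] at hi
    rw [hmR] at hj
    by_contra hno
    have := hmono (show j ≤ i by omega)
    omega
  have hLR : Disjoint L R := by
    rw [Finset.disjoint_left]
    intro i hi hi'
    exact absurd (hLlt i hi i hi') (lt_irrefl i)
  set C : Finset (ℕ × ℕ) := (L ×ˢ R).filter fun z => (p : ℤ) ∣ s z.2 - s z.1 with hC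
  have hmC : ∀ z, z ∈ C ↔ (z.1 ∈ L ∧ z.2 ∈ R) ∧ (p : ℤ) ∣ s z.2 - s z.1 := by
    intro z; rw [hC, Finset.mem_filter, Finset.mem_product]
  set Bd : Finset (ℕ × ℕ) := C.filter fun z => u < z.1 ∧ z.2 < u + m ∧ ¬ Rel s z.1 z.2 with hBd
  -- the chain property
  have hch : ∀ z ∈ C, ∀ z' ∈ C, z.1 < z'.1 → z'.2 < z.2 ∧
      ((z'.2 : ℤ) - z'.1) * (s z.2 - s z.1) = ((z.2 : ℤ) - z.1) * (s z'.2 - s z'.1) := by
    intro z hz z' hz' hlt'
    rw [hmC] at hz hz'
    obtain ⟨⟨hz1, hz2⟩, hz3⟩ := hz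
    obtain ⟨⟨hz1', hz2'⟩, hz3'⟩ := hz'
    have a1 := hLlt _ hz1' _ hz2
    have a2 := hLlt _ hz1' _ hz2'
    have b1 := (hmL _).mp hz1
    have b2 := (hmR _).mp hz2
    have b1' := (hmL _).mp hz1'
    have b2' := (hmR _).mp hz2'
    refine hCHAIN s hs.mono hs.gp_mono p u m z'.1 (min z.2 z'.2 - 1) H hp hF hHp hmp b1'.1.1
      (by omega) (by omega) ?_ ?_ z.1 z.2 z'.1 z'.2 b1.1.1 hlt' le_rfl (by omega) b2.1.2
      (by omega) b2'.1.2 hz3 hz3'
    · intro i i' hi hii hi'
      exact hdist u z'.1 i i' hi hii hi' b1'.2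
    · intro j j' hj hjj hj'
      have h5 : nv p s (min z.2 z'.2) = nv p s (u + m) := by
        rcases le_total z.2 z'.2 with h6 | h6
        · rw [min_eq_left h6]; exact b2.2
        · rw [min_eq_right h6]; exact b2'.2
      exact hdist (min z.2 z'.2) (u + m) j j' (by omega) hjj hj' h5.symm
  have hfst : ∀ z ∈ C, ∀ z' ∈ C, z.1 = z'.1 → z = z' := by
    intro z hz z' hz' h
    rw [hmC] at hz hz'
    obtain ⟨⟨hz1, hz2⟩, hz3⟩ := hz
    obtain ⟨⟨hz1', hz2'⟩, hz3'⟩ := hz'
    have b2 := (hmR _).mp hz2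
    have b2' := (hmR _).mp hz2'
    rw [← h] at hz3'
    have h2 : z.2 = z'.2 := by
      rcases lt_trichotomy z.2 z'.2 with h6 | h6 | h6
      · exfalso
        refine hdist z.2 z'.2 z.2 z'.2 le_rfl h6 le_rfl (by rw [b2.2, b2'.2]) ?_
        have := dvd_sub hz3' hz3
        have e : s z'.2 - s z.1 - (s z.2 - s z.1) = s z'.2 - s z.2 := by ring
        rwa [e] at this
      · exact h6
      · exfalso
        refine hdist z'.2 z.2 z'.2 z.2 le_rfl h6 le_rfl (by rw [b2.2, b2'.2]) ?_
        have := dvd_sub hz3 hz3'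
        have e : s z.2 - s z.1 - (s z'.2 - s z.1) = s z.2 - s z'.2 := by ring
        rwa [e] at this
    exact Prod.ext h h2
  have hBmem : ∀ z ∈ Bd, z ∈ C ∧ u < z.1 ∧ z.2 < u + m ∧ ¬ Rel s z.1 z.2 := by
    intro z hz
    rwa [hBd, Finset.mem_filter] at hz
  have hcount : Bd.card + 2 * C.card ≤ m + 1 := by
    refine nd_comb u m L R (by rw [hL]; exact Finset.filter_subset _ _)
      (by rw [hR]; exact Finset.filter_subset _ _) hLR C Bd (fun z hz => ((hmC z).mp hz).1.1)
      (fun z hz => ((hmC z).mp hz).1.2) (fun z hz z' hz' h => (hch z hz z' hz' h).1) hfst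
      (by rw [hBd]; exact Finset.filter_subset _ _) ?_ ?_ ?_
    · intro z hz
      obtain ⟨hzC, hz1, hz2, -⟩ := hBmem z hz
      have b1 := (hmL _).mp ((hmC z).mp hzC).1.1
      refine ⟨by omega, (hmL _).mpr ⟨by omega, ?_⟩⟩
      have c1 := hmono (show u ≤ z.1 - 1 by omega)
      have c2 := hmono (show z.1 - 1 ≤ z.1 by omega)
      omega
    · intro z hz
      obtain ⟨hzC, hz1, hz2, -⟩ := hBmem z hz
      have b1 := (hmR _).mp ((hmC z).mp hzC).1.2
      refine (hmR _).mpr ⟨by omega, ?_⟩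
      have c1 := hmono (show z.2 ≤ z.2 + 1 by omega)
      have c2 := hmono (show z.2 + 1 ≤ u + m by omega)
      omega
    · intro z hz hno
      obtain ⟨hzC, hz1, hz2, hz3⟩ := hBmem z hz
      have h1 := (hch _ hno z hzC (by simp only; omega)).2
      refine hz3 ?_
      simp only at h1
      have e1 : z.1 = z.1 - 1 + 1 := by omega
      have e2 : s z.1 = s (z.1 - 1) + gp s (z.1 - 1) := by
        unfold gp
        rw [← e1]
        ring
      have e3 : s (z.2 + 1) = s z.2 + gp s z.2 := by unfold gp; ring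
      have e4 : ((z.1 - 1 : ℕ) : ℤ) = (z.1 : ℤ) - 1 := by
        have : 1 ≤ z.1 := by omega
        push_cast [Nat.cast_sub this]
        ring
      rw [e3, e4] at h1
      push_cast at h1
      unfold Rel
      linear_combination (-1 : ℤ) * h1 + ((z.2 : ℤ) - z.1) * e2
  -- the two sums
  have hM := hMAT s C₀ hs p hp u m hCent hlt
  have hvlW : ∀ i j : ℕ, u ≤ i → i ≤ u + m → u ≤ j → j ≤ u + m → i ≠ j →
      (vl p s j i : ℝ) ≤ W := by
    intro i j hi hi' hj hj' hij
    have h1 := hvl i j hi hi' hj hj' hij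
    have h2 : (vl p s j i : ℝ) + nv p s u ≤ nv p s (u + m) := by exact_mod_cast h1
    linarith
  have hM2 : ∑ i ∈ Icc u (u + m), ∑ j ∈ Ioc i (u + m),
      (if nv p s i = nv p s u ∧ nv p s j = nv p s (u + m) then (vl p s j i : ℝ) else 0) ≤
      W * C.card := by
    refine le_trans (Finset.sum_le_sum fun i hi => Finset.sum_le_sum fun j hj => ?_)
      (nd_ind (Icc u (u + m)) (fun i => Ioc i (u + m)) C W hW0)
    rw [Finset.mem_Icc] at hi
    rw [Finset.mem_Ioc] at hj
    beta_reduce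
    by_cases hc : nv p s i = nv p s u ∧ nv p s j = nv p s (u + m)
    · rw [if_pos hc]
      by_cases hd : (p : ℤ) ∣ s j - s i
      · have hmem : (i, j) ∈ C := (hmC _).mpr
          ⟨⟨(hmL _).mpr ⟨hi, hc.1⟩, (hmR _).mpr ⟨⟨by omega, hj.2⟩, hc.2⟩⟩, hd⟩
        rw [if_pos hmem]
        exact hvlW i j hi.1 hi.2 (by omega) hj.2 (by omega)
      · have h0 : vl p s j i = 0 := (hzero j i (by omega)).mpr hd
        rw [h0]
        split_ifs
        · simpa using hW0
        · simp
    · rw [if_neg hc]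
      split_ifs
      · exact hW0
      · exact le_rfl
  have hBsum : ∑ i ∈ Ioo u (u + m), ∑ j ∈ Ioo i (u + m),
      (if nv p s i = nv p s u ∧ nv p s j = nv p s (u + m) ∧ ¬ Rel s i j
        then (vl p s j i : ℝ) else 0) ≤ W * Bd.card := by
    refine le_trans (Finset.sum_le_sum fun i hi => Finset.sum_le_sum fun j hj => ?_)
      (nd_ind (Ioo u (u + m)) (fun i => Ioo i (u + m)) Bd W hW0)
    rw [Finset.mem_Ioo] at hi hj
    beta_reduce
    by_cases hc : nv p s i = nv p s u ∧ nv p s j = nv p s (u + m) ∧ ¬ Rel s i j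
    · rw [if_pos hc]
      by_cases hd : (p : ℤ) ∣ s j - s i
      · have hmem : (i, j) ∈ Bd := by
          rw [hBd, Finset.mem_filter]
          refine ⟨(hmC _).mpr ⟨⟨(hmL _).mpr ⟨⟨by omega, by omega⟩, hc.1⟩,
            (hmR _).mpr ⟨⟨by omega, by omega⟩, hc.2.1⟩⟩, hd⟩, hi.1, hj.2, hc.2.2⟩
        rw [if_pos hmem]
        exact hvlW i j (by omega) (by omega) (by omega) (by omega) (by omega)
      · have h0 : vl p s j i = 0 := (hzero j i (by omega)).mpr hd
        rw [h0]
        split_ifs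
        · simpa using hW0
        · simp
    · rw [if_neg hc]
      split_ifs
      · exact hW0
      · exact le_rfl
  refine hBsum.trans ?_
  have hc' : (Bd.card : ℝ) + 2 * C.card ≤ m + 1 := by exact_mod_cast hcount
  have h1 := hM.trans hM2
  have h2 : W * ((Bd.card : ℝ) + 2 * C.card) ≤ W * (m + 1) := mul_le_mul_of_nonneg_left hc' hW0
  nlinarith

end Pool.Agent.Work.MP_b29d7f_cvx
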