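import Pool.Agent.Work.MP_b29d7f_cvx.Interface2

namespace Pool.Agent.Work.MP_b29d7f_cvx

open Finset

private theorem nda_gaps {s : ℕ → ℤ} {i₀ n : ℕ} {g H : ℤ}
    (hg : ∀ i : ℕ, i₀ ≤ i → i < n → g ≤ gp s i ∧ gp s i ≤ g + H) :
    ∀ t : ℕ, i₀ ≤ t → t ≤ n → ((t : ℤ) - i₀) * g ≤ s t - s i₀ ∧
      s t - s i₀ ≤ ((t : ℤ) - i₀) * (g + H) := by
  intro t h1
  induction t, h1 using Nat.le_induction with
  | base => intro _; simp
  | succ t ht ih =>
    intro h2
    obtain ⟨h3, h4⟩ := ih (by omega)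
    obtain ⟨h5, h6⟩ := hg t ht (by omega)
    unfold gp at h5 h6
    push_cast
    constructor <;> linarith [show ((t : ℤ) + 1 - i₀) * g = (t - i₀) * g + g by ring,
      show ((t : ℤ) + 1 - i₀) * (g + H) = (t - i₀) * (g + H) + (g + H) by ring]

theorem stmt_NDA (h1 : Stmt_HX) : Stmt_NDA := by
  intro s C₀ N M P m J H x a i₀ h B hZF k hk1 hk2 hne d hd1 hd2 heq
  have hHx := h1 s C₀ N M P m J H x a i₀ h B hZF
  have zw := hZF.zw
  have zd := zw.zd
  have hmono := zd.cvx.gp_mono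
  have hilo := hZF.i_lo
  have hihi := hZF.i_hi
  have hx1 := zw.x1
  have halo := zw.a_lo
  have hflat : gp s (a + m) - gp s a ≤ H := zw.flat
  have hmbig := zd.m_big
  have hpg := zd.pgap (i₀ - 1) (by omega)
  have hHP := zd.HP
  have hH1 := zd.H_pos
  have hh0 := hZF.h_nn
  set g : ℤ := gp s (i₀ - 1) with hgdef
  have hga : gp s a ≤ g := hmono (by omega)
  have hgaps : ∀ i : ℕ, i₀ ≤ i → i < a + 32 * x → g ≤ gp s i ∧ gp s i ≤ g + H := by
    intro i hi1 hi2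
    refine ⟨hmono (by omega), ?_⟩
    have : gp s i ≤ gp s (a + m) := hmono (by omega)
    linarith
  have hS := nda_gaps hgaps
  have hm1 : (1 : ℤ) ≤ m := by
    have : (1 : ℕ) ≤ m := le_trans (by norm_num) hmbig
    exact_mod_cast this
  have hxm : (128 : ℤ) * x ≤ m := by exact_mod_cast hx1
  have hx0 : (0 : ℤ) ≤ x := by positivity
  -- bounds for the parabola
  have hq : ∀ t : ℕ, i₀ ≤ t → t ≤ a + 32 * x →
      0 ≤ h * ((t : ℤ) - i₀ + 1) * (t - i₀) ∧ h * ((t : ℤ) - i₀ + 1) * (t - i₀) ≤ 2 * H * m := by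
    intro t ht1 ht2
    have e1 : (0 : ℤ) ≤ t - i₀ := by
      have : (i₀ : ℤ) ≤ t := by exact_mod_cast ht1
      linarith
    have e2 : (t : ℤ) - i₀ ≤ 32 * x := by
      have : (t : ℤ) ≤ a + 32 * x := by exact_mod_cast ht2
      have : ((a : ℤ) + 1) ≤ i₀ := by exact_mod_cast hilo
      linarith
    have e3 : h * ((t : ℤ) - i₀) ≤ 2 * H := by
      have : h * ((t : ℤ) - i₀) ≤ h * (32 * x) := mul_le_mul_of_nonneg_left e2 hh0
      nlinarith
    have e4 : (t : ℤ) - i₀ + 1 ≤ m := by linarith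
    have e5 : 0 ≤ h * ((t : ℤ) - i₀) := mul_nonneg hh0 e1
    constructor
    · have : h * ((t : ℤ) - i₀ + 1) * (t - i₀) = (h * (t - i₀)) * (t - i₀ + 1) := by ring
      rw [this]
      exact mul_nonneg e5 (by linarith)
    · have : h * ((t : ℤ) - i₀ + 1) * (t - i₀) = (h * (t - i₀)) * (t - i₀ + 1) := by ring
      rw [this]
      calc (h * ((t : ℤ) - i₀)) * (t - i₀ + 1) ≤ (2 * H) * (t - i₀ + 1) :=
            mul_le_mul_of_nonneg_right e3 (by linarith)
        _ ≤ (2 * H) * m := mul_le_mul_of_nonneg_left e4 (by linarith)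
  have hki : i₀ ≤ k := by omega
  have hk32 : k ≤ a + 32 * x := by omega
  obtain ⟨a1, a2⟩ := hS k hki hk32
  obtain ⟨b1, b2⟩ := hq k hki hk32
  obtain ⟨c1, c2⟩ := hq d hd1 hd2
  have hkm : (k : ℤ) - i₀ ≤ m := by
    have : (k : ℤ) ≤ a + 32 * x := by exact_mod_cast hk32
    have : ((a : ℤ) + 1) ≤ i₀ := by exact_mod_cast hilo
    linarith
  have hk0 : (0 : ℤ) ≤ k - i₀ := by
    have : (i₀ : ℤ) ≤ k := by exact_mod_cast hki
    linarith
  have hkH : ((k : ℤ) - i₀) * H ≤ m * H := mul_le_mul_of_nonneg_right hkm (by linarith)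
  have hg8 : 4 * (2 * H * (m : ℤ)) < g := by
    have e1 : 2 * H * (m : ℤ) ≤ 2 * H * (m : ℤ) ^ 2 := by
      have : (m : ℤ) ≤ (m : ℤ) ^ 2 := by nlinarith
      exact mul_le_mul_of_nonneg_left this (by linarith)
    have e2 : (0 : ℤ) ≤ 2 * H * m := by positivity
    linarith
  have hF : ∀ t : ℕ, F2 s i₀ h t = 2 * s i₀ + 2 * ((t : ℤ) - i₀) * g +
      h * ((t : ℤ) - i₀ + 1) * (t - i₀) := by
    intro t
    unfold F2
    rfl
  rw [hF d] at heq
  rw [hF k] at hne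
  have hHm : (0 : ℤ) ≤ H * m := by positivity
  rcases lt_trichotomy k d with hlt | hEq | hgt
  · have e1 : ((k : ℤ) + 1) ≤ d := by exact_mod_cast hlt
    have e2 : 0 ≤ ((d : ℤ) - k - 1) * g := mul_nonneg (by linarith) (by linarith)
    nlinarith
  · subst hEq
    exact hne heq
  · have e1 : ((d : ℤ) + 1) ≤ k := by exact_mod_cast hgt
    have e2 : 0 ≤ ((k : ℤ) - d - 1) * g := mul_nonneg (by linarith) (by linarith)
    nlinarith

end Pool.Agent.Work.MP_b29d7f_cvx
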