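import Pool.Agent.Work.MP_b29d7f_cvx.Interface2

/-!
# Convex sets: block NDB (helper60)
-/

namespace Pool.Agent.Work.MP_b29d7f_cvx

open Finset
open Pool.Agent.Work.MP_b29d7f_nt (IsPOrdering HasSimultaneousOrdering PS vd ld tv)
open Pool.Agent.Work.MP_b29d7f_half (Ord A wv lD HalfDense)
open Pool.Agent.Work.MP_b29d7f_sep (nv EW EL)

theorem NDB_F2_sub (s : ℕ → ℤ) (i₀ : ℕ) (h t t' : ℤ) :
    F2 s i₀ h t' - F2 s i₀ h t =
      (t' - t) * (2 * gp s (i₀ - 1) + h * (t + t' - 2 * i₀ + 1)) := by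
  unfold F2
  ring

theorem NDB_lam_sq (s : ℕ → ℤ) (i₀ : ℕ) (h t : ℤ) :
    (2 * gp s (i₀ - 1) + h * (2 * t - 2 * i₀ + 1)) ^ 2 =
      4 * h * (F2 s i₀ h t - 2 * s i₀) + (2 * gp s (i₀ - 1) + h) ^ 2 := by
  unfold F2
  ring

theorem stmt_NDB (h1 : Stmt_PAD) (h2 : Stmt_PAE) (h3 : Stmt_HX) (h4 : Stmt_HPOS) : Stmt_NDB := by
  intro s C₀ N M P m J H x a i₀ h B hz k hk1 hk2 hoff p hp g l hT hlk hkl hlB hmin hmax hdvd
  have hzd := hz.zw.zd
  have hcvx := hzd.cvx
  obtain ⟨hpp, hPp⟩ := hzd.prime p hp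
  have hhx := h3 s C₀ N M P m J H x a i₀ h B hz
  have hh1 := h4 s C₀ N M P m J H x a i₀ h B hz
  obtain ⟨hmon, -, -, -⟩ := h1 s C₀ hcvx p hpp
  obtain ⟨-, -, -, -, -, -, hdist⟩ := h2 s C₀ hcvx p hpp
  obtain ⟨hxg, homg, hgrow, I, hI, hIc, hIj⟩ := hT
  have hx1 := hz.zw.x1
  have hx2 := hz.zw.x2
  have hmb := hzd.m_big
  have hilo := hz.i_lo
  have hihi := hz.i_hi
  have hBc := hz.B_card
  have hxbig : 10 ^ 10 ≤ x := by
    have : (10 : ℕ) ^ 20 = 100000000000000000000 := by norm_num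
    have : (10 : ℕ) ^ 10 = 10000000000 := by norm_num
    omega
  have hHP := hzd.HP
  have hHpos := hzd.H_pos
  have hm0 : (1 : ℤ) ≤ m := by
    have : 1 ≤ m := le_trans (by norm_num) hmb
    exact_mod_cast this
  have hmZ : (128 * x : ℤ) ≤ m := by exact_mod_cast hx1
  have hHP' : H < p := by
    have e1 : H * 1 ≤ H * (m : ℤ) ^ 2 := by
      apply mul_le_mul_of_nonneg_left _ (by omega)
      nlinarith
    have e2 : (P : ℤ) < p := by exact_mod_cast hPp
    nlinarith
  have hmp : (m : ℤ) < p := by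
    have e1 : (1 : ℤ) * (m : ℤ) ≤ H * (m : ℤ) ^ 2 := by
      have : (m : ℤ) ≤ (m : ℤ) ^ 2 := by nlinarith
      nlinarith
    have e2 : (P : ℤ) < p := by exact_mod_cast hPp
    nlinarith
  have hpZ : Prime (p : ℤ) := Nat.prime_iff_prime_int.mp hpp
  have hp2 : (2 : ℤ) < p := by
    have : (10 : ℤ) ^ 10 ≤ x := by exact_mod_cast hxbig
    have h10 : (10 : ℤ) ^ 10 = 10000000000 := by norm_num
    omega
  -- growth
  have hw1 : nv p s g = nv p s (g - x) := by
    have e1 := hmon (show g - x ≤ g by omega)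
    have e2 := hmon (show g ≤ g + 1 by omega)
    have e3 := hmon (show g + 1 ≤ g + x by omega)
    unfold om at homg
    omega
  have hw2 : nv p s (g + x) = nv p s (g + 1) := by
    have e1 := hmon (show g - x ≤ g by omega)
    have e2 := hmon (show g ≤ g + 1 by omega)
    have e3 := hmon (show g + 1 ≤ g + x by omega)
    unfold om at homg
    omega
  -- two congruent indices on the same side are equal
  have hleft : ∀ i j : ℕ, g - x ≤ i → i ≤ g → g - x ≤ j → j ≤ g → (p : ℤ) ∣ s j - s i → i = j := by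
    intro i j a1 a2 a3 a4 hd
    by_contra hne
    rcases lt_or_gt_of_ne hne with hlt | hlt
    · exact hdist (g - x) g i j a1 hlt a4 hw1 hd
    · refine hdist (g - x) g j i a3 hlt a2 hw1 ?_
      rw [← neg_sub, dvd_neg]
      exact hd
  have hright : ∀ i j : ℕ, g + 1 ≤ i → i ≤ g + x → g + 1 ≤ j → j ≤ g + x →
      (p : ℤ) ∣ s j - s i → i = j := by
    intro i j a1 a2 a3 a4 hd
    by_contra hne
    rcases lt_or_gt_of_ne hne with hlt | hlt
    · exact hdist (g + 1) (g + x) i j a1 hlt a4 hw2 hd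
    · refine hdist (g + 1) (g + x) j i a3 hlt a2 hw2 ?_
      rw [← neg_sub, dvd_neg]
      exact hd
  -- the matching
  have hIj' : ∀ i, ∃ j, i ∈ I → (j ∈ Ioc g (g + x) ∧ (p : ℤ) ∣ s j - s i) := by
    intro i
    by_cases hi : i ∈ I
    · obtain ⟨j, hj1, hj2⟩ := hIj i hi
      exact ⟨j, fun _ => ⟨hj1, hj2⟩⟩
    · exact ⟨0, fun h => absurd h hi⟩
  choose f hf using hIj'
  have hImem : ∀ i ∈ I, g - x < i ∧ i ≤ g := by
    intro i hi
    exact Finset.mem_Ioc.mp (hI hi)
  have hfmem : ∀ i ∈ I, g < f i ∧ f i ≤ g + x := by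
    intro i hi
    exact Finset.mem_Ioc.mp (hf i hi).1
  have hfinj : ∀ i ∈ I, ∀ i' ∈ I, f i = f i' → i = i' := by
    intro i hi i' hi' hff
    have e1 := (hf i hi).2
    have e2 := (hf i' hi').2
    rw [← hff] at e2
    have e3 : (p : ℤ) ∣ s i' - s i := by
      have := dvd_sub e1 e2
      have e4 : s (f i) - s i - (s (f i) - s i') = s i' - s i := by ring
      rwa [e4] at this
    exact hleft i i' (hImem i hi).1.le (hImem i hi).2 (hImem i' hi').1.le (hImem i' hi').2 e3
  classical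
  set I' : Finset ℕ := I.filter (fun i => i ∉ B ∧ f i ∉ B) with hI'
  have hI'c : I.card ≤ I'.card + 2 * B.card := by
    have e1 : (I.filter (fun i => i ∈ B)).card ≤ B.card := by
      apply Finset.card_le_card
      intro i hi
      exact (Finset.mem_filter.mp hi).2
    have e2 : (I.filter (fun i => f i ∈ B)).card ≤ B.card := by
      apply Finset.card_le_card_of_injOn f
      · intro i hi
        exact (Finset.mem_filter.mp hi).2
      · intro i hi i' hi' hff
        exact hfinj i (Finset.mem_filter.mp hi).1 i' (Finset.mem_filter.mp hi').1 hff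
    have e3 : I ⊆ I' ∪ (I.filter (fun i => i ∈ B) ∪ I.filter (fun i => f i ∈ B)) := by
      intro i hi
      by_cases a1 : i ∈ B
      · exact Finset.mem_union_right _ (Finset.mem_union_left _ (Finset.mem_filter.mpr ⟨hi, a1⟩))
      · by_cases a2 : f i ∈ B
        · exact Finset.mem_union_right _ (Finset.mem_union_right _
            (Finset.mem_filter.mpr ⟨hi, a2⟩))
        · exact Finset.mem_union_left _ (Finset.mem_filter.mpr ⟨hi, a1, a2⟩)
    have e4 := Finset.card_le_card e3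
    have e5 := Finset.card_union_le I' (I.filter (fun i => i ∈ B) ∪ I.filter (fun i => f i ∈ B))
    have e6 := Finset.card_union_le (I.filter (fun i => i ∈ B)) (I.filter (fun i => f i ∈ B))
    omega
  have hI'big : 4 * x ≤ 5 * I'.card := by omega
  have hI'ne : I'.Nonempty := by
    rw [← Finset.card_pos]
    omega
  -- positions
  have hgk : i₀ + x ≤ g + x ∧ i₀ ≤ g - x ∧ g + x ≤ a + 32 * x ∧ i₀ ≤ l ∧ l ≤ a + 32 * x ∧
      g - x ≤ k ∧ k ≤ g + x ∧ g - x ≤ l ∧ l ≤ g + x := by
    rcases le_total k l with hkl' | hkl'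
    · rw [min_eq_left hkl'] at hmin
      rw [max_eq_right hkl'] at hmax
      omega
    · rw [min_eq_right hkl'] at hmin
      rw [max_eq_left hkl'] at hmax
      omega
  obtain ⟨-, hgi, hga, hli, hla, hkg1, hkg2, hlg1, hlg2⟩ := hgk
  -- divisibility of lambda
  have hlam : ∀ i ∈ I', (p : ℤ) ∣ 2 * gp s (i₀ - 1) + h * (((i : ℤ) + f i) - 2 * i₀ + 1) := by
    intro i hi
    obtain ⟨hiI, hiB, hfB⟩ := Finset.mem_filter.mp hi
    have a1 := hImem i hiI
    have a2 := hfmem i hiI
    have e1 := hz.quad i (by omega) (by omega) hiB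
    have e2 := hz.quad (f i) (by omega) (by omega) hfB
    have e3 := (hf i hiI).2
    have e4 := NDB_F2_sub s i₀ h (i : ℤ) (f i : ℤ)
    rw [← e1, ← e2] at e4
    have e5 : (p : ℤ) ∣ ((f i : ℤ) - i) *
        (2 * gp s (i₀ - 1) + h * (((i : ℤ) + f i) - 2 * i₀ + 1)) := by
      rw [← e4]
      have : 2 * s (f i) - 2 * s i = 2 * (s (f i) - s i) := by ring
      rw [this]
      exact dvd_mul_of_dvd_right e3 2
    rcases hpZ.dvd_or_dvd e5 with e6 | e6
    · exfalso
      have e7 := Int.le_of_dvd (by omega) e6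
      omega
    · exact e6
  -- the common sum
  obtain ⟨i₁, hi₁⟩ := hI'ne
  have hsum : ∀ i ∈ I', i + f i = i₁ + f i₁ := by
    intro i hi
    by_contra hne
    have e1 := hlam i hi
    have e2 := hlam i₁ hi₁
    have e3 := dvd_sub e1 e2
    have e4 : 2 * gp s (i₀ - 1) + h * (((i : ℤ) + f i) - 2 * i₀ + 1) -
        (2 * gp s (i₀ - 1) + h * (((i₁ : ℤ) + f i₁) - 2 * i₀ + 1)) =
        h * (((i : ℤ) + f i) - (i₁ + f i₁)) := by ring
    rw [e4] at e3
    obtain ⟨hiI, -, -⟩ := Finset.mem_filter.mp hi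
    obtain ⟨hiI₁, -, -⟩ := Finset.mem_filter.mp hi₁
    have a1 := hImem i hiI
    have a2 := hfmem i hiI
    have a3 := hImem i₁ hiI₁
    have a4 := hfmem i₁ hiI₁
    have hne' : ((i : ℤ) + f i) - (i₁ + f i₁) ≠ 0 := by omega
    have e5 : |((i : ℤ) + f i) - (i₁ + f i₁)| ≤ 2 * x := by
      rw [abs_le]
      constructor <;> omega
    have e6 : |h * (((i : ℤ) + f i) - (i₁ + f i₁))| ≤ h * (2 * x) := by
      rw [abs_mul, abs_of_nonneg (by omega : (0 : ℤ) ≤ h)]
      exact mul_le_mul_of_nonneg_left e5 (by omega)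
    have e7 : h * (((i : ℤ) + f i) - (i₁ + f i₁)) = 0 := by
      apply Int.eq_zero_of_abs_lt_dvd e3
      have : h * (2 * (x : ℤ)) ≤ 20 * h * x := by nlinarith
      omega
    rcases mul_eq_zero.mp e7 with e8 | e8
    · omega
    · exact hne' e8
  set C := i₁ + f i₁ with hC
  have hlamC : (p : ℤ) ∣ 2 * gp s (i₀ - 1) + h * ((C : ℤ) - 2 * i₀ + 1) := by
    have := hlam i₁ hi₁
    rw [hC]
    push_cast
    exact this
  have hC1 : I'.card ≤ g + 1 - (C - (g + x)) := by
    rw [← Nat.card_Icc]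
    apply Finset.card_le_card
    intro i hi
    obtain ⟨hiI, -, -⟩ := Finset.mem_filter.mp hi
    have a1 := hImem i hiI
    have a2 := hfmem i hiI
    have a3 := hsum i hi
    rw [Finset.mem_Icc]
    omega
  have hC2 : I'.card ≤ (C - (g + 1)) + 1 - (g - x + 1) := by
    rw [← Nat.card_Icc]
    apply Finset.card_le_card
    intro i hi
    obtain ⟨hiI, -, -⟩ := Finset.mem_filter.mp hi
    have a1 := hImem i hiI
    have a2 := hfmem i hiI
    have a3 := hsum i hi
    rw [Finset.mem_Icc]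
    omega
  have hlC : l ≤ C ∧ g - x + 1 ≤ C - l ∧ C - l ≤ g + x := by
    rcases le_total k l with hkl' | hkl'
    · rw [min_eq_left hkl'] at hmin
      rw [max_eq_right hkl'] at hmax
      omega
    · rw [min_eq_right hkl'] at hmin
      rw [max_eq_left hkl'] at hmax
      omega
  obtain ⟨hlC0, hlC1, hlC2⟩ := hlC
  -- the mirror image of l
  have hql := hz.quad l hli hla hlB
  have hmir : (p : ℤ) ∣ F2 s i₀ h ((C - l : ℕ) : ℤ) - 2 * s k := by
    have e1 := NDB_F2_sub s i₀ h (l : ℤ) ((C - l : ℕ) : ℤ)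
    have e2 : (l : ℤ) + ((C - l : ℕ) : ℤ) - 2 * i₀ + 1 = (C : ℤ) - 2 * i₀ + 1 := by
      push_cast [Nat.cast_sub hlC0]
      ring
    rw [e2, ← hql] at e1
    have e3 : F2 s i₀ h ((C - l : ℕ) : ℤ) - 2 * s k =
        (((C - l : ℕ) : ℤ) - l) * (2 * gp s (i₀ - 1) + h * ((C : ℤ) - 2 * i₀ + 1)) +
          2 * (s l - s k) := by
      linear_combination e1
    rw [e3]
    exact dvd_add (dvd_mul_of_dvd_right hlamC _) (dvd_mul_of_dvd_right hdvd 2)
  by_cases hlsB : C - l ∈ B
  · right
    refine ⟨C - l, hlsB, by omega, by omega, ?_⟩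
    rw [← neg_sub, dvd_neg]
    exact hmir
  · by_cases hll : C - l = l
    · left
      have e1 := NDB_lam_sq s i₀ h (l : ℤ)
      have e2 : (C : ℤ) = 2 * l := by omega
      rw [e2] at hlamC
      have e3 : (p : ℤ) ∣ (2 * gp s (i₀ - 1) + h * (2 * (l : ℤ) - 2 * i₀ + 1)) ^ 2 :=
        dvd_pow hlamC two_ne_zero
      rw [e1, ← hql] at e3
      have e4 : 8 * h * (s k - s i₀) + (2 * gp s (i₀ - 1) + h) ^ 2 =
          4 * h * (2 * s l - 2 * s i₀) + (2 * gp s (i₀ - 1) + h) ^ 2 - 8 * h * (s l - s k) := by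
        ring
      rw [e4]
      exact dvd_sub e3 (dvd_mul_of_dvd_right hdvd _)
    · exfalso
      have hqs := hz.quad (C - l) (by omega) (by omega) hlsB
      rw [← hqs] at hmir
      have e1 : (p : ℤ) ∣ s (C - l) - s k := by
        have e2 : 2 * s (C - l) - 2 * s k = 2 * (s (C - l) - s k) := by ring
        rw [e2] at hmir
        rcases hpZ.dvd_or_dvd hmir with e3 | e3
        · exfalso
          have := Int.le_of_dvd (by norm_num) e3
          omega
        · exact e3
      have e2 : (p : ℤ) ∣ s (C - l) - s l := by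
        have := dvd_sub e1 hdvd
        have e3 : s (C - l) - s k - (s l - s k) = s (C - l) - s l := by ring
        rwa [e3] at this
      have hkk : k = C - l := by
        rcases le_total k l with hkl' | hkl'
        · rw [min_eq_left hkl'] at hmin
          rw [max_eq_right hkl'] at hmax
          -- k ≤ g < l
          by_cases hside : C - l ≤ g
          · exact hleft k (C - l) hkg1 hmin (by omega) hside e1
          · exfalso
            exact hll (hright l (C - l) (by omega) hlg2 (by omega) hlC2 e2).symm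
        · rw [min_eq_right hkl'] at hmin
          rw [max_eq_left hkl'] at hmax
          by_cases hside : C - l ≤ g
          · exfalso
            exact hll (hleft l (C - l) hlg1 hmin (by omega) hside e2).symm
          · exact hright k (C - l) (by omega) hkg2 (by omega) hlC2 e1
      rw [← hkk] at hqs
      exact hoff hqs

end Pool.Agent.Work.MP_b29d7f_cvx
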