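import Pool.Agent.Work.MP_b29d7f_cvx.Interface2

namespace Pool.Agent.Work.MP_b29d7f_cvx

open Finset
open Pool.Agent.Work.MP_b29d7f_half (lD)
open Pool.Agent.Work.MP_b29d7f_sep (nv)

theorem stmt_NFLG (h1 : Stmt_PAD) (h2 : Stmt_PRF) (h3 : Stmt_UG) : Stmt_NFLG := by
  classical
  intro s C₀ N M P m J H zd R hR
  obtain ⟨X, hX0, hX1, hX2⟩ := zd.hbad
  have hUG := (h3 s C₀ N M P m J H zd).2
  have hPRF := h2 s C₀ zd.cvx (2 * N)
  obtain ⟨hprime, -, hlD, -, -⟩ := hPRF
  set PGs := PG s N M P with hPGs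
  set R' : Finset ℕ := PGs.biUnion R with hR'
  have hR'1 : ∀ g ∈ R', N ≤ 2 * g ∧ g < N - m ∧ ¬ FlG s H N m g := by
    intro g hg
    rw [hR', mem_biUnion] at hg
    obtain ⟨p, hp, hgp⟩ := hg
    exact hR p hp g hgp
  have hcard : R'.card ≤ 2 * NF s H N m := hUG R' hR'1
  have homcast : ∀ p : ℕ, p.Prime → ∀ g : ℕ, (om p s g : ℝ) = (nv p s (g + 1) : ℝ) - nv p s g := by
    intro p hp g
    have hm := (h1 s C₀ zd.cvx p hp).1 (Nat.le_succ g)
    unfold om
    rw [Nat.cast_sub hm]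
  have hlogp : ∀ p : ℕ, p.Prime → 0 ≤ Real.log p := fun p hp =>
    Real.log_nonneg (by exact_mod_cast hp.one_lt.le)
  have hsub : PGs ⊆ PR s (2 * N) := by
    intro p hp
    rw [hPGs, mem_PG] at hp
    exact hp.1
  have hone : ∀ g ∈ R', ∑ p ∈ PGs, Real.log p * (om p s g : ℝ) ≤ X := by
    intro g hg
    obtain ⟨g1, g2, -⟩ := hR'1 g hg
    have hgN : g < N := by omega
    calc ∑ p ∈ PGs, Real.log p * (om p s g : ℝ)
        ≤ ∑ p ∈ PR s (2 * N), Real.log p * (om p s g : ℝ) := by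
          apply Finset.sum_le_sum_of_subset_of_nonneg hsub
          intro p hp _
          exact mul_nonneg (hlogp p (hprime p hp)) (Nat.cast_nonneg _)
      _ = ∑ p ∈ PR s (2 * N), (Real.log p * (nv p s (g + 1) : ℝ) - Real.log p * nv p s g) := by
          apply Finset.sum_congr rfl
          intro p hp
          rw [homcast p (hprime p hp) g]
          ring
      _ = lD s (g + 1) - lD s g := by
          rw [Finset.sum_sub_distrib, ← hlD (g + 1) (by omega), ← hlD g (by omega)]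
      _ ≤ X := hX1 g g1 hgN
  have hmain : ∑ p ∈ PGs, Real.log p * ∑ g ∈ R p, (om p s g : ℝ) ≤ R'.card * X := by
    calc ∑ p ∈ PGs, Real.log p * ∑ g ∈ R p, (om p s g : ℝ)
        ≤ ∑ p ∈ PGs, ∑ g ∈ R', Real.log p * (om p s g : ℝ) := by
          apply Finset.sum_le_sum
          intro p hp
          rw [Finset.mul_sum]
          apply Finset.sum_le_sum_of_subset_of_nonneg
          · intro g hg
            rw [hR', mem_biUnion]
            exact ⟨p, hp, hg⟩
          · intro g _ _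
            exact mul_nonneg (hlogp p (hprime p (hsub hp))) (Nat.cast_nonneg _)
      _ = ∑ g ∈ R', ∑ p ∈ PGs, Real.log p * (om p s g : ℝ) := Finset.sum_comm
      _ ≤ ∑ g ∈ R', X := Finset.sum_le_sum hone
      _ = R'.card * X := by rw [Finset.sum_const, nsmul_eq_mul]
  have hcard' : (R'.card : ℝ) ≤ 2 * NF s H N m := by exact_mod_cast hcard
  have hJ : (0 : ℝ) ≤ J := Nat.cast_nonneg _
  have hN : (0 : ℝ) ≤ N := Nat.cast_nonneg _
  calc (J : ℝ) * ∑ p ∈ PGs, Real.log p * ∑ g ∈ R p, (om p s g : ℝ)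
      ≤ J * (R'.card * X) := mul_le_mul_of_nonneg_left hmain hJ
    _ ≤ J * ((2 * NF s H N m) * X) :=
        mul_le_mul_of_nonneg_left (mul_le_mul_of_nonneg_right hcard' hX0) hJ
    _ = 2 * ((J : ℝ) * X * NF s H N m) := by ring
    _ ≤ 2 * (1 / 10 ^ 40 * N) := by linarith
    _ ≤ 1 / 10 ^ 39 * N := by
        have : (2 : ℝ) * (1 / 10 ^ 40) ≤ 1 / 10 ^ 39 := by norm_num
        nlinarith

end Pool.Agent.Work.MP_b29d7f_cvx
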