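import Pool.Agent.Work.MP_b29d7f_cvx.Interface

/-! # Block NHD (helper87) -/

set_option autoImplicit false

namespace Pool.Agent.Work.MP_b29d7f_cvx

open Finset
open Pool.Agent.Work.MP_b29d7f_half (HalfDense)

theorem NHD_count (s : ℕ → ℤ) (h0 : s 0 = 0) (hm : StrictMono s) (n L : ℕ) (h : s n < L) :
    (n : ℝ) ≤ ((Set.range s ∩ Set.Ico 0 (0 + (L : ℤ))).ncard : ℝ) := by
  have hsub : (((range n).image s : Finset ℤ) : Set ℤ) ⊆
      Set.range s ∩ Set.Ico 0 (0 + (L : ℤ)) := by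
    intro x hx
    rw [mem_coe, mem_image] at hx
    obtain ⟨i, hi, rfl⟩ := hx
    rw [mem_range] at hi
    refine ⟨⟨i, rfl⟩, ?_, ?_⟩
    · rw [← h0]; exact hm.monotone (Nat.zero_le i)
    · have := hm hi
      omega
  have hfin : (Set.range s ∩ Set.Ico 0 (0 + (L : ℤ))).Finite :=
    (Set.finite_Ico _ _).subset Set.inter_subset_right
  have h1 := Set.ncard_le_ncard hsub hfin
  rw [Set.ncard_coe_finset, card_image_of_injective _ hm.injective, card_range] at h1
  exact_mod_cast h1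

theorem stmt_NHD : Stmt_NHD := by
  intro s h0 hm hH ε₀ hε₀ n₁
  by_contra hcon
  push Not at hcon
  apply hH
  -- reduce to `ε ≤ 1`
  obtain ⟨ε, hε, hε1, hεε⟩ : ∃ ε : ℝ, 0 < ε ∧ ε ≤ 1 ∧ ε ≤ ε₀ :=
    ⟨min ε₀ 1, lt_min hε₀ one_pos, min_le_right _ _, min_le_left _ _⟩
  have hs : ∀ n : ℕ, n₁ ≤ n → Lg s n < (2 - ε) * Real.log n := by
    intro n hn
    refine (hcon n hn).trans_le ?_
    exact mul_le_mul_of_nonneg_right (by linarith) (Real.log_natCast_nonneg n)
  refine ⟨ε / 8, by positivity, ?_⟩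
  -- large L
  have hlog : Filter.Tendsto (fun L : ℕ => Real.log L) Filter.atTop Filter.atTop :=
    Real.tendsto_log_atTop.comp tendsto_natCast_atTop_atTop
  obtain ⟨L₁, hL₁⟩ := Filter.eventually_atTop.1
    (hlog.eventually (Filter.eventually_ge_atTop (8 * Real.log 2 / ε)))
  refine ⟨max L₁ (max 2 ((n₁ + 1) ^ 2)), fun L hL => ⟨0, ?_⟩⟩
  have hLL1 : L₁ ≤ L := le_trans (le_max_left _ _) hL
  have hL2 : 2 ≤ L := le_trans (le_trans (le_max_left _ _) (le_max_right _ _)) hL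
  have hLn : (n₁ + 1) ^ 2 ≤ L := le_trans (le_trans (le_max_right _ _) (le_max_right _ _)) hL
  have hL1R : (1 : ℝ) ≤ L := by exact_mod_cast (by omega : 1 ≤ L)
  have hlogL : 8 * Real.log 2 / ε ≤ Real.log L := hL₁ L hLL1
  have hlogL' : 8 * Real.log 2 ≤ ε * Real.log L := by
    rw [div_le_iff₀ hε] at hlogL; linarith
  set x : ℝ := (L : ℝ) ^ (1 / 2 + ε / 8) with hx
  have hx1 : 1 ≤ x := Real.one_le_rpow hL1R (by positivity)
  set n : ℕ := ⌈x⌉₊ with hn
  have hxn : x ≤ n := Nat.le_ceil x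
  have hnx : (n : ℝ) ≤ 2 * x := by
    have := Nat.ceil_lt_add_one (by linarith : (0 : ℝ) ≤ x)
    linarith
  have hn1 : n₁ ≤ n := by
    have h2 : (n₁ : ℝ) + 1 ≤ x := by
      have h3 : ((n₁ : ℝ) + 1) = (((n₁ : ℝ) + 1) ^ 2) ^ (1 / 2 : ℝ) := by
        rw [← Real.sqrt_eq_rpow, Real.sqrt_sq (by positivity)]
      rw [h3]
      have h4 : (((n₁ : ℝ) + 1) ^ 2) ≤ L := by exact_mod_cast hLn
      calc (((n₁ : ℝ) + 1) ^ 2) ^ (1 / 2 : ℝ) ≤ (L : ℝ) ^ (1 / 2 : ℝ) :=
            Real.rpow_le_rpow (by positivity) h4 (by norm_num)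
        _ ≤ x := Real.rpow_le_rpow_of_exponent_le hL1R (by linarith)
    have h5 : (n₁ : ℝ) ≤ n := by linarith
    exact_mod_cast h5
  have hnpos : (0 : ℝ) < n := by linarith
  have hnN : 0 < n := by exact_mod_cast hnpos
  have hspos : 0 < s n := by rw [← h0]; exact hm hnN
  have hsn : s n < L := by
    have h2 := hs n hn1
    have h3 : Real.log n ≤ Real.log 2 + (1 / 2 + ε / 8) * Real.log L := by
      have h4 : Real.log n ≤ Real.log (2 * x) := Real.log_le_log hnpos hnx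
      rw [Real.log_mul (by norm_num) (by linarith), hx, Real.log_rpow (by linarith)] at h4
      exact h4
    have hl0 : 0 ≤ Real.log L := Real.log_nonneg hL1R
    have hl2 : 0 < Real.log 2 := Real.log_pos (by norm_num)
    have h5 : (2 - ε) * Real.log n ≤ (2 - ε) * (Real.log 2 + (1 / 2 + ε / 8) * Real.log L) :=
      mul_le_mul_of_nonneg_left h3 (by linarith)
    have h6 : (2 - ε) * (Real.log 2 + (1 / 2 + ε / 8) * Real.log L) ≤ Real.log L := by
      nlinarith [mul_nonneg hε.le hl0, mul_nonneg hε.le hl2.le, mul_nonneg (mul_nonneg hε.le hε.le) hl0]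
    have h7 : Real.log (s n) < Real.log L := by
      have : Lg s n = Real.log (s n) := rfl
      linarith
    have h8 : ((s n : ℤ) : ℝ) < (L : ℝ) :=
      (Real.log_lt_log_iff (by exact_mod_cast hspos) (by linarith)).1 h7
    exact_mod_cast h8
  exact hxn.trans (NHD_count s h0 hm n L hsn)

end Pool.Agent.Work.MP_b29d7f_cvx
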