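import Pool.Agent.Work.MP_b29d7f_cvx.Interface2

/-!
# NISO: the mass of the places which are not isolated
-/

namespace Pool.Agent.Work.MP_b29d7f_cvx

open Finset
open scoped Classical

/-- a double sum over an interval of a symmetric function which vanishes on the diagonal -/
theorem NISO_sym (F : ℕ → ℕ → ℝ) (hs : ∀ a b, F a b = F b a) (h0 : ∀ a, F a a = 0) (u : ℕ) :
    ∀ d : ℕ, ∑ a ∈ Ico u (u + d), ∑ b ∈ Ico u (u + d), F a b =
      2 * ∑ a ∈ Ico u (u + d), ∑ b ∈ Ico (a + 1) (u + d), F a b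
  | 0 => by simp
  | d + 1 => by
    have ih := NISO_sym F hs h0 u d
    have e1 : ∀ a ∈ Ico u (u + d), ∑ b ∈ Ico (a + 1) (u + (d + 1)), F a b =
        ∑ b ∈ Ico (a + 1) (u + d), F a b + F a (u + d) := by
      intro a ha
      rw [mem_Ico] at ha
      rw [← add_assoc, sum_Ico_succ_top (by omega)]
    have e2 : ∀ a : ℕ, ∑ b ∈ Ico u (u + (d + 1)), F a b =
        ∑ b ∈ Ico u (u + d), F a b + F a (u + d) := by
      intro a
      rw [← add_assoc, sum_Ico_succ_top (by omega)]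
    have e4 : ∑ a ∈ Ico u (u + d), F a (u + d) = ∑ b ∈ Ico u (u + d), F (u + d) b :=
      sum_congr rfl fun a _ => hs a _
    have l1 : ∑ a ∈ Ico u (u + (d + 1)), ∑ b ∈ Ico u (u + (d + 1)), F a b =
        ∑ a ∈ Ico u (u + d), ∑ b ∈ Ico u (u + d), F a b +
          2 * ∑ a ∈ Ico u (u + d), F a (u + d) := by
      rw [sum_congr rfl (fun a _ => e2 a), ← add_assoc u d 1, sum_Ico_succ_top (by omega),
        sum_add_distrib, ← e4, h0]
      ring
    have l2 : ∑ a ∈ Ico u (u + (d + 1)), ∑ b ∈ Ico (a + 1) (u + (d + 1)), F a b =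
        ∑ a ∈ Ico u (u + d), ∑ b ∈ Ico (a + 1) (u + d), F a b +
          ∑ a ∈ Ico u (u + d), F a (u + d) := by
      have h3 : ∑ a ∈ Ico u (u + (d + 1)), ∑ b ∈ Ico (a + 1) (u + (d + 1)), F a b =
          ∑ a ∈ Ico u (u + d), ∑ b ∈ Ico (a + 1) (u + (d + 1)), F a b := by
        rw [← add_assoc u d 1, sum_Ico_succ_top (by omega)]
        simp
      rw [h3, sum_congr rfl e1, sum_add_distrib]
    rw [l1, l2, ih]
    ring

theorem NISO_one {s : ℕ → ℤ} {N m : ℕ} (p : ℕ) (hm : 1 ≤ m) (hmN : 10 ^ 10 * m ≤ N)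
    (R : Finset ℕ) (hR : ∀ g ∈ R, N ≤ 2 * g ∧ g < N - 2 * m ∧ ¬ Iso p s m g) :
    (∑ g ∈ R, (om p s g : ℝ)) * (1 / 10 ^ 10 * (m : ℝ) ^ 2 / 16) ≤
      ∑ u ∈ range (N - m + 1), PT p s u m := by
  have hm0 : (0 : ℝ) < m := by exact_mod_cast hm
  set F : ℕ → ℕ → ℝ := fun a b => (om p s a : ℝ) * om p s b * |(b : ℝ) - a| with hF
  have hF0 : ∀ a b, 0 ≤ F a b := fun a b => by
    simp only [hF]; positivity
  have hPT : ∀ u, 2 * PT p s u m = ∑ a ∈ Ico u (u + m), ∑ b ∈ Ico u (u + m), F a b := by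
    intro u
    rw [NISO_sym F (fun a b => by simp only [hF]; rw [abs_sub_comm]; ring)
      (fun a => by simp [hF]) u m]
    unfold PT
    congr 1
    refine sum_congr rfl fun a _ => sum_congr rfl fun b hb => ?_
    rw [mem_Ico] at hb
    simp only [hF]
    rw [abs_of_nonneg]
    have : (a : ℝ) ≤ b := by exact_mod_cast (by omega : a ≤ b)
    linarith
  -- the witnesses
  have hw : ∀ g ∈ R, ∃ b : ℕ, om p s b ≠ 0 ∧ |(b : ℝ) - g| ≤ 3 * m / 4 ∧
      1 / 10 ^ 10 * (m : ℝ) / 2 < |(b : ℝ) - g| := by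
    intro g hg
    have h := (hR g hg).2.2
    unfold Iso at h
    push Not at h
    obtain ⟨b, h1, h2, h3⟩ := h
    exact ⟨b, h1, h2, h3⟩
  choose! w hw1 hw2 hw3 using hw
  set U : ℕ → Finset ℕ := fun g => Icc (max g (w g) + 1 - m) (min g (w g)) with hU
  have hdist : ∀ g ∈ R, ((max g (w g) : ℕ) : ℝ) - (min g (w g) : ℕ) ≤ 3 * m / 4 := by
    intro g hg
    have h2 := hw2 g hg
    rw [abs_le] at h2
    rcases le_total g (w g) with h | h
    · rw [max_eq_right h, min_eq_left h]; linarith [h2.2]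
    · rw [max_eq_left h, min_eq_right h]; linarith [h2.1]
  have hUw : ∀ g u, u ∈ U g → g ∈ Ico u (u + m) ∧ w g ∈ Ico u (u + m) := by
    intro g u hu
    simp only [hU, mem_Icc] at hu
    rw [mem_Ico, mem_Ico]
    omega
  have hUr : ∀ g ∈ R, U g ⊆ range (N - m + 1) := by
    intro g hg u hu
    simp only [hU, mem_Icc] at hu
    have := (hR g hg).2.1
    rw [mem_range]
    omega
  have hUc : ∀ g ∈ R, (m : ℝ) / 4 ≤ (U g).card := by
    intro g hg
    have h1 := hdist g hg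
    have h2 := (hR g hg).1
    have h3 : (U g).card = min g (w g) + 1 - (max g (w g) + 1 - m) := by
      simp only [hU, Nat.card_Icc]
    have h4 : m ≤ max g (w g) + 1 := by omega
    have h5 : max g (w g) + 1 - m ≤ min g (w g) + 1 := by
      have : ((max g (w g) : ℕ) : ℝ) ≤ ((min g (w g) + m : ℕ) : ℝ) := by
        push_cast at h1 ⊢
        linarith
      have h6 : max g (w g) ≤ min g (w g) + m := by exact_mod_cast this
      omega
    rw [h3, Nat.cast_sub h5, Nat.cast_sub h4]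
    push_cast at h1 ⊢
    linarith
  have key : ∀ u ∈ range (N - m + 1),
      ∑ g ∈ R, (if u ∈ U g then (om p s g : ℝ) * (1 / 10 ^ 10 * (m : ℝ) / 2) else 0) ≤
        2 * PT p s u m := by
    intro u _
    rw [hPT u, ← sum_filter]
    calc ∑ g ∈ R.filter (fun g => u ∈ U g), (om p s g : ℝ) * (1 / 10 ^ 10 * (m : ℝ) / 2)
        ≤ ∑ g ∈ R.filter (fun g => u ∈ U g), ∑ b ∈ Ico u (u + m), F g b := by
          refine sum_le_sum fun g hg => ?_
          rw [mem_filter] at hg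
          refine le_trans ?_ (single_le_sum (fun b _ => hF0 g b) (hUw g u hg.2).2)
          have h1 : (1 : ℝ) ≤ om p s (w g) := by
            exact_mod_cast Nat.one_le_iff_ne_zero.2 (hw1 g hg.1)
          have h2 := hw3 g hg.1
          have h3 : (0 : ℝ) ≤ om p s g := Nat.cast_nonneg _
          simp only [hF]
          rw [mul_assoc]
          refine mul_le_mul_of_nonneg_left ?_ h3
          nlinarith [abs_nonneg ((w g : ℝ) - g)]
      _ ≤ ∑ a ∈ Ico u (u + m), ∑ b ∈ Ico u (u + m), F a b := by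
          refine sum_le_sum_of_subset_of_nonneg ?_ (fun a _ _ => sum_nonneg fun b _ => hF0 a b)
          intro g hg
          rw [mem_filter] at hg
          exact (hUw g u hg.2).1
  have h2 : ∑ u ∈ range (N - m + 1),
      ∑ g ∈ R, (if u ∈ U g then (om p s g : ℝ) * (1 / 10 ^ 10 * (m : ℝ) / 2) else 0) ≤
        2 * ∑ u ∈ range (N - m + 1), PT p s u m := by
    rw [mul_sum]
    exact sum_le_sum key
  rw [sum_comm] at h2
  have h3 : ∑ g ∈ R, (om p s g : ℝ) * (1 / 10 ^ 10 * (m : ℝ) / 2) * (m / 4) ≤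
      ∑ g ∈ R, ∑ u ∈ range (N - m + 1),
        (if u ∈ U g then (om p s g : ℝ) * (1 / 10 ^ 10 * (m : ℝ) / 2) else 0) := by
    refine sum_le_sum fun g hg => ?_
    have e : (range (N - m + 1)).filter (fun u => u ∈ U g) = U g := by
      ext u
      rw [mem_filter]
      exact ⟨fun h => h.2, fun h => ⟨hUr g hg h, h⟩⟩
    rw [← sum_filter, e, sum_const, nsmul_eq_mul, mul_comm ((U g).card : ℝ)]
    exact mul_le_mul_of_nonneg_left (hUc g hg) (by positivity)
  have h4 : ∑ g ∈ R, (om p s g : ℝ) * (1 / 10 ^ 10 * (m : ℝ) / 2) * (m / 4) =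
      2 * ((∑ g ∈ R, (om p s g : ℝ)) * (1 / 10 ^ 10 * (m : ℝ) ^ 2 / 16)) := by
    rw [sum_mul, mul_sum]
    refine sum_congr rfl fun g _ => ?_
    ring
  linarith

theorem stmt_NISO : Stmt_NISO := by
  intro s C₀ N M P m J H hZ R hR
  have hm : 1 ≤ m := le_trans (by norm_num) hZ.m_big
  have hm0 : (0 : ℝ) < m := by exact_mod_cast hm
  have h1 : (∑ p ∈ PG s N M P, Real.log p * ∑ g ∈ R p, (om p s g : ℝ)) *
      (1 / 10 ^ 10 * (m : ℝ) ^ 2 / 16) ≤ Pair s N M P m := by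
    unfold Pair
    rw [sum_mul]
    refine sum_le_sum fun p hp => ?_
    rw [mul_assoc]
    exact mul_le_mul_of_nonneg_left (NISO_one p hm hZ.m_N (R p) (hR p hp))
      (Real.log_natCast_nonneg p)
  have h2 := hZ.pair
  have hJ : (0 : ℝ) ≤ J := Nat.cast_nonneg _
  have h3 := mul_le_mul_of_nonneg_left h1 hJ
  have hN : (0 : ℝ) ≤ (N : ℝ) * Real.log N :=
    mul_nonneg (Nat.cast_nonneg _) (Real.log_natCast_nonneg N)
  have h4 : ((J : ℝ) * ∑ p ∈ PG s N M P, Real.log p * ∑ g ∈ R p, (om p s g : ℝ)) *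
      (m : ℝ) ^ 2 ≤ (16 / 10 ^ 30 * N * Real.log N) * (m : ℝ) ^ 2 := by
    have : (J : ℝ) * ((∑ p ∈ PG s N M P, Real.log p * ∑ g ∈ R p, (om p s g : ℝ)) *
      (1 / 10 ^ 10 * (m : ℝ) ^ 2 / 16)) ≤ 1 / 10 ^ 40 * (m : ℝ) ^ 2 * N * Real.log N :=
      le_trans h3 h2
    nlinarith
  have h5 := le_of_mul_le_mul_right h4 (by positivity)
  nlinarith

end Pool.Agent.Work.MP_b29d7f_cvx
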