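import Pool.Agent.Work.MP_b29d7f_cvx.InterfaceC

/-! # Block NNG -/

namespace Pool.Agent.Work.MP_b29d7f_cvx

open Finset
open Pool.Agent.Work.MP_b29d7f_half (HalfDense)

theorem stmt_NNG (h1 : Stmt_EQU) (h2 : Stmt_NUMB) (h3 : Stmt_NUME) (h4 : Stmt_LVL)
    (h5 : Stmt_POS) : Stmt_NNG := by
  intro s C₀ hs
  obtain ⟨n₁, hn₁⟩ := h1 s C₀ hs
  obtain ⟨n₂, hn₂⟩ := h2 s C₀ hs
  obtain ⟨n₃, hn₃⟩ := h3 s C₀ hs 0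
  refine ⟨max n₁ (max n₂ n₃), fun n hn v Z v₁ Z₁ v₂ Z₂ h h₁ h₂ R t => ?_⟩
  obtain ⟨-, e2⟩ := hn₁ n (by omega) v Z v₁ Z₁ v₂ Z₂ h h₁ h₂ R
  obtain ⟨m, hm, hm4, hm2, h3m, hy⟩ := hn₂ n (by omega) v Z v₁ Z₁ v₂ Z₂ h h₁ h₂ R
  obtain ⟨hg₁, hg₂, -⟩ := hn₃ n (by omega) v Z v₁ Z₁ v₂ Z₂ h h₁ h₂ R
  by_contra hneg
  rw [not_le] at hneg
  have ho₁ := R.z₁.one_le
  have ho₂ := R.z₂.one_le
  have hlvl := h4 s C₀ hs v₁ Z₁ (2 * m) h₁ R.z₁.zone hm2 (by omega) t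
  have hF : Fz s v₁ h₁ t = - (- Fz s v₁ h₁ t) := by ring
  rw [hF] at hlvl
  refine h5 s C₀ hs m (- Fz s v₁ h₁ t) hm h3m (by linarith) ?_ hlvl
  have key : - Fz s v₁ h₁ t ≤ gp s v₂ ^ 2 := by
    have q1 := La_sq (s v₁) (gp s v₁) h₁ t
    have q2 : Ev (s v₂) (gp s v₂) h₂ = 8 * h₂ * s v₂ - (2 * gp s v₂ - h₂) ^ 2 := rfl
    have hsv : 0 ≤ s v₂ := by
      have := hs.mono.monotone (Nat.zero_le v₂)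
      rw [hs.zero] at this
      exact this
    have q3 : 0 ≤ La (gp s v₁) h₁ t ^ 2 := sq_nonneg _
    have q4 : (2 * gp s v₂ - h₂) ^ 2 ≤ 4 * gp s v₂ ^ 2 := by nlinarith
    have q5 : - (4 * gp s v₂ ^ 2) ≤ Ev (s v₂) (gp s v₂) h₂ := by
      rw [q2]
      have : 0 ≤ 8 * h₂ * s v₂ := by positivity
      linarith
    -- 8 h₁ h₂ F ≥ h₂ E₁ = h₁ E₂ ≥ -4 h₁ g₂²
    have q6 : Ev (s v₁) (gp s v₁) h₁ ≤ 8 * h₁ * Fz s v₁ h₁ t := by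
      have : Fz s v₁ h₁ t = Fq (s v₁) (gp s v₁) h₁ t := rfl
      rw [this]; linarith
    have q7 : h₂ * Ev (s v₁) (gp s v₁) h₁ ≤ h₂ * (8 * h₁ * Fz s v₁ h₁ t) :=
      mul_le_mul_of_nonneg_left q6 (by linarith)
    have q8 : h₁ * (- (4 * gp s v₂ ^ 2)) ≤ h₁ * Ev (s v₂) (gp s v₂) h₂ :=
      mul_le_mul_of_nonneg_left q5 (by linarith)
    have q9 : h₁ * (- (4 * gp s v₂ ^ 2)) ≤ h₁ * (8 * h₂ * Fz s v₁ h₁ t) := by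
      calc h₁ * (- (4 * gp s v₂ ^ 2)) ≤ h₁ * Ev (s v₂) (gp s v₂) h₂ := q8
        _ = h₂ * Ev (s v₁) (gp s v₁) h₁ := e2.symm
        _ ≤ h₂ * (8 * h₁ * Fz s v₁ h₁ t) := q7
        _ = h₁ * (8 * h₂ * Fz s v₁ h₁ t) := by ring
    have q10 : - (4 * gp s v₂ ^ 2) ≤ 8 * h₂ * Fz s v₁ h₁ t :=
      le_of_mul_le_mul_left q9 (by linarith)
    nlinarith [sq_nonneg (gp s v₂)]
  exact hy _ (by linarith) key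

end Pool.Agent.Work.MP_b29d7f_cvx
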