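import Pool.Agent.Work.MP_b29d7f_cvx.Interface2

/-!
# Convex sets with a simultaneous ordering, block NODEF: no element is off the parabola
-/

namespace Pool.Agent.Work.MP_b29d7f_cvx

open Finset
open scoped Classical
open Pool.Agent.Work.MP_b29d7f_nt (IsPOrdering HasSimultaneousOrdering PS vd ld tv)
open Pool.Agent.Work.MP_b29d7f_half (Ord A wv lD HalfDense)
open Pool.Agent.Work.MP_b29d7f_sep (nv EW EL)

theorem NODEF_nv_sum (p : ℕ) (s : ℕ → ℤ) (hm : Monotone (nv p s)) (a b : ℕ) (hab : a ≤ b) :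
    ∑ g ∈ Ico a b, (om p s g : ℝ) = (nv p s b : ℝ) - nv p s a := by
  obtain ⟨l, rfl⟩ := Nat.exists_eq_add_of_le hab
  clear hab
  induction l with
  | zero => simp
  | succ l ih =>
    rw [← add_assoc, sum_Ico_succ_top (Nat.le_add_right a l), ih, om,
      Nat.cast_sub (hm (Nat.le_succ _))]
    ring

theorem NODEF_primes (T : Finset ℕ) (n : ℤ) (hn : n ≠ 0) (hT : ∀ p ∈ T, p.Prime)
    (hd : ∀ p ∈ T, (p : ℤ) ∣ n) : ∑ p ∈ T, Real.log p ≤ Real.log |(n : ℝ)| := by
  have h1 : ∏ p ∈ T, p ∣ n.natAbs :=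
    Finset.prod_primes_dvd _ (fun p hp => (hT p hp).prime)
      (fun p hp => Int.natCast_dvd.1 (hd p hp))
  have h2 : ∏ p ∈ T, p ≤ n.natAbs := Nat.le_of_dvd (Int.natAbs_pos.2 hn) h1
  rw [← Real.log_prod (fun p hp => by
    have := (hT p hp).pos
    positivity)]
  have h3 : ((∏ p ∈ T, p : ℕ) : ℝ) ≤ (n.natAbs : ℝ) := by exact_mod_cast h2
  rw [Nat.cast_natAbs, Int.cast_abs] at h3
  push_cast at h3
  refine Real.log_le_log (prod_pos fun p hp => ?_) h3
  have := (hT p hp).pos
  positivity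

theorem NODEF_biUnion (B : Finset ℕ) (t : ℕ → Finset ℕ) (f : ℕ → ℝ) (hf : ∀ p, 0 ≤ f p) :
    ∑ p ∈ B.biUnion t, f p ≤ ∑ d ∈ B, ∑ p ∈ t d, f p := by
  induction B using Finset.induction_on with
  | empty => simp
  | insert d B hd ih =>
    rw [biUnion_insert, sum_insert hd]
    have h1 := sum_union_inter (s₁ := t d) (s₂ := B.biUnion t) (f := f)
    have h2 : 0 ≤ ∑ p ∈ t d ∩ B.biUnion t, f p := sum_nonneg fun p _ => hf p
    linarith

theorem stmt_NODEF (hPAD : Stmt_PAD) (hPAE : Stmt_PAE) (hPRF : Stmt_PRF) (hHPOS : Stmt_HPOS)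
    (hNDA : Stmt_NDA) (hNDB : Stmt_NDB) : Stmt_NODEF := by
  intro s C₀ N M P m J H x a i₀ h B zf k hk1 hk2
  by_contra hne
  have zw := zf.zw
  have zd := zw.zd
  have cv := zd.cvx
  have hh1 := hHPOS s C₀ N M P m J H x a i₀ h B zf
  have hda := hNDA s C₀ N M P m J H x a i₀ h B zf k hk1 hk2 hne
  have hdb := hNDB s C₀ N M P m J H x a i₀ h B zf k hk1 hk2 hne
  have hmb' := zd.m_big
  have hmN' := zd.m_N
  have hx1 := zw.x1
  have hx2 := zw.x2
  have hal := zw.a_lo
  have hah := zw.a_hi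
  have hi1 := zf.i_lo
  have hi2 := zf.i_hi
  have hBc := zf.B_card
  have hmb : (10 : ℝ) ^ 20 ≤ m := by exact_mod_cast hmb'
  have hmN : (10 : ℝ) ^ 10 * m ≤ N := by exact_mod_cast hmN'
  have hx1' : (128 : ℝ) * x ≤ m := by exact_mod_cast hx1
  have hx2' : (m : ℝ) < 128 * x + 128 := by exact_mod_cast hx2
  have hxb : (10 : ℝ) ^ 17 ≤ x := by linarith
  have hxb' : 10 ^ 17 ≤ x := by exact_mod_cast hxb
  have hN0 : (10 : ℝ) ^ 30 ≤ N := by linarith
  have hlog := zd.log_N
  set r := x / 2 with hr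
  have hr1 : 2 * r ≤ x := by omega
  have hr2 : x ≤ 2 * r + 1 := by omega
  -- the size of `s N`
  have hsN : ∀ j : ℕ, j ≤ N → (s j : ℝ) ≤ (N : ℝ) ^ 3 := by
    intro j hj
    have h1 : (s j : ℝ) ≤ s N := by exact_mod_cast cv.mono.monotone hj
    have h2 : (0 : ℝ) < s N := by
      have : 0 < s N := cv.pos (by omega)
      exact_mod_cast this
    have h3 : Real.log (s N) ≤ 3 * Real.log N := by
      have := zd.top
      unfold Lg at this
      linarith
    have h4 : (s N : ℝ) ≤ (N : ℝ) ^ 3 := by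
      rw [← Real.exp_log h2]
      refine (Real.exp_le_exp.2 h3).trans (le_of_eq ?_)
      have : (3 : ℝ) * Real.log N = ((3 : ℕ) : ℝ) * Real.log N := by norm_num
      rw [this, Real.exp_nat_mul, Real.exp_log (by linarith)]
    exact h1.trans h4
  have hs0 : ∀ j : ℕ, (0 : ℝ) ≤ s j := fun j => by exact_mod_cast cv.nonneg j
  -- the size of `h`
  have hhb : (h : ℝ) ≤ 2 * (N : ℝ) ^ 3 := by
    have hlt : B.card < (Icc (i₀ + 1) (a + 32 * x)).card := by
      rw [Nat.card_Icc]; omega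
    obtain ⟨j, hj, hjB⟩ := exists_mem_notMem_of_card_lt_card hlt
    rw [mem_Icc] at hj
    have hq := zf.quad j (by omega) hj.2 hjB
    have hj2 := hsN j (by omega)
    have hg0 : 0 ≤ gp s (i₀ - 1) := by
      have : s (i₀ - 1) < s (i₀ - 1 + 1) := cv.mono (Nat.lt_succ_self _)
      unfold gp; linarith
    have hsi := cv.nonneg i₀
    have hj3 : (1 : ℤ) ≤ (j : ℤ) - i₀ := by omega
    have : h ≤ 2 * s j := by
      rw [hq]
      unfold F2
      have e1 : 0 ≤ 2 * ((j : ℤ) - i₀) * gp s (i₀ - 1) := by positivity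
      have e2 : h ≤ h * ((j : ℤ) - i₀ + 1) * ((j : ℤ) - i₀) := by
        have : 1 ≤ ((j : ℤ) - i₀ + 1) * ((j : ℤ) - i₀) :=
          one_le_mul_of_one_le_of_one_le (by linarith) hj3
        have e3 := mul_le_mul_of_nonneg_left this (le_trans zero_le_one hh1 : (0 : ℤ) ≤ h)
        linarith
      linarith
    have h' : (h : ℝ) ≤ 2 * (s j : ℝ) := by exact_mod_cast this
    linarith
  have hh0 : (1 : ℝ) ≤ h := by exact_mod_cast hh1
  have hgp : (0 : ℝ) ≤ gp s (i₀ - 1) ∧ (gp s (i₀ - 1) : ℝ) ≤ (N : ℝ) ^ 3 := by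
    have e1 : s (i₀ - 1) < s (i₀ - 1 + 1) := cv.mono (Nat.lt_succ_self _)
    have e2 := cv.nonneg (i₀ - 1)
    have e3 := hsN (i₀ - 1 + 1) (by omega)
    have e4 : 0 ≤ gp s (i₀ - 1) := by unfold gp; linarith
    have e5 : gp s (i₀ - 1) ≤ s (i₀ - 1 + 1) := by unfold gp; linarith
    refine ⟨by exact_mod_cast e4, ?_⟩
    have e6 : (gp s (i₀ - 1) : ℝ) ≤ s (i₀ - 1 + 1) := by exact_mod_cast e5
    exact e6.trans e3
  -- logarithm of numbers up to `N ^ 10`
  have hlogb : ∀ n : ℤ, |(n : ℝ)| ≤ (N : ℝ) ^ 10 → Real.log |(n : ℝ)| ≤ 10 * Real.log N := by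
    intro n hn
    rcases eq_or_ne n 0 with rfl | hn0
    · simp only [Int.cast_zero, abs_zero, Real.log_zero]
      linarith
    · have h1 : 0 < |(n : ℝ)| := abs_pos.2 (by exact_mod_cast hn0)
      have h2 := Real.log_le_log h1 hn
      rw [Real.log_pow] at h2
      exact_mod_cast h2
  have hN1 : (1 : ℝ) ≤ N := by linarith
  have hN32 : (32 : ℝ) ≤ N := by linarith
  have pw : ∀ i j : ℕ, i ≤ j → (N : ℝ) ^ i ≤ (N : ℝ) ^ j := fun i j hij =>
    pow_le_pow_right₀ hN1 hij
  -- the first number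
  set Q : ℤ := 8 * h * (s k - s i₀) + (2 * gp s (i₀ - 1) + h) ^ 2 with hQ
  have hki : i₀ < k := by omega
  have hQ0 : Q ≠ 0 := by
    have e1 : 0 < s k - s i₀ := sub_pos.2 (cv.mono hki)
    have e2 : 0 < 8 * h * (s k - s i₀) := by positivity
    have e3 : 0 ≤ (2 * gp s (i₀ - 1) + h) ^ 2 := sq_nonneg _
    rw [hQ]
    omega
  have hQb : |(Q : ℝ)| ≤ (N : ℝ) ^ 10 := by
    rw [hQ]
    push_cast
    have e0 : (0 : ℝ) ≤ (s k : ℝ) - s i₀ := by
      have : s i₀ ≤ s k := cv.mono.monotone hki.le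
      have : (s i₀ : ℝ) ≤ s k := by exact_mod_cast this
      linarith
    have e1 : (s k : ℝ) - s i₀ ≤ (N : ℝ) ^ 3 := by
      have := hsN k (by omega)
      have := hs0 i₀
      linarith
    rw [abs_of_nonneg (by positivity)]
    have e2 : 8 * (h : ℝ) * ((s k : ℝ) - s i₀) ≤ 8 * (2 * (N : ℝ) ^ 3) * (N : ℝ) ^ 3 := by
      gcongr
    have e3 : (2 * (gp s (i₀ - 1) : ℝ) + h) ^ 2 ≤ (2 * (N : ℝ) ^ 3 + 2 * (N : ℝ) ^ 3) ^ 2 := by
      have := hgp.1
      have := hgp.2
      gcongr
    have e4 : (8 * (2 * (N : ℝ) ^ 3) * (N : ℝ) ^ 3) + (2 * (N : ℝ) ^ 3 + 2 * (N : ℝ) ^ 3) ^ 2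
        = 32 * (N : ℝ) ^ 6 := by ring
    have e5 : 32 * (N : ℝ) ^ 6 ≤ N * (N : ℝ) ^ 6 := by gcongr
    have e6 : (N : ℝ) * (N : ℝ) ^ 6 = (N : ℝ) ^ 7 := by ring
    have e7 := pw 7 10 (by norm_num)
    linarith
  -- the other numbers
  set B' := B.filter fun d => i₀ ≤ d ∧ d ≤ a + 32 * x with hB'
  have hB'c : B'.card ≤ B.card := card_filter_le _ _
  have hDb : ∀ d ∈ B', |((2 * s k - F2 s i₀ h d : ℤ) : ℝ)| ≤ (N : ℝ) ^ 10 := by
    intro d hd
    rw [hB', mem_filter] at hd
    unfold F2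
    push_cast
    have t0 : (0 : ℝ) ≤ (d : ℝ) - i₀ := by
      have : (i₀ : ℝ) ≤ d := by exact_mod_cast hd.2.1
      linarith
    have t1 : (d : ℝ) - i₀ + 1 ≤ N := by
      have : d + 1 ≤ N := by omega
      have : (d : ℝ) + 1 ≤ N := by exact_mod_cast this
      have : (0 : ℝ) ≤ i₀ := Nat.cast_nonneg _
      linarith
    have e1 := hsN k (by omega)
    have e2 := hsN i₀ (by omega)
    have e3 := hs0 k
    have e4 := hs0 i₀
    have g0 := hgp.1
    have g1 := hgp.2
    have f1 : 2 * ((d : ℝ) - i₀) * (gp s (i₀ - 1) : ℝ) ≤ 2 * N * (N : ℝ) ^ 3 := by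
      have : (d : ℝ) - i₀ ≤ N := by linarith
      gcongr
    have f2 : (h : ℝ) * ((d : ℝ) - i₀ + 1) * ((d : ℝ) - i₀) ≤ 2 * (N : ℝ) ^ 3 * N * N := by
      have : (d : ℝ) - i₀ ≤ N := by linarith
      gcongr
    have f3 : 0 ≤ 2 * ((d : ℝ) - i₀) * (gp s (i₀ - 1) : ℝ) := by positivity
    have f4 : 0 ≤ (h : ℝ) * ((d : ℝ) - i₀ + 1) * ((d : ℝ) - i₀) := by positivity
    have f5 : 2 * N * (N : ℝ) ^ 3 = 2 * (N : ℝ) ^ 4 := by ring
    have f6 : 2 * (N : ℝ) ^ 3 * N * N = 2 * (N : ℝ) ^ 5 := by ring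
    have f7 : 8 * (N : ℝ) ^ 5 ≤ (N : ℝ) ^ 10 := by
      have : (N : ℝ) ^ 10 = (N : ℝ) ^ 5 * (N : ℝ) ^ 5 := by ring
      rw [this]
      have : (8 : ℝ) ≤ (N : ℝ) ^ 5 := by
        have := pw 1 5 (by norm_num)
        rw [pow_one] at this
        linarith
      gcongr
    have f8 := pw 3 5 (by norm_num)
    have f9 := pw 4 5 (by norm_num)
    rw [abs_le]
    constructor <;> linarith
  -- the set of indices
  set Ls := (Icc (k - r) (k + r)).erase k with hLs
  have hLsm : ∀ l ∈ Ls, l ≠ k ∧ k ≤ l + r ∧ l ≤ k + r := by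
    intro l hl
    rw [hLs, mem_erase, mem_Icc] at hl
    omega
  have hLsc : x ≤ Ls.card + 1 := by
    rw [hLs, card_erase_of_mem (mem_Icc.2 ⟨by omega, by omega⟩), Nat.card_Icc]
    omega
  set ct : ℕ → ℝ := fun l => Real.log ((s k - s l : ℤ) : ℝ) with hct
  have hneg : ∀ l, k < l → ct l = Real.log ((s l - s k : ℤ) : ℝ) := by
    intro l _
    rw [hct]
    show Real.log ((s k - s l : ℤ) : ℝ) = _
    rw [← Real.log_neg_eq_log]
    congr 1
    push_cast
    ring
  have hctlo : ∀ l ∈ Ls, 9 / 10 * Real.log N ≤ ct l := by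
    intro l hl
    obtain ⟨h1, h2, h3⟩ := hLsm l hl
    rcases lt_or_gt_of_ne h1 with hlt | hgt
    · have e1 := zd.gaps l (by omega)
      have e2 : 0 < gp s l := by
        have : s l < s (l + 1) := cv.mono (Nat.lt_succ_self _)
        unfold gp; linarith
      have e3 : gp s l ≤ s k - s l := by
        have : s (l + 1) ≤ s k := cv.mono.monotone hlt
        unfold gp; linarith
      refine e1.trans (Real.log_le_log (by exact_mod_cast e2) ?_)
      exact_mod_cast e3
    · rw [hneg l hgt]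
      have e1 := zd.gaps k (by omega)
      have e2 : 0 < gp s k := by
        have : s k < s (k + 1) := cv.mono (Nat.lt_succ_self _)
        unfold gp; linarith
      have e3 : gp s k ≤ s l - s k := by
        have : s (k + 1) ≤ s l := cv.mono.monotone hgt
        unfold gp; linarith
      refine e1.trans (Real.log_le_log (by exact_mod_cast e2) ?_)
      exact_mod_cast e3
  have hcthi : ∀ l ∈ Ls, ct l ≤ 3 * Real.log N := by
    intro l hl
    obtain ⟨h1, h2, h3⟩ := hLsm l hl
    have hl3 : Real.log ((N : ℝ) ^ 3) = 3 * Real.log N := by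
      rw [Real.log_pow]; norm_num
    rw [← hl3]
    have s1 := hs0 l
    have s2 := hs0 k
    have s3 := hsN l (by omega)
    have s4 := hsN k (by omega)
    rcases lt_or_gt_of_ne h1 with hlt | hgt
    · have e2 : 0 < s k - s l := sub_pos.2 (cv.mono hlt)
      refine Real.log_le_log (by exact_mod_cast e2) ?_
      push_cast
      linarith
    · rw [hneg l hgt]
      have e2 : 0 < s l - s k := sub_pos.2 (cv.mono hgt)
      refine Real.log_le_log (by exact_mod_cast e2) ?_
      push_cast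
      linarith
  -- product formula
  obtain ⟨hpr, hpf, -⟩ := hPRF s C₀ cv (2 * N)
  have hctp : ∀ l ∈ Ls, ct l = ∑ p ∈ PR s (2 * N), Real.log p * (vl p s k l : ℝ) := by
    intro l hl
    obtain ⟨h1, h2, h3⟩ := hLsm l hl
    rcases lt_or_gt_of_ne h1 with hlt | hgt
    · exact hpf l k hlt (by omega)
    · rw [hneg l hgt, hpf k l hgt (by omega)]
      refine sum_congr rfl fun p hp => ?_
      rw [(hPAE s C₀ cv p (hpr p hp)).1 l k]
  have hlogp : ∀ p : ℕ, 0 ≤ Real.log p := fun p => Real.log_natCast_nonneg p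
  set L2 := Ls.filter fun l => l ∉ B with hL2
  set V : ℕ → ℝ := fun p => ∑ l ∈ L2, (vl p s k l : ℝ) with hV
  have hVw : ∀ p : ℕ, p.Prime → ∀ u v : ℕ, u ≤ k - r → k + r ≤ v →
      V p ≤ (nv p s v : ℝ) - nv p s u := by
    intro p hp u v hu hv
    have h1 := (hPAD s C₀ cv p hp).2.2.2 u v k (by omega) (by omega)
    have h2 : ∑ l ∈ L2, vl p s k l ≤ ∑ l ∈ (Icc u v).erase k, vl p s k l := by
      refine sum_le_sum_of_subset ?_
      intro l hl
      rw [hL2, mem_filter] at hl
      obtain ⟨q1, q2, q3⟩ := hLsm l hl.1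
      rw [mem_erase, mem_Icc]
      omega
    have h3 : nv p s u + ∑ l ∈ L2, vl p s k l ≤ nv p s v := by omega
    have h4 : (nv p s u : ℝ) + ∑ l ∈ L2, (vl p s k l : ℝ) ≤ nv p s v := by exact_mod_cast h3
    rw [hV]
    show ∑ l ∈ L2, (vl p s k l : ℝ) ≤ _
    linarith
  have hVsum : ∑ l ∈ L2, ct l = ∑ p ∈ PR s (2 * N), Real.log p * V p := by
    rw [sum_congr rfl fun l hl => hctp l (mem_filter.1 hl).1, sum_comm]
    refine sum_congr rfl fun p _ => ?_
    rw [mul_sum]
  -- splitting of the primes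
  have hsplit : ∑ p ∈ PR s (2 * N), Real.log p * V p =
      ∑ p ∈ PA s N P, Real.log p * V p + ∑ p ∈ PC s N M P, Real.log p * V p +
        ∑ p ∈ PG s N M P, Real.log p * V p := by
    unfold PA PC PG
    rw [sum_filter, sum_filter, sum_filter, ← sum_add_distrib, ← sum_add_distrib]
    refine sum_congr rfl fun p _ => ?_
    by_cases c1 : 1 ≤ nv p s P
    · have c2 : nv p s P ≠ 0 := by omega
      simp [c1, c2]
    · have c2 : nv p s P = 0 := by omega
      by_cases c3 : Catch p s N M <;> simp [c2, c3]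
  have hA : ∑ p ∈ PA s N P, Real.log p * V p + ∑ p ∈ PC s N M P, Real.log p * V p ≤
      1 / 10 ^ 15 * x * Real.log N := by
    refine le_trans (add_le_add (sum_le_sum fun p hp => ?_) (sum_le_sum fun p hp => ?_)) zw.na
    · exact mul_le_mul_of_nonneg_left (hVw p (hpr p (mem_PA.1 hp).1) a (a + 32 * x) (by omega)
        (by omega)) (hlogp p)
    · exact mul_le_mul_of_nonneg_left (hVw p (hpr p (mem_PC.1 hp).1) a (a + 32 * x) (by omega)
        (by omega)) (hlogp p)
  set R : ℕ → Finset ℕ := fun p => (Ico (k - r) (k + r)).filter fun g => ¬ Typ p s x g with hR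
  have hRt := zw.typ R (by
    intro p _ g hg
    rw [hR] at hg
    rw [mem_filter, mem_Ico] at hg
    exact ⟨by omega, by omega, hg.2⟩)
  set T := (PG s N M P).filter fun p : ℕ => (p : ℤ) ∣ Q ∨ ∃ d ∈ B', (p : ℤ) ∣ 2 * s k - F2 s i₀ h d
    with hT
  have hG1 : ∀ p ∈ PG s N M P, V p ≤ ∑ g ∈ R p, (om p s g : ℝ) + if p ∈ T then 1 else 0 := by
    intro p hp
    have hpp := (zd.prime p hp).1
    have hmono := (hPAD s C₀ cv p hpp).1
    have hV1 := hVw p hpp (k - r) (k + r) le_rfl le_rfl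
    by_cases hall : ∀ g ∈ Ico (k - r) (k + r), om p s g ≠ 0 → ¬ Typ p s x g
    · have e1 : ∑ g ∈ R p, (om p s g : ℝ) = ∑ g ∈ Ico (k - r) (k + r), (om p s g : ℝ) := by
        rw [hR]
        refine sum_filter_of_ne fun g hg hne' => ?_
        exact hall g hg (by exact_mod_cast hne')
      rw [e1, NODEF_nv_sum p s hmono _ _ (by omega)]
      have : (0 : ℝ) ≤ if p ∈ T then 1 else 0 := by split_ifs <;> norm_num
      linarith
    · push Not at hall
      obtain ⟨g, hg, -, hty⟩ := hall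
      rw [mem_Ico] at hg
      have hty' := hty
      obtain ⟨t1, t2, t3, -⟩ := hty'
      have m1 : nv p s (k + r) ≤ nv p s (g + x) := hmono (by omega)
      have m2 : nv p s (g - x) ≤ nv p s (k - r) := hmono (by omega)
      have hV2 : V p ≤ 1 := by
        have : (nv p s (k + r) : ℝ) ≤ nv p s (k - r) + 1 := by exact_mod_cast (by omega :
          nv p s (k + r) ≤ nv p s (k - r) + 1)
        linarith
      have hRnn : (0 : ℝ) ≤ ∑ g ∈ R p, (om p s g : ℝ) := sum_nonneg fun _ _ => Nat.cast_nonneg _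
      by_cases hpT : p ∈ T
      · rw [if_pos hpT]; linarith
      · rw [if_neg hpT]
        have hV0 : V p = 0 := by
          rw [hV]
          refine sum_eq_zero fun l hl => ?_
          rw [hL2, mem_filter] at hl
          obtain ⟨q1, q2, q3⟩ := hLsm l hl.1
          by_contra hvl
          have hvl' : vl p s k l ≠ 0 := by exact_mod_cast hvl
          have hdv : (p : ℤ) ∣ s k - s l := by
            by_contra hnd
            exact hvl' (((hPAE s C₀ cv p hpp).2.2.1 k l q1.symm).2 hnd)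
          have hdv' : (p : ℤ) ∣ s l - s k := by
            rw [← neg_sub]; exact (dvd_neg).2 hdv
          have hlast := (hPAE s C₀ cv p hpp).2.2.2.2.2.2
          have hmg : nv p s g < nv p s (g + 1) := by
            unfold om at t2; omega
          have hmm := hmono (show g - x ≤ g by omega)
          have hmm2 := hmono (show g + 1 ≤ g + x by omega)
          -- `g` is between `k` and `l`
          have hb1 : min k l ≤ g := by
            by_contra hc
            push Not at hc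
            have hnv : nv p s (max k l) = nv p s (min k l) := by
              have a1 := hmono (show g + 1 ≤ min k l by omega)
              have a2 := hmono (show max k l ≤ g + x by omega)
              have a3 := hmono (show min k l ≤ max k l by omega)
              omega
            rcases lt_or_gt_of_ne q1 with hlt | hgt
            · exact hlast l k l k le_rfl hlt le_rfl (by
                rw [max_eq_left hlt.le, min_eq_right hlt.le] at hnv; exact hnv) hdv
            · exact hlast k l k l le_rfl hgt le_rfl (by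
                rw [max_eq_right hgt.le, min_eq_left hgt.le] at hnv; exact hnv) hdv'
          have hb2 : g < max k l := by
            by_contra hc
            push Not at hc
            have hnv : nv p s (max k l) = nv p s (min k l) := by
              have a1 := hmono (show g - x ≤ min k l by omega)
              have a2 := hmono (show max k l ≤ g by omega)
              have a3 := hmono (show min k l ≤ max k l by omega)
              omega
            rcases lt_or_gt_of_ne q1 with hlt | hgt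
            · exact hlast l k l k le_rfl hlt le_rfl (by
                rw [max_eq_left hlt.le, min_eq_right hlt.le] at hnv; exact hnv) hdv
            · exact hlast k l k l le_rfl hgt le_rfl (by
                rw [max_eq_right hgt.le, min_eq_left hgt.le] at hnv; exact hnv) hdv'
          apply hpT
          rw [hT, mem_filter]
          refine ⟨hp, ?_⟩
          rcases hdb p hp g l hty (by omega) (by omega) hl.2 hb1 hb2 hdv' with c | ⟨d, c1, c2, c3, c4⟩
          · exact Or.inl c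
          · exact Or.inr ⟨d, by rw [hB', mem_filter]; exact ⟨c1, c2, c3⟩, c4⟩
        rw [hV0]; linarith
  have hGT : ∑ p ∈ T, Real.log p ≤ 10 * Real.log N + B'.card * (10 * Real.log N) := by
    have hsub : T ⊆ ((PG s N M P).filter fun p : ℕ => (p : ℤ) ∣ Q) ∪
        B'.biUnion fun d => (PG s N M P).filter fun p : ℕ => (p : ℤ) ∣ 2 * s k - F2 s i₀ h d := by
      intro p hp
      rw [hT, mem_filter] at hp
      rw [mem_union]
      rcases hp.2 with c | ⟨d, hd, c⟩
      · exact Or.inl (mem_filter.2 ⟨hp.1, c⟩)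
      · exact Or.inr (mem_biUnion.2 ⟨d, hd, mem_filter.2 ⟨hp.1, c⟩⟩)
    have s1 : ∑ p ∈ T, Real.log p ≤ ∑ p ∈ ((PG s N M P).filter fun p : ℕ => (p : ℤ) ∣ Q) ∪
        B'.biUnion (fun d => (PG s N M P).filter fun p : ℕ => (p : ℤ) ∣ 2 * s k - F2 s i₀ h d),
          Real.log p := sum_le_sum_of_subset_of_nonneg hsub fun p _ _ => hlogp p
    have s2 : ∑ p ∈ ((PG s N M P).filter fun p : ℕ => (p : ℤ) ∣ Q) ∪
        B'.biUnion (fun d => (PG s N M P).filter fun p : ℕ => (p : ℤ) ∣ 2 * s k - F2 s i₀ h d),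
          Real.log p ≤ ∑ p ∈ (PG s N M P).filter (fun p : ℕ => (p : ℤ) ∣ Q), Real.log p +
        ∑ p ∈ B'.biUnion (fun d => (PG s N M P).filter fun p : ℕ =>
          (p : ℤ) ∣ 2 * s k - F2 s i₀ h d), Real.log p := by
      rw [← sum_union_inter]
      have : 0 ≤ ∑ p ∈ ((PG s N M P).filter fun p : ℕ => (p : ℤ) ∣ Q) ∩
        B'.biUnion (fun d => (PG s N M P).filter fun p : ℕ => (p : ℤ) ∣ 2 * s k - F2 s i₀ h d),
          Real.log p := sum_nonneg fun p _ => hlogp p
      linarith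
    have s3 : ∑ p ∈ B'.biUnion (fun d => (PG s N M P).filter fun p : ℕ =>
          (p : ℤ) ∣ 2 * s k - F2 s i₀ h d), Real.log p ≤
        ∑ d ∈ B', ∑ p ∈ (PG s N M P).filter (fun p : ℕ => (p : ℤ) ∣ 2 * s k - F2 s i₀ h d),
          Real.log p := NODEF_biUnion _ _ _ hlogp
    have s4 : ∑ p ∈ (PG s N M P).filter (fun p : ℕ => (p : ℤ) ∣ Q), Real.log p ≤
        10 * Real.log N :=
      (NODEF_primes _ Q hQ0 (fun p hp => (zd.prime p (mem_filter.1 hp).1).1)
        (fun p hp => (mem_filter.1 hp).2)).trans (hlogb Q hQb)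
    have s5 : ∑ d ∈ B', ∑ p ∈ (PG s N M P).filter (fun p : ℕ => (p : ℤ) ∣ 2 * s k - F2 s i₀ h d),
          Real.log p ≤ ∑ _d ∈ B', 10 * Real.log N := by
      refine sum_le_sum fun d hd => ?_
      have hd' := mem_filter.1 hd
      have hn0 : 2 * s k - F2 s i₀ h d ≠ 0 := sub_ne_zero.2 (hda d hd'.2.1 hd'.2.2)
      exact (NODEF_primes _ _ hn0 (fun p hp => (zd.prime p (mem_filter.1 hp).1).1)
        (fun p hp => (mem_filter.1 hp).2)).trans (hlogb _ (hDb d hd))
    rw [sum_const, nsmul_eq_mul] at s5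
    linarith
  have hG : ∑ p ∈ PG s N M P, Real.log p * V p ≤ 1 / 10 ^ 3 * x * Real.log N +
      (10 * Real.log N + B'.card * (10 * Real.log N)) := by
    calc ∑ p ∈ PG s N M P, Real.log p * V p
        ≤ ∑ p ∈ PG s N M P, (Real.log p * ∑ g ∈ R p, (om p s g : ℝ) +
            if p ∈ T then Real.log p else 0) := by
          refine sum_le_sum fun p hp => ?_
          refine (mul_le_mul_of_nonneg_left (hG1 p hp) (hlogp p)).trans (le_of_eq ?_)
          rw [mul_add]
          congr 1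
          split_ifs <;> simp
      _ = ∑ p ∈ PG s N M P, Real.log p * ∑ g ∈ R p, (om p s g : ℝ) + ∑ p ∈ T, Real.log p := by
          rw [sum_add_distrib]
          congr 1
          rw [← sum_filter]
          refine sum_congr ?_ fun _ _ => rfl
          rw [filter_mem_eq_inter, inter_eq_right]
          exact filter_subset _ _
      _ ≤ _ := add_le_add hRt hGT
  -- the count
  have hlow : (Ls.card : ℝ) * (9 / 10 * Real.log N) ≤ ∑ l ∈ Ls, ct l := by
    rw [← nsmul_eq_mul]
    exact card_nsmul_le_sum _ _ _ hctlo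
  have hsp : ∑ l ∈ Ls, ct l = ∑ l ∈ L2, ct l + ∑ l ∈ Ls.filter (fun l => l ∈ B), ct l := by
    have := sum_filter_add_sum_filter_not Ls (fun l => l ∉ B) ct
    rw [← this]
    congr 1
    refine sum_congr ?_ fun _ _ => rfl
    ext l
    simp
  have hLB : ∑ l ∈ Ls.filter (fun l => l ∈ B), ct l ≤ B.card * (3 * Real.log N) := by
    have h1 : ∑ l ∈ Ls.filter (fun l => l ∈ B), ct l ≤
        (Ls.filter (fun l => l ∈ B)).card • (3 * Real.log N) :=
      sum_le_card_nsmul _ _ _ fun l hl => hcthi l (mem_filter.1 hl).1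
    have h2 : (Ls.filter (fun l => l ∈ B)).card ≤ B.card :=
      card_le_card fun l hl => (mem_filter.1 hl).2
    have h3 : ((Ls.filter (fun l => l ∈ B)).card : ℝ) ≤ B.card := by exact_mod_cast h2
    rw [nsmul_eq_mul] at h1
    have : (0 : ℝ) ≤ 3 * Real.log N := by linarith
    exact h1.trans (mul_le_mul_of_nonneg_right h3 this)
  rw [hsp, hVsum, hsplit] at hlow
  have hBc' : (30 : ℝ) * B.card ≤ x := by exact_mod_cast hBc
  have hB'c' : (B'.card : ℝ) ≤ B.card := by exact_mod_cast hB'c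
  have hLsc' : (x : ℝ) ≤ Ls.card + 1 := by exact_mod_cast hLsc
  set ℓ := Real.log N with hℓ
  have hℓ0 : 0 < ℓ := by linarith
  have key : ((x : ℝ) - 1) * (9 / 10 * ℓ) ≤ 1 / 10 ^ 15 * x * ℓ + (1 / 10 ^ 3 * x * ℓ +
      (10 * ℓ + B'.card * (10 * ℓ))) + B.card * (3 * ℓ) := by
    have : ((x : ℝ) - 1) * (9 / 10 * ℓ) ≤ Ls.card * (9 / 10 * ℓ) :=
      mul_le_mul_of_nonneg_right (by linarith) (by linarith)
    linarith
  have key2 : ((x : ℝ) - 1) * (9 / 10) ≤ 1 / 10 ^ 15 * x + (1 / 10 ^ 3 * x +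
      (10 + B'.card * 10)) + B.card * 3 := by
    have e : ℓ * (((x : ℝ) - 1) * (9 / 10)) ≤ ℓ * (1 / 10 ^ 15 * x + (1 / 10 ^ 3 * x +
      (10 + B'.card * 10)) + B.card * 3) := by
      have e1 : ℓ * (((x : ℝ) - 1) * (9 / 10)) = ((x : ℝ) - 1) * (9 / 10 * ℓ) := by ring
      have e2 : ℓ * (1 / 10 ^ 15 * x + (1 / 10 ^ 3 * x + (10 + B'.card * 10)) + B.card * 3) =
        1 / 10 ^ 15 * x * ℓ + (1 / 10 ^ 3 * x * ℓ +
          (10 * ℓ + B'.card * (10 * ℓ))) + B.card * (3 * ℓ) := by ring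
      rw [e1, e2]
      exact key
    exact le_of_mul_le_mul_left e hℓ0
  linarith

end Pool.Agent.Work.MP_b29d7f_cvx
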