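import Pool.Agent.Work.MP_b29d7f_cvx.InterfaceC

/-! # MP_b29d7f_nt (convex sets): block NORM (helper33) -/

namespace Pool.Agent.Work.MP_b29d7f_cvx

open Finset
open Pool.Agent.Work.MP_b29d7f_nt (IsPOrdering HasSimultaneousOrdering)
open Pool.Agent.Work.MP_b29d7f_half (Ord)

theorem stmt_NORM (h1 : Stmt_NAT) : Stmt_NORM := by
  intro s hs hc hC hS
  obtain ⟨C, hC⟩ := hC
  have hnat := h1 s hs hc hS
  have hs' : StrictMono (fun n => s n - s 0) := fun a b h => sub_lt_sub_right (hs h) _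
  set M : ℝ := (C : ℝ) + |(s 0 : ℝ)| + 1 with hM
  have hM1 : 1 ≤ M := by
    have : (0 : ℝ) ≤ C := Nat.cast_nonneg C
    have := abs_nonneg (s 0 : ℝ)
    linarith
  have hl2 : 0 < Real.log 2 := Real.log_pos (by norm_num)
  refine ⟨max 1 (Real.log M / Real.log 2 + 2 * C), ?_⟩
  refine ⟨sub_self _, hs', ?_, ⟨?_, ?_⟩, le_max_left _ _, ?_⟩
  · intro k
    have := hc k
    change s (k + 1) - s 0 - (s k - s 0) ≤ s (k + 2) - s 0 - (s (k + 1) - s 0)
    linarith
  · exact Set.infinite_range_of_injective hs'.injective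
  · intro p hp
    obtain ⟨-, h2⟩ := hnat p hp
    refine ⟨fun k => ⟨k, rfl⟩, ?_⟩
    rintro k _ ⟨m, rfl⟩
    have := h2 k (s m) ⟨m, rfl⟩
    have e1 : ∏ i ∈ range k, ((s k - s 0) - (s i - s 0)) = ∏ i ∈ range k, (s k - s i) :=
      prod_congr rfl fun i _ => by ring
    have e2 : ∏ i ∈ range k, ((s m - s 0) - (s i - s 0)) = ∏ i ∈ range k, (s m - s i) :=
      prod_congr rfl fun i _ => by ring
    change emultiplicity (p : ℤ) (∏ i ∈ range k, ((s k - s 0) - (s i - s 0))) ≤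
      emultiplicity (p : ℤ) (∏ i ∈ range k, ((s m - s 0) - (s i - s 0)))
    rw [e1, e2]
    exact this
  · intro k hk
    have hk2 : (2 : ℝ) ≤ k := by exact_mod_cast hk
    have hkpos : (0 : ℝ) < k := by linarith
    have hlk : Real.log 2 ≤ Real.log k := Real.log_le_log (by norm_num) hk2
    have hpos : 0 < s k - s 0 := sub_pos.2 (hs (by omega))
    have hposR : (0 : ℝ) < ((s k - s 0 : ℤ) : ℝ) := by exact_mod_cast hpos
    have hup : (s k : ℝ) ≤ C * ((k : ℝ) + 1) ^ C := by exact_mod_cast hC k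
    have hk1 : (1 : ℝ) ≤ ((k : ℝ) + 1) ^ C := one_le_pow₀ (by linarith)
    have hb : ((s k - s 0 : ℤ) : ℝ) ≤ M * ((k : ℝ) ^ 2) ^ C := by
      have h3 : (k : ℝ) + 1 ≤ (k : ℝ) ^ 2 := by nlinarith
      have h4 : ((k : ℝ) + 1) ^ C ≤ ((k : ℝ) ^ 2) ^ C :=
        pow_le_pow_left₀ (by linarith) h3 C
      have h5 := neg_abs_le (s 0 : ℝ)
      have h6 := abs_nonneg (s 0 : ℝ)
      push_cast
      calc (s k : ℝ) - s 0 ≤ C * ((k : ℝ) + 1) ^ C + |(s 0 : ℝ)| := by linarith
        _ ≤ M * ((k : ℝ) + 1) ^ C := by rw [hM]; nlinarith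
        _ ≤ M * ((k : ℝ) ^ 2) ^ C := mul_le_mul_of_nonneg_left h4 (by linarith)
    have hlog : Real.log ((s k - s 0 : ℤ) : ℝ) ≤ Real.log M + 2 * C * Real.log k := by
      refine (Real.log_le_log hposR hb).trans (le_of_eq ?_)
      rw [Real.log_mul (by linarith) (by positivity), Real.log_pow, Real.log_pow]
      push_cast
      ring
    have h7 : Real.log M ≤ Real.log M / Real.log 2 * Real.log k := by
      have h8 : 0 ≤ Real.log M := Real.log_nonneg hM1
      rw [div_mul_eq_mul_div, le_div_iff₀ hl2]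
      exact mul_le_mul_of_nonneg_left hlk h8
    change Real.log ((s k - s 0 : ℤ) : ℝ) ≤ _
    calc Real.log ((s k - s 0 : ℤ) : ℝ) ≤ Real.log M + 2 * C * Real.log k := hlog
      _ ≤ (Real.log M / Real.log 2 + 2 * C) * Real.log k := by rw [add_mul]; linarith
      _ ≤ max 1 (Real.log M / Real.log 2 + 2 * C) * Real.log k :=
        mul_le_mul_of_nonneg_right (le_max_right _ _) (by linarith)

end Pool.Agent.Work.MP_b29d7f_cvx
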