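import Pool.Agent.Work.MP_b29d7f_cvx.Interface2

/-!
# Convex sets: block NTY (helper60)
-/

namespace Pool.Agent.Work.MP_b29d7f_cvx

open Finset
open Pool.Agent.Work.MP_b29d7f_nt (IsPOrdering HasSimultaneousOrdering PS vd ld tv)
open Pool.Agent.Work.MP_b29d7f_half (Ord A wv lD HalfDense)
open Pool.Agent.Work.MP_b29d7f_sep (nv EW EL)

theorem NTY_tel {p : ℕ} {s : ℕ → ℤ} (hmon : Monotone (nv p s)) (u m : ℕ) :
    ∑ g ∈ Ico u (u + m), (om p s g : ℝ) = (nv p s (u + m) : ℝ) - nv p s u := by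
  induction m with
  | zero => simp
  | succ m ih =>
    rw [← add_assoc, Finset.sum_Ico_succ_top (by omega), ih]
    unfold om
    rw [Nat.cast_sub (hmon (Nat.le_succ _))]
    ring

/-- double counting: the places whose windows all have large deficiency -/
theorem NTY_four {p : ℕ} {s : ℕ → ℤ} (hmon : Monotone (nv p s)) {N m : ℕ}
    (hD : ∀ u, 0 ≤ Dfc p s u m) (hm : 1 ≤ m)
    (U : ℕ → Finset ℕ) (hU : ∀ g, U g ⊆ range (N - m + 1)) (R4 : Finset ℕ) (L : ℝ)
    (hcard : ∀ g ∈ R4, L ≤ (U g).card)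
    (hbig : ∀ g ∈ R4, ∀ u ∈ U g, u ≤ g ∧ g < u + m ∧
      ((nv p s (u + m) : ℝ) - nv p s u) * m / 4096 ≤ Dfc p s u m) (hom : ∀ g ∈ R4, om p s g ≠ 0) :
    L * m / 4096 * ∑ g ∈ R4, (om p s g : ℝ) ≤ ∑ u ∈ range (N - m + 1), Dfc p s u m := by
  classical
  have hm' : (1 : ℝ) ≤ m := by exact_mod_cast hm
  set W : ℕ → ℝ := fun u => (nv p s (u + m) : ℝ) - nv p s u with hW
  have hWnn : ∀ u, 0 ≤ W u := by
    intro u
    have := hmon (Nat.le_add_right u m)
    rw [hW]
    simp only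
    have h' : (nv p s u : ℝ) ≤ nv p s (u + m) := by exact_mod_cast this
    linarith
  have hsub : ∀ u : ℕ, ∑ g ∈ R4.filter (fun g => u ∈ U g), (om p s g : ℝ) ≤ W u := by
    intro u
    rw [hW]
    simp only
    rw [← NTY_tel hmon u m]
    apply Finset.sum_le_sum_of_subset_of_nonneg
    · intro g hg
      obtain ⟨hg1, hg2⟩ := Finset.mem_filter.mp hg
      obtain ⟨a1, a2, -⟩ := hbig g hg1 u hg2
      exact Finset.mem_Ico.mpr ⟨a1, a2⟩
    · intro i _ _
      exact Nat.cast_nonneg _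
  have hstep1 : L * m / 4096 * ∑ g ∈ R4, (om p s g : ℝ) ≤
      ∑ g ∈ R4, ∑ u ∈ U g, (om p s g : ℝ) * (Dfc p s u m / W u) := by
    rw [Finset.mul_sum]
    apply Finset.sum_le_sum
    intro g hg
    have h1 : ∀ u ∈ U g, (om p s g : ℝ) * (m / 4096) ≤ (om p s g : ℝ) * (Dfc p s u m / W u) := by
      intro u hu
      obtain ⟨a1, a2, a3⟩ := hbig g hg u hu
      apply mul_le_mul_of_nonneg_left _ (Nat.cast_nonneg _)
      have hWpos : 0 < W u := by
        have h2 := hsub u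
        have h3 : (om p s g : ℝ) ≤ ∑ g ∈ R4.filter (fun g => u ∈ U g), (om p s g : ℝ) := by
          apply Finset.single_le_sum (f := fun g => (om p s g : ℝ)) (fun i _ => Nat.cast_nonneg _)
          exact Finset.mem_filter.mpr ⟨hg, hu⟩
        have h4 : (1 : ℝ) ≤ om p s g := by
          have := hom g hg
          have : 1 ≤ om p s g := by omega
          exact_mod_cast this
        linarith
      rw [le_div_iff₀ hWpos]
      calc (m : ℝ) / 4096 * W u = W u * m / 4096 := by ring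
        _ ≤ Dfc p s u m := a3
    have h2 := Finset.sum_le_sum h1
    rw [Finset.sum_const, nsmul_eq_mul] at h2
    refine le_trans ?_ h2
    have h3 := hcard g hg
    have h4 : (0 : ℝ) ≤ (om p s g : ℝ) * (m / 4096) := by positivity
    calc L * m / 4096 * (om p s g : ℝ) = L * ((om p s g : ℝ) * (m / 4096)) := by ring
      _ ≤ ((U g).card : ℝ) * ((om p s g : ℝ) * (m / 4096)) := mul_le_mul_of_nonneg_right h3 h4
  refine le_trans hstep1 ?_
  have hswap : ∑ g ∈ R4, ∑ u ∈ U g, (om p s g : ℝ) * (Dfc p s u m / W u) =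
      ∑ u ∈ range (N - m + 1), (∑ g ∈ R4.filter (fun g => u ∈ U g), (om p s g : ℝ)) *
        (Dfc p s u m / W u) := by
    have e1 : ∀ g ∈ R4, ∑ u ∈ U g, (om p s g : ℝ) * (Dfc p s u m / W u) =
        ∑ u ∈ range (N - m + 1), if u ∈ U g then (om p s g : ℝ) * (Dfc p s u m / W u) else 0 := by
      intro g _
      rw [← Finset.sum_filter]
      apply Finset.sum_congr _ (fun _ _ => rfl)
      ext u
      rw [Finset.mem_filter]
      constructor
      · intro hu
        exact ⟨hU g hu, hu⟩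
      · intro hu
        exact hu.2
    rw [Finset.sum_congr rfl e1, Finset.sum_comm]
    apply Finset.sum_congr rfl
    intro u _
    rw [Finset.sum_mul, Finset.sum_filter]
  rw [hswap]
  apply Finset.sum_le_sum
  intro u _
  have hDu := hD u
  rcases eq_or_lt_of_le (hWnn u) with h0 | h0
  · rw [← h0, div_zero, mul_zero]
    exact hDu
  · calc (∑ g ∈ R4.filter (fun g => u ∈ U g), (om p s g : ℝ)) * (Dfc p s u m / W u)
        ≤ W u * (Dfc p s u m / W u) :=
          mul_le_mul_of_nonneg_right (hsub u) (div_nonneg hDu h0.le)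
      _ = Dfc p s u m := by field_simp

theorem stmt_NTY (h1 : Stmt_PAD) (h2 : Stmt_DFC) (h3 : Stmt_UG) (h4 : Stmt_NISO) (h5 : Stmt_NFLG)
    (h6 : Stmt_SQL) (h7 : Stmt_SQM) (h8 : Stmt_TYL) : Stmt_NTY := by
  classical
  intro s C₀ N M P m J x H hz hx1 hx2 R hR
  have hcvx := hz.cvx
  have hmb := hz.m_big
  have hmN := hz.m_N
  have hm12 : 10 ^ 12 ≤ m := le_trans (by norm_num) hmb
  have hm1 : 1 ≤ m := le_trans (by norm_num) hmb
  have hmR : (1 : ℝ) ≤ m := by exact_mod_cast hm1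
  obtain ⟨hUG1, -⟩ := h3 s C₀ N M P m J H hz
  have hp : ∀ p ∈ PG s N M P, p.Prime ∧ m < p ∧ H * (m : ℤ) ^ 2 < p := by
    intro p hp
    obtain ⟨a1, a2⟩ := hz.prime p hp
    refine ⟨a1, lt_of_le_of_lt (le_trans hz.m_le hz.M_P) a2, ?_⟩
    have e1 := hz.HP
    have e2 := hz.H_pos
    have e3 : (P : ℤ) < p := by exact_mod_cast a2
    have e4 : 0 ≤ H * (m : ℤ) ^ 2 := by positivity
    linarith
  have hlogp : ∀ p ∈ PG s N M P, 0 ≤ Real.log p := by
    intro p hp'
    apply Real.log_nonneg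
    have := (hp p hp').1.one_lt
    exact_mod_cast this.le
  -- the four classes
  set R1 : ℕ → Finset ℕ := fun p => (R p).filter (fun g => ¬ Iso p s m g) with hR1
  set R2 : ℕ → Finset ℕ := fun p => (R p).filter (fun g => ¬ FlG s H N m g) with hR2
  set R3 : ℕ → Finset ℕ := fun p => (R p).filter (fun g => Sq p s m g) with hR3
  set R4 : ℕ → Finset ℕ := fun p => (R p).filter
    (fun g => om p s g ≠ 0 ∧ Iso p s m g ∧ FlG s H N m g ∧ ¬ Sq p s m g) with hR4
  have hmN' : 3 * m ≤ N := by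
    have : 3 * m ≤ 10 ^ 10 * m := Nat.mul_le_mul_right m (by norm_num)
    omega
  have b1 := h4 s C₀ N M P m J H hz R1 (by
    intro p hp' g hg
    obtain ⟨hg1, hg2⟩ := Finset.mem_filter.mp hg
    obtain ⟨a1, a2, -⟩ := hR p hp' g hg1
    exact ⟨a1, by omega, hg2⟩)
  have b2 := h5 s C₀ N M P m J H hz R2 (by
    intro p hp' g hg
    obtain ⟨hg1, hg2⟩ := Finset.mem_filter.mp hg
    obtain ⟨a1, a2, -⟩ := hR p hp' g hg1
    exact ⟨a1, by omega, hg2⟩)
  have b3 := h7 s C₀ N M P m J H hz R3 (by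
    intro p hp' g hg
    obtain ⟨hg1, hg2⟩ := Finset.mem_filter.mp hg
    obtain ⟨a1, a2, -⟩ := hR p hp' g hg1
    exact ⟨hg2, by omega⟩)
  have b4 : ∀ p ∈ PG s N M P, (1 / 10 ^ 10 * (m : ℝ) / 4) * m / 4096 *
      ∑ g ∈ R4 p, (om p s g : ℝ) ≤ ∑ u ∈ range (N - m + 1), Dfc p s u m := by
    intro p hp'
    obtain ⟨hpp, hmp, hHp⟩ := hp p hp'
    obtain ⟨hmon, -, -, -⟩ := h1 s C₀ hcvx p hpp
    apply NTY_four hmon (fun u => (h2 s C₀ hcvx p hpp u m).1) hm1 (fun g => Ug s H N m g)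
    · intro g u hu
      exact (Finset.mem_filter.mp hu).1
    · intro g hg
      obtain ⟨-, -, -, hg4, -⟩ := Finset.mem_filter.mp hg
      exact hg4
    · intro g hg u hu
      obtain ⟨hg1, hg2, hg3, hg4, hg5⟩ := Finset.mem_filter.mp hg
      obtain ⟨-, -, hnt⟩ := hR p hp' g hg1
      obtain ⟨a1, a2, a3, a4, a5⟩ := hUG1 p g u hg3 hu
      refine ⟨a2, a3, ?_⟩
      by_contra hcon
      rw [not_le] at hcon
      -- growth
      have hgr : nv p s u + 1 ≤ nv p s (u + m) := by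
        have e1 := hmon a2
        have e2 := hmon (show g + 1 ≤ u + m by omega)
        have e3 := hmon (Nat.le_succ g)
        unfold om at hg2
        simp only [Nat.succ_eq_add_one] at e3
        omega
      rcases eq_or_lt_of_le hgr with e1 | e1
      · apply hnt
        apply h8 s C₀ hcvx p hpp u m x H hm12 hx1 hx2 a4 hHp hmp a1 e1.symm _ g a2 a3 hg2
        have e2 : (nv p s (u + m) : ℝ) - nv p s u = 1 := by
          rw [← e1]
          push_cast
          ring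
        rw [e2, one_mul] at hcon
        exact hcon.le
      · apply hg5
        exact h6 s C₀ hcvx p hpp u m H hm12 a4 hHp hmp a1 e1 hcon.le g a2 a3 hg2
    · intro g hg
      obtain ⟨-, hg2, -⟩ := Finset.mem_filter.mp hg
      exact hg2
  -- cover
  have hcov : ∀ p ∈ PG s N M P, ∑ g ∈ R p, (om p s g : ℝ) ≤
      ∑ g ∈ R1 p, (om p s g : ℝ) + ∑ g ∈ R2 p, (om p s g : ℝ) + ∑ g ∈ R3 p, (om p s g : ℝ) +
        ∑ g ∈ R4 p, (om p s g : ℝ) := by
    intro p _
    rw [hR1, hR2, hR3, hR4]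
    simp only
    rw [Finset.sum_filter, Finset.sum_filter, Finset.sum_filter, Finset.sum_filter,
      ← Finset.sum_add_distrib, ← Finset.sum_add_distrib, ← Finset.sum_add_distrib]
    apply Finset.sum_le_sum
    intro g _
    have hnn : (0 : ℝ) ≤ (om p s g : ℝ) := Nat.cast_nonneg _
    by_cases c0 : om p s g = 0
    · rw [c0]
      simp
    · by_cases c1 : Iso p s m g
      · by_cases c2 : FlG s H N m g
        · by_cases c3 : Sq p s m g
          · simp [c1, c2, c3]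
          · simp [c0, c1, c2, c3]
        · by_cases c3 : Sq p s m g
          · simp [c1, c2, c3, hnn]
          · simp [c1, c2, c3]
      · by_cases c2 : FlG s H N m g
        · by_cases c3 : Sq p s m g
          · simp [c1, c2, c3, hnn]
          · simp [c1, c2, c3]
        · by_cases c3 : Sq p s m g
          · simp [c1, c2, c3]
          · simp [c1, c2, c3, hnn]
  have hnnS : ∀ Q : ℕ → Finset ℕ,
      0 ≤ ∑ p ∈ PG s N M P, Real.log p * ∑ g ∈ Q p, (om p s g : ℝ) := by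
    intro Q
    apply Finset.sum_nonneg
    intro p hp'
    exact mul_nonneg (hlogp p hp') (Finset.sum_nonneg (fun _ _ => Nat.cast_nonneg _))
  have hJ : (1 : ℝ) ≤ J := by exact_mod_cast hz.J_pos
  have c1 : ∑ p ∈ PG s N M P, Real.log p * ∑ g ∈ R1 p, (om p s g : ℝ) ≤
      1 / 10 ^ 28 * N * Real.log N := by
    refine le_trans ?_ b1
    have := hnnS R1
    nlinarith
  have c2 : ∑ p ∈ PG s N M P, Real.log p * ∑ g ∈ R2 p, (om p s g : ℝ) ≤ 1 / 10 ^ 39 * N := by
    refine le_trans ?_ b2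
    have := hnnS R2
    nlinarith
  have c4 : (m : ℝ) ^ 2 / (16384 * 10 ^ 10) *
      ∑ p ∈ PG s N M P, Real.log p * ∑ g ∈ R4 p, (om p s g : ℝ) ≤ SDfc s N M P m := by
    unfold SDfc
    rw [Finset.mul_sum]
    apply Finset.sum_le_sum
    intro p hp'
    have e1 := mul_le_mul_of_nonneg_left (b4 p hp') (hlogp p hp')
    refine le_trans (le_of_eq ?_) e1
    ring
  have c5 : ∑ p ∈ PG s N M P, Real.log p * ∑ g ∈ R4 p, (om p s g : ℝ) ≤
      16384 * 10 ^ 10 / 10 ^ 21 * N * Real.log N := by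
    have e1 := le_trans c4 hz.sdfc
    have hm2 : (0 : ℝ) < (m : ℝ) ^ 2 := by positivity
    have e2 : (m : ℝ) ^ 2 * (∑ p ∈ PG s N M P, Real.log p * ∑ g ∈ R4 p, (om p s g : ℝ)) ≤
        (m : ℝ) ^ 2 * (16384 * 10 ^ 10 / 10 ^ 21 * N * Real.log N) := by
      have e3 : (m : ℝ) ^ 2 / (16384 * 10 ^ 10) *
          (∑ p ∈ PG s N M P, Real.log p * ∑ g ∈ R4 p, (om p s g : ℝ)) * (16384 * 10 ^ 10) =
          (m : ℝ) ^ 2 * (∑ p ∈ PG s N M P, Real.log p * ∑ g ∈ R4 p, (om p s g : ℝ)) := by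
        field_simp
      rw [← e3]
      have e4 := mul_le_mul_of_nonneg_right e1 (show (0 : ℝ) ≤ 16384 * 10 ^ 10 by norm_num)
      refine le_trans e4 (le_of_eq ?_)
      ring
    exact le_of_mul_le_mul_left e2 hm2
  have hsum : ∑ p ∈ PG s N M P, Real.log p * ∑ g ∈ R p, (om p s g : ℝ) ≤
      ∑ p ∈ PG s N M P, Real.log p * ∑ g ∈ R1 p, (om p s g : ℝ) +
      ∑ p ∈ PG s N M P, Real.log p * ∑ g ∈ R2 p, (om p s g : ℝ) +
      ∑ p ∈ PG s N M P, Real.log p * ∑ g ∈ R3 p, (om p s g : ℝ) +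
      ∑ p ∈ PG s N M P, Real.log p * ∑ g ∈ R4 p, (om p s g : ℝ) := by
    rw [← Finset.sum_add_distrib, ← Finset.sum_add_distrib, ← Finset.sum_add_distrib]
    apply Finset.sum_le_sum
    intro p hp'
    have e1 := mul_le_mul_of_nonneg_left (hcov p hp') (hlogp p hp')
    refine le_trans e1 (le_of_eq ?_)
    ring
  have hN0 : (0 : ℝ) ≤ N := Nat.cast_nonneg _
  have hNl : (N : ℝ) ≤ N * Real.log N := by
    have := hz.log_N
    nlinarith
  have hfin : (1 : ℝ) / 10 ^ 28 * N * Real.log N + 1 / 10 ^ 39 * N + 1 / 10 ^ 20 * N +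
      16384 * 10 ^ 10 / 10 ^ 21 * N * Real.log N ≤ 2 / 10 ^ 7 * N * Real.log N := by
    have hN1 : 0 ≤ N * Real.log N := le_trans hN0 hNl
    have e1 : (1 : ℝ) / 10 ^ 28 * N * Real.log N + 1 / 10 ^ 39 * N + 1 / 10 ^ 20 * N +
        16384 * 10 ^ 10 / 10 ^ 21 * N * Real.log N =
        (1 / 10 ^ 28 + 16384 * 10 ^ 10 / 10 ^ 21) * (N * Real.log N) +
          (1 / 10 ^ 39 + 1 / 10 ^ 20) * N := by ring
    have e2 : (1 / 10 ^ 39 + 1 / 10 ^ 20 : ℝ) * N ≤ (1 / 10 ^ 39 + 1 / 10 ^ 20) * (N * Real.log N) :=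
      mul_le_mul_of_nonneg_left hNl (by norm_num)
    have e3 : (1 / 10 ^ 28 + 16384 * 10 ^ 10 / 10 ^ 21 + (1 / 10 ^ 39 + 1 / 10 ^ 20) : ℝ) ≤
        2 / 10 ^ 7 := by norm_num
    rw [e1]
    have e4 := mul_le_mul_of_nonneg_right e3 hN1
    linarith
  linarith

end Pool.Agent.Work.MP_b29d7f_cvx
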