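import Pool.Agent.Work.MP_b29d7f_cvx.InterfaceC

/-!
# Block NUMA: numerical hypotheses of LINK (helper55)
-/

namespace Pool.Agent.Work.MP_b29d7f_cvx

open Finset Filter
open Pool.Agent.Work.MP_b29d7f_nt (IsPOrdering HasSimultaneousOrdering PS vd ld tv)
open Pool.Agent.Work.MP_b29d7f_half (Ord A wv lD K DK HalfDense)
open Pool.Agent.Work.MP_b29d7f_sep (nv EW EL)

namespace NUMA55

theorem cc_pos : 0 < cc := by unfold cc; positivity

theorem cc_le : cc ≤ 1 / 10 ^ 22 := le_rfl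

theorem gam_pos : 0 < gam := by unfold gam; exact div_pos cc_pos (by norm_num)

theorem ep_pos : 0 < ep := by unfold ep; exact pow_pos cc_pos 5

/-- the exponent of `k` -/
noncomputable def dl : ℝ := gam ^ 2 * cc / 4

theorem dl_pos : 0 < dl := by
  unfold dl
  exact div_pos (mul_pos (pow_pos gam_pos 2) cc_pos) (by norm_num)

theorem c0_le : c0 ≤ dl := by
  unfold c0 dl
  have h1 := cc_le
  have h2 := cc_pos
  have h3 : 0 < gam ^ 2 * cc := mul_pos (pow_pos gam_pos 2) cc_pos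
  nlinarith

theorem ep_small : 20 * ep ≤ dl / 100 := by
  unfold ep dl gam
  have h1 := cc_le
  have h2 := cc_pos
  have h3 : 0 < cc ^ 3 := pow_pos h2 3
  have h4 : cc ^ 2 ≤ 1 / 10 ^ 22 * (1 / 10 ^ 22) := by
    rw [sq]; exact mul_le_mul h1 h1 h2.le (by norm_num)
  have h5 : 20 * cc ^ 2 ≤ 1 / (576 * 400) := by
    refine (mul_le_mul_of_nonneg_left h4 (by norm_num)).trans ?_
    norm_num
  have h6 : 20 * cc ^ 5 = cc ^ 3 * (20 * cc ^ 2) := by ring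
  have h7 : (cc / 24) ^ 2 * cc / 4 / 100 = cc ^ 3 * (1 / (576 * 400)) := by ring
  rw [h6, h7]
  exact mul_le_mul_of_nonneg_left h5 h3.le

theorem ep_le : ep ≤ 1 / 10 := by
  have := ep_small
  have h1 := dl_pos
  have h2 : dl ≤ 1 := by
    unfold dl gam
    have h1 := cc_le
    have h2 := cc_pos
    have h3 : cc ≤ 1 := h1.trans (by norm_num)
    have h4 : cc ^ 3 ≤ 1 := pow_le_one₀ h2.le h3
    nlinarith
  linarith

theorem dl_le : dl ≤ 1 := by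
  unfold dl gam
  have h1 := cc_le
  have h2 := cc_pos
  have h3 : cc ≤ 1 := h1.trans (by norm_num)
  have h4 : cc ^ 3 ≤ 1 := pow_le_one₀ h2.le h3
  nlinarith

theorem gam_le : gam ≤ cc / 24 := le_rfl

/-- the logarithm of the resultant -/
theorem logX {B : ℝ} (hB : 1 ≤ B) {h h' a g a' g' : ℤ} (h0 : 0 ≤ h) (h1 : (h : ℝ) ≤ B)
    (h2 : 0 ≤ h') (h3 : (h' : ℝ) ≤ B) (ha : |(a : ℝ)| ≤ B) (hg : |(g : ℝ)| ≤ B)
    (ha' : |(a' : ℝ)| ≤ B) (hg' : |(g' : ℝ)| ≤ B) :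
    Real.log |((2 * h * h' * (h' * Ev a g h - h * Ev a' g' h') : ℤ) : ℝ)| ≤
      Real.log 68 + 5 * Real.log B := by
  have hB0 : 0 < B := by linarith
  have h0' : (0 : ℝ) ≤ h := by exact_mod_cast h0
  have h2' : (0 : ℝ) ≤ h' := by exact_mod_cast h2
  have hEv : ∀ a g h : ℤ, |(a : ℝ)| ≤ B → |(g : ℝ)| ≤ B → 0 ≤ (h : ℝ) → (h : ℝ) ≤ B →
      |((Ev a g h : ℤ) : ℝ)| ≤ 17 * B ^ 2 := by
    intro a g h ha hg h0 h1
    unfold Ev
    push_cast
    have e1 : |8 * (h : ℝ) * a| ≤ 8 * B ^ 2 := by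
      rw [abs_mul, abs_mul, abs_of_nonneg (show (0 : ℝ) ≤ 8 by norm_num), abs_of_nonneg h0]
      have := mul_le_mul h1 ha (abs_nonneg _) hB0.le
      nlinarith
    have e2 : |2 * (g : ℝ) - h| ≤ 3 * B := by
      have := abs_sub (2 * (g : ℝ)) h
      rw [abs_mul, abs_of_nonneg (show (0 : ℝ) ≤ 2 by norm_num), abs_of_nonneg h0] at this
      linarith
    have e3 : (2 * (g : ℝ) - h) ^ 2 ≤ 9 * B ^ 2 := by
      rw [← sq_abs]
      have := pow_le_pow_left₀ (abs_nonneg _) e2 2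
      nlinarith
    have e4 := abs_sub (8 * (h : ℝ) * a) ((2 * (g : ℝ) - h) ^ 2)
    rw [abs_of_nonneg (sq_nonneg (2 * (g : ℝ) - h))] at e4
    linarith
  have e1 := hEv a g h ha hg h0' h1
  have e2 := hEv a' g' h' ha' hg' h2' h3
  have hX : |((2 * h * h' * (h' * Ev a g h - h * Ev a' g' h') : ℤ) : ℝ)| ≤ 68 * B ^ 5 := by
    push_cast
    rw [abs_mul]
    have e3 : |2 * (h : ℝ) * h'| ≤ 2 * B ^ 2 := by
      rw [abs_mul, abs_mul, abs_of_nonneg (show (0 : ℝ) ≤ 2 by norm_num), abs_of_nonneg h0',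
        abs_of_nonneg h2']
      have := mul_le_mul h1 h3 h2' hB0.le
      nlinarith
    have e4 : |(h' : ℝ) * (Ev a g h : ℝ) - h * (Ev a' g' h' : ℝ)| ≤ 34 * B ^ 3 := by
      refine (abs_sub _ _).trans ?_
      rw [abs_mul, abs_mul, abs_of_nonneg h0', abs_of_nonneg h2']
      have f1 := mul_le_mul h3 e1 (abs_nonneg _) hB0.le
      have f2 := mul_le_mul h1 e2 (abs_nonneg _) hB0.le
      nlinarith
    calc _ ≤ (2 * B ^ 2) * (34 * B ^ 3) := mul_le_mul e3 e4 (abs_nonneg _) (by positivity)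
      _ = 68 * B ^ 5 := by ring
  have hR : Real.log 68 + 5 * Real.log B = Real.log (68 * B ^ 5) := by
    rw [Real.log_mul (by norm_num) (by positivity), Real.log_pow]
    norm_num
  rw [hR]
  rcases eq_or_ne ((2 * h * h' * (h' * Ev a g h - h * Ev a' g' h') : ℤ) : ℝ) 0 with hz | hz
  · rw [hz, abs_zero, Real.log_zero]
    exact Real.log_nonneg (by nlinarith [one_le_pow₀ hB (n := 5)])
  · exact Real.log_le_log (abs_pos.mpr hz) hX

/-- all conditions on `n` -/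
theorem large (C₀ : ℝ) (k₀ : ℕ) : ∃ n₀ : ℕ, ∀ n : ℕ, n₀ ≤ n →
    8 ≤ n ∧ 2 ≤ (n : ℝ) ^ gam ∧ 2 ≤ ((n : ℝ) ^ gam / 2) ^ gam ∧
    16 ≤ (n : ℝ) ^ (gam ^ 2 * cc / 12) ∧ 2 ≤ (n : ℝ) ^ (cc / 3 - gam) ∧
    (k₀ : ℝ) ≤ (n : ℝ) ^ dl ∧
    Real.log 68 + 5 * ((C₀ + 1) * Real.log n) ≤ (n : ℝ) ^ (dl / 10) := by
  have tn : Tendsto (fun n : ℕ => (n : ℝ)) atTop atTop := tendsto_natCast_atTop_atTop
  have T : ∀ e : ℝ, 0 < e → Tendsto (fun n : ℕ => (n : ℝ) ^ e) atTop atTop := fun e he =>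
    (tendsto_rpow_atTop he).comp tn
  have hg := gam_pos
  have hc := cc_pos
  have a1 := (T gam hg).eventually_ge_atTop 2
  have a2 : ∀ᶠ n : ℕ in atTop, 2 ≤ ((n : ℝ) ^ gam / 2) ^ gam := by
    have := ((tendsto_rpow_atTop hg).comp ((T gam hg).atTop_div_const (by norm_num : (0:ℝ) < 2)))
    exact this.eventually_ge_atTop 2
  have a3 := (T (gam ^ 2 * cc / 12) (by positivity)).eventually_ge_atTop 16
  have a4 := (T (cc / 3 - gam) (by unfold gam; linarith)).eventually_ge_atTop 2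
  have a5 := (T dl dl_pos).eventually_ge_atTop (k₀ : ℝ)
  have a6 : ∀ᶠ n : ℕ in atTop, Real.log 68 + 5 * ((C₀ + 1) * Real.log n) ≤
      (n : ℝ) ^ (dl / 10) := by
    have hd : 0 < dl / 10 := by linarith [dl_pos]
    have l1 := (isLittleO_log_rpow_atTop hd).def
      (show (0 : ℝ) < 1 / (2 * (5 * (|C₀ + 1| + 1))) by positivity)
    have l2 := tn.eventually l1
    have l3 := (T (dl / 10) hd).eventually_ge_atTop (2 * Real.log 68)
    filter_upwards [l2, l3, eventually_ge_atTop 1] with n h2 h3 h4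
    have hn1 : (1 : ℝ) ≤ n := by exact_mod_cast h4
    have hlog : 0 ≤ Real.log n := Real.log_nonneg hn1
    have hp : 0 ≤ (n : ℝ) ^ (dl / 10) := by positivity
    rw [Real.norm_eq_abs, Real.norm_eq_abs, abs_of_nonneg hlog, abs_of_nonneg hp] at h2
    have h5 : 5 * ((C₀ + 1) * Real.log n) ≤ 5 * (|C₀ + 1| + 1) * Real.log n := by
      have : C₀ + 1 ≤ |C₀ + 1| + 1 := by linarith [le_abs_self (C₀ + 1)]
      nlinarith
    have h6 : 5 * (|C₀ + 1| + 1) * Real.log n ≤ (n : ℝ) ^ (dl / 10) / 2 := by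
      have hpos : 0 < 5 * (|C₀ + 1| + 1) := by positivity
      calc 5 * (|C₀ + 1| + 1) * Real.log n ≤
          5 * (|C₀ + 1| + 1) * (1 / (2 * (5 * (|C₀ + 1| + 1))) * (n : ℝ) ^ (dl / 10)) :=
            mul_le_mul_of_nonneg_left h2 hpos.le
        _ = (n : ℝ) ^ (dl / 10) / 2 := by field_simp
    linarith
  have := (eventually_ge_atTop 8).and (a1.and (a2.and (a3.and (a4.and (a5.and a6)))))
  obtain ⟨n₀, hn₀⟩ := eventually_atTop.mp this
  exact ⟨n₀, fun n hn => hn₀ n hn⟩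

end NUMA55

open NUMA55 in
theorem stmt_NUMA : Stmt_NUMA := by
  intro s C₀ hs k₀
  obtain ⟨n₀, hn₀⟩ := large C₀ k₀
  refine ⟨n₀, fun n hn v Z v₁ Z₁ v₂ Z₂ h h₁ h₂ hR => ?_⟩
  obtain ⟨l0, l1, l2, l3, l4, l5, l6⟩ := hn₀ n hn
  obtain ⟨hrng, hz, hz₁, hz₂⟩ := hR
  set n₁ := ⌊(n : ℝ) ^ gam⌋₊ with hn₁
  set n₂ := ⌊(n₁ : ℝ) ^ gam⌋₊ with hn₂
  have hg := gam_pos
  have hc := cc_pos
  have hC := hs.one_le
  have hnr : (8 : ℝ) ≤ n := by exact_mod_cast l0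
  have hn0 : (0 : ℝ) < n := by linarith
  have hn1 : (1 : ℝ) ≤ n := by linarith
  -- the sizes of `n₁`, `n₂`
  have b1 : (n₁ : ℝ) ≤ (n : ℝ) ^ gam := Nat.floor_le (by positivity)
  have b2 : (n : ℝ) ^ gam / 2 ≤ n₁ := by
    have := Nat.lt_floor_add_one ((n : ℝ) ^ gam)
    rw [← hn₁] at this
    linarith
  have hn₁0 : (1 : ℝ) ≤ n₁ := by linarith
  have b3 : (n₂ : ℝ) ≤ (n₁ : ℝ) ^ gam := Nat.floor_le (by positivity)
  have b4 : 2 ≤ (n₁ : ℝ) ^ gam := l2.trans (Real.rpow_le_rpow (by positivity) b2 hg.le)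
  have b5 : (n₁ : ℝ) ^ gam / 2 ≤ n₂ := by
    have := Nat.lt_floor_add_one ((n₁ : ℝ) ^ gam)
    rw [← hn₂] at this
    linarith
  have hn₂0 : (1 : ℝ) ≤ n₂ := by linarith
  have hgle : gam ≤ 1 := by
    unfold gam
    have := cc_le
    linarith [show (1 : ℝ) / 10 ^ 22 ≤ 1 by norm_num]
  have hcc1 : cc ≤ 1 := cc_le.trans (by norm_num)
  have b6 : (n : ℝ) ^ (gam ^ 2) / 4 ≤ n₂ := by
    have e1 : ((n : ℝ) ^ gam / 2) ^ gam ≤ (n₁ : ℝ) ^ gam :=
      Real.rpow_le_rpow (by positivity) b2 hg.le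
    have e2 : ((n : ℝ) ^ gam / 2) ^ gam = (n : ℝ) ^ (gam ^ 2) / 2 ^ gam := by
      rw [Real.div_rpow (by positivity) (by norm_num), ← Real.rpow_mul hn0.le, sq]
    have e3 : (2 : ℝ) ^ gam ≤ 2 := by
      calc (2 : ℝ) ^ gam ≤ 2 ^ (1 : ℝ) :=
            Real.rpow_le_rpow_of_exponent_le (by norm_num) hgle
        _ = 2 := Real.rpow_one 2
    have e4 : (n : ℝ) ^ (gam ^ 2) / 2 ≤ (n : ℝ) ^ (gam ^ 2) / 2 ^ gam :=
      div_le_div_of_nonneg_left (by positivity) (by positivity) e3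
    linarith
  -- the size of `Z₂`
  have c1 : (n : ℝ) ^ (gam ^ 2 * cc / 3) / 4 ≤ Z₂ := by
    refine le_trans ?_ hz₂.len
    have e1 : ((n : ℝ) ^ (gam ^ 2) / 4) ^ (cc / 3) ≤ (n₂ : ℝ) ^ (cc / 3) :=
      Real.rpow_le_rpow (by positivity) b6 (by positivity)
    have e2 : ((n : ℝ) ^ (gam ^ 2) / 4) ^ (cc / 3) =
        (n : ℝ) ^ (gam ^ 2 * cc / 3) / 4 ^ (cc / 3) := by
      rw [Real.div_rpow (by positivity) (by norm_num), ← Real.rpow_mul hn0.le, mul_div_assoc]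
    have e3 : (4 : ℝ) ^ (cc / 3) ≤ 4 := by
      calc (4 : ℝ) ^ (cc / 3) ≤ 4 ^ (1 : ℝ) :=
            Real.rpow_le_rpow_of_exponent_le (by norm_num) (by linarith)
        _ = 4 := Real.rpow_one 4
    have e4 : (n : ℝ) ^ (gam ^ 2 * cc / 3) / 4 ≤ (n : ℝ) ^ (gam ^ 2 * cc / 3) / 4 ^ (cc / 3) :=
      div_le_div_of_nonneg_left (by positivity) (by positivity) e3
    linarith
  have c2 : (n : ℝ) ^ (gam ^ 2 * cc / 3) =
      (n : ℝ) ^ (gam ^ 2 * cc / 12) * (n : ℝ) ^ dl := by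
    rw [← Real.rpow_add hn0]
    congr 1
    unfold dl
    ring
  have hnd1 : 1 ≤ (n : ℝ) ^ dl := Real.one_le_rpow hn1 dl_pos.le
  have c3 : 4 * (n : ℝ) ^ dl ≤ Z₂ := by
    rw [c2] at c1
    nlinarith
  have hZ₂2 : 4 ≤ Z₂ := by
    have : (4 : ℝ) ≤ Z₂ := by linarith
    exact_mod_cast this
  have c4 : (n : ℝ) ^ dl ≤ ((Z₂ / 2 : ℕ) : ℝ) := by
    have e1 : Z₂ ≤ 4 * (Z₂ / 2) := by omega
    have e2 : (Z₂ : ℝ) ≤ 4 * ((Z₂ / 2 : ℕ) : ℝ) := by exact_mod_cast e1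
    linarith
  set k := Z₂ / 2 with hk
  have hk1 : (1 : ℝ) ≤ k := hnd1.trans c4
  -- comparison of the scales
  have d1 : Z₂ ≤ Z₁ := by
    have e1 : (Z₂ : ℝ) ≤ n₂ := by exact_mod_cast (by have := hz₂.high; omega : Z₂ ≤ n₂)
    have e2 : (n₁ : ℝ) ^ gam ≤ (n₁ : ℝ) ^ (cc / 3) :=
      Real.rpow_le_rpow_of_exponent_le hn₁0 (by unfold gam; linarith)
    have := hz₁.len
    have e3 : (Z₂ : ℝ) ≤ Z₁ := by linarith
    exact_mod_cast e3
  have d2 : Z₁ ≤ Z := by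
    have e1 : (Z₁ : ℝ) ≤ n₁ := by exact_mod_cast (by have := hz₁.high; omega : Z₁ ≤ n₁)
    have e2 : (n : ℝ) / 8 ≤ ((n / 4 : ℕ) : ℝ) := by
      have : n ≤ 8 * (n / 4) := by omega
      have : (n : ℝ) ≤ 8 * ((n / 4 : ℕ) : ℝ) := by exact_mod_cast this
      linarith
    have e3 : ((n : ℝ) / 8) ^ (cc / 3) ≤ ((n / 4 : ℕ) : ℝ) ^ (cc / 3) :=
      Real.rpow_le_rpow (by positivity) e2 (by positivity)
    have e4 : ((n : ℝ) / 8) ^ (cc / 3) = (n : ℝ) ^ (cc / 3) / 8 ^ (cc / 3) :=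
      Real.div_rpow hn0.le (by norm_num) _
    have e5 : (8 : ℝ) ^ (cc / 3) ≤ 2 := by
      calc (8 : ℝ) ^ (cc / 3) ≤ 8 ^ (1 / 3 : ℝ) :=
            Real.rpow_le_rpow_of_exponent_le (by norm_num) (by linarith)
        _ = 2 := by
          rw [show (8 : ℝ) = 2 ^ (3 : ℝ) by norm_num, ← Real.rpow_mul (by norm_num)]
          norm_num
    have e6 : (n : ℝ) ^ (cc / 3) / 2 ≤ (n : ℝ) ^ (cc / 3) / 8 ^ (cc / 3) :=
      div_le_div_of_nonneg_left (by positivity) (by positivity) e5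
    have e7 : (n : ℝ) ^ (cc / 3) = (n : ℝ) ^ (cc / 3 - gam) * (n : ℝ) ^ gam := by
      rw [← Real.rpow_add hn0]; congr 1; ring
    have e8 : (n : ℝ) ^ gam ≤ (n : ℝ) ^ (cc / 3) / 2 := by
      rw [e7]
      have : 0 < (n : ℝ) ^ gam := by positivity
      nlinarith
    have := hz.len
    have e9 : (Z₁ : ℝ) ≤ Z := by linarith
    exact_mod_cast e9
  -- indices are at most `n`
  have hn₁n : n₁ ≤ n := by
    have : (n₁ : ℝ) ≤ n := b1.trans (by
      calc (n : ℝ) ^ gam ≤ (n : ℝ) ^ (1 : ℝ) := Real.rpow_le_rpow_of_exponent_le hn1 hgle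
        _ = n := Real.rpow_one _)
    exact_mod_cast this
  have hn₂n : n₂ ≤ n := by
    have : (n₂ : ℝ) ≤ n₁ := b3.trans (by
      calc (n₁ : ℝ) ^ gam ≤ (n₁ : ℝ) ^ (1 : ℝ) := Real.rpow_le_rpow_of_exponent_le hn₁0 hgle
        _ = n₁ := Real.rpow_one _)
    have : n₂ ≤ n₁ := by exact_mod_cast this
    omega
  have hZ₁ : 4 ≤ Z₁ := hZ₂2.trans d1
  have hZ : 4 ≤ Z := hZ₁.trans d2
  have o1 := hz.low
  have o2 := hz.high
  have o3 := hz₁.low
  have o4 := hz₁.high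
  have o5 := hz₂.low
  have o6 := hz₂.high
  have hkn : k ≤ n := by omega
  -- the bounds for the second differences
  have hh : ∀ (m : ℕ) (g : ℤ), 1 ≤ m → m ≤ n → (g : ℝ) ≤ (m : ℝ) ^ (20 * ep) →
      (g : ℝ) ≤ (k : ℝ) ^ (1 / 100 : ℝ) ∧ (g : ℝ) ≤ n := by
    intro m g hm1 hmn hgm
    have f1 : (m : ℝ) ^ (20 * ep) ≤ (n : ℝ) ^ (20 * ep) :=
      Real.rpow_le_rpow (by positivity) (by exact_mod_cast hmn) (by linarith [ep_pos])
    have f2 : (n : ℝ) ^ (20 * ep) ≤ (n : ℝ) ^ (dl * (1 / 100)) :=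
      Real.rpow_le_rpow_of_exponent_le hn1 (by have := ep_small; linarith)
    have f3 : (n : ℝ) ^ (dl * (1 / 100)) ≤ (k : ℝ) ^ (1 / 100 : ℝ) := by
      rw [Real.rpow_mul hn0.le]
      exact Real.rpow_le_rpow (by positivity) c4 (by norm_num)
    have f4 : (n : ℝ) ^ (dl * (1 / 100)) ≤ n := by
      calc (n : ℝ) ^ (dl * (1 / 100)) ≤ (n : ℝ) ^ (1 : ℝ) :=
            Real.rpow_le_rpow_of_exponent_le hn1 (by have := dl_le; linarith)
        _ = n := Real.rpow_one _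
    exact ⟨by linarith, by linarith⟩
  have hh0 := hh (n / 4) h (by omega) (by omega) hz.small
  have hh1 := hh n₁ h₁ (by omega) hn₁n hz₁.small
  have hh2 := hh n₂ h₂ (by omega) hn₂n hz₂.small
  -- the bound for the elements
  set B : ℝ := (n : ℝ) ^ (C₀ + 1) with hB
  have hB1 : 1 ≤ B := Real.one_le_rpow hn1 (by linarith)
  have hnB : (n : ℝ) ≤ B := by
    calc (n : ℝ) = (n : ℝ) ^ (1 : ℝ) := (Real.rpow_one _).symm
      _ ≤ B := Real.rpow_le_rpow_of_exponent_le hn1 (by linarith)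
  have hsn : ((s n : ℤ) : ℝ) ≤ B := by
    have f1 := hs.growth n (by omega)
    have f2 : (0 : ℝ) < s n := by
      have := hs.mono (show 0 < n by omega)
      rw [hs.zero] at this
      exact_mod_cast this
    have f3 := Real.exp_le_exp.mpr f1
    rw [Real.exp_log f2] at f3
    have f4 : Real.exp (C₀ * Real.log n) = (n : ℝ) ^ C₀ := by
      rw [Real.rpow_def_of_pos hn0, mul_comm]
    rw [f4] at f3
    exact f3.trans (Real.rpow_le_rpow_of_exponent_le hn1 (by linarith))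
  have hel : ∀ j, j + 1 ≤ n → |((s j : ℤ) : ℝ)| ≤ B ∧ |((gp s j : ℤ) : ℝ)| ≤ B := by
    intro j hj
    have f1 : 0 ≤ s j := by
      have := hs.mono.monotone (Nat.zero_le j)
      rwa [hs.zero] at this
    have f2 : s j < s (j + 1) := hs.mono (Nat.lt_succ_self j)
    have f3 : s (j + 1) ≤ s n := hs.mono.monotone hj
    have f1' : (0 : ℝ) ≤ s j := by exact_mod_cast f1
    have f2' : ((s j : ℤ) : ℝ) < s (j + 1) := by exact_mod_cast f2
    have f3' : ((s (j + 1) : ℤ) : ℝ) ≤ s n := by exact_mod_cast f3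
    constructor
    · rw [abs_of_nonneg f1']; linarith
    · unfold gp
      push_cast
      rw [abs_of_nonneg (by linarith)]
      linarith
  have g0 := hel v (by omega)
  have g1 := hel v₁ (by omega)
  have g2 := hel v₂ (by omega)
  have hlogB : Real.log B = (C₀ + 1) * Real.log n := Real.log_rpow hn0 _
  have hkB : (n : ℝ) ^ (dl / 10) ≤ (k : ℝ) ^ (1 / 10 : ℝ) := by
    rw [show dl / 10 = dl * (1 / 10) by ring, Real.rpow_mul hn0.le]
    exact Real.rpow_le_rpow (by positivity) c4 (by norm_num)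
  have hp0 : 0 ≤ h := by have := hz.one_le; omega
  have hp1 : 0 ≤ h₁ := by have := hz₁.one_le; omega
  have hp2 : 0 ≤ h₂ := by have := hz₂.one_le; omega
  refine ⟨k, ?_, by omega, by omega, by omega, by omega, by omega, by omega, ?_, hh0.1, hh1.1,
    hh2.1, ?_, ?_⟩
  · have : (k₀ : ℝ) ≤ k := l5.trans c4
    exact_mod_cast this
  · have f1 : (n : ℝ) ^ c0 ≤ k :=
      (Real.rpow_le_rpow_of_exponent_le hn1 c0_le).trans c4
    have f2 := hrng k f1 hkn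
    have f3 : 0 ≤ Real.log k := Real.log_nonneg hk1
    have f4 := (abs_le.mp f2).1
    have f5 := ep_le
    nlinarith
  · have := logX hB1 hp0 (hh0.2.trans hnB) hp1 (hh1.2.trans hnB) g0.1 g0.2 g1.1 g1.2
    rw [hlogB] at this
    linarith
  · have := logX hB1 hp1 (hh1.2.trans hnB) hp2 (hh2.2.trans hnB) g1.1 g1.2 g2.1 g2.2
    rw [hlogB] at this
    linarith

end Pool.Agent.Work.MP_b29d7f_cvx
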