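import Pool.Agent.Work.MP_b29d7f_cvx.InterfaceC

/-!
# Block NUMB: numerical hypotheses of POS
-/

namespace Pool.Agent.Work.MP_b29d7f_cvx

open Finset

theorem numb_floor (m : ℕ) (hm : 1 ≤ m) (g : ℝ) (hg : 0 ≤ g) :
    1 ≤ ⌊(m : ℝ) ^ g⌋₊ ∧ Real.log (⌊(m : ℝ) ^ g⌋₊ : ℝ) ≤ g * Real.log m ∧
      g * Real.log m - 1 ≤ Real.log (⌊(m : ℝ) ^ g⌋₊ : ℝ) := by
  have hm' : (1 : ℝ) ≤ m := by exact_mod_cast hm
  have h1 : (1 : ℝ) ≤ (m : ℝ) ^ g := Real.one_le_rpow hm' hg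
  have h2 : 1 ≤ ⌊(m : ℝ) ^ g⌋₊ := Nat.le_floor (by simpa using h1)
  have h2' : (1 : ℝ) ≤ (⌊(m : ℝ) ^ g⌋₊ : ℝ) := by exact_mod_cast h2
  have h3 : (⌊(m : ℝ) ^ g⌋₊ : ℝ) ≤ (m : ℝ) ^ g := Nat.floor_le (by linarith)
  have h4 : (m : ℝ) ^ g < (⌊(m : ℝ) ^ g⌋₊ : ℝ) + 1 := Nat.lt_floor_add_one _
  have h5 : Real.log ((m : ℝ) ^ g) = g * Real.log m := Real.log_rpow (by linarith) g
  refine ⟨h2, ?_, ?_⟩
  · rw [← h5]
    exact Real.log_le_log (by linarith) h3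
  · rw [← h5]
    have h6 : Real.log ((m : ℝ) ^ g) ≤ Real.log (2 * (⌊(m : ℝ) ^ g⌋₊ : ℝ)) :=
      Real.log_le_log (by linarith) (by linarith)
    rw [Real.log_mul two_ne_zero (by linarith)] at h6
    have h7 : Real.log 2 ≤ 1 := by
      have := Real.log_two_lt_d9
      linarith
    linarith

theorem numb_rng {s : ℕ → ℤ} {n : ℕ} (hn : 1 ≤ n) (h : Rng s c0 ep n) {k : ℕ} (hk : 1 ≤ k)
    (hkn : k ≤ n) (h1 : c0 * Real.log n ≤ Real.log k) :
    |Real.log (s k) - 2 * Real.log k| ≤ ep * Real.log k := by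
  refine h k ?_ hkn
  have hn' : (0 : ℝ) < n := by exact_mod_cast hn
  have hk' : (0 : ℝ) < k := by exact_mod_cast hk
  rw [← Real.log_rpow hn'] at h1
  exact (Real.log_le_log_iff (Real.rpow_pos_of_pos hn' _) hk').mp h1

/-- the last inequality -/
theorem numb_last (m : ℕ) (hm : 1 ≤ m) (hl : 200 ≤ Real.log m) (y : ℤ) (hy : 0 < y)
    (hym : Real.log y ≤ 3 / 4 * Real.log m) :
    (y : ℝ) * (2 * Real.log (y + 1) + Real.log (2 * m) + 2) ≤ m * Real.log 2 := by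
  have hm' : (1 : ℝ) ≤ m := by exact_mod_cast hm
  have hy' : (1 : ℝ) ≤ y := by exact_mod_cast (by omega : (1 : ℤ) ≤ y)
  have hlog2 : (1 / 2 : ℝ) ≤ Real.log 2 := by
    have := Real.log_two_gt_d9
    linarith
  have hlog2' : Real.log 2 ≤ 1 := by
    have := Real.log_two_lt_d9
    linarith
  have h1 : Real.log (y + 1) ≤ Real.log 2 + Real.log y := by
    rw [← Real.log_mul two_ne_zero (by linarith)]
    exact Real.log_le_log (by linarith) (by linarith)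
  have h2 : Real.log (2 * m) = Real.log 2 + Real.log m := Real.log_mul two_ne_zero (by linarith)
  have h3 : 2 * Real.log (y + 1) + Real.log (2 * m) + 2 ≤ 3 * Real.log m := by
    rw [h2]
    linarith
  have h4 : (y : ℝ) * (2 * Real.log (y + 1) + Real.log (2 * m) + 2) ≤
      (y : ℝ) * (3 * Real.log m) := mul_le_mul_of_nonneg_left h3 (by linarith)
  have h5 : (y : ℝ) ≤ Real.exp (3 / 4 * Real.log m) := by
    rw [← Real.log_le_iff_le_exp (by linarith)]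
    exact hym
  have h6 : (m : ℝ) = Real.exp (3 / 4 * Real.log m) * Real.exp (1 / 4 * Real.log m) := by
    rw [← Real.exp_add]
    have : 3 / 4 * Real.log m + 1 / 4 * Real.log m = Real.log m := by ring
    rw [this, Real.exp_log (by linarith)]
  have h7 : 6 * Real.log m ≤ Real.exp (1 / 4 * Real.log m) := by
    have := Real.quadratic_le_exp_of_nonneg (x := 1 / 4 * Real.log m) (by linarith)
    have h9 := mul_le_mul_of_nonneg_right hl (by linarith : (0 : ℝ) ≤ Real.log m)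
    linarith
  have h8 : (0 : ℝ) < Real.exp (3 / 4 * Real.log m) := Real.exp_pos _
  calc (y : ℝ) * (2 * Real.log (y + 1) + Real.log (2 * m) + 2) ≤ (y : ℝ) * (3 * Real.log m) := h4
    _ ≤ Real.exp (3 / 4 * Real.log m) * (3 * Real.log m) :=
        mul_le_mul_of_nonneg_right h5 (by linarith)
    _ ≤ Real.exp (3 / 4 * Real.log m) * (Real.exp (1 / 4 * Real.log m) * Real.log 2) := by
        refine mul_le_mul_of_nonneg_left ?_ h8.le
        have h9 := mul_le_mul_of_nonneg_left hlog2 (Real.exp_pos (1 / 4 * Real.log m)).le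
        linarith
    _ = m * Real.log 2 := by rw [← mul_assoc, ← h6]

/-- the dyadic pigeonhole -/
theorem numb_dyadic {s : ℕ → ℤ} (hpos : ∀ k : ℕ, 1 ≤ k → 0 < s k)
    {i₀ i₁ : ℕ} (hi : i₀ ≤ i₁)
    (h : ∀ i : ℕ, i₀ ≤ i → i < i₁ → s (2 * 2 ^ i) < 3 * s (2 ^ i)) :
    Real.log (s (2 ^ i₁)) ≤ ((i₁ : ℝ) - i₀) * Real.log 3 + Real.log (s (2 ^ i₀)) := by
  induction i₁, hi using Nat.le_induction with
  | base => simp
  | succ k hk ih =>
    have h1 := ih fun i hi1 hi2 => h i hi1 (by omega)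
    have h2 := h k hk (by omega)
    have h3 : (0 : ℤ) < s (2 ^ k) := hpos _ Nat.one_le_two_pow
    have h4 : (0 : ℤ) < s (2 * 2 ^ k) := hpos _ (by have := Nat.one_le_two_pow (n := k); omega)
    have h5 : Real.log (s (2 * 2 ^ k)) ≤ Real.log 3 + Real.log (s (2 ^ k)) := by
      rw [← Real.log_mul (by norm_num) (by exact_mod_cast h3.ne')]
      refine Real.log_le_log (by exact_mod_cast h4) ?_
      exact_mod_cast h2.le
    rw [pow_succ, mul_comm (2 ^ k) 2]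
    push_cast
    linarith

theorem stmt_NUMB (hARC : Stmt_ARC) : Stmt_NUMB := by
  intro s C₀ hs
  obtain ⟨-, -, hA3, -, hA5, -, -⟩ := hARC s C₀ hs
  refine ⟨⌈Real.exp (10 ^ 200)⌉₊, ?_⟩
  intro n hn v Z v₁ Z₁ v₂ Z₂ h h₁ h₂ hR
  have hpos : ∀ k : ℕ, 1 ≤ k → 0 < s k := by
    intro k hk
    have := hA5 k
    omega
  have hn1 : Real.exp (10 ^ 200) ≤ (n : ℝ) := Nat.ceil_le.mp hn
  have hn0 : (0 : ℝ) < n := (Real.exp_pos _).trans_le hn1
  have hn' : 1 ≤ n := by exact_mod_cast Nat.pos_of_ne_zero (by rintro rfl; simp at hn0)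
  have hx : (10 : ℝ) ^ 200 ≤ Real.log n := (Real.le_log_iff_exp_le hn0).mpr hn1
  have hcc : (0 : ℝ) < cc := by unfold cc; norm_num
  have hgam : (0 : ℝ) < gam := by unfold gam; linarith
  set n₁ : ℕ := ⌊(n : ℝ) ^ gam⌋₊ with hn₁
  obtain ⟨hn₁1, hn₁u, hn₁l⟩ := numb_floor n hn' gam hgam.le
  rw [← hn₁] at hn₁1 hn₁u hn₁l
  set n₂ : ℕ := ⌊(n₁ : ℝ) ^ gam⌋₊ with hn₂
  obtain ⟨hn₂1, hn₂u, hn₂l⟩ := numb_floor n₁ hn₁1 gam hgam.le
  rw [← hn₂] at hn₂1 hn₂u hn₂l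
  obtain ⟨hrng, -, hz₁, hz₂⟩ := hR
  rw [← hn₁] at hz₁
  rw [← hn₁, ← hn₂] at hz₂
  set x : ℝ := Real.log n with hxdef
  set x₁ : ℝ := Real.log n₁ with hx₁def
  set x₂ : ℝ := Real.log n₂ with hx₂def
  have hn₁0 : (0 : ℝ) < n₁ := by exact_mod_cast hn₁1
  have hn₂0 : (0 : ℝ) < n₂ := by exact_mod_cast hn₂1
  have hgamv : gam = 1 / (24 * 10 ^ 22) := by unfold gam cc; norm_num
  have hccv : cc = 1 / 10 ^ 22 := rfl
  have hc0v : c0 = 1 / (10 * (24 * 10 ^ 22) ^ 2 * (10 ^ 22) ^ 2) := by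
    unfold c0 gam cc; norm_num
  have hepv : ep ≤ 1 / 1000 := by
    unfold ep cc
    norm_num
  have hep0 : 0 < ep := by unfold ep; positivity
  have hx₁big : (10 : ℝ) ^ 170 ≤ x₁ := by
    refine le_trans ?_ hn₁l
    have : (10 : ℝ) ^ 170 ≤ gam * 10 ^ 200 - 1 := by
      rw [hgamv]
      norm_num
    have h2 : gam * 10 ^ 200 ≤ gam * x := mul_le_mul_of_nonneg_left hx hgam.le
    linarith
  have hx₂big : (10 : ℝ) ^ 140 ≤ x₂ := by
    refine le_trans ?_ hn₂l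
    have : (10 : ℝ) ^ 140 ≤ gam * 10 ^ 170 - 1 := by
      rw [hgamv]
      norm_num
    have h2 : gam * 10 ^ 170 ≤ gam * x₁ := mul_le_mul_of_nonneg_left hx₁big hgam.le
    linarith
  -- the numbers `R` and `T`
  set R : ℝ := (n₁ : ℝ) ^ (cc / 6) with hRdef
  have hR0 : 0 < R := Real.rpow_pos_of_pos hn₁0 _
  have hlogR : Real.log R = cc / 6 * x₁ := Real.log_rpow hn₁0 _
  have hT : (n₁ : ℝ) ^ (cc / 3) = R ^ 2 := by
    rw [hRdef, ← Real.rpow_natCast, ← Real.rpow_mul hn₁0.le]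
    congr 1
    push_cast
    ring
  have hlen : R ^ 2 ≤ (Z₁ : ℝ) := by rw [← hT]; exact hz₁.len
  have hRbig : (10 : ℝ) ^ 140 ≤ Real.log R := by
    rw [hlogR]
    have : (10 : ℝ) ^ 140 ≤ cc / 6 * 10 ^ 170 := by
      rw [hccv]
      norm_num
    exact this.trans (mul_le_mul_of_nonneg_left hx₁big (by positivity))
  have hRlarge : (100 : ℝ) ≤ R := by
    have h1 : Real.log R + 1 ≤ R := by
      have := Real.add_one_le_exp (Real.log R)
      rwa [Real.exp_log hR0] at this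
    have h2 : (100 : ℝ) ≤ 10 ^ 140 := by norm_num
    linarith
  have hZ₁n₁ : Z₁ ≤ n₁ := by have := hz₁.high; omega
  have hn₁n : (n₁ : ℝ) ≤ n := by
    have h1 : x₁ ≤ x := by
      have : gam ≤ 1 := by rw [hgamv]; norm_num
      have h0 : 0 ≤ x := by
        have : (0 : ℝ) ≤ 10 ^ 200 := by norm_num
        linarith
      exact hn₁u.trans (mul_le_of_le_one_left h0 this)
    exact (Real.log_le_log_iff hn₁0 hn0).mp h1
  have hn₁n' : n₁ ≤ n := by exact_mod_cast hn₁n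
  -- the gap at `v₂`
  have hgp : 2 * Real.log (gp s v₂) ≤ 3 * x₂ ∧ 0 < gp s v₂ := by
    have hv₂ : 1 ≤ v₂ := by
      have := hz₂.low
      omega
    have hv₂n : v₂ ≤ n₂ := by have := hz₂.high; omega
    have hg0 : 0 < gp s v₂ := by
      unfold gp
      have := hs.mono (Nat.lt_succ_self v₂)
      have h' : s v₂ < s (v₂ + 1) := this
      omega
    have h1 := hA3 v₂ (2 * v₂) (by omega)
    have hsv : 0 < s v₂ := hpos v₂ hv₂
    have h2 : (v₂ : ℤ) * gp s v₂ ≤ s (2 * v₂) := by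
      have e : (((2 * v₂ : ℕ) : ℤ) - (v₂ : ℤ)) * gp s v₂ = v₂ * gp s v₂ := by push_cast; ring
      rw [e] at h1
      omega
    have hv0 : (0 : ℝ) < v₂ := by exact_mod_cast hv₂
    have hg0' : (0 : ℝ) < gp s v₂ := by exact_mod_cast hg0
    have h3 : Real.log v₂ + Real.log (gp s v₂) ≤ Real.log (s (2 * v₂)) := by
      rw [← Real.log_mul hv0.ne' hg0'.ne']
      refine Real.log_le_log (by positivity) ?_
      exact_mod_cast h2
    have hlogv : Real.log v₂ ≤ x₂ := Real.log_le_log hv0 (by exact_mod_cast hv₂n)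
    have hlogv' : x₂ ≤ Real.log ((2 * v₂ : ℕ) : ℝ) := by
      refine Real.log_le_log hn₂0 ?_
      exact_mod_cast hz₂.low
    have hlog2v : Real.log ((2 * v₂ : ℕ) : ℝ) = Real.log 2 + Real.log v₂ := by
      push_cast
      exact Real.log_mul two_ne_zero hv0.ne'
    have hlog2 : Real.log 2 ≤ 1 := by
      have := Real.log_two_lt_d9
      linarith
    have hlog20 : 0 < Real.log 2 := Real.log_pos (by norm_num)
    have h240 : (1000 : ℝ) ≤ 10 ^ 140 := by norm_num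
    have hrange : |Real.log (s (2 * v₂)) - 2 * Real.log ((2 * v₂ : ℕ) : ℝ)| ≤
        ep * Real.log ((2 * v₂ : ℕ) : ℝ) := by
      refine numb_rng hn' hrng (by omega) ?_ ?_
      · -- `2 v₂ ≤ n`
        have h5 : Real.log ((2 * v₂ : ℕ) : ℝ) ≤ x := by
          have h6 : x₂ ≤ gam * x₁ := hn₂u
          have h7 : x₁ ≤ gam * x := hn₁u
          have h8 : gam ≤ 1 / 2 := by rw [hgamv]; norm_num
          have h9 : x₂ ≤ 1 / 2 * x₁ := h6.trans (mul_le_mul_of_nonneg_right h8 (by linarith))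
          have h10 : x₁ ≤ x := h7.trans (mul_le_of_le_one_left (by linarith) (by linarith))
          linarith
        have h6 : ((2 * v₂ : ℕ) : ℝ) ≤ n :=
          (Real.log_le_log_iff (by positivity) hn0).mp h5
        exact_mod_cast h6
      · refine le_trans ?_ hlogv'
        refine le_trans ?_ hn₂l
        -- `c0 x ≤ gam x₁ - 1`
        have h5 : gam * (gam * x - 1) ≤ gam * x₁ := mul_le_mul_of_nonneg_left hn₁l hgam.le
        have h6 : c0 * x ≤ gam * (gam * x - 1) - 1 := by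
          rw [hc0v, hgamv]
          have h300 : (10 : ℝ) ^ 200 ≤ x := hx
          have hbig : (10 : ℝ) ^ 100 ≤ 10 ^ 200 := by norm_num
          have : (10 : ℝ) ^ 100 ≤ x := hbig.trans h300
          norm_num at this ⊢
          linarith
        linarith
    rw [abs_le] at hrange
    have h5 := hrange.2
    rw [hlog2v] at h5
    refine ⟨?_, hg0⟩
    have h6 : ep * (Real.log 2 + Real.log v₂) ≤ 1 / 1000 * (1 + x₂) := by
      refine mul_le_mul hepv (by linarith) ?_ (by norm_num)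
      have : 0 ≤ Real.log v₂ := Real.log_natCast_nonneg _
      linarith
    linarith
  -- pigeonhole
  have hAR : (⌈R⌉₊ : ℝ) ≤ 2 * R := by
    have := Nat.ceil_lt_add_one hR0.le
    linarith
  have hA2 : 2 ≤ ⌈R⌉₊ := by
    have : (2 : ℝ) < (⌈R⌉₊ : ℝ) := lt_of_lt_of_le (by linarith) (Nat.le_ceil R)
    exact_mod_cast this.le
  set i₀ : ℕ := Nat.clog 2 ⌈R⌉₊ with hi₀
  have hi₀l : R ≤ ((2 ^ i₀ : ℕ) : ℝ) := by
    refine (Nat.le_ceil R).trans ?_
    exact_mod_cast Nat.le_pow_clog (by norm_num) _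
  have hi₀u : ((2 ^ i₀ : ℕ) : ℝ) ≤ 4 * R := by
    have h1 : 0 < i₀ := Nat.clog_pos (by norm_num) (by omega)
    have h2 : 2 ^ (i₀ - 1) < ⌈R⌉₊ := Nat.pow_pred_clog_lt_self (by norm_num) (by omega)
    have h3 : 2 ^ i₀ = 2 * 2 ^ (i₀ - 1) := by
      rw [← pow_succ']
      congr 1
      omega
    have h4 : 2 ^ i₀ ≤ 2 * ⌈R⌉₊ := by omega
    have h5 : ((2 ^ i₀ : ℕ) : ℝ) ≤ 2 * (⌈R⌉₊ : ℝ) := by exact_mod_cast h4
    linarith
  have hR2 : 100 * R ≤ R ^ 2 := by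
    rw [sq]
    exact mul_le_mul_of_nonneg_right hRlarge hR0.le
  have hB2 : ⌊R ^ 2 / 4⌋₊ ≠ 0 := by
    have : 1 ≤ ⌊R ^ 2 / 4⌋₊ := Nat.le_floor (by push_cast; linarith)
    omega
  set i₁ : ℕ := Nat.log 2 ⌊R ^ 2 / 4⌋₊ with hi₁
  have hi₁u : ((2 ^ i₁ : ℕ) : ℝ) ≤ R ^ 2 / 4 := by
    have h1 : 2 ^ i₁ ≤ ⌊R ^ 2 / 4⌋₊ := Nat.pow_log_le_self 2 hB2
    have h2 : ((2 ^ i₁ : ℕ) : ℝ) ≤ (⌊R ^ 2 / 4⌋₊ : ℝ) := by exact_mod_cast h1
    exact h2.trans (Nat.floor_le (by positivity))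
  have hi₁l : R ^ 2 / 16 ≤ ((2 ^ i₁ : ℕ) : ℝ) := by
    have h1 : ⌊R ^ 2 / 4⌋₊ < 2 ^ (i₁ + 1) := Nat.lt_pow_succ_log_self (by norm_num) _
    have h2 : (⌊R ^ 2 / 4⌋₊ : ℝ) ≤ ((2 ^ (i₁ + 1) : ℕ) : ℝ) := by exact_mod_cast h1.le
    have h3 : R ^ 2 / 4 < (⌊R ^ 2 / 4⌋₊ : ℝ) + 1 := Nat.lt_floor_add_one _
    have h4 : ((2 ^ (i₁ + 1) : ℕ) : ℝ) = 2 * ((2 ^ i₁ : ℕ) : ℝ) := by push_cast; ring
    linarith
  have hlog0 : Real.log ((2 ^ i₀ : ℕ) : ℝ) = i₀ * Real.log 2 := by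
    push_cast
    rw [Real.log_pow]
  have hlog1 : Real.log ((2 ^ i₁ : ℕ) : ℝ) = i₁ * Real.log 2 := by
    push_cast
    rw [Real.log_pow]
  have hlog2 : Real.log 2 ≤ 0.6931471808 := Real.log_two_lt_d9.le
  have hlog20 : 0.6931471803 < Real.log 2 := Real.log_two_gt_d9
  have hlogR2 : Real.log (R ^ 2) = 2 * Real.log R := by
    rw [Real.log_pow]; norm_num
  have ha : (i₀ : ℝ) * Real.log 2 ≤ Real.log R + 2 := by
    rw [← hlog0]
    have h1 : Real.log ((2 ^ i₀ : ℕ) : ℝ) ≤ Real.log (4 * R) :=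
      Real.log_le_log (by positivity) hi₀u
    have h2 : Real.log (4 * R) = Real.log 4 + Real.log R := Real.log_mul (by norm_num) hR0.ne'
    have h3 : Real.log 4 = 2 * Real.log 2 := by
      rw [show (4 : ℝ) = 2 ^ 2 by norm_num, Real.log_pow]; norm_num
    linarith
  have hb : 2 * Real.log R - 3 ≤ (i₁ : ℝ) * Real.log 2 := by
    rw [← hlog1]
    have h1 : Real.log (R ^ 2 / 16) ≤ Real.log ((2 ^ i₁ : ℕ) : ℝ) :=
      Real.log_le_log (by positivity) hi₁l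
    have h2 : Real.log (R ^ 2 / 16) = 2 * Real.log R - Real.log 16 := by
      rw [Real.log_div (by positivity) (by norm_num), hlogR2]
    have h3 : Real.log 16 = 4 * Real.log 2 := by
      rw [show (16 : ℝ) = 2 ^ 4 by norm_num, Real.log_pow]; norm_num
    linarith
  have hb' : (i₁ : ℝ) * Real.log 2 ≤ 2 * Real.log R := by
    rw [← hlog1, ← hlogR2]
    refine Real.log_le_log (by positivity) ?_
    linarith
  have h240 : (1000 : ℝ) ≤ 10 ^ 140 := by norm_num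
  have hi01 : i₀ ≤ i₁ := by
    have h1 : (i₀ : ℝ) * Real.log 2 ≤ i₁ * Real.log 2 := by linarith
    have h2 : (i₀ : ℝ) ≤ i₁ := le_of_mul_le_mul_right h1 (by linarith)
    exact_mod_cast h2
  have hi₁n : 2 ^ i₁ ≤ n := by
    have h1 : ((2 ^ i₁ : ℕ) : ℝ) ≤ n := by
      have h2 : (Z₁ : ℝ) ≤ n₁ := by exact_mod_cast hZ₁n₁
      linarith
    exact_mod_cast h1
  have hc0R : c0 * x ≤ Real.log R := by
    rw [hlogR]
    have h1 : cc / 6 * (gam * x - 1) ≤ cc / 6 * x₁ :=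
      mul_le_mul_of_nonneg_left hn₁l (by positivity)
    have h2 : c0 * x ≤ cc / 6 * (gam * x - 1) := by
      rw [hc0v, hgamv, hccv]
      have hbig : (10 : ℝ) ^ 100 ≤ 10 ^ 200 := by norm_num
      have : (10 : ℝ) ^ 100 ≤ x := hbig.trans hx
      norm_num at this ⊢
      linarith
    linarith
  have hex : ∃ i : ℕ, i₀ ≤ i ∧ i < i₁ ∧ 3 * s (2 ^ i) ≤ s (2 * 2 ^ i) := by
    by_contra hcon
    push Not at hcon
    have h1 := numb_dyadic hpos hi01 hcon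
    have hr1 : |Real.log (s (2 ^ i₁)) - 2 * Real.log ((2 ^ i₁ : ℕ) : ℝ)| ≤
        ep * Real.log ((2 ^ i₁ : ℕ) : ℝ) := by
      refine numb_rng hn' hrng Nat.one_le_two_pow hi₁n ?_
      rw [hlog1]
      linarith
    have hr0 : |Real.log (s (2 ^ i₀)) - 2 * Real.log ((2 ^ i₀ : ℕ) : ℝ)| ≤
        ep * Real.log ((2 ^ i₀ : ℕ) : ℝ) := by
      refine numb_rng hn' hrng Nat.one_le_two_pow
        ((Nat.pow_le_pow_right (by norm_num) hi01).trans hi₁n) ?_
      refine hc0R.trans ?_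
      exact Real.log_le_log hR0 hi₀l
    rw [hlog1, abs_le] at hr1
    rw [hlog0, abs_le] at hr0
    have hr1' := hr1.1
    have hr0' := hr0.2
    have hlog3 : Real.log 3 ≤ 1.6 * Real.log 2 := by
      have h5 : 5 * Real.log 3 ≤ 8 * Real.log 2 := by
        have e1 : (5 : ℝ) * Real.log 3 = Real.log (3 ^ 5) := by rw [Real.log_pow]; norm_num
        have e2 : (8 : ℝ) * Real.log 2 = Real.log (2 ^ 8) := by rw [Real.log_pow]; norm_num
        rw [e1, e2]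
        exact Real.log_le_log (by norm_num) (by norm_num)
      linarith
    have hi01' : (0 : ℝ) ≤ (i₁ : ℝ) - i₀ := by
      have : (i₀ : ℝ) ≤ i₁ := by exact_mod_cast hi01
      linarith
    have h6 : ((i₁ : ℝ) - i₀) * Real.log 3 ≤ ((i₁ : ℝ) - i₀) * (1.6 * Real.log 2) :=
      mul_le_mul_of_nonneg_left hlog3 hi01'
    set α : ℝ := (i₀ : ℝ) * Real.log 2 with hα
    set β : ℝ := (i₁ : ℝ) * Real.log 2 with hβ
    have h7 : ((i₁ : ℝ) - i₀) * (1.6 * Real.log 2) = 1.6 * (β - α) := by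
      rw [hα, hβ]; ring
    have hα0 : 0 ≤ α := by positivity
    have hβ0 : 0 ≤ β := by positivity
    have h8 : ep * β ≤ 1 / 1000 * β := mul_le_mul_of_nonneg_right hepv hβ0
    have h9 : ep * α ≤ 1 / 1000 * α := mul_le_mul_of_nonneg_right hepv hα0
    linarith
  obtain ⟨i, hii, hii', hi3⟩ := hex
  have h2m : 2 * 2 ^ i ≤ 2 ^ i₁ := by
    rw [← pow_succ']
    exact Nat.pow_le_pow_right (by norm_num) hii'
  have h2m' : (2 : ℝ) * ((2 ^ i : ℕ) : ℝ) ≤ R ^ 2 / 4 := by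
    have : ((2 * 2 ^ i : ℕ) : ℝ) ≤ ((2 ^ i₁ : ℕ) : ℝ) := by exact_mod_cast h2m
    push_cast at this hi₁u ⊢
    linarith
  have hmR : R ≤ ((2 ^ i : ℕ) : ℝ) := by
    refine hi₀l.trans ?_
    exact_mod_cast Nat.pow_le_pow_right (by norm_num) hii
  refine ⟨2 ^ i, Nat.one_le_two_pow, ?_, ?_, hi3, ?_⟩
  · have h1 : ((4 * 2 ^ i : ℕ) : ℝ) ≤ Z₁ := by
      push_cast at h2m' ⊢
      linarith
    exact_mod_cast h1
  · have h1 := hz₁.low
    have h2 : ((2 * 2 ^ i : ℕ) : ℝ) ≤ v₁ := by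
      have h3 : (n₁ : ℝ) ≤ 2 * v₁ := by exact_mod_cast h1
      have h4 : (Z₁ : ℝ) ≤ n₁ := by exact_mod_cast hZ₁n₁
      push_cast at h2m' ⊢
      linarith
    exact_mod_cast h2
  · intro y hy hyg
    have hlm : Real.log R ≤ Real.log ((2 ^ i : ℕ) : ℝ) := Real.log_le_log hR0 hmR
    have h1 : Real.log y ≤ 3 / 4 * Real.log ((2 ^ i : ℕ) : ℝ) := by
      have h2 : Real.log y ≤ 2 * Real.log (gp s v₂) := by
        have e : (2 : ℝ) * Real.log (gp s v₂) = Real.log ((gp s v₂ : ℝ) ^ 2) := by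
          rw [Real.log_pow]; norm_num
        rw [e]
        refine Real.log_le_log (by exact_mod_cast hy) ?_
        exact_mod_cast hyg
      have h3 : x₂ ≤ 1 / 4 * Real.log R := by
        rw [hlogR]
        have : gam = cc / 24 := rfl
        rw [this] at hn₂u
        linarith
      linarith [hgp.1]
    have h2 := numb_last (2 ^ i) Nat.one_le_two_pow (by linarith) y hy h1
    exact h2

end Pool.Agent.Work.MP_b29d7f_cvx
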