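import Pool.Agent.Work.MP_b29d7f_cvx.B_NUME

/-! # MP_b29d7f: block NUMC (helper34) -/

set_option autoImplicit false

namespace Pool.Agent.Work.MP_b29d7f_cvx

open Finset

open NumS in
/-- **Block NUMC.** -/
theorem stmt_NUMC (hARC : Stmt_ARC) : Stmt_NUMC := by
  intro s C₀ hs
  obtain ⟨n₀, hn₀⟩ := scl (10 ^ 200) (by norm_num)
  refine ⟨n₀, fun n hn v Z v₁ Z₁ v₂ Z₂ h h₁ h₂ hraw => ?_⟩
  have S := hn₀ n hn
  have A := zl S.q_pos hraw.z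
  have A₁ := zl S.x_pos hraw.z₁
  have A₂ := zl S.y_pos hraw.z₂
  obtain ⟨a1, a2, a3, a4, a5, -, -⟩ := hARC s C₀ hs
  obtain ⟨Ln, hLn⟩ : ∃ t, t = Real.log n := ⟨_, rfl⟩
  obtain ⟨Lq, hLq⟩ : ∃ t, t = Real.log ((n / 4 : ℕ) : ℝ) := ⟨_, rfl⟩
  obtain ⟨Lx, hLx⟩ : ∃ t, t = Real.log ((⌊(n : ℝ) ^ gam⌋₊ : ℕ) : ℝ) := ⟨_, rfl⟩
  obtain ⟨Ly, hLy⟩ : ∃ t, t = Real.log ((⌊(⌊(n : ℝ) ^ gam⌋₊ : ℝ) ^ gam⌋₊ : ℕ) : ℝ) := ⟨_, rfl⟩
  have e1 := S.ln
  have e2 := S.x_lo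
  have e3 := S.x_hi
  have e4 := S.y_lo
  have e5 := S.y_hi
  have e6 := S.q_lo
  have e7 := S.q_hi
  have d1 := A.v_lo
  have d2 := A.v_hi
  have d3 := A.Z_lo
  have d4 := A.h_hi
  have f1 := A₁.v_lo
  have f2 := A₁.v_hi
  have f3 := A₁.Z_lo
  have f4 := A₁.h_hi
  have g1 := A₂.v_lo
  have g2 := A₂.v_hi
  have hlog2 := Real.log_two_lt_d9
  rw [← hLn] at e1 e2 e3 e6 e7
  rw [← hLq] at e6 e7 d1 d2 d3 d4
  rw [← hLx] at e2 e3 e4 e5 f1 f2 f3 f4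
  rw [← hLy] at e4 e5 g1 g2
  simp only [gam, cc, ep, c0] at e1 e2 e3 e4 e5 f1 f2 f3 f4 g1 g2 d1 d2 d3 d4
  -- indices below n
  have hn1 := S.n_pos
  have hnR : (1 : ℝ) ≤ n := by exact_mod_cast hn1
  have hxR : (0 : ℝ) < ((⌊(n : ℝ) ^ gam⌋₊ : ℕ) : ℝ) := by exact_mod_cast S.x_pos
  have hxn : ⌊(n : ℝ) ^ gam⌋₊ ≤ n := by
    have : ((⌊(n : ℝ) ^ gam⌋₊ : ℕ) : ℝ) ≤ n := by
      apply le_of_log hxR (by linarith)
      rw [← hLx, ← hLn]
      linarith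
    exact_mod_cast this
  have hyn : 2 * ⌊(⌊(n : ℝ) ^ gam⌋₊ : ℝ) ^ gam⌋₊ ≤ n := by
    have hyR : (0 : ℝ) < ((⌊(⌊(n : ℝ) ^ gam⌋₊ : ℝ) ^ gam⌋₊ : ℕ) : ℝ) := by
      exact_mod_cast S.y_pos
    have : 2 * ((⌊(⌊(n : ℝ) ^ gam⌋₊ : ℝ) ^ gam⌋₊ : ℕ) : ℝ) ≤ n := by
      apply le_of_log (by linarith) (by linarith)
      rw [Real.log_mul (by norm_num) hyR.ne', ← hLy, ← hLn]
      linarith
    exact_mod_cast this
  have v1n : v₁ ≤ n := A₁.vN.trans hxn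
  have v2n : 2 * v₂ ≤ n := (Nat.mul_le_mul_left 2 A₂.vN).trans hyn
  have c1 : c0 * Real.log n ≤ Real.log v₁ := by
    rw [← hLn]
    simp only [gam, cc, c0]
    linarith
  have hv2pos : (0 : ℝ) < v₂ := by exact_mod_cast A₂.v_pos
  have l2 : Real.log ((2 * v₂ : ℕ) : ℝ) = Real.log 2 + Real.log v₂ := by
    push_cast
    rw [Real.log_mul (by norm_num) hv2pos.ne']
  have hlog2' : 0 ≤ Real.log 2 := Real.log_nonneg (by norm_num)
  have c2 : c0 * Real.log n ≤ Real.log ((2 * v₂ : ℕ) : ℝ) := by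
    rw [← hLn, l2]
    simp only [gam, cc, c0]
    linarith
  obtain ⟨gp1, gl1⟩ := gap_lo hARC hs hn1 hraw.rng A₁.v_pos v1n c1
  obtain ⟨-, su2⟩ := rng hn1 hraw.rng (k := 2 * v₂) (by have := A₂.v_pos; omega) v2n c2
  rw [l2] at su2
  simp only [ep, cc] at gl1 su2
  have hZ1pos : (0 : ℝ) < Z₁ := by exact_mod_cast A₁.Z_pos
  have hZpos : (0 : ℝ) < Z := by exact_mod_cast A.Z_pos
  have hv1pos : (0 : ℝ) < v₁ := by exact_mod_cast A₁.v_pos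
  have hh := A.h_one
  have k4 : Real.log 4 ≤ 2 := by
    have : (4 : ℝ) = 2 ^ 2 := by norm_num
    rw [this, Real.log_pow]
    push_cast
    linarith
  have k8 : Real.log 8 ≤ 3 := by
    have : (8 : ℝ) = 2 ^ 3 := by norm_num
    rw [this, Real.log_pow]
    push_cast
    linarith
  have k64 : Real.log 64 ≤ 6 := by
    have : (64 : ℝ) = 2 ^ 6 := by norm_num
    rw [this, Real.log_pow]
    push_cast
    linarith
  -- the length of the zone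
  have hZh : 4 * (h : ℝ) ≤ Z₁ := by
    apply le_of_log (by linarith) hZ1pos
    rw [Real.log_mul (by norm_num) (by linarith)]
    linarith
  have hg1 : (1 : ℝ) ≤ gp s v₁ := by
    have : 0 < gp s v₁ := by exact_mod_cast gp1
    exact_mod_cast this
  have hW : (Z₁ : ℝ) * gp s v₁ ≤ s (v₁ + Z₁) - s v₁ := by
    have := a3 v₁ (v₁ + Z₁) (by omega)
    push_cast at this
    have h2 : (Z₁ : ℤ) * gp s v₁ ≤ s (v₁ + Z₁) - s v₁ := by
      linarith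
    exact_mod_cast h2
  have hW1 : (Z₁ : ℝ) ≤ s (v₁ + Z₁) - s v₁ :=
    le_trans (le_mul_of_one_le_right hZ1pos.le hg1) hW
  -- the gap of the last zone
  have hg2 : (0 : ℝ) < gp s v₂ := by
    have := hs.mono (Nat.lt_succ_self v₂)
    have h2 : 0 < gp s v₂ := by
      unfold gp
      simp only [Nat.succ_eq_add_one] at this
      linarith
    exact_mod_cast h2
  have hs2 : (0 : ℝ) < s (2 * v₂) := by
    have h2 : ((2 * v₂ : ℕ) : ℤ) ≤ s (2 * v₂) := a5 (2 * v₂)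
    have h3 : 0 < ((2 * v₂ : ℕ) : ℤ) := by have := A₂.v_pos; omega
    have h4 : 0 < s (2 * v₂) := by linarith
    exact_mod_cast h4
  have hg2u : (v₂ : ℝ) * gp s v₂ ≤ s (2 * v₂) := by
    have h2 := a3 v₂ (2 * v₂) (by omega)
    have h3 := a5 v₂
    push_cast at h2
    have h4 : (v₂ : ℤ) * gp s v₂ ≤ s (2 * v₂) := by
      have h5 : (0 : ℤ) ≤ v₂ := by positivity
      linarith
    exact_mod_cast h4
  have lg2 : Real.log v₂ + Real.log (gp s v₂) ≤ Real.log (s (2 * v₂)) := by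
    rw [← Real.log_mul hv2pos.ne' hg2.ne']
    exact Real.log_le_log (by positivity) hg2u
  have lgp1 : 0 ≤ Real.log (gp s v₁) := Real.log_nonneg hg1
  refine ⟨?_, ?_, ?_, ?_⟩
  · have : 2 * (h : ℝ) ≤ s (v₁ + Z₁) - s v₁ := by linarith
    exact_mod_cast this
  · -- first part
    have hs1 : (0 : ℝ) < s v₁ := by
      have h2 : (v₁ : ℝ) ≤ s v₁ := by exact_mod_cast a5 v₁
      linarith
    have hs1u : (s v₁ : ℝ) ≤ v₁ * gp s v₁ := by exact_mod_cast a4 v₁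
    have p1 : 64 * (h : ℝ) * s v₁ ≤ (Z₁ * gp s v₁) ^ 2 := by
      have q1 : 64 * (h : ℝ) * v₁ ≤ Z₁ ^ 2 * gp s v₁ := by
        apply le_of_log (by positivity) (by positivity)
        rw [Real.log_mul (by positivity) hv1pos.ne', Real.log_mul (by norm_num) (by linarith),
          Real.log_mul (by positivity) gp1.ne', Real.log_pow]
        push_cast
        linarith
      have q2 : 64 * (h : ℝ) * s v₁ ≤ 64 * (h : ℝ) * (v₁ * gp s v₁) :=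
        mul_le_mul_of_nonneg_left hs1u (by linarith)
      calc 64 * (h : ℝ) * s v₁ ≤ 64 * (h : ℝ) * v₁ * gp s v₁ := by linarith
        _ ≤ (Z₁ ^ 2 * gp s v₁) * gp s v₁ := mul_le_mul_of_nonneg_right q1 gp1.le
        _ = (Z₁ * gp s v₁) ^ 2 := by ring
    have p2 : 64 * (h : ℝ) * gp s v₂ ^ 2 ≤ (Z₁ * gp s v₁) ^ 2 := by
      apply le_of_log (by positivity) (by positivity)
      rw [Real.log_mul (by positivity) (by positivity), Real.log_mul (by norm_num) (by linarith),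
        Real.log_pow, Real.log_pow, Real.log_mul hZ1pos.ne' gp1.ne']
      push_cast
      linarith
    have p3 : (Z₁ * gp s v₁ : ℝ) / 2 ≤ (s (v₁ + Z₁) - s v₁ : ℝ) - 2 * h := by
      linarith
    have p4 : ((Z₁ * gp s v₁ : ℝ) / 2) ^ 2 ≤ ((s (v₁ + Z₁) - s v₁ : ℝ) - 2 * h) ^ 2 :=
      pow_le_pow_left₀ (by positivity) p3 2
    have p5 : 8 * (h : ℝ) * s v₁ + 8 * h * gp s v₂ ^ 2 ≤
        ((s (v₁ + Z₁) - s v₁ : ℝ) - 2 * h) ^ 2 := by
      linarith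
    exact_mod_cast p5
  · have p1 : 4 * ((⌊(n : ℝ) ^ gam⌋₊ : ℕ) : ℝ) ≤ Z := by
      apply le_of_log (by linarith) hZpos
      rw [Real.log_mul (by norm_num) hxR.ne', ← hLx]
      linarith
    have p2 : 4 * ⌊(n : ℝ) ^ gam⌋₊ ≤ Z := by exact_mod_cast p1
    have p3 := hraw.z₁.high
    have p4 := S.x_pos
    omega
  · have := A.Zv
    omega

end Pool.Agent.Work.MP_b29d7f_cvx
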