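import Pool.Agent.Work.MP_b29d7f_cvx.InterfaceC

/-!
# MP_b29d7f convex sets: block NUMD (helper89)
-/

namespace Pool.Agent.Work.MP_b29d7f_cvx

open Finset Filter

namespace NUMD_

/-- the dyadic averages -/
noncomputable def tt (a : ℕ → ℝ) (j : ℕ) : ℝ := (∑ i ∈ range j, 2 ^ i * (a j - a i)) / 2 ^ j

theorem tt_succ (a : ℕ → ℝ) (ha : Monotone a) (j : ℕ) :
    tt a (j + 1) ≤ (a (j + 1) - a j) + tt a j / 2 := by
  have h1 : ∑ i ∈ range (j + 1), (2 : ℝ) ^ i * (a (j + 1) - a i) =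
      (2 ^ (j + 1) - 1) * (a (j + 1) - a j) + ∑ i ∈ range j, (2 : ℝ) ^ i * (a j - a i) := by
    have h2 : ∀ i ∈ range (j + 1), (2 : ℝ) ^ i * (a (j + 1) - a i) =
        2 ^ i * (a (j + 1) - a j) + 2 ^ i * (a j - a i) := by
      intro i _; ring
    rw [sum_congr rfl h2, sum_add_distrib, ← sum_mul, geom_sum_eq (by norm_num) (j + 1),
      sum_range_succ (fun i => (2 : ℝ) ^ i * (a j - a i)), sub_self, mul_zero, add_zero]
    norm_num
  unfold tt
  rw [h1]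
  have hd : 0 ≤ a (j + 1) - a j := sub_nonneg.2 (ha (Nat.le_succ j))
  have hp : (0 : ℝ) < 2 ^ j := by positivity
  rw [pow_succ, add_div]
  have h3 : ((2 : ℝ) ^ j * 2 - 1) * (a (j + 1) - a j) / (2 ^ j * 2) ≤ a (j + 1) - a j := by
    rw [div_le_iff₀ (by positivity)]
    nlinarith
  have h4 : (∑ i ∈ range j, (2 : ℝ) ^ i * (a j - a i)) / (2 ^ j * 2) =
      (∑ i ∈ range j, (2 : ℝ) ^ i * (a j - a i)) / 2 ^ j / 2 := by
    rw [div_div]
  rw [h4]
  linarith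

theorem tt_nonneg (a : ℕ → ℝ) (ha : Monotone a) (j : ℕ) : 0 ≤ tt a j := by
  unfold tt
  refine div_nonneg (sum_nonneg fun i hi => ?_) (by positivity)
  exact mul_nonneg (by positivity) (sub_nonneg.2 (ha (mem_range.1 hi).le))

theorem sum_tt (a : ℕ → ℝ) (ha : Monotone a) (J : ℕ) :
    ∑ j ∈ range J, tt a (j + 1) + tt a J ≤ 2 * (a J - a 0) := by
  induction J with
  | zero => simp [tt]
  | succ J ih =>
    rw [sum_range_succ]
    have := tt_succ a ha J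
    linarith

theorem exists_tt (a : ℕ → ℝ) (ha : Monotone a) (h0 : 0 ≤ a 0) (j₀ : ℕ) (hj : 1 ≤ j₀) (C : ℝ)
    (hC : 0 < C) (h : a (2 * j₀) ≤ C * (2 * j₀)) :
    ∃ j, j₀ < j ∧ j ≤ 2 * j₀ ∧ tt a j ≤ 4 * C := by
  by_contra hcon
  push Not at hcon
  have h1 := sum_tt a ha (2 * j₀)
  have h2 : ∑ j ∈ Ico j₀ (2 * j₀), tt a (j + 1) ≤ ∑ j ∈ range (2 * j₀), tt a (j + 1) := by
    refine sum_le_sum_of_subset_of_nonneg ?_ (fun j _ _ => tt_nonneg a ha _)
    intro j hj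
    rw [mem_Ico] at hj
    exact mem_range.2 hj.2
  have h3 : ∑ j ∈ Ico j₀ (2 * j₀), (4 * C) < ∑ j ∈ Ico j₀ (2 * j₀), tt a (j + 1) := by
    refine sum_lt_sum_of_nonempty ?_ ?_
    · rw [nonempty_Ico]; omega
    · intro j hj
      rw [mem_Ico] at hj
      exact hcon (j + 1) (by omega) (by omega)
  rw [sum_const, Nat.card_Ico, nsmul_eq_mul] at h3
  have h4 : ((2 * j₀ - j₀ : ℕ) : ℝ) = j₀ := by
    rw [show 2 * j₀ - j₀ = j₀ by omega]
  rw [h4] at h3
  have h5 := tt_nonneg a ha (2 * j₀)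
  nlinarith

theorem dyadic_le (L : ℕ → ℝ) (hL : ∀ k l, 1 ≤ k → k ≤ l → L k ≤ L l) (B : ℝ) (j : ℕ) :
    ∑ l ∈ Ico 1 (2 ^ j), (B - L l) ≤ ∑ i ∈ range j, 2 ^ i * (B - L (2 ^ i)) := by
  induction j with
  | zero => simp
  | succ j ih =>
    have hle : 1 ≤ 2 ^ j := Nat.one_le_two_pow
    have hle2 : 2 ^ j ≤ 2 ^ (j + 1) := Nat.pow_le_pow_right (by norm_num) (Nat.le_succ j)
    rw [← sum_Ico_consecutive _ hle hle2, sum_range_succ]
    have h1 : ∑ l ∈ Ico (2 ^ j) (2 ^ (j + 1)), (B - L l) ≤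
        ∑ l ∈ Ico (2 ^ j) (2 ^ (j + 1)), (B - L (2 ^ j)) := by
      refine sum_le_sum fun l hl => ?_
      rw [mem_Ico] at hl
      have := hL (2 ^ j) l hle hl.1
      linarith
    rw [sum_const, Nat.card_Ico, nsmul_eq_mul, pow_succ,
      show 2 ^ j * 2 - 2 ^ j = 2 ^ j by omega] at h1
    push_cast at h1
    rw [pow_succ]
    linarith

end NUMD_

open NUMD_

theorem stmt_NUMD : Stmt_NUMD := by
  intro s C₀ hs
  have hC : 1 ≤ C₀ := hs.one_le
  have hcc : 0 < cc := by unfold cc; positivity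
  have hgam : 0 < gam := by unfold gam; positivity
  -- s is at least one
  have hs1 : ∀ k, 1 ≤ k → (1 : ℤ) ≤ s k := by
    intro k hk
    have h1 := hs.mono (show 0 < k from hk)
    rw [hs.zero] at h1
    omega
  have hLmono : ∀ k l, 1 ≤ k → k ≤ l → Real.log (s k) ≤ Real.log (s l) := by
    intro k l hk hl
    refine Real.log_le_log ?_ ?_
    · have := hs1 k hk
      exact_mod_cast (by omega : (0 : ℤ) < s k)
    · exact_mod_cast hs.mono.monotone hl
  -- sizes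
  have e1 : ∀ᶠ x : ℝ in atTop, C₀ * (Real.log 4 + 2 * Real.log x) < Real.log 2 * x ^ (cc / 3) := by
    have hl2 : 0 < Real.log 2 := Real.log_pos (by norm_num)
    have h1 : ∀ᶠ x : ℝ in atTop, ‖Real.log x‖ ≤ (Real.log 2 / (4 * C₀)) * ‖x ^ (cc / 3)‖ :=
      (isLittleO_log_rpow_atTop (by positivity : 0 < cc / 3)).def (by positivity)
    have h2 : ∀ᶠ x : ℝ in atTop, 4 * C₀ * Real.log 4 / Real.log 2 < x ^ (cc / 3) :=
      (tendsto_rpow_atTop (by positivity : 0 < cc / 3)).eventually_gt_atTop _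
    filter_upwards [h1, h2, eventually_ge_atTop (1 : ℝ)] with x hx1 hx2 hx3
    rw [Real.norm_eq_abs, Real.norm_eq_abs, abs_of_nonneg (Real.log_nonneg hx3),
      abs_of_nonneg (Real.rpow_nonneg (by linarith) _)] at hx1
    rw [div_lt_iff₀ hl2] at hx2
    have hx4 : C₀ * Real.log x ≤ Real.log 2 / 4 * x ^ (cc / 3) := by
      have h3 := mul_le_mul_of_nonneg_left hx1 (by linarith : 0 ≤ C₀)
      have h4 : C₀ * (Real.log 2 / (4 * C₀) * x ^ (cc / 3)) = Real.log 2 / 4 * x ^ (cc / 3) := by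
        field_simp
      linarith
    have hx5 : 0 < x ^ (cc / 3) := Real.rpow_pos_of_pos (by linarith) _
    nlinarith [mul_pos hl2 hx5]
  have e2 : Tendsto (fun n : ℕ => ((⌊(n : ℝ) ^ gam⌋₊ : ℕ) : ℝ)) atTop atTop :=
    tendsto_natCast_atTop_atTop.comp (tendsto_nat_floor_atTop.comp
      ((tendsto_rpow_atTop hgam).comp tendsto_natCast_atTop_atTop))
  obtain ⟨n₀, hn₀⟩ := eventually_atTop.1 (e2.eventually (e1.and (eventually_ge_atTop (1 : ℝ))))
  refine ⟨n₀, ?_⟩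
  intro n hn v Z v₁ Z₁ v₂ Z₂ h h₁ h₂ hraw
  obtain ⟨hx1, hx2⟩ := hn₀ n hn
  set x : ℕ := ⌊(n : ℝ) ^ gam⌋₊ with hx
  have hlow : x ≤ 2 * v₁ := hraw.z₁.low
  have hhigh : v₁ + Z₁ ≤ x := hraw.z₁.high
  have hlen : (x : ℝ) ^ (cc / 3) ≤ Z₁ := hraw.z₁.len
  have hx1' : 1 ≤ x := by exact_mod_cast hx2
  have hv1 : 1 ≤ v₁ := by omega
  set j₀ := Nat.log 2 (2 * v₁) with hj₀
  have hj1 : 1 ≤ j₀ := by
    rw [hj₀]
    exact Nat.log_pos (by norm_num) (by omega)
  have hp1 : 2 ^ j₀ ≤ 2 * v₁ := Nat.pow_log_le_self 2 (by omega)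
  have hp2 : 2 * v₁ < 2 ^ (j₀ + 1) := Nat.lt_pow_succ_log_self (by norm_num) _
  let a : ℕ → ℝ := fun i => Real.log (s (2 ^ i))
  have ha : Monotone a := by
    intro i l hil
    exact hLmono _ _ Nat.one_le_two_pow (Nat.pow_le_pow_right (by norm_num) hil)
  have ha0 : 0 ≤ a 0 := by
    refine Real.log_nonneg ?_
    have := hs1 (2 ^ 0) (by norm_num)
    exact_mod_cast this
  have hl2le : Real.log 2 ≤ 1 := by
    have := Real.log_two_lt_d9
    linarith
  have haj : ∀ j, 1 ≤ j → a j ≤ C₀ * (j * Real.log 2) := by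
    intro j hj
    have h1 := hs.growth (2 ^ j) (by
      calc 2 = 2 ^ 1 := by norm_num
        _ ≤ 2 ^ j := Nat.pow_le_pow_right (by norm_num) hj)
    have h2 : Real.log ((2 ^ j : ℕ) : ℝ) = j * Real.log 2 := by
      push_cast
      rw [Real.log_pow]
    rw [h2] at h1
    exact h1
  obtain ⟨j, hj2, hj3, hj4⟩ := exists_tt a ha ha0 j₀ hj1 C₀ (by linarith) (by
    have h1 := haj (2 * j₀) (by omega)
    push_cast at h1
    have h3 : (0 : ℝ) ≤ 2 * j₀ := by positivity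
    have h2 : C₀ * (2 * (j₀ : ℝ) * Real.log 2) ≤ C₀ * (2 * j₀) := by
      refine mul_le_mul_of_nonneg_left ?_ (by linarith)
      nlinarith
    linarith)
  refine ⟨2 ^ j, ?_, ?_, ?_⟩
  · have : 2 ^ (j₀ + 1) ≤ 2 ^ j := Nat.pow_le_pow_right (by norm_num) hj2
    omega
  · -- size
    have h1 := haj j (by omega)
    have h2 : (2 : ℝ) ^ j ≤ 4 * (v₁ : ℝ) ^ 2 := by
      have h3 : (2 : ℝ) ^ j ≤ 2 ^ (2 * j₀) := pow_le_pow_right₀ (by norm_num) hj3
      have h4 : ((2 : ℝ) ^ j₀) ≤ 2 * v₁ := by exact_mod_cast hp1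
      have h5 : ((2 : ℝ) ^ j₀) ^ 2 ≤ (2 * v₁) ^ 2 := pow_le_pow_left₀ (by positivity) h4 2
      rw [← pow_mul, mul_comm j₀ 2] at h5
      nlinarith
    have h6 : (j : ℝ) * Real.log 2 ≤ Real.log 4 + 2 * Real.log x := by
      have hv0 : (0 : ℝ) < v₁ := by exact_mod_cast hv1
      have h7 : Real.log ((2 : ℝ) ^ j) ≤ Real.log (4 * (v₁ : ℝ) ^ 2) :=
        Real.log_le_log (by positivity) h2
      rw [Real.log_mul (by norm_num) (by positivity), Real.log_pow] at h7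
      have h7' : Real.log ((v₁ : ℝ) ^ 2) = 2 * Real.log v₁ := by
        rw [Real.log_pow]
        push_cast
        ring
      rw [h7'] at h7
      have h8 : Real.log (v₁ : ℝ) ≤ Real.log (x : ℝ) :=
        Real.log_le_log hv0 (by exact_mod_cast (by omega : v₁ ≤ x))
      linarith
    have h9 : a j < Z₁ * Real.log 2 := by
      have h10 : C₀ * (j * Real.log 2) ≤ C₀ * (Real.log 4 + 2 * Real.log x) :=
        mul_le_mul_of_nonneg_left h6 (by linarith)
      have h11 : Real.log 2 * (x : ℝ) ^ (cc / 3) ≤ Real.log 2 * Z₁ :=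
        mul_le_mul_of_nonneg_left hlen (Real.log_nonneg (by norm_num))
      nlinarith
    have hpos : (0 : ℝ) < s (2 ^ j) := by
      have := hs1 (2 ^ j) Nat.one_le_two_pow
      exact_mod_cast (by omega : (0 : ℤ) < s (2 ^ j))
    rw [← Real.log_lt_log_iff hpos (by positivity), Real.log_pow]
    exact h9
  · have h1 := dyadic_le (fun k => Real.log (s k)) hLmono (Real.log (s (2 ^ j))) j
    have h2 : ∑ i ∈ range j, (2 : ℝ) ^ i * (a j - a i) ≤ 4 * C₀ * 2 ^ j := by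
      unfold tt at hj4
      rwa [div_le_iff₀ (by positivity)] at hj4
    unfold GG
    push_cast
    exact h1.trans h2

end Pool.Agent.Work.MP_b29d7f_cvx
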