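import Pool.Agent.Work.MP_b29d7f_cvx.NumScale34

/-! # MP_b29d7f: block NUME (helper34) -/

set_option autoImplicit false

namespace Pool.Agent.Work.MP_b29d7f_cvx

open Finset

namespace NumS

/-- the gap at the start of a zone inside the range is large -/
theorem gap_lo (hARC : Stmt_ARC) {s : ℕ → ℤ} {C₀ : ℝ} (hs : Cvx s C₀) {n v : ℕ} (hn : 1 ≤ n)
    (h : Rng s c0 ep n) (hv : 1 ≤ v) (hvn : v ≤ n) (hl : c0 * Real.log n ≤ Real.log v) :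
    (0 : ℝ) < gp s v ∧ (1 - ep) * Real.log v ≤ Real.log (gp s v) := by
  obtain ⟨-, -, -, a4, a5, -, -⟩ := hARC s C₀ hs
  have h1 := (rng hn h hv hvn hl).1
  have hgp : 0 < gp s v := by
    have := hs.mono (Nat.lt_succ_self v)
    unfold gp
    simp only [Nat.succ_eq_add_one] at this
    linarith
  have hgR : (0 : ℝ) < gp s v := by exact_mod_cast hgp
  have hvR : (0 : ℝ) < v := by exact_mod_cast hv
  have hsv : (0 : ℝ) < s v := by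
    have := a5 v
    have h2 : (v : ℝ) ≤ s v := by exact_mod_cast this
    linarith
  have h3 : (s v : ℝ) ≤ v * gp s v := by exact_mod_cast a4 v
  have h4 := Real.log_le_log hsv h3
  rw [Real.log_mul hvR.ne' hgR.ne'] at h4
  exact ⟨hgR, by linarith⟩

end NumS

open NumS in
/-- **Block NUME.** -/
theorem stmt_NUME (hARC : Stmt_ARC) : Stmt_NUME := by
  intro s C₀ hs m₀
  have hm0 : (0 : ℝ) ≤ m₀ := Nat.cast_nonneg m₀
  obtain ⟨n₀, hn₀⟩ := scl (10 ^ 200 * ((m₀ : ℝ) + 1)) (by nlinarith)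
  refine ⟨n₀, fun n hn v Z v₁ Z₁ v₂ Z₂ h h₁ h₂ hraw => ?_⟩
  have S := hn₀ n hn
  have A := zl S.q_pos hraw.z
  have A₁ := zl S.x_pos hraw.z₁
  have A₂ := zl S.y_pos hraw.z₂
  obtain ⟨-, -, -, a4, a5, -, -⟩ := hARC s C₀ hs
  obtain ⟨Ln, hLn⟩ : ∃ t, t = Real.log n := ⟨_, rfl⟩
  obtain ⟨Lx, hLx⟩ : ∃ t, t = Real.log ((⌊(n : ℝ) ^ gam⌋₊ : ℕ) : ℝ) := ⟨_, rfl⟩
  obtain ⟨Ly, hLy⟩ : ∃ t, t = Real.log ((⌊(⌊(n : ℝ) ^ gam⌋₊ : ℝ) ^ gam⌋₊ : ℕ) : ℝ) := ⟨_, rfl⟩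
  have e1 := S.ln
  have e2 := S.x_lo
  have e3 := S.x_hi
  have e4 := S.y_lo
  have e5 := S.y_hi
  have f1 := A₁.v_lo
  have f2 := A₁.v_hi
  have f3 := A₁.Z_lo
  have f4 := A₁.h_hi
  have g1 := A₂.v_lo
  have g2 := A₂.v_hi
  have g3 := A₂.Z_lo
  have g4 := A₂.h_hi
  have hlog2 := Real.log_two_lt_d9
  rw [← hLn] at e1 e2 e3
  rw [← hLx] at e2 e3 e4 e5 f1 f2 f3 f4
  rw [← hLy] at e4 e5 g1 g2 g3 g4
  simp only [gam, cc, ep, c0] at e1 e2 e3 e4 e5 f1 f2 f3 f4 g1 g2 g3 g4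
  -- indices below n
  have hn1 := S.n_pos
  have hnR : (1 : ℝ) ≤ n := by exact_mod_cast hn1
  have hxn : ⌊(n : ℝ) ^ gam⌋₊ ≤ n := by
    have hxR : (0 : ℝ) < ((⌊(n : ℝ) ^ gam⌋₊ : ℕ) : ℝ) := by exact_mod_cast S.x_pos
    have : ((⌊(n : ℝ) ^ gam⌋₊ : ℕ) : ℝ) ≤ n := by
      apply le_of_log hxR (by linarith)
      rw [← hLx, ← hLn]
      nlinarith
    exact_mod_cast this
  have hyn : ⌊(⌊(n : ℝ) ^ gam⌋₊ : ℝ) ^ gam⌋₊ ≤ n := by
    have hyR : (0 : ℝ) < ((⌊(⌊(n : ℝ) ^ gam⌋₊ : ℝ) ^ gam⌋₊ : ℕ) : ℝ) := by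
      exact_mod_cast S.y_pos
    have : ((⌊(⌊(n : ℝ) ^ gam⌋₊ : ℝ) ^ gam⌋₊ : ℕ) : ℝ) ≤ n := by
      apply le_of_log hyR (by linarith)
      rw [← hLy, ← hLn]
      nlinarith
    exact_mod_cast this
  have v1n : v₁ ≤ n := A₁.vN.trans hxn
  have v2n : v₂ ≤ n := A₂.vN.trans hyn
  have c1 : c0 * Real.log n ≤ Real.log v₁ := by
    rw [← hLn]
    simp only [gam, cc, c0]
    nlinarith
  have c2 : c0 * Real.log n ≤ Real.log v₂ := by
    rw [← hLn]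
    simp only [gam, cc, c0]
    nlinarith
  obtain ⟨gp1, gl1⟩ := gap_lo hARC hs hn1 hraw.rng A₁.v_pos v1n c1
  obtain ⟨gp2, gl2⟩ := gap_lo hARC hs hn1 hraw.rng A₂.v_pos v2n c2
  obtain ⟨-, su2⟩ := rng hn1 hraw.rng A₂.v_pos v2n c2
  simp only [ep, cc] at gl1 gl2 su2
  have hZ1pos : (0 : ℝ) < Z₁ := by exact_mod_cast A₁.Z_pos
  have hv1pos : (0 : ℝ) < v₁ := by exact_mod_cast A₁.v_pos
  have hh1 := A₁.h_one
  have hh2 := A₂.h_one
  refine ⟨?_, ?_, ?_, ?_, ?_, ?_⟩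
  · have : (h₁ : ℝ) ≤ gp s v₁ := by
      apply le_of_log (by linarith) gp1
      nlinarith
    exact_mod_cast this
  · have : (h₂ : ℝ) ≤ gp s v₂ := by
      apply le_of_log (by linarith) gp2
      nlinarith
    exact_mod_cast this
  · have h6 : (m₀ : ℝ) ≤ Real.log v₁ := by nlinarith
    have h7 : Real.log v₁ ≤ v₁ := (Real.log_le_sub_one_of_pos hv1pos).trans (by linarith)
    exact_mod_cast h6.trans h7
  · rw [Nat.le_div_iff_mul_le (by norm_num)]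
    have h6 : 2 * (m₀ : ℝ) ≤ Real.log Z₁ := by nlinarith
    have h7 : Real.log Z₁ ≤ Z₁ := (Real.log_le_sub_one_of_pos hZ1pos).trans (by linarith)
    have h8 : (m₀ : ℝ) * 2 ≤ Z₁ := by linarith
    exact_mod_cast h8
  · have := A₁.Zv
    omega
  · have hs2pos : (0 : ℝ) < s v₂ := by
      have := a5 v₂
      have h2 : (v₂ : ℝ) ≤ s v₂ := by exact_mod_cast this
      have h3 : (1 : ℝ) ≤ v₂ := by exact_mod_cast A₂.v_pos
      linarith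
    have k16 : Real.log 16 ≤ 4 := by
      have : (16 : ℝ) = 2 ^ 4 := by norm_num
      rw [this, Real.log_pow]
      push_cast
      linarith
    have k32 : Real.log 32 ≤ 5 := by
      have : (32 : ℝ) = 2 ^ 5 := by norm_num
      rw [this, Real.log_pow]
      push_cast
      linarith
    have h10 : 16 * (s v₂ : ℝ) ≤ Z₁ := by
      apply le_of_log (by linarith) hZ1pos
      rw [Real.log_mul (by norm_num) hs2pos.ne']
      nlinarith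
    have h11 : 32 * (h₁ : ℝ) ≤ Z₁ := by
      apply le_of_log (by linarith) hZ1pos
      rw [Real.log_mul (by norm_num) (by linarith)]
      nlinarith
    have h12 : (32 : ℝ) ≤ Z₁ := by nlinarith
    have h13 : (Z₁ : ℝ) ≤ 2 * ((Z₁ / 2 : ℕ) : ℝ) + 1 := by
      have : Z₁ ≤ 2 * (Z₁ / 2) + 1 := by omega
      exact_mod_cast this
    have h14a : ∀ w : ℕ, (w : ℝ) ≤ s w := fun w => by exact_mod_cast a5 w
    have h14 : ((Z₁ / 2 : ℕ) : ℝ) ≤ s (Z₁ / 2) := h14a (Z₁ / 2)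
    have h15 : (s v₂ : ℝ) + 2 * h₁ < s (Z₁ / 2) := by linarith
    exact_mod_cast h15

end Pool.Agent.Work.MP_b29d7f_cvx
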