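import Pool.Agent.Work.MP_b29d7f_cvx.InterfaceC

/-! # Block ONE -/

namespace Pool.Agent.Work.MP_b29d7f_cvx

open Finset
open Pool.Agent.Work.MP_b29d7f_half (HalfDense)

theorem stmt_ONE (h1 : Stmt_RAWEX) (h2 : Stmt_DIV) (h3 : Stmt_HBD) (h4 : Stmt_NNG)
    (h5 : Stmt_NUME) (h6 : Stmt_EQU) (h7 : Stmt_LVL) (h8 : Stmt_INS) (h9 : Stmt_STR) :
    Stmt_ONE := by
  intro s C₀ hs hnd
  obtain ⟨m₂, hm₂⟩ := h2 s C₀ hs
  obtain ⟨H, m₃, hm₃⟩ := h3 s C₀ hs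
  obtain ⟨m₄, hm₄⟩ := h4 s C₀ hs
  obtain ⟨m₆, hm₆⟩ := h6 s C₀ hs
  refine ⟨H, fun n₀ => ?_⟩
  obtain ⟨m₅, hm₅⟩ := h5 s C₀ hs (n₀ + 1)
  obtain ⟨n, hn, v, Z, v₁, Z₁, v₂, Z₂, h, h₁, h₂, R⟩ :=
    h1 s C₀ hs hnd (m₂ + m₃ + m₄ + m₅ + m₆)
  have d := hm₂ n (by omega) v Z v₁ Z₁ v₂ Z₂ h h₁ h₂ R
  have b := hm₃ n (by omega) v Z v₁ Z₁ v₂ Z₂ h h₁ h₂ R
  have nn := hm₄ n (by omega) v Z v₁ Z₁ v₂ Z₂ h h₁ h₂ R
  obtain ⟨hg₁, hg₂, hv₁, hK, hKv, hlt⟩ := hm₅ n (by omega) v Z v₁ Z₁ v₂ Z₂ h h₁ h₂ R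
  obtain ⟨-, e2⟩ := hm₆ n (by omega) v Z v₁ Z₁ v₂ Z₂ h h₁ h₂ R
  have ho₁ := R.z₁.one_le
  have ho₂ := R.z₂.one_le
  obtain ⟨κ, X, b', x₀, hκ, hb1, hbh, hx0, hX, hT⟩ := h9 (s v₁) (gp s v₁) h₁ ho₁ hg₁ d
  have hlvl := h7 s C₀ hs v₁ Z₁ (Z₁ / 2) h₁ R.z₁.zone hKv (by omega)
  -- every value below `s K` is an element
  have hmem : ∀ x : ℤ, Tt κ X b' x < s (Z₁ / 2) → Tt κ X b' x ∈ Set.range s := by
    intro x hx
    have e : Tt κ X b' x = Fq (s v₁) (gp s v₁) h₁ (x - x₀) := by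
      rw [hT]; congr 1; ring
    have hl := hlvl (x - x₀)
    have hn' := nn (x - x₀)
    unfold Fz at hl hn'
    rw [← e] at hl hn'
    obtain ⟨i, -, hi⟩ := h8 s C₀ hs (Z₁ / 2) _ hl hn' hx
    exact ⟨i, hi⟩
  have hT0 : Tt κ X b' 0 = X := by
    unfold Tt; split_ifs <;> simp
  have hT1 : Tt κ X b' 1 = X + b' := by
    unfold Tt; split_ifs <;> norm_num
  have hXnn : 0 ≤ X := by
    have := nn (0 - x₀)
    unfold Fz at this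
    rw [hT] at this
    rw [show x₀ + (0 - x₀) = 0 by ring, hT0] at this
    exact this
  have hXle : X + b' < s (Z₁ / 2) := by
    have q2 : Ev (s v₂) (gp s v₂) h₂ ≤ 8 * h₂ * s v₂ := by
      have : Ev (s v₂) (gp s v₂) h₂ = 8 * h₂ * s v₂ - (2 * gp s v₂ - h₂) ^ 2 := rfl
      rw [this]; have := sq_nonneg (2 * gp s v₂ - h₂); linarith
    have q3 : Ev (s v₁) (gp s v₁) h₁ ≤ 8 * h₁ * s v₂ := by
      have : h₂ * Ev (s v₁) (gp s v₁) h₁ ≤ h₂ * (8 * h₁ * s v₂) := by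
        rw [e2]
        calc h₁ * Ev (s v₂) (gp s v₂) h₂ ≤ h₁ * (8 * h₂ * s v₂) :=
              mul_le_mul_of_nonneg_left q2 (by linarith)
          _ = _ := by ring
      exact le_of_mul_le_mul_left this (by linarith)
    have q4 : 8 * X ≤ 8 * s v₂ + h₁ := by
      have : h₁ * (8 * X) ≤ h₁ * (8 * s v₂ + h₁) := by nlinarith
      exact le_of_mul_le_mul_left this (by linarith)
    linarith
  refine ⟨κ, X, b', x₀, v₁, Z₁ / 2, by omega, by omega, hκ, hb1, hbh.trans b, hXnn, ?_, ?_, hx0,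
    hmem, ?_, ?_⟩
  · have := hmem 0 (by rw [hT0]; linarith)
    rwa [hT0] at this
  · have := hmem 1 (by rw [hT1]; linarith)
    rwa [hT1] at this
  · have := hT 0
    rw [add_zero] at this
    rw [← this]; simp [Fq]
  · have h0 := hT 1
    rw [← h0]
    have hz := R.z₁.zone 1 (by omega)
    simpa using hz

end Pool.Agent.Work.MP_b29d7f_cvx
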