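import Pool.Agent.Work.MP_b29d7f_cvx.Interface

/-!
# Block PAD: the `p`-adic facts in index form
-/

namespace Pool.Agent.Work.MP_b29d7f_cvx

open Finset
open Pool.Agent.Work.MP_b29d7f_nt (IsPOrdering HasSimultaneousOrdering PS vd ld tv)
open Pool.Agent.Work.MP_b29d7f_half (Ord A wv lD HalfDense mem_A sum_A card_A)
open Pool.Agent.Work.MP_b29d7f_sep (nv EW EL stmt_PADIC wv_eq_nv)

theorem PAD_vd_eq_vl (p : ℕ) (s : ℕ → ℤ) (i j : ℕ) : vd p (s i) (s j) = (vl p s i j : ℝ) := by
  unfold vd vl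
  rfl

theorem stmt_PAD : Stmt_PAD := by
  classical
  intro s C₀ hs p hp
  have hinj : Function.Injective s := hs.injective
  obtain ⟨hF1, hF2, hmono⟩ := stmt_PADIC (Set.range s) s hs.ord p hp
  have h0 : nv p s 0 = 0 := by simp [nv]
  have F1 : ∀ k j : ℕ, k ≤ j → nv p s k ≤ ∑ i ∈ range k, vl p s j i := by
    intro k j hkj
    have hn : s j ∉ A s k := by
      intro h
      obtain ⟨i, hi, h⟩ := mem_A.mp h
      have := hinj h
      omega
    have h1 := hF1 k (s j) ⟨j, rfl⟩ hn
    rw [sum_A _ hinj, wv_eq_nv] at h1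
    have h2 : ∑ i ∈ range k, vd p (s j) (s i) = ((∑ i ∈ range k, vl p s j i : ℕ) : ℝ) := by
      push_cast
      exact Finset.sum_congr rfl (fun i _ => PAD_vd_eq_vl p s j i)
    rw [h2] at h1
    exact_mod_cast h1
  refine ⟨hmono, h0, F1, ?_⟩
  intro u v h huh hhv
  have hz : s h ∈ A s (v + 1) := mem_A.mpr ⟨h, by omega, rfl⟩
  have h1 := hF2 v (s h) hz
  have h2 : ∑ y ∈ (A s (v + 1)).erase (s h), vd p (s h) y =
      ((∑ l ∈ (range (v + 1)).erase h, vl p s h l : ℕ) : ℝ) := by
    have e1 : (A s (v + 1)).erase (s h) = ((range (v + 1)).erase h).image s := by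
      unfold A
      rw [Finset.image_erase hinj]
    rw [e1, Finset.sum_image (fun a _ b _ hab => hinj hab)]
    push_cast
    exact Finset.sum_congr rfl (fun i _ => PAD_vd_eq_vl p s h i)
  rw [h2, wv_eq_nv] at h1
  have h3 : ∑ l ∈ (range (v + 1)).erase h, vl p s h l ≤ nv p s v := by exact_mod_cast h1
  have h4 : (range (v + 1)).erase h = range u ∪ (Icc u v).erase h := by
    ext l
    simp only [mem_erase, mem_range, mem_union, mem_Icc]
    omega
  have h5 : Disjoint (range u) ((Icc u v).erase h) := by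
    rw [Finset.disjoint_left]
    intro l hl hl'
    simp only [mem_erase, mem_range, mem_Icc] at hl hl'
    omega
  rw [h4, Finset.sum_union h5] at h3
  have h6 := F1 u h huh
  omega

end Pool.Agent.Work.MP_b29d7f_cvx
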