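import Pool.Agent.Work.MP_b29d7f_cvx.Interface2

/-!
# Convex sets with a simultaneous ordering, block PICK: existence of a good window
-/

namespace Pool.Agent.Work.MP_b29d7f_cvx

open Finset
open scoped Classical
open Pool.Agent.Work.MP_b29d7f_nt (IsPOrdering HasSimultaneousOrdering PS vd ld tv)
open Pool.Agent.Work.MP_b29d7f_half (Ord A wv lD HalfDense)
open Pool.Agent.Work.MP_b29d7f_sep (nv EW EL)

theorem PICK_avg (I G : Finset ℕ) (l : ℕ) (h : ℕ → ℝ) (hnn : ∀ g, 0 ≤ h g)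
    (hsub : ∀ a ∈ I, Ico a (a + l) ⊆ G) (t S : ℝ) (hS : ∑ g ∈ G, h g ≤ S) :
    t * ((I.filter fun a => t < ∑ g ∈ Ico a (a + l), h g).card : ℝ) ≤ l * S := by
  have h1 : ∑ a ∈ I, ∑ g ∈ Ico a (a + l), h g ≤ l * S := by
    calc ∑ a ∈ I, ∑ g ∈ Ico a (a + l), h g
        = ∑ a ∈ I, ∑ g ∈ G, if g ∈ Ico a (a + l) then h g else 0 := by
          refine sum_congr rfl fun a ha => ?_
          rw [← sum_filter]
          refine sum_congr ?_ fun _ _ => rfl
          ext g
          rw [mem_filter]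
          exact ⟨fun hg => ⟨hsub a ha hg, hg⟩, fun hg => hg.2⟩
      _ = ∑ g ∈ G, ∑ a ∈ I, if g ∈ Ico a (a + l) then h g else 0 := sum_comm
      _ ≤ ∑ g ∈ G, l * h g := by
          refine sum_le_sum fun g _ => ?_
          rw [← sum_filter, sum_const, nsmul_eq_mul]
          refine mul_le_mul_of_nonneg_right ?_ (hnn g)
          have : (I.filter fun a => g ∈ Ico a (a + l)) ⊆ Ico (g + 1 - l) (g + 1) := by
            intro a ha
            rw [mem_filter, mem_Ico] at ha
            rw [mem_Ico]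
            omega
          have h2 := card_le_card this
          rw [Nat.card_Ico] at h2
          exact_mod_cast (by omega : (I.filter fun a => g ∈ Ico a (a + l)).card ≤ l)
      _ = l * ∑ g ∈ G, h g := by rw [mul_sum]
      _ ≤ l * S := mul_le_mul_of_nonneg_left hS (Nat.cast_nonneg l)
  refine le_trans ?_ h1
  calc t * ((I.filter fun a => t < ∑ g ∈ Ico a (a + l), h g).card : ℝ)
      = ∑ _a ∈ I.filter (fun a => t < ∑ g ∈ Ico a (a + l), h g), t := by
        rw [sum_const, nsmul_eq_mul, mul_comm]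
    _ ≤ ∑ a ∈ I.filter (fun a => t < ∑ g ∈ Ico a (a + l), h g), ∑ g ∈ Ico a (a + l), h g :=
        sum_le_sum fun a ha => (mem_filter.1 ha).2.le
    _ ≤ _ := sum_le_sum_of_subset_of_nonneg (filter_subset _ _)
        fun a _ _ => sum_nonneg fun g _ => hnn g

theorem PICK_nv_sum (p : ℕ) (s : ℕ → ℤ) (hm : Monotone (nv p s)) (a l : ℕ) :
    ∑ g ∈ Ico a (a + l), (om p s g : ℝ) = (nv p s (a + l) : ℝ) - nv p s a := by
  induction l with
  | zero => simp
  | succ l ih =>
    rw [← add_assoc, sum_Ico_succ_top (Nat.le_add_right a l), ih, om,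
      Nat.cast_sub (hm (Nat.le_succ _))]
    ring

theorem stmt_PICK (h1 : Stmt_PAD) (h2 : Stmt_EXN) (h3 : Stmt_NTY) : Stmt_PICK := by
  intro s C₀ N M P m J x H zd hx1 hx2
  have hmb : (10 : ℝ) ^ 20 ≤ m := by exact_mod_cast zd.m_big
  have hmN : (10 : ℝ) ^ 10 * m ≤ N := by exact_mod_cast zd.m_N
  have hx1' : (128 : ℝ) * x ≤ m := by exact_mod_cast hx1
  have hx2' : (m : ℝ) < 128 * x + 128 := by exact_mod_cast hx2
  have hmb' := zd.m_big
  have hmN' := zd.m_N
  have hxb : (10 : ℝ) ^ 17 ≤ x := by nlinarith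
  have hN0 : (0 : ℝ) < N := by nlinarith
  have hlog := zd.log_N
  set I := Icc ((N + 1) / 2) (N - 4 * m) with hI
  set G := Ico ((N + 1) / 2) (N - 3 * m) with hG
  have hIm : ∀ a ∈ I, N ≤ 2 * a ∧ a + 4 * m ≤ N := by
    intro a ha
    rw [hI, mem_Icc] at ha
    omega
  have hsub : ∀ a ∈ I, Ico a (a + 32 * x) ⊆ G := by
    intro a ha g hg
    have := hIm a ha
    rw [mem_Ico] at hg
    rw [hG, mem_Ico]
    omega
  have hsub' : ∀ a ∈ I, Ico a (a + 32 * x) ⊆ range N := by
    intro a ha g hg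
    have := hIm a ha
    rw [mem_Ico] at hg
    rw [mem_range]
    omega
  have hIcard : (49 / 100 : ℝ) * N ≤ I.card := by
    rw [hI, Nat.card_Icc]
    have : N ≤ 2 * (N - 4 * m + 1 - (N + 1) / 2) + 8 * m := by omega
    have h' : (N : ℝ) ≤ 2 * ((N - 4 * m + 1 - (N + 1) / 2 : ℕ) : ℝ) + 8 * m := by
      exact_mod_cast this
    nlinarith
  -- flatness
  have hB1 : ((I.filter fun a => ¬ Flat s H m a).card : ℝ) ≤ 1 / 10 ^ 3 * N := by
    refine le_trans ?_ zd.flat_most
    unfold NF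
    refine Nat.cast_le.2 (card_le_card ?_)
    intro a ha
    rw [mem_filter] at ha ⊢
    refine ⟨?_, ha.2⟩
    have := hIm a ha.1
    rw [mem_range]
    omega
  -- exceptional pairs
  set E : Finset (ℕ × ℕ) := (G ×ˢ range (N + 1)).filter fun z => z.1 < z.2 ∧
    z.2 ≤ z.1 + 32 * x ∧ ¬ Rel s z.1 z.2 with hE
  have hEc : (E.card : ℝ) ≤ 1 / 10 ^ 7 * m * N := by
    refine h2 s C₀ N M P m J x H zd hx1 hx2 E ?_
    intro z hz
    rw [hE, mem_filter, mem_product, hG, mem_Ico] at hz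
    exact ⟨by omega, hz.1.1.2, hz.2⟩
  have hB2 := PICK_avg I G (32 * x) (fun g => ((E.filter fun z => z.1 = g).card : ℝ))
    (fun g => Nat.cast_nonneg _) hsub (1 / 100 * (x : ℝ) ^ 2) (1 / 10 ^ 7 * m * N) (by
      refine le_trans (le_of_eq ?_) hEc
      rw [card_eq_sum_card_fiberwise (s := E) (t := G) (f := fun z => z.1) (fun z hz => by
        have hz' : z ∈ E := hz
        rw [hE, mem_filter, mem_product] at hz'
        exact hz'.1.1)]
      push_cast
      rfl)
  -- type (a) and caught primes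
  have hprA : ∀ p ∈ PA s N P, p.Prime := fun p hp =>
    Nat.prime_of_mem_primeFactors (mem_PA.1 hp).1
  have hprC : ∀ p ∈ PC s N M P, p.Prime := fun p hp =>
    Nat.prime_of_mem_primeFactors (mem_PC.1 hp).1
  have hlogp : ∀ p : ℕ, 0 ≤ Real.log p := fun p => Real.log_natCast_nonneg p
  have hB3 := PICK_avg I (range N) (32 * x) (fun g => ∑ p ∈ PA s N P, Real.log p * om p s g +
      ∑ p ∈ PC s N M P, Real.log p * om p s g)
    (fun g => add_nonneg (sum_nonneg fun p _ => mul_nonneg (hlogp p) (Nat.cast_nonneg _))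
      (sum_nonneg fun p _ => mul_nonneg (hlogp p) (Nat.cast_nonneg _))) hsub'
    (1 / 10 ^ 15 * x * Real.log N) (1 / 10 ^ 20 * N * Real.log N) (by
      refine le_trans (le_of_eq ?_) zd.na
      unfold NA
      rw [sum_add_distrib]
      congr 1
      · rw [sum_comm]
        refine sum_congr rfl fun p hp => ?_
        obtain ⟨hm, h0, -⟩ := h1 s C₀ zd.cvx p (hprA p hp)
        have := PICK_nv_sum p s hm 0 N
        rw [zero_add, h0, Nat.cast_zero, sub_zero, ← range_eq_Ico] at this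
        rw [← mul_sum, this]
      · rw [sum_comm]
        refine sum_congr rfl fun p hp => ?_
        obtain ⟨hm, h0, -⟩ := h1 s C₀ zd.cvx p (hprC p hp)
        have := PICK_nv_sum p s hm 0 N
        rw [zero_add, h0, Nat.cast_zero, sub_zero, ← range_eq_Ico] at this
        rw [← mul_sum, this])
  -- places which are not typical
  have hB4 := PICK_avg I G (32 * x) (fun g => ∑ p ∈ PG s N M P,
      Real.log p * (if ¬ Typ p s x g then (om p s g : ℝ) else 0))
    (fun g => sum_nonneg fun p _ => mul_nonneg (hlogp p) (by split_ifs <;> positivity)) hsub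
    (1 / 10 ^ 3 * x * Real.log N) (2 / 10 ^ 7 * N * Real.log N) (by
      refine le_trans (le_of_eq ?_) (h3 s C₀ N M P m J x H zd hx1 hx2
        (fun p => G.filter fun g => ¬ Typ p s x g) ?_)
      · rw [sum_comm]
        refine sum_congr rfl fun p _ => ?_
        rw [← mul_sum, sum_filter]
      · intro p _ g hg
        rw [mem_filter, hG, mem_Ico] at hg
        exact ⟨by omega, hg.1.2, hg.2⟩)
  set B1 := I.filter fun a => ¬ Flat s H m a
  set B2 := I.filter fun a => 1 / 100 * (x : ℝ) ^ 2 <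
    ∑ g ∈ Ico a (a + 32 * x), ((E.filter fun z => z.1 = g).card : ℝ)
  set B3 := I.filter fun a => 1 / 10 ^ 15 * x * Real.log N <
    ∑ g ∈ Ico a (a + 32 * x), (∑ p ∈ PA s N P, Real.log p * om p s g +
      ∑ p ∈ PC s N M P, Real.log p * om p s g)
  set B4 := I.filter fun a => 1 / 10 ^ 3 * x * Real.log N <
    ∑ g ∈ Ico a (a + 32 * x), ∑ p ∈ PG s N M P,
      Real.log p * (if ¬ Typ p s x g then (om p s g : ℝ) else 0)
  have hx0 : (0 : ℝ) < x := by linarith
  have c2 : (B2.card : ℝ) ≤ 1 / 20 * N := by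
    have hm' : (m : ℝ) ≤ 129 * x := by linarith
    have e : 1 / 100 * (x : ℝ) ^ 2 * B2.card ≤ 1 / 100 * (x : ℝ) ^ 2 * (1 / 20 * N) := by
      refine hB2.trans ?_
      push_cast
      have : 32 * (x : ℝ) * (1 / 10 ^ 7 * m * N) ≤ 32 * (x : ℝ) * (1 / 10 ^ 7 * (129 * x) * N) := by
        gcongr
      refine this.trans ?_
      have hp : 0 ≤ (x : ℝ) ^ 2 * N := by positivity
      nlinarith
    exact le_of_mul_le_mul_left e (by positivity)
  have c3 : (B3.card : ℝ) ≤ 1 / 1000 * N := by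
    have e : 1 / 10 ^ 15 * x * Real.log N * B3.card ≤
        1 / 10 ^ 15 * x * Real.log N * (1 / 1000 * N) := by
      refine hB3.trans ?_
      push_cast
      have hp : 0 ≤ (x : ℝ) * (N * Real.log N) := by positivity
      nlinarith
    exact le_of_mul_le_mul_left e (by positivity)
  have c4 : (B4.card : ℝ) ≤ 1 / 100 * N := by
    have e : 1 / 10 ^ 3 * x * Real.log N * B4.card ≤
        1 / 10 ^ 3 * x * Real.log N * (1 / 100 * N) := by
      refine hB4.trans ?_
      push_cast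
      have hp : 0 ≤ (x : ℝ) * (N * Real.log N) := by positivity
      nlinarith
    exact le_of_mul_le_mul_left e (by positivity)
  have hlt : (B1 ∪ B2 ∪ B3 ∪ B4).card < I.card := by
    have u1 := card_union_le (B1 ∪ B2 ∪ B3) B4
    have u2 := card_union_le (B1 ∪ B2) B3
    have u3 := card_union_le B1 B2
    have u : (B1 ∪ B2 ∪ B3 ∪ B4).card ≤ B1.card + B2.card + B3.card + B4.card := by omega
    have u' : ((B1 ∪ B2 ∪ B3 ∪ B4).card : ℝ) ≤ B1.card + B2.card + B3.card + B4.card := by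
      exact_mod_cast u
    have : ((B1 ∪ B2 ∪ B3 ∪ B4).card : ℝ) < I.card := by nlinarith
    exact_mod_cast this
  obtain ⟨a, haI, haB⟩ := exists_mem_notMem_of_card_lt_card hlt
  rw [mem_union, mem_union, mem_union] at haB
  push Not at haB
  obtain ⟨⟨⟨n1, n2⟩, n3⟩, n4⟩ := haB
  have g1 : Flat s H m a := by
    by_contra hc
    exact n1 (mem_filter.2 ⟨haI, hc⟩)
  have g2 : ∑ g ∈ Ico a (a + 32 * x), ((E.filter fun z => z.1 = g).card : ℝ) ≤
      1 / 100 * (x : ℝ) ^ 2 := by
    by_contra hc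
    exact n2 (mem_filter.2 ⟨haI, not_le.1 hc⟩)
  have g3 : ∑ g ∈ Ico a (a + 32 * x), (∑ p ∈ PA s N P, Real.log p * om p s g +
      ∑ p ∈ PC s N M P, Real.log p * om p s g) ≤ 1 / 10 ^ 15 * x * Real.log N := by
    by_contra hc
    exact n3 (mem_filter.2 ⟨haI, not_le.1 hc⟩)
  have g4 : ∑ g ∈ Ico a (a + 32 * x), ∑ p ∈ PG s N M P,
      Real.log p * (if ¬ Typ p s x g then (om p s g : ℝ) else 0) ≤
      1 / 10 ^ 3 * x * Real.log N := by
    by_contra hc
    exact n4 (mem_filter.2 ⟨haI, not_le.1 hc⟩)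
  obtain ⟨hal, hah⟩ := hIm a haI
  refine ⟨a, ⟨zd, hx1, hx2, hal, hah, g1, ?_, ?_, ?_⟩⟩
  · intro X hX
    refine le_trans ?_ g2
    have hXE : ∀ z ∈ X, z ∈ E ∧ z.1 ∈ Ico a (a + 32 * x) := by
      intro z hz
      obtain ⟨q1, q2, q3, q4⟩ := hX z hz
      have hz1 : z.1 ∈ Ico a (a + 32 * x) := mem_Ico.2 ⟨q1, by omega⟩
      refine ⟨?_, hz1⟩
      rw [hE, mem_filter, mem_product]
      refine ⟨⟨hsub a haI hz1, ?_⟩, q2, by omega, q4⟩
      rw [mem_range]
      omega
    rw [card_eq_sum_card_fiberwise (s := X) (t := Ico a (a + 32 * x)) (f := fun z => z.1)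
      (fun z hz => (hXE z hz).2)]
    push_cast
    refine sum_le_sum fun g _ => Nat.cast_le.2 (card_le_card ?_)
    intro z hz
    rw [mem_filter] at hz ⊢
    exact ⟨(hXE z hz.1).1, hz.2⟩
  · refine le_trans (le_of_eq ?_) g3
    rw [sum_add_distrib]
    congr 1
    · rw [sum_comm]
      refine sum_congr rfl fun p hp => ?_
      rw [← mul_sum, PICK_nv_sum p s (h1 s C₀ zd.cvx p (hprA p hp)).1]
    · rw [sum_comm]
      refine sum_congr rfl fun p hp => ?_
      rw [← mul_sum, PICK_nv_sum p s (h1 s C₀ zd.cvx p (hprC p hp)).1]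
  · intro R hR
    refine le_trans ?_ g4
    rw [sum_comm]
    refine sum_le_sum fun p hp => ?_
    rw [← mul_sum]
    refine mul_le_mul_of_nonneg_left ?_ (hlogp p)
    rw [← sum_filter]
    refine sum_le_sum_of_subset_of_nonneg ?_ fun g _ _ => Nat.cast_nonneg _
    intro g hg
    obtain ⟨q1, q2, q3⟩ := hR p hp g hg
    exact mem_filter.2 ⟨mem_Ico.2 ⟨q1, q2⟩, q3⟩

end Pool.Agent.Work.MP_b29d7f_cvx
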