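import Pool.Agent.Work.MP_b29d7f_cvx.Interface

/-!
# Block PIG: a window length with few pairs of places
-/

namespace Pool.Agent.Work.MP_b29d7f_cvx

open Finset
open Pool.Agent.Work.MP_b29d7f_half (Ord A wv lD HalfDense)
open Pool.Agent.Work.MP_b29d7f_sep (nv EW EL)

theorem PIG_tel (d : ℕ) (hd : 1 ≤ d) (k : ℕ) :
    ∑ m ∈ range (d + 1 + k), (1 / (m : ℝ) ^ 3) * ((d : ℝ) * ((m - d : ℕ) : ℝ)) ≤
      1 - (d : ℝ) / ((d : ℝ) + k) := by
  have hd0 : (0 : ℝ) < d := by exact_mod_cast hd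
  induction k with
  | zero =>
    have h0 : ∑ m ∈ range (d + 1 + 0), (1 / (m : ℝ) ^ 3) * ((d : ℝ) * ((m - d : ℕ) : ℝ)) = 0 := by
      apply Finset.sum_eq_zero
      intro m hm
      have hm' : m - d = 0 := by
        have := mem_range.1 hm
        omega
      rw [hm']
      simp
    rw [h0]
    have : (d : ℝ) / ((d : ℝ) + ((0 : ℕ) : ℝ)) = 1 := by
      rw [Nat.cast_zero, add_zero]
      exact div_self hd0.ne'
    rw [this]
    simp
  | succ k ih =>
    rw [show d + 1 + (k + 1) = (d + 1 + k) + 1 from by ring, Finset.sum_range_succ]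
    have hk0 : (0 : ℝ) ≤ k := Nat.cast_nonneg k
    have hsub : (d + 1 + k - d : ℕ) = k + 1 := by omega
    have hterm : (1 / (((d + 1 + k : ℕ) : ℝ)) ^ 3) * ((d : ℝ) * ((d + 1 + k - d : ℕ) : ℝ)) ≤
        (d : ℝ) / ((d : ℝ) + k) - (d : ℝ) / ((d : ℝ) + ((k + 1 : ℕ) : ℝ)) := by
      rw [hsub]
      push_cast
      have h1 : (0 : ℝ) < (d : ℝ) + k := by positivity
      have h2 : (0 : ℝ) < (d : ℝ) + (k + 1) := by positivity
      have h3 : (0 : ℝ) < (d : ℝ) + 1 + k := by positivity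
      rw [div_sub_div _ _ h1.ne' h2.ne', one_div, inv_mul_eq_div, div_le_div_iff₀ (by positivity)
        (by positivity)]
      have e1 : (d : ℝ) * ((d : ℝ) + (k + 1)) - ((d : ℝ) + k) * d = d := by ring
      rw [e1]
      have e2 : ((d : ℝ) + 1 + k) ^ 3 =
        ((d : ℝ) + 1 + k) * (((d : ℝ) + (k + 1)) * ((d : ℝ) + 1 + k)) := by ring
      have h4 : ((k : ℝ) + 1) * (((d : ℝ) + k) * ((d : ℝ) + (k + 1))) ≤ ((d : ℝ) + 1 + k) ^ 3 := by
        rw [e2]
        apply mul_le_mul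
        · linarith
        · rw [mul_comm]
          apply mul_le_mul_of_nonneg_left _ h2.le
          linarith
        · positivity
        · positivity
      calc (d : ℝ) * ((k : ℝ) + 1) * (((d : ℝ) + k) * ((d : ℝ) + (k + 1)))
          = (d : ℝ) * (((k : ℝ) + 1) * (((d : ℝ) + k) * ((d : ℝ) + (k + 1)))) := by ring
        _ ≤ (d : ℝ) * ((d : ℝ) + 1 + k) ^ 3 := mul_le_mul_of_nonneg_left h4 hd0.le
    linarith

theorem PIG_le_one (d : ℕ) (hd : 1 ≤ d) (M₁ M : ℕ) :
    ∑ m ∈ Ico M₁ M, (1 / (m : ℝ) ^ 3) * ((d : ℝ) * ((m - d : ℕ) : ℝ)) ≤ 1 := by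
  have h1 : ∑ m ∈ Ico M₁ M, (1 / (m : ℝ) ^ 3) * ((d : ℝ) * ((m - d : ℕ) : ℝ)) ≤
      ∑ m ∈ range (d + 1 + M), (1 / (m : ℝ) ^ 3) * ((d : ℝ) * ((m - d : ℕ) : ℝ)) := by
    apply Finset.sum_le_sum_of_subset_of_nonneg
    · intro m hm
      have := mem_Ico.1 hm
      exact mem_range.2 (by omega)
    · intros
      positivity
  have h2 := PIG_tel d hd M
  have h3 : (0 : ℝ) ≤ (d : ℝ) / ((d : ℝ) + M) := by positivity
  linarith

theorem PIG_count (N m g g' : ℕ) (hg : g < g') :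
    ∑ u ∈ range (N - m + 1), (if u ≤ g ∧ g' < u + m then (1 : ℝ) else 0) ≤
      ((m - (g' - g) : ℕ) : ℝ) := by
  rw [← Finset.sum_filter, Finset.sum_const, nsmul_eq_mul, mul_one]
  have h1 : ((range (N - m + 1)).filter fun u => u ≤ g ∧ g' < u + m) ⊆ Ico (g' + 1 - m) (g + 1) := by
    intro u hu
    have := (mem_filter.1 hu).2
    exact mem_Ico.2 (by omega)
  have h2 := Finset.card_le_card h1
  rw [Nat.card_Ico] at h2
  exact_mod_cast (by omega : ((range (N - m + 1)).filter fun u => u ≤ g ∧ g' < u + m).card ≤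
    m - (g' - g))

theorem PIG_swap (F : ℕ → ℕ → ℝ) (N M m : ℕ) (hm : m ≤ M) (hMN : m ≤ N)
    (hF : ∀ g g', g < g' → 0 ≤ F g g') :
    ∑ u ∈ range (N - m + 1), ∑ g ∈ Ico u (u + m), ∑ g' ∈ Ico (g + 1) (u + m), F g g' ≤
      ∑ g ∈ range N, ∑ g' ∈ Ico (g + 1) (min (g + M) N), F g g' * ((m - (g' - g) : ℕ) : ℝ) := by
  have h1 : ∀ u ∈ range (N - m + 1),
      ∑ g ∈ Ico u (u + m), ∑ g' ∈ Ico (g + 1) (u + m), F g g' ≤
      ∑ g ∈ range N, ∑ g' ∈ Ico (g + 1) (min (g + M) N),
        F g g' * (if u ≤ g ∧ g' < u + m then (1 : ℝ) else 0) := by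
    intro u hu
    have hu' := mem_range.1 hu
    have hnn : ∀ g ∈ range N, 0 ≤ ∑ g' ∈ Ico (g + 1) (min (g + M) N),
        F g g' * (if u ≤ g ∧ g' < u + m then (1 : ℝ) else 0) := by
      intro g _
      apply Finset.sum_nonneg
      intro g' hg'
      have := mem_Ico.1 hg'
      apply mul_nonneg (hF g g' (by omega))
      split_ifs <;> norm_num
    calc ∑ g ∈ Ico u (u + m), ∑ g' ∈ Ico (g + 1) (u + m), F g g'
        ≤ ∑ g ∈ Ico u (u + m), ∑ g' ∈ Ico (g + 1) (min (g + M) N),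
        F g g' * (if u ≤ g ∧ g' < u + m then (1 : ℝ) else 0) := by
          apply Finset.sum_le_sum
          intro g hg
          have hg' := mem_Ico.1 hg
          have h2 : ∑ g' ∈ Ico (g + 1) (u + m), F g g' =
              ∑ g' ∈ Ico (g + 1) (u + m),
                F g g' * (if u ≤ g ∧ g' < u + m then (1 : ℝ) else 0) := by
            apply Finset.sum_congr rfl
            intro g' hg''
            have := mem_Ico.1 hg''
            rw [if_pos ⟨by omega, by omega⟩, mul_one]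
          rw [h2]
          apply Finset.sum_le_sum_of_subset_of_nonneg
          · intro g' hg''
            have := mem_Ico.1 hg''
            exact mem_Ico.2 ⟨this.1, by omega⟩
          · intro g' hg'' _
            have := mem_Ico.1 hg''
            apply mul_nonneg (hF g g' (by omega))
            split_ifs <;> norm_num
      _ ≤ _ := by
          apply Finset.sum_le_sum_of_subset_of_nonneg
          · intro g hg
            have := mem_Ico.1 hg
            exact mem_range.2 (by omega)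
          · intro g hg _
            exact hnn g hg
  refine le_trans (Finset.sum_le_sum h1) ?_
  rw [Finset.sum_comm]
  apply Finset.sum_le_sum
  intro g _
  rw [Finset.sum_comm]
  apply Finset.sum_le_sum
  intro g' hg'
  have h3 := mem_Ico.1 hg'
  rw [← Finset.mul_sum]
  exact mul_le_mul_of_nonneg_left (PIG_count N m g g' (by omega)) (hF g g' (by omega))

theorem PIG_core (o : ℕ → ℝ) (ho : ∀ g, 0 ≤ o g) (N M₁ M : ℕ) (J : ℝ)
    (hMN : M ≤ N)
    (hJ : ∀ g < N, ∑ g' ∈ Ico (g + 1) (min (g + M) N), o g' ≤ J) :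
    ∑ m ∈ Ico M₁ M, (1 / (m : ℝ) ^ 3) * ∑ u ∈ range (N - m + 1), ∑ g ∈ Ico u (u + m),
      ∑ g' ∈ Ico (g + 1) (u + m), o g * o g' * ((g' : ℝ) - g) ≤ J * ∑ g ∈ range N, o g := by
  have h1 : ∀ m ∈ Ico M₁ M, (1 / (m : ℝ) ^ 3) * ∑ u ∈ range (N - m + 1), ∑ g ∈ Ico u (u + m),
      ∑ g' ∈ Ico (g + 1) (u + m), o g * o g' * ((g' : ℝ) - g) ≤
      (1 / (m : ℝ) ^ 3) * ∑ g ∈ range N, ∑ g' ∈ Ico (g + 1) (min (g + M) N),
        (o g * o g' * ((g' : ℝ) - g)) * ((m - (g' - g) : ℕ) : ℝ) := by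
    intro m hm
    have hm' := mem_Ico.1 hm
    apply mul_le_mul_of_nonneg_left _ (by positivity)
    apply PIG_swap (fun g g' => o g * o g' * ((g' : ℝ) - g)) N M m (by omega) (by omega)
    intro g g' hg
    have : (g : ℝ) ≤ g' := by exact_mod_cast hg.le
    exact mul_nonneg (mul_nonneg (ho g) (ho g')) (by linarith)
  refine le_trans (Finset.sum_le_sum h1) ?_
  have h2 : ∑ m ∈ Ico M₁ M, (1 / (m : ℝ) ^ 3) * ∑ g ∈ range N, ∑ g' ∈ Ico (g + 1) (min (g + M) N),
        (o g * o g' * ((g' : ℝ) - g)) * ((m - (g' - g) : ℕ) : ℝ) =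
      ∑ g ∈ range N, ∑ g' ∈ Ico (g + 1) (min (g + M) N), (o g * o g') *
        ∑ m ∈ Ico M₁ M, (1 / (m : ℝ) ^ 3) * (((g' - g : ℕ) : ℝ) * ((m - (g' - g) : ℕ) : ℝ)) := by
    calc _ = ∑ m ∈ Ico M₁ M, ∑ g ∈ range N, ∑ g' ∈ Ico (g + 1) (min (g + M) N), (o g * o g') *
        ((1 / (m : ℝ) ^ 3) * (((g' - g : ℕ) : ℝ) * ((m - (g' - g) : ℕ) : ℝ))) := by
          apply Finset.sum_congr rfl
          intro m _
          rw [Finset.mul_sum]
          apply Finset.sum_congr rfl
          intro g _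
          rw [Finset.mul_sum]
          apply Finset.sum_congr rfl
          intro g' hg'
          have := mem_Ico.1 hg'
          have e : ((g' - g : ℕ) : ℝ) = (g' : ℝ) - g := by
            rw [Nat.cast_sub (by omega)]
          rw [e]
          ring
      _ = _ := by
          rw [Finset.sum_comm]
          apply Finset.sum_congr rfl
          intro g _
          rw [Finset.sum_comm]
          apply Finset.sum_congr rfl
          intro g' _
          rw [Finset.mul_sum]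
  rw [h2, Finset.mul_sum]
  apply Finset.sum_le_sum
  intro g hg
  have hgN := mem_range.1 hg
  calc ∑ g' ∈ Ico (g + 1) (min (g + M) N), (o g * o g') *
        ∑ m ∈ Ico M₁ M, (1 / (m : ℝ) ^ 3) * (((g' - g : ℕ) : ℝ) * ((m - (g' - g) : ℕ) : ℝ))
      ≤ ∑ g' ∈ Ico (g + 1) (min (g + M) N), (o g * o g') * 1 := by
        apply Finset.sum_le_sum
        intro g' hg'
        have := mem_Ico.1 hg'
        exact mul_le_mul_of_nonneg_left (PIG_le_one (g' - g) (by omega) M₁ M)
          (mul_nonneg (ho g) (ho g'))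
    _ = o g * ∑ g' ∈ Ico (g + 1) (min (g + M) N), o g' := by
        rw [Finset.mul_sum]
        apply Finset.sum_congr rfl
        intro g' _
        ring
    _ ≤ o g * J := mul_le_mul_of_nonneg_left (hJ g hgN) (ho g)
    _ = J * o g := by ring

theorem PIG_om_sum {p : ℕ} {s : ℕ → ℤ} (hmono : Monotone (nv p s)) (a b : ℕ) (hab : a ≤ b) :
    ∑ g ∈ Ico a b, (om p s g : ℝ) = (nv p s b : ℝ) - nv p s a := by
  have h1 : ∀ g ∈ Ico a b, (om p s g : ℝ) = (nv p s (g + 1) : ℝ) - nv p s g := by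
    intro g _
    unfold om
    rw [Nat.cast_sub (hmono (Nat.le_succ g))]
  rw [Finset.sum_congr rfl h1]
  exact Finset.sum_Ico_sub (fun g => (nv p s g : ℝ)) hab

theorem PIG_harm (M₁ M : ℕ) (h1 : 1 ≤ M₁) (h2 : M₁ ≤ M) :
    Real.log ((M : ℝ) / M₁) ≤ ∑ m ∈ Ico M₁ M, 1 / (m : ℝ) := by
  induction M, h2 using Nat.le_induction with
  | base =>
    have : (0 : ℝ) < M₁ := by exact_mod_cast h1
    rw [div_self this.ne']
    simp
  | succ M hM ih =>
    rw [Finset.sum_Ico_succ_top hM]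
    have hM1 : (0 : ℝ) < M₁ := by exact_mod_cast h1
    have hM0 : (0 : ℝ) < M := by
      have : 1 ≤ M := le_trans h1 hM
      exact_mod_cast this
    have e : (((M + 1 : ℕ) : ℝ)) / M₁ = ((M : ℝ) / M₁) * (1 + 1 / (M : ℝ)) := by
      push_cast
      field_simp
    rw [e, Real.log_mul (by positivity) (by positivity)]
    have : Real.log (1 + 1 / (M : ℝ)) ≤ 1 / (M : ℝ) := by
      have := Real.log_le_sub_one_of_pos (show (0 : ℝ) < 1 + 1 / (M : ℝ) by positivity)
      linarith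
    linarith

theorem stmt_PIG (h1 : Stmt_ENT) (h2 : Stmt_PAD) (h3 : Stmt_PRF) (h4 : Stmt_JUMP)
    (h5 : Stmt_BIG) : Stmt_PIG := by
  intro s C₀ hs N M₁ M P hM1 hM hMN hP2 hPN
  have hN1 : 1 ≤ N := by omega
  set J₀ : ℝ := Lg s (2 * N) / Real.log P with hJ0
  have hlogP : 0 < Real.log P := Real.log_pos (by exact_mod_cast (by omega : 1 < P))
  have hL2N : 0 ≤ Lg s (2 * N) := (h1 s C₀ hs (2 * N)).2.2
  have hJ00 : 0 ≤ J₀ := div_nonneg hL2N hlogP.le
  have hLN : 0 ≤ Lg s N := (h1 s C₀ hs N).2.2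
  obtain ⟨hPR, -, hlD, -, -⟩ := h3 s C₀ hs (2 * N)
  -- the bound for the sum
  have hsum : ∑ m ∈ Ico M₁ M, (1 / (m : ℝ) ^ 3) * Pair s N M P m ≤ J₀ * (N * Lg s N) := by
    have e1 : ∑ m ∈ Ico M₁ M, (1 / (m : ℝ) ^ 3) * Pair s N M P m =
        ∑ p ∈ PG s N M P, Real.log p * ∑ m ∈ Ico M₁ M, (1 / (m : ℝ) ^ 3) *
          ∑ u ∈ range (N - m + 1), PT p s u m := by
      unfold Pair
      calc _ = ∑ m ∈ Ico M₁ M, ∑ p ∈ PG s N M P, Real.log p * ((1 / (m : ℝ) ^ 3) *
          ∑ u ∈ range (N - m + 1), PT p s u m) := by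
            apply Finset.sum_congr rfl
            intro m _
            rw [Finset.mul_sum]
            apply Finset.sum_congr rfl
            intro p _
            ring
        _ = _ := by
            rw [Finset.sum_comm]
            apply Finset.sum_congr rfl
            intro p _
            rw [Finset.mul_sum]
    rw [e1]
    have e2 : ∀ p ∈ PG s N M P, Real.log p * ∑ m ∈ Ico M₁ M, (1 / (m : ℝ) ^ 3) *
          ∑ u ∈ range (N - m + 1), PT p s u m ≤ J₀ * (Real.log p * nv p s N) := by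
      intro p hp
      obtain ⟨hpR, hpP, hpc⟩ := mem_PG.1 hp
      have hpp : p.Prime := hPR p hpR
      obtain ⟨hmono, hnv0, -, -⟩ := h2 s C₀ hs p hpp
      have hbig : P < p := (h5 s C₀ hs P p hpp hpP).1
      have hlogp : 0 < Real.log p := Real.log_pos (by exact_mod_cast hpp.one_lt)
      have hlogle : Real.log P ≤ Real.log p := by
        apply Real.log_le_log
        · exact_mod_cast (by omega : 0 < P)
        · exact_mod_cast hbig.le
      have hJ : ∀ g < N, ∑ g' ∈ Ico (g + 1) (min (g + M) N), (om p s g' : ℝ) ≤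
          Lg s (2 * N) / Real.log p := by
        intro g hg
        rw [PIG_om_sum hmono _ _ (by omega)]
        rw [le_div_iff₀ hlogp]
        have h6 := h4 s C₀ hs N M p hN1 hpp hpc (g + 1) (min (g + M) N) (by omega) (by omega)
          (by omega)
        exact h6
      have h7 := PIG_core (fun g => (om p s g : ℝ)) (fun g => Nat.cast_nonneg _) N M₁ M
        (Lg s (2 * N) / Real.log p) hMN hJ
      have h8 : ∑ g ∈ range N, (om p s g : ℝ) = nv p s N := by
        have := PIG_om_sum hmono 0 N (Nat.zero_le N)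
        rw [hnv0] at this
        rw [Finset.range_eq_Ico, this]
        simp
      have h9 : ∑ m ∈ Ico M₁ M, (1 / (m : ℝ) ^ 3) * ∑ u ∈ range (N - m + 1), PT p s u m ≤
          Lg s (2 * N) / Real.log p * nv p s N := by
        rw [← h8]
        exact h7
      calc Real.log p * ∑ m ∈ Ico M₁ M, (1 / (m : ℝ) ^ 3) *
          ∑ u ∈ range (N - m + 1), PT p s u m
          ≤ Real.log p * (Lg s (2 * N) / Real.log p * nv p s N) :=
            mul_le_mul_of_nonneg_left h9 hlogp.le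
        _ ≤ Real.log p * (Lg s (2 * N) / Real.log P * nv p s N) := by
            apply mul_le_mul_of_nonneg_left _ hlogp.le
            apply mul_le_mul_of_nonneg_right _ (Nat.cast_nonneg _)
            exact div_le_div_of_nonneg_left hL2N hlogP hlogle
        _ = J₀ * (Real.log p * nv p s N) := by rw [hJ0]; ring
    calc ∑ p ∈ PG s N M P, Real.log p * ∑ m ∈ Ico M₁ M, (1 / (m : ℝ) ^ 3) *
          ∑ u ∈ range (N - m + 1), PT p s u m
        ≤ ∑ p ∈ PG s N M P, J₀ * (Real.log p * nv p s N) := Finset.sum_le_sum e2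
      _ ≤ ∑ p ∈ PR s (2 * N), J₀ * (Real.log p * nv p s N) := by
          apply Finset.sum_le_sum_of_subset_of_nonneg
          · intro p hp
            exact (mem_PG.1 hp).1
          · intro p hp _
            have : 0 ≤ Real.log p := Real.log_nonneg (by exact_mod_cast (hPR p hp).one_lt.le)
            positivity
      _ = J₀ * lD s N := by
          rw [hlD N (by omega), Finset.mul_sum]
      _ ≤ J₀ * (N * Lg s N) := mul_le_mul_of_nonneg_left (h1 s C₀ hs N).2.1 hJ00
  by_contra hcon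
  push Not at hcon
  have hM1' : (0 : ℝ) < M₁ := by exact_mod_cast hM1
  have hlog : 0 < Real.log ((M : ℝ) / M₁) := by
    apply Real.log_pos
    rw [one_lt_div hM1']
    exact_mod_cast hM
  have h10 : ∑ m ∈ Ico M₁ M, J₀ * (N * Lg s N) * (1 / (m : ℝ)) <
      ∑ m ∈ Ico M₁ M, Real.log ((M : ℝ) / M₁) * ((1 / (m : ℝ) ^ 3) * Pair s N M P m) := by
    apply Finset.sum_lt_sum_of_nonempty
    · exact ⟨M₁, mem_Ico.2 ⟨le_rfl, hM⟩⟩
    · intro m hm
      have hm' := mem_Ico.1 hm
      have hm0 : (0 : ℝ) < m := by exact_mod_cast (by omega : 0 < m)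
      have h11 := hcon m hm'.1 hm'.2.le
      have e3 : J₀ * (N * Lg s N) * (1 / (m : ℝ)) =
          (1 / (m : ℝ) ^ 3) * ((m : ℝ) ^ 2 * (Lg s (2 * N) / Real.log P) * (N * Lg s N)) := by
        rw [hJ0]
        field_simp
      have e4 : Real.log ((M : ℝ) / M₁) * ((1 / (m : ℝ) ^ 3) * Pair s N M P m) =
          (1 / (m : ℝ) ^ 3) * (Pair s N M P m * Real.log ((M : ℝ) / M₁)) := by ring
      rw [e3, e4]
      exact mul_lt_mul_of_pos_left h11 (by positivity)
  rw [← Finset.mul_sum, ← Finset.mul_sum] at h10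
  have h12 := PIG_harm M₁ M hM1 hM.le
  have h13 : 0 ≤ J₀ * (N * Lg s N) := by positivity
  have h14 : J₀ * (N * Lg s N) * Real.log ((M : ℝ) / M₁) ≤
      J₀ * (N * Lg s N) * ∑ m ∈ Ico M₁ M, 1 / (m : ℝ) := mul_le_mul_of_nonneg_left h12 h13
  have h15 : Real.log ((M : ℝ) / M₁) * ∑ m ∈ Ico M₁ M, (1 / (m : ℝ) ^ 3) * Pair s N M P m ≤
      Real.log ((M : ℝ) / M₁) * (J₀ * (N * Lg s N)) := mul_le_mul_of_nonneg_left hsum hlog.le
  linarith

end Pool.Agent.Work.MP_b29d7f_cvx
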