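import Pool.Agent.Work.MP_b29d7f_cvx.InterfaceC

/-!
# Block POLY: the polynomial identity
-/

namespace Pool.Agent.Work.MP_b29d7f_cvx

open Finset Polynomial Filter Topology

namespace BPOLY

/-- coefficients of `P (X + 1) - P (X)` -/
theorem diff_coeff (P : ℤ[X]) (n : ℕ) (hn : P.natDegree ≤ n + 1) :
    (taylor 1 P - P).coeff n = ((n : ℤ) + 1) * P.coeff (n + 1) := by
  rw [coeff_sub, taylor_coeff]
  have hdeg : (hasseDeriv n P).natDegree ≤ 1 := by
    refine (natDegree_hasseDeriv_le P n).trans ?_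
    omega
  rw [eval_eq_sum_range' (lt_of_le_of_lt hdeg (by norm_num : 1 < 2))]
  simp only [Finset.sum_range_succ, Finset.sum_range_zero, hasseDeriv_coeff]
  have h1 : (1 + n).choose n = n + 1 := by
    rw [Nat.add_comm, Nat.choose_succ_self_right]
  rw [h1, Nat.add_comm 1 n]
  simp

theorem diff_coeff_zero (P : ℤ[X]) (n : ℕ) (hn : P.natDegree ≤ n) :
    (taylor 1 P - P).coeff n = 0 := by
  rw [diff_coeff P n (by omega), coeff_eq_zero_of_natDegree_lt (by omega), mul_zero]

/-- the remainder -/
noncomputable def R (P : ℤ[X]) (e : ℤ) : ℤ[X] :=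
  (C 2 * X + C e) * (taylor 1 P - P) - C (2 * (P.natDegree : ℤ)) * P

theorem R_coeff (P : ℤ[X]) (e : ℤ) (n : ℕ) (hn : P.natDegree ≤ n) : (R P e).coeff n = 0 := by
  have hz := diff_coeff_zero P n hn
  unfold R
  rw [coeff_sub, add_mul, coeff_add, coeff_C_mul, coeff_C_mul, hz, mul_zero, add_zero, mul_assoc,
    coeff_C_mul]
  rcases n with _ | m
  · have h0 : P.natDegree = 0 := by omega
    rw [coeff_X_mul_zero, h0]
    simp
  · rw [coeff_X_mul, diff_coeff P m hn]
    rcases Nat.lt_or_ge P.natDegree (m + 1) with h | h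
    · rw [coeff_eq_zero_of_natDegree_lt h]
      simp
    · have h1 : P.natDegree = m + 1 := le_antisymm hn h
      rw [h1]
      push_cast
      ring

theorem R_eval (P : ℤ[X]) (e x : ℤ) : (R P e).eval x =
    (2 * x + e) * P.eval (x + 1) - (2 * x + e + 2 * P.natDegree) * P.eval x := by
  unfold R
  rw [eval_sub, eval_mul, eval_mul, eval_sub, taylor_eval, eval_C]
  simp only [eval_add, eval_mul, eval_C, eval_X]
  ring

theorem R_degree_lt (P : ℤ[X]) (e : ℤ) (hP : P ≠ 0) : (R P e).degree < P.degree := by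
  rw [degree_eq_natDegree hP, degree_lt_iff_coeff_zero]
  intro n hn
  exact R_coeff P e n hn

end BPOLY

open BPOLY in
theorem stmt_POLY : Stmt_POLY := by
  intro P e hP h x
  obtain ⟨x₀, hx₀⟩ := h
  have hR : R P e = 0 := by
    by_contra hR
    have hd := R_degree_lt P e hP
    have hinj : Function.Injective (Int.castRingHom ℝ) := Int.cast_injective
    have hd' : ((R P e).map (Int.castRingHom ℝ)).degree < (P.map (Int.castRingHom ℝ)).degree := by
      rwa [degree_map_eq_of_injective hinj, degree_map_eq_of_injective hinj]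
    have ht := Polynomial.div_tendsto_atTop_zero_of_degree_lt _ _ hd'
    have ht2 := ht.comp (tendsto_natCast_atTop_atTop (R := ℝ))
    obtain ⟨N, hN⟩ := eventually_atTop.mp
      ((ht2.abs.eventually_lt_const (by rw [abs_zero]; exact zero_lt_one)))
    have hroot : ∀ n : ℕ, N ≤ n → x₀ ≤ n → (R P e).IsRoot (n : ℤ) := by
      intro n h1 h2
      have h3 : P.eval (n : ℤ) ∣ (R P e).eval (n : ℤ) := by
        rw [R_eval]
        exact dvd_sub (hx₀ n h2) (Dvd.intro_left _ rfl)
      obtain ⟨c, hc⟩ := h3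
      have h4 := hN n h1
      have e1 : ∀ Q : ℤ[X], eval (n : ℝ) (Q.map (Int.castRingHom ℝ)) = ((Q.eval (n : ℤ) : ℤ) : ℝ) := by
        intro Q
        have : (n : ℝ) = (Int.castRingHom ℝ) (n : ℤ) := by simp
        rw [this, eval_map_apply]
        simp
      simp only [Function.comp_apply, e1] at h4
      rw [Polynomial.IsRoot.def]
      by_cases hz : P.eval (n : ℤ) = 0
      · rw [hc, hz, zero_mul]
      · have hz' : ((P.eval (n : ℤ) : ℤ) : ℝ) ≠ 0 := by exact_mod_cast hz
        rw [hc] at h4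
        push_cast at h4
        rw [mul_div_cancel_left₀ _ hz'] at h4
        have h5 : |c| < 1 := by exact_mod_cast h4
        have h6 : c = 0 := by
          rw [abs_lt] at h5
          omega
        rw [hc, h6, mul_zero]
    refine hR (eq_zero_of_infinite_isRoot _ ?_)
    refine Set.infinite_of_injective_forall_mem (f := fun n : ℕ => ((n + N + x₀ : ℕ) : ℤ)) ?_ ?_
    · intro a b hab
      have : ((a + N + x₀ : ℕ) : ℤ) = ((b + N + x₀ : ℕ) : ℤ) := hab
      omega
    · intro n
      exact hroot (n + N + x₀) (by omega) (by omega)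
  have h1 := R_eval P e x
  rw [hR, eval_zero] at h1
  linarith

end Pool.Agent.Work.MP_b29d7f_cvx
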