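import Pool.Agent.Work.MP_b29d7f_cvx.InterfaceC

/-!
# Block POS (4.4 of note 2696): a small negative number has no level `2 m` (helper79)
-/

set_option autoImplicit false

namespace Pool.Agent.Work.MP_b29d7f_cvx

open Finset

namespace POS

theorem gp_mono {s : ℕ → ℤ} (hc : ∀ k, s (k + 1) - s k ≤ s (k + 2) - s (k + 1)) :
    Monotone (gp s) := by
  refine monotone_nat_of_le_succ fun k => ?_
  exact hc k

theorem sub_le {s : ℕ → ℤ} (hc : ∀ k, s (k + 1) - s k ≤ s (k + 2) - s (k + 1)) (i d : ℕ) :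
    s (i + d) - s i ≤ d * gp s (i + d) := by
  have hm := gp_mono hc
  induction d with
  | zero => simp
  | succ d ih =>
    have h1 : s (i + (d + 1)) = s (i + d) + gp s (i + d) := by
      simp only [gp]; rw [← add_assoc]; ring
    have h2 : gp s (i + d) ≤ gp s (i + (d + 1)) := hm (by omega)
    rw [h1]
    push_cast
    have hd : (0 : ℤ) ≤ d := Int.natCast_nonneg d
    nlinarith

theorem sub_ge {s : ℕ → ℤ} (hc : ∀ k, s (k + 1) - s k ≤ s (k + 2) - s (k + 1)) (i d : ℕ) :
    d * gp s i ≤ s (i + d) - s i := by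
  have hm := gp_mono hc
  induction d with
  | zero => simp
  | succ d ih =>
    have h1 : s (i + (d + 1)) = s (i + d) + gp s (i + d) := by
      simp only [gp]; rw [← add_assoc]; ring
    have h2 : gp s i ≤ gp s (i + d) := hm (by omega)
    rw [h1]
    push_cast
    linarith

/-- chord slopes increase -/
theorem chord {s : ℕ → ℤ} (hc : ∀ k, s (k + 1) - s k ≤ s (k + 2) - s (k + 1)) (i d e : ℕ) :
    (e : ℤ) * (s (i + d + e) - s i) ≤ (d + e) * (s (i + d + e) - s (i + d)) := by
  have h1 := sub_le hc i d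
  have h2 := sub_ge hc (i + d) e
  have hd : (0 : ℤ) ≤ d := Int.natCast_nonneg d
  have he : (0 : ℤ) ≤ e := Int.natCast_nonneg e
  have h3 := mul_le_mul_of_nonneg_left h1 he
  have h4 := mul_le_mul_of_nonneg_left h2 hd
  linarith

theorem fact_bound (n Y : ℕ) : (∏ j ∈ range n, (j + 1 + Y)) ≤ n.factorial * (n + Y) ^ Y := by
  have h1 : (∏ j ∈ range n, (j + 1 + Y)) * Y.factorial = (n + Y).factorial := by
    induction n with
    | zero => simp
    | succ n ih =>
      rw [prod_range_succ, mul_right_comm, ih, show n + 1 + Y = n + Y + 1 by ring,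
        Nat.factorial_succ]
      ring
  have h2 : n.factorial * (n + 1).ascFactorial Y = (n + Y).factorial :=
    Nat.factorial_mul_ascFactorial n Y
  have h3 : (n + 1).ascFactorial Y ≤ (n + Y) ^ Y := Nat.ascFactorial_le_pow_add n Y
  have h4 : 1 ≤ Y.factorial := Nat.factorial_pos Y
  calc (∏ j ∈ range n, (j + 1 + Y)) ≤ (∏ j ∈ range n, (j + 1 + Y)) * Y.factorial :=
        Nat.le_mul_of_pos_right _ h4
    _ = n.factorial * (n + 1).ascFactorial Y := by rw [h1, h2]
    _ ≤ _ := Nat.mul_le_mul_left _ h3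

end POS

open POS in
theorem stmt_POS (hARC : Stmt_ARC) : Stmt_POS := by
  intro s C₀ hs m y hm h3 hy hlog hdvd
  obtain ⟨-, h2A, -, -, h5A, h6A, -⟩ := hARC s C₀ hs
  have hc := hs.conv
  have h0 : s 0 = 0 := hs.zero
  have hnn : ∀ k, 0 ≤ s k := fun k => (Int.natCast_nonneg k).trans (h5A k)
  -- the factors
  have hf1 : ∀ j, j ≤ 2 * m → s j ≤ s (2 * m) - s (2 * m - j) := by
    intro j hj
    have := (hARC s C₀ hs).1 0 (2 * m - j) j (Nat.zero_le _)
    rw [zero_add, h0, sub_zero, Nat.sub_add_cancel hj] at this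
    exact this
  have hf2 : ∀ j, j ≤ m → 2 * s j ≤ s (2 * m) - s (2 * m - j) := by
    intro j hj
    have h1 := chord hc m (m - j) j
    have e1 : m + (m - j) + j = 2 * m := by omega
    have e2 : m + (m - j) = 2 * m - j := by omega
    rw [e1, e2] at h1
    have e3 : ((m - j : ℕ) : ℤ) + j = m := by push_cast [Nat.cast_sub hj]; ring
    rw [e3] at h1
    have h4 := h2A j m hj
    have hj0 : (0 : ℤ) ≤ j := Int.natCast_nonneg j
    have hm0 : (0 : ℤ) < m := by exact_mod_cast hm
    have h5 := mul_le_mul_of_nonneg_left h3 hj0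
    refine le_of_mul_le_mul_left (a := (m : ℤ)) ?_ hm0
    nlinarith
  -- the lower bound for D
  set n := 2 * m - 1 with hn
  have hn1 : n + 1 = 2 * m := by omega
  set Pn : ℤ := ∏ j ∈ range n, s (j + 1) with hPn
  have hPpos : 0 < Pn := prod_pos fun j _ => by
    have := h5A (j + 1); push_cast at this; have := Int.natCast_nonneg j; linarith
  have hD : 2 ^ m * (Pn * s (2 * m)) ≤ Dk s (2 * m) := by
    have e1 : Dk s (2 * m) = ∏ j ∈ range (2 * m), (s (2 * m) - s (2 * m - (j + 1))) := by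
      unfold Dk
      rw [← prod_range_reflect]
      refine prod_congr rfl fun j hj => ?_
      have : 2 * m - 1 - j = 2 * m - (j + 1) := by omega
      rw [this]
    have e2 : Pn * s (2 * m) = ∏ j ∈ range (2 * m), s (j + 1) := by
      rw [← hn1, prod_range_succ]
    have e3 : (2 : ℤ) ^ m = ∏ j ∈ range (2 * m), (if j < m then (2 : ℤ) else 1) := by
      rw [prod_ite, prod_const, prod_const_one, mul_one]
      congr 1
      have : (range (2 * m)).filter (fun j => j < m) = range m := by
        ext j; simp only [mem_filter, mem_range]; omega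
      rw [this, card_range]
    rw [e1, e2, e3, ← prod_mul_distrib]
    refine prod_le_prod (fun j _ => ?_) fun j hj => ?_
    · have := hnn (j + 1)
      split_ifs <;> linarith
    · rw [mem_range] at hj
      split_ifs with h
      · exact hf2 (j + 1) (by omega)
      · rw [one_mul]; exact hf1 (j + 1) (by omega)
  -- the value of N
  obtain ⟨Y, rfl⟩ := Int.eq_ofNat_of_zero_le hy.le
  have hY : 0 < Y := by exact_mod_cast hy
  have hN : |Nk s (2 * m) (-(Y : ℤ))| = Y * ∏ j ∈ range n, (s (j + 1) + Y) := by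
    unfold Nk
    rw [abs_prod, ← hn1, prod_range_succ', h0, mul_comm]
    congr 1
    · rw [sub_zero, abs_neg, abs_of_nonneg (Int.natCast_nonneg Y)]
    · refine prod_congr rfl fun j _ => ?_
      have h1 : -(Y : ℤ) - s (j + 1) = -(s (j + 1) + Y) := by ring
      rw [h1, abs_neg, abs_of_nonneg (by have := hnn (j + 1); positivity)]
  have hNpos : 0 < |Nk s (2 * m) (-(Y : ℤ))| := by
    rw [hN]
    refine mul_pos (by exact_mod_cast hY) (prod_pos fun j _ => ?_)
    have := hnn (j + 1)
    positivity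
  have hprod : (∏ j ∈ range n, (s (j + 1) + Y)) * (n.factorial : ℤ) ≤
      Pn * ((∏ j ∈ range n, (j + 1 + Y) : ℕ) : ℤ) := by
    have e1 : (n.factorial : ℤ) = ∏ j ∈ range n, ((j : ℤ) + 1) := by
      rw [← prod_range_add_one_eq_factorial]; push_cast; rfl
    rw [e1, hPn]
    push_cast
    rw [← prod_mul_distrib, ← prod_mul_distrib]
    refine prod_le_prod (fun j _ => ?_) fun j _ => ?_
    · have := hnn (j + 1); positivity
    · have h1 := h5A (j + 1)
      push_cast at h1
      have hY0 : (0 : ℤ) ≤ Y := Int.natCast_nonneg Y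
      nlinarith
  have hprod2 : (∏ j ∈ range n, (s (j + 1) + Y)) ≤ Pn * ((n : ℤ) + Y) ^ Y := by
    have h1 : ((∏ j ∈ range n, (j + 1 + Y) : ℕ) : ℤ) ≤ (n.factorial : ℤ) * ((n : ℤ) + Y) ^ Y := by
      exact_mod_cast fact_bound n Y
    have h2 : (0 : ℤ) < n.factorial := by exact_mod_cast Nat.factorial_pos n
    refine le_of_mul_le_mul_right (a := (n.factorial : ℤ)) ?_ h2
    calc (∏ j ∈ range n, (s (j + 1) + Y)) * (n.factorial : ℤ) ≤
        Pn * ((∏ j ∈ range n, (j + 1 + Y) : ℕ) : ℤ) := hprod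
      _ ≤ Pn * ((n.factorial : ℤ) * ((n : ℤ) + Y) ^ Y) := mul_le_mul_of_nonneg_left h1 hPpos.le
      _ = _ := by ring
  -- the size
  have hsize : (Y : ℤ) * ((n : ℤ) + Y) ^ Y ≤ 2 ^ m := by
    have hYr : (1 : ℝ) ≤ Y := by exact_mod_cast hY
    have hnr : (0 : ℝ) ≤ n := Nat.cast_nonneg n
    have hmr : (1 : ℝ) ≤ m := by exact_mod_cast hm
    have hnm : (n : ℝ) + 1 = 2 * m := by exact_mod_cast hn1
    have h1 : Real.log ((Y : ℝ) * ((n : ℝ) + Y) ^ Y) ≤ Real.log (2 ^ m) := by
      rw [Real.log_mul (by positivity) (by positivity), Real.log_pow, Real.log_pow]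
      refine le_trans ?_ hlog
      push_cast
      have h2 : Real.log (n + Y) ≤ Real.log (2 * m) + Real.log (Y + 1) := by
        rw [← Real.log_mul (by positivity) (by positivity)]
        refine Real.log_le_log (by positivity) ?_
        nlinarith
      have h3 : Real.log Y ≤ Y * Real.log (Y + 1) := by
        have h4 : Real.log Y ≤ Real.log (Y + 1) := Real.log_le_log (by positivity) (by linarith)
        have h5 : 0 ≤ Real.log ((Y : ℝ) + 1) := Real.log_nonneg (by linarith)
        nlinarith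
      have h6 := mul_le_mul_of_nonneg_left h2 (by positivity : (0 : ℝ) ≤ Y)
      nlinarith
    have h2 := (Real.log_le_log_iff (by positivity) (by positivity)).1 h1
    exact_mod_cast h2
  have hlt : |Nk s (2 * m) (-(Y : ℤ))| < Dk s (2 * m) := by
    have hs2 : (2 : ℤ) ≤ s (2 * m) := by
      have := h5A (2 * m)
      push_cast at this
      have hm1 : (1 : ℤ) ≤ m := by exact_mod_cast hm
      linarith
    calc |Nk s (2 * m) (-(Y : ℤ))| = Y * ∏ j ∈ range n, (s (j + 1) + Y) := hN
      _ ≤ Y * (Pn * ((n : ℤ) + Y) ^ Y) :=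
        mul_le_mul_of_nonneg_left hprod2 (Int.natCast_nonneg Y)
      _ = Pn * ((Y : ℤ) * ((n : ℤ) + Y) ^ Y) := by ring
      _ ≤ Pn * 2 ^ m := mul_le_mul_of_nonneg_left hsize hPpos.le
      _ < 2 ^ m * (Pn * s (2 * m)) := by
        have h7 : (0 : ℤ) < 2 ^ m * Pn := by positivity
        nlinarith
      _ ≤ Dk s (2 * m) := hD
  have h8 : Dk s (2 * m) ∣ |Nk s (2 * m) (-(Y : ℤ))| := (dvd_abs _ _).2 hdvd
  exact absurd (Int.le_of_dvd hNpos h8) (not_le.2 hlt)

end Pool.Agent.Work.MP_b29d7f_cvx
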