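import Pool.Agent.Work.MP_b29d7f_cvx.Interface
import Pool.Agent.Work.MP_b29d7f_nt.Main

/-!
# Block PRF: the product formula
-/

namespace Pool.Agent.Work.MP_b29d7f_cvx

open Finset
open Pool.Agent.Work.MP_b29d7f_nt (IsPOrdering HasSimultaneousOrdering PS vd ld tv)
open Pool.Agent.Work.MP_b29d7f_half (Ord A wv lD HalfDense)
open Pool.Agent.Work.MP_b29d7f_sep (nv EW EL)

theorem stmt_PRF : Stmt_PRF := by
  classical
  intro s C₀ hs n
  have hprod : (∏ j ∈ range (n + 1), ∏ i ∈ range j, (s j - s i)) ≠ 0 := by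
    refine Finset.prod_ne_zero_iff.2 fun j _ => Finset.prod_ne_zero_iff.2 fun i hi => ?_
    exact (sub_pos.2 (hs.mono (Finset.mem_range.1 hi))).ne'
  have hpr : ∀ p ∈ PR s n, p.Prime := fun p hp => Nat.prime_of_mem_primeFactors hp
  have hld : ∀ i j : ℕ, i < j → ld (s j) (s i) = Real.log (s j - s i : ℤ) := by
    intro i j hij
    unfold ld
    rw [abs_of_pos]
    exact_mod_cast sub_pos.2 (hs.mono hij)
  have key : ∀ i j : ℕ, i < j → j ≤ n →
      ld (s j) (s i) = ∑ p ∈ PR s n, Real.log p * vl p s j i := by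
    intro i j hij hj
    have hne : s j - s i ≠ 0 := (sub_pos.2 (hs.mono hij)).ne'
    unfold ld vl
    rw [Pool.Agent.Work.MP_b29d7f_nt.log_eq_sum (s j - s i) hne (PR s n) hpr]
    · refine Finset.sum_congr rfl fun p _ => ?_
      ring
    · intro p hp hm
      unfold PR
      rw [Nat.mem_primeFactors]
      refine ⟨hp, ?_, Int.natAbs_ne_zero.mpr hprod⟩
      have hd : (p : ℤ) ∣ s j - s i := by
        by_contra hnd
        exact hm (multiplicity_eq_zero.mpr hnd)
      refine Int.natCast_dvd.mp (hd.trans ?_)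
      exact (Finset.dvd_prod_of_mem (fun i => s j - s i) (Finset.mem_range.2 hij)).trans
        (Finset.dvd_prod_of_mem (fun j => ∏ i ∈ range j, (s j - s i))
          (Finset.mem_range.2 (by omega)))
  refine ⟨hpr, ?_, ?_, ?_, ?_⟩
  · intro i j hij hj
    rw [← hld i j hij]
    exact key i j hij hj
  · intro k hk
    unfold lD nv
    rw [Finset.sum_congr rfl fun i hi => key i k (Finset.mem_range.mp hi) hk, Finset.sum_comm]
    refine Finset.sum_congr rfl fun p _ => ?_
    rw [← Finset.mul_sum]
    push_cast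
    rfl
  · intro u m hum
    unfold EL EW
    rw [Finset.sum_congr rfl fun j hj => Finset.sum_congr rfl fun i hi =>
      key i j (Finset.mem_Ico.mp hi).2 (by have := (Finset.mem_Ico.mp hj).2; omega)]
    rw [Finset.sum_congr rfl fun j _ => Finset.sum_comm, Finset.sum_comm]
    refine Finset.sum_congr rfl fun p _ => ?_
    rw [Finset.mul_sum]
    refine Finset.sum_congr rfl fun j _ => ?_
    rw [Finset.mul_sum]
    rfl
  · intro u m
    unfold EL
    refine Finset.sum_congr rfl fun j _ => Finset.sum_congr rfl fun i hi => ?_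
    exact hld i j (Finset.mem_Ico.mp hi).2

end Pool.Agent.Work.MP_b29d7f_cvx
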