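import Pool.Agent.Work.MP_b29d7f_cvx.Interface

/-!
# Block RANGE: scales with exponent two (section 2)
-/

namespace Pool.Agent.Work.MP_b29d7f_cvx

open Finset Filter
open Pool.Agent.Work.MP_b29d7f_half (Ord A wv lD HalfDense)
open Pool.Agent.Work.MP_b29d7f_sep (nv EW EL)

namespace RANGE_

theorem SDfc_nonneg (hDFC : Stmt_DFC) {s : ℕ → ℤ} {C₀ : ℝ} (hC : Cvx s C₀) (N M P m : ℕ) :
    0 ≤ SDfc s N M P m := by
  unfold SDfc
  refine Finset.sum_nonneg fun p hp => ?_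
  have hpp : p.Prime := by
    rw [mem_PG] at hp
    exact Nat.prime_of_mem_primeFactors hp.1
  refine mul_nonneg (Real.log_natCast_nonneg p) (Finset.sum_nonneg fun u _ => ?_)
  exact (hDFC s C₀ hC p hpp u m).1

/-- one grid point -/
theorem grid (hDFC : Stmt_DFC) (hMW2 : Stmt_MW2) {s : ℕ → ℤ} {C₀ : ℝ} (hC : Cvx s C₀) (q i : ℕ)
    (hi : 1 ≤ i) (hiq : i < q) (ε : ℝ) (hε : 0 < ε) : ∃ N₀ : ℕ, ∀ N : ℕ, N₀ ≤ N →
    GG s N ≤ ε * N * Real.log N → GG s (2 * N) ≤ ε * (2 * N) * Real.log (2 * N) →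
    (2 - 2 * ε) * Real.log N ≤ Lg s N →
    (2 * ((i : ℝ) / q) - 3 / (2 * q) - 22 * ε) * Real.log N ≤ Lg s ⌊(N : ℝ) ^ ((i : ℝ) / q)⌋₊ := by
  have hq : (0 : ℝ) < q := by exact_mod_cast (by omega : 0 < q)
  have hi' : (1 : ℝ) ≤ i := by exact_mod_cast hi
  have h1 : (1 : ℝ) / q ≤ (i : ℝ) / q := div_le_div_of_nonneg_right hi' hq.le
  set η : ℝ := 1 / (4 * q) with hη
  have hη0 : 0 < η := by positivity
  have hη4 : 1 / (q : ℝ) = 4 * η := by rw [hη]; field_simp
  have hlt1 : (i : ℝ) / q < 1 := by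
    rw [div_lt_one hq]
    exact_mod_cast hiq
  obtain ⟨N₀, hN₀⟩ := hMW2 s C₀ hC ((i : ℝ) / q - 3 * η) ((i : ℝ) / q - 2 * η)
    ((i : ℝ) / q - η) ((i : ℝ) / q) (by linarith) (by linarith) (by linarith) (by linarith)
    hlt1 ε hε
  refine ⟨max N₀ 2, fun N hN hG1 hG2 hL => ?_⟩
  obtain ⟨m, hm1, -, -, -, hm2⟩ := hN₀ N (le_trans (le_max_left _ _) hN) hG1 hG2
  have hN2 : 2 ≤ N := le_trans (le_max_right _ _) hN
  have hNpos : (0 : ℝ) < N := by exact_mod_cast (by omega : 0 < N)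
  have hlm : ((i : ℝ) / q - 3 * η) * Real.log N ≤ Real.log m := by
    rw [← Real.log_rpow hNpos]
    exact Real.log_le_log (Real.rpow_pos_of_pos hNpos _) hm1
  have hSD : 0 ≤ 4 / ((m : ℝ) ^ 2 * N) *
      SDfc s N ⌊(N : ℝ) ^ ((i : ℝ) / q - 2 * η)⌋₊ ⌊(N : ℝ) ^ ((i : ℝ) / q - η)⌋₊ m :=
    mul_nonneg (by positivity) (SDfc_nonneg hDFC hC _ _ _ _)
  have h3 : 3 / (2 * (q : ℝ)) = 6 * η := by rw [hη]; field_simp; norm_num
  rw [h3]
  have e1 : (2 * ((i : ℝ) / q) - 6 * η - 22 * ε) * Real.log N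
      = 2 * (((i : ℝ) / q - 3 * η) * Real.log N) + (2 - 2 * ε) * Real.log N
        - 2 * Real.log N - 20 * ε * Real.log N := by ring
  rw [e1]
  linarith

/-- all grid points -/
theorem grids (hDFC : Stmt_DFC) (hMW2 : Stmt_MW2) {s : ℕ → ℤ} {C₀ : ℝ} (hC : Cvx s C₀) (q : ℕ)
    (ε : ℝ) (hε : 0 < ε) : ∃ N₀ : ℕ, ∀ N : ℕ, N₀ ≤ N →
    GG s N ≤ ε * N * Real.log N → GG s (2 * N) ≤ ε * (2 * N) * Real.log (2 * N) →
    (2 - 2 * ε) * Real.log N ≤ Lg s N → ∀ i : ℕ, 1 ≤ i → i < q →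
    (2 * ((i : ℝ) / q) - 3 / (2 * q) - 22 * ε) * Real.log N ≤
      Lg s ⌊(N : ℝ) ^ ((i : ℝ) / q)⌋₊ := by
  classical
  have h : ∀ i : ℕ, ∃ N₀ : ℕ, 1 ≤ i → i < q → ∀ N : ℕ, N₀ ≤ N →
    GG s N ≤ ε * N * Real.log N → GG s (2 * N) ≤ ε * (2 * N) * Real.log (2 * N) →
    (2 - 2 * ε) * Real.log N ≤ Lg s N →
    (2 * ((i : ℝ) / q) - 3 / (2 * q) - 22 * ε) * Real.log N ≤
      Lg s ⌊(N : ℝ) ^ ((i : ℝ) / q)⌋₊ := by
    intro i
    by_cases hi : 1 ≤ i ∧ i < q
    · obtain ⟨N₀, hN₀⟩ := grid hDFC hMW2 hC q i hi.1 hi.2 ε hε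
      exact ⟨N₀, fun _ _ => hN₀⟩
    · exact ⟨0, fun h1 h2 => absurd ⟨h1, h2⟩ hi⟩
  choose F hF using h
  refine ⟨(range q).sup F, fun N hN h1 h2 h3 i hi hiq => ?_⟩
  refine hF i hi hiq N (le_trans ?_ hN) h1 h2 h3
  exact Finset.le_sup (f := F) (Finset.mem_range.mpr hiq)

end RANGE_

open RANGE_ in
theorem stmt_RANGE (hDFC : Stmt_DFC) (hMW2 : Stmt_MW2) (hGOODJ : Stmt_GOODJ)
    (hUPPER : Stmt_UPPER) (hNHD : Stmt_NHD) : Stmt_RANGE := by
  intro s C₀ hC hH c ε hc hε n₀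
  by_cases hc1 : 1 < c
  · refine ⟨max n₀ 2, le_max_left _ _, fun k hk1 hk2 => ?_⟩
    exfalso
    have h2 : (1 : ℝ) < ((max n₀ 2 : ℕ) : ℝ) := by
      have : 2 ≤ max n₀ 2 := le_max_right _ _
      exact_mod_cast (by omega : 1 < max n₀ 2)
    have h3 : ((max n₀ 2 : ℕ) : ℝ) < ((max n₀ 2 : ℕ) : ℝ) ^ c := by
      conv_lhs => rw [← Real.rpow_one ((max n₀ 2 : ℕ) : ℝ)]
      exact Real.rpow_lt_rpow_of_exponent_lt h2 hc1
    have h4 : (k : ℝ) ≤ ((max n₀ 2 : ℕ) : ℝ) := by exact_mod_cast hk2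
    linarith
  push Not at hc1
  set ε₁ : ℝ := c * ε / 44 with hε₁
  have hε₁0 : 0 < ε₁ := by positivity
  obtain ⟨q, hq⟩ := exists_nat_ge (max (1 / c) (8 / (c * ε)))
  have hq1 : 1 / c ≤ q := le_trans (le_max_left _ _) hq
  have hq2 : 8 / (c * ε) ≤ q := le_trans (le_max_right _ _) hq
  have hq0 : (0 : ℝ) < q := lt_of_lt_of_le (by positivity) hq1
  have hqc : 4 / (q : ℝ) ≤ c * ε / 2 := by
    rw [div_le_iff₀ hq0]
    rw [div_le_iff₀ (by positivity)] at hq2
    linarith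
  obtain ⟨N₁, hN₁⟩ := grids hDFC hMW2 hC q ε₁ hε₁0
  obtain ⟨K, hK⟩ := hGOODJ s C₀ hC ε₁ hε₁0
  obtain ⟨k₀, hk₀⟩ := hUPPER s C₀ hC ε hε
  -- size of the scale
  have t1 : Tendsto (fun n : ℕ => Real.log (n : ℝ)) atTop atTop :=
    Real.tendsto_log_atTop.comp tendsto_natCast_atTop_atTop
  have t2 : Tendsto (fun n : ℕ => (n : ℝ) ^ c) atTop atTop :=
    (tendsto_rpow_atTop hc).comp tendsto_natCast_atTop_atTop
  obtain ⟨n₁, hn₁⟩ := Filter.eventually_atTop.mp
    ((t1.eventually_ge_atTop (2 * (K + 1) * Real.log 2 / ε₁ + 1)).and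
      (t2.eventually_ge_atTop (k₀ : ℝ)))
  obtain ⟨n, hn, hLn⟩ := hNHD s hC.zero hC.mono hH ε₁ hε₁0
    (max (max (max n₀ n₁) (max N₁ (2 ^ K))) 2)
  have hn0 : n₀ ≤ n := by omega
  have hn1 : n₁ ≤ n := by omega
  have hnN : N₁ ≤ n := by omega
  have hnK : 2 ^ K ≤ n := by
    have := le_trans (le_trans (le_max_right N₁ (2 ^ K)) (le_max_right (max n₀ n₁) _))
      (le_trans (le_max_left _ 2) hn)
    exact this
  have hn2 : 2 ≤ n := by omega
  obtain ⟨j, hj1, hj2, hG1, hG2⟩ := hK (Nat.log 2 n + 1) (by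
    have := (Nat.le_log_iff_pow_le (by norm_num) (by omega)).mpr hnK
    omega)
  set N := 2 ^ j with hN
  have hnlt : n < 2 ^ (Nat.log 2 n + 1) := Nat.lt_pow_succ_log_self (by norm_num) n
  have hnN' : n ≤ N := by
    have h1 : 2 ^ (Nat.log 2 n + 1) ≤ N := Nat.pow_le_pow_right (by norm_num) hj1
    omega
  have hNn : N ≤ 2 ^ (K + 1) * n := by
    have h1 : 2 ^ Nat.log 2 n ≤ n := Nat.pow_log_le_self 2 (by omega)
    calc N ≤ 2 ^ (Nat.log 2 n + 1 + K) := Nat.pow_le_pow_right (by norm_num) hj2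
      _ = 2 ^ (K + 1) * 2 ^ Nat.log 2 n := by rw [← pow_add]; congr 1; omega
      _ ≤ 2 ^ (K + 1) * n := Nat.mul_le_mul_left _ h1
  have hnpos : (0 : ℝ) < n := by exact_mod_cast (by omega : 0 < n)
  have hNpos : (0 : ℝ) < N := by exact_mod_cast (by omega : 0 < N)
  have hlnN : Real.log N ≤ (K + 1) * Real.log 2 + Real.log n := by
    have h1 : (N : ℝ) ≤ 2 ^ (K + 1) * n := by exact_mod_cast hNn
    have h2 := Real.log_le_log hNpos h1
    rw [Real.log_mul (by positivity) hnpos.ne', Real.log_pow] at h2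
    push_cast at h2
    exact h2
  have hln1 := (hn₁ n hn1).1
  have hNn1 := hn₁ N (hn1.trans hnN')
  have hlogn : 0 < Real.log n := by
    have : 0 < Real.log 2 := Real.log_pos (by norm_num)
    have : 0 ≤ 2 * (K + 1) * Real.log 2 / ε₁ := by positivity
    linarith
  have hlogN : 0 < Real.log N := by
    have := Real.log_le_log hnpos (by exact_mod_cast hnN' : (n : ℝ) ≤ N)
    linarith
  have hmonoL : ∀ a b : ℕ, 1 ≤ a → a ≤ b → Lg s a ≤ Lg s b := by
    intro a b ha hab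
    unfold Lg
    apply Real.log_le_log
    · exact_mod_cast hC.pos ha
    · exact_mod_cast hC.mono.monotone hab
  have hLN : (2 - 2 * ε₁) * Real.log N ≤ Lg s N := by
    refine le_trans ?_ (hmonoL n N (by omega) hnN')
    refine le_trans ?_ hLn
    have h1 : 2 * (K + 1) * Real.log 2 ≤ ε₁ * Real.log n := by
      have h2 : 2 * (K + 1) * Real.log 2 / ε₁ ≤ Real.log n := by linarith
      rw [div_le_iff₀ hε₁0] at h2
      linarith
    have h2 : 0 ≤ ε₁ * ((K + 1) * Real.log 2) := by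
      have : 0 < Real.log 2 := Real.log_pos (by norm_num)
      positivity
    have hε₁1 : ε₁ * Real.log n ≤ ε₁ * Real.log N :=
      mul_le_mul_of_nonneg_left (Real.log_le_log hnpos (by exact_mod_cast hnN')) hε₁0.le
    nlinarith
  have hgrid := hN₁ N (hnN.trans hnN') hG1 (by exact_mod_cast hG2) hLN
  refine ⟨N, hn0.trans hnN', fun k hk1 hk2 => ?_⟩
  have hNc0 : (0 : ℝ) < (N : ℝ) ^ c := Real.rpow_pos_of_pos hNpos c
  have hkpos : (0 : ℝ) < k := lt_of_lt_of_le hNc0 hk1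
  have hk1' : 1 ≤ k := by exact_mod_cast hkpos
  have hlk : c * Real.log N ≤ Real.log k := by
    rw [← Real.log_rpow hNpos]
    exact Real.log_le_log hNc0 hk1
  have hlkN : Real.log k ≤ Real.log N := Real.log_le_log hkpos (by exact_mod_cast hk2)
  have hlk0 : 0 < Real.log k := lt_of_lt_of_le (by positivity) hlk
  rw [abs_le]
  constructor
  · -- lower bound
    have hgoal : 2 * Real.log k - ε * Real.log k ≤ Lg s k := by
      set θ := Real.log k / Real.log N with hθ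
      have hθc : c ≤ θ := by rw [hθ, le_div_iff₀ hlogN]; exact hlk
      have hθ1 : θ ≤ 1 := by rw [hθ, div_le_one hlogN]; exact hlkN
      have hkθ : Real.log k = θ * Real.log N := by rw [hθ]; field_simp
      set i := ⌊(q : ℝ) * θ⌋₊ with hi
      have hiθ : (i : ℝ) ≤ q * θ := Nat.floor_le (by positivity)
      have hiθ' : (q : ℝ) * θ < i + 1 := Nat.lt_floor_add_one _
      have hi1 : 1 ≤ i := by
        rw [hi]
        apply Nat.le_floor
        push_cast
        rw [div_le_iff₀ hc] at hq1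
        nlinarith
      by_cases hiq : i < q
      · have h1 := hgrid i hi1 hiq
        have h2 : (N : ℝ) ^ ((i : ℝ) / q) ≤ k := by
          rw [← Real.exp_log hkpos, Real.rpow_def_of_pos hNpos]
          apply Real.exp_le_exp.mpr
          rw [hkθ, mul_comm]
          apply mul_le_mul_of_nonneg_right _ hlogN.le
          rw [div_le_iff₀ hq0]
          linarith
        have h3 : ⌊(N : ℝ) ^ ((i : ℝ) / q)⌋₊ ≤ k := by
          have := Nat.floor_le_floor h2
          rwa [Nat.floor_natCast] at this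
        have h4 : 1 ≤ ⌊(N : ℝ) ^ ((i : ℝ) / q)⌋₊ := by
          apply Nat.le_floor
          push_cast
          apply Real.one_le_rpow _ (by positivity)
          exact_mod_cast (by omega : 1 ≤ N)
        have h5 := hmonoL _ _ h4 h3
        refine le_trans ?_ (h1.trans h5)
        have h6 : θ - 1 / q ≤ (i : ℝ) / q := by
          rw [le_div_iff₀ hq0, sub_mul, div_mul_cancel₀ _ hq0.ne']
          linarith
        have h7 : 2 * θ - ε * θ ≤ 2 * ((i : ℝ) / q) - 3 / (2 * q) - 22 * ε₁ := by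
          have h8 : 4 / (q : ℝ) = 4 * (1 / q) := by ring
          have h9 : 3 / (2 * (q : ℝ)) = 3 / 2 * (1 / q) := by field_simp
          have h10 : c * ε ≤ ε * θ := by rw [mul_comm]; exact mul_le_mul_of_nonneg_left hθc hε.le
          have h11 : 22 * ε₁ = c * ε / 2 := by rw [hε₁]; ring
          have h12 : 0 < 1 / (q : ℝ) := by positivity
          rw [h9, h11]
          rw [h8] at hqc
          linarith
        rw [hkθ]
        calc 2 * (θ * Real.log N) - ε * (θ * Real.log N) = (2 * θ - ε * θ) * Real.log N := by ring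
          _ ≤ _ := mul_le_mul_of_nonneg_right h7 hlogN.le
      · push Not at hiq
        have h1 : (q : ℝ) ≤ i := by exact_mod_cast hiq
        have h2 : 1 ≤ θ := by
          by_contra h3
          push Not at h3
          nlinarith
        have h3 : Real.log N ≤ Real.log k := by
          rw [hkθ]
          nlinarith
        have h4 : (N : ℝ) ≤ k := (Real.log_le_log_iff hNpos hkpos).mp h3
        have h5 : N ≤ k := by exact_mod_cast h4
        have h6 : k = N := le_antisymm hk2 h5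
        rw [h6]
        refine le_trans ?_ hLN
        have h7 : 2 * ε₁ ≤ ε := by
          rw [hε₁]
          nlinarith
        nlinarith
    have : Lg s k = Real.log (s k) := rfl
    linarith
  · have h1 := hk₀ k (by
      have : (k₀ : ℝ) ≤ k := hNn1.2.trans hk1
      exact_mod_cast this)
    have : Lg s k = Real.log (s k) := rfl
    linarith

end Pool.Agent.Work.MP_b29d7f_cvx
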