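import Pool.Agent.Work.MP_b29d7f_cvx.InterfaceC

/-!
# Block RAWEX (4.3 of note 2696): the three zones (helper79)
-/

set_option autoImplicit false

namespace Pool.Agent.Work.MP_b29d7f_cvx

open Finset Filter
open Pool.Agent.Work.MP_b29d7f_half (Ord A wv lD K DK HalfDense)

namespace RAWEX

theorem cc_pos : 0 < cc := by unfold cc; positivity

theorem cc_le : cc ≤ 1 := by unfold cc; norm_num

theorem gam_pos : 0 < gam := by unfold gam; have := cc_pos; positivity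

theorem gam_le : gam ≤ 1 := by unfold gam; have := cc_le; linarith

theorem c0_pos : 0 < c0 := by unfold c0; have := cc_pos; have := gam_pos; positivity

theorem ep_pos : 0 < ep := by unfold ep; have := cc_pos; positivity

theorem floor_half {x : ℝ} (hx : 2 ≤ x) : x / 2 ≤ (⌊x⌋₊ : ℝ) := by
  have := Nat.lt_floor_add_one x
  linarith

/-- all three scales are large -/
theorem scales (N₀ : ℕ) : ∃ n₀ : ℕ, ∀ n : ℕ, n₀ ≤ n →
    N₀ ≤ ⌊(⌊(n : ℝ) ^ gam⌋₊ : ℝ) ^ gam⌋₊ ∧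
    ⌊(⌊(n : ℝ) ^ gam⌋₊ : ℝ) ^ gam⌋₊ ≤ ⌊(n : ℝ) ^ gam⌋₊ ∧ ⌊(n : ℝ) ^ gam⌋₊ ≤ n / 4 ∧
    (n : ℝ) ^ c0 ≤ (⌊(⌊(n : ℝ) ^ gam⌋₊ : ℝ) ^ gam⌋₊ : ℝ) ^ cc := by
  have hg := gam_pos
  have hg1 := gam_le
  have hc := cc_pos
  have hc1 := cc_le
  have t1 : Tendsto (fun n : ℕ => (n : ℝ) ^ (gam * gam)) atTop atTop :=
    (tendsto_rpow_atTop (by positivity)).comp tendsto_natCast_atTop_atTop
  have t2 : Tendsto (fun n : ℕ => (n : ℝ) ^ (gam ^ 2 * cc / 2)) atTop atTop :=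
    (tendsto_rpow_atTop (by positivity)).comp tendsto_natCast_atTop_atTop
  have t3 : Tendsto (fun n : ℕ => (n : ℝ) ^ (1 / 2 : ℝ)) atTop atTop :=
    (tendsto_rpow_atTop (by positivity)).comp tendsto_natCast_atTop_atTop
  have e1 := t1.eventually_ge_atTop (4 * (N₀ : ℝ) + 16)
  have e2 := t2.eventually_ge_atTop 4
  have e3 := t3.eventually_ge_atTop 8
  have e4 := eventually_ge_atTop 1
  obtain ⟨n₀, hn₀⟩ := eventually_atTop.1 (e1.and (e2.and (e3.and e4)))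
  refine ⟨n₀, fun n hn => ?_⟩
  obtain ⟨h1, h2, h3, h4⟩ := hn₀ n hn
  have hn1 : (1 : ℝ) ≤ n := by exact_mod_cast h4
  have hn0 : (0 : ℝ) ≤ n := by linarith
  -- the first scale
  have a1 : (n : ℝ) ^ (gam * gam) ≤ (n : ℝ) ^ gam :=
    Real.rpow_le_rpow_of_exponent_le hn1 (by nlinarith)
  have a2 : (2 : ℝ) ≤ (n : ℝ) ^ gam := by
    have : (0 : ℝ) ≤ N₀ := Nat.cast_nonneg _
    linarith
  have b1 := floor_half a2
  set n₁ := ⌊(n : ℝ) ^ gam⌋₊ with hn₁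
  have hn₁1 : (1 : ℝ) ≤ n₁ := by linarith
  -- the second scale
  have a3 : (n : ℝ) ^ (gam * gam) / 2 ≤ (n₁ : ℝ) ^ gam := by
    calc (n : ℝ) ^ (gam * gam) / 2 ≤ (n : ℝ) ^ (gam * gam) / 2 ^ gam := by
          refine div_le_div_of_nonneg_left (by positivity) (by positivity) ?_
          calc (2 : ℝ) ^ gam ≤ 2 ^ (1 : ℝ) :=
                Real.rpow_le_rpow_of_exponent_le (by norm_num) hg1
            _ = 2 := Real.rpow_one 2
      _ = ((n : ℝ) ^ gam / 2) ^ gam := by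
          rw [Real.div_rpow (by positivity) (by norm_num), ← Real.rpow_mul hn0]
      _ ≤ (n₁ : ℝ) ^ gam := Real.rpow_le_rpow (by positivity) b1 hg.le
  have a4 : (2 : ℝ) ≤ (n₁ : ℝ) ^ gam := by
    have : (0 : ℝ) ≤ N₀ := Nat.cast_nonneg _
    linarith
  have b2 := floor_half a4
  set n₂ := ⌊(n₁ : ℝ) ^ gam⌋₊ with hn₂
  have hlow : (n : ℝ) ^ (gam * gam) / 4 ≤ n₂ := by linarith
  refine ⟨?_, ?_, ?_, ?_⟩
  · have : (N₀ : ℝ) ≤ n₂ := by linarith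
    exact_mod_cast this
  · rw [hn₂]
    refine Nat.floor_le_of_le ?_
    calc (n₁ : ℝ) ^ gam ≤ (n₁ : ℝ) ^ (1 : ℝ) := Real.rpow_le_rpow_of_exponent_le hn₁1 hg1
      _ = n₁ := Real.rpow_one _
  · have c1 : (n₁ : ℝ) ≤ (n : ℝ) ^ (1 / 2 : ℝ) := by
      refine (Nat.floor_le (by positivity)).trans ?_
      refine Real.rpow_le_rpow_of_exponent_le hn1 ?_
      unfold gam
      linarith
    have c2 : (n : ℝ) ^ (1 / 2 : ℝ) * (n : ℝ) ^ (1 / 2 : ℝ) = n := by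
      rw [← Real.rpow_add (by linarith)]; norm_num
    have c3 : 8 * (n : ℝ) ^ (1 / 2 : ℝ) ≤ n :=
      (mul_le_mul_of_nonneg_right h3 (by positivity)).trans c2.le
    have c4 : (4 : ℝ) * n₁ ≤ n := by
      have : 0 ≤ (n : ℝ) ^ (1 / 2 : ℝ) := by positivity
      linarith
    have c5 : 4 * n₁ ≤ n := by exact_mod_cast c4
    omega
  · have hq : (0 : ℝ) ≤ (n : ℝ) ^ (gam * gam) := by positivity
    calc (n : ℝ) ^ c0 ≤ (n : ℝ) ^ (gam ^ 2 * cc / 2) := by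
          refine Real.rpow_le_rpow_of_exponent_le hn1 ?_
          unfold c0
          have h5 : gam ^ 2 * cc ^ 2 ≤ gam ^ 2 * cc := by
            refine mul_le_mul_of_nonneg_left ?_ (by positivity)
            nlinarith
          have h6 : 0 ≤ gam ^ 2 * cc := by positivity
          linarith
      _ = (n : ℝ) ^ (gam ^ 2 * cc / 2) * 1 := (mul_one _).symm
      _ ≤ (n : ℝ) ^ (gam ^ 2 * cc / 2) * ((n : ℝ) ^ (gam ^ 2 * cc / 2) / 4) := by
          refine mul_le_mul_of_nonneg_left ?_ (by positivity)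
          linarith
      _ = (n : ℝ) ^ (gam * gam * cc) / 4 := by
          rw [← mul_div_assoc, ← Real.rpow_add (by linarith)]
          congr 2
          ring
      _ ≤ (n : ℝ) ^ (gam * gam * cc) / 4 ^ cc := by
          refine div_le_div_of_nonneg_left (by positivity) (by positivity) ?_
          calc (4 : ℝ) ^ cc ≤ 4 ^ (1 : ℝ) :=
                Real.rpow_le_rpow_of_exponent_le (by norm_num) hc1
            _ = 4 := Real.rpow_one 4
      _ = ((n : ℝ) ^ (gam * gam) / 4) ^ cc := by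
          rw [Real.div_rpow hq (by norm_num), ← Real.rpow_mul hn0]
      _ ≤ (n₂ : ℝ) ^ cc := Real.rpow_le_rpow (by positivity) hlow hc.le

end RAWEX

open RAWEX in
theorem stmt_RAWEX (hR : Stmt_RANGE) (hZ : Stmt_ZONE) : Stmt_RAWEX := by
  intro s C₀ hs hD n₀
  obtain ⟨N₀, hN₀⟩ := hZ s C₀ hs
  obtain ⟨n₁, hn₁⟩ := scales N₀
  obtain ⟨n, hn, hrng⟩ := hR s C₀ hs hD c0 ep c0_pos ep_pos (max n₀ n₁)
  obtain ⟨h1, h2, h3, h4⟩ := hn₁ n ((le_max_right _ _).trans hn)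
  refine ⟨n, (le_max_left _ _).trans hn, ?_⟩
  have key : ∀ N : ℕ, ⌊(⌊(n : ℝ) ^ gam⌋₊ : ℝ) ^ gam⌋₊ ≤ N → N ≤ n / 4 →
      ∃ (v Z : ℕ) (h : ℤ), ZoneAt s N v Z h := by
    intro N hN hN'
    refine hN₀ N (h1.trans hN) fun k hk hk' => hrng k ?_ (by omega)
    refine h4.trans (le_trans ?_ hk)
    exact Real.rpow_le_rpow (by positivity) (by exact_mod_cast hN) cc_pos.le
  obtain ⟨v, Z, h, hz⟩ := key (n / 4) (h2.trans h3) le_rfl
  obtain ⟨v₁, Z₁, h₁, hz₁⟩ := key _ h2 h3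
  obtain ⟨v₂, Z₂, h₂, hz₂⟩ := key _ le_rfl (h2.trans h3)
  exact ⟨v, Z, v₁, Z₁, v₂, Z₂, h, h₁, h₂, ⟨hrng, hz, hz₁, hz₂⟩⟩

end Pool.Agent.Work.MP_b29d7f_cvx
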