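import Pool.Agent.Work.MP_b29d7f_cvx.MatL

/-!
# Block SQL of MP_b29d7f (convex sets, note 2696, 3.4) (helper23)
-/

namespace Pool.Agent.Work.MP_b29d7f_cvx

open Finset
open Pool.Agent.Work.MP_b29d7f_sep (nv EW EL)

theorem stmt_SQL (hPAD : Stmt_PAD) (hPAE : Stmt_PAE) (hCHAIN : Stmt_CHAIN) (hMAT : Stmt_MAT) :
    Stmt_SQL := by
  classical
  intro s C₀ hs p hp u m H hm12 hflat hH hm hc hW hD g hg1 hg2 hg3
  obtain ⟨PP, hP1, hP2, hP3, hP4, hP5⟩ := MatL_exists hPAD hPAE hCHAIN hMAT s C₀ hs p hp u m H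
    hflat hH hm hc (by omega)
  obtain ⟨hmono, -, -, hF2⟩ := hPAD s C₀ hs p hp
  obtain ⟨hsymm, -, hvl0, -, -, -, hdist⟩ := hPAE s C₀ hs p hp
  have hgj : nv p s g < nv p s (g + 1) := by
    have h1 : om p s g ≠ 0 := hg3
    unfold om at h1
    omega
  have hl : ∀ z ∈ PP, ∀ z' ∈ PP, z.1 < z'.1 → z'.2 - z'.1 + 2 ≤ z.2 - z.1 := by
    intro z hz z' hz' h
    have h1 := hP2 z hz z' hz' h
    have h2 := (hP1 z hz).2.1
    have h3 := (hP1 z' hz').2.1
    omega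
  have hcard : PP.card ≤ m / 2 + 1 :=
    MatL_card PP m 2 (by norm_num) (fun z hz => ⟨(hP1 z hz).2.1, by
      have h1 := (hP1 z hz).1
      have h2 := (hP1 z hz).2.2.1
      omega⟩) hl hP3
  -- pairs with valuation at least two
  let P2 : Finset (ℕ × ℕ) := PP.filter (fun z => 2 ≤ vl p s z.2 z.1)
  have hP2sub : P2 ⊆ PP := filter_subset _ _
  have hP2v : ∀ z ∈ P2, 2 ≤ vl p s z.2 z.1 := fun z hz => (mem_filter.1 hz).2
  -- the two consecutive pairs
  have hkey : ∃ z ∈ P2, ∃ z' ∈ P2, z'.1 = z.1 + 1 ∧ z.2 = z'.2 + 1 := by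
    by_contra hcon
    push Not at hcon
    have hl3 : ∀ z ∈ P2, ∀ z' ∈ P2, z.1 < z'.1 → z'.2 - z'.1 + 3 ≤ z.2 - z.1 := by
      intro z hz z' hz' h
      have h1 := hP2 z (hP2sub hz) z' (hP2sub hz') h
      have h2 := (hP1 z (hP2sub hz)).2.1
      have h3 := (hP1 z' (hP2sub hz')).2.1
      have h4 : z'.1 = z.1 + 1 → z.2 ≠ z'.2 + 1 := fun e => hcon z hz z' hz' e
      by_cases e : z'.1 = z.1 + 1
      · have := h4 e
        omega
      · omega
    have hc3 : P2.card ≤ m / 3 + 1 :=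
      MatL_card P2 m 3 (by norm_num) (fun z hz => ⟨(hP1 z (hP2sub hz)).2.1, by
        have h1 := (hP1 z (hP2sub hz)).1
        have h2 := (hP1 z (hP2sub hz)).2.2.1
        omega⟩) hl3 (fun z hz z' hz' => hP3 z (hP2sub hz) z' (hP2sub hz'))
    -- upper bound for the sum
    obtain ⟨W, hWe⟩ : ∃ W : ℕ, nv p s (u + m) = nv p s u + W := ⟨_, by
      rw [Nat.add_sub_cancel' (show nv p s u ≤ nv p s (u + m) by omega)]⟩
    have hW2 : 2 ≤ W := by omega
    have hWr : ((nv p s (u + m) : ℝ) - nv p s u) = W := by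
      rw [hWe]; push_cast; ring
    rw [hWr] at hP5 hD
    have hsum : (∑ z ∈ PP, (vl p s z.2 z.1 : ℝ)) ≤ (W : ℝ) * P2.card + (PP.card - P2.card) := by
      have h1 : ∀ z ∈ PP, (vl p s z.2 z.1 : ℝ) ≤ 1 + (if 2 ≤ vl p s z.2 z.1 then (W : ℝ) - 1 else 0) := by
        intro z hz
        have h2 := hP4 z hz
        by_cases h3 : 2 ≤ vl p s z.2 z.1
        · rw [if_pos h3]
          have : vl p s z.2 z.1 ≤ W := by omega
          have : (vl p s z.2 z.1 : ℝ) ≤ W := by exact_mod_cast this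
          linarith
        · rw [if_neg h3]
          have : vl p s z.2 z.1 ≤ 1 := by omega
          have : (vl p s z.2 z.1 : ℝ) ≤ 1 := by exact_mod_cast this
          linarith
      refine (sum_le_sum h1).trans ?_
      rw [sum_add_distrib, ← sum_filter, sum_const, sum_const, nsmul_eq_mul, nsmul_eq_mul]
      show (PP.card : ℝ) * 1 + (P2.card : ℝ) * ((W : ℝ) - 1) ≤ _
      apply le_of_eq
      ring
    have hmr : (1000000000000 : ℝ) ≤ m := by
      have h1 : (1000000000000 : ℕ) ≤ m := by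
        have h2 : (10 : ℕ) ^ 12 = 1000000000000 := by norm_num
        omega
      exact_mod_cast h1
    have hc2r : (PP.card : ℝ) ≤ m / 2 + 1 := by
      have h1 : ((m / 2 + 1 : ℕ) : ℝ) ≤ m / 2 + 1 := by
        have := Nat.cast_div_le (α := ℝ) (m := m) (n := 2)
        push_cast at this ⊢
        linarith
      have h2 : (PP.card : ℝ) ≤ ((m / 2 + 1 : ℕ) : ℝ) := by exact_mod_cast hcard
      linarith
    have hc3r : (P2.card : ℝ) ≤ m / 3 + 1 := by
      have h1 : ((m / 3 + 1 : ℕ) : ℝ) ≤ m / 3 + 1 := by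
        have := Nat.cast_div_le (α := ℝ) (m := m) (n := 3)
        push_cast at this ⊢
        linarith
      have h2 : (P2.card : ℝ) ≤ ((m / 3 + 1 : ℕ) : ℝ) := by exact_mod_cast hc3
      linarith
    have hWr2 : (2 : ℝ) ≤ W := by exact_mod_cast hW2
    have hmain : (W : ℝ) * (1 / 2 - 3 / 10 ^ 10) * m - W * m / 4096 ≤
        (W : ℝ) * P2.card + (PP.card - P2.card) := by linarith
    have h5 : (W : ℝ) * P2.card + (PP.card - P2.card) ≤
        (W - 1) * (m / 3 + 1) + (m / 2 + 1) := by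
      have : (W : ℝ) * P2.card + (PP.card - P2.card) = (W - 1) * P2.card + PP.card := by ring
      rw [this]
      have h6 : ((W : ℝ) - 1) * P2.card ≤ (W - 1) * (m / 3 + 1) :=
        mul_le_mul_of_nonneg_left hc3r (by linarith)
      linarith
    have h7 : (W : ℝ) * ((1 / 2 - 3 / 10 ^ 10 - 1 / 4096 - 1 / 3) * m - 1) ≤ m / 6 := by
      have : (W : ℝ) * ((1 / 2 - 3 / 10 ^ 10 - 1 / 4096 - 1 / 3) * m - 1) =
        ((W : ℝ) * (1 / 2 - 3 / 10 ^ 10) * m - W * m / 4096) - W * (m / 3 + 1) := by ring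
      rw [this]
      linarith
    have h8 : (0 : ℝ) ≤ (1 / 2 - 3 / 10 ^ 10 - 1 / 4096 - 1 / 3) * m - 1 := by
      linarith
    have h9 : 2 * ((1 / 2 - 3 / 10 ^ 10 - 1 / 4096 - 1 / 3) * (m : ℝ) - 1) ≤
        (W : ℝ) * ((1 / 2 - 3 / 10 ^ 10 - 1 / 4096 - 1 / 3) * m - 1) :=
      mul_le_mul_of_nonneg_right hWr2 h8
    linarith
  obtain ⟨z, hz, z', hz', e1, e2⟩ := hkey
  obtain ⟨a1, a2, a3, a4, a5, a6⟩ := hP1 z (hP2sub hz)
  obtain ⟨b1, b2, b3, b4, b5, b6⟩ := hP1 z' (hP2sub hz')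
  have hpow : ∀ w ∈ P2, (p : ℤ) ^ 2 ∣ s w.2 - s w.1 := by
    intro w hw
    have h1 := hP2v w hw
    have h2 : (p : ℤ) ^ vl p s w.2 w.1 ∣ s w.2 - s w.1 := pow_multiplicity_dvd _ _
    exact (pow_dvd_pow _ h1).trans h2
  have hd : (p : ℤ) ^ 2 ∣ gp s z'.2 + gp s (z'.1 - 1) := by
    have h1 := dvd_sub (hpow z hz) (hpow z' hz')
    have h2 : s z.2 - s z.1 - (s z'.2 - s z'.1) = gp s z'.2 + gp s (z'.1 - 1) := by
      rw [e1, e2]
      show s (z'.2 + 1) - s z.1 - (s z'.2 - s (z.1 + 1)) =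
        (s (z'.2 + 1) - s z'.2) + (s (z.1 + 1 - 1 + 1) - s (z.1 + 1 - 1))
      rw [Nat.add_sub_cancel]
      ring
    rwa [h2] at h1
  have hig : z'.1 ≤ g := by
    by_contra hcon
    have h1 := hmono (show g + 1 ≤ z'.1 by omega)
    have h2 := hmono hg1
    omega
  have hgj2 : g < z'.2 := by
    by_contra hcon
    have h1 := hmono (show z'.2 ≤ g by omega)
    have h2 := hmono (show g + 1 ≤ u + m by omega)
    omega
  refine ⟨z'.1, z'.2, by omega, hig, hgj2, by omega, hd, ?_⟩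
  have hle : gp s (z'.1 - 1) ≤ gp s z'.2 := hs.gp_mono (by omega)
  refine lt_of_le_of_ne hle (fun he => ?_)
  have hgpi : gp s (z'.1 - 1) = s z'.1 - s z.1 := by
    rw [e1]
    show s (z.1 + 1 - 1 + 1) - s (z.1 + 1 - 1) = _
    rw [Nat.add_sub_cancel]
  refine hdist u z'.1 z.1 z'.1 a1 (by omega) le_rfl b4 ?_
  rw [← hgpi]
  have h3 : (p : ℤ) ∣ 2 * gp s (z'.1 - 1) := by
    have : (p : ℤ) ∣ (p : ℤ) ^ 2 := dvd_pow_self _ (by norm_num)
    have h4 := this.trans hd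
    rw [← he] at h4
    rwa [← two_mul] at h4
  have hpp : Prime (p : ℤ) := Nat.prime_iff_prime_int.1 hp
  rcases hpp.dvd_or_dvd h3 with h5 | h5
  · exfalso
    have h6 := Int.le_of_dvd (by norm_num) h5
    have h7 : (10 : ℕ) ^ 12 < p := by omega
    have h8 : p ≤ 2 := by exact_mod_cast h6
    omega
  · exact h5

end Pool.Agent.Work.MP_b29d7f_cvx
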