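import Pool.Agent.Work.MP_b29d7f_cvx.Interface2

/-!
# Block SQM: the mass of the places with `Sq`
-/

namespace Pool.Agent.Work.MP_b29d7f_cvx

open Finset
open Pool.Agent.Work.MP_b29d7f_nt (IsPOrdering HasSimultaneousOrdering PS vd ld tv)
open Pool.Agent.Work.MP_b29d7f_half (Ord A wv lD HalfDense)
open Pool.Agent.Work.MP_b29d7f_sep (nv EW EL)

/-- one term of the telescoping bound -/
theorem SQM_term {q : ℕ} (hq : 2 ≤ q) :
    Real.log q / (q : ℝ) ^ 2 ≤ 4 * (1 / Real.sqrt ((q : ℝ) - 1) - 1 / Real.sqrt q) := by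
  have hq2 : (2 : ℝ) ≤ q := by exact_mod_cast hq
  have hq0 : (0 : ℝ) < q := by linarith
  set a := Real.sqrt ((q : ℝ) - 1) with ha
  set b := Real.sqrt (q : ℝ) with hb
  have ha2 : a ^ 2 = (q : ℝ) - 1 := Real.sq_sqrt (by linarith)
  have hb2 : b ^ 2 = (q : ℝ) := Real.sq_sqrt hq0.le
  have ha0 : 0 < a := Real.sqrt_pos.2 (by linarith)
  have hb0 : 0 < b := Real.sqrt_pos.2 hq0
  have hab : a ≤ b := Real.sqrt_le_sqrt (by linarith)
  have hlog : Real.log q ≤ 2 * b := by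
    have h1 : Real.log q = 2 * Real.log b := by
      rw [← hb2, Real.log_pow]; push_cast; ring
    have h2 : Real.log b ≤ b - 1 := Real.log_le_sub_one_of_pos hb0
    rw [h1]; linarith
  -- (b - a) (b + a) = 1
  have h3 : (b - a) * (b + a) = 1 := by nlinarith
  have h4 : 1 / a - 1 / b = (b - a) / (a * b) := by field_simp
  have h5 : Real.log q / (q : ℝ) ^ 2 ≤ 2 * b / (q : ℝ) ^ 2 :=
    div_le_div_of_nonneg_right hlog (by positivity)
  refine h5.trans ?_
  rw [h4, ← hb2]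
  have h6 : b - a = 1 / (b + a) := by
    rw [eq_div_iff (by positivity)]; exact h3
  rw [h6]
  have h7 : 2 * b / (b ^ 2) ^ 2 = 2 / b ^ 3 := by field_simp
  have h8 : 4 * (1 / (b + a) / (a * b)) = 4 / ((b + a) * a * b) := by field_simp
  rw [h7, h8, div_le_div_iff₀ (by positivity) (by positivity)]
  have h9 : (b + a) * a * b ≤ 2 * b ^ 3 := by
    have h10 : (b + a) * a ≤ (2 * b) * b := mul_le_mul (by linarith) hab ha0.le (by positivity)
    nlinarith
  linarith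

/-- `∑_{q > P} log q / q^2 ≤ 4 / √P` -/
theorem SQM_sum (P : ℕ) (hP : 1 ≤ P) (T : Finset ℕ) (hT : ∀ q ∈ T, P < q) :
    ∑ q ∈ T, Real.log q / (q : ℝ) ^ 2 ≤ 4 / Real.sqrt P := by
  obtain ⟨B, hPB, hB⟩ : ∃ B : ℕ, P ≤ B ∧ ∀ q ∈ T, q ≤ B :=
    ⟨P + T.sup id, Nat.le_add_right _ _, fun q hq =>
      (Finset.le_sup (f := id) hq).trans (Nat.le_add_left _ _)⟩
  have h0 : ∀ B : ℕ, P ≤ B → ∑ q ∈ Ioc P B, Real.log q / (q : ℝ) ^ 2 ≤
      4 * (1 / Real.sqrt P - 1 / Real.sqrt B) := by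
    intro B hB
    induction B, hB using Nat.le_induction with
    | base => simp
    | succ B hB ih =>
      have h1 : Ioc P (B + 1) = insert (B + 1) (Ioc P B) := by
        ext x; simp only [Finset.mem_insert, Finset.mem_Ioc]; omega
      rw [h1, Finset.sum_insert (by simp)]
      have h2 := SQM_term (q := B + 1) (by omega)
      have h3 : ((B + 1 : ℕ) : ℝ) - 1 = B := by push_cast; ring
      rw [h3] at h2
      linarith
  have hsub : T ⊆ Ioc P B := fun q hq => Finset.mem_Ioc.2 ⟨hT q hq, hB q hq⟩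
  have h1 : ∑ q ∈ T, Real.log q / (q : ℝ) ^ 2 ≤ ∑ q ∈ Ioc P B, Real.log q / (q : ℝ) ^ 2 := by
    refine Finset.sum_le_sum_of_subset_of_nonneg hsub fun q hq _ => ?_
    have : 1 ≤ q := by have := (Finset.mem_Ioc.1 hq).1; omega
    exact div_nonneg (Real.log_nonneg (by exact_mod_cast this)) (by positivity)
  have h2 := h0 B hPB
  have h3 : 0 ≤ 1 / Real.sqrt (B : ℝ) := by positivity
  calc _ ≤ _ := h1
    _ ≤ _ := h2
    _ ≤ 4 * (1 / Real.sqrt P) := by linarith
    _ = 4 / Real.sqrt P := by ring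

theorem SQM_fib (F : Finset ℕ) (n : ℕ) (h : ∀ g ∈ F, ∀ g' ∈ F, g' < g + n) : F.card ≤ n := by
  rcases F.eq_empty_or_nonempty with rfl | hne
  · simp
  · have h1 : F ⊆ Ico (F.min' hne) (F.min' hne + n) := fun g hg =>
      Finset.mem_Ico.2 ⟨F.min'_le g hg, h _ (F.min'_mem hne) g hg⟩
    have h2 := Finset.card_le_card h1
    rw [Nat.card_Ico] at h2
    omega

/-- the number of places with `Sq` -/
theorem SQM_card (s : ℕ → ℤ) (hs : StrictMono s) (hg : Monotone (gp s)) (N m p : ℕ)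
    (hp : 0 < p) (R : Finset ℕ) (hR : ∀ g ∈ R, Sq p s m g ∧ g < N - 2 * m) :
    (R.card : ℝ) ≤ 2 * m * (2 * gp s N / (p : ℝ) ^ 2) := by
  classical
  have hpos : ∀ k, 0 < gp s k := fun k => sub_pos.2 (hs (Nat.lt_succ_self k))
  have hp2 : (0 : ℤ) < (p : ℤ) ^ 2 := by positivity
  choose! i j hi1 hig hgj hji hdvd hlt using fun g hg => (hR g hg).1
  let q : ℕ → ℤ := fun g => (gp s (j g) + gp s (i g - 1)) / (p : ℤ) ^ 2
  have hq : ∀ g ∈ R, gp s (j g) + gp s (i g - 1) = (p : ℤ) ^ 2 * q g := fun g hg =>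
    (Int.mul_ediv_cancel' (hdvd g hg)).symm
  have hle : ∀ g ∈ R, gp s (j g) ≤ gp s N ∧ gp s (i g - 1) ≤ gp s N := by
    intro g hg'
    have h1 := (hR g hg').2
    have h2 := hig g hg'
    have h3 := hji g hg'
    exact ⟨hg (by omega), hg (by omega)⟩
  have hmap : ∀ g ∈ R, q g ∈ Finset.Icc (1 : ℤ) (2 * gp s N / (p : ℤ) ^ 2) := by
    intro g hg'
    have h1 := hq g hg'
    have h2 := hle g hg'
    have h3 := hpos (j g)
    have h4 := hpos (i g - 1)
    rw [Finset.mem_Icc]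
    constructor
    · by_contra hc
      have h5 : q g ≤ 0 := by omega
      have h6 : (p : ℤ) ^ 2 * q g ≤ 0 := mul_nonpos_of_nonneg_of_nonpos hp2.le h5
      omega
    · rw [Int.le_ediv_iff_mul_le hp2, mul_comm]
      omega
  have hfib : ∀ b ∈ Finset.Icc (1 : ℤ) (2 * gp s N / (p : ℤ) ^ 2),
      (R.filter fun g => q g = b).card ≤ 2 * m := by
    intro b _
    refine SQM_fib _ _ fun g hg1 g' hg2 => ?_
    rw [Finset.mem_filter] at hg1 hg2
    obtain ⟨hgR, hgb⟩ := hg1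
    obtain ⟨hgR', hgb'⟩ := hg2
    have e1 := hq g hgR
    have e2 := hq g' hgR'
    rw [hgb] at e1
    rw [hgb'] at e2
    have l1 := hlt g hgR
    have l2 := hlt g' hgR'
    -- i g' - 1 < j g
    have h1 : i g' - 1 < j g := by
      by_contra hc
      have h2 : gp s (j g) ≤ gp s (i g' - 1) := hg (by omega)
      omega
    have a1 := hig g hgR
    have a3 := hji g hgR
    have a4 := hgj g' hgR'
    have a5 := hji g' hgR'
    have a6 := hi1 g' hgR'
    omega
  have hcard := Finset.card_le_mul_card_image_of_maps_to hmap (2 * m) hfib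
  have hG : (0 : ℤ) ≤ 2 * gp s N / (p : ℤ) ^ 2 :=
    Int.ediv_nonneg (by have := hpos N; omega) hp2.le
  have hcI : ((Finset.Icc (1 : ℤ) (2 * gp s N / (p : ℤ) ^ 2)).card : ℝ) ≤
      2 * gp s N / (p : ℝ) ^ 2 := by
    rw [Int.card_Icc]
    have h1 : (((2 * gp s N / (p : ℤ) ^ 2 + 1 - 1).toNat : ℕ) : ℤ) = 2 * gp s N / (p : ℤ) ^ 2 := by
      rw [Int.toNat_of_nonneg (by omega)]; ring
    have h2 : (((2 * gp s N / (p : ℤ) ^ 2 + 1 - 1).toNat : ℕ) : ℝ) =
        ((2 * gp s N / (p : ℤ) ^ 2 : ℤ) : ℝ) := by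
      have h4 := congrArg (fun z : ℤ => (z : ℝ)) h1
      simpa only [Int.cast_natCast] using h4
    rw [h2, le_div_iff₀ (by positivity)]
    have h3 : 2 * gp s N / (p : ℤ) ^ 2 * (p : ℤ) ^ 2 ≤ 2 * gp s N :=
      Int.ediv_mul_le _ hp2.ne'
    exact_mod_cast h3
  calc (R.card : ℝ) ≤ ((2 * m * (Finset.Icc (1 : ℤ) (2 * gp s N / (p : ℤ) ^ 2)).card : ℕ) : ℝ) := by
        exact_mod_cast hcard
    _ = 2 * m * ((Finset.Icc (1 : ℤ) (2 * gp s N / (p : ℤ) ^ 2)).card : ℝ) := by push_cast; ring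
    _ ≤ _ := mul_le_mul_of_nonneg_left hcI (by positivity)

theorem stmt_SQM : Stmt_SQM := by
  intro s C₀ N M P m J H hz R hR
  have hs := hz.cvx.mono
  have hg := hz.cvx.gp_mono
  have hpos : ∀ k, 0 < gp s k := fun k => sub_pos.2 (hs (Nat.lt_succ_self k))
  have hm := hz.m_big
  have hmM := hz.m_le
  have hMP := hz.M_P
  have hP1 : 1 ≤ P := by omega
  have hG0 : (0 : ℝ) < gp s N := by exact_mod_cast hpos N
  have hom : ∀ p ∈ PG s N M P, ∀ g ∈ R p, (om p s g : ℝ) ≤ J := by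
    intro p hp g hgR
    have h1 := (hR p hp g hgR).2
    have h2 := hz.jump p hp g (g + 1) (by omega) (by omega) (by omega)
    have h3 : om p s g ≤ J := by unfold om; omega
    exact_mod_cast h3
  have hterm : ∀ p ∈ PG s N M P, Real.log p * ∑ g ∈ R p, (om p s g : ℝ) ≤
      (4 * m * J * gp s N) * (Real.log p / (p : ℝ) ^ 2) := by
    intro p hp
    have hpp := (hz.prime p hp).1
    have hlog : 0 ≤ Real.log (p : ℝ) := Real.log_nonneg (by exact_mod_cast hpp.one_lt.le)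
    have h1 : ∑ g ∈ R p, (om p s g : ℝ) ≤ (R p).card * J := by
      have := Finset.sum_le_card_nsmul (R p) (fun g => (om p s g : ℝ)) J (hom p hp)
      rwa [nsmul_eq_mul] at this
    have h2 := SQM_card s hs hg N m p hpp.pos (R p) (hR p hp)
    have hJ : (0 : ℝ) ≤ J := Nat.cast_nonneg _
    have h3 : ∑ g ∈ R p, (om p s g : ℝ) ≤ 2 * m * (2 * gp s N / (p : ℝ) ^ 2) * J :=
      h1.trans (mul_le_mul_of_nonneg_right h2 hJ)
    calc _ ≤ Real.log p * (2 * m * (2 * gp s N / (p : ℝ) ^ 2) * J) :=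
          mul_le_mul_of_nonneg_left h3 hlog
      _ = _ := by ring
  have hsum := SQM_sum P hP1 (PG s N M P) fun q hq => (hz.prime q hq).2
  have hsq : 0 < Real.sqrt (P : ℝ) := Real.sqrt_pos.2 (by exact_mod_cast hP1)
  calc _ ≤ ∑ p ∈ PG s N M P, (4 * m * J * gp s N) * (Real.log p / (p : ℝ) ^ 2) :=
        Finset.sum_le_sum hterm
    _ = (4 * m * J * gp s N) * ∑ p ∈ PG s N M P, Real.log p / (p : ℝ) ^ 2 := by
        rw [← Finset.mul_sum]
    _ ≤ (4 * m * J * gp s N) * (4 / Real.sqrt P) :=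
        mul_le_mul_of_nonneg_left hsum (by positivity)
    _ ≤ 1 / 10 ^ 20 * N := by
        have h1 := hz.sq
        have h2 : (4 * (m : ℝ) * J * gp s N) * (4 / Real.sqrt P) =
            (16 * m * J * gp s N) / Real.sqrt P := by ring
        rw [h2, div_le_iff₀ hsq]
        have h3 : 0 ≤ (m : ℝ) * J * gp s N := by positivity
        nlinarith

end Pool.Agent.Work.MP_b29d7f_cvx
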