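import Pool.Agent.Work.MP_b29d7f_cvx.InterfaceC

/-! # Block STR -/

namespace Pool.Agent.Work.MP_b29d7f_cvx

theorem STR_two_mul_tri (x : ℤ) : 2 * (x * (x + 1) / 2) = x * (x + 1) := by
  have h : (2 : ℤ) ∣ x * (x + 1) := by
    rcases Int.even_or_odd x with ⟨m, hm⟩ | ⟨m, hm⟩
    · exact ⟨m * (x + 1), by rw [hm]; ring⟩
    · exact ⟨x * (m + 1), by rw [hm]; ring⟩
  omega

theorem stmt_STR : Stmt_STR := by
  intro a g h h1 hg hd
  obtain ⟨q, hq⟩ := hd
  have hh : 0 < h := by omega
  have hq2 : 2 ≤ q := by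
    by_contra hc
    have : q ≤ 1 := by omega
    have h2 : h * q ≤ h * 1 := mul_le_mul_of_nonneg_left this hh.le
    omega
  rcases Int.even_or_odd q with ⟨m, hm⟩ | ⟨m, hm⟩
  · -- q even
    have hgm : g = h * m := by
      have : 2 * g = 2 * (h * m) := by rw [hq, hm]; ring
      omega
    have hm1 : 1 ≤ m := by omega
    refine ⟨2, a - h * ((m - 1) * (m - 1 + 1) / 2), h, m - 1, Or.inr rfl, h1, le_refl _, by omega, ?_, ?_⟩
    · have e := STR_two_mul_tri (m - 1)
      have e2 : 8 * h * (a - h * ((m - 1) * (m - 1 + 1) / 2)) = Ev a g h + h ^ 2 := by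
        unfold Ev
        rw [hgm]
        linear_combination (-4 * h ^ 2) * e
      rw [e2]
    · intro t
      have e := STR_two_mul_tri (m - 1)
      have e1 := STR_two_mul_tri (m - 1 + t)
      have e2 := two_mul_Fq a g h t
      have e3 : 2 * Fq a g h t = 2 * Tt 2 (a - h * ((m - 1) * (m - 1 + 1) / 2)) h (m - 1 + t) := by
        have e4 : Tt 2 (a - h * ((m - 1) * (m - 1 + 1) / 2)) h (m - 1 + t)
            = (a - h * ((m - 1) * (m - 1 + 1) / 2)) + h * ((m - 1 + t) * (m - 1 + t + 1) / 2) := by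
          simp [Tt]
        rw [e4, e2, hgm]
        linear_combination h * e - h * e1
      omega
  · -- q odd
    have hhe : (2 : ℤ) ∣ h := by
      have : h * q = 2 * g := hq.symm
      rw [hm] at this
      exact ⟨g - h * m, by linear_combination this⟩
    obtain ⟨b, hb⟩ := hhe
    have hb1 : 1 ≤ b := by omega
    have hgm : g = b * (2 * m + 1) := by
      have : 2 * g = 2 * (b * (2 * m + 1)) := by rw [hq, hm, hb]; ring
      omega
    refine ⟨1, a - b * m ^ 2, b, m, Or.inl rfl, hb1, by omega, by omega, ?_, ?_⟩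
    · have e2 : 8 * h * (a - b * m ^ 2) = Ev a g h := by
        unfold Ev
        rw [hgm, hb]
        ring
      rw [e2]
      nlinarith [sq_nonneg h]
    · intro t
      have e2 := two_mul_Fq a g h t
      have e3 : 2 * Fq a g h t = 2 * Tt 1 (a - b * m ^ 2) b (m + t) := by
        have e4 : Tt 1 (a - b * m ^ 2) b (m + t) = (a - b * m ^ 2) + b * (m + t) ^ 2 := by
          simp [Tt]
        rw [e4, e2, hgm, hb]
        ring
      omega

end Pool.Agent.Work.MP_b29d7f_cvx
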