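import Pool.Agent.Work.MP_b29d7f_cvx.Interface

/-!
# Block SUPER: `w(k) + w(l) ≤ w(k + l)`

The polynomial `N_k N_l` is expanded in the basis of the `N_i` (Newton); all the terms of the
expansion are divisible by `p ^ (w(k) + w(l))` on the set.
-/

namespace Pool.Agent.Work.MP_b29d7f_cvx

open Finset
open Pool.Agent.Work.MP_b29d7f_nt (IsPOrdering HasSimultaneousOrdering PS vd ld tv V V_ne_zero wp
  pow_wp_dvd)
open Pool.Agent.Work.MP_b29d7f_half (Ord A wv lD HalfDense wp_eq_sum)
open Pool.Agent.Work.MP_b29d7f_sep (nv EW EL)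

theorem nv_eq_wp {s : ℕ → ℤ} {C₀ : ℝ} (h : Cvx s C₀) {p : ℕ} (hp : p.Prime) (k : ℕ) :
    nv p s k = wp p s k := by
  have h1 := wp_eq_sum h.ord.inf hp (h.ord.ord p hp) k
  unfold vd at h1
  unfold nv
  exact_mod_cast h1.symm

theorem super_aux {S : Set ℤ} {a : ℕ → ℤ} {p : ℕ} (hp : p.Prime) (ha : IsPOrdering S p a)
    (W : ℕ) : ∀ (n : ℕ) (f : Polynomial ℤ), f.natDegree ≤ n →
      (∀ j ≤ n, (p : ℤ) ^ W ∣ f.eval (a j)) →
      (p : ℤ) ^ W ∣ f.coeff n * V a n (a n) ∧ ∀ x ∈ S, (p : ℤ) ^ W ∣ f.eval x := by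
  have hpz : Prime (p : ℤ) := Nat.prime_iff_prime_int.mp hp
  intro n
  induction n with
  | zero =>
    intro f hf h
    have hc : f = Polynomial.C (f.coeff 0) := Polynomial.eq_C_of_natDegree_le_zero hf
    have h0 := h 0 le_rfl
    rw [hc, Polynomial.eval_C] at h0
    refine ⟨?_, fun x _ => ?_⟩
    · unfold V
      simpa using h0
    · rw [hc, Polynomial.eval_C]
      exact h0
  | succ n ih =>
    intro f hf h
    set c := f.coeff (n + 1) with hc
    set N : Polynomial ℤ := ∏ i ∈ range (n + 1), (Polynomial.X - Polynomial.C (a i)) with hN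
    have hNm : N.Monic := Polynomial.monic_prod_of_monic _ _ fun i _ => Polynomial.monic_X_sub_C _
    have hNd : N.natDegree = n + 1 := by
      rw [hN, Polynomial.natDegree_prod_of_monic _ _ fun i _ => Polynomial.monic_X_sub_C _,
        Finset.sum_congr rfl fun i _ => Polynomial.natDegree_X_sub_C (a i)]
      simp
    have hNe : ∀ x, N.eval x = V a (n + 1) x := by
      intro x
      rw [hN, Polynomial.eval_prod]
      unfold V
      refine Finset.prod_congr rfl fun i _ => ?_
      simp
    set g := f - Polynomial.C c * N with hg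
    have hgd : g.natDegree ≤ n := by
      rw [Polynomial.natDegree_le_iff_coeff_eq_zero]
      intro m hm
      rw [hg, Polynomial.coeff_sub, Polynomial.coeff_C_mul]
      rcases Nat.lt_or_ge (n + 1) m with h1 | h1
      · rw [Polynomial.coeff_eq_zero_of_natDegree_lt (by omega : f.natDegree < m),
          Polynomial.coeff_eq_zero_of_natDegree_lt (by omega : N.natDegree < m)]
        ring
      · have hm1 : m = n + 1 := by omega
        subst hm1
        have h2 : N.coeff (n + 1) = 1 := by
          have := hNm.coeff_natDegree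
          rwa [hNd] at this
        rw [h2, ← hc]
        ring
    have hge : ∀ x, g.eval x = f.eval x - c * V a (n + 1) x := by
      intro x
      rw [hg, Polynomial.eval_sub, Polynomial.eval_mul, Polynomial.eval_C, hNe]
    obtain ⟨-, h2⟩ := ih g hgd (by
      intro j hj
      rw [hge]
      have h0 : V a (n + 1) (a j) = 0 := by
        unfold V
        exact Finset.prod_eq_zero (Finset.mem_range.mpr (by omega : j < n + 1)) (sub_self _)
      rw [h0, mul_zero, sub_zero]
      exact h j (by omega))
    have h3 : (p : ℤ) ^ W ∣ c * V a (n + 1) (a (n + 1)) := by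
      have e1 := h2 (a (n + 1)) (ha.1 (n + 1))
      rw [hge] at e1
      have e2 := h (n + 1) le_rfl
      have e3 := dvd_sub e2 e1
      rwa [sub_sub_cancel] at e3
    refine ⟨h3, fun x hx => ?_⟩
    have h4 : (p : ℤ) ^ W ∣ c * V a (n + 1) x := by
      rw [pow_dvd_iff_le_emultiplicity, emultiplicity_mul hpz] at h3 ⊢
      refine h3.trans ?_
      gcongr
      exact ha.2 (n + 1) x hx
    have e1 := h2 x hx
    rw [hge] at e1
    have := dvd_add e1 h4
    rwa [sub_add_cancel] at this

/-- **SUPER** -/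
theorem stmt_SUPER (_ : Stmt_PAD) : Stmt_SUPER := by
  intro s C₀ hs p hp k l
  have hS := hs.ord.inf
  have ha := hs.ord.ord p hp
  rw [nv_eq_wp hs hp, nv_eq_wp hs hp, nv_eq_wp hs hp]
  set Nf : ℕ → Polynomial ℤ := fun k => ∏ i ∈ range k, (Polynomial.X - Polynomial.C (s i)) with hN
  have hmon : ∀ k, (Nf k).Monic := fun k =>
    Polynomial.monic_prod_of_monic _ _ fun i _ => Polynomial.monic_X_sub_C _
  have hdeg : ∀ k, (Nf k).natDegree = k := by
    intro k
    rw [hN]
    simp only
    rw [Polynomial.natDegree_prod_of_monic _ _ fun i _ => Polynomial.monic_X_sub_C _,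
      Finset.sum_congr rfl fun i _ => Polynomial.natDegree_X_sub_C (s i)]
    simp
  have heval : ∀ k x, (Nf k).eval x = V s k x := by
    intro k x
    rw [hN]
    simp only
    rw [Polynomial.eval_prod]
    unfold V
    refine Finset.prod_congr rfl fun i _ => ?_
    simp
  have hm : (Nf k * Nf l).Monic := (hmon k).mul (hmon l)
  have hd : (Nf k * Nf l).natDegree = k + l := by
    rw [(hmon k).natDegree_mul (hmon l), hdeg, hdeg]
  have hc : (Nf k * Nf l).coeff (k + l) = 1 := by
    have := hm.coeff_natDegree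
    rwa [hd] at this
  have h := (super_aux hp ha (wp p s k + wp p s l) (k + l) (Nf k * Nf l) hd.le (by
    intro j _
    rw [Polynomial.eval_mul, heval, heval, pow_add]
    exact mul_dvd_mul (pow_wp_dvd hS hp ha k (s j) ⟨j, rfl⟩)
      (pow_wp_dvd hS hp ha l (s j) ⟨j, rfl⟩))).1
  rw [hc, one_mul] at h
  have hne := V_ne_zero hS hp ha (k + l)
  have hfin : FiniteMultiplicity (p : ℤ) (V s (k + l) (s (k + l))) := by
    rw [Int.finiteMultiplicity_iff]
    exact ⟨by simpa using hp.ne_one, hne⟩
  exact hfin.le_multiplicity_of_pow_dvd h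

end Pool.Agent.Work.MP_b29d7f_cvx
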