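import Pool.Agent.Work.MP_b29d7f_cvx.InterfaceC

/-!
# Block TAIL: the tail is the quadratic sequence
-/

namespace Pool.Agent.Work.MP_b29d7f_cvx

open Finset

namespace BTAIL

theorem two_mul_tri' (t : ℤ) : 2 * (t * (t + 1) / 2) = t * (t + 1) := by
  have h := two_mul_tri (t + 1)
  have e : (t + 1) * (t + 1 - 1) = t * (t + 1) := by ring
  rw [e] at h
  exact h

theorem Tt_one (X b x : ℤ) : Tt 1 X b x = X + b * x ^ 2 := by
  unfold Tt
  simp

theorem two_mul_Tt_two (X b x : ℤ) : 2 * Tt 2 X b x = 2 * X + b * (x * (x + 1)) := by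
  unfold Tt
  rw [if_neg (by norm_num)]
  linear_combination b * two_mul_tri' x

theorem Tt_one_succ (X b x : ℤ) : Tt 1 X b (x + 1) - Tt 1 X b x = b * (2 * x + 1) := by
  rw [Tt_one, Tt_one]
  ring

theorem Tt_two_succ (X b x : ℤ) : Tt 2 X b (x + 1) - Tt 2 X b x = b * (x + 1) := by
  have h1 := two_mul_Tt_two X b x
  have h2 := two_mul_Tt_two X b (x + 1)
  have h3 : 2 * (Tt 2 X b (x + 1) - Tt 2 X b x) = 2 * (b * (x + 1)) := by
    linear_combination h2 - h1
  omega

/-- the steps are positive and grow slowly -/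
theorem step {κ : ℕ} (hκ : κ = 1 ∨ κ = 2) (X : ℤ) {b : ℤ} (hb : 1 ≤ b) {y : ℤ} (hy : 2 ≤ y) :
    0 < Tt κ X b (y + 1) - Tt κ X b y ∧
    Tt κ X b (y + 1) - Tt κ X b y < 2 * (Tt κ X b y - Tt κ X b (y - 1)) := by
  rcases hκ with rfl | rfl
  · have h1 := Tt_one_succ X b y
    have h2 := Tt_one_succ X b (y - 1)
    rw [show y - 1 + 1 = y by ring] at h2
    rw [h1, h2]
    constructor <;> nlinarith
  · have h1 := Tt_two_succ X b y
    have h2 := Tt_two_succ X b (y - 1)
    rw [show y - 1 + 1 = y by ring] at h2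
    rw [h1, h2]
    constructor <;> nlinarith

end BTAIL

open BTAIL in
theorem stmt_TAIL : Stmt_TAIL := by
  intro s C₀ hs κ X b hκ hb hmem v x₀ hx₀ h0 h1
  have key : ∀ t : ℕ, s (v + t) = Tt κ X b (x₀ + t) ∧
      s (v + t + 1) = Tt κ X b ((x₀ + t : ℤ) + 1) := by
    intro t
    induction t with
    | zero => exact ⟨by simpa using h0, by simpa using h1⟩
    | succ t ih =>
      obtain ⟨ih0, ih1⟩ := ih
      have e1 : ((x₀ : ℤ) + ((t + 1 : ℕ) : ℤ)) = (x₀ : ℤ) + t + 1 := by push_cast; ring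
      rw [e1]
      refine ⟨ih1, ?_⟩
      obtain ⟨i, hi⟩ := hmem (x₀ + t + 2)
      have e2 : (((x₀ + t + 2 : ℕ) : ℤ)) = (x₀ : ℤ) + t + 1 + 1 := by push_cast; ring
      rw [e2] at hi
      have hy : (2 : ℤ) ≤ (x₀ : ℤ) + t + 1 := by
        have : (2 : ℤ) ≤ x₀ := by exact_mod_cast hx₀
        omega
      obtain ⟨hs1, hs2⟩ := step hκ X hb hy
      rw [show (x₀ : ℤ) + t + 1 - 1 = (x₀ : ℤ) + t by ring, ← ih0, ← ih1, ← hi] at hs2
      rw [← ih1, ← hi] at hs1
      have hgt : v + t + 1 < i := by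
        by_contra hle
        push Not at hle
        have := hs.mono.monotone hle
        omega
      have hle : i ≤ v + t + 2 := by
        by_contra hlt
        push Not at hlt
        have h3 : s (v + t + 3) ≤ s i := hs.mono.monotone (by omega)
        have c1 := hs.conv (v + t)
        have c2 := hs.conv (v + t + 1)
        rw [show v + t + 1 + 1 = v + t + 2 by ring, show v + t + 1 + 2 = v + t + 3 by ring] at c2
        linarith
      have hi' : i = v + (t + 1) + 1 := by omega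
      rw [← hi', hi]
  intro t
  exact (key t).1

end Pool.Agent.Work.MP_b29d7f_cvx
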