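import Pool.Agent.Work.MP_b29d7f_cvx.Interface

/-!
# Block TRANS of the convex classification (helper16)
-/

namespace Pool.Agent.Work.MP_b29d7f_cvx

open Finset
open Pool.Agent.Work.MP_b29d7f_half (lD)
open Pool.Agent.Work.MP_b29d7f_sep (nv EW EL)

namespace TRANSaux

/-- the defect -/
noncomputable def dft (p : ℕ) (s : ℕ → ℤ) (k i : ℕ) : ℝ :=
  (nv p s k : ℝ) - ∑ l ∈ (range k).erase i, (vl p s i l : ℝ)

theorem swap (p : ℕ) (s : ℕ → ℤ) (hsym : ∀ i j : ℕ, vl p s i j = vl p s j i) (N P' : ℕ) :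
    ∑ j ∈ range P', ∑ i ∈ (range N).erase j, (vl p s j i : ℝ) =
      ∑ i ∈ range N, ∑ j ∈ (range P').erase i, (vl p s i j : ℝ) := by
  refine sum_comm' (fun j i => ?_) |>.trans (sum_congr rfl fun i _ => sum_congr rfl fun j _ => ?_)
  · simp only [mem_erase, mem_range]
    constructor
    · rintro ⟨h1, h2, h3⟩
      exact ⟨⟨fun h => h2 h.symm, h1⟩, h3⟩
    · rintro ⟨⟨h1, h2⟩, h3⟩
      exact ⟨h2, fun h => h1 h.symm, h3⟩
  · rw [hsym]

end TRANSaux

open TRANSaux in
theorem stmt_TRANS (hENT : Stmt_ENT) (hPAD : Stmt_PAD) (hPAE : Stmt_PAE) (hVLM : Stmt_VLM)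
    (hPRF : Stmt_PRF) (hDEFL : Stmt_DEFL) : Stmt_TRANS := by
  intro s C₀ hs N P P' hP hPP' hPN
  obtain ⟨hprime, -, hlD, -, -⟩ := hPRF s C₀ hs (2 * N)
  have hPA : ∀ p ∈ PA s N P, p.Prime := fun p hp => hprime p (mem_PA.1 hp).1
  have hsub : PA s N P ⊆ PR s (2 * N) := fun p hp => (mem_PA.1 hp).1
  have hlog : ∀ p : ℕ, 0 ≤ Real.log p := fun p => Real.log_natCast_nonneg p
  have hLN : 0 ≤ Lg s N := (hENT s C₀ hs N).2.2
  -- pointwise inequality
  have key : ∀ p ∈ PA s N P, (P' : ℝ) * (Real.log p * nv p s N) ≤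
      N * (Real.log p * nv p s P') + N * Lg s N + ∑ j ∈ range P', Real.log p * dft p s N j := by
    intro p hp
    have hpp := hPA p hp
    obtain ⟨hmono, h0, hF1, hF2⟩ := hPAD s C₀ hs p hpp
    obtain ⟨hsym, -⟩ := hPAE s C₀ hs p hpp
    have hp1 : (1 : ℝ) ≤ p := by exact_mod_cast hpp.one_lt.le
    -- inner sums
    have hin : ∀ i ∈ range N, Real.log p * ∑ j ∈ (range P').erase i, (vl p s i j : ℝ) ≤
        Real.log p * nv p s P' + Lg s N := by
      intro i hi
      rw [mem_range] at hi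
      rcases lt_or_ge i P' with h | h
      · have h1 := hF2 0 (P' - 1) i (Nat.zero_le _) (by omega)
        have h2 : Icc 0 (P' - 1) = range P' := by
          ext x
          simp only [mem_Icc, mem_range]
          omega
        rw [h2, h0, zero_add] at h1
        have h3 : ∑ j ∈ (range P').erase i, (vl p s i j : ℝ) ≤ nv p s P' := by
          exact_mod_cast h1.trans (hmono (by omega))
        have := mul_le_mul_of_nonneg_left h3 (hlog p)
        linarith
      · obtain ⟨V, hV1, hV2⟩ := hVLM s C₀ hs p hpp P' i h (by omega)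
        have h1 : (range P').erase i = range P' := erase_eq_of_notMem (by simp; omega)
        rw [h1]
        have h3 : ∑ j ∈ range P', (vl p s i j : ℝ) ≤ nv p s P' + V := by exact_mod_cast hV2
        have h4 : Real.log p * V ≤ Lg s N := by
          have h5 : ((p : ℝ)) ^ V ≤ (s i : ℝ) := by exact_mod_cast hV1
          have h6 : (s i : ℝ) ≤ (s N : ℝ) := by
            exact_mod_cast hs.mono.monotone (by omega : i ≤ N)
          have h7 : (0 : ℝ) < (p : ℝ) ^ V := by positivity
          have h8 := Real.log_le_log h7 (h5.trans h6)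
          rw [Real.log_pow] at h8
          unfold Lg
          linarith
        have := mul_le_mul_of_nonneg_left h3 (hlog p)
        linarith
    have hX : Real.log p * ∑ j ∈ range P', ∑ i ∈ (range N).erase j, (vl p s j i : ℝ) ≤
        N * (Real.log p * nv p s P') + N * Lg s N := by
      rw [swap p s hsym N P', mul_sum]
      refine (sum_le_sum hin).trans (le_of_eq ?_)
      rw [sum_const, card_range, nsmul_eq_mul]
      ring
    have hY : (P' : ℝ) * (Real.log p * nv p s N) =
        Real.log p * ∑ j ∈ range P', ∑ i ∈ (range N).erase j, (vl p s j i : ℝ) +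
          ∑ j ∈ range P', Real.log p * dft p s N j := by
      unfold dft
      rw [← mul_sum, ← mul_add, ← sum_add_distrib]
      simp only [add_sub_cancel]
      rw [sum_const, card_range, nsmul_eq_mul]
      ring
    linarith
  have hsum := sum_le_sum key
  rw [← mul_sum, sum_add_distrib, sum_add_distrib, ← mul_sum, sum_const, nsmul_eq_mul,
    sum_comm] at hsum
  -- the three terms
  have t1 : ∑ p ∈ PA s N P, Real.log p * (nv p s P' : ℝ) ≤ P' * Lg s P' := by
    have h1 := hlD P' (by omega)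
    have h2 : ∑ p ∈ PA s N P, Real.log p * (nv p s P' : ℝ) ≤ lD s P' := by
      rw [h1]
      exact sum_le_sum_of_subset_of_nonneg hsub fun p _ _ =>
        mul_nonneg (hlog p) (Nat.cast_nonneg _)
    exact h2.trans (hENT s C₀ hs P').2.1
  have t2 : ((PA s N P).card : ℝ) ≤ 3 / 2 * P * Lg s P := by
    have h1 := hlD P (by omega)
    have h2 : ∑ p ∈ PA s N P, Real.log p * (nv p s P : ℝ) ≤ lD s P := by
      rw [h1]
      exact sum_le_sum_of_subset_of_nonneg hsub fun p _ _ =>
        mul_nonneg (hlog p) (Nat.cast_nonneg _)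
    have h3 : ((PA s N P).card : ℝ) * Real.log 2 ≤
        ∑ p ∈ PA s N P, Real.log p * (nv p s P : ℝ) := by
      rw [← nsmul_eq_mul]
      refine card_nsmul_le_sum _ _ _ fun p hp => ?_
      have hpp := hPA p hp
      have h4 : Real.log 2 ≤ Real.log p :=
        Real.log_le_log (by norm_num) (by exact_mod_cast hpp.two_le)
      have h5 : (1 : ℝ) ≤ nv p s P := by exact_mod_cast (mem_PA.1 hp).2
      calc Real.log 2 ≤ Real.log p := h4
        _ = Real.log p * 1 := (mul_one _).symm
        _ ≤ Real.log p * nv p s P := mul_le_mul_of_nonneg_left h5 (hlog p)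
    have h6 := h3.trans (h2.trans (hENT s C₀ hs P).2.1)
    have h7 : (2 / 3 : ℝ) ≤ Real.log 2 := by
      have := Real.log_two_gt_d9
      linarith
    have h8 : ((PA s N P).card : ℝ) * (2 / 3) ≤ ((PA s N P).card : ℝ) * Real.log 2 :=
      mul_le_mul_of_nonneg_left h7 (Nat.cast_nonneg _)
    linarith
  have t3 : ∑ j ∈ range P', ∑ p ∈ PA s N P, Real.log p * dft p s N j ≤
      P' * (GG s N + N * Real.log 2 + (2 * P' + 1) * Lg s N) := by
    have h1 : ∀ j ∈ range P', ∑ p ∈ PA s N P, Real.log p * dft p s N j ≤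
        GG s N + N * Real.log 2 + (2 * P' + 1) * Lg s N := by
      intro j hj
      rw [mem_range] at hj
      have h2 := (hDEFL s C₀ hs j N (by omega) (by omega)).2 (PA s N P) hPA
      refine h2.trans ?_
      have h3 : (2 * (j : ℝ) + 1) * Lg s N ≤ (2 * P' + 1) * Lg s N := by
        apply mul_le_mul_of_nonneg_right _ hLN
        have : (j : ℝ) ≤ P' := by exact_mod_cast hj.le
        linarith
      linarith
    refine (sum_le_sum h1).trans (le_of_eq ?_)
    rw [sum_const, card_range, nsmul_eq_mul]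
  have hP'0 : (0 : ℝ) < P' := by exact_mod_cast (by omega : 0 < P')
  have hN0 : (0 : ℝ) ≤ N := Nat.cast_nonneg N
  have u1 : (N : ℝ) * ∑ p ∈ PA s N P, Real.log p * (nv p s P' : ℝ) ≤ N * (P' * Lg s P') :=
    mul_le_mul_of_nonneg_left t1 hN0
  have u2 : ((PA s N P).card : ℝ) * (N * Lg s N) ≤ 3 / 2 * P * Lg s P * (N * Lg s N) :=
    mul_le_mul_of_nonneg_right t2 (mul_nonneg hN0 hLN)
  have hfin : (P' : ℝ) * ∑ p ∈ PA s N P, Real.log p * (nv p s N : ℝ) ≤
      P' * ((N : ℝ) * (Lg s P' + 3 / 2 * P * Lg s P * Lg s N / P') +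
        (GG s N + N * Real.log 2 + (2 * P' + 1) * Lg s N)) := by
    have h1 : (P' : ℝ) * ((N : ℝ) * (Lg s P' + 3 / 2 * P * Lg s P * Lg s N / P') +
        (GG s N + N * Real.log 2 + (2 * P' + 1) * Lg s N)) =
        N * (P' * Lg s P') + 3 / 2 * P * Lg s P * (N * Lg s N) +
          P' * (GG s N + N * Real.log 2 + (2 * P' + 1) * Lg s N) := by
      field_simp
    rw [h1]
    linarith
  exact le_of_mul_le_mul_left hfin hP'0

end Pool.Agent.Work.MP_b29d7f_cvx
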