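import Pool.Agent.Work.MP_b29d7f_cvx.MatL

/-!
# Block TYL of MP_b29d7f (convex sets, note 2696, 3.4) (helper23)
-/

namespace Pool.Agent.Work.MP_b29d7f_cvx

open Finset
open Pool.Agent.Work.MP_b29d7f_sep (nv EW EL)

theorem stmt_TYL (hPAD : Stmt_PAD) (hPAE : Stmt_PAE) (hCHAIN : Stmt_CHAIN) (hMAT : Stmt_MAT) :
    Stmt_TYL := by
  classical
  intro s C₀ hs p hp u m x H hm12 hx1 hx2 hflat hH hm hc hW hD g hg1 hg2 hg3
  obtain ⟨PP, hP1, hP2, hP3, hP4, hP5⟩ := MatL_exists hPAD hPAE hCHAIN hMAT s C₀ hs p hp u m H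
    hflat hH hm hc (by omega)
  obtain ⟨hmono, -, -, hF2⟩ := hPAD s C₀ hs p hp
  have hgj : nv p s g < nv p s (g + 1) := by
    have h1 : om p s g ≠ 0 := hg3
    unfold om at h1
    omega
  have hga : nv p s g = nv p s u := by
    have h1 := hmono hg1
    have h2 := hmono (show g + 1 ≤ u + m by omega)
    omega
  have hgb : nv p s (g + 1) = nv p s (u + m) := by
    have h1 := hmono hg1
    have h2 := hmono (show g + 1 ≤ u + m by omega)
    omega
  have hmr : (1000000000000 : ℝ) ≤ m := by
    have h1 : (1000000000000 : ℕ) ≤ m := by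
      have h2 : (10 : ℕ) ^ 12 = 1000000000000 := by norm_num
      omega
    exact_mod_cast h1
  have hx1r : 128 * (x : ℝ) ≤ m := by exact_mod_cast hx1
  have hx2r : (m : ℝ) < 128 * x + 128 := by exact_mod_cast hx2
  have hcg := abs_le.1 (hc g hg1 hg2 hg3)
  have hgx : u + x ≤ g := by
    have h1 : ((u + x : ℕ) : ℝ) ≤ g := by
      push_cast
      linarith [hcg.1]
    exact_mod_cast h1
  have hgx2 : g + x ≤ u + m := by
    have h1 : ((g + x : ℕ) : ℝ) ≤ ((u + m : ℕ) : ℝ) := by
      push_cast
      linarith [hcg.2]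
    exact_mod_cast h1
  -- positions of the pairs
  have hpos : ∀ z ∈ PP, z.1 ≤ g ∧ g < z.2 := by
    intro z hz
    obtain ⟨a1, a2, a3, a4, a5, a6⟩ := hP1 z hz
    constructor
    · by_contra hcon
      have h1 := hmono (show g + 1 ≤ z.1 by omega)
      omega
    · by_contra hcon
      have h1 := hmono (show z.2 ≤ g by omega)
      omega
  have hinj1 : ∀ z ∈ PP, ∀ z' ∈ PP, z.1 = z'.1 → z = z' := hP3
  have hinj2 : ∀ z ∈ PP, ∀ z' ∈ PP, z.2 = z'.2 → z = z' := by
    intro z hz z' hz' he
    rcases lt_trichotomy z.1 z'.1 with h | h | h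
    · have := hP2 z hz z' hz' h
      omega
    · exact hP3 z hz z' hz' h
    · have := hP2 z' hz' z hz h
      omega
  -- many pairs
  have hnu : (1 / 2 - 3 / 10 ^ 10 - 1 / 4096) * (m : ℝ) ≤ PP.card := by
    have hWr : ((nv p s (u + m) : ℝ) - nv p s u) = 1 := by
      rw [hW]; push_cast; ring
    rw [hWr] at hP5
    have h1 : (∑ z ∈ PP, (vl p s z.2 z.1 : ℝ)) ≤ ∑ _z ∈ PP, (1 : ℝ) := by
      refine sum_le_sum (fun z hz => ?_)
      have h2 := hP4 z hz
      have h3 : vl p s z.2 z.1 ≤ 1 := by omega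
      exact_mod_cast h3
    rw [sum_const, nsmul_eq_mul, mul_one] at h1
    linarith
  -- bound for the partner
  have hpart : ∀ z ∈ PP, PP.card + z.2 + z.1 ≤ g + u + m + 1 := by
    intro z hz
    have h1 : PP = PP.filter (fun w => w.1 ≤ z.1) ∪ PP.filter (fun w => z.1 < w.1) := by
      ext w
      rw [mem_union, mem_filter, mem_filter]
      constructor
      · intro hw
        rcases le_or_gt w.1 z.1 with h | h
        · exact Or.inl ⟨hw, h⟩
        · exact Or.inr ⟨hw, h⟩
      · rintro (h | h) <;> exact h.1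
    have h2 : (PP.filter (fun w => w.1 ≤ z.1)).card ≤ u + m + 1 - z.2 := by
      have h3 := Finset.card_le_card_of_injOn (s := PP.filter (fun w => w.1 ≤ z.1))
        (t := Icc z.2 (u + m)) (fun w : ℕ × ℕ => w.2) (by
          intro w hw
          have hw' := mem_filter.1 hw
          refine mem_Icc.2 ⟨?_, (hP1 w hw'.1).2.2.1⟩
          rcases lt_or_eq_of_le hw'.2 with h | h
          · exact (hP2 w hw'.1 z hz h).le
          · rw [hP3 w hw'.1 z hz h]) (by
          intro w hw w' hw' he
          exact hinj2 w (mem_filter.1 hw).1 w' (mem_filter.1 hw').1 he)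
      rwa [Nat.card_Icc] at h3
    have h3 : (PP.filter (fun w => z.1 < w.1)).card ≤ g - z.1 := by
      have h4 := Finset.card_le_card_of_injOn (s := PP.filter (fun w => z.1 < w.1))
        (t := Ioc z.1 g) (fun w : ℕ × ℕ => w.1) (by
          intro w hw
          have hw' := mem_filter.1 hw
          exact mem_Ioc.2 ⟨hw'.2, (hpos w hw'.1).1⟩) (by
          intro w hw w' hw' he
          exact hinj1 w (mem_filter.1 hw).1 w' (mem_filter.1 hw').1 he)
      rwa [Nat.card_Ioc] at h4
    have h4 : PP.card ≤ (PP.filter (fun w => w.1 ≤ z.1)).card +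
        (PP.filter (fun w => z.1 < w.1)).card := by
      conv_lhs => rw [h1]
      exact card_union_le _ _
    have h5 := hpos z hz
    have h6 := (hP1 z hz).2.2.1
    omega
  have hPP1 : PP.card ≤ u + m - g := by
    have h4 := Finset.card_le_card_of_injOn (s := PP)
      (t := Ioc g (u + m)) (fun w : ℕ × ℕ => w.2) (by
        intro w hw
        exact mem_Ioc.2 ⟨(hpos w hw).2, (hP1 w hw).2.2.1⟩) (by
        intro w hw w' hw' he
        exact hinj2 w hw w' hw' he)
    rwa [Nat.card_Ioc] at h4
  -- the inequality between the parameters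
  have hfin : 8 * (m + 1) ≤ 16 * PP.card + x := by
    have h1 : (8 * ((m : ℝ) + 1)) ≤ 16 * PP.card + x := by linarith
    exact_mod_cast h1
  obtain ⟨Qn, hQ⟩ : ∃ Qn : ℕ, u + m - g = PP.card + Qn := ⟨u + m - g - PP.card, by omega⟩
  -- the matched indices
  let I : Finset ℕ := (PP.filter (fun w => g + 1 + Qn ≤ w.1 + x)).image (fun w => w.1)
  refine ⟨by omega, ?_, ?_, I, ?_, ?_, ?_⟩
  · unfold om
    omega
  · have h1 : nv p s (g + x) = nv p s (u + m) := by
      rcases Nat.eq_zero_or_pos x with h0 | h0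
      · exfalso
        rw [h0] at hx2r
        push_cast at hx2r
        linarith
      · have h2 := hmono (show g + 1 ≤ g + x by omega)
        have h3 := hmono hgx2
        omega
    have h2 : nv p s (g - x) = nv p s u := by
      have h2 := hmono (show u ≤ g - x by omega)
      have h3 := hmono (show g - x ≤ g by omega)
      omega
    omega
  · intro i hi
    obtain ⟨w, hw, rfl⟩ := mem_image.1 hi
    have hw' := mem_filter.1 hw
    have h1 := hpos w hw'.1
    exact mem_Ioc.2 ⟨by omega, h1.1⟩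
  · have h1 : I.card = (PP.filter (fun w => g + 1 + Qn ≤ w.1 + x)).card := by
      refine card_image_of_injOn ?_
      intro w hw w' hw' he
      exact hinj1 w (mem_filter.1 hw).1 w' (mem_filter.1 hw').1 he
    have h2 : PP.card ≤ (PP.filter (fun w => g + 1 + Qn ≤ w.1 + x)).card +
        (PP.filter (fun w => ¬ g + 1 + Qn ≤ w.1 + x)).card :=
      (card_filter_add_card_filter_not _).symm.le
    have h3 : (PP.filter (fun w => ¬ g + 1 + Qn ≤ w.1 + x)).card ≤ g + 1 + Qn - x - u := by
      have h4 := Finset.card_le_card_of_injOn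
        (s := PP.filter (fun w => ¬ g + 1 + Qn ≤ w.1 + x))
        (t := Ico u (g + 1 + Qn - x)) (fun w : ℕ × ℕ => w.1) (by
          intro w hw
          have hw' := mem_filter.1 hw
          refine mem_Ico.2 ⟨(hP1 w hw'.1).1, ?_⟩
          have := hw'.2
          show w.1 < g + 1 + Qn - x
          omega) (by
          intro w hw w' hw' he
          exact hinj1 w (mem_filter.1 hw).1 w' (mem_filter.1 hw').1 he)
      rwa [Nat.card_Ico] at h4
    rw [h1]
    omega
  · intro i hi
    obtain ⟨w, hw, rfl⟩ := mem_image.1 hi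
    have hw' := mem_filter.1 hw
    have h1 := hpos w hw'.1
    have h2 := hpart w hw'.1
    refine ⟨w.2, mem_Ioc.2 ⟨h1.2, ?_⟩, (hP1 w hw'.1).2.2.2.2.2⟩
    have h3 := hw'.2
    omega

end Pool.Agent.Work.MP_b29d7f_cvx
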