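import Pool.Agent.Work.MP_b29d7f_cvx.Interface2

/-!
# Block UG (helper55)
-/

set_option autoImplicit false

namespace Pool.Agent.Work.MP_b29d7f_cvx

open Finset

theorem UG_count (x r : ℝ) (hr : 0 ≤ r) (hx : r ≤ x) :
    ∃ T : Finset ℕ, (∀ u : ℕ, u ∈ T ↔ |(u : ℝ) - x| ≤ r) ∧ 2 * r - 1 ≤ T.card ∧
      (T.card : ℝ) ≤ 2 * r + 1 := by
  have h0 : 0 ≤ x - r := by linarith
  have h1 : 0 ≤ x + r := by linarith
  have a1 := Nat.ceil_lt_add_one h0
  have a2 := Nat.le_ceil (x - r)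
  have a3 := Nat.floor_le h1
  have a4 := Nat.lt_floor_add_one (x + r)
  have h2 : ⌈x - r⌉₊ ≤ ⌊x + r⌋₊ + 1 := by
    have : (⌈x - r⌉₊ : ℝ) < (⌊x + r⌋₊ : ℝ) + 2 := by linarith
    have : ⌈x - r⌉₊ < ⌊x + r⌋₊ + 2 := by exact_mod_cast this
    omega
  refine ⟨Icc ⌈x - r⌉₊ ⌊x + r⌋₊, ?_, ?_, ?_⟩
  · intro u
    rw [Finset.mem_Icc, Nat.ceil_le, Nat.le_floor_iff h1, abs_le]
    constructor
    · rintro ⟨h, h'⟩
      constructor <;> linarith
    · rintro ⟨h, h'⟩
      constructor <;> linarith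
  · rw [Nat.card_Icc, Nat.cast_sub h2]
    push_cast
    linarith
  · rw [Nat.card_Icc, Nat.cast_sub h2]
    push_cast
    linarith

theorem stmt_UG : Stmt_UG := by
  classical
  intro s C₀ N M P m J H hZ
  have hm : (10 : ℝ) ^ 20 ≤ m := by exact_mod_cast hZ.m_big
  have hmN : (10 : ℝ) ^ 10 * m ≤ N := by exact_mod_cast hZ.m_N
  have hmNn : m ≤ N := by
    have := hZ.m_N
    omega
  have memUg : ∀ g u : ℕ, u ∈ Ug s H N m g ↔ u < N - m + 1 ∧ Flat s H m u ∧
      |(u : ℝ) + m / 2 - g| ≤ 1 / 10 ^ 10 * m / 2 := by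
    intro g u
    unfold Ug
    rw [Finset.mem_filter, Finset.mem_range]
  refine ⟨?_, ?_⟩
  · intro p g u hI hu
    obtain ⟨hu1, hu2, hu3⟩ := (memUg g u).1 hu
    have hu3' := abs_le.1 hu3
    have hum : u + m ≤ N := by omega
    refine ⟨?_, ?_, ?_, hu2, hum⟩
    · intro g' h1 h2 h3
      have h1' : (u : ℝ) ≤ g' := by exact_mod_cast h1
      have h2' : (g' : ℝ) < u + m := by exact_mod_cast h2
      have h4 : |(g' : ℝ) - g| ≤ 3 * m / 4 := by
        rw [abs_le]
        constructor <;> nlinarith [hu3'.1, hu3'.2]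
      have h5 := abs_le.1 (hI g' h3 h4)
      rw [abs_le]
      constructor <;> nlinarith [hu3'.1, hu3'.2, h5.1, h5.2]
    · have : (u : ℝ) ≤ g := by nlinarith [hu3'.1, hu3'.2]
      exact_mod_cast this
    · have : (g : ℝ) < u + m := by nlinarith [hu3'.1, hu3'.2]
      exact_mod_cast this
  · intro R hR
    -- the windows which are not flat
    set B : Finset ℕ := (range (N - m + 1)).filter fun u => ¬ Flat s H m u with hB
    have hBc : NF s H N m = B.card := by
      unfold NF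
      rw [hB]
    -- the radius
    set r : ℝ := 1 / 10 ^ 10 * m / 2 with hr
    have hr0 : (10 : ℝ) ^ 9 ≤ r := by rw [hr]; nlinarith
    have hrm : r ≤ m / 100 := by rw [hr]; nlinarith
    have key1 : ∀ g ∈ R, 3 / 2 * r - 1 ≤ ((B.filter fun u : ℕ => |(u : ℝ) + m / 2 - g| ≤ r).card : ℝ) := by
      intro g hg
      obtain ⟨h1, h2, h3⟩ := hR g hg
      have h1' : (N : ℝ) ≤ 2 * g := by exact_mod_cast h1
      have h2' : (g : ℝ) + m < N := by
        have : g + m < N := by omega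
        exact_mod_cast this
      have h3' : ((Ug s H N m g).card : ℝ) < 1 / 10 ^ 10 * (m : ℝ) / 4 := by
        unfold FlG at h3
        exact not_le.1 h3
      obtain ⟨T, hT, hT1, hT2⟩ := UG_count ((g : ℝ) - m / 2) r (by linarith) (by linarith)
      have hTs : T ⊆ Ug s H N m g ∪ (B.filter fun u : ℕ => |(u : ℝ) + m / 2 - g| ≤ r) := by
        intro u hu
        have hu1 := (hT u).1 hu
        have hu2 : |(u : ℝ) + m / 2 - g| ≤ r := by
          have : (u : ℝ) + m / 2 - g = u - (g - m / 2) := by ring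
          rw [this]
          exact hu1
        have hu3 : u < N - m + 1 := by
          have h5 := (abs_le.1 hu2).2
          have : (u : ℝ) + m < N := by linarith
          have : u + m < N := by exact_mod_cast this
          omega
        by_cases hf : Flat s H m u
        · exact Finset.mem_union_left _ ((memUg g u).2 ⟨hu3, hf, hu2⟩)
        · refine Finset.mem_union_right _ ?_
          rw [Finset.mem_filter, hB, Finset.mem_filter, Finset.mem_range]
          exact ⟨⟨hu3, hf⟩, hu2⟩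
      have h6 := (Finset.card_le_card hTs).trans (Finset.card_union_le _ _)
      have h7 : (T.card : ℝ) ≤ (Ug s H N m g).card +
          (B.filter fun u : ℕ => |(u : ℝ) + m / 2 - g| ≤ r).card := by exact_mod_cast h6
      have h8 : 1 / 10 ^ 10 * (m : ℝ) / 4 = r / 2 := by rw [hr]; ring
      linarith
    have key2 : ∀ u ∈ B, ((R.filter fun g : ℕ => |(u : ℝ) + m / 2 - (g : ℕ)| ≤ r).card : ℝ) ≤
        2 * r + 1 := by
      intro u hu
      obtain ⟨T, hT, hT1, hT2⟩ := UG_count ((u : ℝ) + m / 2) r (by linarith)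
        (by have : (0 : ℝ) ≤ u := Nat.cast_nonneg u
            linarith)
      have hTs : (R.filter fun g : ℕ => |(u : ℝ) + m / 2 - (g : ℕ)| ≤ r) ⊆ T := by
        intro g hg
        have := (Finset.mem_filter.1 hg).2
        rw [hT g, abs_sub_comm]
        exact this
      have : ((R.filter fun g : ℕ => |(u : ℝ) + m / 2 - (g : ℕ)| ≤ r).card : ℝ) ≤ T.card := by
        exact_mod_cast Finset.card_le_card hTs
      linarith
    have hdc : ∑ g ∈ R, (B.filter fun u : ℕ => |(u : ℝ) + m / 2 - (g : ℕ)| ≤ r).card =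
        ∑ u ∈ B, (R.filter fun g : ℕ => |(u : ℝ) + m / 2 - (g : ℕ)| ≤ r).card := by
      simp only [Finset.card_filter]
      exact Finset.sum_comm
    have hdc' : ∑ g ∈ R, ((B.filter fun u : ℕ => |(u : ℝ) + m / 2 - (g : ℕ)| ≤ r).card : ℝ) =
        ∑ u ∈ B, ((R.filter fun g : ℕ => |(u : ℝ) + m / 2 - (g : ℕ)| ≤ r).card : ℝ) := by
      exact_mod_cast hdc
    have h1 : (R.card : ℝ) * (3 / 2 * r - 1) ≤
        ∑ g ∈ R, ((B.filter fun u : ℕ => |(u : ℝ) + m / 2 - (g : ℕ)| ≤ r).card : ℝ) := by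
      rw [← nsmul_eq_mul]
      exact Finset.card_nsmul_le_sum _ _ _ key1
    have h2 : ∑ u ∈ B, ((R.filter fun g : ℕ => |(u : ℝ) + m / 2 - (g : ℕ)| ≤ r).card : ℝ) ≤
        (B.card : ℝ) * (2 * r + 1) := by
      rw [← nsmul_eq_mul]
      exact Finset.sum_le_card_nsmul _ _ _ key2
    have h3 : (R.card : ℝ) * (3 / 2 * r - 1) ≤ (B.card : ℝ) * (2 * r + 1) :=
      h1.trans (hdc'.le.trans h2)
    have h4 : (R.card : ℝ) ≤ 2 * B.card := by
      by_contra hcon
      push Not at hcon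
      have h5 : (0 : ℝ) ≤ B.card := Nat.cast_nonneg _
      have h6 : 0 < 3 / 2 * r - 1 := by linarith
      have h7 : 2 * (B.card : ℝ) * (3 / 2 * r - 1) < (R.card : ℝ) * (3 / 2 * r - 1) :=
        mul_lt_mul_of_pos_right hcon h6
      nlinarith
    rw [hBc]
    exact_mod_cast h4

end Pool.Agent.Work.MP_b29d7f_cvx
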