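import Pool.Agent.Work.MP_b29d7f_cvx.InterfaceC

/-!
# Convex sets: block UNB
-/

namespace Pool.Agent.Work.MP_b29d7f_cvx

open Finset
open Pool.Agent.Work.MP_b29d7f_half (HalfDense)

theorem stmt_UNB : Stmt_UNB := by
  intro s C₀ h hnd H
  by_contra hcon
  push_neg at hcon
  apply hnd
  have hmono : Monotone (gp s) := monotone_nat_of_le_succ fun k => h.conv k
  have hgp : ∀ i, gp s i ≤ H := fun i => by
    obtain ⟨j, hj, hjH⟩ := hcon i
    exact (hmono hj).trans hjH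
  have hs : ∀ n : ℕ, s n ≤ H * n := by
    intro n
    induction n with
    | zero => simp [h.zero]
    | succ n ih =>
      have := hgp n
      unfold gp at this
      push_cast
      linarith
  have hH1 : 1 ≤ H := by
    have h1 : s 0 < s 1 := h.mono (by norm_num)
    have h2 := hs 1
    rw [h.zero] at h1
    simp at h2
    omega
  obtain ⟨K, hK⟩ : ∃ K : ℕ, H = K := ⟨H.toNat, by omega⟩
  have hK1 : 1 ≤ K := by omega
  refine ⟨1 / 4, by norm_num, K ^ 4 + 1, fun L hL => ⟨0, ?_⟩⟩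
  have hL1 : 1 ≤ L := by omega
  set m : ℕ := (L - 1) / K + 1 with hm
  have hsub : ((range m).image s : Set ℤ) ⊆ Set.range s ∩ Set.Ico (0 : ℤ) (0 + L) := by
    intro y hy
    rw [Finset.coe_image] at hy
    obtain ⟨n, hn, rfl⟩ := hy
    have hn' : n < m := by simpa using hn
    refine ⟨⟨n, rfl⟩, ?_, ?_⟩
    · have := h.mono.monotone (Nat.zero_le n)
      rw [h.zero] at this
      exact this
    · have h1 : n ≤ (L - 1) / K := by omega
      have h2 : n * K ≤ L - 1 := (Nat.le_div_iff_mul_le (by omega)).1 h1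
      have h3 := hs n
      rw [hK] at h3
      have h4 : ((K : ℤ)) * n ≤ (L : ℤ) - 1 := by
        have : ((n * K : ℕ) : ℤ) ≤ ((L - 1 : ℕ) : ℤ) := by exact_mod_cast h2
        push_cast [Nat.cast_sub hL1] at this
        linarith
      linarith
  have hfin : (Set.range s ∩ Set.Ico (0 : ℤ) (0 + L)).Finite :=
    (Set.finite_Ico (0 : ℤ) (0 + L)).subset Set.inter_subset_right
  have hcard : m ≤ (Set.range s ∩ Set.Ico (0 : ℤ) (0 + L)).ncard := by
    have h1 := Set.ncard_le_ncard hsub hfin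
    rw [Set.ncard_coe_finset, Finset.card_image_of_injective _ h.mono.injective,
      Finset.card_range] at h1
    exact h1
  have hcard' : (m : ℝ) ≤ ((Set.range s ∩ Set.Ico (0 : ℤ) (0 + L)).ncard : ℝ) := by
    exact_mod_cast hcard
  refine le_trans ?_ hcard'
  have hLm : L ≤ K * m := by
    have h1 := Nat.lt_div_mul_add (a := L - 1) (b := K) (by omega)
    have h2 : K * m = (L - 1) / K * K + K := by rw [hm]; ring
    omega
  have hLm' : (L : ℝ) ≤ K * m := by exact_mod_cast hLm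
  have hKpos : (0 : ℝ) < K := by exact_mod_cast hK1
  have hLpos : (0 : ℝ) < L := by exact_mod_cast hL1
  have hKL : (K : ℝ) ≤ (L : ℝ) ^ (1 / 4 : ℝ) := by
    have h1 : ((K : ℝ) ^ (4 : ℕ)) ^ (1 / 4 : ℝ) ≤ (L : ℝ) ^ (1 / 4 : ℝ) := by
      apply Real.rpow_le_rpow (by positivity) _ (by norm_num)
      have : K ^ 4 ≤ L := by omega
      exact_mod_cast this
    rwa [← Real.rpow_natCast, ← Real.rpow_mul hKpos.le, show (((4 : ℕ) : ℝ) * (1 / 4)) = 1 by norm_num,
      Real.rpow_one] at h1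
  have hpow : (L : ℝ) ^ (1 / 2 + 1 / 4 : ℝ) * (L : ℝ) ^ (1 / 4 : ℝ) = L := by
    rw [← Real.rpow_add hLpos]
    norm_num
  have hpos : (0 : ℝ) < (L : ℝ) ^ (1 / 2 + 1 / 4 : ℝ) := Real.rpow_pos_of_pos hLpos _
  have h3 : (L : ℝ) ^ (1 / 2 + 1 / 4 : ℝ) * K ≤ m * K := by
    calc (L : ℝ) ^ (1 / 2 + 1 / 4 : ℝ) * K ≤ (L : ℝ) ^ (1 / 2 + 1 / 4 : ℝ) * (L : ℝ) ^ (1 / 4 : ℝ) :=
          mul_le_mul_of_nonneg_left hKL hpos.le
      _ = L := hpow
      _ ≤ m * K := by linarith
  exact le_of_mul_le_mul_right h3 hKpos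

end Pool.Agent.Work.MP_b29d7f_cvx
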