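import Pool.Agent.Work.MP_b29d7f_cvx.Interface

/-!
# Block UPPER of the convex classification (helper96)
-/

namespace Pool.Agent.Work.MP_b29d7f_cvx

open Finset
open Pool.Agent.Work.MP_b29d7f_half (lD)
open Pool.Agent.Work.MP_b29d7f_sep (nv EW EL)

theorem UPPER_sdfc_nonneg (h1 : Stmt_DFC) {s : ℕ → ℤ} {C₀ : ℝ} (hs : Cvx s C₀) (N M P m : ℕ) :
    0 ≤ SDfc s N M P m := by
  unfold SDfc
  refine sum_nonneg fun p hp => ?_
  have hpp : p.Prime := Nat.prime_of_mem_primeFactors (mem_PG.1 hp).1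
  refine mul_nonneg (Real.log_nonneg (by exact_mod_cast hpp.one_lt.le)) ?_
  exact sum_nonneg fun u _ => (h1 s C₀ hs p hpp u m).1

/-- the bound at the good dyadic scales -/
theorem UPPER_dyadic (h1 : Stmt_DFC) (h2 : Stmt_MW2) {s : ℕ → ℤ} {C₀ : ℝ} (hs : Cvx s C₀)
    (ε : ℝ) (hε : 0 < ε) : ∃ ε' : ℝ, 0 < ε' ∧ ∃ j₀ : ℕ, ∀ j : ℕ, j₀ ≤ j →
      GG s (2 ^ j) ≤ ε' * (2 ^ j : ℕ) * Real.log (2 ^ j : ℕ) →
      GG s (2 * 2 ^ j) ≤ ε' * (2 * (2 ^ j : ℕ)) * Real.log (2 * (2 ^ j : ℕ)) →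
      Lg s (2 ^ j) ≤ (2 + ε / 2) * Real.log (2 ^ j : ℕ) := by
  have hC : 0 < C₀ := lt_of_lt_of_le one_pos hs.one_le
  obtain ⟨δ, hδ, hδ1, hδ2⟩ : ∃ δ : ℝ, 0 < δ ∧ 3 * δ < 1 ∧ 3 * δ * C₀ ≤ ε / 4 := by
    refine ⟨min (1 / 6) (ε / (12 * C₀)), lt_min (by norm_num) (by positivity), ?_, ?_⟩
    · have := min_le_left (1 / 6 : ℝ) (ε / (12 * C₀))
      linarith
    · have h := min_le_right (1 / 6 : ℝ) (ε / (12 * C₀))
      have h3 : 3 * min (1 / 6) (ε / (12 * C₀)) * C₀ ≤ 3 * (ε / (12 * C₀)) * C₀ := by gcongr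
      have h4 : 3 * (ε / (12 * C₀)) * C₀ = ε / 4 := by field_simp; ring
      linarith
  refine ⟨ε / 80, by positivity, ?_⟩
  obtain ⟨N₀, hN₀⟩ := h2 s C₀ hs (δ / 2) δ (2 * δ) (3 * δ) (by positivity) (by linarith)
    (by linarith) (by linarith) hδ1 (ε / 80) (by positivity)
  refine ⟨max N₀ ⌈1 / (3 * δ)⌉₊, fun j hj hg1 hg2 => ?_⟩
  have hjN : N₀ ≤ 2 ^ j := (le_trans (le_max_left _ _) hj).trans (Nat.lt_two_pow_self).le
  have hjδ : 1 / (3 * δ) ≤ j := by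
    have h3 : (⌈1 / (3 * δ)⌉₊ : ℝ) ≤ j := by exact_mod_cast le_trans (le_max_right _ _) hj
    exact (Nat.le_ceil _).trans h3
  obtain ⟨m, hm1, -, -, -, hm⟩ := hN₀ (2 ^ j) hjN hg1 hg2
  have h0 := UPPER_sdfc_nonneg h1 hs (2 ^ j) ⌊((2 ^ j : ℕ) : ℝ) ^ δ⌋₊
    ⌊((2 ^ j : ℕ) : ℝ) ^ (2 * δ)⌋₊ m
  have hpos : 0 ≤ 4 / ((m : ℝ) ^ 2 * ((2 ^ j : ℕ) : ℝ)) * SDfc s (2 ^ j)
      ⌊((2 ^ j : ℕ) : ℝ) ^ δ⌋₊ ⌊((2 ^ j : ℕ) : ℝ) ^ (2 * δ)⌋₊ m := mul_nonneg (by positivity) h0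
  have hN1 : (1 : ℝ) ≤ ((2 ^ j : ℕ) : ℝ) := by exact_mod_cast Nat.one_le_two_pow
  have hlog : 0 ≤ Real.log ((2 ^ j : ℕ) : ℝ) := Real.log_nonneg hN1
  have hm2 : 0 ≤ Real.log m := by
    refine Real.log_nonneg (le_trans ?_ hm1)
    exact Real.one_le_rpow hN1 (by positivity)
  -- the size of `P'`
  have hP : (2 : ℝ) ≤ ((2 ^ j : ℕ) : ℝ) ^ (3 * δ) := by
    have h5 : ((2 ^ j : ℕ) : ℝ) ^ (3 * δ) = (2 : ℝ) ^ ((j : ℝ) * (3 * δ)) := by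
      push_cast
      rw [← Real.rpow_natCast, ← Real.rpow_mul (by norm_num)]
    rw [h5]
    have h6 : 1 ≤ (j : ℝ) * (3 * δ) := by
      rw [div_le_iff₀ (by positivity)] at hjδ
      linarith
    calc (2 : ℝ) = (2 : ℝ) ^ (1 : ℝ) := (Real.rpow_one 2).symm
      _ ≤ _ := Real.rpow_le_rpow_of_exponent_le (by norm_num) h6
  have hP2 : 2 ≤ ⌊((2 ^ j : ℕ) : ℝ) ^ (3 * δ)⌋₊ := Nat.le_floor (by exact_mod_cast hP)
  have hL : Lg s ⌊((2 ^ j : ℕ) : ℝ) ^ (3 * δ)⌋₊ ≤ ε / 4 * Real.log ((2 ^ j : ℕ) : ℝ) := by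
    have h7 := hs.growth _ hP2
    have h8 : Real.log (⌊((2 ^ j : ℕ) : ℝ) ^ (3 * δ)⌋₊ : ℝ)
        ≤ 3 * δ * Real.log ((2 ^ j : ℕ) : ℝ) := by
      rw [← Real.log_rpow (by positivity)]
      refine Real.log_le_log (by exact_mod_cast (by omega : 0 < ⌊((2 ^ j : ℕ) : ℝ) ^ (3 * δ)⌋₊)) ?_
      exact Nat.floor_le (by positivity)
    calc Lg s ⌊((2 ^ j : ℕ) : ℝ) ^ (3 * δ)⌋₊ ≤ C₀ * Real.log (⌊((2 ^ j : ℕ) : ℝ) ^ (3 * δ)⌋₊ : ℝ) :=
          h7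
      _ ≤ C₀ * (3 * δ * Real.log ((2 ^ j : ℕ) : ℝ)) := by gcongr
      _ = 3 * δ * C₀ * Real.log ((2 ^ j : ℕ) : ℝ) := by ring
      _ ≤ _ := by gcongr
  nlinarith

theorem stmt_UPPER (h1 : Stmt_DFC) (h2 : Stmt_MW2) (h3 : Stmt_GOODJ) : Stmt_UPPER := by
  intro s C₀ hs ε hε
  obtain ⟨ε', hε', j₀, hj₀⟩ := UPPER_dyadic h1 h2 hs ε hε
  obtain ⟨K, hK⟩ := h3 s C₀ hs ε' hε'
  set B : ℝ := (2 + ε / 2) * ((K + 1) * Real.log 2) / (ε / 2) with hB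
  refine ⟨max (2 ^ (max j₀ K)) (max 2 ⌈Real.exp B⌉₊), fun k hk => ?_⟩
  have hk1 : 2 ^ (max j₀ K) ≤ k := (le_max_left _ _).trans hk
  have hk2 : 2 ≤ k := (le_max_left _ _).trans ((le_max_right _ _).trans hk)
  have hk3 : Real.exp B ≤ k := by
    have h4 : (⌈Real.exp B⌉₊ : ℝ) ≤ k := by
      exact_mod_cast (le_max_right _ _).trans ((le_max_right _ _).trans hk)
    exact (Nat.le_ceil _).trans h4
  have hBk : B ≤ Real.log k := by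
    rw [← Real.log_exp B]
    exact Real.log_le_log (Real.exp_pos _) hk3
  -- the dyadic scale
  set J := Nat.clog 2 k with hJ
  have hJ1 : k ≤ 2 ^ J := Nat.le_pow_clog (by norm_num) k
  have hJ2 : 2 ^ (J - 1) < k := Nat.pow_pred_clog_lt_self (by norm_num) (by omega)
  have hJ3 : max j₀ K ≤ J := by
    by_contra h
    push Not at h
    have h5 : 2 ^ J < 2 ^ (max j₀ K) := Nat.pow_lt_pow_right (by norm_num) h
    omega
  obtain ⟨j, hj1, hj2, hg1, hg2⟩ := hK J ((le_max_right _ _).trans hJ3)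
  have hmain := hj₀ j (((le_max_left _ _).trans hJ3).trans hj1) hg1 hg2
  have hkj : k ≤ 2 ^ j := hJ1.trans (Nat.pow_le_pow_right (by norm_num) hj1)
  have hsk : 0 < s k := by
    have h6 : s 0 < s k := hs.mono (by omega)
    rwa [hs.zero] at h6
  have hLk : Lg s k ≤ Lg s (2 ^ j) := by
    unfold Lg
    refine Real.log_le_log (by exact_mod_cast hsk) ?_
    exact_mod_cast hs.mono.monotone hkj
  have hlj : Real.log ((2 ^ j : ℕ) : ℝ) ≤ Real.log k + (K + 1) * Real.log 2 := by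
    have hl2 : 0 < Real.log 2 := Real.log_pos (by norm_num)
    have h7 : Real.log ((2 ^ j : ℕ) : ℝ) = j * Real.log 2 := by
      push_cast
      rw [Real.log_pow]
    have h8 : ((J - 1 : ℕ) : ℝ) * Real.log 2 ≤ Real.log k := by
      rw [← Real.log_pow]
      refine Real.log_le_log (by positivity) ?_
      exact_mod_cast hJ2.le
    have hJpos : 1 ≤ J := by
      by_contra h
      have h9 : J = 0 := by omega
      rw [h9] at hJ1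
      simp at hJ1
      omega
    have h9 : (j : ℝ) ≤ ((J - 1 : ℕ) : ℝ) + (K + 1) := by
      have h10 : j ≤ (J - 1) + (K + 1) := by omega
      exact_mod_cast h10
    rw [h7]
    calc (j : ℝ) * Real.log 2 ≤ (((J - 1 : ℕ) : ℝ) + (K + 1)) * Real.log 2 := by gcongr
      _ = ((J - 1 : ℕ) : ℝ) * Real.log 2 + (K + 1) * Real.log 2 := by ring
      _ ≤ _ := by linarith
  have hfin : (2 + ε / 2) * ((K + 1) * Real.log 2) ≤ ε / 2 * Real.log k := by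
    have h11 : (2 + ε / 2) * ((K + 1) * Real.log 2) = B * (ε / 2) := by
      rw [hB]
      field_simp
    rw [h11]
    nlinarith
  calc Lg s k ≤ Lg s (2 ^ j) := hLk
    _ ≤ (2 + ε / 2) * Real.log ((2 ^ j : ℕ) : ℝ) := hmain
    _ ≤ (2 + ε / 2) * (Real.log k + (K + 1) * Real.log 2) := by gcongr
    _ = (2 + ε / 2) * Real.log k + (2 + ε / 2) * ((K + 1) * Real.log 2) := by ring
    _ ≤ (2 + ε / 2) * Real.log k + ε / 2 * Real.log k := by linarith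
    _ = (2 + ε) * Real.log k := by ring

end Pool.Agent.Work.MP_b29d7f_cvx
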