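import Pool.Agent.Work.MP_b29d7f_cvx.Interface

/-!
# VLM: upper bound for the valuations of `N_k(s j)`, `j ≥ k`
-/

namespace Pool.Agent.Work.MP_b29d7f_cvx

open Finset
open Pool.Agent.Work.MP_b29d7f_nt (IsPOrdering HasSimultaneousOrdering PS vd ld tv)
open Pool.Agent.Work.MP_b29d7f_half (Ord A wv lD HalfDense)
open Pool.Agent.Work.MP_b29d7f_sep (nv EW EL)

theorem stmt_VLM (h1 : Stmt_PAD) (h2 : Stmt_PAE) : Stmt_VLM := by
  intro s C₀ hC p hp k j hkj hj
  obtain ⟨hmono, h0, -, hwin⟩ := h1 s C₀ hC p hp
  obtain ⟨hsym, hult, -, hpow, -, -, -⟩ := h2 s C₀ hC p hp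
  rcases Nat.eq_zero_or_pos k with hk | hk
  · subst hk
    refine ⟨0, ?_, by simp⟩
    have := hC.pos hj
    simp
    omega
  · obtain ⟨l, hl, hmax⟩ := Finset.exists_max_image (range k) (fun i => vl p s j i)
      ⟨0, mem_range.2 hk⟩
    have hlk : l < k := mem_range.1 hl
    refine ⟨vl p s j l, ?_, ?_⟩
    · have e1 := hpow l j (by omega)
      have e2 := hC.nonneg l
      omega
    · have e1 : ∑ i ∈ range k, vl p s j i = ∑ i ∈ (range k).erase l, vl p s j i + vl p s j l := by
        rw [Finset.sum_erase_add _ _ hl]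
      have e2 : ∑ i ∈ (range k).erase l, vl p s j i ≤ ∑ i ∈ (range k).erase l, vl p s l i := by
        apply Finset.sum_le_sum
        intro i hi
        rw [Finset.mem_erase, mem_range] at hi
        have hi2 : vl p s j i ≤ vl p s j l := hmax i (mem_range.2 hi.2)
        have e3 := hult l j i (by omega) (by omega) (fun h => hi.1 h.symm)
        rw [hsym l j, min_eq_right hi2] at e3
        exact e3
      have e4 : ∑ i ∈ (range k).erase l, vl p s l i ≤ nv p s (k - 1) := by
        have e5 := hwin 0 (k - 1) l (Nat.zero_le _) (by omega)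
        have e6 : (range k).erase l = (Icc 0 (k - 1)).erase l := by
          congr 1
          ext x
          rw [mem_range, mem_Icc]
          omega
        rw [e6]
        omega
      have e7 : nv p s (k - 1) ≤ nv p s k := hmono (Nat.sub_le _ _)
      omega

end Pool.Agent.Work.MP_b29d7f_cvx
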