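import Pool.Agent.Work.MP_b29d7f_cvx.InterfaceC
import Pool.Agent.Work.MP_b29d7f_nt.Val

/-!
# Block WB: two quadratic sequences with different vertex values
-/

namespace Pool.Agent.Work.MP_b29d7f_cvx

open Finset
open Pool.Agent.Work.MP_b29d7f_nt (tv)

namespace WB_

/-- residue classes modulo `p ^ j` in `range (p ^ n)` -/
theorem class_count (p n j : ℕ) (hp : 0 < p) (hj : j ≤ n) (A : Finset ℕ)
    (hA : A ⊆ range (p ^ n)) (hcong : ∀ t ∈ A, ∀ t' ∈ A, (p : ℤ) ^ j ∣ (t : ℤ) - t') :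
    A.card ≤ p ^ (n - j) := by
  have hpj : 0 < p ^ j := pow_pos hp j
  rw [← Finset.card_range (p ^ (n - j))]
  refine Finset.card_le_card_of_injOn (fun t => t / p ^ j) ?_ ?_
  · intro t ht
    have h1 : t < p ^ n := Finset.mem_range.mp (hA ht)
    rw [Finset.coe_range, Set.mem_Iio]
    apply Nat.div_lt_of_lt_mul
    rw [← pow_add]
    rwa [Nat.add_sub_cancel' hj]
  · intro t ht t' ht' h
    have h1 := hcong t ht t' ht'
    have h2 : t % p ^ j = t' % p ^ j := by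
      have h3 : (t' : ℤ) ≡ t [ZMOD ((p ^ j : ℕ) : ℤ)] := by
        rw [Int.modEq_iff_dvd]
        push_cast
        exact h1
      have h4 := (Int.natCast_modEq_iff.mp h3)
      exact h4.symm
    have h3 : t / p ^ j = t' / p ^ j := h
    rw [← Nat.div_add_mod t (p ^ j), ← Nat.div_add_mod t' (p ^ j), h2, h3]

/-- the number of `t < p ^ n` with a property which is periodic modulo `p` -/
theorem periodic_count (p m : ℕ) (Q : ℕ → Prop) [DecidablePred Q]
    (hQ : ∀ t, Q (t + p) ↔ Q t) :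
    ((range (m * p)).filter Q).card = m * ((range p).filter Q).card := by
  have hQ' : ∀ a t, Q (a * p + t) ↔ Q t := by
    intro a
    induction a with
    | zero => intro t; rw [Nat.zero_mul, Nat.zero_add]
    | succ a ih =>
      intro t
      rw [Nat.succ_mul, Nat.add_assoc, ih, Nat.add_comm p t, hQ]
  rw [← Nat.count_eq_card_filter_range, ← Nat.count_eq_card_filter_range]
  induction m with
  | zero => simp
  | succ m ih =>
    rw [Nat.succ_mul, Nat.count_add, ih, Nat.succ_mul]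
    congr 1
    have : (fun k => Q (m * p + k)) = Q := by
      funext k
      exact propext (hQ' m k)
    simp only [hQ' m]

/-- linear change of variable -/
theorem linear_count (p : ℕ) [Fact p.Prime] (c d : ZMod p) (hc : c ≠ 0) (R : ZMod p → Prop)
    [DecidablePred R] :
    ((range p).filter (fun t : ℕ => R (c * (t : ZMod p) + d))).card
      = ((univ : Finset (ZMod p)).filter R).card := by
  have hp : p.Prime := Fact.out
  refine Finset.card_bij (fun t _ => c * (t : ZMod p) + d) ?_ ?_ ?_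
  · intro t ht
    rw [Finset.mem_filter] at ht ⊢
    exact ⟨Finset.mem_univ _, ht.2⟩
  · intro t ht t' ht' h
    rw [Finset.mem_filter, Finset.mem_range] at ht ht'
    have h1 : (t : ZMod p) = t' := by
      have h2 : c * (t : ZMod p) = c * t' := add_right_cancel h
      exact mul_left_cancel₀ hc h2
    have h3 := (ZMod.natCast_eq_natCast_iff t t' p).mp h1
    exact Nat.ModEq.eq_of_lt_of_lt h3 ht.1 ht'.1
  · intro z hz
    rw [Finset.mem_filter] at hz
    refine ⟨(c⁻¹ * (z - d)).val, ?_, ?_⟩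
    · rw [Finset.mem_filter, Finset.mem_range]
      refine ⟨ZMod.val_lt _, ?_⟩
      rw [ZMod.natCast_zmod_val]
      have : c * (c⁻¹ * (z - d)) + d = z := by
        rw [← mul_assoc, mul_inv_cancel₀ hc, one_mul, sub_add_cancel]
      rw [this]
      exact hz.2
    · rw [ZMod.natCast_zmod_val]
      rw [← mul_assoc, mul_inv_cancel₀ hc, one_mul, sub_add_cancel]

theorem cast_ne {p : ℕ} {x : ℤ} (h : ¬ (p : ℤ) ∣ x) : (x : ZMod p) ≠ 0 := by
  rw [Ne, ZMod.intCast_zmod_eq_zero_iff_dvd]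
  exact h

/-- a prime larger than two divides `x` if it divides `2 x` -/
theorem dvd_of_two {p : ℕ} (hp : p.Prime) (h2 : p ≠ 2) {j : ℕ} {x : ℤ}
    (h : (p : ℤ) ^ j ∣ 2 * x) : (p : ℤ) ^ j ∣ x := by
  have hc : IsCoprime ((p : ℤ) ^ j) 2 := by
    apply IsCoprime.pow_left
    have : Nat.Coprime p 2 := (Nat.coprime_primes hp Nat.prime_two).mpr h2
    exact_mod_cast Nat.isCoprime_iff_coprime.mpr this
  exact hc.dvd_of_dvd_mul_left h

/-- congruent arguments: the solutions of `F t ≡ y` modulo `p ^ j` in one simple class -/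
theorem same_class {p : ℕ} (hp : p.Prime) (h2 : p ≠ 2) {a g h y t t' : ℤ} {j : ℕ}
    (hL : ¬ (p : ℤ) ∣ La g h t) (ht : (p : ℤ) ^ j ∣ Fq a g h t - y)
    (ht' : (p : ℤ) ^ j ∣ Fq a g h t' - y) (htt : (p : ℤ) ∣ t - t') : (p : ℤ) ^ j ∣ t - t' := by
  have hpz : Prime (p : ℤ) := Nat.prime_iff_prime_int.mp hp
  have h1 : (p : ℤ) ^ j ∣ 2 * (Fq a g h t - Fq a g h t') := by
    have : 2 * (Fq a g h t - Fq a g h t') = 2 * ((Fq a g h t - y) - (Fq a g h t' - y)) := by ring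
    rw [this]
    exact (dvd_sub ht ht').mul_left 2
  rw [two_mul_Fq_sub] at h1
  have h3 : ¬ (p : ℤ) ∣ (2 * g - h + h * (t + t')) := by
    intro h4
    apply hL
    have h5 : La g h t = (2 * g - h + h * (t + t')) + h * (t - t') := by
      unfold La; ring
    rw [h5]
    exact dvd_add h4 (htt.mul_left h)
  have hc : IsCoprime ((p : ℤ) ^ j) (2 * g - h + h * (t + t')) :=
    IsCoprime.pow_left ((Prime.coprime_iff_not_dvd hpz).mpr h3)
  exact hc.dvd_of_dvd_mul_right h1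

/-- the number of simple solutions -/
theorem root_count {p : ℕ} (hp : p.Prime) (h2 : p ≠ 2) {a g h y : ℤ} {n j : ℕ} (hj : j ≤ n)
    (hj1 : 1 ≤ j) (hh : ¬ (p : ℤ) ∣ h) (A : Finset ℕ) (hA : A ⊆ range (p ^ n))
    (hL : ∀ t ∈ A, ¬ (p : ℤ) ∣ La g h t) (hF : ∀ t ∈ A, (p : ℤ) ^ j ∣ Fq a g h t - y) :
    A.card ≤ 2 * p ^ (n - j) := by
  classical
  have hpz : Prime (p : ℤ) := Nat.prime_iff_prime_int.mp hp
  have hp0 : 0 < p := hp.pos
  rcases A.eq_empty_or_nonempty with rfl | ⟨t₀, ht₀⟩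
  · simp
  have hpd : ∀ x : ℤ, (p : ℤ) ^ j ∣ x → (p : ℤ) ∣ x := fun x hx =>
    (dvd_pow_self (p : ℤ) (by omega)).trans hx
  -- equal derivative modulo `p`
  have hLa : ∀ t t' : ℤ, (p : ℤ) ∣ La g h t - La g h t' → (p : ℤ) ∣ t - t' := by
    intro t t' hd
    have h3 : La g h t - La g h t' = 2 * (h * (t - t')) := by unfold La; ring
    rw [h3] at hd
    have h4 : (p : ℤ) ∣ h * (t - t') := by
      have := dvd_of_two hp h2 (j := 1) (x := h * (t - t')) (by simpa using hd)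
      simpa using this
    exact (hpz.dvd_or_dvd h4).resolve_left hh
  have hsq : ∀ t ∈ A, (p : ℤ) ∣ La g h t - La g h t₀ ∨ (p : ℤ) ∣ La g h t + La g h t₀ := by
    intro t ht
    apply hpz.dvd_or_dvd
    have h3 : (La g h t - La g h t₀) * (La g h t + La g h t₀)
        = 8 * h * ((Fq a g h t - y) - (Fq a g h t₀ - y)) := by
      have h4 := La_sq a g h t
      have h5 := La_sq a g h t₀
      linear_combination h4 - h5
    rw [h3]
    exact (dvd_sub (hpd _ (hF t ht)) (hpd _ (hF t₀ ht₀))).mul_left _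
  have h1 : (A.filter (fun t : ℕ => (p : ℤ) ∣ La g h t - La g h t₀)).card ≤ p ^ (n - j) := by
    refine class_count p n j hp0 hj _ ((Finset.filter_subset _ _).trans hA) ?_
    intro t ht t' ht'
    rw [Finset.mem_filter] at ht ht'
    refine same_class hp h2 (a := a) (y := y) (hL t ht.1) (hF t ht.1) (hF t' ht'.1) (hLa _ _ ?_)
    have := dvd_sub ht.2 ht'.2
    simpa using this
  have h1' : (A.filter (fun t : ℕ => ¬ (p : ℤ) ∣ La g h t - La g h t₀)).card ≤ p ^ (n - j) := by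
    refine class_count p n j hp0 hj _ ((Finset.filter_subset _ _).trans hA) ?_
    intro t ht t' ht'
    rw [Finset.mem_filter] at ht ht'
    refine same_class hp h2 (a := a) (y := y) (hL t ht.1) (hF t ht.1) (hF t' ht'.1) (hLa _ _ ?_)
    have h3 := (hsq t ht.1).resolve_left ht.2
    have h4 := (hsq t' ht'.1).resolve_left ht'.2
    have := dvd_sub h3 h4
    simpa using this
  have h3 := Finset.card_filter_add_card_filter_not (s := A)
    (fun t : ℕ => (p : ℤ) ∣ La g h t - La g h t₀)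
  omega

/-- sum of truncated valuations over simple solutions -/
theorem tv_sum {p : ℕ} (hp : p.Prime) (h2 : p ≠ 2) {a g h y : ℤ} {n : ℕ}
    (hh : ¬ (p : ℤ) ∣ h) (T : Finset ℕ) (hT : T ⊆ range (p ^ n))
    (hL : ∀ t ∈ T, ¬ (p : ℤ) ∣ La g h t) :
    ∑ t ∈ T, tv p n (Fq a g h t - y) ≤ ∑ j ∈ Icc 1 n, 2 * p ^ (n - j) := by
  classical
  have h1 : ∀ t ∈ T, tv p n (Fq a g h t - y)
      = ∑ j ∈ Icc 1 n, if (p : ℤ) ^ j ∣ Fq a g h t - y then 1 else 0 := by
    intro t _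
    unfold tv
    rw [Finset.card_filter]
  rw [Finset.sum_congr rfl h1, Finset.sum_comm]
  refine Finset.sum_le_sum fun j hj => ?_
  rw [Finset.mem_Icc] at hj
  rw [← Finset.card_filter]
  refine root_count (a := a) (g := g) (h := h) (y := y) hp h2 hj.2 hj.1 hh _
    ((Finset.filter_subset _ _).trans hT) ?_ ?_
  · intro t ht
    exact hL t (Finset.mem_filter.mp ht).1
  · intro t ht
    exact (Finset.mem_filter.mp ht).2

theorem geom (p n : ℕ) (hp : 1 ≤ p) : (p - 1) * ∑ j ∈ Icc 1 n, 2 * p ^ (n - j) ≤ 2 * p ^ n := by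
  have key : (p - 1) * ∑ j ∈ Icc 1 n, 2 * p ^ (n - j) + 2 = 2 * p ^ n := by
    induction n with
    | zero => simp
    | succ n ih =>
      have h1 : ∑ j ∈ Icc 1 (n + 1), 2 * p ^ (n + 1 - j)
          = p * ∑ j ∈ Icc 1 n, 2 * p ^ (n - j) + 2 := by
        rw [Finset.sum_Icc_succ_top (by omega), Nat.sub_self, pow_zero, Finset.mul_sum]
        congr 1
        refine Finset.sum_congr rfl fun j hj => ?_
        rw [Finset.mem_Icc] at hj
        have : n + 1 - j = (n - j) + 1 := by omega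
        rw [this, pow_succ]
        ring
      rw [h1]
      obtain ⟨q, rfl⟩ : ∃ q, p = q + 1 := ⟨p - 1, by omega⟩
      simp only [Nat.add_sub_cancel] at ih ⊢
      rw [pow_succ]
      nlinarith
  omega

/-- the value of `8 h₁ y - Ev` modulo `p` -/
def dsc (p : ℕ) (a g h y : ℤ) : ZMod p := ((8 * h * y - Ev a g h : ℤ) : ZMod p)

theorem dsc_congr {p : ℕ} {a g h y y' : ℤ} (hd : (p : ℤ) ∣ y - y') :
    dsc p a g h y = dsc p a g h y' := by
  unfold dsc
  rw [ZMod.intCast_eq_intCast_iff_dvd_sub]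
  have : (8 * h * y' - Ev a g h) - (8 * h * y - Ev a g h) = -(8 * h * (y - y')) := by ring
  rw [this, dvd_neg]
  exact hd.mul_left _

theorem dsc_self (p : ℕ) (a g h t : ℤ) :
    dsc p a g h (Fq a g h t) = ((La g h t : ℤ) : ZMod p) ^ 2 := by
  unfold dsc
  rw [← La_sq]
  push_cast
  rfl

/-- the contribution of one element -/
theorem one_elt {p : ℕ} (hp : p.Prime) (h2 : p ≠ 2) {a₁ g₁ h₁ a₂ g₂ h₂ y : ℤ} {n : ℕ}
    (hh₁ : ¬ (p : ℤ) ∣ h₁) (hh₂ : ¬ (p : ℤ) ∣ h₂) (T₁ T₂ : Finset ℕ)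
    (hT₁ : T₁ ⊆ range (p ^ n)) (hT₂ : T₂ ⊆ range (p ^ n))
    (hL₁ : ∀ t ∈ T₁, ¬ (p : ℤ) ∣ La g₁ h₁ t) (hL₂ : ∀ t ∈ T₂, ¬ (p : ℤ) ∣ La g₂ h₂ t)
    (hN : ∀ t ∈ T₂, ¬ IsSquare (dsc p a₁ g₁ h₁ (Fq a₂ g₂ h₂ t))) :
    ∑ t ∈ T₁, tv p n (Fq a₁ g₁ h₁ t - y) + ∑ t ∈ T₂, tv p n (Fq a₂ g₂ h₂ t - y)
      ≤ ∑ j ∈ Icc 1 n, 2 * p ^ (n - j) := by
  have hz : ∀ x : ℤ, ¬ (p : ℤ) ∣ x → tv p n x = 0 := by
    intro x hx
    unfold tv
    rw [Finset.card_eq_zero, Finset.filter_eq_empty_iff]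
    intro j hj h
    rw [Finset.mem_Icc] at hj
    exact hx ((dvd_pow_self (p : ℤ) (by omega)).trans h)
  by_cases hs : IsSquare (dsc p a₁ g₁ h₁ y)
  · have h0 : ∑ t ∈ T₂, tv p n (Fq a₂ g₂ h₂ t - y) = 0 := by
      refine Finset.sum_eq_zero fun t ht => hz _ fun hd => ?_
      apply hN t ht
      rw [dsc_congr hd]
      exact hs
    rw [h0, add_zero]
    exact tv_sum hp h2 hh₁ T₁ hT₁ hL₁
  · have h0 : ∑ t ∈ T₁, tv p n (Fq a₁ g₁ h₁ t - y) = 0 := by
      refine Finset.sum_eq_zero fun t ht => hz _ fun hd => ?_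
      apply hs
      rw [← dsc_congr hd, dsc_self]
      exact ⟨_, sq _⟩
    rw [h0, zero_add]
    exact tv_sum hp h2 hh₂ T₂ hT₂ hL₂

end WB_

open WB_ in
theorem stmt_WB (hCON : Stmt_CONIC) : Stmt_WB := by
  classical
  intro s k p a₁ g₁ h₁ a₂ g₂ h₂ hs hp hp7 hh₁ hh₂ hE hl₁ hl₂
  have : Fact p.Prime := ⟨hp⟩
  have hp2 : p ≠ 2 := by omega
  set n := padicValInt p (Dk s k) with hn
  rcases Nat.eq_zero_or_pos n with h0 | hpos
  · rw [h0]
    simp only [Nat.cast_zero, zero_mul]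
    positivity
  have hDdvd : (p : ℤ) ^ n ∣ Dk s k := padicValInt_dvd (Dk s k)
  have h2h₁ : (2 * (h₁ : ZMod p)) ≠ 0 := by
    refine mul_ne_zero ?_ (cast_ne hh₁)
    have : ((2 : ℤ) : ZMod p) ≠ 0 := cast_ne (by
      intro h
      have := Int.le_of_dvd (by norm_num) h
      omega)
    exact_mod_cast this
  have h2h₂ : (2 * (h₂ : ZMod p)) ≠ 0 := by
    refine mul_ne_zero ?_ (cast_ne hh₂)
    have : ((2 : ℤ) : ZMod p) ≠ 0 := cast_ne (by
      intro h
      have := Int.le_of_dvd (by norm_num) h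
      omega)
    exact_mod_cast this
  -- the two sets
  set Q₁ : ℕ → Prop := fun t => ¬ (p : ℤ) ∣ La g₁ h₁ t with hQ₁
  set Q₂ : ℕ → Prop := fun t => ¬ (p : ℤ) ∣ La g₂ h₂ t ∧
    ¬ IsSquare (dsc p a₁ g₁ h₁ (Fq a₂ g₂ h₂ t)) with hQ₂
  set T₁ := (range (p ^ n)).filter Q₁ with hT₁
  set T₂ := (range (p ^ n)).filter Q₂ with hT₂
  have hcast : ∀ g h : ℤ, ∀ t : ℕ, ((La g h t : ℤ) : ZMod p)
      = (2 * (h : ZMod p)) * (t : ZMod p) + ((2 * g - h : ℤ) : ZMod p) := by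
    intro g h t
    unfold La
    push_cast
    ring
  have hdvd : ∀ x : ℤ, (p : ℤ) ∣ x ↔ (x : ZMod p) = 0 := fun x =>
    (ZMod.intCast_zmod_eq_zero_iff_dvd x p).symm
  set α : ZMod p := (h₁ : ZMod p) / h₂ with hα
  set β : ZMod p := ((h₁ * Ev a₂ g₂ h₂ - h₂ * Ev a₁ g₁ h₁ : ℤ) : ZMod p) / h₂ with hβ
  have hh₂' : (h₂ : ZMod p) ≠ 0 := cast_ne hh₂
  have hdsc : ∀ t : ℤ, dsc p a₁ g₁ h₁ (Fq a₂ g₂ h₂ t)
      = α * ((La g₂ h₂ t : ℤ) : ZMod p) ^ 2 + β := by
    intro t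
    have h3 : (h₂ : ZMod p) * dsc p a₁ g₁ h₁ (Fq a₂ g₂ h₂ t)
        = (h₁ : ZMod p) * ((La g₂ h₂ t : ℤ) : ZMod p) ^ 2
          + ((h₁ * Ev a₂ g₂ h₂ - h₂ * Ev a₁ g₁ h₁ : ℤ) : ZMod p) := by
      unfold dsc
      have h4 := La_sq a₂ g₂ h₂ t
      have h5 : h₂ * (8 * h₁ * Fq a₂ g₂ h₂ t - Ev a₁ g₁ h₁)
          = h₁ * La g₂ h₂ t ^ 2 + (h₁ * Ev a₂ g₂ h₂ - h₂ * Ev a₁ g₁ h₁) := by
        linear_combination (-h₁) * h4
      have h6 := congrArg (Int.cast : ℤ → ZMod p) h5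
      push_cast at h6 ⊢
      exact h6
    rw [hα, hβ]
    field_simp
    linear_combination h3
  have hα0 : α ≠ 0 := div_ne_zero (cast_ne hh₁) hh₂'
  have hβ0 : β ≠ 0 := by
    refine div_ne_zero (cast_ne ?_) hh₂'
    intro h
    apply hE
    have : h₂ * Ev a₁ g₁ h₁ - h₁ * Ev a₂ g₂ h₂ = -(h₁ * Ev a₂ g₂ h₂ - h₂ * Ev a₁ g₁ h₁) := by ring
    rw [this, dvd_neg]
    exact h
  have hpn : p ^ n = p ^ (n - 1) * p := by
    rw [← pow_succ]
    congr 1
    omega
  have hper : ∀ g h : ℤ, ∀ t : ℕ, ((La g h ((t + p : ℕ) : ℤ) : ℤ) : ZMod p)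
      = ((La g h t : ℤ) : ZMod p) := by
    intro g h t
    rw [hcast, hcast]
    push_cast
    rw [ZMod.natCast_self, add_zero]
  have hc₁ : T₁.card = p ^ (n - 1) * (p - 1) := by
    rw [hT₁, hpn, periodic_count p (p ^ (n - 1)) Q₁]
    · congr 1
      have h3 : (range p).filter Q₁ = (range p).filter (fun t : ℕ =>
          (2 * (h₁ : ZMod p)) * (t : ZMod p) + ((2 * g₁ - h₁ : ℤ) : ZMod p) ≠ 0) := by
        refine Finset.filter_congr fun t _ => ?_
        rw [hQ₁, ← hcast, Ne, ← hdvd]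
      rw [h3, linear_count p _ _ h2h₁ (fun z => z ≠ 0)]
      rw [Finset.filter_ne' , Finset.card_erase_of_mem (Finset.mem_univ _), Finset.card_univ,
        ZMod.card]
    · intro t
      rw [hQ₁]
      simp only [hdvd, hper]
  have hc₂ : p ^ (n - 1) * (p - 5) ≤ 2 * T₂.card := by
    rw [hT₂, hpn, periodic_count p (p ^ (n - 1)) Q₂]
    · have h3 : (range p).filter Q₂ = (range p).filter (fun t : ℕ =>
          (fun z : ZMod p => z ≠ 0 ∧ ¬ IsSquare (α * z ^ 2 + β))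
          ((2 * (h₂ : ZMod p)) * (t : ZMod p) + ((2 * g₂ - h₂ : ℤ) : ZMod p))) := by
        refine Finset.filter_congr fun t _ => ?_
        rw [hQ₂]
        simp only [← hcast, Ne, ← hdvd, hdsc]
      rw [h3, linear_count p _ _ h2h₂ (fun z => z ≠ 0 ∧ ¬ IsSquare (α * z ^ 2 + β))]
      have h4 := hCON p hp2 α β hα0 hβ0
      have h5 : ((univ : Finset (ZMod p)).filter (fun z => IsSquare (α * z ^ 2 + β))).card
          + ((univ : Finset (ZMod p)).filter (fun z => ¬ IsSquare (α * z ^ 2 + β))).card = p := by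
        rw [Finset.card_filter_add_card_filter_not, Finset.card_univ, ZMod.card]
      have h6 : ((univ : Finset (ZMod p)).filter (fun z => ¬ IsSquare (α * z ^ 2 + β))).card
          ≤ ((univ : Finset (ZMod p)).filter
            (fun z => z ≠ 0 ∧ ¬ IsSquare (α * z ^ 2 + β))).card + 1 := by
        have h7 : (univ : Finset (ZMod p)).filter (fun z => ¬ IsSquare (α * z ^ 2 + β)) ⊆
            insert 0 ((univ : Finset (ZMod p)).filter
              (fun z => z ≠ 0 ∧ ¬ IsSquare (α * z ^ 2 + β))) := by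
          intro z hz
          rw [Finset.mem_filter] at hz
          rw [Finset.mem_insert, Finset.mem_filter]
          by_cases h8 : z = 0
          · exact Or.inl h8
          · exact Or.inr ⟨Finset.mem_univ _, h8, hz.2⟩
        exact (Finset.card_le_card h7).trans (Finset.card_insert_le _ _)
      have h9 : p - 5 ≤ 2 * ((univ : Finset (ZMod p)).filter
            (fun z => z ≠ 0 ∧ ¬ IsSquare (α * z ^ 2 + β))).card := by
        omega
      calc p ^ (n - 1) * (p - 5) ≤ p ^ (n - 1) * (2 * ((univ : Finset (ZMod p)).filter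
            (fun z => z ≠ 0 ∧ ¬ IsSquare (α * z ^ 2 + β))).card) := Nat.mul_le_mul_left _ h9
        _ = _ := by ring
    · intro t
      rw [hQ₂]
      simp only [hdvd, hper, hdsc]
  -- double counting
  have hone : ∀ F : ℤ → ℤ, Lvl s k F → ∀ t : ℤ, n ≤ ∑ i ∈ range k, tv p n (F t - s i) := by
    intro F hF t
    refine Pool.Agent.Work.MP_b29d7f_nt.sum_tv_ge hp s k (F t) (F t) n n le_rfl (by simp) ?_
    exact hDdvd.trans (hF t)
  have hA : (T₁.card + T₂.card) * n ≤ k * ∑ j ∈ Icc 1 n, 2 * p ^ (n - j) := by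
    calc (T₁.card + T₂.card) * n = ∑ _t ∈ T₁, n + ∑ _t ∈ T₂, n := by
          rw [Finset.sum_const, Finset.sum_const, smul_eq_mul, smul_eq_mul]; ring
      _ ≤ ∑ t ∈ T₁, ∑ i ∈ range k, tv p n (Fq a₁ g₁ h₁ t - s i)
          + ∑ t ∈ T₂, ∑ i ∈ range k, tv p n (Fq a₂ g₂ h₂ t - s i) :=
          add_le_add (Finset.sum_le_sum fun t _ => hone _ hl₁ _)
            (Finset.sum_le_sum fun t _ => hone _ hl₂ _)
      _ = ∑ i ∈ range k, (∑ t ∈ T₁, tv p n (Fq a₁ g₁ h₁ t - s i)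
          + ∑ t ∈ T₂, tv p n (Fq a₂ g₂ h₂ t - s i)) := by
          rw [Finset.sum_comm, Finset.sum_comm (s := T₂), Finset.sum_add_distrib]
      _ ≤ ∑ _i ∈ range k, ∑ j ∈ Icc 1 n, 2 * p ^ (n - j) := by
          refine Finset.sum_le_sum fun i _ => ?_
          refine one_elt hp hp2 hh₁ hh₂ T₁ T₂ (Finset.filter_subset _ _)
            (Finset.filter_subset _ _) ?_ ?_ ?_
          · intro t ht; exact (Finset.mem_filter.mp ht).2
          · intro t ht; exact (Finset.mem_filter.mp ht).2.1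
          · intro t ht; exact (Finset.mem_filter.mp ht).2.2
      _ = k * ∑ j ∈ Icc 1 n, 2 * p ^ (n - j) := by
          rw [Finset.sum_const, Finset.card_range, smul_eq_mul]
  have hB := geom p n (by omega)
  -- arithmetic
  have hC : (p - 1) * ((p ^ (n - 1) * (2 * (p - 1)) + p ^ (n - 1) * (p - 5)) * n)
      ≤ k * (4 * p ^ n) := by
    calc (p - 1) * ((p ^ (n - 1) * (2 * (p - 1)) + p ^ (n - 1) * (p - 5)) * n)
        ≤ (p - 1) * ((2 * T₁.card + 2 * T₂.card) * n) := by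
          apply Nat.mul_le_mul_left
          apply Nat.mul_le_mul_right
          apply add_le_add _ hc₂
          rw [hc₁]
          apply le_of_eq
          ring
      _ = 2 * ((p - 1) * ((T₁.card + T₂.card) * n)) := by ring
      _ ≤ 2 * ((p - 1) * (k * ∑ j ∈ Icc 1 n, 2 * p ^ (n - j))) :=
          Nat.mul_le_mul_left _ (Nat.mul_le_mul_left _ hA)
      _ = 2 * (k * ((p - 1) * ∑ j ∈ Icc 1 n, 2 * p ^ (n - j))) := by ring
      _ ≤ 2 * (k * (2 * p ^ n)) := Nat.mul_le_mul_left _ (Nat.mul_le_mul_left _ hB)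
      _ = k * (4 * p ^ n) := by ring
  have hD : n * ((p - 1) * (2 * (p - 1) + (p - 5))) ≤ 4 * k * p := by
    have hpos' : 0 < p ^ (n - 1) := pow_pos hp.pos _
    apply Nat.le_of_mul_le_mul_left _ hpos'
    calc p ^ (n - 1) * (n * ((p - 1) * (2 * (p - 1) + (p - 5))))
        = (p - 1) * ((p ^ (n - 1) * (2 * (p - 1)) + p ^ (n - 1) * (p - 5)) * n) := by ring
      _ ≤ k * (4 * p ^ n) := hC
      _ = p ^ (n - 1) * (4 * k * p) := by rw [hpn]; ring
  obtain ⟨r, hr⟩ : ∃ r, p = r + 7 := ⟨p - 7, by omega⟩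
  have e1 : p - 1 = r + 6 := by omega
  have e2 : p - 5 = r + 2 := by omega
  rw [e1, e2] at hD
  have hD' : (n : ℝ) * (((r : ℝ) + 6) * (2 * (r + 6) + (r + 2))) ≤ 4 * k * p := by
    exact_mod_cast hD
  have hpr : (p : ℝ) = r + 7 := by rw [hr]; push_cast; ring
  refine le_trans ?_ hD'
  apply mul_le_mul_of_nonneg_left _ (Nat.cast_nonneg n)
  rw [hpr]
  have : (0 : ℝ) ≤ r := Nat.cast_nonneg r
  nlinarith

end Pool.Agent.Work.MP_b29d7f_cvx
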