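import Pool.Agent.Work.MP_b29d7f_cvx.InterfaceC

/-!
# Block WL of the convex classification (helper16)
-/

namespace Pool.Agent.Work.MP_b29d7f_cvx

open Finset

namespace WLaux

theorem sum_val_log_le (n : ℕ) (hn : n ≠ 0) (P : Finset ℕ) (hP : ∀ p ∈ P, p.Prime) :
    ∑ p ∈ P, Real.log p * (padicValNat p n : ℝ) ≤ Real.log n := by
  have h1 : Real.log n = ∑ p ∈ n.primeFactors, Real.log p * (padicValNat p n : ℝ) := by
    rw [Real.log_nat_eq_sum_factorization, Finsupp.sum, Nat.support_factorization]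
    refine sum_congr rfl fun p hp => ?_
    rw [Nat.factorization_def n (Nat.prime_of_mem_primeFactors hp), mul_comm]
  have h2 : ∑ p ∈ P, Real.log p * (padicValNat p n : ℝ) =
      ∑ p ∈ P.filter (fun p => p ∈ n.primeFactors), Real.log p * (padicValNat p n : ℝ) := by
    symm
    refine sum_filter_of_ne fun p hp h => ?_
    rw [Nat.mem_primeFactors]
    refine ⟨hP p hp, ?_, hn⟩
    by_contra h0
    apply h
    rw [padicValNat.eq_zero_of_not_dvd h0]
    simp
  rw [h1, h2]
  refine sum_le_sum_of_subset_of_nonneg (fun p hp => (mem_filter.1 hp).2) fun p _ _ => ?_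
  exact mul_nonneg (Real.log_natCast_nonneg p) (Nat.cast_nonneg _)

theorem val_le (s : ℕ → ℤ) (k : ℕ) (h : ℤ) (hh : 1 ≤ h)
    (hd : 2 ^ k * Dk s k ∣ ((2 * k).factorial : ℤ) * h ^ k) (p : ℕ) (hp : p.Prime) :
    (padicValInt p (Dk s k) : ℝ) ≤ 2 * k / ((p : ℝ) - 1) + k * (padicValNat p h.natAbs : ℝ) := by
  have := Fact.mk hp
  have h1 : (Dk s k).natAbs ∣ (2 * k).factorial * h.natAbs ^ k := by
    have h2 : Dk s k ∣ ((2 * k).factorial : ℤ) * h ^ k := (Dvd.intro_left _ rfl).trans hd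
    have h3 := Int.natAbs_dvd_natAbs.2 h2
    rwa [Int.natAbs_mul, Int.natAbs_pow, Int.natAbs_natCast] at h3
  have hne1 : (2 * k).factorial ≠ 0 := (Nat.factorial_pos _).ne'
  have hne2 : h.natAbs ^ k ≠ 0 := pow_ne_zero _ (by omega)
  have h4 : padicValNat p (Dk s k).natAbs ≤ padicValNat p ((2 * k).factorial * h.natAbs ^ k) :=
    (padicValNat_dvd_iff_le (mul_ne_zero hne1 hne2)).1 (pow_padicValNat_dvd.trans h1)
  rw [padicValNat.mul hne1 hne2, padicValNat.pow] at h4
  have h5 := sub_one_mul_padicValNat_factorial (p := p) (2 * k)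
  have h6 : (p - 1) * padicValNat p (2 * k).factorial ≤ 2 * k := by omega
  have hp1 : (0 : ℝ) < (p : ℝ) - 1 := by
    have : (2 : ℝ) ≤ p := by exact_mod_cast hp.two_le
    linarith
  have h7 : (padicValNat p (2 * k).factorial : ℝ) ≤ 2 * k / ((p : ℝ) - 1) := by
    rw [le_div_iff₀ hp1, mul_comm]
    have h8 : (((p - 1) * padicValNat p (2 * k).factorial : ℕ) : ℝ) ≤ ((2 * k : ℕ) : ℝ) := by
      exact_mod_cast h6
    rw [Nat.cast_mul, Nat.cast_sub hp.one_lt.le] at h8
    push_cast at h8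
    exact h8
  have h9 : (padicValInt p (Dk s k) : ℝ) ≤
      (padicValNat p (2 * k).factorial : ℝ) + k * (padicValNat p h.natAbs : ℝ) := by
    unfold padicValInt
    exact_mod_cast h4
  linarith

end WLaux

theorem stmt_WL (hLEAD : Stmt_LEAD) : Stmt_WL := by
  intro s k a g h _ hh hL P hP
  have hd := hLEAD s k a g h hL
  have hn : h.natAbs ≠ 0 := by omega
  have h1 : ∑ p ∈ P, Real.log p * (padicValInt p (Dk s k) : ℝ) ≤
      ∑ p ∈ P, (2 * k * (Real.log p / ((p : ℝ) - 1)) +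
        k * (Real.log p * (padicValNat p h.natAbs : ℝ))) := by
    refine sum_le_sum fun p hp => ?_
    have h2 := mul_le_mul_of_nonneg_left (WLaux.val_le s k h hh hd p (hP p hp))
      (Real.log_natCast_nonneg p)
    refine h2.trans (le_of_eq ?_)
    ring
  rw [sum_add_distrib, ← mul_sum, ← mul_sum] at h1
  have h3 := WLaux.sum_val_log_le h.natAbs hn P hP
  have h4 : ((h.natAbs : ℕ) : ℝ) = (h : ℝ) := by
    rw [← Int.cast_natCast, Int.natCast_natAbs, abs_of_nonneg (by omega)]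
  rw [h4] at h3
  have h5 := mul_le_mul_of_nonneg_left h3 (Nat.cast_nonneg k : (0 : ℝ) ≤ k)
  linarith

end Pool.Agent.Work.MP_b29d7f_cvx
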