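import Pool.Agent.Work.MP_b29d7f_cvx.Interface

/-!
# Block WLOW of the convex classification (helper16)
-/

namespace Pool.Agent.Work.MP_b29d7f_cvx

open Finset
open Pool.Agent.Work.MP_b29d7f_nt (log_factorial_ge)
open Pool.Agent.Work.MP_b29d7f_sep (nv EW EL)

namespace WLOWaux

theorem sum_log_sub (j : ℕ) : ∑ i ∈ range j, Real.log ((j : ℝ) - i) = Real.log (j.factorial : ℝ) := by
  rw [← Nat.descFactorial_self, Nat.descFactorial_eq_prod_range, Nat.cast_prod, Real.log_prod]
  · refine sum_congr rfl fun i hi => ?_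
    rw [mem_range] at hi
    rw [Nat.cast_sub hi.le]
  · intro i hi
    rw [mem_range] at hi
    have : 0 < j - i := by omega
    positivity

theorem sum_const_log (c : ℝ) (m : ℕ) :
    ∑ j ∈ range (m + 1), ∑ i ∈ range j, (c + Real.log ((j : ℝ) - i)) =
      (m : ℝ) * (m + 1) / 2 * c + ∑ j ∈ range (m + 1), Real.log (j.factorial : ℝ) := by
  induction m with
  | zero => simp
  | succ m ih =>
    rw [sum_range_succ, ih, sum_range_succ _ (m + 1), sum_add_distrib, sum_log_sub, sum_const,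
      card_range, nsmul_eq_mul]
    push_cast
    ring

theorem step (m : ℕ) (hm : 1 ≤ m) :
    (m : ℝ) ^ 2 * (Real.log (m + 1) - Real.log m) ≤ m := by
  have hm0 : (0 : ℝ) < m := by exact_mod_cast hm
  have h1 : Real.log ((m + 1) / m) ≤ (m + 1) / m - 1 :=
    Real.log_le_sub_one_of_pos (by positivity)
  rw [Real.log_div (by positivity) hm0.ne'] at h1
  have h2 : ((m : ℝ) + 1) / m - 1 = 1 / m := by field_simp; ring
  rw [h2] at h1
  calc (m : ℝ) ^ 2 * (Real.log (m + 1) - Real.log m) ≤ (m : ℝ) ^ 2 * (1 / m) :=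
        mul_le_mul_of_nonneg_left h1 (by positivity)
    _ = m := by field_simp

theorem fact_low (m : ℕ) :
    (m : ℝ) ^ 2 / 2 * Real.log m - 3 * (m : ℝ) ^ 2 / 4 - m / 2 ≤
      ∑ j ∈ range (m + 1), Real.log (j.factorial : ℝ) := by
  induction m with
  | zero => simp
  | succ m ih =>
    rw [sum_range_succ]
    have h1 := log_factorial_ge (m + 1)
    rcases Nat.eq_zero_or_pos m with rfl | hm
    · simp
      norm_num
    · have h2 := step m hm
      have h3 : 0 ≤ Real.log ((m : ℝ) + 1) := Real.log_nonneg (by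
        have : (0 : ℝ) ≤ m := Nat.cast_nonneg m
        linarith)
      push_cast at h1 ⊢
      nlinarith [h1, h2, h3, ih]

theorem pair_low {s : ℕ → ℤ} {C₀ : ℝ} (hs : Cvx s C₀)
    (h2 : ∀ i j : ℕ, i ≤ j → ((j : ℤ) - i) * gp s i ≤ s j - s i)
    (hg : ∀ k : ℕ, 1 ≤ gp s k) (u i j : ℕ) (hui : u ≤ i) (hij : i < j) :
    Real.log (gp s u) + Real.log ((j : ℝ) - i) ≤ Real.log (s j - s i : ℤ) := by
  have h1 : ((j : ℤ) - i) * gp s u ≤ s j - s i := by
    have h3 : ((j : ℤ) - i) * gp s u ≤ ((j : ℤ) - i) * gp s i :=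
      mul_le_mul_of_nonneg_left (hs.gp_mono hui) (by omega)
    exact h3.trans (h2 i j hij.le)
  have hg0 : (0 : ℝ) < (gp s u : ℝ) := by
    have := hg u
    exact_mod_cast (by omega : 0 < gp s u)
  have hji : (0 : ℝ) < (j : ℝ) - i := by
    have : (i : ℝ) < j := by exact_mod_cast hij
    linarith
  rw [← Real.log_mul hg0.ne' hji.ne']
  apply Real.log_le_log (by positivity)
  have h4 : (((j : ℤ) - i) * gp s u : ℤ) ≤ ((s j - s i : ℤ) : ℝ) := by exact_mod_cast h1
  push_cast at h4 ⊢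
  linarith

end WLOWaux

open WLOWaux in
theorem stmt_WLOW (hCVF : Stmt_CVF) (hPRF : Stmt_PRF) : Stmt_WLOW := by
  intro s C₀ hs N m hm hmN
  obtain ⟨-, h2, -, -, -, -, -, hg, -⟩ := hCVF s hs.zero hs.mono hs.gp_mono
  obtain ⟨-, -, -, -, hEL⟩ := hPRF s C₀ hs 0
  have key : ∀ u ∈ range (N - m + 1), (m : ℝ) * (m + 1) / 2 * Real.log (gp s u) +
      (m : ℝ) ^ 2 / 2 * (Real.log m - 2) ≤ EL s u m := by
    intro u _
    rw [hEL u m, sum_Ico_eq_sum_range]
    have h3 : ∀ j ∈ range (m + 1), ∑ i ∈ range j, (Real.log (gp s u) + Real.log ((j : ℝ) - i)) ≤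
        ∑ i ∈ Ico u (u + j), Real.log (s (u + j) - s i : ℤ) := by
      intro j _
      rw [sum_Ico_eq_sum_range, show u + j - u = j by omega]
      refine sum_le_sum fun i hi => ?_
      rw [mem_range] at hi
      have h4 := pair_low hs h2 hg u (u + i) (u + j) (by omega) (by omega)
      have h5 : (((u + j : ℕ) : ℝ) - ((u + i : ℕ) : ℝ)) = (j : ℝ) - i := by
        push_cast
        ring
      rwa [h5] at h4
    have h4 := sum_le_sum h3
    rw [sum_const_log] at h4
    have h5 := fact_low m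
    have h6 : (2 : ℝ) ≤ m := by exact_mod_cast hm
    rw [show u + m + 1 - u = m + 1 by omega]
    nlinarith [h4, h5, h6]
  have hsum := sum_le_sum key
  rw [sum_add_distrib, ← mul_sum, sum_const, card_range, nsmul_eq_mul] at hsum
  have h3 : (((N - m + 1 : ℕ)) : ℝ) = (N : ℝ) - m + 1 := by
    rw [Nat.cast_add, Nat.cast_sub hmN, Nat.cast_one]
  rw [h3] at hsum
  linarith

end Pool.Agent.Work.MP_b29d7f_cvx
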