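import Pool.Agent.Work.MP_b29d7f_cvx.Interface

/-!
# Block WUP: upper bound for the logarithmic energy of the windows
-/

namespace Pool.Agent.Work.MP_b29d7f_cvx

open Finset
open Pool.Agent.Work.MP_b29d7f_half (Ord A wv lD HalfDense)
open Pool.Agent.Work.MP_b29d7f_sep (nv EW EL)

theorem WUP_tri (m : ℕ) :
    ∑ t ∈ range m, min ((t : ℝ) + 1) ((m : ℝ) - t) ≤ ((m : ℝ) + 1) ^ 2 / 4 := by
  induction m using Nat.twoStepInduction with
  | zero => norm_num
  | one =>
    rw [Finset.sum_range_one]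
    have : min (((0 : ℕ) : ℝ) + 1) (((1 : ℕ) : ℝ) - ((0 : ℕ) : ℝ)) ≤ 1 := by
      apply le_trans (min_le_left _ _)
      norm_num
    refine le_trans this ?_
    norm_num
  | more m ih _ =>
    rw [Finset.sum_range_succ, Finset.sum_range_succ']
    have e1 : ∀ t ∈ range m, min (((t + 1 : ℕ) : ℝ) + 1) (((m + 2 : ℕ) : ℝ) - ((t + 1 : ℕ) : ℝ)) =
        min ((t : ℝ) + 1) ((m : ℝ) - t) + 1 := by
      intro t _
      push_cast
      rw [show (m : ℝ) + 2 - (t + 1) = ((m : ℝ) - t) + 1 from by ring, min_add_add_right]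
    rw [Finset.sum_congr rfl e1, Finset.sum_add_distrib]
    have h2 : min (((m + 1 : ℕ) : ℝ) + 1) (((m + 2 : ℕ) : ℝ) - ((m + 1 : ℕ) : ℝ)) ≤ 1 := by
      apply le_trans (min_le_right _ _)
      push_cast
      linarith
    have h3 : min (((0 : ℕ) : ℝ) + 1) (((m + 2 : ℕ) : ℝ) - ((0 : ℕ) : ℝ)) ≤ 1 := by
      apply le_trans (min_le_left _ _)
      push_cast
      linarith
    have h4 : ∑ t ∈ range m, (1 : ℝ) = m := by simp
    rw [h4]
    calc _ ≤ (((m : ℝ) + 1) ^ 2 / 4 + m) + 1 + 1 := add_le_add (add_le_add (add_le_add ih le_rfl) h3) h2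
      _ = (((m + 2 : ℕ) : ℝ) + 1) ^ 2 / 4 := by push_cast; ring

/-- the sum over the windows of the distances -/
theorem WUP_min (o : ℕ → ℝ) (ho : ∀ g, 0 ≤ o g) (N m : ℕ) (hmN : m ≤ N) :
    ∑ u ∈ range (N - m + 1), ∑ g ∈ Ico u (u + m),
      o g * min ((u : ℝ) + m - g) ((g : ℝ) + 1 - u) ≤
    ((m : ℝ) + 1) ^ 2 / 4 * ∑ g ∈ range N, o g := by
  have h1 : ∀ u ∈ range (N - m + 1), ∑ g ∈ Ico u (u + m),
      o g * min ((u : ℝ) + m - g) ((g : ℝ) + 1 - u) =
      ∑ g ∈ range N, (if u ≤ g ∧ g < u + m then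
        o g * min ((u : ℝ) + m - g) ((g : ℝ) + 1 - u) else 0) := by
    intro u hu
    have hu' := mem_range.1 hu
    rw [← Finset.sum_filter]
    apply Finset.sum_congr _ (fun _ _ => rfl)
    ext g
    simp only [mem_Ico, mem_filter, mem_range]
    constructor
    · intro h
      exact ⟨by omega, h⟩
    · intro h
      exact h.2
  rw [Finset.sum_congr rfl h1, Finset.sum_comm, Finset.mul_sum]
  apply Finset.sum_le_sum
  intro g hg
  -- the sum over u
  have h2 : ∑ u ∈ range (N - m + 1), (if u ≤ g ∧ g < u + m then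
        o g * min ((u : ℝ) + m - g) ((g : ℝ) + 1 - u) else 0) ≤
      ∑ u ∈ Ico (g + 1 - m) (g + 1), o g * |min ((u : ℝ) + m - g) ((g : ℝ) + 1 - u)| := by
    rw [← Finset.sum_filter]
    have hsub : ((range (N - m + 1)).filter fun u => u ≤ g ∧ g < u + m) ⊆
        Ico (g + 1 - m) (g + 1) := by
      intro u hu
      have := (mem_filter.1 hu).2
      exact mem_Ico.2 (by omega)
    refine le_trans (Finset.sum_le_sum (fun u _ => ?_))
      (Finset.sum_le_sum_of_subset_of_nonneg hsub (fun u _ _ =>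
        mul_nonneg (ho g) (abs_nonneg _)))
    exact mul_le_mul_of_nonneg_left (le_abs_self _) (ho g)
  refine le_trans h2 ?_
  have h3 : ∑ u ∈ Ico (g + 1 - m) (g + 1), |min ((u : ℝ) + m - g) ((g : ℝ) + 1 - u)| ≤
      ∑ t ∈ range m, min ((t : ℝ) + 1) ((m : ℝ) - t) := by
    -- t = g - u
    have e : ∑ u ∈ Ico (g + 1 - m) (g + 1), |min ((u : ℝ) + m - g) ((g : ℝ) + 1 - u)| =
        ∑ u ∈ Ico (g + 1 - m) (g + 1), min (((g - u : ℕ) : ℝ) + 1) ((m : ℝ) - ((g - u : ℕ) : ℝ)) := by
      apply Finset.sum_congr rfl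
      intro u hu
      have hu' := mem_Ico.1 hu
      have hc : ((g - u : ℕ) : ℝ) = (g : ℝ) - u := by rw [Nat.cast_sub (by omega)]
      have hug : (u : ℝ) ≤ g := by exact_mod_cast (by omega : u ≤ g)
      have hgm : (g : ℝ) + 1 ≤ u + m := by exact_mod_cast (by omega : g + 1 ≤ u + m)
      rw [hc, abs_of_nonneg, min_comm]
      · congr 1 <;> ring
      · apply le_min <;> linarith
    rw [e]
    have hinj : Set.InjOn (fun u => g - u) (Ico (g + 1 - m) (g + 1) : Finset ℕ) := by
      intro a ha b hb hab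
      have ha' := mem_Ico.1 (Finset.mem_coe.1 ha)
      have hb' := mem_Ico.1 (Finset.mem_coe.1 hb)
      simp only at hab
      omega
    rw [← Finset.sum_image (f := fun t : ℕ => min ((t : ℝ) + 1) ((m : ℝ) - t)) hinj]
    apply Finset.sum_le_sum_of_subset_of_nonneg
    · intro t ht
      obtain ⟨u, hu, rfl⟩ := mem_image.1 ht
      have := mem_Ico.1 hu
      exact mem_range.2 (by omega)
    · intro t ht _
      have : (t : ℝ) < m := by exact_mod_cast mem_range.1 ht
      apply le_min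
      · positivity
      · linarith
  rw [← Finset.mul_sum]
  calc o g * ∑ u ∈ Ico (g + 1 - m) (g + 1), |min ((u : ℝ) + m - g) ((g : ℝ) + 1 - u)|
      ≤ o g * (((m : ℝ) + 1) ^ 2 / 4) := by
        apply mul_le_mul_of_nonneg_left _ (ho g)
        exact le_trans h3 (WUP_tri m)
    _ = ((m : ℝ) + 1) ^ 2 / 4 * o g := by ring

/-- the sum over the windows of the growth -/
theorem WUP_growth (w : ℕ → ℕ) (hw : Monotone w) (N m : ℕ) (hmN : m ≤ N) :
    ∑ u ∈ range (N - m + 1), ((w (u + m) : ℝ) - w u) ≤ m * w N := by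
  have h1 : ∀ u ∈ range (N - m + 1), ((w (u + m) : ℝ) - w u) =
      ∑ t ∈ range m, ((w (u + (t + 1)) : ℝ) - w (u + t)) := by
    intro u _
    rw [Finset.sum_range_sub (fun t => (w (u + t) : ℝ))]
    simp
  rw [Finset.sum_congr rfl h1, Finset.sum_comm]
  have h2 : ∀ t ∈ range m, ∑ u ∈ range (N - m + 1), ((w (u + (t + 1)) : ℝ) - w (u + t)) ≤ w N := by
    intro t ht
    have ht' := mem_range.1 ht
    have e : ∀ u ∈ range (N - m + 1), ((w (u + (t + 1)) : ℝ) - w (u + t)) =
        ((fun u => (w (u + t) : ℝ)) (u + 1) - (fun u => (w (u + t) : ℝ)) u) := by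
      intro u _
      simp only
      rw [show u + 1 + t = u + (t + 1) from by ring]
    rw [Finset.sum_congr rfl e, Finset.sum_range_sub (fun u => (w (u + t) : ℝ))]
    have h3 : (w (N - m + 1 + t) : ℝ) ≤ w N := by exact_mod_cast hw (by omega)
    have h4 : (0 : ℝ) ≤ w (0 + t) := Nat.cast_nonneg _
    linarith
  refine le_trans (Finset.sum_le_sum h2) ?_
  simp

theorem WUP_om_sum {p : ℕ} {s : ℕ → ℤ} (hmono : Monotone (nv p s)) (h0 : nv p s 0 = 0) (N : ℕ) :
    ∑ g ∈ range N, (om p s g : ℝ) = nv p s N := by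
  have h1 : ∀ g ∈ range N, (om p s g : ℝ) = (nv p s (g + 1) : ℝ) - nv p s g := by
    intro g _
    unfold om
    rw [Nat.cast_sub (hmono (Nat.le_succ g))]
  rw [Finset.sum_congr rfl h1, Finset.sum_range_sub (fun g => (nv p s g : ℝ)), h0]
  simp

theorem stmt_WUP (h1 : Stmt_PAD) (h2 : Stmt_PAE) (h3 : Stmt_PRF) : Stmt_WUP := by
  intro s C₀ hs N M P m hm hmN
  classical
  obtain ⟨hPR, -, hlD, hEL, -⟩ := h3 s C₀ hs (2 * N)
  have hlogp : ∀ p ∈ PR s (2 * N), 0 ≤ Real.log p := fun p hp =>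
    Real.log_nonneg (by exact_mod_cast (hPR p hp).one_lt.le)
  -- the decomposition of the set of primes
  have hdec : ∀ f : ℕ → ℝ, ∑ p ∈ PR s (2 * N), f p =
      (∑ p ∈ PA s N P, f p + ∑ p ∈ PC s N M P, f p) + ∑ p ∈ PG s N M P, f p := by
    intro f
    have e1 : PR s (2 * N) = (PA s N P ∪ PC s N M P) ∪ PG s N M P := by
      ext p
      rw [mem_union, mem_union, mem_PA, mem_PC, mem_PG]
      constructor
      · intro hp
        by_cases h4 : nv p s P = 0
        · by_cases h5 : Catch p s N M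
          · exact Or.inl (Or.inr ⟨hp, h4, h5⟩)
          · exact Or.inr ⟨hp, h4, h5⟩
        · exact Or.inl (Or.inl ⟨hp, by omega⟩)
      · rintro ((h | h) | h) <;> exact h.1
    rw [e1, Finset.sum_union, Finset.sum_union]
    · rw [Finset.disjoint_left]
      intro p hp hp'
      have := (mem_PA.1 hp).2
      have := (mem_PC.1 hp').2.1
      omega
    · rw [Finset.disjoint_left]
      intro p hp hp'
      have h5 := (mem_PG.1 hp').2
      rcases mem_union.1 hp with h | h
      · have := (mem_PA.1 h).2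
        omega
      · exact h5.2 (mem_PC.1 h).2.2
  have e2 : ∑ u ∈ range (N - m + 1), EL s u m =
      ∑ p ∈ PR s (2 * N), Real.log p * ∑ u ∈ range (N - m + 1), EW p s u m := by
    have e3 : ∀ u ∈ range (N - m + 1), EL s u m =
        ∑ p ∈ PR s (2 * N), Real.log p * EW p s u m := by
      intro u hu
      have := mem_range.1 hu
      exact hEL u m (by omega)
    rw [Finset.sum_congr rfl e3, Finset.sum_comm]
    apply Finset.sum_congr rfl
    intro p _
    rw [Finset.mul_sum]
  rw [e2, hdec]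
  -- primes of type (a) and caught primes
  have h5 : ∀ p ∈ PR s (2 * N), Real.log p * ∑ u ∈ range (N - m + 1), EW p s u m ≤
      (m : ℝ) * (m + 1) / 2 * (Real.log p * nv p s N) := by
    intro p hp
    have hpp := hPR p hp
    obtain ⟨hmono, hnv0, -, -⟩ := h1 s C₀ hs p hpp
    obtain ⟨-, -, -, -, -, hE, -⟩ := h2 s C₀ hs p hpp
    have h6 : ∑ u ∈ range (N - m + 1), EW p s u m ≤ (m : ℝ) * (m + 1) / 2 * nv p s N := by
      calc ∑ u ∈ range (N - m + 1), EW p s u m
          ≤ ∑ u ∈ range (N - m + 1), ((m : ℝ) + 1) / 2 * ((nv p s (u + m) : ℝ) - nv p s u) := by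
            apply Finset.sum_le_sum
            intro u _
            have := hE u m
            linarith
        _ = ((m : ℝ) + 1) / 2 * ∑ u ∈ range (N - m + 1), ((nv p s (u + m) : ℝ) - nv p s u) := by
            rw [Finset.mul_sum]
        _ ≤ ((m : ℝ) + 1) / 2 * (m * nv p s N) :=
            mul_le_mul_of_nonneg_left (WUP_growth _ hmono N m hmN) (by positivity)
        _ = (m : ℝ) * (m + 1) / 2 * nv p s N := by ring
    calc Real.log p * ∑ u ∈ range (N - m + 1), EW p s u m
        ≤ Real.log p * ((m : ℝ) * (m + 1) / 2 * nv p s N) :=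
          mul_le_mul_of_nonneg_left h6 (hlogp p hp)
      _ = _ := by ring
  have hA : ∑ p ∈ PA s N P, Real.log p * ∑ u ∈ range (N - m + 1), EW p s u m ≤
      (m : ℝ) * (m + 1) / 2 * ∑ p ∈ PA s N P, Real.log p * nv p s N := by
    rw [Finset.mul_sum]
    exact Finset.sum_le_sum (fun p hp => h5 p (mem_PA.1 hp).1)
  have hC : ∑ p ∈ PC s N M P, Real.log p * ∑ u ∈ range (N - m + 1), EW p s u m ≤
      (m : ℝ) * (m + 1) / 2 * ∑ p ∈ PC s N M P, Real.log p * nv p s N := by
    rw [Finset.mul_sum]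
    exact Finset.sum_le_sum (fun p hp => h5 p (mem_PC.1 hp).1)
  -- the good primes
  have hG : ∑ p ∈ PG s N M P, Real.log p * ∑ u ∈ range (N - m + 1), EW p s u m ≤
      ((m : ℝ) + 1) ^ 2 / 4 * ∑ p ∈ PG s N M P, Real.log p * nv p s N +
        Pair s N M P m - SDfc s N M P m := by
    have h7 : ∀ p ∈ PG s N M P, Real.log p * ∑ u ∈ range (N - m + 1), EW p s u m ≤
        ((m : ℝ) + 1) ^ 2 / 4 * (Real.log p * nv p s N) +
          Real.log p * ∑ u ∈ range (N - m + 1), PT p s u m -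
          Real.log p * ∑ u ∈ range (N - m + 1), Dfc p s u m := by
      intro p hp
      have hpR := (mem_PG.1 hp).1
      have hpp := hPR p hpR
      obtain ⟨hmono, hnv0, -, -⟩ := h1 s C₀ hs p hpp
      have h8 : ∑ u ∈ range (N - m + 1), EW p s u m =
          ∑ u ∈ range (N - m + 1), Mn p s u m + ∑ u ∈ range (N - m + 1), PT p s u m -
            ∑ u ∈ range (N - m + 1), Dfc p s u m := by
        rw [← Finset.sum_add_distrib, ← Finset.sum_sub_distrib]
        apply Finset.sum_congr rfl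
        intro u _
        unfold Dfc
        ring
      have h9 : ∑ u ∈ range (N - m + 1), Mn p s u m ≤ ((m : ℝ) + 1) ^ 2 / 4 * nv p s N := by
        rw [← WUP_om_sum hmono hnv0 N]
        exact WUP_min (fun g => (om p s g : ℝ)) (fun g => Nat.cast_nonneg _) N m hmN
      rw [h8]
      have h10 := mul_le_mul_of_nonneg_left h9 (hlogp p hpR)
      linarith
    refine le_trans (Finset.sum_le_sum h7) ?_
    rw [Finset.sum_sub_distrib, Finset.sum_add_distrib, ← Finset.mul_sum]
    unfold Pair SDfc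
    exact le_rfl
  have hl : lD s N = NA s N M P + ∑ p ∈ PG s N M P, Real.log p * nv p s N := by
    rw [hlD N (by omega), hdec]
    rfl
  have e4 : lD s N - NA s N M P = ∑ p ∈ PG s N M P, Real.log p * nv p s N := by
    rw [hl]
    ring
  rw [e4]
  unfold NA
  rw [mul_add]
  linarith

end Pool.Agent.Work.MP_b29d7f_cvx
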