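import Pool.Agent.Work.MP_b29d7f_cvx.B_ZDX2

/-!
# Block ZDX: existence of the data of the zone lemma (helper98)
-/

namespace Pool.Agent.Work.MP_b29d7f_cvx

open Finset Filter
open scoped Classical
open Pool.Agent.Work.MP_b29d7f_nt (IsPOrdering HasSimultaneousOrdering PS vd ld tv)
open Pool.Agent.Work.MP_b29d7f_half (Ord A wv lD HalfDense)
open Pool.Agent.Work.MP_b29d7f_sep (nv EW EL)

namespace ZDXaux

/-- `N` is large -/
structure Big (C₀ : ℝ) (N : ℕ) : Prop where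
  ten : 10 ≤ N
  b1 : 10 ^ 45 ≤ (N : ℝ) ^ (cc / 2)
  b2 : 10 ^ 10 ≤ (N : ℝ) ^ (1 - cc)
  b3 : 5 ≤ (N : ℝ) ^ (cc - 10 * ep)
  b4 : 2 * 10 ^ 106 * C₀ ^ 2 ≤ Real.log N
  b5 : 19 * Real.log N ≤ (N : ℝ) ^ ep
  b6 : 16 * 10 ^ 62 ≤ (N : ℝ) ^ (6 * ep)
  b7 : 8000 ≤ (N : ℝ) ^ (9 * ep)
  b8 : 768 * 10 ^ 42 ≤ (N : ℝ) ^ (cc - ep)
  b9 : 4 ≤ (N : ℝ) ^ (9 / 10 - 4 * cc)
  b10 : 3 / ep ≤ (N : ℝ) ^ (1 - cc)
  b11 : 2 / ep ≤ Real.log N
  b12 : 20 ≤ Real.log N

theorem ev_big (C₀ : ℝ) : ∀ᶠ N : ℕ in atTop, Big C₀ N := by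
  have hc := cc_pos
  have he := ep_pos
  have hc1 : cc = 1 / 10 ^ 22 := rfl
  have he1 := ep_le
  have h6 : 10 * ep < cc := by
    rw [hc1]
    refine lt_of_le_of_lt (mul_le_mul_of_nonneg_left he1 (by norm_num)) ?_
    norm_num
  have h7 : (0 : ℝ) < 1 - cc := by
    rw [hc1]
    norm_num
  have h8 : (0 : ℝ) < 9 / 10 - 4 * cc := by
    rw [hc1]
    norm_num
  filter_upwards [eventually_ge_atTop 10, ev_rpow (10 ^ 45) (cc / 2) (by linarith),
    ev_rpow (10 ^ 10) (1 - cc) h7, ev_rpow 5 (cc - 10 * ep) (by linarith),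
    ev_log (2 * 10 ^ 106 * C₀ ^ 2), ev_log_rpow 19 ep he,
    ev_rpow (16 * 10 ^ 62) (6 * ep) (by linarith), ev_rpow 8000 (9 * ep) (by linarith),
    ev_rpow (768 * 10 ^ 42) (cc - ep) (by linarith), ev_rpow 4 (9 / 10 - 4 * cc) h8,
    ev_rpow (3 / ep) (1 - cc) h7, ev_log (2 / ep), ev_log 20]
    with N a0 a1 a2 a3 a4 a5 a6 a7 a8 a9 a10 a11 a12
  exact ⟨a0, a1, a2, a3, a4, a5, a6, a7, a8, a9, a10, a11, a12⟩

/-- the hypothesis of MW2 on `G` -/
theorem GG_fin {s : ℕ → ℤ} {C₀ : ℝ} (hs : Cvx s C₀) {N : ℕ} (hB : Big C₀ N) (hr : RH s N)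
    {k : ℕ} (hk : N ≤ k) (hk4 : k ≤ 4 * N) :
    GG s k ≤ 4 * ep * k * Real.log k := by
  have he := ep_pos
  have hN10 := hB.ten
  have hN0 : (0 : ℝ) < N := by exact_mod_cast (by omega : 0 < N)
  have hkr : (N : ℝ) ≤ k := by exact_mod_cast hk
  have hlog : Real.log N ≤ Real.log k := Real.log_le_log hN0 hkr
  have h1 := GG_le hs N k (by omega) hk hk4 hr
  have h2 : 3 * (N : ℝ) ^ cc ≤ ep * k := by
    have h3 := hB.b10
    rw [div_le_iff₀ he] at h3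
    have h4 : (N : ℝ) ^ (1 - cc) * (N : ℝ) ^ cc = N := by
      rw [← Real.rpow_add hN0]
      norm_num
    have h5 : 0 ≤ (N : ℝ) ^ cc := by positivity
    calc 3 * (N : ℝ) ^ cc ≤ (N : ℝ) ^ (1 - cc) * ep * (N : ℝ) ^ cc :=
          mul_le_mul_of_nonneg_right h3 h5
      _ = ep * N := by linear_combination ep * h4
      _ ≤ ep * k := mul_le_mul_of_nonneg_left hkr he.le
  have h3 : 2 ≤ ep * Real.log k := by
    have h4 := hB.b11
    rw [div_le_iff₀ he] at h4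
    have h5 := mul_le_mul_of_nonneg_right hlog he.le
    linarith
  have h4 : 0 ≤ Real.log k := by linarith [hB.b12]
  have hk0 : (0 : ℝ) < k := by linarith
  calc GG s k ≤ (N : ℝ) ^ cc * (3 * Real.log k) + 2 * ep * (k * Real.log k) + 2 * k := h1
    _ = (3 * (N : ℝ) ^ cc) * Real.log k + 2 * ep * (k * Real.log k) + 2 * k := by ring
    _ ≤ (ep * k) * Real.log k + 2 * ep * (k * Real.log k) + (ep * Real.log k) * k := by
        refine add_le_add (add_le_add (mul_le_mul_of_nonneg_right h2 h4) le_rfl) ?_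
        exact mul_le_mul_of_nonneg_right h3 hk0.le
    _ = 4 * ep * k * Real.log k := by ring

/-- a floor is at least half -/
theorem half_le_floor {x : ℝ} (hx : 2 ≤ x) : x / 2 ≤ (⌊x⌋₊ : ℝ) := by
  have := Nat.lt_floor_add_one x
  linarith

end ZDXaux

open ZDXaux in
theorem stmt_ZDX (hCVF : Stmt_CVF) (hENT : Stmt_ENT) (hPRF : Stmt_PRF) (hMASS : Stmt_MASS)
    (hJUMP : Stmt_JUMP) (hBIG : Stmt_BIG) (hMW2 : Stmt_MW2) : Stmt_ZDX := by
  intro s C₀ hs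
  have hc := cc_pos
  have he := ep_pos
  have he1 := ep_le
  have hc1 : cc = 1 / 10 ^ 22 := rfl
  have hce : 10 * ep < cc := by
    rw [hc1]
    refine lt_of_le_of_lt (mul_le_mul_of_nonneg_left he1 (by norm_num)) ?_
    norm_num
  obtain ⟨N₁, hN₁⟩ := hMW2 s C₀ hs (cc / 2) cc (4 * cc) (5 * cc) (by linarith) (by linarith)
    (by linarith) (by linarith) (by rw [hc1]; norm_num) (4 * ep) (by linarith)
  obtain ⟨N₂, hN₂⟩ := eventually_atTop.1 (ev_big C₀)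
  refine ⟨max N₁ N₂, fun N hN hr0 => ?_⟩
  have hr : RH s N := hr0
  have hB := hN₂ N ((le_max_right _ _).trans hN)
  have hN10 := hB.ten
  have hN0 : (0 : ℝ) < N := by exact_mod_cast (by omega : 0 < N)
  have hN1 : (1 : ℝ) ≤ N := by exact_mod_cast (by omega : 1 ≤ N)
  have hG1 : GG s N ≤ 4 * ep * N * Real.log N := GG_fin hs hB hr le_rfl (by omega)
  have hG2 : GG s (2 * N) ≤ 4 * ep * (2 * N) * Real.log (2 * N) := by
    have := GG_fin hs hB hr (by omega : N ≤ 2 * N) (by omega)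
    push_cast at this
    exact this
  obtain ⟨m, hm1, hm2, hNA, hPair, hSD⟩ := hN₁ N ((le_max_left _ _).trans hN) hG1 hG2
  -- sizes of the powers
  have hle : ∀ {x y : ℝ}, x ≤ y → (N : ℝ) ^ x ≤ (N : ℝ) ^ y := fun h =>
    Real.rpow_le_rpow_of_exponent_le hN1 h
  have hadd : ∀ x y : ℝ, (N : ℝ) ^ (x + y) = (N : ℝ) ^ x * (N : ℝ) ^ y := fun x y =>
    Real.rpow_add hN0 x y
  have hpos : ∀ x : ℝ, 0 < (N : ℝ) ^ x := fun x => Real.rpow_pos_of_pos hN0 x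
  have hone : ∀ {x : ℝ}, 0 ≤ x → 1 ≤ (N : ℝ) ^ x := fun h => Real.one_le_rpow hN1 h
  have hlog12 := hB.b12
  have hlog0 : 0 < Real.log N := by linarith
  have hcN : 10 ^ 10 * (N : ℝ) ^ cc ≤ N := by
    have h1 : (N : ℝ) ^ (1 - cc) * (N : ℝ) ^ cc = N := by
      rw [← hadd]
      norm_num
    calc 10 ^ 10 * (N : ℝ) ^ cc ≤ (N : ℝ) ^ (1 - cc) * (N : ℝ) ^ cc :=
          mul_le_mul_of_nonneg_right hB.b2 (hpos _).le
      _ = N := h1
  have hc4N : 4 * (N : ℝ) ^ cc ≤ N := by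
    have := (hpos cc).le
    linarith
  have hNc2 : (10 : ℝ) ^ 45 ≤ (N : ℝ) ^ cc := hB.b1.trans (hle (by linarith))
  have hNc2' : (2 : ℝ) ≤ (N : ℝ) ^ cc := le_trans (by norm_num) hNc2
  have h4c2 : (2 : ℝ) ≤ (N : ℝ) ^ (4 * cc) := hNc2'.trans (hle (by linarith))
  have h5c2 : (2 : ℝ) ≤ (N : ℝ) ^ (5 * cc) := hNc2'.trans (hle (by linarith))
  obtain ⟨M, hM⟩ : ∃ M : ℕ, M = ⌊(N : ℝ) ^ cc⌋₊ := ⟨_, rfl⟩
  obtain ⟨P, hP⟩ : ∃ P : ℕ, P = ⌊(N : ℝ) ^ (4 * cc)⌋₊ := ⟨_, rfl⟩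
  obtain ⟨P', hP'⟩ : ∃ P' : ℕ, P' = ⌊(N : ℝ) ^ (5 * cc)⌋₊ := ⟨_, rfl⟩
  rw [← hM, ← hP] at hNA hPair hSD
  rw [← hP'] at hNA hSD
  have hPle : (P : ℝ) ≤ (N : ℝ) ^ (4 * cc) := by
    rw [hP]
    exact Nat.floor_le (hpos _).le
  have hPge : (N : ℝ) ^ (4 * cc) / 2 ≤ P := by
    rw [hP]
    exact half_le_floor h4c2
  have hPgt : (N : ℝ) ^ (4 * cc) - 1 < P := by
    have := Nat.lt_floor_add_one ((N : ℝ) ^ (4 * cc))
    rw [← hP] at this
    linarith
  have hP'le : (P' : ℝ) ≤ (N : ℝ) ^ (5 * cc) := by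
    rw [hP']
    exact Nat.floor_le (hpos _).le
  have hP'ge : (N : ℝ) ^ (5 * cc) / 2 ≤ P' := by
    rw [hP']
    exact half_le_floor h5c2
  have hm1' : (10 : ℝ) ^ 45 ≤ m := hB.b1.trans hm1
  have hm0 : (0 : ℝ) < m := lt_of_lt_of_le (by norm_num) hm1'
  have hmn1 : 1 ≤ m := by exact_mod_cast hm0
  have hmM : m ≤ M := by
    rw [hM]
    exact Nat.le_floor hm2
  have hm_N : 10 ^ 10 * m ≤ N := by
    have : (10 : ℝ) ^ 10 * m ≤ N := (mul_le_mul_of_nonneg_left hm2 (by positivity)).trans hcN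
    exact_mod_cast this
  have hmN : m ≤ N := by omega
  have hMP : M ≤ P := by
    rw [hM, hP]
    exact Nat.floor_mono (hle (by linarith))
  have h5c1 : 5 * cc ≤ 1 := by
    rw [hc1]
    norm_num
  have hrpow1 : (N : ℝ) ^ (1 : ℝ) = N := Real.rpow_one _
  have hPN : P ≤ N := by
    have h1 : (P : ℝ) ≤ N := by
      calc (P : ℝ) ≤ (N : ℝ) ^ (4 * cc) := hPle
        _ ≤ (N : ℝ) ^ (1 : ℝ) := hle (by linarith)
        _ = N := hrpow1
    exact_mod_cast h1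
  have hP'N : P' ≤ N := by
    have h1 : (P' : ℝ) ≤ N := by
      calc (P' : ℝ) ≤ (N : ℝ) ^ (5 * cc) := hP'le
        _ ≤ (N : ℝ) ^ (1 : ℝ) := hle h5c1
        _ = N := hrpow1
    exact_mod_cast h1
  -- the term at `P'`
  have hLP' : Lg s P' ≤ (2 + ep) * (5 * cc) * Real.log N := by
    have h1 : (N : ℝ) ^ cc ≤ P' := by
      have h2 : (N : ℝ) ^ (5 * cc) = (N : ℝ) ^ cc * (N : ℝ) ^ (4 * cc) := by
        rw [← hadd]
        congr 1
        ring
      have h3 := hpos cc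
      have h4 := mul_le_mul_of_nonneg_left h4c2 h3.le
      linarith
    have h2 := (abs_le.1 (hr P' h1 (by omega))).2
    have hP'0 : (0 : ℝ) < P' := lt_of_lt_of_le (hpos cc) h1
    have h3 : Real.log P' ≤ 5 * cc * Real.log N := by
      rw [← Real.log_rpow hN0]
      exact Real.log_le_log hP'0 hP'le
    unfold Lg
    have h4 : 0 ≤ 2 + ep := by linarith
    calc Real.log (s P') ≤ (2 + ep) * Real.log P' := by linarith
      _ ≤ (2 + ep) * (5 * cc * Real.log N) := mul_le_mul_of_nonneg_left h3 h4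
      _ = (2 + ep) * (5 * cc) * Real.log N := by ring
  have hcNN : (N : ℝ) ^ cc ≤ N := by
    have := (hpos cc).le
    linarith
  have hLN := abs_le.1 (hr N hcNN (by omega))
  have hLNu : Lg s N ≤ (2 + ep) * Real.log N := by
    unfold Lg
    linarith [hLN.2]
  have hLNl : (2 - ep) * Real.log N ≤ Lg s N := by
    unfold Lg
    linarith [hLN.1]
  -- the bound for the jumps
  have hlogP : 3 * cc * Real.log N ≤ Real.log P := by
    rw [← Real.log_rpow hN0]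
    refine Real.log_le_log (hpos _) ?_
    have h2 : (N : ℝ) ^ (4 * cc) = (N : ℝ) ^ cc * (N : ℝ) ^ (3 * cc) := by
      rw [← hadd]
      congr 1
      ring
    have h3 := hpos (3 * cc)
    have h4 := mul_le_mul_of_nonneg_right hNc2' h3.le
    linarith
  have hlogP0 : 0 < Real.log P := lt_of_lt_of_le (by positivity) hlogP
  have hP0 : (0 : ℝ) < P := by
    have := hpos (4 * cc)
    linarith
  have hL2N : Lg s (2 * N) ≤ 6 * Real.log N := by
    have h1 : (N : ℝ) ^ cc ≤ ((2 * N : ℕ) : ℝ) := by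
      push_cast
      linarith
    have h2 := (abs_le.1 (hr (2 * N) h1 (by omega))).2
    have h3 : Real.log ((2 * N : ℕ) : ℝ) ≤ 2 * Real.log N := by
      rw [show (2 : ℝ) * Real.log N = Real.log ((N : ℝ) ^ 2) by
        rw [Real.log_pow]
        norm_num]
      refine Real.log_le_log (by positivity) ?_
      push_cast
      have : (2 : ℝ) ≤ N := by exact_mod_cast (by omega : 2 ≤ N)
      rw [sq]
      exact mul_le_mul_of_nonneg_right this hN0.le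
    have h4 : 0 ≤ Real.log ((2 * N : ℕ) : ℝ) := by
      refine Real.log_nonneg ?_
      push_cast
      linarith
    unfold Lg
    have h5 : ep * Real.log ((2 * N : ℕ) : ℝ) ≤ 1 * Real.log ((2 * N : ℕ) : ℝ) :=
      mul_le_mul_of_nonneg_right (by linarith) h4
    linarith
  obtain ⟨J, hJ⟩ : ∃ J : ℕ, J = max 1 ⌊Lg s (2 * N) / Real.log P⌋₊ := ⟨_, rfl⟩
  have hJ1 : 1 ≤ J := by
    rw [hJ]
    exact le_max_left _ _
  have hJle : (J : ℝ) ≤ 2 * 10 ^ 22 := by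
    have h1 : Lg s (2 * N) / Real.log P ≤ 2 * 10 ^ 22 := by
      rw [div_le_iff₀ hlogP0]
      have h2 : 2 * 10 ^ 22 * (3 * cc * Real.log N) ≤ 2 * 10 ^ 22 * Real.log P :=
        mul_le_mul_of_nonneg_left hlogP (by norm_num)
      have h3 : 2 * 10 ^ 22 * (3 * cc * Real.log N) = 6 * Real.log N := by
        rw [hc1]
        ring
      linarith
    have h2 : ⌊Lg s (2 * N) / Real.log P⌋₊ ≤ 2 * 10 ^ 22 := by
      refine Nat.floor_le_of_le (h1.trans (le_of_eq ?_))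
      norm_num
    have h3 : J ≤ 2 * 10 ^ 22 := by
      rw [hJ]
      exact max_le (by norm_num) h2
    exact_mod_cast h3
  have hJ0 : (0 : ℝ) ≤ J := Nat.cast_nonneg _
  -- the bound for the second differences
  obtain ⟨H, hH⟩ : ∃ H : ℤ, H = ⌊(m : ℝ) * (N : ℝ) ^ (10 * ep)⌋ := ⟨_, rfl⟩
  have hHle : (H : ℝ) ≤ m * (N : ℝ) ^ (10 * ep) := by
    rw [hH]
    exact Int.floor_le _
  have hHgt : (m : ℝ) * (N : ℝ) ^ (10 * ep) < H + 1 := by
    rw [hH]
    exact Int.lt_floor_add_one _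
  have hH1 : 1 ≤ H := by
    rw [hH]
    refine Int.le_floor.2 ?_
    push_cast
    have h1 : (1 : ℝ) ≤ m := by exact_mod_cast hmn1
    have h2 : 1 ≤ (N : ℝ) ^ (10 * ep) := hone (by linarith)
    exact one_le_mul_of_one_le_of_one_le h1 h2
  have hgpN := gpN_le hs hCVF (by omega : 1 ≤ N) hr
  -- the number of windows which are not flat
  have hNF : (NF s H N m : ℝ) ≤ 8 * (N : ℝ) ^ (1 - 9 * ep) := by
    have h1 : (NF s H N m : ℝ) * (H + 1) ≤ m * gp s N := by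
      exact_mod_cast NF_mul_le hs hmN H
    have h2 : (NF s H N m : ℝ) * (m * (N : ℝ) ^ (10 * ep)) ≤ (NF s H N m : ℝ) * (H + 1) :=
      mul_le_mul_of_nonneg_left hHgt.le (Nat.cast_nonneg _)
    have h3 : 8 * (N : ℝ) ^ (1 + ep) = 8 * (N : ℝ) ^ (1 - 9 * ep) * (N : ℝ) ^ (10 * ep) := by
      rw [mul_assoc, ← hadd]
      congr 2
      ring
    have h4 : (m : ℝ) * gp s N ≤ m * (8 * (N : ℝ) ^ (1 - 9 * ep) * (N : ℝ) ^ (10 * ep)) := by
      rw [← h3]
      exact mul_le_mul_of_nonneg_left hgpN hm0.le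
    have h5 : (m * (N : ℝ) ^ (10 * ep)) * (NF s H N m : ℝ) ≤
        (m * (N : ℝ) ^ (10 * ep)) * (8 * (N : ℝ) ^ (1 - 9 * ep)) := by
      calc (m * (N : ℝ) ^ (10 * ep)) * (NF s H N m : ℝ)
          = (NF s H N m : ℝ) * (m * (N : ℝ) ^ (10 * ep)) := by ring
        _ ≤ m * (8 * (N : ℝ) ^ (1 - 9 * ep) * (N : ℝ) ^ (10 * ep)) := h2.trans (h1.trans h4)
        _ = (m * (N : ℝ) ^ (10 * ep)) * (8 * (N : ℝ) ^ (1 - 9 * ep)) := by ring
    exact le_of_mul_le_mul_left h5 (mul_pos hm0 (hpos _))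
  refine ⟨M, P, m, J, H, ?_, hm1, hHle⟩
  refine
    { cvx := hs
      m_big := ?_
      m_le := hmM
      m_N := hm_N
      M_P := hMP
      P_N := hPN
      H_pos := hH1
      HP := ?_
      J_pos := hJ1
      J_small := ?_
      prime := ?_
      jump := ?_
      na := ?_
      sdfc := ?_
      pair := ?_
      log_N := by linarith
      tN := ?_
      top := ?_
      gaps := ?_
      pgap := ?_
      flat_most := ?_
      hbad := ?_
      sq := ?_ }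
  · -- m_big
    have h1 : (10 : ℝ) ^ 20 ≤ m := le_trans (by norm_num) hm1'
    exact_mod_cast h1
  · -- HP
    have h1 : (H : ℝ) * (m : ℝ) ^ 2 ≤ (N : ℝ) ^ (3 * cc + 10 * ep) := by
      have h2 : (N : ℝ) ^ (3 * cc + 10 * ep) = ((N : ℝ) ^ cc) ^ 3 * (N : ℝ) ^ (10 * ep) := by
        rw [hadd]
        congr 1
        rw [← Real.rpow_natCast ((N : ℝ) ^ cc) 3, ← Real.rpow_mul hN0.le]
        congr 1
        push_cast
        ring
      rw [h2]
      calc (H : ℝ) * (m : ℝ) ^ 2 ≤ m * (N : ℝ) ^ (10 * ep) * (m : ℝ) ^ 2 :=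
            mul_le_mul_of_nonneg_right hHle (by positivity)
        _ = (m : ℝ) ^ 3 * (N : ℝ) ^ (10 * ep) := by ring
        _ ≤ ((N : ℝ) ^ cc) ^ 3 * (N : ℝ) ^ (10 * ep) := by
            refine mul_le_mul_of_nonneg_right ?_ (hpos _).le
            exact pow_le_pow_left₀ hm0.le hm2 3
    have h2 : (N : ℝ) ^ (4 * cc) = (N : ℝ) ^ (3 * cc + 10 * ep) * (N : ℝ) ^ (cc - 10 * ep) := by
      rw [← hadd]
      congr 1
      ring
    have h3 : 1 ≤ (N : ℝ) ^ (3 * cc + 10 * ep) := hone (by linarith)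
    have h4 := hB.b3
    have h5 : 5 * (N : ℝ) ^ (3 * cc + 10 * ep) ≤ (N : ℝ) ^ (4 * cc) := by
      rw [h2]
      have h7 := mul_le_mul_of_nonneg_left h4 (le_trans zero_le_one h3)
      linarith
    have h6 : (2 : ℝ) * H * (m : ℝ) ^ 2 < P := by linarith
    exact_mod_cast h6
  · -- J_small
    have h1 : (10 : ℝ) ^ 20 * J ≤ m := by linarith
    exact_mod_cast h1
  · -- prime
    intro p hp
    rw [mem_PG] at hp
    have h1 := (hPRF s C₀ hs (2 * N)).1 p hp.1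
    exact ⟨h1, (hBIG s C₀ hs P p h1 hp.2.1).1⟩
  · -- jump
    intro p hp u v huv hvM hvN
    rw [mem_PG] at hp
    have h1 := (hPRF s C₀ hs (2 * N)).1 p hp.1
    have h2 := (hBIG s C₀ hs P p h1 hp.2.1).1
    have h3 := hJUMP s C₀ hs N M p (by omega) h1 hp.2.2 u v huv hvM hvN
    by_contra hcon
    have h4 : nv p s u + J + 1 ≤ nv p s v := by omega
    have h5 : (J : ℝ) + 1 ≤ (nv p s v : ℝ) - nv p s u := by
      have : ((nv p s u + J + 1 : ℕ) : ℝ) ≤ nv p s v := by exact_mod_cast h4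
      push_cast at this
      linarith
    have h6 : Real.log P ≤ Real.log p := by
      refine Real.log_le_log hP0 ?_
      exact_mod_cast h2.le
    have h7 : Lg s (2 * N) / Real.log P < J + 1 := by
      have h8 := Nat.lt_floor_add_one (Lg s (2 * N) / Real.log P)
      have h9 : ((⌊Lg s (2 * N) / Real.log P⌋₊ : ℕ) : ℝ) ≤ J := by
        rw [hJ]
        exact_mod_cast le_max_right _ _
      linarith
    rw [div_lt_iff₀ hlogP0] at h7
    have h8 : ((J : ℝ) + 1) * Real.log P ≤ ((nv p s v : ℝ) - nv p s u) * Real.log p :=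
      mul_le_mul h5 h6 hlogP0.le (by linarith)
    linarith
  · -- na
    refine hNA.trans ?_
    have h1 : Lg s P' + 10 * (4 * ep) * Real.log N ≤
        ((2 + ep) * (5 * cc) + 40 * ep) * Real.log N := by linarith
    have h2 : (2 + ep) * (5 * cc) + 40 * ep ≤ 1 / 10 ^ 20 := by
      rw [hc1]
      linarith
    have h3 : Lg s P' + 10 * (4 * ep) * Real.log N ≤ 1 / 10 ^ 20 * Real.log N :=
      h1.trans (mul_le_mul_of_nonneg_right h2 hlog0.le)
    calc (N : ℝ) * (Lg s P' + 10 * (4 * ep) * Real.log N)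
        ≤ N * (1 / 10 ^ 20 * Real.log N) := mul_le_mul_of_nonneg_left h3 hN0.le
      _ = 1 / 10 ^ 20 * N * Real.log N := by ring
  · -- sdfc
    have hlm : cc / 2 * Real.log N ≤ Real.log m := by
      rw [← Real.log_rpow hN0]
      exact Real.log_le_log (hpos _) hm1
    have h1 : 4 / ((m : ℝ) ^ 2 * N) * SDfc s N M P m ≤ 4 / 10 ^ 21 * Real.log N := by
      refine hSD.trans ?_
      have h2 : Lg s P' - Lg s N + 2 * Real.log N - 2 * Real.log m + 20 * (4 * ep) * Real.log N ≤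
          ((2 + ep) * (5 * cc) + ep - cc + 80 * ep) * Real.log N := by linarith
      have h3 : (2 + ep) * (5 * cc) + ep - cc + 80 * ep ≤ 4 / 10 ^ 21 := by
        rw [hc1]
        linarith
      exact h2.trans (mul_le_mul_of_nonneg_right h3 hlog0.le)
    have hmN0 : 0 < (m : ℝ) ^ 2 * N := by positivity
    have h2 : SDfc s N M P m = (m : ℝ) ^ 2 * N / 4 * (4 / ((m : ℝ) ^ 2 * N) * SDfc s N M P m) := by
      field_simp
    rw [h2]
    calc (m : ℝ) ^ 2 * N / 4 * (4 / ((m : ℝ) ^ 2 * N) * SDfc s N M P m)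
        ≤ (m : ℝ) ^ 2 * N / 4 * (4 / 10 ^ 21 * Real.log N) :=
          mul_le_mul_of_nonneg_left h1 (by positivity)
      _ = 1 / 10 ^ 21 * (m : ℝ) ^ 2 * N * Real.log N := by ring
  · -- pair
    have h1 : 2 * C₀ ^ 2 / (4 * cc * (cc - cc / 2)) = 10 ^ 44 * C₀ ^ 2 := by
      rw [hc1]
      ring
    rw [h1] at hPair
    have hb4 := hB.b4
    have h2 : 0 ≤ 10 ^ 44 * C₀ ^ 2 * (m : ℝ) ^ 2 * N := by positivity
    calc (J : ℝ) * Pair s N M P m ≤ J * (10 ^ 44 * C₀ ^ 2 * (m : ℝ) ^ 2 * N) :=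
          mul_le_mul_of_nonneg_left hPair hJ0
      _ ≤ (2 * 10 ^ 22) * (10 ^ 44 * C₀ ^ 2 * (m : ℝ) ^ 2 * N) :=
          mul_le_mul_of_nonneg_right hJle h2
      _ = 1 / 10 ^ 40 * (m : ℝ) ^ 2 * N * (2 * 10 ^ 106 * C₀ ^ 2) := by ring
      _ ≤ 1 / 10 ^ 40 * (m : ℝ) ^ 2 * N * Real.log N :=
          mul_le_mul_of_nonneg_left hb4 (by positivity)
  · -- tN
    refine (hENT s C₀ hs N).2.1.trans ?_
    have h1 : (2 + ep) * Real.log N ≤ 21 / 10 * Real.log N :=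
      mul_le_mul_of_nonneg_right (by linarith) hlog0.le
    calc (N : ℝ) * Lg s N ≤ N * (21 / 10 * Real.log N) :=
          mul_le_mul_of_nonneg_left (hLNu.trans h1) hN0.le
      _ = 21 / 10 * N * Real.log N := by ring
  · -- top
    exact hLNu.trans (mul_le_mul_of_nonneg_right (by linarith) hlog0.le)
  · -- gaps
    intro i hi
    exact gap_le hs hCVF hN10 hr hc4N hlog12 hi
  · -- pgap
    intro i hi
    have h1 := gap_le hs hCVF hN10 hr hc4N hlog12 hi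
    have h5 : (0 : ℝ) < gp s i := by
      have := (hCVF s hs.zero hs.mono hs.gp_mono).2.2.2.2.2.2.2.1 i
      have h : 0 < gp s i := by omega
      exact_mod_cast h
    have h2 : (N : ℝ) ^ (9 / 10 : ℝ) ≤ gp s i := by
      rw [Real.rpow_def_of_pos hN0, ← Real.le_log_iff_exp_le h5]
      linarith
    have h3 : (N : ℝ) ^ (9 / 10 : ℝ) = (N : ℝ) ^ (9 / 10 - 4 * cc) * (N : ℝ) ^ (4 * cc) := by
      rw [← hadd]
      congr 1
      ring
    have h4 : 4 * (N : ℝ) ^ (4 * cc) ≤ (N : ℝ) ^ (9 / 10 : ℝ) := by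
      rw [h3]
      exact mul_le_mul_of_nonneg_right hB.b9 (hpos _).le
    have h6 : (4 : ℝ) * P ≤ gp s i := by linarith
    exact_mod_cast h6
  · -- flat_most
    have h1 : (N : ℝ) ^ (9 * ep) * (N : ℝ) ^ (1 - 9 * ep) = N := by
      rw [← hadd]
      norm_num
    have h2 := mul_le_mul_of_nonneg_right hB.b7 (hpos (1 - 9 * ep)).le
    rw [h1] at h2
    linarith
  · -- hbad
    refine ⟨(N : ℝ) ^ (3 * ep), (hpos _).le, fun g hg hg' =>
      mass_le hs hMASS hN10 hr hc4N (by linarith) hB.b5 hg hg', ?_⟩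
    have h1 : (N : ℝ) ^ (6 * ep) * ((N : ℝ) ^ (3 * ep) * (N : ℝ) ^ (1 - 9 * ep)) = N := by
      rw [← hadd, ← hadd]
      rw [show 6 * ep + (3 * ep + (1 - 9 * ep)) = 1 by ring, Real.rpow_one]
    have h2 := mul_le_mul_of_nonneg_right hB.b6
      (mul_pos (hpos (3 * ep)) (hpos (1 - 9 * ep))).le
    rw [h1] at h2
    have h3 : (J : ℝ) * (N : ℝ) ^ (3 * ep) ≤ 2 * 10 ^ 22 * (N : ℝ) ^ (3 * ep) :=
      mul_le_mul_of_nonneg_right hJle (hpos _).le
    calc (J : ℝ) * (N : ℝ) ^ (3 * ep) * NF s H N m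
        ≤ 2 * 10 ^ 22 * (N : ℝ) ^ (3 * ep) * (8 * (N : ℝ) ^ (1 - 9 * ep)) :=
          mul_le_mul h3 hNF (Nat.cast_nonneg _) (mul_pos (by norm_num) (hpos _)).le
      _ = 16 * 10 ^ 62 * ((N : ℝ) ^ (3 * ep) * (N : ℝ) ^ (1 - 9 * ep)) / 10 ^ 40 := by ring
      _ ≤ 1 / 10 ^ 40 * N := by linarith
  · -- sq
    have h1 : (N : ℝ) ^ (2 * cc) / 2 ≤ Real.sqrt P := by
      refine Real.le_sqrt_of_sq_le ?_
      have h2 : ((N : ℝ) ^ (2 * cc) / 2) ^ 2 = (N : ℝ) ^ (4 * cc) / 4 := by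
        rw [div_pow, sq ((N : ℝ) ^ (2 * cc)), ← hadd]
        norm_num
        ring_nf
      rw [h2]
      have := hpos (4 * cc)
      linarith
    have h2 : (N : ℝ) ^ (2 * cc) = (N : ℝ) ^ (cc - ep) * (N : ℝ) ^ (cc + ep) := by
      rw [← hadd]
      congr 1
      ring
    have h3 : (N : ℝ) ^ (1 + ep) = N * (N : ℝ) ^ ep := by
      rw [hadd, Real.rpow_one]
    have h4 : (N : ℝ) ^ (cc + ep) = (N : ℝ) ^ cc * (N : ℝ) ^ ep := hadd _ _
    have h5 : 0 ≤ (gp s N : ℝ) := by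
      have := (hCVF s hs.zero hs.mono hs.gp_mono).2.2.2.2.2.2.2.1 N
      have h : 0 ≤ gp s N := by omega
      exact_mod_cast h
    have h6 : 24 * (m : ℝ) * J * gp s N ≤
        24 * (N : ℝ) ^ cc * (2 * 10 ^ 22) * (8 * (N * (N : ℝ) ^ ep)) := by
      rw [← h3]
      refine mul_le_mul ?_ hgpN h5 ?_
      · refine mul_le_mul ?_ hJle hJ0 ?_
        · exact mul_le_mul_of_nonneg_left hm2 (by norm_num)
        · exact mul_nonneg (by norm_num) (hpos _).le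
      · exact mul_nonneg (mul_nonneg (by norm_num) (hpos _).le) (by norm_num)
    have h7 := mul_le_mul_of_nonneg_right hB.b8 (mul_pos hN0 (hpos (cc + ep))).le
    have h8 : 1 / 10 ^ 20 * (N : ℝ) * ((N : ℝ) ^ (2 * cc) / 2) ≤
        1 / 10 ^ 20 * N * Real.sqrt P := mul_le_mul_of_nonneg_left h1 (by positivity)
    refine h6.trans (le_trans ?_ h8)
    rw [h2]
    rw [h4] at h7 ⊢
    calc 24 * (N : ℝ) ^ cc * (2 * 10 ^ 22) * (8 * (N * (N : ℝ) ^ ep))
        = 768 * 10 ^ 42 * (N * ((N : ℝ) ^ cc * (N : ℝ) ^ ep)) / (2 * 10 ^ 20) := by ring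
      _ ≤ (N : ℝ) ^ (cc - ep) * (N * ((N : ℝ) ^ cc * (N : ℝ) ^ ep)) / (2 * 10 ^ 20) :=
          div_le_div_of_nonneg_right h7 (by norm_num)
      _ = 1 / 10 ^ 20 * (N : ℝ) * ((N : ℝ) ^ (cc - ep) * ((N : ℝ) ^ cc * (N : ℝ) ^ ep) / 2) := by
          ring

end Pool.Agent.Work.MP_b29d7f_cvx
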