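import Pool.Agent.Work.MP_b29d7f_cvx.Interface2

/-!
# Block ZDX, part 1: asymptotic facts and the bound for `G` (helper98)
-/

namespace Pool.Agent.Work.MP_b29d7f_cvx

open Finset Filter
open scoped Classical
open Pool.Agent.Work.MP_b29d7f_nt (IsPOrdering HasSimultaneousOrdering PS vd ld tv)
open Pool.Agent.Work.MP_b29d7f_half (Ord A wv lD HalfDense)
open Pool.Agent.Work.MP_b29d7f_sep (nv EW EL)

namespace ZDXaux

theorem ev_rpow (C α : ℝ) (hα : 0 < α) : ∀ᶠ N : ℕ in atTop, C ≤ (N : ℝ) ^ α :=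
  ((tendsto_rpow_atTop hα).comp tendsto_natCast_atTop_atTop).eventually_ge_atTop C

theorem ev_log (C : ℝ) : ∀ᶠ N : ℕ in atTop, C ≤ Real.log N :=
  (Real.tendsto_log_atTop.comp tendsto_natCast_atTop_atTop).eventually_ge_atTop C

theorem ev_log_rpow (C α : ℝ) (hα : 0 < α) :
    ∀ᶠ N : ℕ in atTop, C * Real.log N ≤ (N : ℝ) ^ α := by
  have h0 : (0 : ℝ) < 1 / (|C| + 1) := by positivity
  have h1 := ((isLittleO_log_rpow_atTop hα).comp_tendsto tendsto_natCast_atTop_atTop).def h0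
  filter_upwards [h1] with N hN
  have h2 : ‖(N : ℝ) ^ α‖ = (N : ℝ) ^ α := by
    rw [Real.norm_eq_abs, abs_of_nonneg (by positivity)]
  change ‖Real.log (N : ℝ)‖ ≤ 1 / (|C| + 1) * ‖(N : ℝ) ^ α‖ at hN
  rw [h2, Real.norm_eq_abs] at hN
  have h3 : 0 ≤ (N : ℝ) ^ α := by positivity
  calc C * Real.log N ≤ |C * Real.log N| := le_abs_self _
    _ = |C| * |Real.log N| := abs_mul _ _
    _ ≤ (|C| + 1) * (1 / (|C| + 1) * (N : ℝ) ^ α) := by
        refine mul_le_mul (by linarith) hN (abs_nonneg _) (by positivity)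
    _ = (N : ℝ) ^ α := by field_simp

theorem cc_pos : 0 < cc := by unfold cc; positivity

theorem ep_pos : 0 < ep := by unfold ep cc; positivity

/-- `∑_{1 ≤ l < k} log (k / l) ≤ k` -/
theorem sum_log_le (k : ℕ) : ∑ l ∈ Ico 1 k, (Real.log k - Real.log l) ≤ k := by
  rcases Nat.eq_zero_or_pos k with rfl | hk
  · simp
  have hk0 : (0 : ℝ) < k := by exact_mod_cast hk
  have h1 : ∑ l ∈ Ico 1 k, (Real.log k - Real.log l) =
      k * Real.log k - Real.log (k.factorial : ℝ) := by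
    have h2 : Real.log (k.factorial : ℝ) = ∑ l ∈ Ico 1 (k + 1), Real.log (l : ℝ) := by
      rw [← Finset.prod_Ico_id_eq_factorial, Nat.cast_prod, Real.log_prod]
      intro i hi
      have : 1 ≤ i := (mem_Ico.1 hi).1
      exact_mod_cast (by omega : i ≠ 0)
    rw [h2, sum_Ico_succ_top hk, sum_sub_distrib, sum_const, Nat.card_Ico, nsmul_eq_mul,
      Nat.cast_sub hk]
    push_cast
    ring
  have h3 : (k : ℝ) ^ k / (k.factorial : ℝ) ≤ Real.exp k :=
    Real.pow_div_factorial_le_exp (k : ℝ) hk0.le k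
  have h4 : (0 : ℝ) < (k : ℝ) ^ k / (k.factorial : ℝ) := by positivity
  have h5 := Real.log_le_log h4 h3
  rw [Real.log_exp, Real.log_div (by positivity) (by positivity), Real.log_pow] at h5
  rw [h1]
  exact h5

/-- bound for `G` in the range -/
theorem GG_le {s : ℕ → ℤ} {C₀ : ℝ} (hs : Cvx s C₀) (N k : ℕ) (hN : 2 ≤ N) (hk : N ≤ k)
    (hk4 : k ≤ 4 * N)
    (hr : ∀ k : ℕ, (N : ℝ) ^ cc ≤ k → k ≤ 4 * N →
      |Real.log (s k) - 2 * Real.log k| ≤ ep * Real.log k) :
    GG s k ≤ (N : ℝ) ^ cc * (3 * Real.log k) + 2 * ep * (k * Real.log k) + 2 * k := by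
  have hN0 : (0 : ℝ) < N := by exact_mod_cast (by omega : 0 < N)
  have hN1 : (1 : ℝ) ≤ N := by exact_mod_cast (by omega : 1 ≤ N)
  have hcc := cc_pos
  have hep := ep_pos
  have hep1 : ep ≤ 1 := by
    unfold ep cc
    norm_num
  have hcc1 : cc ≤ 1 := by
    unfold cc
    norm_num
  have hkr : (N : ℝ) ≤ k := by exact_mod_cast hk
  have hk1 : (1 : ℝ) ≤ k := hN1.trans hkr
  have hlk : 0 ≤ Real.log k := Real.log_nonneg hk1
  have hNk : (N : ℝ) ^ cc ≤ k := by
    calc (N : ℝ) ^ cc ≤ (N : ℝ) ^ (1 : ℝ) := Real.rpow_le_rpow_of_exponent_le hN1 hcc1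
      _ = N := Real.rpow_one _
      _ ≤ k := hkr
  have hLk := abs_le.1 (hr k hNk hk4)
  have hterm : ∀ l ∈ Ico 1 k, Real.log (s k) - Real.log (s l) ≤
      (if (l : ℝ) < (N : ℝ) ^ cc then 3 * Real.log k else 0) +
        2 * (Real.log k - Real.log l) + 2 * ep * Real.log k := by
    intro l hl
    rw [mem_Ico] at hl
    have hl1 : (1 : ℝ) ≤ l := by exact_mod_cast hl.1
    have hlk' : (l : ℝ) ≤ k := by exact_mod_cast hl.2.le
    have hll : Real.log l ≤ Real.log k := Real.log_le_log (by linarith) hlk'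
    have h2 : 0 ≤ 2 * ep * Real.log k := by positivity
    split_ifs with h
    · have h3 : 0 ≤ Real.log (s l) := by
        refine Real.log_nonneg ?_
        have := hs.pos hl.1
        exact_mod_cast this
      nlinarith [hLk.2]
    · push Not at h
      have h3 := abs_le.1 (hr l h (by omega))
      have h4 : ep * Real.log l ≤ ep * Real.log k := mul_le_mul_of_nonneg_left hll hep.le
      linarith [hLk.2, h3.1]
  unfold GG
  calc ∑ l ∈ Ico 1 k, (Real.log (s k) - Real.log (s l))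
      ≤ ∑ l ∈ Ico 1 k, ((if (l : ℝ) < (N : ℝ) ^ cc then 3 * Real.log k else 0) +
        2 * (Real.log k - Real.log l) + 2 * ep * Real.log k) := sum_le_sum hterm
    _ = ∑ l ∈ Ico 1 k, (if (l : ℝ) < (N : ℝ) ^ cc then 3 * Real.log k else 0) +
        2 * ∑ l ∈ Ico 1 k, (Real.log k - Real.log l) +
        ((k - 1 : ℕ) : ℝ) * (2 * ep * Real.log k) := by
        rw [sum_add_distrib, sum_add_distrib, ← mul_sum, sum_const, Nat.card_Ico, nsmul_eq_mul]
    _ ≤ (N : ℝ) ^ cc * (3 * Real.log k) + 2 * k + k * (2 * ep * Real.log k) := by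
        refine add_le_add (add_le_add ?_ ?_) ?_
        · rw [← sum_filter, sum_const, nsmul_eq_mul]
          refine mul_le_mul_of_nonneg_right ?_ (by positivity)
          have hsub : ((Ico 1 k).filter fun l : ℕ => (l : ℝ) < (N : ℝ) ^ cc) ⊆
              Ico 1 ⌈(N : ℝ) ^ cc⌉₊ := by
            intro l hl
            rw [mem_filter, mem_Ico] at hl
            rw [mem_Ico]
            exact ⟨hl.1.1, Nat.lt_ceil.2 hl.2⟩
          have h1 := card_le_card hsub
          rw [Nat.card_Ico] at h1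
          have h2 : (⌈(N : ℝ) ^ cc⌉₊ : ℝ) < (N : ℝ) ^ cc + 1 := Nat.ceil_lt_add_one (by positivity)
          have h3 : 1 ≤ ⌈(N : ℝ) ^ cc⌉₊ := Nat.one_le_ceil_iff.2 (by positivity)
          have h4 : (((Ico 1 k).filter fun l : ℕ => (l : ℝ) < (N : ℝ) ^ cc).card : ℝ) ≤
              ((⌈(N : ℝ) ^ cc⌉₊ - 1 : ℕ) : ℝ) := by exact_mod_cast h1
          rw [Nat.cast_sub h3] at h4
          push_cast at h4
          linarith
        · exact mul_le_mul_of_nonneg_left (sum_log_le k) (by norm_num)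
        · refine mul_le_mul_of_nonneg_right ?_ (by positivity)
          exact_mod_cast Nat.sub_le k 1
    _ = _ := by ring

end ZDXaux

end Pool.Agent.Work.MP_b29d7f_cvx
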