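import Pool.Agent.Work.MP_b29d7f_cvx.B_ZDX1

/-!
# Block ZDX, part 2: windows which are not flat, sizes of the terms and gaps (helper98)
-/

namespace Pool.Agent.Work.MP_b29d7f_cvx

open Finset Filter
open scoped Classical
open Pool.Agent.Work.MP_b29d7f_nt (IsPOrdering HasSimultaneousOrdering PS vd ld tv)
open Pool.Agent.Work.MP_b29d7f_half (Ord A wv lD HalfDense)
open Pool.Agent.Work.MP_b29d7f_sep (nv EW EL)

namespace ZDXaux

/-- exponent two near the scale `N` -/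
def RH (s : ℕ → ℤ) (N : ℕ) : Prop := ∀ k : ℕ, (N : ℝ) ^ cc ≤ k → k ≤ 4 * N →
  |Real.log (s k) - 2 * Real.log k| ≤ ep * Real.log k

theorem ep_le : ep ≤ 1 / 10 ^ 100 := by
  unfold ep cc
  norm_num

theorem sk_le {s : ℕ → ℤ} {C₀ : ℝ} (hs : Cvx s C₀) {N : ℕ} (hr : RH s N) {k : ℕ} (hk1 : 1 ≤ k)
    (hk : (N : ℝ) ^ cc ≤ k) (hk4 : k ≤ 4 * N) : (s k : ℝ) ≤ (k : ℝ) ^ (2 + ep) := by
  have hk0 : (0 : ℝ) < k := by exact_mod_cast hk1
  have hs0 : (0 : ℝ) < s k := by exact_mod_cast hs.pos hk1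
  have h := abs_le.1 (hr k hk hk4)
  rw [Real.rpow_def_of_pos hk0, ← Real.log_le_iff_le_exp hs0]
  nlinarith [h.2]

theorem le_sk {s : ℕ → ℤ} {C₀ : ℝ} (hs : Cvx s C₀) {N : ℕ} (hr : RH s N) {k : ℕ} (hk1 : 1 ≤ k)
    (hk : (N : ℝ) ^ cc ≤ k) (hk4 : k ≤ 4 * N) : (k : ℝ) ^ (2 - ep) ≤ (s k : ℝ) := by
  have hk0 : (0 : ℝ) < k := by exact_mod_cast hk1
  have hs0 : (0 : ℝ) < s k := by exact_mod_cast hs.pos hk1
  have h := abs_le.1 (hr k hk hk4)
  rw [Real.rpow_def_of_pos hk0, ← Real.le_log_iff_exp_le hs0]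
  nlinarith [h.1]

theorem two_rpow_le : (2 : ℝ) ^ (2 + ep) ≤ 8 := by
  have h1 : (2 : ℝ) ^ (2 + ep) ≤ (2 : ℝ) ^ (3 : ℝ) :=
    Real.rpow_le_rpow_of_exponent_le (by norm_num) (by linarith [ep_le])
  refine h1.trans ?_
  norm_num

theorem sum_gp_le {s : ℕ → ℤ} {C₀ : ℝ} (hs : Cvx s C₀) {N m : ℕ} (hm : m ≤ N) :
    ∑ u ∈ range (N - m + 1), (gp s (u + m) - gp s u) ≤ m * gp s N := by
  have h1 : ∀ u : ℕ, gp s (u + m) - gp s u =
      ∑ t ∈ range m, (gp s (u + (t + 1)) - gp s (u + t)) := by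
    intro u
    rw [Finset.sum_range_sub (fun t => gp s (u + t)) m]
    simp
  have h2 : ∀ t : ℕ, ∑ u ∈ range (N - m + 1), (gp s (u + (t + 1)) - gp s (u + t)) =
      gp s (N - m + 1 + t) - gp s t := by
    intro t
    have := Finset.sum_range_sub (fun u => gp s (u + t)) (N - m + 1)
    simp only [Nat.zero_add] at this
    rw [← this]
    refine sum_congr rfl fun u _ => ?_
    rw [show u + (t + 1) = u + 1 + t by ring]
  rw [sum_congr rfl fun u _ => h1 u, sum_comm, sum_congr rfl fun t _ => h2 t]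
  calc ∑ t ∈ range m, (gp s (N - m + 1 + t) - gp s t) ≤ ∑ t ∈ range m, gp s N := by
        refine sum_le_sum fun t ht => ?_
        rw [mem_range] at ht
        have h3 : gp s (N - m + 1 + t) ≤ gp s N := hs.gp_mono (by omega)
        have h4 : 0 ≤ gp s t := by
          have : s t < s (t + 1) := hs.mono (by omega)
          unfold gp
          omega
        omega
    _ = m * gp s N := by rw [sum_const, card_range, nsmul_eq_mul]

theorem NF_mul_le {s : ℕ → ℤ} {C₀ : ℝ} (hs : Cvx s C₀) {N m : ℕ} (hm : m ≤ N) (H : ℤ) :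
    (NF s H N m : ℤ) * (H + 1) ≤ m * gp s N := by
  refine le_trans ?_ (sum_gp_le hs hm)
  have h0 : ∀ u : ℕ, 0 ≤ gp s (u + m) - gp s u := fun u =>
    sub_nonneg.2 (hs.gp_mono (by omega))
  unfold NF
  calc ((((range (N - m + 1)).filter fun u => ¬ Flat s H m u).card : ℕ) : ℤ) * (H + 1)
      = ∑ u ∈ (range (N - m + 1)).filter (fun u => ¬ Flat s H m u), (H + 1) := by
        rw [sum_const, nsmul_eq_mul]
    _ ≤ ∑ u ∈ (range (N - m + 1)).filter (fun u => ¬ Flat s H m u),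
          (gp s (u + m) - gp s u) := by
        refine sum_le_sum fun u hu => ?_
        have := (mem_filter.1 hu).2
        unfold Flat at this
        omega
    _ ≤ ∑ u ∈ range (N - m + 1), (gp s (u + m) - gp s u) :=
        sum_le_sum_of_subset_of_nonneg (filter_subset _ _) fun u _ _ => h0 u

theorem gpN_le {s : ℕ → ℤ} {C₀ : ℝ} (hs : Cvx s C₀) (hCVF : Stmt_CVF) {N : ℕ} (hN : 1 ≤ N)
    (hr : RH s N) : (gp s N : ℝ) ≤ 8 * (N : ℝ) ^ (1 + ep) := by
  have hN0 : (0 : ℝ) < N := by exact_mod_cast hN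
  have hN1 : (1 : ℝ) ≤ N := by exact_mod_cast hN
  have hcc1 : cc ≤ 1 := by
    unfold cc
    norm_num
  have h1 : (N : ℝ) ^ cc ≤ ((2 * N : ℕ) : ℝ) := by
    have h : (N : ℝ) ^ cc ≤ N := by
      calc (N : ℝ) ^ cc ≤ (N : ℝ) ^ (1 : ℝ) := Real.rpow_le_rpow_of_exponent_le hN1 hcc1
        _ = N := Real.rpow_one _
    push_cast
    linarith
  have h2 := sk_le hs hr (by omega : 1 ≤ 2 * N) h1 (by omega)
  have h3 : ((N : ℤ) : ℤ) * gp s N ≤ s (2 * N) :=
    (hCVF s hs.zero hs.mono hs.gp_mono).2.2.2.2.2.1 N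
  have h4 : (N : ℝ) * gp s N ≤ s (2 * N) := by exact_mod_cast h3
  have h5 : (((2 * N : ℕ) : ℝ)) ^ (2 + ep) = 2 ^ (2 + ep) * (N * (N : ℝ) ^ (1 + ep)) := by
    push_cast
    rw [Real.mul_rpow (by norm_num) hN0.le]
    congr 1
    rw [show (2 : ℝ) + ep = 1 + (1 + ep) by ring, Real.rpow_add hN0, Real.rpow_one]
  have h6 : 0 ≤ (N : ℝ) * (N : ℝ) ^ (1 + ep) := by positivity
  have h7 : (N : ℝ) * gp s N ≤ N * (8 * (N : ℝ) ^ (1 + ep)) := by
    calc (N : ℝ) * gp s N ≤ 2 ^ (2 + ep) * (N * (N : ℝ) ^ (1 + ep)) := by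
          rw [← h5]
          exact h4.trans h2
      _ ≤ 8 * (N * (N : ℝ) ^ (1 + ep)) := mul_le_mul_of_nonneg_right two_rpow_le h6
      _ = N * (8 * (N : ℝ) ^ (1 + ep)) := by ring
  exact le_of_mul_le_mul_left h7 hN0

/-- the mass of a place in the range -/
theorem mass_le {s : ℕ → ℤ} {C₀ : ℝ} (hs : Cvx s C₀) (hMASS : Stmt_MASS) {N : ℕ} (hN : 10 ≤ N)
    (hr : RH s N) (hc : 4 * (N : ℝ) ^ cc ≤ N) (hl : 1 ≤ Real.log N)
    (hb : 19 * Real.log N ≤ (N : ℝ) ^ ep) {g : ℕ} (hg : N ≤ 2 * g) (hg' : g < N) :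
    lD s (g + 1) - lD s g ≤ (N : ℝ) ^ (3 * ep) := by
  have hN0 : (0 : ℝ) < N := by exact_mod_cast (by omega : 0 < N)
  have hN1 : (1 : ℝ) ≤ N := by exact_mod_cast (by omega : 1 ≤ N)
  have hep := ep_pos
  have hep1 := ep_le
  have hg0 : (0 : ℝ) < g := by exact_mod_cast (by omega : 0 < g)
  have hgN : (g : ℝ) ≤ N := by exact_mod_cast hg'.le
  have hNg : (N : ℝ) ≤ 2 * g := by exact_mod_cast hg
  have hNc : 0 ≤ (N : ℝ) ^ cc := by positivity
  have hcg : (N : ℝ) ^ cc ≤ g := by linarith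
  refine (hMASS s C₀ hs g (by omega)).trans ?_
  -- the first term
  have h1 : Lg s (g + 1) ≤ 3 * Real.log N := by
    have h2 : (N : ℝ) ^ cc ≤ ((g + 1 : ℕ) : ℝ) := by
      push_cast
      linarith
    have h3 := (abs_le.1 (hr (g + 1) h2 (by omega))).2
    have h4 : Real.log ((g + 1 : ℕ) : ℝ) ≤ Real.log N := by
      refine Real.log_le_log (by positivity) ?_
      exact_mod_cast hg'
    have h5 : 0 ≤ Real.log ((g + 1 : ℕ) : ℝ) := by
      refine Real.log_nonneg ?_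
      push_cast
      linarith
    unfold Lg
    nlinarith
  -- the quotient
  have h2 : (s (2 * g) : ℝ) / s g ≤ 8 * (N : ℝ) ^ (2 * ep) := by
    have hsg : (0 : ℝ) < s g := by exact_mod_cast hs.pos (by omega)
    rw [div_le_iff₀ hsg]
    have h3 : (N : ℝ) ^ cc ≤ ((2 * g : ℕ) : ℝ) := by
      push_cast
      linarith
    have h4 := sk_le hs hr (by omega : 1 ≤ 2 * g) h3 (by omega)
    have h5 := le_sk hs hr (by omega : 1 ≤ g) hcg (by omega)
    have h6 : (((2 * g : ℕ) : ℝ)) ^ (2 + ep) = 2 ^ (2 + ep) * ((g : ℝ) ^ (2 * ep) *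
        (g : ℝ) ^ (2 - ep)) := by
      push_cast
      rw [Real.mul_rpow (by norm_num) hg0.le, ← Real.rpow_add hg0]
      congr 2
      ring
    have h7 : (g : ℝ) ^ (2 * ep) ≤ (N : ℝ) ^ (2 * ep) :=
      Real.rpow_le_rpow hg0.le hgN (by linarith)
    have h8 : 0 ≤ (g : ℝ) ^ (2 * ep) := by positivity
    have h9 : 0 ≤ (N : ℝ) ^ (2 * ep) := by positivity
    have h10 : 0 ≤ (g : ℝ) ^ (2 - ep) := by positivity
    calc (s (2 * g) : ℝ) ≤ 2 ^ (2 + ep) * ((g : ℝ) ^ (2 * ep) * (g : ℝ) ^ (2 - ep)) := by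
          rw [← h6]
          exact h4
      _ ≤ 8 * ((N : ℝ) ^ (2 * ep) * s g) := by
          refine mul_le_mul two_rpow_le (mul_le_mul h7 h5 h10 h9) (by positivity) (by norm_num)
      _ = 8 * (N : ℝ) ^ (2 * ep) * s g := by ring
  have h3 : 1 + Real.log g ≤ 2 * Real.log N := by
    have : Real.log g ≤ Real.log N := Real.log_le_log hg0 hgN
    linarith
  have h4 : 0 ≤ 1 + Real.log g := by
    have : 0 ≤ Real.log g := Real.log_nonneg (by exact_mod_cast (by omega : 1 ≤ g))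
    linarith
  have h5 : (1 : ℝ) ≤ (N : ℝ) ^ (2 * ep) := Real.one_le_rpow hN1 (by linarith)
  have h6 : (N : ℝ) ^ (3 * ep) = (N : ℝ) ^ (2 * ep) * (N : ℝ) ^ ep := by
    rw [← Real.rpow_add hN0]
    congr 1
    ring
  calc Lg s (g + 1) + (s (2 * g) : ℝ) / s g * (1 + Real.log g)
      ≤ 3 * Real.log N + 8 * (N : ℝ) ^ (2 * ep) * (2 * Real.log N) := by
        refine add_le_add h1 (mul_le_mul h2 h3 h4 (by positivity))
    _ ≤ (N : ℝ) ^ (2 * ep) * (19 * Real.log N) := by nlinarith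
    _ ≤ (N : ℝ) ^ (2 * ep) * (N : ℝ) ^ ep := mul_le_mul_of_nonneg_left hb (by positivity)
    _ = (N : ℝ) ^ (3 * ep) := h6.symm

/-- lower bound for the logarithm of the gaps -/
theorem gap_le {s : ℕ → ℤ} {C₀ : ℝ} (hs : Cvx s C₀) (hCVF : Stmt_CVF) {N : ℕ} (hN : 10 ≤ N)
    (hr : RH s N) (hc : 4 * (N : ℝ) ^ cc ≤ N) (hl : 20 ≤ Real.log N) {i : ℕ} (hi : N ≤ 2 * i) :
    9 / 10 * Real.log N ≤ Real.log (gp s i) := by
  have hN0 : (0 : ℝ) < N := by exact_mod_cast (by omega : 0 < N)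
  have hep := ep_pos
  have hep1 := ep_le
  obtain ⟨k, hk⟩ : ∃ k : ℕ, k = (N + 1) / 2 := ⟨_, rfl⟩
  have hk1 : N ≤ 2 * k := by omega
  have hk2 : k ≤ N := by omega
  have hki : k ≤ i := by omega
  have hk0 : (0 : ℝ) < k := by exact_mod_cast (by omega : 0 < k)
  have hNk : (N : ℝ) ≤ 2 * k := by exact_mod_cast hk1
  have hNc : 0 ≤ (N : ℝ) ^ cc := by positivity
  have h1 := (abs_le.1 (hr k (by linarith) (by omega))).1
  have h2 : Real.log N - Real.log 2 ≤ Real.log k := by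
    rw [← Real.log_div hN0.ne' (by norm_num)]
    refine Real.log_le_log (by positivity) ?_
    linarith
  have h3 : Real.log 2 ≤ 1 := by
    have := Real.log_two_lt_d9
    linarith
  have h4 : (s k : ℝ) ≤ k * gp s k := by
    have := (hCVF s hs.zero hs.mono hs.gp_mono).2.2.2.2.1 k
    exact_mod_cast this
  have h5 : (0 : ℝ) < gp s k := by
    have := (hCVF s hs.zero hs.mono hs.gp_mono).2.2.2.2.2.2.2.1 k
    have h : 0 < gp s k := by omega
    exact_mod_cast h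
  have h6 : (gp s k : ℝ) ≤ gp s i := by exact_mod_cast hs.gp_mono hki
  have h7 : (0 : ℝ) < s k := by exact_mod_cast hs.pos (by omega)
  have h8 : Real.log (s k) ≤ Real.log k + Real.log (gp s k) := by
    rw [← Real.log_mul hk0.ne' h5.ne']
    exact Real.log_le_log h7 h4
  have h9 : Real.log (gp s k) ≤ Real.log (gp s i) := Real.log_le_log h5 h6
  nlinarith

end ZDXaux

end Pool.Agent.Work.MP_b29d7f_cvx
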