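import Pool.Agent.Work.MP_b29d7f_cvx.Interface2

/-!
# Block ZONE (helper89)
-/

set_option autoImplicit false

namespace Pool.Agent.Work.MP_b29d7f_cvx

open Finset Filter
open Pool.Agent.Work.MP_b29d7f_nt (IsPOrdering HasSimultaneousOrdering PS vd ld tv)
open Pool.Agent.Work.MP_b29d7f_half (Ord A wv lD HalfDense)
open Pool.Agent.Work.MP_b29d7f_sep (nv EW EL)

theorem stmt_ZONE (hZDX : Stmt_ZDX) (hPICK : Stmt_PICK) (hMAJ : Stmt_MAJ) (hHX : Stmt_HX)
    (hHPOS : Stmt_HPOS) (hNODEF : Stmt_NODEF) : Stmt_ZONE := by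
  intro s C₀ hs
  obtain ⟨N₀, hN₀⟩ := hZDX s C₀ hs
  have hcc : 0 < cc := by unfold cc; norm_num
  have hep : 0 < ep := by unfold ep; positivity
  have e1 : ∀ᶠ N : ℕ in atTop, (8 : ℝ) ≤ (N : ℝ) ^ (cc / 6) :=
    ((tendsto_rpow_atTop (by positivity : 0 < cc / 6)).comp
      tendsto_natCast_atTop_atTop).eventually_ge_atTop 8
  have e2 : ∀ᶠ N : ℕ in atTop, (8 : ℝ) ≤ (N : ℝ) ^ (10 * ep) :=
    ((tendsto_rpow_atTop (by positivity : 0 < 10 * ep)).comp
      tendsto_natCast_atTop_atTop).eventually_ge_atTop 8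
  obtain ⟨N₁, hN₁⟩ := eventually_atTop.1 (e1.and (e2.and (eventually_ge_atTop (max N₀ 1))))
  refine ⟨N₁, fun N hN hrange => ?_⟩
  obtain ⟨h8, h8', hNN⟩ := hN₁ N hN
  have hN0 : N₀ ≤ N := le_trans (le_max_left _ _) hNN
  have hN1 : 1 ≤ N := le_trans (le_max_right _ _) hNN
  have hNpos : (0 : ℝ) < N := by exact_mod_cast hN1
  obtain ⟨M, P, m, J, H, zd, hm, hH⟩ := hN₀ N hN0 hrange
  have m_big := zd.m_big
  set x : ℕ := m / 128 with hx
  have x1 : 128 * x ≤ m := by omega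
  have x2 : m < 128 * x + 128 := by omega
  have hx15 : 10 ^ 15 ≤ x := by omega
  obtain ⟨a, zw⟩ := hPICK s C₀ N M P m J x H zd x1 x2
  obtain ⟨i₀, h, B, i_lo, i_hi, h_nn, B_card, quad⟩ :=
    hMAJ s hs.mono hs.gp_mono a x (by omega) zw.exc
  have zf : ZF s C₀ N M P m J H x a i₀ h B := ⟨zw, i_lo, i_hi, h_nn, B_card, quad⟩
  have hhx := hHX s C₀ N M P m J H x a i₀ h B zf
  have hh1 := hHPOS s C₀ N M P m J H x a i₀ h B zf
  have hnd := hNODEF s C₀ N M P m J H x a i₀ h B zf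
  have a_lo := zw.a_lo
  have a_hi := zw.a_hi
  have hmr : (10 : ℝ) ^ 20 ≤ m := by exact_mod_cast m_big
  have hx20 : (m : ℝ) / 8 ≤ 20 * x := by
    have h1 : (m : ℝ) < 128 * x + 128 := by exact_mod_cast x2
    linarith
  refine ⟨a + 10 * x, 20 * x, h, ⟨by omega, by omega, ?_, hh1, ?_, ?_⟩⟩
  · -- length
    push_cast
    refine le_trans ?_ hx20
    have h1 : (N : ℝ) ^ (cc / 2) = (N : ℝ) ^ (cc / 3) * (N : ℝ) ^ (cc / 6) := by
      rw [← Real.rpow_add hNpos]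
      ring_nf
    have h2 : (N : ℝ) ^ (cc / 3) * 8 ≤ (N : ℝ) ^ (cc / 3) * (N : ℝ) ^ (cc / 6) :=
      mul_le_mul_of_nonneg_left h8 (by positivity)
    linarith
  · -- size of h
    have h1 : (20 : ℝ) * h * x ≤ H := by exact_mod_cast hhx
    have h2 : (h : ℝ) * (m / 8) ≤ m * (N : ℝ) ^ (10 * ep) := by
      have h3 : (h : ℝ) * (m / 8) ≤ h * (20 * x) :=
        mul_le_mul_of_nonneg_left hx20 (by exact_mod_cast h_nn)
      linarith
    have hm0 : (0 : ℝ) < m := by linarith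
    have h4 : (h : ℝ) ≤ 8 * (N : ℝ) ^ (10 * ep) := by
      have h5 : (m : ℝ) * h ≤ m * (8 * (N : ℝ) ^ (10 * ep)) := by linarith
      exact le_of_mul_le_mul_left h5 hm0
    have h6 : (N : ℝ) ^ (20 * ep) = (N : ℝ) ^ (10 * ep) * (N : ℝ) ^ (10 * ep) := by
      rw [← Real.rpow_add hNpos]
      ring_nf
    rw [h6]
    refine h4.trans ?_
    exact mul_le_mul_of_nonneg_right h8' (by positivity)
  · -- the zone
    intro t ht
    have q0 := hnd (a + 10 * x) (by omega) (by omega)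
    have q1 := hnd (a + 10 * x + 1) (by omega) (by omega)
    have qt := hnd (a + 10 * x + t) (by omega) (by omega)
    have hF := two_mul_Fq (s (a + 10 * x)) (gp s (a + 10 * x)) h t
    have hgp : gp s (a + 10 * x) = s (a + 10 * x + 1) - s (a + 10 * x) := rfl
    unfold F2 at q0 q1 qt
    push_cast at q0 q1 qt
    have h2 : 2 * s (a + 10 * x + t) = 2 * Fq (s (a + 10 * x)) (gp s (a + 10 * x)) h t := by
      rw [hF, hgp]
      linear_combination qt - q0 - t * (q1 - q0)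
    linarith

end Pool.Agent.Work.MP_b29d7f_cvx
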