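import Pool.Agent.Work.MP_b29d7f_half.Final
import Pool.Agent.Work.MP_b29d7f_half.Sharp
import Pool.Agent.Work.MP_b29d7f_sep.Defs

/-!
# Convex sets with a simultaneous ordering: definitions for the end game (note 2696, section 4)
-/

namespace Pool.Agent.Work.MP_b29d7f_cvx

open Finset
open Pool.Agent.Work.MP_b29d7f_nt (IsPOrdering HasSimultaneousOrdering PS vd ld tv)
open Pool.Agent.Work.MP_b29d7f_half (Ord A wv lD K DK HalfDense)
open Pool.Agent.Work.MP_b29d7f_sep (nv EW EL)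

/-- a convex sequence, normalised by `s 0 = 0`, which is itself a simultaneous ordering and grows
polynomially -/
structure Cvx (s : ℕ → ℤ) (C₀ : ℝ) : Prop where
  zero : s 0 = 0
  mono : StrictMono s
  conv : ∀ k, s (k + 1) - s k ≤ s (k + 2) - s (k + 1)
  ord : Ord (Set.range s) s
  one_le : 1 ≤ C₀
  growth : ∀ k, 2 ≤ k → Real.log (s k) ≤ C₀ * Real.log k

/-- the gaps -/
def gp (s : ℕ → ℤ) (k : ℕ) : ℤ := s (k + 1) - s k

/-- `D_k = ∏_{i<k} (s_k - s_i)` -/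
def Dk (s : ℕ → ℤ) (k : ℕ) : ℤ := ∏ i ∈ range k, (s k - s i)

/-- `N_k(x) = ∏_{i<k} (x - s_i)` -/
def Nk (s : ℕ → ℤ) (k : ℕ) (x : ℤ) : ℤ := ∏ i ∈ range k, (x - s i)

/-- `G(k) = ∑_{1 ≤ l < k} (L(k) - L(l))`, `L = log s` -/
noncomputable def GG (s : ℕ → ℤ) (k : ℕ) : ℝ :=
  ∑ l ∈ Ico 1 k, (Real.log (s k) - Real.log (s l))

/-- the quadratic sequence with value `a` at `0`, first difference `g`, second difference `h` -/
def Fq (a g h t : ℤ) : ℤ := a + g * t + h * (t * (t - 1) / 2)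

/-- `8 h` times the value at the vertex -/
def Ev (a g h : ℤ) : ℤ := 8 * h * a - (2 * g - h) ^ 2

/-- twice the derivative of `Fq` -/
def La (g h t : ℤ) : ℤ := 2 * g - h + 2 * h * t

/-- the elements with indices in `[v, v + Z]` are consecutive values of a quadratic polynomial -/
def Zone (s : ℕ → ℤ) (v Z : ℕ) (h : ℤ) : Prop :=
  ∀ t : ℕ, t ≤ Z → s (v + t) = Fq (s v) (gp s v) h t

/-- the quadratic polynomial of a zone -/
def Fz (s : ℕ → ℤ) (v : ℕ) (h : ℤ) : ℤ → ℤ := Fq (s v) (gp s v) h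

/-- `F` has level `k` -/
def Lvl (s : ℕ → ℤ) (k : ℕ) (F : ℤ → ℤ) : Prop := ∀ t : ℤ, Dk s k ∣ Nk s k (F t)

/-- the two forms of the final sets -/
def Tt (κ : ℕ) (X a x : ℤ) : ℤ := if κ = 1 then X + a * x ^ 2 else X + a * (x * (x + 1) / 2)

/-- constants -/
noncomputable def cc : ℝ := 1 / 10 ^ 22
noncomputable def gam : ℝ := cc / 24
noncomputable def ep : ℝ := cc ^ 5
noncomputable def c0 : ℝ := gam ^ 2 * cc ^ 2 / 10

/-- near the scales up to `n` the sequence has exponent `2` -/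
def Rng (s : ℕ → ℤ) (c ε : ℝ) (n : ℕ) : Prop :=
  ∀ k : ℕ, (n : ℝ) ^ c ≤ k → k ≤ n → |Real.log (s k) - 2 * Real.log k| ≤ ε * Real.log k

/-- an exact zone at the scale `N` -/
structure ZoneAt (s : ℕ → ℤ) (N v Z : ℕ) (h : ℤ) : Prop where
  low : N ≤ 2 * v
  high : v + Z ≤ N
  len : (N : ℝ) ^ (cc / 3) ≤ Z
  one_le : 1 ≤ h
  small : (h : ℝ) ≤ (N : ℝ) ^ (20 * ep)
  zone : Zone s v Z h

/-- three zones at the scales `n / 4`, `n₁ = ⌊n ^ γ⌋`, `n₂ = ⌊n₁ ^ γ⌋` -/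
structure Raw (s : ℕ → ℤ) (n v Z v₁ Z₁ v₂ Z₂ : ℕ) (h h₁ h₂ : ℤ) : Prop where
  rng : Rng s c0 ep n
  z : ZoneAt s (n / 4) v Z h
  z₁ : ZoneAt s ⌊(n : ℝ) ^ gam⌋₊ v₁ Z₁ h₁
  z₂ : ZoneAt s ⌊(⌊(n : ℝ) ^ gam⌋₊ : ℝ) ^ gam⌋₊ v₂ Z₂ h₂

theorem two_mul_tri (t : ℤ) : 2 * (t * (t - 1) / 2) = t * (t - 1) := by
  have h : (2 : ℤ) ∣ t * (t - 1) := by
    rcases Int.even_or_odd t with ⟨m, hm⟩ | ⟨m, hm⟩
    · exact ⟨m * (t - 1), by rw [hm]; ring⟩
    · exact ⟨t * m, by rw [hm]; ring⟩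
  omega

theorem two_mul_Fq (a g h t : ℤ) : 2 * Fq a g h t = 2 * a + 2 * g * t + h * (t * (t - 1)) := by
  unfold Fq
  linear_combination h * two_mul_tri t

theorem La_sq (a g h t : ℤ) : La g h t ^ 2 = 8 * h * Fq a g h t - Ev a g h := by
  unfold La Ev
  linear_combination (-4 * h) * two_mul_Fq a g h t

theorem Fq_succ (a g h t : ℤ) : Fq a g h (t + 1) - Fq a g h t = g + h * t := by
  have h1 := two_mul_Fq a g h t
  have h2 := two_mul_Fq a g h (t + 1)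
  have h3 : 2 * (Fq a g h (t + 1) - Fq a g h t) = 2 * (g + h * t) := by
    linear_combination h2 - h1
  omega

theorem two_mul_Fq_sub (a g h t t' : ℤ) :
    2 * (Fq a g h t - Fq a g h t') = (t - t') * (2 * g - h + h * (t + t')) := by
  linear_combination two_mul_Fq a g h t - two_mul_Fq a g h t'

end Pool.Agent.Work.MP_b29d7f_cvx
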