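import Pool.Agent.Work.MP_b29d7f_sep.B_PADIC
import Pool.Agent.Work.MP_b29d7f_sep.B_WINDOW
import Pool.Agent.Work.MP_b29d7f_sep.B_MINP
import Pool.Agent.Work.MP_b29d7f_sep.B_PROD
import Pool.Agent.Work.MP_b29d7f_cvx.DefsC

/-!
# Convex sets with a simultaneous ordering: definitions for sections 0 to 3 (note 2696)
-/

namespace Pool.Agent.Work.MP_b29d7f_cvx

open Finset
open Pool.Agent.Work.MP_b29d7f_nt (IsPOrdering HasSimultaneousOrdering PS vd ld tv)
open Pool.Agent.Work.MP_b29d7f_half (Ord A wv lD HalfDense)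
open Pool.Agent.Work.MP_b29d7f_sep (nv EW EL)

/-- the logarithm of the `k`-th term -/
noncomputable def Lg (s : ℕ → ℤ) (k : ℕ) : ℝ := Real.log (s k)

theorem Cvx.gp_mono {s : ℕ → ℤ} {C₀ : ℝ} (h : Cvx s C₀) : Monotone (gp s) :=
  monotone_nat_of_le_succ h.conv

theorem Cvx.injective {s : ℕ → ℤ} {C₀ : ℝ} (h : Cvx s C₀) : Function.Injective s :=
  h.mono.injective

theorem Cvx.nonneg {s : ℕ → ℤ} {C₀ : ℝ} (h : Cvx s C₀) (k : ℕ) : 0 ≤ s k := by
  rw [← h.zero]
  exact h.mono.monotone (Nat.zero_le k)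

theorem Cvx.pos {s : ℕ → ℤ} {C₀ : ℝ} (h : Cvx s C₀) {k : ℕ} (hk : 1 ≤ k) : 0 < s k := by
  rw [← h.zero]
  exact h.mono (by omega)

/-- the valuation of `s i - s j` (used for `i ≠ j` only) -/
noncomputable def vl (p : ℕ) (s : ℕ → ℤ) (i j : ℕ) : ℕ := multiplicity (p : ℤ) (s i - s j)

/-- the jump of `w_p` at the place `g` (the places are the `g` with `om p s g ≠ 0`) -/
noncomputable def om (p : ℕ) (s : ℕ → ℤ) (g : ℕ) : ℕ := nv p s (g + 1) - nv p s g

/-- the primes which divide a difference of two of the first `n + 1` terms -/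
noncomputable def PR (s : ℕ → ℤ) (n : ℕ) : Finset ℕ :=
  (∏ j ∈ range (n + 1), ∏ i ∈ range j, (s j - s i)).natAbs.primeFactors

/-- some window of at most `M` indices, ending at an index `v ≤ N`, meets all the residue classes
mod `p` of the later terms up to the index `2 N - 1` -/
def Catch (p : ℕ) (s : ℕ → ℤ) (N M : ℕ) : Prop :=
  ∃ u v : ℕ, u ≤ v ∧ v ≤ u + M ∧ v ≤ N ∧
    ∀ j : ℕ, v ≤ j → j < 2 * N → ∃ l : ℕ, u ≤ l ∧ l < v ∧ (p : ℤ) ∣ s j - s l

/-- the primes of type (a) -/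
noncomputable def PA (s : ℕ → ℤ) (N P : ℕ) : Finset ℕ := by
  classical
  exact (PR s (2 * N)).filter fun p => 1 ≤ nv p s P

/-- the primes of type (b) which are caught -/
noncomputable def PC (s : ℕ → ℤ) (N M P : ℕ) : Finset ℕ := by
  classical
  exact (PR s (2 * N)).filter fun p => nv p s P = 0 ∧ Catch p s N M

/-- the good primes -/
noncomputable def PG (s : ℕ → ℤ) (N M P : ℕ) : Finset ℕ := by
  classical
  exact (PR s (2 * N)).filter fun p => nv p s P = 0 ∧ ¬ Catch p s N M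

theorem mem_PA {s : ℕ → ℤ} {N P p : ℕ} : p ∈ PA s N P ↔ p ∈ PR s (2 * N) ∧ 1 ≤ nv p s P := by
  unfold PA
  simp

theorem mem_PC {s : ℕ → ℤ} {N M P p : ℕ} :
    p ∈ PC s N M P ↔ p ∈ PR s (2 * N) ∧ nv p s P = 0 ∧ Catch p s N M := by
  unfold PC
  simp

theorem mem_PG {s : ℕ → ℤ} {N M P p : ℕ} :
    p ∈ PG s N M P ↔ p ∈ PR s (2 * N) ∧ nv p s P = 0 ∧ ¬ Catch p s N M := by
  unfold PG
  simp

/-- the sum over the primes of type (a) and the caught primes; `N` times the quantity `A` of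
note 2696 -/
noncomputable def NA (s : ℕ → ℤ) (N M P : ℕ) : ℝ :=
  ∑ p ∈ PA s N P, Real.log p * nv p s N + ∑ p ∈ PC s N M P, Real.log p * nv p s N

/-- the sum over the places of a window of the jump times the distance to the nearest end -/
noncomputable def Mn (p : ℕ) (s : ℕ → ℤ) (u m : ℕ) : ℝ :=
  ∑ g ∈ Ico u (u + m), (om p s g : ℝ) * min ((u : ℝ) + m - g) ((g : ℝ) + 1 - u)

/-- the sum over the pairs of places of a window -/
noncomputable def PT (p : ℕ) (s : ℕ → ℤ) (u m : ℕ) : ℝ :=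
  ∑ g ∈ Ico u (u + m), ∑ g' ∈ Ico (g + 1) (u + m), (om p s g : ℝ) * om p s g' * ((g' : ℝ) - g)

/-- the deficiency of a window -/
noncomputable def Dfc (p : ℕ) (s : ℕ → ℤ) (u m : ℕ) : ℝ := Mn p s u m + PT p s u m - EW p s u m

/-- the sum of `PT` over good primes and windows -/
noncomputable def Pair (s : ℕ → ℤ) (N M P m : ℕ) : ℝ :=
  ∑ p ∈ PG s N M P, Real.log p * ∑ u ∈ range (N - m + 1), PT p s u m

/-- the sum of `Dfc` over good primes and windows -/
noncomputable def SDfc (s : ℕ → ℤ) (N M P m : ℕ) : ℝ :=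
  ∑ p ∈ PG s N M P, Real.log p * ∑ u ∈ range (N - m + 1), Dfc p s u m

end Pool.Agent.Work.MP_b29d7f_cvx
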