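import Pool.Agent.Work.MP_b29d7f_cvx.B_NAT
import Pool.Agent.Work.MP_b29d7f_cvx.B_NORM
import Pool.Agent.Work.MP_b29d7f_cvx.B_AP
import Pool.Agent.Work.MP_b29d7f_cvx.B_PAD
import Pool.Agent.Work.MP_b29d7f_cvx.B_DFC
import Pool.Agent.Work.MP_b29d7f_cvx.B_CVF
import Pool.Agent.Work.MP_b29d7f_cvx.B_ENT
import Pool.Agent.Work.MP_b29d7f_cvx.B_PAE
import Pool.Agent.Work.MP_b29d7f_cvx.B_VLM
import Pool.Agent.Work.MP_b29d7f_cvx.B_PRF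
import Pool.Agent.Work.MP_b29d7f_cvx.B_DEFL
import Pool.Agent.Work.MP_b29d7f_cvx.B_TRANS
import Pool.Agent.Work.MP_b29d7f_cvx.B_SUPER
import Pool.Agent.Work.MP_b29d7f_cvx.B_CATCHB
import Pool.Agent.Work.MP_b29d7f_cvx.B_JUMP
import Pool.Agent.Work.MP_b29d7f_cvx.B_BIG
import Pool.Agent.Work.MP_b29d7f_cvx.B_PIG
import Pool.Agent.Work.MP_b29d7f_cvx.B_WLOW
import Pool.Agent.Work.MP_b29d7f_cvx.B_WUP
import Pool.Agent.Work.MP_b29d7f_cvx.B_GSUM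
import Pool.Agent.Work.MP_b29d7f_cvx.B_MW
import Pool.Agent.Work.MP_b29d7f_cvx.B_MW2
import Pool.Agent.Work.MP_b29d7f_cvx.B_DYAD
import Pool.Agent.Work.MP_b29d7f_cvx.B_GOODJ
import Pool.Agent.Work.MP_b29d7f_cvx.B_UPPER
import Pool.Agent.Work.MP_b29d7f_cvx.B_NHD
import Pool.Agent.Work.MP_b29d7f_cvx.B_RANGE
import Pool.Agent.Work.MP_b29d7f_cvx.B_MASS
import Pool.Agent.Work.MP_b29d7f_cvx.B_ZDX
import Pool.Agent.Work.MP_b29d7f_cvx.B_NISO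
import Pool.Agent.Work.MP_b29d7f_cvx.B_UG
import Pool.Agent.Work.MP_b29d7f_cvx.B_NFLG
import Pool.Agent.Work.MP_b29d7f_cvx.B_CHAIN
import Pool.Agent.Work.MP_b29d7f_cvx.B_MAT
import Pool.Agent.Work.MP_b29d7f_cvx.B_ND
import Pool.Agent.Work.MP_b29d7f_cvx.B_EXP
import Pool.Agent.Work.MP_b29d7f_cvx.B_EXN
import Pool.Agent.Work.MP_b29d7f_cvx.B_SQL
import Pool.Agent.Work.MP_b29d7f_cvx.B_SQM
import Pool.Agent.Work.MP_b29d7f_cvx.B_TYL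
import Pool.Agent.Work.MP_b29d7f_cvx.B_NTY
import Pool.Agent.Work.MP_b29d7f_cvx.B_PICK
import Pool.Agent.Work.MP_b29d7f_cvx.B_MAJ
import Pool.Agent.Work.MP_b29d7f_cvx.B_HX
import Pool.Agent.Work.MP_b29d7f_cvx.B_HPOS
import Pool.Agent.Work.MP_b29d7f_cvx.B_NDA
import Pool.Agent.Work.MP_b29d7f_cvx.B_NDB
import Pool.Agent.Work.MP_b29d7f_cvx.B_NODEF
import Pool.Agent.Work.MP_b29d7f_cvx.B_ZONE
import Pool.Agent.Work.MP_b29d7f_cvx.B_RAWEX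
import Pool.Agent.Work.MP_b29d7f_cvx.B_NUMA
import Pool.Agent.Work.MP_b29d7f_cvx.B_DVD
import Pool.Agent.Work.MP_b29d7f_cvx.B_INTP
import Pool.Agent.Work.MP_b29d7f_cvx.B_LVL
import Pool.Agent.Work.MP_b29d7f_cvx.B_ARC
import Pool.Agent.Work.MP_b29d7f_cvx.B_CONIC
import Pool.Agent.Work.MP_b29d7f_cvx.B_WB
import Pool.Agent.Work.MP_b29d7f_cvx.B_LEAD
import Pool.Agent.Work.MP_b29d7f_cvx.B_WL
import Pool.Agent.Work.MP_b29d7f_cvx.B_MERD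
import Pool.Agent.Work.MP_b29d7f_cvx.B_LINK
import Pool.Agent.Work.MP_b29d7f_cvx.B_EQU
import Pool.Agent.Work.MP_b29d7f_cvx.B_NUMC
import Pool.Agent.Work.MP_b29d7f_cvx.B_NUME
import Pool.Agent.Work.MP_b29d7f_cvx.B_INS
import Pool.Agent.Work.MP_b29d7f_cvx.B_FIND
import Pool.Agent.Work.MP_b29d7f_cvx.B_HALFI
import Pool.Agent.Work.MP_b29d7f_cvx.B_DIV
import Pool.Agent.Work.MP_b29d7f_cvx.B_NUMD
import Pool.Agent.Work.MP_b29d7f_cvx.B_GCDA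
import Pool.Agent.Work.MP_b29d7f_cvx.B_DEFZ
import Pool.Agent.Work.MP_b29d7f_cvx.B_GCDB
import Pool.Agent.Work.MP_b29d7f_cvx.B_HBD
import Pool.Agent.Work.MP_b29d7f_cvx.B_NUMB
import Pool.Agent.Work.MP_b29d7f_cvx.B_POS
import Pool.Agent.Work.MP_b29d7f_cvx.B_NNG
import Pool.Agent.Work.MP_b29d7f_cvx.B_STR
import Pool.Agent.Work.MP_b29d7f_cvx.B_ONE
import Pool.Agent.Work.MP_b29d7f_cvx.B_UNB
import Pool.Agent.Work.MP_b29d7f_cvx.B_MAINC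
import Pool.Agent.Work.MP_b29d7f_cvx.B_TAIL
import Pool.Agent.Work.MP_b29d7f_cvx.B_POLY
import Pool.Agent.Work.MP_b29d7f_cvx.B_FINP
import Pool.Agent.Work.MP_b29d7f_cvx.B_CONV
import Pool.Agent.Work.MP_b29d7f_cvx.B_FINALC

/-!
# Convex sets with a simultaneous ordering: assembly (note 2696)
-/

namespace Pool.Agent.Work.MP_b29d7f_cvx

open Pool.Agent.Work.MP_b29d7f_nt (HasSimultaneousOrdering)

/-- all blocks together -/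
theorem finalC : Stmt_FINALC := by
  have h_NAT : Stmt_NAT := stmt_NAT
  have h_NORM : Stmt_NORM := stmt_NORM h_NAT
  have h_AP : Stmt_AP := stmt_AP
  have h_PAD : Stmt_PAD := stmt_PAD
  have h_DFC : Stmt_DFC := stmt_DFC h_PAD
  have h_CVF : Stmt_CVF := stmt_CVF
  have h_ENT : Stmt_ENT := stmt_ENT h_CVF
  have h_PAE : Stmt_PAE := stmt_PAE h_PAD
  have h_VLM : Stmt_VLM := stmt_VLM h_PAD h_PAE
  have h_PRF : Stmt_PRF := stmt_PRF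
  have h_DEFL : Stmt_DEFL := stmt_DEFL h_CVF h_ENT h_PAD h_PRF
  have h_TRANS : Stmt_TRANS := stmt_TRANS h_ENT h_PAD h_PAE h_VLM h_PRF h_DEFL
  have h_SUPER : Stmt_SUPER := stmt_SUPER h_PAD
  have h_CATCHB : Stmt_CATCHB := stmt_CATCHB h_PAD h_PAE h_SUPER h_DEFL
  have h_JUMP : Stmt_JUMP := stmt_JUMP h_PAD h_PAE h_VLM
  have h_BIG : Stmt_BIG := stmt_BIG h_PAE
  have h_PIG : Stmt_PIG := stmt_PIG h_ENT h_PAD h_PRF h_JUMP h_BIG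
  have h_WLOW : Stmt_WLOW := stmt_WLOW h_CVF h_PRF
  have h_WUP : Stmt_WUP := stmt_WUP h_PAD h_PAE h_PRF
  have h_GSUM : Stmt_GSUM := stmt_GSUM h_CVF
  have h_MW : Stmt_MW := stmt_MW h_ENT h_WLOW h_WUP h_GSUM
  have h_MW2 : Stmt_MW2 := stmt_MW2 h_ENT h_TRANS h_CATCHB h_PIG h_MW
  have h_DYAD : Stmt_DYAD := stmt_DYAD
  have h_GOODJ : Stmt_GOODJ := stmt_GOODJ h_DYAD
  have h_UPPER : Stmt_UPPER := stmt_UPPER h_DFC h_MW2 h_GOODJ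
  have h_NHD : Stmt_NHD := stmt_NHD
  have h_RANGE : Stmt_RANGE := stmt_RANGE h_DFC h_MW2 h_GOODJ h_UPPER h_NHD
  have h_MASS : Stmt_MASS := stmt_MASS h_CVF
  have h_ZDX : Stmt_ZDX := stmt_ZDX h_CVF h_ENT h_PRF h_MASS h_JUMP h_BIG h_MW2
  have h_NISO : Stmt_NISO := stmt_NISO
  have h_UG : Stmt_UG := stmt_UG
  have h_NFLG : Stmt_NFLG := stmt_NFLG h_PAD h_PRF h_UG
  have h_CHAIN : Stmt_CHAIN := stmt_CHAIN
  have h_MAT : Stmt_MAT := stmt_MAT h_PAD h_PAE h_DFC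
  have h_ND : Stmt_ND := stmt_ND h_PAD h_PAE h_DFC h_CHAIN h_MAT
  have h_EXP : Stmt_EXP := stmt_EXP h_PAD h_PAE h_DFC h_UG h_ND
  have h_EXN : Stmt_EXN := stmt_EXN h_PAD h_PAE h_PRF h_NISO h_NFLG h_EXP
  have h_SQL : Stmt_SQL := stmt_SQL h_PAD h_PAE h_CHAIN h_MAT
  have h_SQM : Stmt_SQM := stmt_SQM
  have h_TYL : Stmt_TYL := stmt_TYL h_PAD h_PAE h_CHAIN h_MAT
  have h_NTY : Stmt_NTY := stmt_NTY h_PAD h_DFC h_UG h_NISO h_NFLG h_SQL h_SQM h_TYL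
  have h_PICK : Stmt_PICK := stmt_PICK h_PAD h_EXN h_NTY
  have h_MAJ : Stmt_MAJ := stmt_MAJ
  have h_HX : Stmt_HX := stmt_HX
  have h_HPOS : Stmt_HPOS := stmt_HPOS h_PAD h_PAE h_PRF
  have h_NDA : Stmt_NDA := stmt_NDA h_HX
  have h_NDB : Stmt_NDB := stmt_NDB h_PAD h_PAE h_HX h_HPOS
  have h_NODEF : Stmt_NODEF := stmt_NODEF h_PAD h_PAE h_PRF h_HPOS h_NDA h_NDB
  have h_ZONE : Stmt_ZONE := stmt_ZONE h_ZDX h_PICK h_MAJ h_HX h_HPOS h_NODEF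
  have h_RAWEX : Stmt_RAWEX := stmt_RAWEX h_RANGE h_ZONE
  have h_NUMA : Stmt_NUMA := stmt_NUMA
  have h_DVD : Stmt_DVD := stmt_DVD
  have h_INTP : Stmt_INTP := stmt_INTP
  have h_LVL : Stmt_LVL := stmt_LVL h_DVD h_INTP
  have h_ARC : Stmt_ARC := stmt_ARC
  have h_CONIC : Stmt_CONIC := stmt_CONIC
  have h_WB : Stmt_WB := stmt_WB h_CONIC
  have h_LEAD : Stmt_LEAD := stmt_LEAD
  have h_WL : Stmt_WL := stmt_WL h_LEAD
  have h_MERD : Stmt_MERD := stmt_MERD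
  have h_LINK : Stmt_LINK := stmt_LINK h_ARC h_WB h_WL h_MERD
  have h_EQU : Stmt_EQU := stmt_EQU h_NUMA h_LVL h_LINK
  have h_NUMC : Stmt_NUMC := stmt_NUMC h_ARC
  have h_NUME : Stmt_NUME := stmt_NUME h_ARC
  have h_INS : Stmt_INS := stmt_INS h_ARC
  have h_FIND : Stmt_FIND := stmt_FIND
  have h_HALFI : Stmt_HALFI := stmt_HALFI
  have h_DIV : Stmt_DIV := stmt_DIV h_EQU h_NUMC h_NUME h_LVL h_INS h_FIND h_HALFI
  have h_NUMD : Stmt_NUMD := stmt_NUMD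
  have h_GCDA : Stmt_GCDA := stmt_GCDA
  have h_DEFZ : Stmt_DEFZ := stmt_DEFZ h_ARC
  have h_GCDB : Stmt_GCDB := stmt_GCDB h_GCDA h_DEFZ
  have h_HBD : Stmt_HBD := stmt_HBD h_DIV h_NUMD h_NUME h_GCDB
  have h_NUMB : Stmt_NUMB := stmt_NUMB h_ARC
  have h_POS : Stmt_POS := stmt_POS h_ARC
  have h_NNG : Stmt_NNG := stmt_NNG h_EQU h_NUMB h_NUME h_LVL h_POS
  have h_STR : Stmt_STR := stmt_STR
  have h_ONE : Stmt_ONE := stmt_ONE h_RAWEX h_DIV h_HBD h_NNG h_NUME h_EQU h_LVL h_INS h_STR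
  have h_UNB : Stmt_UNB := stmt_UNB
  have h_MAINC : Stmt_MAINC := stmt_MAINC h_ONE h_UNB
  have h_TAIL : Stmt_TAIL := stmt_TAIL
  have h_POLY : Stmt_POLY := stmt_POLY
  have h_FINP : Stmt_FINP := stmt_FINP h_DVD h_POLY
  have h_CONV : Stmt_CONV := stmt_CONV
  exact stmt_FINALC h_NORM h_AP h_MAINC h_TAIL h_FINP h_CONV

/-- **Convex sets.** A strictly increasing sequence of polynomial growth with nondecreasing gaps
forms a set with a simultaneous `p`-ordering if and only if it is an arithmetic progression, a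
sequence `a n ^ 2 + b` or a sequence `a n (n + 1) / 2 + b`. -/
theorem convex_iff (s : ℕ → ℤ) (hs : StrictMono s)
    (hc : ∀ k, s (k + 1) - s k ≤ s (k + 2) - s (k + 1))
    (hg : ∃ C : ℕ, ∀ n : ℕ, s n ≤ C * ((n : ℤ) + 1) ^ C) :
    HasSimultaneousOrdering (Set.range s) ↔ ∃ a b : ℤ, (∀ n : ℕ, s n = a * n + b) ∨
      (∀ n : ℕ, s n = a * n ^ 2 + b) ∨ ∀ n : ℕ, s n = a * (n * (n + 1) / 2) + b :=
  finalC s hs hc hg

end Pool.Agent.Work.MP_b29d7f_cvx
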