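import Pool.Agent.Work.MP_b29d7f_cvx.DefsC

/-!
# Convex sets with a simultaneous ordering: statements of the blocks of the end game

Paper proof: note 2696 (helper77), section 4.  Every block is a closed proposition `Stmt_X`; a block
is done when a file `B_X.lean` proves `theorem stmt_X (h1 : Stmt_Y) ... : Stmt_X`, hypotheses =
column `uses` of the table `cvx_blocks`.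
-/

namespace Pool.Agent.Work.MP_b29d7f_cvx

open Finset
open Pool.Agent.Work.MP_b29d7f_nt (IsPOrdering HasSimultaneousOrdering PS vd ld tv)
open Pool.Agent.Work.MP_b29d7f_half (Ord A wv lD K DK HalfDense)
open Pool.Agent.Work.MP_b29d7f_sep (nv EW EL)

/-! ### results of sections 2 and 3 which are used here -/

/-- RANGE (section 2) -/
def Stmt_RANGE : Prop := ∀ (s : ℕ → ℤ) (C₀ : ℝ), Cvx s C₀ → ¬ HalfDense (Set.range s) →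
  ∀ c ε : ℝ, 0 < c → 0 < ε → ∀ n₀ : ℕ, ∃ n : ℕ, n₀ ≤ n ∧ Rng s c ε n

/-- ZONE (section 3) -/
def Stmt_ZONE : Prop := ∀ (s : ℕ → ℤ) (C₀ : ℝ), Cvx s C₀ → ∃ N₀ : ℕ, ∀ N : ℕ, N₀ ≤ N →
  (∀ k : ℕ, (N : ℝ) ^ cc ≤ k → k ≤ 4 * N →
    |Real.log (s k) - 2 * Real.log k| ≤ ep * Real.log k) →
  ∃ (v Z : ℕ) (h : ℤ), ZoneAt s N v Z h

/-! ### basic facts -/

/-- NAT (0.1): the sequence itself is a simultaneous ordering -/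
def Stmt_NAT : Prop := ∀ s : ℕ → ℤ, StrictMono s →
  (∀ k, s (k + 1) - s k ≤ s (k + 2) - s (k + 1)) → HasSimultaneousOrdering (Set.range s) →
  ∀ p : ℕ, p.Prime → IsPOrdering (Set.range s) p s

/-- NORM: normalisation -/
def Stmt_NORM : Prop := ∀ s : ℕ → ℤ, StrictMono s →
  (∀ k, s (k + 1) - s k ≤ s (k + 2) - s (k + 1)) →
  (∃ C : ℕ, ∀ n : ℕ, s n ≤ C * ((n : ℤ) + 1) ^ C) → HasSimultaneousOrdering (Set.range s) →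
  ∃ C₀ : ℝ, Cvx (fun n => s n - s 0) C₀

/-- AP (0.2): the case of exponent larger than one half -/
def Stmt_AP : Prop := ∀ (s : ℕ → ℤ) (C₀ : ℝ), Cvx s C₀ → HalfDense (Set.range s) →
  ∀ n : ℕ, s n = n * s 1

/-- UNB: otherwise the gaps are unbounded -/
def Stmt_UNB : Prop := ∀ (s : ℕ → ℤ) (C₀ : ℝ), Cvx s C₀ → ¬ HalfDense (Set.range s) →
  ∀ H : ℤ, ∃ i₀ : ℕ, ∀ i : ℕ, i₀ ≤ i → H < gp s i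

/-- ARC (0.3): archimedean facts -/
def Stmt_ARC : Prop := ∀ (s : ℕ → ℤ) (C₀ : ℝ), Cvx s C₀ →
  (∀ i j l : ℕ, i ≤ j → s (i + l) - s i ≤ s (j + l) - s j) ∧
  (∀ i j : ℕ, i ≤ j → ((j : ℤ) - i) * s j ≤ j * (s j - s i)) ∧
  (∀ i j : ℕ, i ≤ j → ((j : ℤ) - i) * gp s i ≤ s j - s i) ∧
  (∀ k : ℕ, s k ≤ k * gp s k) ∧ (∀ k : ℕ, (k : ℤ) ≤ s k) ∧ (∀ k : ℕ, 0 < Dk s k) ∧
  (∀ k : ℕ, 1 ≤ k → k * Real.log (s k) - k ≤ Real.log (Dk s k) ∧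
    Real.log (Dk s k) ≤ k * Real.log (s k))

/-- DVD: divisibility in the integers (F1 and F2) -/
def Stmt_DVD : Prop := ∀ (s : ℕ → ℤ) (C₀ : ℝ), Cvx s C₀ →
  (∀ k j : ℕ, Dk s k ∣ Nk s k (s j)) ∧
  (∀ p : ℕ, p.Prime → ∀ k : ℕ, nv p s k = padicValInt p (Dk s k))

/-! ### 4.1 -/

/-- INTP: divisibility at `d + 1` consecutive integers -/
def Stmt_INTP : Prop := ∀ (P : Polynomial ℚ) (d : ℕ) (D : ℤ), P.natDegree ≤ d →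
  (∀ t : ℕ, t ≤ d → ∃ z : ℤ, P.eval (t : ℚ) = D * z) →
  ∀ t : ℤ, ∃ z : ℤ, P.eval (t : ℚ) = D * z

/-- LVL (4.1 INT): a zone has level `k` for `2 k ≤ Z`, `k ≤ v` -/
def Stmt_LVL : Prop := ∀ (s : ℕ → ℤ) (C₀ : ℝ), Cvx s C₀ → ∀ (v Z k : ℕ) (h : ℤ),
  Zone s v Z h → k ≤ v → 2 * k ≤ Z → Lvl s k (Fz s v h)

/-- LEAD (4.1): the `2k`-th difference -/
def Stmt_LEAD : Prop := ∀ (s : ℕ → ℤ) (k : ℕ) (a g h : ℤ), Lvl s k (Fq a g h) →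
  2 ^ k * Dk s k ∣ ((2 * k).factorial : ℤ) * h ^ k

/-- INS (4.1): a value of level `k` in `[0, s_k)` is an element -/
def Stmt_INS : Prop := ∀ (s : ℕ → ℤ) (C₀ : ℝ), Cvx s C₀ → ∀ (k : ℕ) (x : ℤ),
  Dk s k ∣ Nk s k x → 0 ≤ x → x < s k → ∃ i : ℕ, i < k ∧ s i = x

/-! ### 4.2 LINK -/

/-- CONIC: how often `α z² + β` is a square -/
def Stmt_CONIC : Prop := ∀ p : ℕ, ∀ [Fact p.Prime], p ≠ 2 → ∀ α β : ZMod p, α ≠ 0 → β ≠ 0 →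
  2 * ((univ : Finset (ZMod p)).filter (fun z => IsSquare (α * z ^ 2 + β))).card ≤ p + 3

/-- WB (4.2): two quadratic sequences with different vertex values -/
def Stmt_WB : Prop := ∀ (s : ℕ → ℤ) (k p : ℕ) (a₁ g₁ h₁ a₂ g₂ h₂ : ℤ), StrictMono s →
  p.Prime → 7 ≤ p → ¬ (p : ℤ) ∣ h₁ → ¬ (p : ℤ) ∣ h₂ →
  ¬ (p : ℤ) ∣ h₂ * Ev a₁ g₁ h₁ - h₁ * Ev a₂ g₂ h₂ →
  Lvl s k (Fq a₁ g₁ h₁) → Lvl s k (Fq a₂ g₂ h₂) →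
  (padicValInt p (Dk s k) : ℝ) * (((p : ℝ) - 1) * (3 * p - 9)) ≤ 4 * k * p

/-- WL (4.2): the bound from the leading coefficient -/
def Stmt_WL : Prop := ∀ (s : ℕ → ℤ) (k : ℕ) (a g h : ℤ), StrictMono s → 1 ≤ h →
  Lvl s k (Fq a g h) → ∀ P : Finset ℕ, (∀ p ∈ P, p.Prime) →
  ∑ p ∈ P, Real.log p * (padicValInt p (Dk s k) : ℝ) ≤
    2 * k * (∑ p ∈ P, Real.log p / ((p : ℝ) - 1)) + k * Real.log h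

/-- MERD: the prime factors of one number -/
def Stmt_MERD : Prop := ∃ C : ℝ, 0 ≤ C ∧ ∀ (D : ℕ) (X : ℝ), 1 ≤ D → 1 ≤ X → Real.log D ≤ X →
  ∑ p ∈ D.primeFactors, Real.log p / ((p : ℝ) - 1) ≤ Real.log X + C

/-- LINK (4.2): all zones have the same vertex value -/
def Stmt_LINK : Prop := ∃ k₀ : ℕ, ∀ (s : ℕ → ℤ) (C₀ : ℝ), Cvx s C₀ →
  ∀ (k : ℕ) (a₁ g₁ h₁ a₂ g₂ h₂ : ℤ), k₀ ≤ k → 1.9 * Real.log k ≤ Real.log (s k) →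
  1 ≤ h₁ → 1 ≤ h₂ → (h₁ : ℝ) ≤ (k : ℝ) ^ (1 / 100 : ℝ) → (h₂ : ℝ) ≤ (k : ℝ) ^ (1 / 100 : ℝ) →
  Real.log |((2 * h₁ * h₂ * (h₂ * Ev a₁ g₁ h₁ - h₁ * Ev a₂ g₂ h₂) : ℤ) : ℝ)| ≤
    (k : ℝ) ^ (1 / 10 : ℝ) →
  Lvl s k (Fq a₁ g₁ h₁) → Lvl s k (Fq a₂ g₂ h₂) →
  h₂ * Ev a₁ g₁ h₁ = h₁ * Ev a₂ g₂ h₂

/-! ### 4.4 - 4.6 -/

/-- POS (4.4): a small negative number has no level `2 m` -/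
def Stmt_POS : Prop := ∀ (s : ℕ → ℤ) (C₀ : ℝ), Cvx s C₀ → ∀ (m : ℕ) (y : ℤ), 1 ≤ m →
  3 * s m ≤ s (2 * m) → 0 < y →
  (y : ℝ) * (2 * Real.log (y + 1) + Real.log (2 * m) + 2) ≤ m * Real.log 2 →
  ¬ Dk s (2 * m) ∣ Nk s (2 * m) (-y)

/-- FIND (4.5): values of a quadratic sequence in an interval, on both sides of the vertex -/
def Stmt_FIND : Prop := ∀ a g h U V : ℤ, 1 ≤ h → Ev a g h ≤ 8 * h * U → 2 * h ≤ V - U →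
  8 * h * U - Ev a g h ≤ (V - U - 2 * h) ^ 2 →
  ∃ t t' : ℤ, 0 < La g h t ∧ U ≤ Fq a g h t ∧ Fq a g h t ≤ V ∧ U ≤ Fq a g h (t + 1) ∧
    Fq a g h (t + 1) ≤ V ∧ La g h t' < 0 ∧ U ≤ Fq a g h t' ∧ Fq a g h t' ≤ V

/-- HALFI (4.5): the vertex of the second sequence is half integral -/
def Stmt_HALFI : Prop := ∀ a g h a₁ g₁ h₁ t t' α β α' : ℤ, 1 ≤ h → 1 ≤ h₁ →
  h₁ * Ev a g h = h * Ev a₁ g₁ h₁ → 0 < La g h t → La g h t' < 0 →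
  0 < La g₁ h₁ α → 0 < La g₁ h₁ β → 0 < La g₁ h₁ α' →
  Fq a g h t = Fq a₁ g₁ h₁ α → Fq a g h (t + 1) = Fq a₁ g₁ h₁ β →
  Fq a g h t' = Fq a₁ g₁ h₁ α' → h₁ ∣ 2 * g₁

/-- GCDA (4.6): after a zone all elements below `2 ^ Z` are congruent modulo the gcd -/
def Stmt_GCDA : Prop := ∀ (s : ℕ → ℤ) (C₀ : ℝ), Cvx s C₀ → ∀ (v Z : ℕ) (h : ℤ),
  Zone s v Z h → ∀ j : ℕ, v ≤ j → (s j : ℝ) < 2 ^ Z → (Int.gcd (gp s v) h : ℤ) ∣ s j - s v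

/-- DEFZ (0.7 for `i = 0, 1`): small defect -/
def Stmt_DEFZ : Prop := ∀ (s : ℕ → ℤ) (C₀ : ℝ), Cvx s C₀ → ∀ N i : ℕ, 2 ≤ N → i ≤ 1 →
  ∀ P : Finset ℕ, (∀ p ∈ P, p.Prime) →
  ∑ p ∈ P, Real.log p * ((nv p s N : ℝ) - ∑ l ∈ (range N).erase i, vd p (s i) (s l)) ≤
    GG s N + N * Real.log 2 + 3 * Real.log (s N)

/-- GCDB (4.6): the gcd is bounded -/
def Stmt_GCDB : Prop := ∀ (s : ℕ → ℤ) (C₀ : ℝ), Cvx s C₀ → ∀ (v Z N : ℕ) (h : ℤ), 2 ≤ v →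
  Zone s v Z h → 2 * v ≤ N → (s N : ℝ) < 2 ^ Z → GG s N ≤ 4 * C₀ * N →
  (Int.gcd (gp s v) h : ℝ) ≤ Real.exp (32 * C₀ + 6) * s 1

/-! ### 4.7 -/

/-- STR (4.7): the two forms -/
def Stmt_STR : Prop := ∀ a g h : ℤ, 1 ≤ h → h ≤ g → h ∣ 2 * g →
  ∃ (κ : ℕ) (X b x₀ : ℤ), (κ = 1 ∨ κ = 2) ∧ 1 ≤ b ∧ b ≤ h ∧ 0 ≤ x₀ ∧
    8 * h * X ≤ Ev a g h + h ^ 2 ∧ ∀ t : ℤ, Fq a g h t = Tt κ X b (x₀ + t)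

/-! ### choice of the scales -/

/-- RAWEX (4.3): three zones -/
def Stmt_RAWEX : Prop := ∀ (s : ℕ → ℤ) (C₀ : ℝ), Cvx s C₀ → ¬ HalfDense (Set.range s) →
  ∀ n₀ : ℕ, ∃ n : ℕ, n₀ ≤ n ∧ ∃ (v Z v₁ Z₁ v₂ Z₂ : ℕ) (h h₁ h₂ : ℤ),
    Raw s n v Z v₁ Z₁ v₂ Z₂ h h₁ h₂

/-- NUMA: numerical hypotheses of LINK at `k = Z₂ / 2` -/
def Stmt_NUMA : Prop := ∀ (s : ℕ → ℤ) (C₀ : ℝ), Cvx s C₀ → ∀ k₀ : ℕ, ∃ n₀ : ℕ, ∀ n : ℕ, n₀ ≤ n →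
  ∀ (v Z v₁ Z₁ v₂ Z₂ : ℕ) (h h₁ h₂ : ℤ), Raw s n v Z v₁ Z₁ v₂ Z₂ h h₁ h₂ →
  ∃ k : ℕ, k₀ ≤ k ∧ k ≤ v ∧ k ≤ v₁ ∧ k ≤ v₂ ∧ 2 * k ≤ Z ∧ 2 * k ≤ Z₁ ∧ 2 * k ≤ Z₂ ∧
    1.9 * Real.log k ≤ Real.log (s k) ∧ (h : ℝ) ≤ (k : ℝ) ^ (1 / 100 : ℝ) ∧
    (h₁ : ℝ) ≤ (k : ℝ) ^ (1 / 100 : ℝ) ∧ (h₂ : ℝ) ≤ (k : ℝ) ^ (1 / 100 : ℝ) ∧
    Real.log |((2 * h * h₁ * (h₁ * Ev (s v) (gp s v) h - h * Ev (s v₁) (gp s v₁) h₁) : ℤ) : ℝ)| ≤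
      (k : ℝ) ^ (1 / 10 : ℝ) ∧
    Real.log |((2 * h₁ * h₂ * (h₂ * Ev (s v₁) (gp s v₁) h₁ - h₁ * Ev (s v₂) (gp s v₂) h₂) : ℤ) : ℝ)| ≤
      (k : ℝ) ^ (1 / 10 : ℝ)

/-- NUMB: numerical hypotheses of POS -/
def Stmt_NUMB : Prop := ∀ (s : ℕ → ℤ) (C₀ : ℝ), Cvx s C₀ → ∃ n₀ : ℕ, ∀ n : ℕ, n₀ ≤ n →
  ∀ (v Z v₁ Z₁ v₂ Z₂ : ℕ) (h h₁ h₂ : ℤ), Raw s n v Z v₁ Z₁ v₂ Z₂ h h₁ h₂ →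
  ∃ m : ℕ, 1 ≤ m ∧ 4 * m ≤ Z₁ ∧ 2 * m ≤ v₁ ∧ 3 * s m ≤ s (2 * m) ∧
    ∀ y : ℤ, 0 < y → y ≤ gp s v₂ ^ 2 →
      (y : ℝ) * (2 * Real.log (y + 1) + Real.log (2 * m) + 2) ≤ m * Real.log 2

/-- NUMC: numerical hypotheses of FIND, and the order of the indices -/
def Stmt_NUMC : Prop := ∀ (s : ℕ → ℤ) (C₀ : ℝ), Cvx s C₀ → ∃ n₀ : ℕ, ∀ n : ℕ, n₀ ≤ n →
  ∀ (v Z v₁ Z₁ v₂ Z₂ : ℕ) (h h₁ h₂ : ℤ), Raw s n v Z v₁ Z₁ v₂ Z₂ h h₁ h₂ →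
  2 * h ≤ s (v₁ + Z₁) - s v₁ ∧
  8 * h * s v₁ + 8 * h * gp s v₂ ^ 2 ≤ (s (v₁ + Z₁) - s v₁ - 2 * h) ^ 2 ∧
  v₁ + Z₁ < Z / 2 ∧ Z / 2 ≤ v

/-- NUMD: the auxiliary scale of 4.6 -/
def Stmt_NUMD : Prop := ∀ (s : ℕ → ℤ) (C₀ : ℝ), Cvx s C₀ → ∃ n₀ : ℕ, ∀ n : ℕ, n₀ ≤ n →
  ∀ (v Z v₁ Z₁ v₂ Z₂ : ℕ) (h h₁ h₂ : ℤ), Raw s n v Z v₁ Z₁ v₂ Z₂ h h₁ h₂ →
  ∃ N : ℕ, 2 * v₁ ≤ N ∧ (s N : ℝ) < 2 ^ Z₁ ∧ GG s N ≤ 4 * C₀ * N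

/-- NUME: sizes -/
def Stmt_NUME : Prop := ∀ (s : ℕ → ℤ) (C₀ : ℝ), Cvx s C₀ → ∀ m₀ : ℕ, ∃ n₀ : ℕ, ∀ n : ℕ, n₀ ≤ n →
  ∀ (v Z v₁ Z₁ v₂ Z₂ : ℕ) (h h₁ h₂ : ℤ), Raw s n v Z v₁ Z₁ v₂ Z₂ h h₁ h₂ →
  h₁ ≤ gp s v₁ ∧ h₂ ≤ gp s v₂ ∧ m₀ ≤ v₁ ∧ m₀ ≤ Z₁ / 2 ∧ Z₁ / 2 ≤ v₁ ∧
    s v₂ + 2 * h₁ < s (Z₁ / 2)

/-! ### assembly -/

/-- EQU: the three vertex values are equal -/
def Stmt_EQU : Prop := ∀ (s : ℕ → ℤ) (C₀ : ℝ), Cvx s C₀ → ∃ n₀ : ℕ, ∀ n : ℕ, n₀ ≤ n →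
  ∀ (v Z v₁ Z₁ v₂ Z₂ : ℕ) (h h₁ h₂ : ℤ), Raw s n v Z v₁ Z₁ v₂ Z₂ h h₁ h₂ →
  h₁ * Ev (s v) (gp s v) h = h * Ev (s v₁) (gp s v₁) h₁ ∧
  h₂ * Ev (s v₁) (gp s v₁) h₁ = h₁ * Ev (s v₂) (gp s v₂) h₂

/-- NNG (4.4): the second zone polynomial is nonnegative -/
def Stmt_NNG : Prop := ∀ (s : ℕ → ℤ) (C₀ : ℝ), Cvx s C₀ → ∃ n₀ : ℕ, ∀ n : ℕ, n₀ ≤ n →
  ∀ (v Z v₁ Z₁ v₂ Z₂ : ℕ) (h h₁ h₂ : ℤ), Raw s n v Z v₁ Z₁ v₂ Z₂ h h₁ h₂ →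
  ∀ t : ℤ, 0 ≤ Fz s v₁ h₁ t

/-- DIV (4.5) -/
def Stmt_DIV : Prop := ∀ (s : ℕ → ℤ) (C₀ : ℝ), Cvx s C₀ → ∃ n₀ : ℕ, ∀ n : ℕ, n₀ ≤ n →
  ∀ (v Z v₁ Z₁ v₂ Z₂ : ℕ) (h h₁ h₂ : ℤ), Raw s n v Z v₁ Z₁ v₂ Z₂ h h₁ h₂ →
  h₁ ∣ 2 * gp s v₁

/-- HBD (4.6): the second difference is bounded -/
def Stmt_HBD : Prop := ∀ (s : ℕ → ℤ) (C₀ : ℝ), Cvx s C₀ → ∃ (H : ℤ) (n₀ : ℕ), ∀ n : ℕ, n₀ ≤ n →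
  ∀ (v Z v₁ Z₁ v₂ Z₂ : ℕ) (h h₁ h₂ : ℤ), Raw s n v Z v₁ Z₁ v₂ Z₂ h h₁ h₂ → h₁ ≤ H

/-- ONE (4.7): a set of one of the two forms for every scale -/
def Stmt_ONE : Prop := ∀ (s : ℕ → ℤ) (C₀ : ℝ), Cvx s C₀ → ¬ HalfDense (Set.range s) →
  ∃ H : ℤ, ∀ n₀ : ℕ, ∃ (κ : ℕ) (X b x₀ : ℤ) (v K : ℕ), n₀ ≤ v ∧ n₀ ≤ K ∧ (κ = 1 ∨ κ = 2) ∧
    1 ≤ b ∧ b ≤ H ∧ 0 ≤ X ∧ X ∈ Set.range s ∧ X + b ∈ Set.range s ∧ 0 ≤ x₀ ∧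
    (∀ x : ℤ, Tt κ X b x < s K → Tt κ X b x ∈ Set.range s) ∧
    s v = Tt κ X b x₀ ∧ s (v + 1) = Tt κ X b (x₀ + 1)

/-- MAINC (4.7): one set for all scales -/
def Stmt_MAINC : Prop := ∀ (s : ℕ → ℤ) (C₀ : ℝ), Cvx s C₀ → ¬ HalfDense (Set.range s) →
  ∃ (κ : ℕ) (X b : ℤ), (κ = 1 ∨ κ = 2) ∧ 1 ≤ b ∧ (∀ x : ℕ, Tt κ X b x ∈ Set.range s) ∧
    ∃ v x₀ : ℕ, 2 ≤ x₀ ∧ s v = Tt κ X b x₀ ∧ s (v + 1) = Tt κ X b (x₀ + 1)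

/-- TAIL (4.8): the tail is the quadratic sequence -/
def Stmt_TAIL : Prop := ∀ (s : ℕ → ℤ) (C₀ : ℝ), Cvx s C₀ → ∀ (κ : ℕ) (X b : ℤ),
  (κ = 1 ∨ κ = 2) → 1 ≤ b → (∀ x : ℕ, Tt κ X b x ∈ Set.range s) → ∀ v x₀ : ℕ, 2 ≤ x₀ →
  s v = Tt κ X b x₀ → s (v + 1) = Tt κ X b (x₀ + 1) → ∀ t : ℕ, s (v + t) = Tt κ X b (x₀ + t)

/-- POLY (4.8): the polynomial identity -/
def Stmt_POLY : Prop := ∀ (P : Polynomial ℤ) (e : ℤ), P ≠ 0 →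
  (∃ x₀ : ℕ, ∀ x : ℕ, x₀ ≤ x → P.eval (x : ℤ) ∣ (2 * x + e) * P.eval ((x : ℤ) + 1)) →
  ∀ x : ℤ, (2 * x + e) * P.eval (x + 1) = (2 * x + e + 2 * P.natDegree) * P.eval x

/-- FINP (4.8): there are no extra elements -/
def Stmt_FINP : Prop := ∀ (s : ℕ → ℤ) (C₀ : ℝ), Cvx s C₀ → ∀ (κ : ℕ) (X b : ℤ),
  (κ = 1 ∨ κ = 2) → 1 ≤ b → (∀ x : ℕ, Tt κ X b x ∈ Set.range s) →
  (∃ v x₀ : ℕ, ∀ t : ℕ, s (v + t) = Tt κ X b (x₀ + t)) → ∀ n : ℕ, s n = Tt κ X b n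

/-- CONV: the converse -/
def Stmt_CONV : Prop := ∀ a b : ℤ,
  HasSimultaneousOrdering (Set.range fun n : ℕ => a * n + b) ∧
  HasSimultaneousOrdering (Set.range fun n : ℕ => a * n ^ 2 + b) ∧
  HasSimultaneousOrdering (Set.range fun n : ℕ => a * (n * (n + 1) / 2) + b)

/-- FINALC: the theorem -/
def Stmt_FINALC : Prop := ∀ s : ℕ → ℤ, StrictMono s →
  (∀ k, s (k + 1) - s k ≤ s (k + 2) - s (k + 1)) →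
  (∃ C : ℕ, ∀ n : ℕ, s n ≤ C * ((n : ℤ) + 1) ^ C) →
  (HasSimultaneousOrdering (Set.range s) ↔ ∃ a b : ℤ, (∀ n : ℕ, s n = a * n + b) ∨
    (∀ n : ℕ, s n = a * n ^ 2 + b) ∨ ∀ n : ℕ, s n = a * (n * (n + 1) / 2) + b)

end Pool.Agent.Work.MP_b29d7f_cvx
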