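import Pool.Agent.Work.MP_b29d7f_cvx.Defs
import Pool.Agent.Work.MP_b29d7f_cvx.InterfaceC

/-!
# Convex sets with a simultaneous ordering: statements of the blocks, part 1

Paper proof: note 2696, sections 0, 1, 2.  Every block is a closed proposition `Stmt_X`; a block is
done when a file `B_X.lean` proves `theorem stmt_X : Stmt_X` (possibly from other `Stmt_Y` as
hypotheses, exactly those listed in the table `cvx_blocks`).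
-/

namespace Pool.Agent.Work.MP_b29d7f_cvx

open Finset
open Pool.Agent.Work.MP_b29d7f_nt (IsPOrdering HasSimultaneousOrdering PS vd ld tv)
open Pool.Agent.Work.MP_b29d7f_half (Ord A wv lD HalfDense)
open Pool.Agent.Work.MP_b29d7f_sep (nv EW EL)

/-! ### Section 0: basics -/

/-- CVF: elementary facts on convex sequences -/
def Stmt_CVF : Prop := ∀ s : ℕ → ℤ, s 0 = 0 → StrictMono s → Monotone (gp s) →
  (∀ i j d : ℕ, i ≤ j → s (i + d) - s i ≤ s (j + d) - s j) ∧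
  (∀ i j : ℕ, i ≤ j → ((j : ℤ) - i) * gp s i ≤ s j - s i) ∧
  (∀ i j : ℕ, i < j → s j - s i ≤ ((j : ℤ) - i) * gp s (j - 1)) ∧
  (∀ i j : ℕ, i ≤ j → ((j : ℤ) - i) * s j ≤ j * (s j - s i)) ∧
  (∀ k : ℕ, s k ≤ k * gp s k) ∧
  (∀ k : ℕ, k * gp s k ≤ s (2 * k)) ∧
  (∀ k : ℕ, (k : ℤ) ≤ s k) ∧ (∀ k : ℕ, 1 ≤ gp s k) ∧
  (∀ i j k : ℕ, i < j → j < k →
    (s j - s i) * ((k : ℤ) - j) ≤ (s k - s j) * ((j : ℤ) - i))

/-- ENT: the size of the `k`-th factorial: `k L(k) - k ≤ T(k) ≤ k L(k)`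
(`s k - s i ≥ ((k-i)/k) s k` and `k! ≥ (k/e)^k`) -/
def Stmt_ENT : Prop := ∀ (s : ℕ → ℤ) (C₀ : ℝ), Cvx s C₀ → ∀ k : ℕ,
  (k : ℝ) * Lg s k - k ≤ lD s k ∧ lD s k ≤ (k : ℝ) * Lg s k ∧ 0 ≤ Lg s k

/-- PAD: the `p`-adic facts in index form (from `PADIC` of `sep`): monotonicity, F1, and the window
form of F2 -/
def Stmt_PAD : Prop := ∀ (s : ℕ → ℤ) (C₀ : ℝ), Cvx s C₀ → ∀ p : ℕ, p.Prime →
  Monotone (nv p s) ∧ nv p s 0 = 0 ∧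
  (∀ k j : ℕ, k ≤ j → nv p s k ≤ ∑ i ∈ range k, vl p s j i) ∧
  (∀ u v h : ℕ, u ≤ h → h ≤ v → nv p s u + ∑ l ∈ (Icc u v).erase h, vl p s h l ≤ nv p s v)

/-- PAE: consequences of PAD: the energy of a window is at most half of
(number of indices) times the growth; growth `0` means distinct mod `p`; the ultrametric inequality
for `vl`; symmetry; `EW` in terms of `vl` -/
def Stmt_PAE : Prop := ∀ (s : ℕ → ℤ) (C₀ : ℝ), Cvx s C₀ → ∀ p : ℕ, p.Prime →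
  (∀ i j : ℕ, vl p s i j = vl p s j i) ∧
  (∀ i j l : ℕ, i ≠ j → j ≠ l → i ≠ l → min (vl p s i j) (vl p s j l) ≤ vl p s i l) ∧
  (∀ i j : ℕ, i ≠ j → (vl p s i j = 0 ↔ ¬ (p : ℤ) ∣ s i - s j)) ∧
  (∀ i j : ℕ, i < j → (p : ℤ) ^ vl p s j i ≤ s j - s i) ∧
  (∀ u m : ℕ, EW p s u m = ∑ j ∈ Ico u (u + m + 1), ∑ i ∈ Ico u j, (vl p s j i : ℝ)) ∧
  (∀ u m : ℕ, 2 * EW p s u m ≤ ((m : ℝ) + 1) * ((nv p s (u + m) : ℝ) - nv p s u)) ∧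
  (∀ u v i j : ℕ, u ≤ i → i < j → j ≤ v → nv p s v = nv p s u → ¬ (p : ℤ) ∣ s j - s i)

/-- SUPER: `w(k) + w(l) ≤ w(k + l)`.
Proof: `f = N_k N_l` has degree `k + l`, leading coefficient `1`, and its values on `S` have
valuation at least `w(k) + w(l)` (F1). Lagrange interpolation at `s 0, .., s (k+l)`: the leading
coefficient `1` is the sum over `j ≤ k + l` of `f(s j) / ∏_{i ≠ j} (s j - s i)`, and each
denominator has valuation at most `w(k + l)` (PAD with `u = 0`, `v = k + l`). -/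
def Stmt_SUPER : Prop := ∀ (s : ℕ → ℤ) (C₀ : ℝ), Cvx s C₀ → ∀ p : ℕ, p.Prime →
  ∀ k l : ℕ, nv p s k + nv p s l ≤ nv p s (k + l)

/-- VLM: upper bound for the valuations of `N_k(s j)`, `j ≥ k`.
Proof: `l*` the index `< k` with `V = vl p s j l*` maximal; `vl p s j l ≤ vl p s l* l` for the other
`l` (ultrametric), and the sum of `vl p s l* l` over `l < k`, `l ≠ l*` is `≤ w(k)` (PAD). -/
def Stmt_VLM : Prop := ∀ (s : ℕ → ℤ) (C₀ : ℝ), Cvx s C₀ → ∀ p : ℕ, p.Prime →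
  ∀ k j : ℕ, k ≤ j → 1 ≤ j → ∃ V : ℕ, (p : ℤ) ^ V ≤ s j ∧
    ∑ i ∈ range k, vl p s j i ≤ nv p s k + V

/-- PRF: the product formula -/
def Stmt_PRF : Prop := ∀ (s : ℕ → ℤ) (C₀ : ℝ), Cvx s C₀ → ∀ n : ℕ,
  (∀ p ∈ PR s n, p.Prime) ∧
  (∀ i j : ℕ, i < j → j ≤ n → Real.log (s j - s i : ℤ) = ∑ p ∈ PR s n, Real.log p * vl p s j i) ∧
  (∀ k : ℕ, k ≤ n → lD s k = ∑ p ∈ PR s n, Real.log p * nv p s k) ∧
  (∀ u m : ℕ, u + m ≤ n → EL s u m = ∑ p ∈ PR s n, Real.log p * EW p s u m) ∧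
  (∀ u m : ℕ, EL s u m = ∑ j ∈ Ico u (u + m + 1), ∑ i ∈ Ico u j, Real.log (s j - s i : ℤ))

/-- DEFL: small defect at the early elements. Proof: the sum over all primes is
`T(k) - ∑_{l < k, l ≠ i} log |s i - s l|`, use `T(k) ≤ k L(k)` and `s l - s i ≥ s l / 2` for
`l ≥ 2 i`. -/
def Stmt_DEFL : Prop := ∀ (s : ℕ → ℤ) (C₀ : ℝ), Cvx s C₀ → ∀ i k : ℕ, 2 * i ≤ k → 1 ≤ k →
  (∀ p : ℕ, p.Prime → ∑ l ∈ (range k).erase i, vl p s i l ≤ nv p s k) ∧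
  ∀ Q : Finset ℕ, (∀ p ∈ Q, p.Prime) →
    ∑ p ∈ Q, Real.log p * ((nv p s k : ℝ) - ∑ l ∈ (range k).erase i, (vl p s i l : ℝ)) ≤
      GG s k + k * Real.log 2 + (2 * i + 1) * Lg s k

/-- MASS: the mass of a place. Proof:
`(s (g+1) - s (i+1)) / (s g - s i) ≤ 1 + gp s g / (s g - s i)`, and
`s g - s i ≥ ((g - i)/g) s g`, `g * gp s g ≤ s (2 g)`. -/
def Stmt_MASS : Prop := ∀ (s : ℕ → ℤ) (C₀ : ℝ), Cvx s C₀ → ∀ g : ℕ, 1 ≤ g →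
  lD s (g + 1) - lD s g ≤ Lg s (g + 1) + ((s (2 * g) : ℝ) / s g) * (1 + Real.log g)

/-! ### Section 1: the master inequality -/

/-- TRANS: transport for the primes of type (a) (1.1 of the note).
For each such `p` count `X = ∑_{j < P'} ∑_{i < N, i ≠ j} vl p s i j` in two ways: for fixed `j` the
inner sum is `w(N)` minus the defect of `j` at `N`; for fixed `i ≥ P'` the sum over `j < P'` is at
most `w(P') + V_i` by VLM with `log p * V_i ≤ L(i) ≤ L(N)`; for fixed `i < P'` it is at most `w(P')`.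
So `P' w(N) ≤ N w(P') + ∑ V_i + ∑_{j < P'} defect`. Multiply by `log p`, sum over type (a); the
number of these primes is at most `T(P) / log 2`; `T(P') ≤ P' L(P')`. -/
def Stmt_TRANS : Prop := ∀ (s : ℕ → ℤ) (C₀ : ℝ), Cvx s C₀ → ∀ N P P' : ℕ, 1 ≤ P → P ≤ P' →
  2 * P' ≤ N →
  ∑ p ∈ PA s N P, Real.log p * nv p s N ≤
    (N : ℝ) * (Lg s P' + 3 / 2 * P * Lg s P * Lg s N / P') +
      (GG s N + N * Real.log 2 + (2 * P' + 1) * Lg s N)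

/-- CATCHB: the caught primes (1.2 of the note). `s 0, .., s P` are distinct mod `p`
(as `w_p(P) = 0`), so at least `P + 1 - M` of them are in none of the classes of the window; these
have defect at least `w(2N) - w(v) ≥ w(2N) - w(N) ≥ w(N)` at `2 N` (SUPER); sum the defects at `2 N`
over `i ≤ P` (DEFL). -/
def Stmt_CATCHB : Prop := ∀ (s : ℕ → ℤ) (C₀ : ℝ), Cvx s C₀ → ∀ N M P : ℕ, 1 ≤ N → P ≤ N →
  2 * M ≤ P + 1 →
  ∑ p ∈ PC s N M P, Real.log p * nv p s N ≤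
    2 * (GG s (2 * N) + 2 * N * Real.log 2 + (2 * P + 1) * Lg s (2 * N))

/-- JUMP: bounded growth in a window for the primes which are not caught (1.3 of the note):
take `j` in `[v, 2N)` with `s j` in none of the classes of the window `[u, v)`:
`w(v) ≤ ∑_{i < v} vl p s j i = ∑_{i < u} vl p s j i ≤ w(u) + V`. -/
def Stmt_JUMP : Prop := ∀ (s : ℕ → ℤ) (C₀ : ℝ), Cvx s C₀ → ∀ N M p : ℕ, 1 ≤ N → p.Prime →
  ¬ Catch p s N M → ∀ u v : ℕ, u ≤ v → v ≤ u + M → v ≤ N →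
    ((nv p s v : ℝ) - nv p s u) * Real.log p ≤ Lg s (2 * N)

/-- BIG: a prime with `w_p(P) = 0` is larger than `P`, and `s 0, .., s P` are distinct mod `p` -/
def Stmt_BIG : Prop := ∀ (s : ℕ → ℤ) (C₀ : ℝ), Cvx s C₀ → ∀ P p : ℕ, p.Prime →
  nv p s P = 0 → P < p ∧ ∀ i j : ℕ, i < j → j ≤ P → ¬ (p : ℤ) ∣ s j - s i

/-- DFC: the deficiency is nonnegative (`WINDOW` and `MINP` of `sep`), `PT` and `Mn` are
nonnegative -/
def Stmt_DFC : Prop := ∀ (s : ℕ → ℤ) (C₀ : ℝ), Cvx s C₀ → ∀ p : ℕ, p.Prime → ∀ u m : ℕ,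
  0 ≤ Dfc p s u m ∧ 0 ≤ PT p s u m ∧ 0 ≤ Mn p s u m

/-- PIG: a window length `m` with few pairs of places (1.4 of the note).
Proof: `∑_{m = M₁}^{M} Pair_m / m ^ 3 ≤ J₀ T(N)`, `J₀ = L(2N) / log P`: a pair of places
`g < g' = g + d` is in at most `m - d` windows of length `m`, and
`∑_{m > d} d (m - d) / m ^ 3 ≤ 1`; for fixed `g` the jumps at the `g'` in
`(g, min (g + M) N)` sum to at most `J₀` (JUMP). Then pigeonhole with `∑ 1/m ≥ log (M / M₁)`. -/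
def Stmt_PIG : Prop := ∀ (s : ℕ → ℤ) (C₀ : ℝ), Cvx s C₀ → ∀ N M₁ M P : ℕ, 1 ≤ M₁ → M₁ < M →
  M ≤ N → 2 ≤ P → P ≤ N →
  ∃ m : ℕ, M₁ ≤ m ∧ m ≤ M ∧
    Pair s N M P m * Real.log ((M : ℝ) / M₁) ≤
      (m : ℝ) ^ 2 * (Lg s (2 * N) / Real.log P) * (N * Lg s N)

/-- WLOW: lower bound for the logarithmic energy of the windows:
`s j - s i ≥ (j - i) gp s u` for `u ≤ i < j`, and
`∑_{i<j≤m} log (j - i) = ∑_{k ≤ m} log k! ≥ (m^2/2) (log m - 2)` -/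
def Stmt_WLOW : Prop := ∀ (s : ℕ → ℤ) (C₀ : ℝ), Cvx s C₀ → ∀ N m : ℕ, 2 ≤ m → m ≤ N →
  ((m : ℝ) * (m + 1) / 2) * ∑ u ∈ range (N - m + 1), Real.log (gp s u) +
    ((N : ℝ) - m + 1) * ((m : ℝ) ^ 2 / 2) * (Real.log m - 2) ≤
  ∑ u ∈ range (N - m + 1), EL s u m

/-- WUP: upper bound for the logarithmic energy of the windows: product formula (PRF), trivial bound
`2 E ≤ (m+1) growth` for the primes of type (a) and the caught primes, definition of `Dfc` for the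
good primes and `∑_{t=1}^{m} min(t, m+1-t) ≤ (m+1)^2/4` -/
def Stmt_WUP : Prop := ∀ (s : ℕ → ℤ) (C₀ : ℝ), Cvx s C₀ → ∀ N M P m : ℕ, 1 ≤ m → m ≤ N →
  ∑ u ∈ range (N - m + 1), EL s u m ≤
    ((m : ℝ) * (m + 1) / 2) * NA s N M P + (((m : ℝ) + 1) ^ 2 / 4) * (lD s N - NA s N M P) +
      Pair s N M P m - SDfc s N M P m

/-- GSUM: the logarithms of the gaps (`gp s u ≥ s u / u`) -/
def Stmt_GSUM : Prop := ∀ (s : ℕ → ℤ) (C₀ : ℝ), Cvx s C₀ → ∀ N m : ℕ, 1 ≤ m → m ≤ N →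
  ((N : ℝ) - m) * Lg s N - GG s N - N * Real.log N ≤
    ∑ u ∈ range (N - m + 1), Real.log (gp s u)

/-- MW: the master inequality (1.6 of the note), from WLOW, WUP, GSUM, ENT: multiply by
`4 / (m^2 N)`; all error terms are `≤ 6` for large `N` (note `NA ≥ 0` and `NA ≤ lD s N`) -/
def Stmt_MW : Prop := ∀ (s : ℕ → ℤ) (C₀ : ℝ), Cvx s C₀ → ∃ N₀ : ℕ, ∀ N M P m : ℕ, N₀ ≤ N →
  Real.log N ^ 2 ≤ m → m * Real.log N ^ 2 ≤ N →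
  4 / ((m : ℝ) ^ 2 * N) * SDfc s N M P m ≤
    NA s N M P / N - Lg s N + 2 * Real.log N - 2 * Real.log m + 2 * GG s N / N + 6 +
      4 / ((m : ℝ) ^ 2 * N) * Pair s N M P m

/-- MW2: the master inequality with `M = N^a`, `P = N^b`, `P' = N^b'` (from MW, TRANS, CATCHB, PIG) -/
def Stmt_MW2 : Prop := ∀ (s : ℕ → ℤ) (C₀ : ℝ), Cvx s C₀ → ∀ a₁ a b b' : ℝ, 0 < a₁ → a₁ < a →
  a < b → b < b' → b' < 1 → ∀ ε : ℝ, 0 < ε → ∃ N₀ : ℕ, ∀ N : ℕ, N₀ ≤ N →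
    GG s N ≤ ε * N * Real.log N → GG s (2 * N) ≤ ε * (2 * N) * Real.log (2 * N) →
    ∃ m : ℕ, (N : ℝ) ^ a₁ ≤ m ∧ (m : ℝ) ≤ (N : ℝ) ^ a ∧
      NA s N ⌊(N : ℝ) ^ a⌋₊ ⌊(N : ℝ) ^ b⌋₊ ≤ N * (Lg s ⌊(N : ℝ) ^ b'⌋₊ + 10 * ε * Real.log N) ∧
      Pair s N ⌊(N : ℝ) ^ a⌋₊ ⌊(N : ℝ) ^ b⌋₊ m ≤ 2 * C₀ ^ 2 / (b * (a - a₁)) * (m : ℝ) ^ 2 * N ∧
      4 / ((m : ℝ) ^ 2 * N) * SDfc s N ⌊(N : ℝ) ^ a⌋₊ ⌊(N : ℝ) ^ b⌋₊ m ≤
        Lg s ⌊(N : ℝ) ^ b'⌋₊ - Lg s N + 2 * Real.log N - 2 * Real.log m + 20 * ε * Real.log N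

/-! ### Section 2: the range -/

/-- DYAD: `G(2^j) / 2^j` is a weighted sum of the increments of `L` along the powers of two;
`G(2^j) ≤ ∑_{i=1}^{j} 2^{j-i} (L(2^j) - L(2^{j-i}))`, then sum over `j` -/
def Stmt_DYAD : Prop := ∀ (s : ℕ → ℤ) (C₀ : ℝ), Cvx s C₀ → ∀ J K : ℕ,
  ∑ j ∈ Ioc J (J + K), GG s (2 ^ j) / 2 ^ j ≤ 2 * Lg s (2 ^ (J + K)) ∧
  ∀ k : ℕ, 0 ≤ GG s k

/-- GOODJ: good dyadic scales are frequent (from DYAD, pigeonhole) -/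
def Stmt_GOODJ : Prop := ∀ (s : ℕ → ℤ) (C₀ : ℝ), Cvx s C₀ → ∀ ε : ℝ, 0 < ε →
  ∃ K : ℕ, ∀ J : ℕ, K ≤ J → ∃ j : ℕ, J ≤ j ∧ j ≤ J + K ∧
    GG s (2 ^ j) ≤ ε * (2 ^ j : ℕ) * Real.log (2 ^ j : ℕ) ∧
    GG s (2 * 2 ^ j) ≤ ε * (2 * (2 ^ j : ℕ)) * Real.log (2 * (2 ^ j : ℕ))

/-- UPPER: `L(k) ≤ (2 + ε) log k`. Proof: MW2 with `a₁ = δ/2, a = δ, b = 2δ, b' = 3δ` at good
dyadic scales, left side `≥ 0` (DFC), `L(P') ≤ C₀ log P'`; then monotonicity between two good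
scales (GOODJ) -/
def Stmt_UPPER : Prop := ∀ (s : ℕ → ℤ) (C₀ : ℝ), Cvx s C₀ → ∀ ε : ℝ, 0 < ε →
  ∃ k₀ : ℕ, ∀ k : ℕ, k₀ ≤ k → Lg s k ≤ (2 + ε) * Real.log k

/-- NHD: not `HalfDense` means that `s n` is often almost `n^2` -/
def Stmt_NHD : Prop := ∀ s : ℕ → ℤ, s 0 = 0 → StrictMono s → ¬ HalfDense (Set.range s) →
  ∀ ε : ℝ, 0 < ε → ∀ n₁ : ℕ, ∃ n : ℕ, n₁ ≤ n ∧ (2 - ε) * Real.log n ≤ Lg s n

/-! RANGE (section 2) is `Stmt_RANGE` of `InterfaceC`: from UPPER, NHD, GOODJ, MW2 with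
`a₁ = c - δ, a = c, b = c + δ, b' = c + 2 δ` for the finitely many `c` in a grid of step `δ`
(left side `≥ 0` by DFC), and monotonicity. -/

end Pool.Agent.Work.MP_b29d7f_cvx
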