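import Pool.Agent.Work.MP_b29d7f_cvx.Interface

/-!
# Convex sets with a simultaneous ordering: statements of the blocks, part 2 (the zone lemma)

Paper proof: note 2696, section 3.  Notation of the docstrings: `δ = 10^(-10)`.
-/

namespace Pool.Agent.Work.MP_b29d7f_cvx

open Finset
open scoped Classical
open Pool.Agent.Work.MP_b29d7f_nt (IsPOrdering HasSimultaneousOrdering PS vd ld tv)
open Pool.Agent.Work.MP_b29d7f_half (Ord A wv lD HalfDense)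
open Pool.Agent.Work.MP_b29d7f_sep (nv EW EL)

/-- the window `[u, u + m]` is flat -/
def Flat (s : ℕ → ℤ) (H : ℤ) (m u : ℕ) : Prop := gp s (u + m) - gp s u ≤ H

/-- the number of windows of length `m` in `[0, N]` which are not flat -/
noncomputable def NF (s : ℕ → ℤ) (H : ℤ) (N m : ℕ) : ℕ := by
  classical
  exact ((range (N - m + 1)).filter fun u => ¬ Flat s H m u).card

/-- the data produced by the master inequality in the range -/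
structure ZD (s : ℕ → ℤ) (C₀ : ℝ) (N M P m J : ℕ) (H : ℤ) : Prop where
  cvx : Cvx s C₀
  m_big : 10 ^ 20 ≤ m
  m_le : m ≤ M
  m_N : 10 ^ 10 * m ≤ N
  M_P : M ≤ P
  P_N : P ≤ N
  H_pos : 1 ≤ H
  HP : 2 * H * (m : ℤ) ^ 2 < P
  J_pos : 1 ≤ J
  J_small : 10 ^ 20 * J ≤ m
  prime : ∀ p ∈ PG s N M P, p.Prime ∧ P < p
  jump : ∀ p ∈ PG s N M P, ∀ u v : ℕ, u ≤ v → v ≤ u + M → v ≤ N → nv p s v ≤ nv p s u + J
  na : NA s N M P ≤ 1 / 10 ^ 20 * N * Real.log N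
  sdfc : SDfc s N M P m ≤ 1 / 10 ^ 21 * (m : ℝ) ^ 2 * N * Real.log N
  pair : (J : ℝ) * Pair s N M P m ≤ 1 / 10 ^ 40 * (m : ℝ) ^ 2 * N * Real.log N
  log_N : 1 ≤ Real.log N
  tN : lD s N ≤ 21 / 10 * N * Real.log N
  top : Lg s N ≤ 21 / 10 * Real.log N
  gaps : ∀ i : ℕ, N ≤ 2 * i → 9 / 10 * Real.log N ≤ Real.log (gp s i)
  pgap : ∀ i : ℕ, N ≤ 2 * i → 4 * (P : ℤ) ≤ gp s i
  flat_most : (NF s H N m : ℝ) ≤ 1 / 10 ^ 3 * N
  hbad : ∃ X : ℝ, 0 ≤ X ∧ (∀ g : ℕ, N ≤ 2 * g → g < N → lD s (g + 1) - lD s g ≤ X) ∧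
    (J : ℝ) * X * NF s H N m ≤ 1 / 10 ^ 40 * N
  sq : 24 * (m : ℝ) * J * gp s N ≤ 1 / 10 ^ 20 * N * Real.sqrt P

/-- ZDX: existence of the data.  With `c = cc`: MW2 with `a₁ = c/2, a = c, b = 4c, b' = 5c` and
`ε' = 4 ep` (in the range `GG s N ≤ 3 ep N log N + 3 N`, same for `2 N`);
`J = max 1 ⌊L(2N)/log P⌋` (JUMP, BIG), `H = ⌊m N^(10 ep)⌋`; the number of non flat windows is
`≤ m gp s N / H` because `∑_u (gp s (u+m) - gp s u) ≤ m gp s N`, and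
`gp s N ≤ s (2N) / N ≤ 8 N^(1 + 2 ep)`; `X = N^(3 ep)` by MASS -/
def Stmt_ZDX : Prop := ∀ (s : ℕ → ℤ) (C₀ : ℝ), Cvx s C₀ → ∃ N₀ : ℕ, ∀ N : ℕ, N₀ ≤ N →
  (∀ k : ℕ, (N : ℝ) ^ cc ≤ k → k ≤ 4 * N →
    |Real.log (s k) - 2 * Real.log k| ≤ ep * Real.log k) →
    ∃ (M P m J : ℕ) (H : ℤ), ZD s C₀ N M P m J H ∧ (N : ℝ) ^ (cc / 2) ≤ m ∧
      (H : ℝ) ≤ m * (N : ℝ) ^ (10 * ep)

/-- relation (R) at the pair `(i, j)` -/
def Rel (s : ℕ → ℤ) (i j : ℕ) : Prop :=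
  2 * (s j - s i) = ((j : ℤ) - i) * (gp s j + gp s (i - 1))

/-- all the places of the window `[u, u + m)` lie near its middle -/
def Cent (p : ℕ) (s : ℕ → ℤ) (u m : ℕ) : Prop :=
  ∀ g : ℕ, u ≤ g → g < u + m → om p s g ≠ 0 → |(g : ℝ) - u - m / 2| ≤ 1 / 10 ^ 10 * m

/-- CHAIN (3.1): in a flat window two pairs congruent mod `p`, `i, i'` before and `j, j'` after all
places, have the same chord slope and are strictly nested.
Proof: `s (u + a) = s u + gp s u * a + Q a` with `0 ≤ Q a ≤ H a`, `Q` nondecreasing; eliminate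
`gp s u`: `(j'-i')(Q_j - Q_i) - (j-i)(Q_j' - Q_i')` is divisible by `p` and has absolute value
`≤ H m^2 < p`, so it is `0`. If `j' = j` then `s i ≡ s i'`; if `j' > j` then by convexity all gaps in
`[i, j')` are equal to the slope, which is divisible by `p` since `j - i ≤ m < p`: `s i ≡ s (i+1)`. -/
def Stmt_CHAIN : Prop := ∀ s : ℕ → ℤ, StrictMono s → Monotone (gp s) →
  ∀ (p u m x y : ℕ) (H : ℤ), p.Prime → Flat s H m u → H * (m : ℤ) ^ 2 < p → m < p →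
    u ≤ x → x ≤ y → y < u + m →
    (∀ i i' : ℕ, u ≤ i → i < i' → i' ≤ x → ¬ (p : ℤ) ∣ s i' - s i) →
    (∀ j j' : ℕ, y < j → j < j' → j' ≤ u + m → ¬ (p : ℤ) ∣ s j' - s j) →
    ∀ i j i' j' : ℕ, u ≤ i → i < i' → i' ≤ x → y < j → j ≤ u + m → y < j' → j' ≤ u + m →
      (p : ℤ) ∣ s j - s i → (p : ℤ) ∣ s j' - s i' →
        j' < j ∧ ((j' : ℤ) - i') * (s j - s i) = ((j : ℤ) - i) * (s j' - s i')

/-- MAT (3.2): the pairs `(i, j)` with `i` before and `j` after all places of a central window carry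
almost everything. With `W = w(u+m) - w(u)`: `Mn ≥ W (1/2 - δ) m`, `PT ≥ 0`, at most `2 δ m` indices
are strictly between the first place and after the last one, each in pairs of total valuation
`≤ W`; pairs on the same side have valuation `0`. -/
def Stmt_MAT : Prop := ∀ (s : ℕ → ℤ) (C₀ : ℝ), Cvx s C₀ → ∀ p : ℕ, p.Prime → ∀ u m : ℕ,
  Cent p s u m → nv p s u < nv p s (u + m) →
  ((nv p s (u + m) : ℝ) - nv p s u) * (1 / 2 - 3 / 10 ^ 10) * m - Dfc p s u m ≤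
    ∑ i ∈ Icc u (u + m), ∑ j ∈ Ioc i (u + m),
      (if nv p s i = nv p s u ∧ nv p s j = nv p s (u + m) then (vl p s j i : ℝ) else 0)

/-- ND (3.2): the pairs at which (R) fails carry little in a central flat window.
Proof: by CHAIN the congruent pairs `(i, j)` (`i` in the left block `[u, x]`, `j` in the right block
`[y+1, u+m]`, `x` the first and `y` the last place) form a strictly nested chain, `ν` pairs,
`W ν ≥ W (1/2 - 3δ) m - Dfc` by MAT (`vl ≤ W`, PAD). If `(i-1, j+1)` is also congruent then (R) holds at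
`(i, j)` (equal slopes). Otherwise `i - 1` or `j + 1` is unmatched or `(i, j)` is the outermost pair:
at most `(m + 1 - 2ν) + 1` such pairs, each of valuation `≤ W`. -/
def Stmt_ND : Prop := ∀ (s : ℕ → ℤ) (C₀ : ℝ), Cvx s C₀ → ∀ p : ℕ, p.Prime →
  ∀ (u m : ℕ) (H : ℤ), Flat s H m u → H * (m : ℤ) ^ 2 < p → m < p → Cent p s u m →
  ∑ i ∈ Ioo u (u + m), ∑ j ∈ Ioo i (u + m),
      (if nv p s i = nv p s u ∧ nv p s j = nv p s (u + m) ∧ ¬ Rel s i j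
        then (vl p s j i : ℝ) else 0) ≤
    ((nv p s (u + m) : ℝ) - nv p s u) * (6 / 10 ^ 10 * m + 2) + 2 * Dfc p s u m

/-- `p ^ 2` divides a sum of two gaps on the two sides of `g` -/
def Sq (p : ℕ) (s : ℕ → ℤ) (m g : ℕ) : Prop :=
  ∃ i j : ℕ, 1 ≤ i ∧ i ≤ g ∧ g < j ∧ j ≤ i + m ∧ (p : ℤ) ^ 2 ∣ gp s j + gp s (i - 1) ∧
    gp s (i - 1) < gp s j

/-- SQL (3.4): a central flat window with `W ≥ 2` and small deficiency.
Proof: MAT gives at least `.499 m` congruent pairs with valuation `≥ 2` in blocks of size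
`≤ .5001 m`, nested by CHAIN, so two of them are `(i-1, j+1)`, `(i, j)`; subtract:
`p^2 ∣ gp s j + gp s (i-1)`. If `gp s (i-1) = gp s j` then `p ∣ gp s (i-1)`, `s (i-1) ≡ s i`. -/
def Stmt_SQL : Prop := ∀ (s : ℕ → ℤ) (C₀ : ℝ), Cvx s C₀ → ∀ p : ℕ, p.Prime →
  ∀ (u m : ℕ) (H : ℤ), 10 ^ 12 ≤ m → Flat s H m u → H * (m : ℤ) ^ 2 < p → m < p →
    Cent p s u m → nv p s u + 2 ≤ nv p s (u + m) →
    Dfc p s u m ≤ ((nv p s (u + m) : ℝ) - nv p s u) * m / 4096 →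
    ∀ g : ℕ, u ≤ g → g < u + m → om p s g ≠ 0 → Sq p s m g

/-- SQM (3.4): the mass of the places with `Sq`.
Proof: for given `p` there are at most `2 gp s N / p^2` values of `μ = gp s j + gp s (i-1)`, and for a
given `μ` all `g` are within `m` of the least `k` with `2 gp s k ≥ μ`; `om ≤ J`;
`∑_{q > P} log q / q^2 ≤ 4 / √P`. -/
def Stmt_SQM : Prop := ∀ (s : ℕ → ℤ) (C₀ : ℝ) (N M P m J : ℕ) (H : ℤ), ZD s C₀ N M P m J H →
  ∀ R : ℕ → Finset ℕ, (∀ p ∈ PG s N M P, ∀ g ∈ R p, Sq p s m g ∧ g < N - 2 * m) →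
  ∑ p ∈ PG s N M P, Real.log p * ∑ g ∈ R p, (om p s g : ℝ) ≤ 1 / 10 ^ 20 * N

/-- a typical place `g` of `p` (with parameter `x`) -/
def Typ (p : ℕ) (s : ℕ → ℤ) (x g : ℕ) : Prop :=
  x ≤ g ∧ om p s g = 1 ∧ nv p s (g + x) = nv p s (g - x) + 1 ∧
    ∃ I : Finset ℕ, I ⊆ Ioc (g - x) g ∧ 7 * x ≤ 8 * I.card ∧
      ∀ i ∈ I, ∃ j ∈ Ioc g (g + x), (p : ℤ) ∣ s j - s i

/-- TYL (3.4): a central flat window with `W = 1` and small deficiency: its place is typical.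
Proof: MAT: at most `q = (4 δ + 1/4096) m + 1` indices of each block are unmatched; by nesting the
partner `j` of `i` satisfies `j - g - 1 ≤ (g - i) + q`. -/
def Stmt_TYL : Prop := ∀ (s : ℕ → ℤ) (C₀ : ℝ), Cvx s C₀ → ∀ p : ℕ, p.Prime →
  ∀ (u m x : ℕ) (H : ℤ), 10 ^ 12 ≤ m → 128 * x ≤ m → m < 128 * x + 128 → Flat s H m u →
    H * (m : ℤ) ^ 2 < p → m < p → Cent p s u m → nv p s (u + m) = nv p s u + 1 →
    Dfc p s u m ≤ (m : ℝ) / 4096 →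
    ∀ g : ℕ, u ≤ g → g < u + m → om p s g ≠ 0 → Typ p s x g

/-- isolated places -/
def Iso (p : ℕ) (s : ℕ → ℤ) (m g : ℕ) : Prop :=
  ∀ g' : ℕ, om p s g' ≠ 0 → |(g' : ℝ) - g| ≤ 3 * m / 4 → |(g' : ℝ) - g| ≤ 1 / 10 ^ 10 * m / 2

/-- the flat windows with middle near `g` -/
noncomputable def Ug (s : ℕ → ℤ) (H : ℤ) (N m g : ℕ) : Finset ℕ := by
  classical
  exact (range (N - m + 1)).filter fun u =>
    Flat s H m u ∧ |(u : ℝ) + m / 2 - g| ≤ 1 / 10 ^ 10 * m / 2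

/-- `g` has enough flat windows -/
def FlG (s : ℕ → ℤ) (H : ℤ) (N m g : ℕ) : Prop := 1 / 10 ^ 10 * (m : ℝ) / 4 ≤ (Ug s H N m g).card

/-- UG: the windows around an isolated place are central; few places do not have enough flat
windows (double counting) -/
def Stmt_UG : Prop := ∀ (s : ℕ → ℤ) (C₀ : ℝ) (N M P m J : ℕ) (H : ℤ), ZD s C₀ N M P m J H →
  (∀ p g u : ℕ, Iso p s m g → u ∈ Ug s H N m g → Cent p s u m ∧ u ≤ g ∧ g < u + m ∧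
    Flat s H m u ∧ u + m ≤ N) ∧
  ∀ R : Finset ℕ, (∀ g ∈ R, N ≤ 2 * g ∧ g < N - m ∧ ¬ FlG s H N m g) → R.card ≤ 2 * NF s H N m

/-- NISO: the mass of the places which are not isolated, from the bound for `Pair` (3.3) -/
def Stmt_NISO : Prop := ∀ (s : ℕ → ℤ) (C₀ : ℝ) (N M P m J : ℕ) (H : ℤ), ZD s C₀ N M P m J H →
  ∀ R : ℕ → Finset ℕ, (∀ p ∈ PG s N M P, ∀ g ∈ R p, N ≤ 2 * g ∧ g < N - 2 * m ∧ ¬ Iso p s m g) →
  (J : ℝ) * ∑ p ∈ PG s N M P, Real.log p * ∑ g ∈ R p, (om p s g : ℝ) ≤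
    1 / 10 ^ 28 * N * Real.log N

/-- NFLG: the mass of the places without enough flat windows (UG, product formula, ZD.hbad) -/
def Stmt_NFLG : Prop := ∀ (s : ℕ → ℤ) (C₀ : ℝ) (N M P m J : ℕ) (H : ℤ), ZD s C₀ N M P m J H →
  ∀ R : ℕ → Finset ℕ,
    (∀ p ∈ PG s N M P, ∀ g ∈ R p, N ≤ 2 * g ∧ g < N - m ∧ ¬ FlG s H N m g) →
  (J : ℝ) * ∑ p ∈ PG s N M P, Real.log p * ∑ g ∈ R p, (om p s g : ℝ) ≤ 1 / 10 ^ 39 * N

/-- EXP (3.3): the content of a good prime in the pairs at which (R) fails.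
For a pair `(i, j)` with `vl p s j i ≠ 0` let `g ∈ [i, j)` be the first place `≥ i`. If `g` is not
isolated or has not enough flat windows: at most `(m/4 + 1) J` for each such `g` (`32 x` values of
`i`, for each the sum over `j` is at most the growth of `[i, i + 32 x]`). If `g` is isolated and
`g - i ≤ 2δm` or `j - g ≤ 2δm`: at most `(5δm + 2) w(N)` in total (all places of the window are within
`δm/2` of `g`). Otherwise the pair is counted in the sum of ND for all the `≥ δm/4` windows of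
`Ug`; `∑_u (w(u+m) - w(u))` over central `u` is at most `(2δm+1) w(N)`. -/
def Stmt_EXP : Prop := ∀ (s : ℕ → ℤ) (C₀ : ℝ) (N M P m J x : ℕ) (H : ℤ), ZD s C₀ N M P m J H →
  128 * x ≤ m → m < 128 * x + 128 → ∀ p ∈ PG s N M P, ∃ R : Finset ℕ,
    (∀ g ∈ R, N ≤ 2 * g ∧ g < N - 2 * m ∧ om p s g ≠ 0 ∧
      (¬ Iso p s m g ∨ ¬ FlG s H N m g)) ∧
    ∀ X : Finset (ℕ × ℕ),
      (∀ z ∈ X, N ≤ 2 * z.1 ∧ z.1 < N - 3 * m ∧ z.1 < z.2 ∧ z.2 ≤ z.1 + 32 * x ∧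
        ¬ Rel s z.1 z.2) →
      ∑ z ∈ X, (vl p s z.2 z.1 : ℝ) ≤ ((m : ℝ) / 4 + 1) * J * ∑ g ∈ R, (om p s g : ℝ) +
        60 / 10 ^ 10 * m * nv p s N +
        8 * 10 ^ 10 / m * ∑ u ∈ range (N - m + 1), Dfc p s u m

/-- EXN (3.3): the number of pairs at which (R) fails.
Each has `log (s j - s i) ≥ .9 log N`; product formula; primes of type (a) and caught primes:
at most `(m/4) NA`; good primes: EXP, NISO, NFLG, ZD.tN, ZD.sdfc -/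
def Stmt_EXN : Prop := ∀ (s : ℕ → ℤ) (C₀ : ℝ) (N M P m J x : ℕ) (H : ℤ), ZD s C₀ N M P m J H →
  128 * x ≤ m → m < 128 * x + 128 → ∀ X : Finset (ℕ × ℕ),
    (∀ z ∈ X, N ≤ 2 * z.1 ∧ z.1 < N - 3 * m ∧ z.1 < z.2 ∧ z.2 ≤ z.1 + 32 * x ∧
      ¬ Rel s z.1 z.2) →
    (X.card : ℝ) ≤ 1 / 10 ^ 7 * m * N

/-- NTY (3.4): the mass of the places which are not typical: not isolated (NISO), not enough flat
windows (NFLG), `Sq` (SQL, SQM), and those with `Dfc > W m / 4096` for all the windows of `Ug`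
(at most `(16384 10^10 / m^2) SDfc`); all other places are typical by TYL. -/
def Stmt_NTY : Prop := ∀ (s : ℕ → ℤ) (C₀ : ℝ) (N M P m J x : ℕ) (H : ℤ), ZD s C₀ N M P m J H →
  128 * x ≤ m → m < 128 * x + 128 → ∀ R : ℕ → Finset ℕ,
    (∀ p ∈ PG s N M P, ∀ g ∈ R p, N ≤ 2 * g ∧ g < N - 3 * m ∧ ¬ Typ p s x g) →
    ∑ p ∈ PG s N M P, Real.log p * ∑ g ∈ R p, (om p s g : ℝ) ≤ 2 / 10 ^ 7 * N * Real.log N

/-- a window `[a, a + 32 x]` in which everything is good -/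
structure ZW (s : ℕ → ℤ) (C₀ : ℝ) (N M P m J : ℕ) (H : ℤ) (x a : ℕ) : Prop where
  zd : ZD s C₀ N M P m J H
  x1 : 128 * x ≤ m
  x2 : m < 128 * x + 128
  a_lo : N ≤ 2 * a
  a_hi : a + 4 * m ≤ N
  flat : Flat s H m a
  exc : ∀ X : Finset (ℕ × ℕ),
    (∀ z ∈ X, a ≤ z.1 ∧ z.1 < z.2 ∧ z.2 ≤ a + 32 * x ∧ ¬ Rel s z.1 z.2) →
    (X.card : ℝ) ≤ 1 / 100 * (x : ℝ) ^ 2
  na : ∑ p ∈ PA s N P, Real.log p * ((nv p s (a + 32 * x) : ℝ) - nv p s a) +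
      ∑ p ∈ PC s N M P, Real.log p * ((nv p s (a + 32 * x) : ℝ) - nv p s a) ≤
    1 / 10 ^ 15 * x * Real.log N
  typ : ∀ R : ℕ → Finset ℕ, (∀ p ∈ PG s N M P, ∀ g ∈ R p, a ≤ g ∧ g < a + 32 * x ∧
      ¬ Typ p s x g) →
    ∑ p ∈ PG s N M P, Real.log p * ∑ g ∈ R p, (om p s g : ℝ) ≤ 1 / 10 ^ 3 * x * Real.log N

/-- PICK (3.5): existence of a good window (average over `a` in `[N/2, N - 4m]`, Markov;
EXN, NTY, ZD.na, ZD.flat_most) -/
def Stmt_PICK : Prop := ∀ (s : ℕ → ℤ) (C₀ : ℝ) (N M P m J x : ℕ) (H : ℤ), ZD s C₀ N M P m J H →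
  128 * x ≤ m → m < 128 * x + 128 → ∃ a : ℕ, ZW s C₀ N M P m J H x a

/-- twice the parabola: `2 F(t)` -/
def F2 (s : ℕ → ℤ) (i₀ : ℕ) (h t : ℤ) : ℤ :=
  2 * s i₀ + 2 * (t - i₀) * gp s (i₀ - 1) + h * (t - i₀ + 1) * (t - i₀)

/-- MAJ (3.6): few exceptional pairs: most terms lie on a parabola.
Proof: choose `i₀ ∈ [a+1, a+8x]` such that the rows `i₀` and `i₀ + 1` contain at most `x / 100`
exceptional pairs. (R) at `(i₀, j+1)` and `(i₀+1, j)` gives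
`gp s (j+1) - gp s j = gp s i₀ - gp s (i₀-1) =: h`; (R) at `(i₀, j)`, `(i₀, j+1)` gives
`gp s j - gp s (i₀-1) = (j - i₀ + 1) (gp s (j+1) - gp s j)`; insert in (R) at `(i₀, j)`. -/
def Stmt_MAJ : Prop := ∀ s : ℕ → ℤ, StrictMono s → Monotone (gp s) → ∀ a x : ℕ, 10 ^ 6 ≤ x →
  (∀ X : Finset (ℕ × ℕ),
    (∀ z ∈ X, a ≤ z.1 ∧ z.1 < z.2 ∧ z.2 ≤ a + 32 * x ∧ ¬ Rel s z.1 z.2) →
    (X.card : ℝ) ≤ 1 / 100 * (x : ℝ) ^ 2) →
  ∃ (i₀ : ℕ) (h : ℤ) (B : Finset ℕ), a + 1 ≤ i₀ ∧ i₀ ≤ a + 8 * x ∧ 0 ≤ h ∧ 30 * B.card ≤ x ∧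
    ∀ j : ℕ, i₀ ≤ j → j ≤ a + 32 * x → j ∉ B → 2 * s j = F2 s i₀ h j

/-- a good window with its parabola -/
structure ZF (s : ℕ → ℤ) (C₀ : ℝ) (N M P m J : ℕ) (H : ℤ) (x a i₀ : ℕ) (h : ℤ)
    (B : Finset ℕ) : Prop where
  zw : ZW s C₀ N M P m J H x a
  i_lo : a + 1 ≤ i₀
  i_hi : i₀ ≤ a + 8 * x
  h_nn : 0 ≤ h
  B_card : 30 * B.card ≤ x
  quad : ∀ j : ℕ, i₀ ≤ j → j ≤ a + 32 * x → j ∉ B → 2 * s j = F2 s i₀ h j

/-- HX: `20 h x ≤ H` (two indices outside `B` near the end of the window, flatness) -/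
def Stmt_HX : Prop := ∀ (s : ℕ → ℤ) (C₀ : ℝ) (N M P m J : ℕ) (H : ℤ) (x a i₀ : ℕ) (h : ℤ)
  (B : Finset ℕ), ZF s C₀ N M P m J H x a i₀ h B → 20 * h * x ≤ H

/-- HPOS (3.7): `h ≥ 1`. If `h = 0` then `s j - s i = (j - i) gp s (i₀-1)` outside `B`; a good prime
dividing it divides `gp s (i₀-1)` and has growth `≥ 20 x > J`; so the differences have no good
prime factor, which contradicts ZW.na -/
def Stmt_HPOS : Prop := ∀ (s : ℕ → ℤ) (C₀ : ℝ) (N M P m J : ℕ) (H : ℤ) (x a i₀ : ℕ) (h : ℤ)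
  (B : Finset ℕ), ZF s C₀ N M P m J H x a i₀ h B → 1 ≤ h

/-- NDA (3.8): an element off the parabola takes no value of the parabola.
Let `g = gp s (i₀-1)`, `g ≥ 4 P > 8 H m^2` (ZD.pgap, ZD.HP). All gaps of `s` on `[i₀ - 1, a + m]` are in
`[g, g + H]` (flatness of `[a, a + m]`), all gaps of `F` on `[i₀, a + 32 x]` are in `[g, g + 2 H]` (HX),
and `F2 i₀ = 2 s i₀`. So `|2 s k - F2 k| ≤ 4 H m < g`, while `|F2 d - F2 k| ≥ 2 g` for `d ≠ k`. -/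
def Stmt_NDA : Prop := ∀ (s : ℕ → ℤ) (C₀ : ℝ) (N M P m J : ℕ) (H : ℤ) (x a i₀ : ℕ) (h : ℤ)
  (B : Finset ℕ), ZF s C₀ N M P m J H x a i₀ h B →
  ∀ k : ℕ, a + 10 * x ≤ k → k ≤ a + 30 * x → 2 * s k ≠ F2 s i₀ h k →
    ∀ d : ℕ, i₀ ≤ d → d ≤ a + 32 * x → 2 * s k ≠ F2 s i₀ h d

/-- NDB (3.8): a typical prime between `k` (off the parabola) and `l` (on it), dividing
`s k - s l`, is of one of two rare kinds.
Proof: Typ and `30 |B| ≤ x` give congruent pairs `(i, j)`, `i ∈ (g-x, g]`, `j ∈ (g, g+x]`, both not in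
`B`, at least `.8 x` of them; `p ∣ λ_{i+j}`, `λ_C = 2 gp s (i₀-1) + h (C - 2 i₀ + 1)`; two different
sums would give `p ∣ h (C - C')`, impossible (`0 < h |C - C'| < P`, HX, HPOS), so all have the same
sum `C` and `|C - 2g - 1| ≤ x/5`. `l* = C - l` is in `(g - x, g + x]` and
`F2 l* - F2 l = (l* - l) λ_C`, so `p ∣ F2 l* - 2 s k`. If `l* ∈ B`: second kind. If `l* = l`:
`λ_{2l}^2 = 8 h (s l - s i₀) + (2 gp s (i₀-1) + h)^2`: first kind. Otherwise `l*` is on the other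
side of `g` than `l` and congruent to `s k`, so `l* = k`, which is off the parabola: contradiction. -/
def Stmt_NDB : Prop := ∀ (s : ℕ → ℤ) (C₀ : ℝ) (N M P m J : ℕ) (H : ℤ) (x a i₀ : ℕ) (h : ℤ)
  (B : Finset ℕ), ZF s C₀ N M P m J H x a i₀ h B →
  ∀ k : ℕ, a + 10 * x ≤ k → k ≤ a + 30 * x → 2 * s k ≠ F2 s i₀ h k →
  ∀ p ∈ PG s N M P, ∀ g l : ℕ, Typ p s x g → 2 * l ≤ 2 * k + x → 2 * k ≤ 2 * l + x → l ∉ B →
    min k l ≤ g → g < max k l → (p : ℤ) ∣ s l - s k →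
    (p : ℤ) ∣ 8 * h * (s k - s i₀) + (2 * gp s (i₀ - 1) + h) ^ 2 ∨
      ∃ d ∈ B, i₀ ≤ d ∧ d ≤ a + 32 * x ∧ (p : ℤ) ∣ 2 * s k - F2 s i₀ h d

/-- NODEF (3.8): no element is off the parabola. Count the content
`∑_{0 < |l - k| ≤ x/2} log |s k - s l| ≥ .9 (x - 2) log N`: `l ∈ B`: at most
`2.2 |B| log N`; type (a) and caught primes: ZW.na; good primes for which some place between is not
typical: ZW.typ; typical primes (growth exactly `1` on `[g - x, g + x]`, so at most one `l`): NDB,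
first kind: at most `log` of a positive integer `≤ N^3`; second kind: at most
`∑_{d ∈ B} log |2 s k - F2 d|`, nonzero by NDA. -/
def Stmt_NODEF : Prop := ∀ (s : ℕ → ℤ) (C₀ : ℝ) (N M P m J : ℕ) (H : ℤ) (x a i₀ : ℕ) (h : ℤ)
  (B : Finset ℕ), ZF s C₀ N M P m J H x a i₀ h B →
  ∀ k : ℕ, a + 10 * x ≤ k → k ≤ a + 30 * x → 2 * s k = F2 s i₀ h k

/-! ZONE is `Stmt_ZONE` of `InterfaceC`: from ZDX, PICK, MAJ, HX, HPOS, NODEF with `x = m / 128`,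
`v = a + 10 x`, `Z = 20 x`. -/

end Pool.Agent.Work.MP_b29d7f_cvx
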