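import Pool.Agent.Work.MP_b29d7f_cvx.Interface2

/-!
# The nested congruent pairs of a central flat window (helper23)

Common part of the blocks SQL and TYL of MP_b29d7f (convex sets, note 2696, 3.4).
-/

namespace Pool.Agent.Work.MP_b29d7f_cvx

open Finset
open Pool.Agent.Work.MP_b29d7f_sep (nv EW EL)

/-- the congruent pairs of a central flat window, strictly nested -/
theorem MatL_exists (hPAD : Stmt_PAD) (hPAE : Stmt_PAE) (hCHAIN : Stmt_CHAIN) (hMAT : Stmt_MAT)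
    (s : ℕ → ℤ) (C₀ : ℝ) (hs : Cvx s C₀) (p : ℕ) (hp : p.Prime) (u m : ℕ) (H : ℤ)
    (hflat : Flat s H m u) (hH : H * (m : ℤ) ^ 2 < p) (hm : m < p) (hc : Cent p s u m)
    (hW : nv p s u < nv p s (u + m)) :
    ∃ PP : Finset (ℕ × ℕ),
      (∀ z ∈ PP, u ≤ z.1 ∧ z.1 < z.2 ∧ z.2 ≤ u + m ∧ nv p s z.1 = nv p s u ∧
        nv p s z.2 = nv p s (u + m) ∧ (p : ℤ) ∣ s z.2 - s z.1) ∧
      (∀ z ∈ PP, ∀ z' ∈ PP, z.1 < z'.1 → z'.2 < z.2) ∧
      (∀ z ∈ PP, ∀ z' ∈ PP, z.1 = z'.1 → z = z') ∧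
      (∀ z ∈ PP, vl p s z.2 z.1 ≤ nv p s (u + m) - nv p s u) ∧
      ((nv p s (u + m) : ℝ) - nv p s u) * (1 / 2 - 3 / 10 ^ 10) * m - Dfc p s u m ≤
        ∑ z ∈ PP, (vl p s z.2 z.1 : ℝ) := by
  classical
  obtain ⟨hmono, -, -, hF2⟩ := hPAD s C₀ hs p hp
  obtain ⟨hsymm, -, hvl0, -, -, -, hdist⟩ := hPAE s C₀ hs p hp
  let T : Finset (ℕ × ℕ) := (Icc u (u + m)) ×ˢ (Icc u (u + m))
  let PP : Finset (ℕ × ℕ) := T.filter (fun z => z.1 < z.2 ∧ nv p s z.1 = nv p s u ∧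
    nv p s z.2 = nv p s (u + m) ∧ (p : ℤ) ∣ s z.2 - s z.1)
  have hmem : ∀ z, z ∈ PP ↔ (u ≤ z.1 ∧ z.1 < z.2 ∧ z.2 ≤ u + m ∧ nv p s z.1 = nv p s u ∧
        nv p s z.2 = nv p s (u + m) ∧ (p : ℤ) ∣ s z.2 - s z.1) := by
    intro z
    show z ∈ T.filter _ ↔ _
    rw [mem_filter, mem_product, mem_Icc, mem_Icc]
    constructor
    · rintro ⟨⟨⟨h1, _⟩, ⟨_, h4⟩⟩, h5, h6, h7, h8⟩
      exact ⟨h1, h5, h4, h6, h7, h8⟩
    · rintro ⟨h1, h5, h4, h6, h7, h8⟩
      exact ⟨⟨⟨h1, by omega⟩, ⟨by omega, h4⟩⟩, h5, h6, h7, h8⟩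
  refine ⟨PP, fun z hz => (hmem z).1 hz, ?_, ?_, ?_, ?_⟩
  · intro z hz z' hz' hlt
    obtain ⟨a1, a2, a3, a4, a5, a6⟩ := (hmem z).1 hz
    obtain ⟨b1, b2, b3, b4, b5, b6⟩ := (hmem z').1 hz'
    have hx : z'.1 < z.2 := by
      by_contra hcon
      have := hmono (not_lt.1 hcon)
      omega
    have h1 : z'.1 ≤ min z.2 z'.2 - 1 := by
      have : z'.1 < min z.2 z'.2 := lt_min hx b2
      omega
    have hmin1 : min z.2 z'.2 ≤ z.2 := min_le_left _ _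
    have hmin2 : min z.2 z'.2 ≤ z'.2 := min_le_right _ _
    have hminpos : 1 ≤ min z.2 z'.2 := by
      have : z'.1 < min z.2 z'.2 := lt_min hx b2
      omega
    have hnvmin : nv p s (min z.2 z'.2) = nv p s (u + m) := by
      rcases min_choice z.2 z'.2 with e | e <;> rw [e] <;> assumption
    refine (hCHAIN s hs.mono hs.gp_mono p u m z'.1 (min z.2 z'.2 - 1) H hp hflat hH hm b1 h1
      (by omega) ?_ ?_ z.1 z.2 z'.1 z'.2 a1 hlt le_rfl (by omega) a3 (by omega) b3 a6 b6).1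
    · intro i i' h2 h3 h4
      exact hdist u z'.1 i i' h2 h3 h4 b4
    · intro j j' h2 h3 h4
      refine hdist (min z.2 z'.2) (u + m) j j' (by omega) h3 h4 ?_
      rw [hnvmin]
  · intro z hz z' hz' he
    obtain ⟨a1, a2, a3, a4, a5, a6⟩ := (hmem z).1 hz
    obtain ⟨b1, b2, b3, b4, b5, b6⟩ := (hmem z').1 hz'
    rcases lt_trichotomy z.2 z'.2 with h | h | h
    · exfalso
      refine hdist z.2 (u + m) z.2 z'.2 le_rfl h b3 a5.symm ?_
      have : s z'.2 - s z.2 = (s z'.2 - s z'.1) - (s z.2 - s z.1) := by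
        rw [he]; ring
      rw [this]
      exact dvd_sub b6 a6
    · exact Prod.ext he h
    · exfalso
      refine hdist z'.2 (u + m) z'.2 z.2 le_rfl h a3 b5.symm ?_
      have : s z.2 - s z'.2 = (s z.2 - s z.1) - (s z'.2 - s z'.1) := by
        rw [he]; ring
      rw [this]
      exact dvd_sub a6 b6
  · intro z hz
    obtain ⟨a1, a2, a3, a4, a5, a6⟩ := (hmem z).1 hz
    have h1 := hF2 u (u + m) z.2 (by omega) a3
    have h2 : vl p s z.2 z.1 ≤ ∑ l ∈ (Icc u (u + m)).erase z.2, vl p s z.2 l := by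
      refine single_le_sum (f := fun l => vl p s z.2 l) (fun _ _ => Nat.zero_le _) ?_
      exact mem_erase.2 ⟨by omega, mem_Icc.2 ⟨a1, by omega⟩⟩
    omega
  · refine (hMAT s C₀ hs p hp u m hc hW).trans ?_
    have e1 : (∑ i ∈ Icc u (u + m), ∑ j ∈ Ioc i (u + m),
        (if nv p s i = nv p s u ∧ nv p s j = nv p s (u + m) then (vl p s j i : ℝ) else 0)) =
        ∑ z ∈ T, (if z.1 < z.2 ∧ nv p s z.1 = nv p s u ∧ nv p s z.2 = nv p s (u + m)
          then (vl p s z.2 z.1 : ℝ) else 0) := by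
      show _ = ∑ z ∈ (Icc u (u + m)) ×ˢ (Icc u (u + m)), _
      rw [sum_product]
      refine sum_congr rfl (fun i hi => ?_)
      have hi' := mem_Icc.1 hi
      have e2 : Ioc i (u + m) = (Icc u (u + m)).filter (fun j => i < j) := by
        ext j
        rw [mem_filter, mem_Ioc, mem_Icc]
        omega
      rw [e2, sum_filter]
      refine sum_congr rfl (fun j _ => ?_)
      by_cases h : i < j
      · simp only [h, true_and, if_true]
      · simp only [h, false_and, if_false]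
    rw [e1]
    have e3 : (∑ z ∈ PP, (vl p s z.2 z.1 : ℝ)) = ∑ z ∈ T, (if (z.1 < z.2 ∧ nv p s z.1 = nv p s u ∧
        nv p s z.2 = nv p s (u + m) ∧ (p : ℤ) ∣ s z.2 - s z.1) then (vl p s z.2 z.1 : ℝ) else 0) :=
      sum_filter _ _
    rw [e3]
    refine sum_le_sum (fun z hz => ?_)
    by_cases h : z.1 < z.2 ∧ nv p s z.1 = nv p s u ∧ nv p s z.2 = nv p s (u + m)
    · rw [if_pos h]
      by_cases hd : (p : ℤ) ∣ s z.2 - s z.1
      · rw [if_pos ⟨h.1, h.2.1, h.2.2, hd⟩]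
      · rw [if_neg (fun h' => hd h'.2.2.2)]
        have h0 := (hvl0 z.2 z.1 (by omega)).2 hd
        rw [h0]
        norm_num
    · rw [if_neg h, if_neg (fun h' => h ⟨h'.1, h'.2.1, h'.2.2.1⟩)]

/-- pairs whose lengths differ by at least `d` -/
theorem MatL_card (PP : Finset (ℕ × ℕ)) (m d : ℕ) (hd : 0 < d)
    (h1 : ∀ z ∈ PP, z.1 < z.2 ∧ z.2 ≤ z.1 + m)
    (h2 : ∀ z ∈ PP, ∀ z' ∈ PP, z.1 < z'.1 → z'.2 - z'.1 + d ≤ z.2 - z.1)
    (h3 : ∀ z ∈ PP, ∀ z' ∈ PP, z.1 = z'.1 → z = z') : PP.card ≤ m / d + 1 := by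
  have h4 : ∀ z ∈ PP, (z.2 - z.1) / d ∈ range (m / d + 1) := by
    intro z hz
    rw [mem_range, Nat.lt_succ_iff]
    refine Nat.div_le_div_right ?_
    have := h1 z hz
    omega
  have h5 : ∀ z ∈ PP, ∀ z' ∈ PP, (z.2 - z.1) / d = (z'.2 - z'.1) / d → z = z' := by
    intro z hz z' hz' he
    rcases lt_trichotomy z.1 z'.1 with h | h | h
    · exfalso
      have h6 := h2 z hz z' hz' h
      have h7 : (z'.2 - z'.1 + d) / d ≤ (z.2 - z.1) / d := Nat.div_le_div_right h6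
      rw [Nat.add_div_right _ hd] at h7
      omega
    · exact h3 z hz z' hz' h
    · exfalso
      have h6 := h2 z' hz' z hz h
      have h7 : (z.2 - z.1 + d) / d ≤ (z'.2 - z'.1) / d := Nat.div_le_div_right h6
      rw [Nat.add_div_right _ hd] at h7
      omega
  have := Finset.card_le_card_of_injOn (fun z : ℕ × ℕ => (z.2 - z.1) / d) h4
    (fun z hz z' hz' he => h5 z hz z' hz' he)
  rwa [card_range] at this

end Pool.Agent.Work.MP_b29d7f_cvx
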