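import Pool.Agent.Work.MP_b29d7f_cvx.InterfaceC

/-! # MP_b29d7f: logarithmic form of the scales (helper34), for NUMC and NUME -/

set_option autoImplicit false

namespace Pool.Agent.Work.MP_b29d7f_cvx

open Finset

namespace NumS

theorem log_floor {t : ℝ} (ht : 1 ≤ t) :
    1 ≤ ⌊t⌋₊ ∧ Real.log t - 1 ≤ Real.log (⌊t⌋₊ : ℝ) ∧ Real.log (⌊t⌋₊ : ℝ) ≤ Real.log t := by
  have h1 : 1 ≤ ⌊t⌋₊ := Nat.one_le_floor_iff t |>.2 ht
  have h2 : (1 : ℝ) ≤ (⌊t⌋₊ : ℝ) := by exact_mod_cast h1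
  have h3 : (⌊t⌋₊ : ℝ) ≤ t := Nat.floor_le (by linarith)
  have h4 : t < (⌊t⌋₊ : ℝ) + 1 := Nat.lt_floor_add_one t
  refine ⟨h1, ?_, Real.log_le_log (by linarith) h3⟩
  have h5 : Real.log t ≤ Real.log (2 * (⌊t⌋₊ : ℝ)) := Real.log_le_log (by linarith) (by linarith)
  rw [Real.log_mul (by norm_num) (by linarith)] at h5
  have := Real.log_two_lt_d9
  linarith

/-- logarithms of the three scales -/
structure Scl (n : ℕ) (B : ℝ) : Prop where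
  ln : B ≤ Real.log n
  n_pos : 1 ≤ n
  q_lo : Real.log n - 3 ≤ Real.log ((n / 4 : ℕ) : ℝ)
  q_hi : Real.log ((n / 4 : ℕ) : ℝ) ≤ Real.log n
  q_pos : 1 ≤ n / 4
  x_pos : 1 ≤ ⌊(n : ℝ) ^ gam⌋₊
  x_lo : gam * Real.log n - 1 ≤ Real.log ((⌊(n : ℝ) ^ gam⌋₊ : ℕ) : ℝ)
  x_hi : Real.log ((⌊(n : ℝ) ^ gam⌋₊ : ℕ) : ℝ) ≤ gam * Real.log n
  y_pos : 1 ≤ ⌊(⌊(n : ℝ) ^ gam⌋₊ : ℝ) ^ gam⌋₊
  y_lo : gam * Real.log ((⌊(n : ℝ) ^ gam⌋₊ : ℕ) : ℝ) - 1 ≤
    Real.log ((⌊(⌊(n : ℝ) ^ gam⌋₊ : ℝ) ^ gam⌋₊ : ℕ) : ℝ)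
  y_hi : Real.log ((⌊(⌊(n : ℝ) ^ gam⌋₊ : ℝ) ^ gam⌋₊ : ℕ) : ℝ) ≤
    gam * Real.log ((⌊(n : ℝ) ^ gam⌋₊ : ℕ) : ℝ)

theorem gam_pos : 0 < gam := by unfold gam cc; norm_num

theorem scl (B : ℝ) (hB : 8 ≤ B) : ∃ n₀ : ℕ, ∀ n : ℕ, n₀ ≤ n → Scl n B := by
  refine ⟨⌈Real.exp B⌉₊, fun n hn => ?_⟩
  have h1 : Real.exp B ≤ n := (Nat.le_ceil _).trans (by exact_mod_cast hn)
  have h2 : B ≤ Real.log n := by
    rw [← Real.log_exp B]
    exact Real.log_le_log (Real.exp_pos _) h1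
  have h3 : (8 : ℝ) < n := by
    have := Real.add_one_le_exp B
    linarith
  have hn8 : 8 < n := by exact_mod_cast h3
  have hnpos : (0 : ℝ) < n := by linarith
  have hlogpos : 0 ≤ Real.log n := by linarith
  -- the quarter
  have q1 : 1 ≤ n / 4 := by omega
  have q2 : ((n / 4 : ℕ) : ℝ) ≤ n := by exact_mod_cast Nat.div_le_self n 4
  have q3 : (n : ℝ) ≤ 8 * ((n / 4 : ℕ) : ℝ) := by
    have : n ≤ 8 * (n / 4) := by omega
    exact_mod_cast this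
  have q4 : (1 : ℝ) ≤ ((n / 4 : ℕ) : ℝ) := by exact_mod_cast q1
  have q5 : Real.log n ≤ Real.log (8 * ((n / 4 : ℕ) : ℝ)) := Real.log_le_log hnpos q3
  rw [Real.log_mul (by norm_num) (by linarith)] at q5
  have q6 : Real.log 8 ≤ 3 := by
    have : (8 : ℝ) = 2 ^ 3 := by norm_num
    rw [this, Real.log_pow]
    have := Real.log_two_lt_d9
    push_cast
    linarith
  -- the floors
  have hx1 : (1 : ℝ) ≤ (n : ℝ) ^ gam := Real.one_le_rpow (by linarith) gam_pos.le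
  obtain ⟨a1, a2, a3⟩ := log_floor hx1
  rw [Real.log_rpow hnpos] at a2 a3
  have a1' : (1 : ℝ) ≤ ((⌊(n : ℝ) ^ gam⌋₊ : ℕ) : ℝ) := by exact_mod_cast a1
  have hy1 : (1 : ℝ) ≤ ((⌊(n : ℝ) ^ gam⌋₊ : ℕ) : ℝ) ^ gam :=
    Real.one_le_rpow a1' gam_pos.le
  obtain ⟨b1, b2, b3⟩ := log_floor hy1
  rw [Real.log_rpow (by linarith)] at b2 b3
  exact ⟨h2, by omega, by linarith, Real.log_le_log (by linarith) q2, q1, a1, a2, a3, b1, b2, b3⟩

/-- logarithmic facts of a zone -/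
structure ZL (s : ℕ → ℤ) (N v Z : ℕ) (h : ℤ) : Prop where
  v_pos : 1 ≤ v
  Z_pos : 1 ≤ Z
  Zv : Z ≤ v
  v_lo : Real.log N - 1 ≤ Real.log v
  v_hi : Real.log v ≤ Real.log N
  Z_lo : cc / 3 * Real.log N ≤ Real.log Z
  h_hi : Real.log h ≤ 20 * ep * Real.log N
  h_one : (1 : ℝ) ≤ h
  vN : v ≤ N

theorem zl {s : ℕ → ℤ} {N v Z : ℕ} {h : ℤ} (hN : 1 ≤ N) (hz : ZoneAt s N v Z h) :
    ZL s N v Z h := by
  obtain ⟨low, high, len, one_le, small, -⟩ := hz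
  have hNR : (1 : ℝ) ≤ N := by exact_mod_cast hN
  have hNpos : (0 : ℝ) < N := by linarith
  have hv : 1 ≤ v := by omega
  have hvR : (1 : ℝ) ≤ v := by exact_mod_cast hv
  have hpow : (1 : ℝ) ≤ (N : ℝ) ^ (cc / 3) :=
    Real.one_le_rpow hNR (by unfold cc; norm_num)
  have hZR : (1 : ℝ) ≤ Z := hpow.trans len
  have hZ : 1 ≤ Z := by exact_mod_cast hZR
  have hh : (1 : ℝ) ≤ h := by exact_mod_cast one_le
  have hvN : v ≤ N := by omega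
  refine ⟨hv, hZ, by omega, ?_, Real.log_le_log (by linarith) (by exact_mod_cast hvN), ?_, ?_, hh,
    hvN⟩
  · have h5 : Real.log N ≤ Real.log (2 * (v : ℝ)) :=
      Real.log_le_log (by linarith) (by exact_mod_cast low)
    rw [Real.log_mul (by norm_num) (by linarith)] at h5
    have := Real.log_two_lt_d9
    linarith
  · have := Real.log_le_log (by linarith) len
    rwa [Real.log_rpow hNpos] at this
  · have := Real.log_le_log (by linarith) small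
    rwa [Real.log_rpow hNpos] at this

/-- the range condition in logarithmic form -/
theorem rng {s : ℕ → ℤ} {n k : ℕ} (hn : 1 ≤ n) (h : Rng s c0 ep n) (hk : 1 ≤ k) (hkn : k ≤ n)
    (hl : c0 * Real.log n ≤ Real.log k) :
    (2 - ep) * Real.log k ≤ Real.log (s k) ∧ Real.log (s k) ≤ (2 + ep) * Real.log k := by
  have hnpos : (0 : ℝ) < n := by exact_mod_cast hn
  have hkpos : (0 : ℝ) < k := by exact_mod_cast hk
  have h1 : (n : ℝ) ^ c0 ≤ k := by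
    rw [← Real.log_le_log_iff (Real.rpow_pos_of_pos hnpos _) hkpos, Real.log_rpow hnpos]
    exact hl
  have h2 := abs_le.1 (h k h1 hkn)
  constructor <;> nlinarith [h2.1, h2.2]

theorem le_of_log {x y : ℝ} (hx : 0 < x) (hy : 0 < y) (h : Real.log x ≤ Real.log y) : x ≤ y :=
  (Real.log_le_log_iff hx hy).1 h

end NumS

end Pool.Agent.Work.MP_b29d7f_cvx
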